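import Pool.Agent.Lib.H94M.TS

/-!
# H94M: Theorem S for a general power series (`rel_gen`)

`h` a power series with rational coefficients of polynomial growth; the denominators of the `n`-th
coefficient contain only primes of an exceptional set `E` and only prime powers `≤ B (n+1)^d`;
`E` contains `o(X^(1/d)/log X)` primes up to `X`; for the other primes `p > p₀` of a set `R` of positive
lower density the reduction of `h` is in a graded family with a Sturm bound, of weight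
`2w' + (p-1)A`. Then `Rel w' h`.
-/

open Finset

namespace H94M

open PowerSeries H53M

/-- The denominators. -/
def DG (E : ℕ → Prop) [DecidablePred E] (B d n : ℕ) : ℕ :=
  ∏ p ∈ (range (B * (n + 1) ^ d + 1)).filter (fun p => p.Prime ∧ E p),
    p ^ Nat.log p (B * (n + 1) ^ d)

theorem DG_pos (E : ℕ → Prop) [DecidablePred E] (B d n : ℕ) : 0 < DG E B d n := by
  unfold DG
  refine Finset.prod_pos fun p hp => ?_
  exact Nat.pow_pos (Finset.mem_filter.1 hp).2.1.pos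

theorem DG_dvd (E : ℕ → Prop) [DecidablePred E] (B d n : ℕ) : DG E B d n ∣ DG E B d (n + 1) := by
  unfold DG
  have hle : B * (n + 1) ^ d ≤ B * (n + 1 + 1) ^ d :=
    Nat.mul_le_mul_left B (Nat.pow_le_pow_left (Nat.le_succ _) d)
  refine (Finset.prod_dvd_prod_of_dvd _ (fun p => p ^ Nat.log p (B * (n + 1 + 1) ^ d)) ?_).trans
    (Finset.prod_dvd_prod_of_subset _ _ _ ?_)
  · intro p _
    exact pow_dvd_pow p (Nat.log_mono_right hle)
  · intro p hp
    rw [mem_filter, mem_range] at hp ⊢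
    exact ⟨by omega, hp.2⟩

theorem DG_den (E : ℕ → Prop) [DecidablePred E] (B d n : ℕ) (x : ℚ)
    (hden : ∀ p : ℕ, p.Prime → p ^ padicValNat p x.den ≤ B * (n + 1) ^ d)
    (hint : ∀ p : ℕ, p.Prime → ¬ E p → ¬ p ∣ x.den) :
    ∃ z : ℤ, (DG E B d n : ℚ) * x = z := by
  have hdvd : x.den ∣ DG E B d n := by
    have hx0 : x.den ≠ 0 := x.den_nz
    rw [← Nat.factorization_le_iff_dvd hx0 (DG_pos E B d n).ne']
    intro p
    by_cases hp : p.Prime
    · by_cases hpd : p ∣ x.den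
      · have hE : E p := by
          by_contra h
          exact hint p hp h hpd
        have h1 : x.den.factorization p = padicValNat p x.den := Nat.factorization_def _ hp
        have h2 := hden p hp
        have h3 : 1 ≤ padicValNat p x.den := by
          haveI : Fact p.Prime := ⟨hp⟩
          exact one_le_padicValNat_of_dvd hx0 hpd
        have h4 : p ≤ B * (n + 1) ^ d := by
          refine le_trans ?_ h2
          calc p = p ^ 1 := (pow_one p).symm
            _ ≤ p ^ padicValNat p x.den := Nat.pow_le_pow_right hp.pos h3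
        have h5 : padicValNat p x.den ≤ Nat.log p (B * (n + 1) ^ d) :=
          Nat.le_log_of_pow_le hp.one_lt h2
        have h6 : p ^ Nat.log p (B * (n + 1) ^ d) ∣ DG E B d n := by
          unfold DG
          exact Finset.dvd_prod_of_mem (fun p => p ^ Nat.log p (B * (n + 1) ^ d))
            (by rw [mem_filter, mem_range]; exact ⟨by omega, hp, hE⟩)
        have h7 : Nat.log p (B * (n + 1) ^ d) ≤ (DG E B d n).factorization p :=
          (hp.pow_dvd_iff_le_factorization (DG_pos E B d n).ne').1 h6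
        rw [h1]
        exact h5.trans h7
      · rw [Nat.factorization_eq_zero_of_not_dvd hpd]
        exact Nat.zero_le _
    · rw [Nat.factorization_eq_zero_of_not_prime _ hp]
      exact Nat.zero_le _
  obtain ⟨m, hm⟩ := hdvd
  refine ⟨m * x.num, ?_⟩
  rw [hm]
  push_cast
  have h1 : (x.den : ℚ) ≠ 0 := by exact_mod_cast x.den_nz
  have h2 : (x.den : ℚ) * x = x.num := by
    rw [mul_comm]
    exact Rat.mul_den_eq_num x
  calc (x.den : ℚ) * m * x = m * ((x.den : ℚ) * x) := by ring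
    _ = m * x.num := by rw [h2]

theorem log_DG_le (E : ℕ → Prop) [DecidablePred E] (B d n : ℕ) (hB : 1 ≤ B) :
    Real.log (DG E B d n) ≤
    (((range (B * (n + 1) ^ d + 1)).filter (fun p => p.Prime ∧ E p)).card : ℝ) *
      Real.log ((B * (n + 1) ^ d : ℕ) : ℝ) := by
  have hpos : B * (n + 1) ^ d ≠ 0 := by positivity
  unfold DG
  push_cast
  rw [Real.log_prod (fun p hp => by
    have := (mem_filter.1 hp).2.1.pos
    positivity), ← nsmul_eq_mul]
  refine Finset.sum_le_card_nsmul _ _ _ ?_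
  intro p hp
  have hpp := (mem_filter.1 hp).2.1
  have h1 : p ^ Nat.log p (B * (n + 1) ^ d) ≤ B * (n + 1) ^ d := Nat.pow_log_le_self p hpos
  have h2 : ((p : ℝ)) ^ Nat.log p (B * (n + 1) ^ d) ≤ ((B * (n + 1) ^ d : ℕ) : ℝ) := by
    exact_mod_cast h1
  have h3 : (0 : ℝ) < (p : ℝ) ^ Nat.log p (B * (n + 1) ^ d) := by
    have := hpp.pos
    positivity
  have h4 := Real.log_le_log h3 h2
  push_cast at h4
  exact h4

theorem log_DG_small (E : ℕ → Prop) [DecidablePred E] (B d : ℕ) (hB : 1 ≤ B) (hd : 1 ≤ d)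
    (hE : ∀ ε : ℝ, 0 < ε → ∃ X₀ : ℕ, ∀ X ≥ X₀,
      (((range (X + 1)).filter (fun p => p.Prime ∧ E p)).card : ℝ) * Real.log X ≤
        ε * (X : ℝ) ^ (1 / (d : ℝ))) (ε : ℝ) (hε : 0 < ε) :
    ∃ N₀ : ℕ, ∀ n ≥ N₀, Real.log (DG E B d n) ≤ ε * n := by
  have hBr : (1 : ℝ) ≤ B := by exact_mod_cast hB
  obtain ⟨X₀, hX⟩ := hE (ε / (2 * B)) (by positivity)
  refine ⟨max X₀ 1, fun n hn => ?_⟩
  have hn1 : 1 ≤ n := (le_max_right _ _).trans hn
  have hn0 : X₀ ≤ n := (le_max_left _ _).trans hn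
  have h1 : X₀ ≤ B * (n + 1) ^ d := by
    have a1 : n + 1 ≤ (n + 1) ^ d := Nat.le_self_pow (by omega) _
    have a2 : (n + 1) ^ d ≤ B * (n + 1) ^ d := Nat.le_mul_of_pos_left _ (by omega)
    omega
  have h2 := (log_DG_le E B d n hB).trans (hX _ h1)
  refine h2.trans ?_
  have h3 : (((B * (n + 1) ^ d : ℕ) : ℝ)) ^ (1 / (d : ℝ)) ≤ B * ((n : ℝ) + 1) := by
    have a1 : ((B * (n + 1) ^ d : ℕ) : ℝ) ≤ ((B : ℝ) * ((n : ℝ) + 1)) ^ d := by
      push_cast
      rw [mul_pow]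
      refine mul_le_mul_of_nonneg_right ?_ (by positivity)
      exact le_self_pow₀ hBr (by omega)
    have a2 : (0 : ℝ) ≤ (B : ℝ) * ((n : ℝ) + 1) := by positivity
    calc (((B * (n + 1) ^ d : ℕ) : ℝ)) ^ (1 / (d : ℝ))
        ≤ (((B : ℝ) * ((n : ℝ) + 1)) ^ d) ^ (1 / (d : ℝ)) :=
          Real.rpow_le_rpow (Nat.cast_nonneg _) a1 (by positivity)
      _ = B * ((n : ℝ) + 1) := by
          rw [one_div]
          exact Real.pow_rpow_inv_natCast a2 (by omega)
  have hn1' : (1 : ℝ) ≤ n := by exact_mod_cast hn1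
  calc ε / (2 * B) * (((B * (n + 1) ^ d : ℕ) : ℝ)) ^ (1 / (d : ℝ))
      ≤ ε / (2 * B) * (B * ((n : ℝ) + 1)) := mul_le_mul_of_nonneg_left h3 (by positivity)
    _ = ε / 2 * ((n : ℝ) + 1) := by
        field_simp
    _ ≤ ε * n := by nlinarith

/-- The good primes. -/
def GG (E R : ℕ → Prop) (p₀ p : ℕ) : Prop := p.Prime ∧ 3 < p ∧ p₀ < p ∧ R p ∧ ¬ E p

theorem GG_theta (E R : ℕ → Prop) [DecidablePred E] [DecidablePred R] (p₀ d : ℕ)
    [DecidablePred (GG E R p₀)] (hd : 1 ≤ d)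
    (hE : ∀ ε : ℝ, 0 < ε → ∃ X₀ : ℕ, ∀ X ≥ X₀,
      (((range (X + 1)).filter (fun p => p.Prime ∧ E p)).card : ℝ) * Real.log X ≤
        ε * (X : ℝ) ^ (1 / (d : ℝ))) (c0 : ℝ) (hc0 : 0 < c0)
    (hR : ∃ X₀ : ℕ, ∀ X ≥ X₀, c0 * (X : ℝ) ≤
      ∑ p ∈ (range (X + 1)).filter (fun p => p.Prime ∧ R p), Real.log p) :
    ∃ X₀ : ℕ, ∀ X ≥ X₀, (c0 / 2) * (X : ℝ) ≤
      ∑ p ∈ (range (X + 1)).filter (GG E R p₀), Real.log p := by
  obtain ⟨X1, h1⟩ := hR
  obtain ⟨X2, h2⟩ := hE (c0 / 4) (by positivity)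
  obtain ⟨K, hK⟩ : ∃ K, K = ∑ p ∈ range (p₀ + 4), Real.log (p : ℝ) := ⟨_, rfl⟩
  obtain ⟨X3, h3⟩ := exists_nat_gt (4 * K / c0)
  refine ⟨max (max X1 X2) (max X3 1), fun X hX => ?_⟩
  have hX1 : X1 ≤ X := le_trans (le_trans (le_max_left _ _) (le_max_left _ _)) hX
  have hX2 : X2 ≤ X := le_trans (le_trans (le_max_right _ _) (le_max_left _ _)) hX
  have hX3 : X3 ≤ X := le_trans (le_trans (le_max_left _ _) (le_max_right _ _)) hX
  have hX4 : 1 ≤ X := le_trans (le_trans (le_max_right _ _) (le_max_right _ _)) hX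
  have hX4' : (1 : ℝ) ≤ X := by exact_mod_cast hX4
  have a1 := h1 X hX1
  have a2 := h2 X hX2
  have hlog : ∀ p : ℕ, 0 ≤ Real.log (p : ℝ) := fun p => Real.log_natCast_nonneg p
  have hsub : (range (X + 1)).filter (fun p => p.Prime ∧ R p) ⊆
      ((range (X + 1)).filter (GG E R p₀) ∪ (range (X + 1)).filter (fun p => p.Prime ∧ E p)) ∪
        range (p₀ + 4) := by
    intro q hq
    rw [mem_filter, mem_range] at hq
    obtain ⟨hqX, hqp, hqR⟩ := hq
    rw [mem_union, mem_union, mem_filter, mem_filter, mem_range, mem_range]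
    by_cases hE' : E q
    · exact Or.inl (Or.inr ⟨by omega, hqp, hE'⟩)
    by_cases h5 : 3 < q ∧ p₀ < q
    · exact Or.inl (Or.inl ⟨by omega, hqp, h5.1, h5.2, hqR, hE'⟩)
    · right
      omega
  have h4 : ∑ q ∈ (range (X + 1)).filter (fun p => p.Prime ∧ R p), Real.log q ≤
      (∑ p ∈ (range (X + 1)).filter (GG E R p₀), Real.log p) +
      (∑ p ∈ (range (X + 1)).filter (fun p => p.Prime ∧ E p), Real.log p) + K := by
    refine (sum_le_sum_of_subset_of_nonneg hsub (fun p _ _ => hlog p)).trans ?_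
    have b1 := sum_union_inter (s₁ := (range (X + 1)).filter (GG E R p₀) ∪
      (range (X + 1)).filter (fun p => p.Prime ∧ E p)) (s₂ := range (p₀ + 4))
      (f := fun p : ℕ => Real.log (p : ℝ))
    have b2 := sum_union_inter (s₁ := (range (X + 1)).filter (GG E R p₀))
      (s₂ := (range (X + 1)).filter (fun p => p.Prime ∧ E p))
      (f := fun p : ℕ => Real.log (p : ℝ))
    have b3 : 0 ≤ ∑ p ∈ ((range (X + 1)).filter (GG E R p₀) ∪
      (range (X + 1)).filter (fun p => p.Prime ∧ E p)) ∩ range (p₀ + 4),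
        Real.log (p : ℝ) := sum_nonneg fun p _ => hlog p
    have b4 : 0 ≤ ∑ p ∈ ((range (X + 1)).filter (GG E R p₀) ∩
      (range (X + 1)).filter (fun p => p.Prime ∧ E p)),
        Real.log (p : ℝ) := sum_nonneg fun p _ => hlog p
    rw [← hK] at b1
    linarith
  have h5 : ∑ p ∈ (range (X + 1)).filter (fun p => p.Prime ∧ E p), Real.log p ≤
      (((range (X + 1)).filter (fun p => p.Prime ∧ E p)).card : ℝ) * Real.log X := by
    rw [← nsmul_eq_mul]
    refine sum_le_card_nsmul _ _ _ fun p hp => ?_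
    rw [mem_filter, mem_range] at hp
    have hp0 : (0 : ℝ) < p := by exact_mod_cast hp.2.1.pos
    exact Real.log_le_log hp0 (by exact_mod_cast (by omega : p ≤ X))
  have h6 : (X : ℝ) ^ (1 / (d : ℝ)) ≤ X := by
    have hd' : (1 : ℝ) ≤ d := by exact_mod_cast hd
    calc (X : ℝ) ^ (1 / (d : ℝ)) ≤ (X : ℝ) ^ (1 : ℝ) := by
          refine Real.rpow_le_rpow_of_exponent_le hX4' ?_
          rw [div_le_one (by linarith)]
          exact hd'
      _ = X := Real.rpow_one _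
  have h7 : K ≤ c0 / 4 * X := by
    have b1 : (X3 : ℝ) ≤ X := by exact_mod_cast hX3
    have b2 : 4 * K / c0 < X := lt_of_lt_of_le h3 b1
    rw [div_lt_iff₀ hc0] at b2
    linarith
  have h8 : c0 / 4 * (X : ℝ) ^ (1 / (d : ℝ)) ≤ c0 / 4 * X :=
    mul_le_mul_of_nonneg_left h6 (by positivity)
  linarith

/-- **Theorem S, general form.** -/
theorem rel_gen (d B w' A : ℕ) (hd : 1 ≤ d) (hB : 1 ≤ B) (hA : 1 ≤ A) (h : PowerSeries ℚ)
    (C : ℝ) (κ : ℕ) (hC : ∀ n, |((coeff n h : ℚ) : ℝ)| ≤ C * ((n : ℝ) + 1) ^ κ)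
    (E : ℕ → Prop)
    (hE : ∀ ε : ℝ, 0 < ε → ∃ X₀ : ℕ, ∀ X ≥ X₀,
      (Set.ncard {p : ℕ | p ≤ X ∧ p.Prime ∧ E p} : ℝ) * Real.log X ≤
        ε * (X : ℝ) ^ (1 / (d : ℝ)))
    (hden : ∀ n p : ℕ, p.Prime → p ^ padicValNat p (coeff n h).den ≤ B * (n + 1) ^ d)
    (hint : ∀ p : ℕ, p.Prime → ¬ E p → ∀ n, ¬ p ∣ (coeff n h).den)
    (R : ℕ → Prop) (c0 : ℝ) (hc0 : 0 < c0)
    (hR : ∃ X₀ : ℕ, ∀ X ≥ X₀, c0 * (X : ℝ) ≤
      ∑ᶠ p ∈ {p : ℕ | p ≤ X ∧ p.Prime ∧ R p}, Real.log p)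
    (p₀ μ s : ℕ) (hμ : 1 ≤ μ)
    (hr : ∀ p [Fact p.Prime], 3 < p → p₀ < p → R p → ¬ E p →
      ∃ M : ℕ → Submodule (ZMod p) (PowerSeries (ZMod p)),
        MFam p μ s M ∧ redQ p h ∈ M (2 * w' + (p - 1) * A)) :
    Rel w' h := by
  classical
  have hset : ∀ (Q : ℕ → Prop) (X : ℕ), {p : ℕ | p ≤ X ∧ p.Prime ∧ Q p} =
      (((range (X + 1)).filter (fun p => p.Prime ∧ Q p) : Finset ℕ) : Set ℕ) := by
    intro Q X
    ext p
    simp only [Set.mem_setOf_eq, coe_filter, mem_range]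
    constructor
    · rintro ⟨a, b⟩
      exact ⟨by omega, b⟩
    · rintro ⟨a, b⟩
      exact ⟨by omega, b⟩
  have hE' : ∀ ε : ℝ, 0 < ε → ∃ X₀ : ℕ, ∀ X ≥ X₀,
      (((range (X + 1)).filter (fun p => p.Prime ∧ E p)).card : ℝ) * Real.log X ≤
        ε * (X : ℝ) ^ (1 / (d : ℝ)) := by
    intro ε hε
    obtain ⟨X₀, h⟩ := hE ε hε
    refine ⟨X₀, fun X hX => ?_⟩
    have h1 := h X hX
    rw [hset E X, Set.ncard_coe_finset] at h1
    exact h1
  have hR' : ∃ X₀ : ℕ, ∀ X ≥ X₀, c0 * (X : ℝ) ≤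
      ∑ p ∈ (range (X + 1)).filter (fun p => p.Prime ∧ R p), Real.log p := by
    obtain ⟨X₀, h⟩ := hR
    refine ⟨X₀, fun X hX => ?_⟩
    have h1 := h X hX
    rw [hset R X, finsum_mem_coe_finset] at h1
    exact h1
  refine thmS_fam w' A hA h C κ hC (DG E B d) (DG_pos E B d) (DG_dvd E B d)
    (fun n => DG_den E B d n _ (hden n) (fun p hp hEp => hint p hp hEp n))
    (log_DG_small E B d hB hd hE') (GG E R p₀)
    (fun p hp => ⟨hp.1, hp.2.1⟩)
    (c0 / 2) (by positivity) (GG_theta E R p₀ d hd hE' c0 hc0 hR') ?_ μ s hμ ?_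
  · intro p hp n
    exact hint p hp.1 hp.2.2.2.2 n
  · intro p _ hp
    exact hr p hp.2.1 hp.2.2.1 hp.2.2.2.1 hp.2.2.2.2

end H94M
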