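import Pool.Agent.Lib.H94M.KG
import Pool.Agent.Lib.H53M.KMF

/-!
# H94M, chunk KMF: a `q`-series with the right transformation laws is a modular form on `Γ₀(N)`
-/

namespace H94M

open H53M PowerSeries UpperHalfPlane ModularForm
open scoped MatrixGroups ModularForm Manifold

theorem KMFN (N : ℕ) [NeZero N] (f : PowerSeries ℂ) (hf : CG f) (w : ℕ)
    (h : ∀ A B C D : ℤ, A * D - B * C = 1 → (N : ℤ) ∣ C → ∀ z : ℂ, 0 < z.im →
      ev f ((A * z + B) / (C * z + D)) = (C * z + D) ^ w * ev f z) :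
    ∃ F : ModularForm (G0 N) (w : ℤ), qExpansion 1 F = f := by
  obtain ⟨hcv, C₀, A₀, hgr⟩ := MG_ev hf
  set F₀ : ℍ → ℂ := fun τ : ℍ => ev f (τ : ℂ) with hF₀
  have hinv : ∀ γ ∈ CongruenceSubgroup.Gamma0 N, F₀ ∣[(w : ℤ)] γ = F₀ := by
    intro γ hγ
    ext τ
    rw [ModularForm.slash_action_eq'_iff]
    have hdet : γ 0 0 * γ 1 1 - γ 0 1 * γ 1 0 = 1 := by
      have := γ.det_coe
      rwa [Matrix.det_fin_two] at this
    have hC : (N : ℤ) ∣ γ 1 0 := by
      rw [CongruenceSubgroup.Gamma0_mem] at hγ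
      exact (ZMod.intCast_zmod_eq_zero_iff_dvd _ _).1 hγ
    have h1 := h _ _ _ _ hdet hC τ τ.im_pos
    have h2 : ((γ • τ : ℍ) : ℂ) = ((γ 0 0 : ℂ) * τ + γ 0 1) / (γ 1 0 * τ + γ 1 1) := by
      rw [UpperHalfPlane.specialLinearGroup_apply]
      simp
    simp only [hF₀]
    rw [h2, h1, zpow_natCast]
  have hhol : MDiff F₀ := by
    rw [UpperHalfPlane.mdifferentiable_iff]
    refine (KMF_diff f hcv).congr fun z hz => ?_
    simp [hF₀, ofComplex_apply_of_im_pos hz]
  have hbdd : ∀ g : SL(2, ℤ), IsBoundedAtImInfty (F₀ ∣[(w : ℤ)] g) := fun g =>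
    MG_bdd (Γ := CongruenceSubgroup.Gamma0 N) (w : ℤ) F₀ hhol hinv C₀ A₀
      (fun z => hgr z z.im_pos) g
  let F : ModularForm (G0 N) (w : ℤ) :=
    { toFun := F₀
      slash_action_eq' := by
        rintro A ⟨A, hA, rfl⟩
        exact hinv A hA
      holo' := hhol
      bdd_at_cusps' := by
        intro c hc
        rw [Subgroup.IsArithmetic.isCusp_iff_isCusp_SL2Z] at hc
        rw [OnePoint.isBoundedAt_iff_forall_SL2Z hc]
        intro γ _
        exact hbdd γ }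
  refine ⟨F, ?_⟩
  have h1 : (1 : ℝ) ∈ (G0 N).strictPeriods := by
    simp
  ext m
  refine (ModularFormClass.qExpansion_coeff_unique (F := ModularForm (G0 N) (w : ℤ)) (k := (w : ℤ))
    one_pos h1 (f := F) (c := fun m => PowerSeries.coeff m f)
    (fun τ => KMF_hasSum f hcv τ) m).symm

end H94M
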