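import Pool.Agent.Lib.H94M.QA4

/-!
# H94M, chunk QA5 (S): more than `w mu/12 + 1` forms are linearly dependent

PROOF. `r` unknowns `x_i`, the equations `Σ x_i coeff n (qExpansion 1 F_i) = 0` for the
`n` with `12 n ≤ w mu`, i.e. `n < w mu / 12 + 1`: fewer equations than unknowns, so there is a nonzero
solution (`Matrix.exists_mulVec_eq_zero_iff`-like lemma, or
`LinearMap.exists_ne_zero_of_finrank_lt`/`LinearMap.ker_ne_bot_of_finrank_lt` for the linear map
`(Fin r → ℂ) → (Fin (w mu / 12 + 1) → ℂ)`). The form `Σ x_i F_i` is zero by `sturm0` (q-expansion is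
additive, `ModularForm.qExpansionAddHom`), hence `Σ x_i qExpansion F_i = 0`.
-/

namespace H94M

open H53M UpperHalfPlane ModularForm PowerSeries
open scoped MatrixGroups

theorem QA5_qexp (N : ℕ) [NeZero N] (w r : ℕ) (F : Fin r → ModularForm (G0 N) (w : ℤ))
    (x : Fin r → ℂ) :
    qExpansion 1 ((∑ i, x i • F i : ModularForm (G0 N) (w : ℤ)) : ℍ → ℂ) =
      ∑ i, x i • qExpansion 1 (F i : ℍ → ℂ) := by
  have h := map_sum (ModularForm.qExpansionAddHom (Γ := G0 N) zero_lt_one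
    (one_mem_strictPeriods N) (w : ℤ)) (fun i => x i • F i) Finset.univ
  have h2 : ∀ G : ModularForm (G0 N) (w : ℤ), ModularForm.qExpansionAddHom (Γ := G0 N) zero_lt_one
    (one_mem_strictPeriods N) (w : ℤ) G = qExpansion 1 (G : ℍ → ℂ) := fun G => rfl
  rw [h2] at h
  rw [h]
  refine Finset.sum_congr rfl fun i _ => ?_
  rw [h2]
  exact ModularForm.qExpansion_smul zero_lt_one (one_mem_strictPeriods N) (x i) (F i)

theorem dependent (N : ℕ) [NeZero N] (w r : ℕ) (hr : w * mu N / 12 + 1 < r)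
    (F : Fin r → ModularForm (G0 N) (w : ℤ)) :
    ∃ x : Fin r → ℂ, x ≠ 0 ∧ ∑ i, x i • qExpansion 1 (F i : ℍ → ℂ) = 0 := by
  let L : (Fin r → ℂ) →ₗ[ℂ] (Fin (w * mu N / 12 + 1) → ℂ) :=
    LinearMap.pi fun n => ∑ i, (coeff (n : ℕ) (qExpansion 1 (F i : ℍ → ℂ))) •
      (LinearMap.proj i : (Fin r → ℂ) →ₗ[ℂ] ℂ)
  have hlt : Module.finrank ℂ (Fin (w * mu N / 12 + 1) → ℂ) < Module.finrank ℂ (Fin r → ℂ) := by
    rw [Module.finrank_fin_fun, Module.finrank_fin_fun]
    exact hr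
  have hker := LinearMap.ker_ne_bot_of_finrank_lt (f := L) hlt
  obtain ⟨x, hx, hx0⟩ := (Submodule.ne_bot_iff _).mp hker
  refine ⟨x, hx0, ?_⟩
  have hLx : ∀ n : Fin (w * mu N / 12 + 1),
      ∑ i, x i * coeff (n : ℕ) (qExpansion 1 (F i : ℍ → ℂ)) = 0 := by
    intro n
    have h := congrFun (LinearMap.mem_ker.mp hx) n
    simp only [L, LinearMap.pi_apply, LinearMap.sum_apply, LinearMap.smul_apply,
      LinearMap.proj_apply, smul_eq_mul, Pi.zero_apply] at h
    rw [← h]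
    exact Finset.sum_congr rfl fun i _ => mul_comm _ _
  have hG : (∑ i, x i • F i : ModularForm (G0 N) (w : ℤ)) = 0 := by
    refine sturm0 N w _ fun n hn => ?_
    rw [QA5_qexp, map_sum]
    have hn' : n < w * mu N / 12 + 1 := by omega
    have h := hLx ⟨n, hn'⟩
    rw [← h]
    refine Finset.sum_congr rfl fun i _ => ?_
    rw [coeff_smul, smul_eq_mul]
  rw [← QA5_qexp, hG]
  exact UpperHalfPlane.qExpansion_zero 1

end H94M
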