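import Pool.Agent.Lib.H94M.QA0
import Pool.Agent.Lib.H53M.Q4C

/-!
# H94M, chunk QA6 (S/M): p-integral series with distinct orders mod `p` are independent over `ℂ`

PROOF. Let `d i` be the order of `redQ p (g i)`: `coeff (d i) (redQ p (g i)) ≠ 0` and
`coeff n (redQ p (g i)) = 0` for `n < d i`; the `d i` are pairwise distinct. Consider the rational
`r × r` matrix `A i j = coeff (d j) (g i)`, `p`-integral entries. Its reduction `Ā` satisfies
`Ā i j = 0` if `d j < d i` and `Ā i i ≠ 0`: triangular after ordering by `d`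
(`Matrix.det_of_...BlockTriangular`: `Matrix.BlockTriangular Ā d` up to transposition and
`Matrix.BlockTriangular.det_fintype`/`det_of_lowerTriangular` with a linear order; or directly: if
`Σ x_i ...`). Simplest without determinants: suppose `Σ x_i g_i = 0` with `x ∈ ℂ^r`, `x ≠ 0`. Then
the vectors of the matrix `A` are linearly dependent over `ℂ`: `det A = 0` in `ℂ`, hence in `ℚ`
(`Matrix.exists_vecMul_eq_zero_iff`, `RingHom.map_det`), hence there is a nonzero RATIONAL vector
`y` with `y A = 0`; scale it such that all `y_i` are `p`-integral and one is a unit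
(`padicValRat` minimal; or integers with gcd 1). Reduce: `Σ ȳ_i Ā i j = 0` for all `j`, with some
`ȳ_i ≠ 0`. Take `i₀` with `ȳ_{i₀} ≠ 0` and `d i₀` minimal, `j = i₀`: for the other `i` with
`ȳ_i ≠ 0`, `d i > d i₀`, so `Ā i i₀ = 0`; so `ȳ_{i₀} Ā i₀ i₀ = 0`. Contradiction.
-/

namespace H94M

open H53M PowerSeries

/-- A nonzero rational vector is a rational multiple of an integral vector which is not divisible by
`p`. -/
theorem QA6_scale (p r : ℕ) [hp : Fact p.Prime] (y : Fin r → ℚ) (hy : y ≠ 0) :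
    ∃ (w : Fin r → ℤ) (c : ℚ), c ≠ 0 ∧ (∀ i, (w i : ℚ) = c * y i) ∧ ∃ i, ¬ (p : ℤ) ∣ w i := by
  obtain ⟨b, hb⟩ := IsLocalization.exist_integer_multiples_of_finite (nonZeroDivisors ℤ) y
  have hb0 : ((b : ℤ) : ℚ) ≠ 0 := by
    have := nonZeroDivisors.ne_zero b.2
    exact_mod_cast this
  choose z hz using hb
  have hz' : ∀ i, (z i : ℚ) = (b : ℤ) * y i := by
    intro i
    have := hz i
    simpa [zsmul_eq_mul] using this
  obtain ⟨i₁, hi₁⟩ : ∃ i, y i ≠ 0 := by
    by_contra hcon
    push Not at hcon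
    exact hy (funext hcon)
  have hz1 : z i₁ ≠ 0 := by
    intro h
    have h2 := hz' i₁
    rw [h] at h2
    have : (b : ℚ) * y i₁ ≠ 0 := mul_ne_zero hb0 hi₁
    apply this
    rw [← h2]
    simp
  obtain ⟨w, hw1, hw2⟩ := Finset.extract_gcd z (s := Finset.univ) ⟨i₁, Finset.mem_univ _⟩
  set G := Finset.univ.gcd z with hG
  have hG0 : G ≠ 0 := by
    intro h
    apply hz1
    rw [hw1 i₁ (Finset.mem_univ _), h, zero_mul]
  have hGq : (G : ℚ) ≠ 0 := by exact_mod_cast hG0
  refine ⟨w, (b : ℤ) / G, div_ne_zero hb0 hGq, ?_, ?_⟩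
  · intro i
    have h1 := hz' i
    have h2 := hw1 i (Finset.mem_univ _)
    rw [h2] at h1
    push_cast at h1
    field_simp
    linarith
  · by_contra hcon
    push Not at hcon
    have h3 : (p : ℤ) ∣ Finset.univ.gcd w := Finset.dvd_gcd fun i _ => hcon i
    rw [hw2] at h3
    have h4 := Int.natCast_dvd_natCast.mp (by simpa using h3 : (p : ℤ) ∣ ((1 : ℕ) : ℤ))
    exact hp.out.one_lt.ne' (Nat.dvd_one.mp h4)

theorem indep (p r : ℕ) [Fact p.Prime] (g : Fin r → PowerSeries ℚ) (hg : ∀ i, PI p (g i))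
    (d : Fin r → ℕ) (hd : Function.Injective d)
    (h0 : ∀ i, ∀ n < d i, coeff n (redQ p (g i)) = 0)
    (h1 : ∀ i, coeff (d i) (redQ p (g i)) ≠ 0) (x : Fin r → ℂ)
    (hx : ∑ i, x i • ktoC (g i) = 0) : x = 0 := by
  by_contra hx0
  let A : Matrix (Fin r) (Fin r) ℚ := Matrix.of fun i j => coeff (d j) (g i)
  have hAC : Matrix.vecMul x (A.map (algebraMap ℚ ℂ)) = 0 := by
    funext j
    have h := congrArg (coeff (d j)) hx
    rw [map_sum, map_zero] at h
    simp only [Matrix.vecMul, dotProduct, Matrix.map_apply, Pi.zero_apply]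
    rw [← h]
    refine Finset.sum_congr rfl fun i _ => ?_
    rw [coeff_smul, smul_eq_mul]
    simp [A, ktoC]
  have hdetC : (A.map (algebraMap ℚ ℂ)).det = 0 :=
    Matrix.exists_vecMul_eq_zero_iff.mp ⟨x, hx0, hAC⟩
  have hdet : A.det = 0 := by
    have h := RingHom.map_det (algebraMap ℚ ℂ) A
    have h2 : (algebraMap ℚ ℂ) A.det = 0 := by
      rw [h]
      exact hdetC
    exact (map_eq_zero_iff _ (algebraMap ℚ ℂ).injective).mp h2
  obtain ⟨y, hy0, hy⟩ := Matrix.exists_vecMul_eq_zero_iff.mpr hdet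
  obtain ⟨w, c, hc, hw, i₁, hi₁⟩ := QA6_scale p r y hy0
  have hsum : ∀ j, ∑ i, (w i : ℚ) * coeff (d j) (g i) = 0 := by
    intro j
    have h := congrFun hy j
    simp only [Matrix.vecMul, dotProduct, Pi.zero_apply] at h
    have h2 : ∑ i, (w i : ℚ) * coeff (d j) (g i) = c * ∑ i, y i * A i j := by
      rw [Finset.mul_sum]
      refine Finset.sum_congr rfl fun i _ => ?_
      rw [hw i, mul_assoc]
      rfl
    rw [h2, h, mul_zero]
  have hred : ∀ j, ∑ i, (w i : ZMod p) * coeff (d j) (redQ p (g i)) = 0 := by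
    intro j
    have h := congrArg (fun q : ℚ => (q : ZMod p)) (hsum j)
    simp only [Rat.cast_zero] at h
    rw [(Q4C_sum _ fun i _ => Q4C_mul Fact.out (Q4C_int Fact.out (w i)) (hg i (d j))).2] at h
    rw [← h]
    refine Finset.sum_congr rfl fun i _ => ?_
    rw [Q4C_cast_mul (Q4C_int Fact.out (w i)) (hg i (d j))]
    simp only [redQ, coeff_mk, Rat.cast_intCast]
  have hS : (Finset.univ.filter fun i => (w i : ZMod p) ≠ 0).Nonempty := by
    refine ⟨i₁, Finset.mem_filter.mpr ⟨Finset.mem_univ _, ?_⟩⟩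
    rwa [Ne, ZMod.intCast_zmod_eq_zero_iff_dvd]
  obtain ⟨i₀, hi₀, hmin⟩ := Finset.exists_min_image _ d hS
  have hi₀' := (Finset.mem_filter.mp hi₀).2
  have h := hred i₀
  rw [Finset.sum_eq_single i₀] at h
  · exact (mul_ne_zero hi₀' (h1 i₀)) h
  · intro i _ hne
    by_cases hwi : (w i : ZMod p) = 0
    · rw [hwi, zero_mul]
    · have hle := hmin i (Finset.mem_filter.mpr ⟨Finset.mem_univ _, hwi⟩)
      have hlt : d i₀ < d i := lt_of_le_of_ne hle fun hh => hne (hd hh).symm
      rw [h0 i _ hlt, mul_zero]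
  · intro hh
    exact absurd (Finset.mem_univ _) hh

end H94M
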