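import Pool.Agent.Lib.H94M.QA2
import Pool.Agent.Lib.H94M.QA5
import Pool.Agent.Lib.H94M.QA6

/-!
# H94M, chunk QA7 (M): Sturm bound modulo `p` on `Γ₀(N)` (no q-expansion principle)

PROOF. Let `f ∈ MN N p w`, `f ≠ 0`, `w ≥ 1`, all coefficients `n < (mu + 1) w` zero, `n₀ = order f
≥ (mu + 1) w ≥ 1`. `f = redQ p g`, `(F, g)` by `mem_MN`. Put `A = 2 mu`. For the pairs `(a, c)`,
`a ≤ A`, `c ≤ (A - a) w`, consider `F^(12 a) E4^(3 ((A - a) w - c)) Δ^c` of weight
`12 a w + 12 ((A - a) w - c) + 12 c = 12 A w` on `Γ₀(N)`, with the p-integral q-expansion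
`g^(12 a) e4^(3(..)) dl^c`, whose reduction has order exactly `12 a n₀ + c` (`dl = q + ..`,
`e4 = 1 + ..`, `ZMod p` is a field; `coeff_zero_dl`, `coeff_one_dl`, `coeff_zero_e4` in H53M/Q1;
`PowerSeries.order_mul`, `order_pow`). These orders are distinct: `c ≤ A w = 2 mu w < 12 n₀`. By
`indep` the series are independent over `ℂ`; their number is
`Σ_{j ≤ A} (j w + 1) = w A (A + 1)/2 + A + 1 = w mu (2 mu + 1) + 2 mu + 1 > 2 mu² w + 1
= (12 A w) mu / 12 + 1`, contradicting `dependent` (enumerate any `r = 2 mu² w + 2` of the pairs by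
`Fin r`: `Finset.exists_subset_card_eq`, `Finset.equivFin`).
-/

namespace H94M

open H53M UpperHalfPlane ModularForm PowerSeries
open scoped MatrixGroups

/-- The pairs `(a, c)`. -/
def QA7_S (A w : ℕ) : Finset ((_ : ℕ) × ℕ) :=
  (Finset.range (A + 1)).sigma fun a => Finset.range ((A - a) * w + 1)

theorem QA7_card (A w : ℕ) : 2 * (QA7_S A w).card = w * (A * (A + 1)) + 2 * (A + 1) := by
  unfold QA7_S
  rw [Finset.card_sigma]
  simp only [Finset.card_range]
  have h1 : ∑ a ∈ Finset.range (A + 1), ((A - a) * w + 1) =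
      ∑ j ∈ Finset.range (A + 1), (j * w + 1) := by
    rw [← Finset.sum_range_reflect]
    refine Finset.sum_congr rfl fun j hj => ?_
    have := Finset.mem_range.mp hj
    congr 2
    omega
  rw [h1, Finset.sum_add_distrib, ← Finset.sum_mul]
  have h2 := Finset.sum_range_id_mul_two (A + 1)
  simp only [Finset.sum_const, Finset.card_range, smul_eq_mul, mul_one]
  have h3 : (A + 1) * (A + 1 - 1) = A * (A + 1) := by
    rw [Nat.add_sub_cancel, mul_comm]
  rw [h3] at h2
  calc 2 * ((∑ i ∈ Finset.range (A + 1), i) * w + (A + 1))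
      = w * ((∑ i ∈ Finset.range (A + 1), i) * 2) + 2 * (A + 1) := by ring
    _ = _ := by rw [h2]

theorem QA7_order_e4 (p : ℕ) [Fact p.Prime] : (redZ p e4).order = (0 : ℕ) := by
  rw [PowerSeries.order_eq_nat]
  refine ⟨?_, fun i hi => absurd hi (Nat.not_lt_zero i)⟩
  rw [coeff_map, coeff_zero_e4]
  simp

theorem QA7_order_dl (p : ℕ) [Fact p.Prime] : (redZ p dl).order = (1 : ℕ) := by
  rw [PowerSeries.order_eq_nat]
  refine ⟨?_, fun i hi => ?_⟩
  · rw [coeff_map, coeff_one_dl]
    simp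
  · have : i = 0 := by omega
    subst this
    rw [coeff_map, coeff_zero_dl]
    simp

theorem QA7_order (p : ℕ) [Fact p.Prime] (f : PowerSeries (ZMod p)) (n₀ a e c : ℕ)
    (hf : f.order = (n₀ : ℕ)) :
    (f ^ (12 * a) * redZ p (dl ^ c * e4 ^ (3 * e) * e6 ^ 0)).order =
      ((12 * a * n₀ + c : ℕ) : ℕ∞) := by
  rw [pow_zero, mul_one, map_mul, map_pow, map_pow, PowerSeries.order_mul, PowerSeries.order_mul,
    PowerSeries.order_pow, PowerSeries.order_pow, PowerSeries.order_pow, hf, QA7_order_e4,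
    QA7_order_dl]
  simp only [nsmul_eq_mul]
  push_cast
  ring

theorem MN_sturm (N p w : ℕ) [NeZero N] [Fact p.Prime] (hw : 1 ≤ w) {f : PowerSeries (ZMod p)}
    (hf : f ∈ MN N p w) (h0 : ∀ n < (mu N + 1) * w, coeff n f = 0) : f = 0 := by
  classical
  by_contra hne
  have hex : ∃ n, coeff n f ≠ 0 := by
    by_contra hcon
    push Not at hcon
    exact hne (PowerSeries.ext fun n => by rw [hcon n, map_zero])
  obtain ⟨n₀, hn₀, hmin⟩ : ∃ n₀, coeff n₀ f ≠ 0 ∧ ∀ m < n₀, coeff m f = 0 :=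
    ⟨Nat.find hex, Nat.find_spec hex, fun m hm => by
      have := Nat.find_min hex hm
      push Not at this
      exact this⟩
  have hord : f.order = (n₀ : ℕ) := PowerSeries.order_eq_nat.mpr ⟨hn₀, hmin⟩
  have hn₀' : (mu N + 1) * w ≤ n₀ := by
    by_contra hcon
    exact hn₀ (h0 n₀ (not_le.mp hcon))
  have hmu := mu_pos N
  set A := 2 * mu N with hA
  have hmem : ∀ s ∈ QA7_S A w,
      f ^ (12 * s.1) * redZ p (dl ^ s.2 * e4 ^ (3 * ((A - s.1) * w - s.2)) * e6 ^ 0) ∈
        MNset N p (12 * (A * w)) := by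
    intro s hs
    rw [← mem_MN]
    have hs' := Finset.mem_sigma.mp hs
    have h1 := Finset.mem_range.mp hs'.1
    have h2 := Finset.mem_range.mp hs'.2
    have h3 : redZ p (dl ^ s.2 * e4 ^ (3 * ((A - s.1) * w - s.2)) * e6 ^ 0) ∈
        MN N p (12 * ((A - s.1) * w)) := by
      apply MP_le_MN
      apply Submodule.subset_span
      refine ⟨3 * ((A - s.1) * w - s.2), 0, s.2, ?_, rfl⟩
      omega
    have h4 := MN_mul (MN_pow hf (12 * s.1)) h3
    have h5 : 12 * s.1 * w + 12 * ((A - s.1) * w) = 12 * (A * w) := by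
      have : s.1 * w + (A - s.1) * w = A * w := by
        rw [← add_mul]
        congr 1
        omega
      linarith
    rwa [h5] at h4
  set S := QA7_S A w with hS
  let en : Fin S.card → S := fun i => S.equivFin.symm i
  have hen : Function.Injective en := S.equivFin.symm.injective
  have hF : ∀ i : Fin S.card, ∃ (F : ModularForm (G0 N) ((12 * (A * w) : ℕ) : ℤ))
      (g : PowerSeries ℚ), PI p g ∧ qExpansion 1 (F : ℍ → ℂ) = ktoC g ∧
      f ^ (12 * (en i).1.1) * redZ p (dl ^ (en i).1.2 *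
        e4 ^ (3 * ((A - (en i).1.1) * w - (en i).1.2)) * e6 ^ 0) = redQ p g :=
    fun i => hmem (en i).1 (en i).2
  choose F g hg hFg hred using hF
  have hcard : 12 * (A * w) * mu N / 12 + 1 < S.card := by
    have h1 := QA7_card A w
    rw [← hS] at h1
    have h2 : 12 * (A * w) * mu N / 12 = A * w * mu N := by
      rw [mul_assoc, Nat.mul_div_cancel_left _ (by norm_num)]
    rw [h2]
    have h3 : w * (A * (A + 1)) = 2 * (A * w * mu N) + w * A := by
      rw [hA]
      ring
    rw [h3] at h1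
    have h4 : 1 ≤ w * A := Nat.mul_pos hw (by omega)
    omega
  obtain ⟨x, hx0, hx⟩ := dependent N (12 * (A * w)) S.card hcard F
  apply hx0
  have hordi : ∀ i, (redQ p (g i)).order = ((12 * (en i).1.1 * n₀ + (en i).1.2 : ℕ) : ℕ∞) := by
    intro i
    rw [← hred i]
    exact QA7_order p f n₀ _ _ _ hord
  refine indep p S.card g hg (fun i => 12 * (en i).1.1 * n₀ + (en i).1.2) ?_ ?_ ?_ x ?_
  · intro i j hij
    apply hen
    simp only at hij
    have hb : ∀ k : Fin S.card, (en k).1.2 < 12 * n₀ := by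
      intro k
      have hs' := Finset.mem_sigma.mp (en k).2
      have h2 := Finset.mem_range.mp hs'.2
      have h3 : (A - (en k).1.1) * w ≤ A * w := Nat.mul_le_mul_right _ (Nat.sub_le _ _)
      have h4 : A * w = 2 * (mu N * w) := by
        rw [hA]
        ring
      have h5 : (mu N + 1) * w = mu N * w + w := by ring
      omega
    have hn₀pos : 0 < 12 * n₀ := lt_of_le_of_lt (Nat.zero_le _) (hb i)
    have h1 : (en i).1.1 = (en j).1.1 := by
      have e1 : ∀ k : Fin S.card, (12 * (en k).1.1 * n₀ + (en k).1.2) / (12 * n₀) =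
          (en k).1.1 := by
        intro k
        have e2 : 12 * (en k).1.1 * n₀ + (en k).1.2 = (en k).1.2 + 12 * n₀ * (en k).1.1 := by ring
        rw [e2, Nat.add_mul_div_left _ _ hn₀pos, Nat.div_eq_of_lt (hb k), zero_add]
      rw [← e1 i, ← e1 j, hij]
    have h2 : (en i).1.2 = (en j).1.2 := by
      rw [h1] at hij
      exact Nat.add_left_cancel hij
    apply Subtype.ext
    exact Sigma.ext h1 (heq_of_eq h2)
  · intro i n hn
    exact (PowerSeries.order_eq_nat.mp (hordi i)).2 n hn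
  · intro i
    exact (PowerSeries.order_eq_nat.mp (hordi i)).1
  · rw [← hx]
    exact Finset.sum_congr rfl fun i _ => by rw [hFg i]

end H94M
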