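import Pool.Agent.Lib.H94M.TN
import Pool.Agent.Lib.H94M.QA7

/-!
# H94M: the family `MN N p` is an `MFam`; Theorem S at level `N`
-/

namespace H94M

open H53M UpperHalfPlane ModularForm PowerSeries
open scoped MatrixGroups

theorem MN_zero_const (N p : ℕ) [NeZero N] [Fact p.Prime] {f : PowerSeries (ZMod p)}
    (hf : f ∈ MN N p 0) (h0 : coeff 0 f = 0) : f = 0 := by
  obtain ⟨F, g, hg, hF, rfl⟩ := mem_MN.1 hf
  obtain ⟨a, ha⟩ : ∃ a, a = coeff 0 (qExpansion 1 (F : ℍ → ℂ)) := ⟨_, rfl⟩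
  obtain ⟨C, hC⟩ : ∃ C : ModularForm (G0 N) ((0 : ℕ) : ℤ), (C : ℍ → ℂ) = a • (1 : ℍ → ℂ) := by
    refine ⟨(ModularForm.const a : ModularForm (G0 N) 0), ?_⟩
    ext z
    show a = a * 1
    rw [mul_one]
  have hC1 : qExpansion 1 (C : ℍ → ℂ) = a • (1 : PowerSeries ℂ) := by
    have h1 : (1 : ℍ → ℂ) = ((ModularForm.const 1 : ModularForm (G0 N) 0) : ℍ → ℂ) := by
      ext z
      rfl
    have h2 : AnalyticAt ℂ (UpperHalfPlane.cuspFunction 1 (1 : ℍ → ℂ)) 0 := by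
      rw [h1]
      exact ModularFormClass.analyticAt_cuspFunction_zero
        (ModularForm.const 1 : ModularForm (G0 N) 0) one_pos (one_mem_strictPeriods N)
    rw [hC, UpperHalfPlane.qExpansion_smul h2, UpperHalfPlane.qExpansion_one]
  have h1 : F - C = 0 := by
    refine sturm0 N 0 (F - C) fun n hn => ?_
    have hn0 : n = 0 := by omega
    subst hn0
    have h2 : qExpansion 1 ((F - C : ModularForm (G0 N) ((0 : ℕ) : ℤ)) : ℍ → ℂ) =
        qExpansion 1 (F : ℍ → ℂ) - qExpansion 1 (C : ℍ → ℂ) :=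
      UpperHalfPlane.qExpansion_sub
        (ModularFormClass.analyticAt_cuspFunction_zero F one_pos (one_mem_strictPeriods N))
        (ModularFormClass.analyticAt_cuspFunction_zero C one_pos (one_mem_strictPeriods N))
    rw [h2, hC1, map_sub, ← ha]
    simp
  have h2 : F = C := sub_eq_zero.1 h1
  rw [h2, hC1] at hF
  ext n
  rcases Nat.eq_zero_or_pos n with hn | hn
  · subst hn
    rw [h0, map_zero]
  · have h3 := congrArg (coeff n) hF
    have h4 : coeff n (ktoC g) = ((coeff n g : ℚ) : ℂ) := by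
      simp [ktoC]
    rw [h4] at h3
    have h5 : coeff n (a • (1 : PowerSeries ℂ)) = 0 := by
      rw [coeff_smul, coeff_one, if_neg hn.ne', smul_zero]
    rw [h5] at h3
    have h6 : coeff n g = 0 := by exact_mod_cast h3.symm
    rw [redQ, coeff_mk, h6, map_zero]
    simp

theorem mfam_MN (N p : ℕ) [NeZero N] [Fact p.Prime] :
    MFam p (12 * (mu N + 1)) 0 (fun w => MN N p w) := by
  refine ⟨fun w => MP_le_MN N p w, fun w w' f g hf hg => MN_mul hf hg, fun w f hf h => ?_⟩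
  have e : 12 * (mu N + 1) * w / 12 + 0 = (mu N + 1) * w := by
    rw [Nat.add_zero, Nat.mul_assoc, Nat.mul_div_cancel_left _ (by norm_num)]
  rw [e] at h
  rcases Nat.eq_zero_or_pos w with hw | hw
  · subst hw
    exact MN_zero_const N p hf (h 0 (Nat.zero_le _))
  · exact MN_sturm N p w hw hf fun n hn => h n hn.le

theorem ArrN.sup {N k : ℕ} {c : ℕ → ℤ → ℤ} (hA : ArrN N k c) : Sup c := fun n m h => hA.supp n m h

theorem relN {N k : ℕ} [NeZero N] (hk : 3 ≤ k) {c : ℕ → ℤ → ℤ} (hA : ArrN N k c)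
    (E : ℕ → Prop)
    (hE : ∀ ε : ℝ, 0 < ε → ∃ X₀ : ℕ, ∀ X ≥ X₀,
      (Set.ncard {p : ℕ | p ≤ X ∧ p.Prime ∧ E p} : ℝ) * Real.log X ≤ ε * Real.sqrt X)
    (hd : ∀ p : ℕ, p.Prime → ¬ E p → ∀ n m, c n m ≠ 0 →
      padicValInt p (NN n m) ≤ padicValInt p (c n m))
    (hr : ∀ p [Fact p.Prime], 5 < p → p % 5 = 2 → ¬ E p →
      redQ p (hser c) ∈ MN N p (2 * k - 2 + (p - 1) * (2 * k - 1))) :
    Rel (k - 1) (hser c) :=
  rel_of_fam hk hA.sup (k / 2) hA.bound E hE hd (12 * (mu N + 1)) 0 (by omega)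
    fun p _ h1 h2 h3 => ⟨fun w => MN N p w, mfam_MN N p, hr p h1 h2 h3⟩

end H94M
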