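import Pool.Agent.Lib.H53M.K2

/-!
# H94M, chunk K2: the calculus lemma for a general element of `SL₂`

As `H53M.K2`, with `-1/z` replaced by `γ z = (A z + B)/(C z + D)`, `A D - B C = 1`, and
`1/(2πi z)` by `C/(2πi (C z + D))`.
-/

namespace H94M

open H53M

/-- the right side of `K2`, expanded; `j = C z + D`, `t = C/(2πi)` -/
noncomputable def KR2 (k : ℕ) (F : ℕ → ℂ → ℂ) (C D : ℂ) (a : ℕ) (z : ℂ) : ℂ :=
  ∑ i ∈ Finset.range (a + 1), (kc k a i : ℂ) * (C * (2 * Real.pi * Complex.I)⁻¹) ^ i *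
    (C * z + D) ^ (k + 2 * a - i) * F (a - i) z

theorem KR2_expand (k : ℕ) (F : ℕ → ℂ → ℂ) (C D : ℂ) (a : ℕ) (z : ℂ) (hz : C * z + D ≠ 0) :
    (C * z + D) ^ (k + 2 * a) *
      low1 k (C / (2 * Real.pi * Complex.I * (C * z + D))) (fun a' => F a' z) a =
      KR2 k F C D a z := by
  unfold low1 KR2
  rw [Finset.mul_sum]
  refine Finset.sum_congr rfl fun i hi => ?_
  have hia : i ≤ a := Nat.lt_succ_iff.1 (Finset.mem_range.1 hi)
  have e1 : k + 2 * a = (k + 2 * a - i) + i := by omega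
  have e2 : (C / (2 * (Real.pi : ℂ) * Complex.I * (C * z + D))) ^ i =
      (C * (2 * Real.pi * Complex.I)⁻¹) ^ i * ((C * z + D)⁻¹) ^ i := by
    rw [← mul_pow]
    congr 1
    rw [div_eq_mul_inv, mul_inv (2 * (Real.pi : ℂ) * Complex.I)]
    ring
  have e3 : (C * z + D) ^ (k + 2 * a) * ((C * z + D)⁻¹) ^ i = (C * z + D) ^ (k + 2 * a - i) := by
    conv_lhs => rw [e1]
    rw [pow_add, mul_assoc, ← mul_pow, mul_inv_cancel₀ hz, one_pow, mul_one]
  rw [e2, ← e3]
  ring

theorem KR2_deriv (k : ℕ) (hk : 1 ≤ k) (F : ℕ → ℂ → ℂ) (C D : ℂ)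
    (hF : ∀ a z, 0 < z.im → HasDerivAt (F a) (2 * Real.pi * Complex.I * F (a + 1) z) z)
    (a : ℕ) (z : ℂ) (hz : 0 < z.im) (hz0 : C * z + D ≠ 0) :
    HasDerivAt (KR2 k F C D a)
      ((2 * Real.pi * Complex.I) * ((C * z + D) ^ 2)⁻¹ * KR2 k F C D (a + 1) z) z := by
  have hκ : (2 * (Real.pi : ℂ) * Complex.I) ≠ 0 := by
    refine mul_ne_zero (mul_ne_zero two_ne_zero ?_) Complex.I_ne_zero
    exact_mod_cast Real.pi_ne_zero
  set κ : ℂ := 2 * Real.pi * Complex.I with hκd
  set t : ℂ := C * κ⁻¹ with ht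
  have hC : C = κ * t := by
    rw [ht]
    field_simp
  have hj : HasDerivAt (fun z : ℂ => C * z + D) C z := by
    simpa using ((hasDerivAt_id z).const_mul C).add_const D
  have h1 : ∀ i ∈ Finset.range (a + 1), HasDerivAt
      (fun z => (kc k a i : ℂ) * t ^ i * (C * z + D) ^ (k + 2 * a - i) * F (a - i) z)
      ((kc k a i : ℂ) * t ^ i * (((k + 2 * a - i : ℕ) : ℂ) *
        (C * z + D) ^ (k + 2 * a - i - 1) * C) *
        F (a - i) z + (kc k a i : ℂ) * t ^ i * (C * z + D) ^ (k + 2 * a - i) *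
          (κ * F (a - i + 1) z)) z := by
    intro i _
    exact ((hj.pow (k + 2 * a - i)).const_mul _).mul (hF (a - i) z hz)
  have h2 := HasDerivAt.fun_sum h1
  have h3 : KR2 k F C D a = fun z => ∑ i ∈ Finset.range (a + 1),
      (kc k a i : ℂ) * t ^ i * (C * z + D) ^ (k + 2 * a - i) * F (a - i) z := rfl
  rw [h3]
  refine h2.congr_deriv ?_
  -- the algebraic identity
  obtain ⟨w, hw⟩ : ∃ w, w = C * z + D := ⟨_, rfl⟩
  have hKR : KR2 k F C D (a + 1) z = ∑ i ∈ Finset.range (a + 1 + 1), (kc k (a + 1) i : ℂ) *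
      t ^ i * w ^ (k + 2 * (a + 1) - i) * F (a + 1 - i) z := by
    rw [hw]
    rfl
  rw [hKR]
  simp only [← hw]
  rw [← hw] at hz0
  have hzz : (w ^ 2)⁻¹ * w ^ 2 = 1 := inv_mul_cancel₀ (pow_ne_zero 2 hz0)
  rw [Finset.sum_add_distrib]
  have h4 : ∑ i ∈ Finset.range (a + 1 + 1), (kc k (a + 1) i : ℂ) *
      t ^ i * w ^ (k + 2 * (a + 1) - i) * F (a + 1 - i) z =
      ∑ m ∈ Finset.range (a + 1), ((kc k (a + 1) (m + 1) : ℕ) : ℂ) *
      t ^ (m + 1) * w ^ (k + 2 * a + 1 - m) * F (a - m) z + w ^ (k + 2 * a + 2) * F (a + 1) z := by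
    rw [Finset.sum_range_succ']
    congr 1
    · refine Finset.sum_congr rfl fun m _ => ?_
      have e1 : k + 2 * (a + 1) - (m + 1) = k + 2 * a + 1 - m := by omega
      have e2 : a + 1 - (m + 1) = a - m := by omega
      rw [e1, e2]
    · have e1 : kc k (a + 1) 0 = 1 := by
        unfold kc
        rw [Nat.choose_zero_right, Nat.descFactorial_zero]
      rw [e1, Nat.cast_one, pow_zero, one_mul, one_mul, Nat.sub_zero, Nat.sub_zero]
      have e3 : k + 2 * (a + 1) = k + 2 * a + 2 := by omega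
      rw [e3]
  have h5 : ∑ i ∈ Finset.range (a + 1), (kc k a i : ℂ) * t ^ i * w ^ (k + 2 * a - i) *
      (κ * F (a - i + 1) z) = κ * (w ^ 2)⁻¹ * (∑ m ∈ Finset.range (a + 1),
        ((kc k a (m + 1) : ℕ) : ℂ) * t ^ (m + 1) * w ^ (k + 2 * a + 1 - m) * F (a - m) z +
        w ^ (k + 2 * a + 2) * F (a + 1) z) := by
    have e0 : kc k a (a + 1) = 0 := by
      unfold kc
      rw [Nat.choose_succ_self, zero_mul]
    rw [Finset.sum_range_succ', Finset.sum_range_succ (fun m => ((kc k a (m + 1) : ℕ) : ℂ) *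
      t ^ (m + 1) * w ^ (k + 2 * a + 1 - m) * F (a - m) z) a, e0, Nat.cast_zero, zero_mul,
      zero_mul, zero_mul, add_zero, mul_add, Finset.mul_sum]
    congr 1
    · refine Finset.sum_congr rfl fun m hm => ?_
      have hma : m < a := Finset.mem_range.1 hm
      have e1 : k + 2 * a + 1 - m = (k + 2 * a - (m + 1)) + 2 := by omega
      have e2 : a - (m + 1) + 1 = a - m := by omega
      rw [e1, e2, pow_add w _ 2]
      linear_combination (-((kc k a (m + 1) : ℂ) * t ^ (m + 1) *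
        w ^ (k + 2 * a - (m + 1)) * (κ * F (a - m) z))) * hzz
    · have e1 : kc k a 0 = 1 := by
        unfold kc
        rw [Nat.choose_zero_right, Nat.descFactorial_zero]
      rw [e1, Nat.cast_one, pow_zero, one_mul, one_mul, Nat.sub_zero, Nat.sub_zero, pow_add]
      linear_combination (-(w ^ k * w ^ (2 * a) * (κ * F (a + 1) z))) * hzz
  have h6 : ∑ i ∈ Finset.range (a + 1), (kc k a i : ℂ) * t ^ i *
      (((k + 2 * a - i : ℕ) : ℂ) * w ^ (k + 2 * a - i - 1) * C) * F (a - i) z =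
      κ * (w ^ 2)⁻¹ * ∑ m ∈ Finset.range (a + 1),
        (((k + 2 * a - m) * kc k a m : ℕ) : ℂ) * t ^ (m + 1) * w ^ (k + 2 * a + 1 - m) *
          F (a - m) z := by
    rw [Finset.mul_sum]
    refine Finset.sum_congr rfl fun m hm => ?_
    have hma : m ≤ a := Nat.lt_succ_iff.1 (Finset.mem_range.1 hm)
    have e1 : k + 2 * a + 1 - m = (k + 2 * a - m - 1) + 2 := by omega
    rw [e1, pow_add w _ 2, Nat.cast_mul, pow_succ, hC]
    linear_combination (-(((kc k a m : ℂ) * t ^ m * (((k + 2 * a - m : ℕ) : ℂ) *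
      w ^ (k + 2 * a - m - 1)) * F (a - m) z) * (κ * t))) * hzz
  rw [h5, h6, h4, ← mul_add, ← add_assoc, ← Finset.sum_add_distrib]
  congr 1
  congr 1
  refine Finset.sum_congr rfl fun m hm => ?_
  have hma : m ≤ a := Nat.lt_succ_iff.1 (Finset.mem_range.1 hm)
  rw [K2_kc k a m hk hma, Nat.cast_add]
  ring

/-- `C z + D ≠ 0` in the upper half plane for real `(C, D) ≠ (0,0)`. -/
theorem den_ne {A B C D : ℤ} (hdet : A * D - B * C = 1) {z : ℂ} (hz : 0 < z.im) :
    (C : ℂ) * z + D ≠ 0 := by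
  intro h
  have him := congrArg Complex.im h
  have hre := congrArg Complex.re h
  simp only [Complex.add_im, Complex.mul_im, Complex.intCast_im, Complex.intCast_re, zero_mul,
    add_zero, Complex.zero_im] at him
  have hC : (C : ℝ) = 0 := by
    rcases mul_eq_zero.1 him with h1 | h1
    · exact h1
    · exact absurd h1 hz.ne'
  have hC' : C = 0 := by exact_mod_cast hC
  simp only [Complex.add_re, Complex.mul_re, Complex.intCast_im, Complex.intCast_re, zero_mul,
    sub_zero, Complex.zero_re, hC, zero_add] at hre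
  have hD' : D = 0 := by exact_mod_cast hre
  rw [hC', hD'] at hdet
  norm_num at hdet

/-- The imaginary part of `γ z`. -/
theorem mob_im {A B C D : ℤ} (hdet : A * D - B * C = 1) {z : ℂ} (hz : 0 < z.im) :
    (((A : ℂ) * z + B) / (C * z + D)).im = z.im / Complex.normSq (C * z + D) := by
  have hd := den_ne hdet hz
  have hn : Complex.normSq (C * z + D) ≠ 0 := (Complex.normSq_pos.2 hd).ne'
  have hdet' : (A : ℝ) * D - B * C = 1 := by exact_mod_cast hdet
  rw [Complex.div_im, ← sub_div]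
  congr 1
  simp only [Complex.add_im, Complex.mul_im, Complex.intCast_im, Complex.intCast_re, zero_mul,
    add_zero, Complex.add_re, Complex.mul_re, sub_zero]
  linear_combination z.im * hdet'

theorem mob_im_pos {A B C D : ℤ} (hdet : A * D - B * C = 1) {z : ℂ} (hz : 0 < z.im) :
    0 < (((A : ℂ) * z + B) / (C * z + D)).im := by
  rw [mob_im hdet hz]
  exact div_pos hz (Complex.normSq_pos.2 (den_ne hdet hz))

theorem K2 (k : ℕ) (hk : 1 ≤ k) {A B C D : ℤ} (hdet : A * D - B * C = 1) (F H : ℕ → ℂ → ℂ)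
    (hF : ∀ a z, 0 < z.im → HasDerivAt (F a) (2 * Real.pi * Complex.I * F (a + 1) z) z)
    (hH : ∀ a z, 0 < z.im → HasDerivAt (H a) (2 * Real.pi * Complex.I * H (a + 1) z) z)
    (h0 : ∀ z : ℂ, 0 < z.im → H 0 ((A * z + B) / (C * z + D)) = (C * z + D) ^ k * F 0 z)
    (a : ℕ) (z : ℂ) (hz : 0 < z.im) :
    H a ((A * z + B) / (C * z + D)) = (C * z + D) ^ (k + 2 * a) *
      low1 k (C / (2 * Real.pi * Complex.I * (C * z + D))) (fun a' => F a' z) a := by
  have hκ : (2 * (Real.pi : ℂ) * Complex.I) ≠ 0 := by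
    refine mul_ne_zero (mul_ne_zero two_ne_zero ?_) Complex.I_ne_zero
    exact_mod_cast Real.pi_ne_zero
  rw [KR2_expand k F C D a z (den_ne hdet hz)]
  revert z
  induction a with
  | zero =>
    intro z hz
    rw [h0 z hz]
    unfold KR2
    rw [Finset.sum_range_one]
    have e1 : kc k 0 0 = 1 := by
      unfold kc
      rw [Nat.choose_zero_right, Nat.descFactorial_zero]
    rw [e1, Nat.cast_one, pow_zero, one_mul, one_mul, Nat.sub_zero, Nat.sub_zero]
    rfl
  | succ a ih =>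
    intro z hz
    have hz0 := den_ne hdet hz
    have him := mob_im_pos hdet hz
    have hdet' : (A : ℂ) * D - B * C = 1 := by exact_mod_cast hdet
    have h1 : HasDerivAt (fun z : ℂ => ((A : ℂ) * z + B) / (C * z + D))
        (((C * z + D) ^ 2)⁻¹) z := by
      have e1 : HasDerivAt (fun z : ℂ => (A : ℂ) * z + B) A z := by
        simpa using ((hasDerivAt_id z).const_mul (A : ℂ)).add_const (B : ℂ)
      have e2 : HasDerivAt (fun z : ℂ => (C : ℂ) * z + D) C z := by
        simpa using ((hasDerivAt_id z).const_mul (C : ℂ)).add_const (D : ℂ)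
      refine (e1.div e2 hz0).congr_deriv ?_
      rw [div_eq_mul_inv]
      have : (A : ℂ) * (C * z + D) - (A * z + B) * C = 1 := by linear_combination hdet'
      rw [this, one_mul]
    have h3 : HasDerivAt (fun z : ℂ => H a ((A * z + B) / (C * z + D)))
        (2 * Real.pi * Complex.I * H (a + 1) ((A * z + B) / (C * z + D)) *
          ((C * z + D) ^ 2)⁻¹) z :=
      (hH a _ him).comp z h1
    have h4 := KR2_deriv k hk F C D hF a z hz hz0
    have h5 : (fun z : ℂ => H a ((A * z + B) / (C * z + D))) =ᶠ[nhds z] KR2 k F C D a := by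
      have hopen : IsOpen {w : ℂ | 0 < w.im} := isOpen_lt continuous_const Complex.continuous_im
      filter_upwards [hopen.mem_nhds hz] with w hw
      exact ih w hw
    have h6 := (h4.congr_of_eventuallyEq h5).unique h3
    have h7 : (((C : ℂ) * z + D) ^ 2)⁻¹ ≠ 0 := inv_ne_zero (pow_ne_zero 2 hz0)
    have h8 : 2 * (Real.pi : ℂ) * Complex.I * (((C : ℂ) * z + D) ^ 2)⁻¹ * KR2 k F C D (a + 1) z =
        2 * Real.pi * Complex.I * (((C : ℂ) * z + D) ^ 2)⁻¹ *
          H (a + 1) ((A * z + B) / (C * z + D)) := by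
      rw [h6]
      ring
    exact (mul_left_cancel₀ (mul_ne_zero hκ h7) h8).symm

end H94M
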