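import Pool.Agent.Lib.H94M.MG
import Pool.Agent.Lib.H94M.K2
import Pool.Agent.Lib.H53M.KE2

/-!
# H94M, chunk KE2: `E₂` under `SL₂(ℤ)`
-/

namespace H94M

open H53M UpperHalfPlane EisensteinSeries
open scoped MatrixGroups ModularForm

/-- The element of `SL₂(ℤ)` with given entries. -/
def gam {A B C D : ℤ} (hdet : A * D - B * C = 1) : SL(2, ℤ) :=
  ⟨!![A, B; C, D], by rw [Matrix.det_fin_two_of]; exact hdet⟩

theorem gam_denom {A B C D : ℤ} (hdet : A * D - B * C = 1) (τ : ℍ) :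
    denom (gam hdet) τ = (C : ℂ) * τ + D := by
  rw [MG_denom]
  simp [gam]

theorem gam_smul {A B C D : ℤ} (hdet : A * D - B * C = 1) (τ : ℍ) :
    ((gam hdet • τ : ℍ) : ℂ) = ((A : ℂ) * τ + B) / (C * τ + D) := by
  rw [UpperHalfPlane.specialLinearGroup_apply]
  simp [gam]

theorem KE2_trans {A B C D : ℤ} (hdet : A * D - B * C = 1) (z : ℂ) (hz : 0 < z.im) :
    ev (ktoC e2q) ((A * z + B) / (C * z + D)) = (C * z + D) ^ 2 *
      (ev (ktoC e2q) z + C / (2 * Real.pi * Complex.I * (C * z + D))) := by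
  have h1 := KE2_ev ⟨z, hz⟩
  have h2 := KE2_ev (gam hdet • (⟨z, hz⟩ : ℍ))
  rw [gam_smul] at h2
  have h3 := congrFun (E2_slash_action (gam hdet)) ⟨z, hz⟩
  rw [ModularForm.SL_slash_apply, gam_denom, Pi.sub_apply, Pi.smul_apply, D2, gam_denom] at h3
  have h4 : (gam hdet) 1 0 = C := by simp [gam]
  rw [h4, riemannZeta_two] at h3
  change ev (ktoC e2q) ((A * z + B) / (C * z + D)) = _ at h2
  change ev (ktoC e2q) z = _ at h1
  change E2 (gam hdet • ⟨z, hz⟩) * ((C : ℂ) * z + D) ^ (-2 : ℤ) = E2 ⟨z, hz⟩ -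
    (1 / (2 * ((Real.pi : ℂ) ^ 2 / 6))) • (2 * Real.pi * Complex.I * C / ((C : ℂ) * z + D)) at h3
  have hd := den_ne hdet hz
  have hpi : (Real.pi : ℂ) ≠ 0 := by exact_mod_cast Real.pi_ne_zero
  have hI : Complex.I ≠ 0 := Complex.I_ne_zero
  rw [h2, h1]
  have h5 : E2 (gam hdet • ⟨z, hz⟩) = ((C : ℂ) * z + D) ^ 2 * (E2 ⟨z, hz⟩ -
      (1 / (2 * ((Real.pi : ℂ) ^ 2 / 6))) • (2 * Real.pi * Complex.I * C / ((C : ℂ) * z + D))) := by
    rw [← h3, zpow_neg, zpow_ofNat]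
    field_simp
  rw [h5, smul_eq_mul]
  field_simp
  linear_combination (-12 * C) * Complex.I_sq

end H94M
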