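import Pool.Agent.Lib.H94M.QA0

/-!
# H94M, chunk QA1 (S/M): the set `MNset` is a subspace, products

PROOF. `MNset N p w` contains 0 (`F = 0`, `g = 0`), is closed under addition
(`ModularForm.qExpansion_add one_pos (one_mem_strictPeriods N)`, `kredQ_add`, `PI_add` in H53M/KR) and
under scalars `x : ZMod p` (lift: `x = ((n : ℕ) : ZMod p)` with `n = x.val`;
`ModularForm.qExpansion_smul`, `kredQ_smul`, `PI_smul`, or an induction on `n` with addition). Hence
the span is the set (`Submodule.span_induction`).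
Products: `F.mul G` (`ModularForm.mul`, instances `HasDetPlusMinusOne` from
`(G0 N).IsArithmetic`, needs `NeZero N`; or directly), `ModularForm.qExpansion_mul`, `kredQ_mul`,
`PI_mul`, weight cast `ModularForm.mcast`. Powers by induction (`1 ∈ MNset N p 0`: the constant 1).
-/

namespace H94M

open H53M UpperHalfPlane ModularForm PowerSeries
open scoped MatrixGroups

theorem QA1_zero {N p w : ℕ} [Fact p.Prime] : (0 : PowerSeries (ZMod p)) ∈ MNset N p w := by
  refine ⟨0, 0, ?_, ?_, ?_⟩
  · have h := PI_natCast (p := p) 0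
    rwa [Nat.cast_zero] at h
  · rw [map_zero]
    exact qExpansion_zero 1
  · have h := kredQ_natCast (p := p) 0
    rw [Nat.cast_zero, Nat.cast_zero] at h
    exact h.symm

theorem QA1_add {N p w : ℕ} [Fact p.Prime] {f g : PowerSeries (ZMod p)}
    (hf : f ∈ MNset N p w) (hg : g ∈ MNset N p w) : f + g ∈ MNset N p w := by
  obtain ⟨F, f', hf', hF, rfl⟩ := hf
  obtain ⟨G, g', hg', hG, rfl⟩ := hg
  refine ⟨F + G, f' + g', PI_add hf' hg', ?_, (kredQ_add hf' hg').symm⟩
  rw [map_add, ← hF, ← hG]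
  exact ModularForm.qExpansion_add one_pos (one_mem_strictPeriods N) F G

theorem QA1_nsmul {N p w : ℕ} [Fact p.Prime] {f : PowerSeries (ZMod p)}
    (hf : f ∈ MNset N p w) (n : ℕ) : n • f ∈ MNset N p w := by
  induction n with
  | zero =>
    rw [zero_smul]
    exact QA1_zero
  | succ n ih =>
    rw [succ_nsmul]
    exact QA1_add ih hf

theorem mem_MN {N p w : ℕ} [Fact p.Prime] {f : PowerSeries (ZMod p)} :
    f ∈ MN N p w ↔ f ∈ MNset N p w := by
  constructor
  · intro h
    refine Submodule.span_induction (p := fun x _ => x ∈ MNset N p w) (fun x hx => hx) QA1_zero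
      (fun x y _ _ hx hy => QA1_add hx hy) (fun a x _ hx => ?_) h
    have h1 : a • x = a.val • x := by
      rw [← Nat.cast_smul_eq_nsmul (ZMod p), ZMod.natCast_zmod_val]
    rw [h1]
    exact QA1_nsmul hx _
  · exact fun h => Submodule.subset_span h

theorem MN_mul {N p w w' : ℕ} [NeZero N] [Fact p.Prime] {f g : PowerSeries (ZMod p)}
    (hf : f ∈ MN N p w) (hg : g ∈ MN N p w') : f * g ∈ MN N p (w + w') := by
  rw [mem_MN] at hf hg ⊢
  obtain ⟨F, f', hf', hF, rfl⟩ := hf
  obtain ⟨G, g', hg', hG, rfl⟩ := hg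
  refine ⟨ModularForm.mcast (by push_cast; ring) (F.mul G), f' * g', PI_mul hf' hg', ?_,
    (kredQ_mul hf' hg').symm⟩
  rw [map_mul, ← hF, ← hG]
  exact ModularForm.qExpansion_mul one_pos (one_mem_strictPeriods N) F G

theorem one_mem_MN {N p : ℕ} [NeZero N] [Fact p.Prime] :
    (1 : PowerSeries (ZMod p)) ∈ MN N p 0 := by
  rw [mem_MN]
  refine ⟨ModularForm.mcast (by simp) (1 : ModularForm (G0 N) 0), 1, ?_, ?_, ?_⟩
  · have h := PI_natCast (p := p) 1
    rwa [Nat.cast_one] at h
  · rw [map_one]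
    exact ModularForm.qExpansion_one
  · have h := kredQ_natCast (p := p) 1
    rw [Nat.cast_one, Nat.cast_one] at h
    exact h.symm

theorem MN_pow {N p w : ℕ} [NeZero N] [Fact p.Prime] {f : PowerSeries (ZMod p)}
    (hf : f ∈ MN N p w) (n : ℕ) : f ^ n ∈ MN N p (n * w) := by
  induction n with
  | zero =>
    rw [pow_zero, zero_mul]
    exact one_mem_MN
  | succ n ih =>
    rw [pow_succ, Nat.succ_mul]
    exact MN_mul ih hf

/-- p-integral forms reduce into `MN`. -/
theorem red_mem_MN {N p w : ℕ} [Fact p.Prime] (F : ModularForm (G0 N) (w : ℤ)) (g : PowerSeries ℚ)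
    (hg : PI p g) (hF : qExpansion 1 (F : ℍ → ℂ) = ktoC g) : redQ p g ∈ MN N p w :=
  Submodule.subset_span ⟨F, g, hg, hF, rfl⟩

end H94M
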