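import Pool.Agent.Lib.H94M.QA1
import Pool.Agent.Lib.H53M.Q4B
import Pool.Agent.Lib.H53M.Q6

/-!
# H94M, chunk QA2 (S/M): level one forms mod `p` are in `MN`

PROOF. `MP p w` is the span of the reductions of the integral series `dl^c e4^a e6^b`,
`4a + 6b + 12c = w`. Such a series is the q-expansion of a form of level one (`Q4B_mono` for
`e4^a e6^b`; `ModularForm.discriminant`, `qExp_dl` in H53M/Q4A for `dl`; products as there), restrict
it to `Γ₀(N)` by `resG0`. `PI_toQ`, `kredQ_toQ`, `ktoC (toQ g) = toC g` (coefficientwise).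
-/

namespace H94M

open H53M UpperHalfPlane ModularForm PowerSeries
open scoped MatrixGroups

/-- the discriminant as a modular form -/
noncomputable def QA2_dl : ModularForm 𝒮ℒ 12 := ModularFormClass.modularForm CuspForm.discriminant

theorem QA2_qdl : qExpansion 1 (QA2_dl : ℍ → ℂ) = toC dl := qExp_dl

theorem QA2_toC (f : PowerSeries ℤ) : toC f = ktoC (toQ f) := by
  ext m
  rw [coeff_map, coeff_map, coeff_map]
  simp

/-- An integral monomial is the q-expansion of a form of level one. -/
theorem QA2_form (w a b c : ℕ) (h : 4 * a + 6 * b + 12 * c = w) :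
    ∃ F : ModularForm 𝒮ℒ (w : ℤ), qExpansion 1 (F : ℍ → ℂ) = ktoC (toQ (dl ^ c * e4 ^ a * e6 ^ b)) := by
  have hw : (((c : ℤ) * 12 + (a : ℤ) * 4) + (b : ℤ) * 6) = (w : ℤ) := by
    rw [← h]
    push_cast
    ring
  refine ⟨ModularForm.mcast hw (((QA2_dl.pow c).mul (ModularForm.E₄.pow a)).mul
    (ModularForm.E₆.pow b)), ?_⟩
  rw [ModularForm.coe_mcast, ModularForm.qExpansion_mul one_pos one_mem_strictPeriods_SL,
    ModularForm.qExpansion_mul one_pos one_mem_strictPeriods_SL,
    ModularForm.qExpansion_pow one_pos one_mem_strictPeriods_SL,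
    ModularForm.qExpansion_pow one_pos one_mem_strictPeriods_SL,
    ModularForm.qExpansion_pow one_pos one_mem_strictPeriods_SL, qExp_E4, qExp_E6, QA2_qdl,
    ← QA2_toC, map_mul, map_mul, map_pow, map_pow, map_pow]

theorem MP_le_MN (N p w : ℕ) [Fact p.Prime] : MP p w ≤ MN N p w := by
  unfold MP
  rw [Submodule.span_le]
  rintro f ⟨a, b, c, h, rfl⟩
  obtain ⟨F, hF⟩ := QA2_form w a b c h
  rw [← kredQ_toQ]
  exact red_mem_MN (resG0 N F) _ (PI_toQ _) hF

end H94M
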