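import Pool.Agent.Lib.H94M.K2
import Pool.Agent.Lib.H94M.K3
import Pool.Agent.Lib.H53M.K4

/-!
# H94M, chunk K4: transformation of `G_ab(z,z)` under `Γ₀(N)`

As `H53M.K4`, with `K2` for general `γ`.
-/

namespace H94M

open H53M

variable {N k : ℕ} {c : ℕ → ℤ → ℤ}

theorem K4_first (hk : 1 ≤ k) (hA : ArrN N k c) {A B C D : ℤ} (hdet : A * D - B * C = 1)
    (hC : (N : ℤ) ∣ C) (a : ℕ) (z₁ z₂ : ℂ) (h₁ : 0 < z₁.im) (h₂ : 0 < z₂.im) :
    GG c a 0 ((A * z₁ + B) / (C * z₁ + D)) ((A * z₂ + B) / (C * z₂ + D)) =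
      (C * z₂ + D) ^ k * ((C * z₁ + D) ^ (k + 2 * a) *
        low1 k (C / (2 * Real.pi * Complex.I * (C * z₁ + D))) (fun a' => GG c a' 0 z₁ z₂) a) := by
  have h := K2 k hk hdet (fun a z => (C * z₂ + D) ^ k * GG c a 0 z z₂)
    (fun a z => GG c a 0 z ((A * z₂ + B) / (C * z₂ + D)))
    (fun a z hz => by
      have h1 := (K3_left hA a 0 z z₂ hz h₂).const_mul (((C : ℂ) * z₂ + D) ^ k)
      refine h1.congr_deriv ?_
      ring)
    (fun a z hz => K3_left hA a 0 z _ hz (mob_im_pos hdet h₂))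
    (fun z hz => by
      change GG c 0 0 ((A * z + B) / (C * z + D)) ((A * z₂ + B) / (C * z₂ + D)) =
        (C * z + D) ^ k * ((C * z₂ + D) ^ k * GG c 0 0 z z₂)
      rw [K4_GG0, K4_GG0, hA.trans A B C D hdet hC z z₂ hz h₂, mul_pow]
      ring) a z₁ h₁
  change GG c a 0 ((A * z₁ + B) / (C * z₁ + D)) ((A * z₂ + B) / (C * z₂ + D)) = _ at h
  rw [h, K4_low1_mul]
  ring

theorem K4_second (hk : 1 ≤ k) (hA : ArrN N k c) {A B C D : ℤ} (hdet : A * D - B * C = 1)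
    (hC : (N : ℤ) ∣ C) (a b : ℕ) (z₁ z₂ : ℂ) (h₁ : 0 < z₁.im) (h₂ : 0 < z₂.im) :
    GG c a b ((A * z₁ + B) / (C * z₁ + D)) ((A * z₂ + B) / (C * z₂ + D)) =
      (C * z₂ + D) ^ (k + 2 * b) * ((C * z₁ + D) ^ (k + 2 * a) *
      low1 k (C / (2 * Real.pi * Complex.I * (C * z₂ + D))) (fun b' =>
        low1 k (C / (2 * Real.pi * Complex.I * (C * z₁ + D)))
          (fun a' => GG c a' b' z₁ z₂) a) b) := by
  have h := K2 k hk hdet (fun b z => (C * z₁ + D) ^ (k + 2 * a) *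
      low1 k (C / (2 * Real.pi * Complex.I * (C * z₁ + D))) (fun a' => GG c a' b z₁ z) a)
    (fun b z => GG c a b ((A * z₁ + B) / (C * z₁ + D)) z)
    (fun b z hz => by
      have h1 : ∀ i ∈ Finset.range (a + 1), HasDerivAt
          (fun z => (kc k a i : ℂ) * (C / (2 * Real.pi * Complex.I * (C * z₁ + D))) ^ i *
            GG c (a - i) b z₁ z)
          ((kc k a i : ℂ) * (C / (2 * Real.pi * Complex.I * (C * z₁ + D))) ^ i *
            (2 * Real.pi * Complex.I * GG c (a - i) (b + 1) z₁ z)) z := by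
        intro i _
        exact (K3_right hA (a - i) b z₁ z h₁ hz).const_mul _
      have h2 := (HasDerivAt.fun_sum h1).const_mul (((C : ℂ) * z₁ + D) ^ (k + 2 * a))
      refine h2.congr_deriv ?_
      unfold low1
      rw [Finset.mul_sum, Finset.mul_sum, Finset.mul_sum]
      refine Finset.sum_congr rfl fun i _ => ?_
      ring)
    (fun b z hz => K3_right hA a b _ z (mob_im_pos hdet h₁) hz)
    (fun z hz => K4_first hk hA hdet hC a z₁ z h₁ hz) b z₂ h₂
  change GG c a b ((A * z₁ + B) / (C * z₁ + D)) ((A * z₂ + B) / (C * z₂ + D)) = _ at h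
  rw [h, K4_low1_mul]

theorem K4 (hk : 1 ≤ k) (hA : ArrN N k c) {A B C D : ℤ} (hdet : A * D - B * C = 1)
    (hC : (N : ℤ) ∣ C) (a b : ℕ) (z : ℂ) (hz : 0 < z.im) :
    GG c a b ((A * z + B) / (C * z + D)) ((A * z + B) / (C * z + D)) =
      (C * z + D) ^ (2 * k + 2 * a + 2 * b) *
      low k (C / (2 * Real.pi * Complex.I * (C * z + D))) (fun a' b' => GG c a' b' z z) a b := by
  rw [K4_second hk hA hdet hC a b z z hz hz, low_eq_low1', ← mul_assoc, ← pow_add]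
  congr 2
  omega

end H94M
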