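import Pool.Agent.Lib.H94M.K5

/-!
# H94M, chunk KG: polynomial growth of coefficients and moderate growth of the value

`CG f` : the coefficients of `f` are `O((n+1)^κ)` for some `κ`.  Closed under the ring operations,
holds for `e2q` and `tser c a b`, hence for `M_ab`.
`CG f` implies `|ev f z| ≤ C (1 + (Im z)^(-A))` (`MG_ev`):
`Σ (n+1)^κ r^n ≤ κ! Σ binom(n+κ,κ) r^n = κ!/(1-r)^(κ+1)`, `r = exp(-2π y)`, `1/(1-r) ≤ 1 + 1/y`.
-/

namespace H94M

open H53M PowerSeries Finset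

/-- Polynomial growth of the coefficients. -/
def CG (f : PowerSeries ℂ) : Prop :=
  ∃ C : ℝ, ∃ κ : ℕ, ∀ n : ℕ, ‖coeff n f‖ ≤ C * ((n : ℝ) + 1) ^ κ

theorem CG_nonneg {f : PowerSeries ℂ} (hf : CG f) :
    ∃ C : ℝ, ∃ κ : ℕ, 0 ≤ C ∧ ∀ n : ℕ, ‖coeff n f‖ ≤ C * ((n : ℝ) + 1) ^ κ := by
  obtain ⟨C, κ, h⟩ := hf
  refine ⟨C, κ, ?_, h⟩
  have := (norm_nonneg _).trans (h 0)
  simpa using this

theorem CG_zero : CG 0 := ⟨0, 0, fun n => by simp⟩

theorem CG_natCast (n : ℕ) : CG (n : PowerSeries ℂ) := by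
  refine ⟨n, 0, fun m => ?_⟩
  rw [← map_natCast (PowerSeries.C (R := ℂ)), PowerSeries.coeff_C]
  split_ifs
  · simp
  · simp

theorem CG_add {f g : PowerSeries ℂ} (hf : CG f) (hg : CG g) : CG (f + g) := by
  obtain ⟨C, κ, hC, h⟩ := CG_nonneg hf
  obtain ⟨C', κ', hC', h'⟩ := CG_nonneg hg
  refine ⟨C + C', κ + κ', fun n => ?_⟩
  have hn : (1 : ℝ) ≤ (n : ℝ) + 1 := by linarith [Nat.cast_nonneg (α := ℝ) n]
  have e1 : ((n : ℝ) + 1) ^ κ ≤ ((n : ℝ) + 1) ^ (κ + κ') := pow_le_pow_right₀ hn (by omega)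
  have e2 : ((n : ℝ) + 1) ^ κ' ≤ ((n : ℝ) + 1) ^ (κ + κ') := pow_le_pow_right₀ hn (by omega)
  rw [map_add]
  calc ‖coeff n f + coeff n g‖ ≤ ‖coeff n f‖ + ‖coeff n g‖ := norm_add_le _ _
    _ ≤ C * ((n : ℝ) + 1) ^ κ + C' * ((n : ℝ) + 1) ^ κ' := add_le_add (h n) (h' n)
    _ ≤ C * ((n : ℝ) + 1) ^ (κ + κ') + C' * ((n : ℝ) + 1) ^ (κ + κ') := by gcongr
    _ = _ := by ring

theorem CG_neg {f : PowerSeries ℂ} (hf : CG f) : CG (-f) := by
  obtain ⟨C, κ, h⟩ := hf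
  refine ⟨C, κ, fun n => ?_⟩
  rw [map_neg, norm_neg]
  exact h n

theorem CG_mul {f g : PowerSeries ℂ} (hf : CG f) (hg : CG g) : CG (f * g) := by
  obtain ⟨C, κ, hC, h⟩ := CG_nonneg hf
  obtain ⟨C', κ', hC', h'⟩ := CG_nonneg hg
  refine ⟨C * C', κ + κ' + 1, fun n => ?_⟩
  rw [coeff_mul]
  have hn : (0 : ℝ) ≤ (n : ℝ) := Nat.cast_nonneg n
  calc ‖∑ p ∈ antidiagonal n, coeff p.1 f * coeff p.2 g‖
      ≤ ∑ p ∈ antidiagonal n, ‖coeff p.1 f * coeff p.2 g‖ := norm_sum_le _ _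
    _ ≤ ∑ p ∈ antidiagonal n, (C * ((n : ℝ) + 1) ^ κ) * (C' * ((n : ℝ) + 1) ^ κ') := by
        refine sum_le_sum fun p hp => ?_
        rw [Finset.HasAntidiagonal.mem_antidiagonal] at hp
        have h1 : (p.1 : ℝ) ≤ n := by exact_mod_cast (by omega : p.1 ≤ n)
        have h2 : (p.2 : ℝ) ≤ n := by exact_mod_cast (by omega : p.2 ≤ n)
        rw [norm_mul]
        have e1 := (h p.1).trans (mul_le_mul_of_nonneg_left
          (pow_le_pow_left₀ (by positivity) (by linarith : (p.1 : ℝ) + 1 ≤ n + 1) κ) hC)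
        have e2 := (h' p.2).trans (mul_le_mul_of_nonneg_left
          (pow_le_pow_left₀ (by positivity) (by linarith : (p.2 : ℝ) + 1 ≤ n + 1) κ') hC')
        exact mul_le_mul e1 e2 (norm_nonneg _) (by positivity)
    _ = _ := by
        rw [sum_const, Finset.Nat.card_antidiagonal, nsmul_eq_mul]
        push_cast
        ring

theorem CG_pow {f : PowerSeries ℂ} (hf : CG f) (n : ℕ) : CG (f ^ n) := by
  induction n with
  | zero =>
    rw [pow_zero]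
    simpa using CG_natCast 1
  | succ n ih =>
    rw [pow_succ]
    exact CG_mul ih hf

theorem CG_sum {ι : Type*} (s : Finset ι) (f : ι → PowerSeries ℂ) (h : ∀ i ∈ s, CG (f i)) :
    CG (∑ i ∈ s, f i) := by
  classical
  induction s using Finset.induction_on with
  | empty =>
    rw [sum_empty]
    exact CG_zero
  | insert i s hi ih =>
    rw [sum_insert hi]
    exact CG_add (h i (mem_insert_self _ _)) (ih fun j hj => h j (mem_insert_of_mem hj))

theorem CG_low (k : ℕ) {s : PowerSeries ℂ} (hs : CG s) {t : ℕ → ℕ → PowerSeries ℂ}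
    (ht : ∀ a b, CG (t a b)) (a b : ℕ) : CG (low k s t a b) := by
  unfold low
  refine CG_sum _ _ fun i _ => CG_sum _ _ fun j _ => ?_
  exact CG_mul (CG_mul (CG_mul (CG_natCast _) (CG_natCast _)) (CG_pow hs _)) (ht _ _)

theorem CG_e2q : CG (ktoC e2q) := by
  refine ⟨2, 2, fun n => ?_⟩
  rw [KE2_coeff]
  have hn : (0 : ℝ) ≤ (n : ℝ) := Nat.cast_nonneg n
  by_cases h : n = 0
  · subst h
    rw [if_pos rfl, mul_one]
    norm_num
  · rw [if_neg h]
    have h1 : ‖((ArithmeticFunction.sigma 1 n : ℕ) : ℂ)‖ ≤ (n : ℝ) ^ 2 := by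
      rw [Complex.norm_natCast]
      exact_mod_cast ArithmeticFunction.sigma_le_pow_succ 1 n
    have h2 : ‖(1 / 12 : ℂ) * (-24 * (ArithmeticFunction.sigma 1 n : ℂ))‖ =
        2 * ‖((ArithmeticFunction.sigma 1 n : ℕ) : ℂ)‖ := by
      rw [show (1 / 12 : ℂ) * (-24 * (ArithmeticFunction.sigma 1 n : ℂ)) =
        (-2 : ℂ) * ((ArithmeticFunction.sigma 1 n : ℕ) : ℂ) by ring, norm_mul, norm_neg]
      norm_num
    rw [h2]
    nlinarith

variable {N k : ℕ} {c : ℕ → ℤ → ℤ}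

theorem CG_tser (hA : ArrN N k c) (a b : ℕ) : CG (tser c a b) := by
  obtain ⟨C, hC⟩ := hA.bound
  refine ⟨6 * (|C| * (5 / 4) ^ (k / 2)), 1 + (4 + 2 * (k / 2) + a + b), fun n => ?_⟩
  have hn : (0 : ℝ) ≤ (n : ℝ) := Nat.cast_nonneg n
  have hcard : ((ms n).card : ℝ) = 6 * n + 1 := by
    have : (ms n).card = 6 * n + 1 := by
      rw [ms, Int.card_Icc]
      omega
    rw [this]
    push_cast
    ring
  have key : ∀ m ∈ ms n, ‖(c n m : ℂ) * (uu n m : ℂ) ^ a * (vv n m : ℂ) ^ b‖ ≤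
      |C| * (5 / 4) ^ (k / 2) * ((n : ℝ) + 1) ^ (4 + 2 * (k / 2) + a + b) := by
    intro m _
    by_cases h0 : c n m = 0
    · rw [h0]
      simp only [Int.cast_zero, zero_mul, norm_zero]
      positivity
    · obtain ⟨hu, hv, huv, -, hN, hN', -, -⟩ := supp_facts hA h0
      rw [norm_mul, norm_mul, norm_pow, norm_pow]
      have e1 : ‖(c n m : ℂ)‖ ≤ |C| * ((n : ℝ) + 1) ^ 4 * (5 * ((n : ℝ) + 1) ^ 2 / 4) ^ (k / 2) := by
        rw [Complex.norm_intCast]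
        refine (hC n m h0).trans ?_
        have hNN : (0 : ℝ) ≤ (NN n m : ℝ) := by exact_mod_cast hN.le
        have h2 : (NN n m : ℝ) ≤ 5 * ((n : ℝ) + 1) ^ 2 / 4 := hN'.trans (by nlinarith)
        have h3 : (n : ℝ) ^ 4 ≤ ((n : ℝ) + 1) ^ 4 := pow_le_pow_left₀ hn (by linarith) 4
        refine mul_le_mul (mul_le_mul (le_abs_self C) h3 (by positivity) (abs_nonneg _))
          (pow_le_pow_left₀ hNN h2 _) (by positivity) (by positivity)
      have e2 : ‖(uu n m : ℂ)‖ ≤ (n : ℝ) + 1 := by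
        rw [Complex.norm_real, Real.norm_of_nonneg hu.le]
        linarith
      have e3 : ‖(vv n m : ℂ)‖ ≤ (n : ℝ) + 1 := by
        rw [Complex.norm_real, Real.norm_of_nonneg hv.le]
        linarith
      refine (mul_le_mul (mul_le_mul e1 (pow_le_pow_left₀ (norm_nonneg _) e2 a)
        (by positivity) (by positivity)) (pow_le_pow_left₀ (norm_nonneg _) e3 b)
        (by positivity) (by positivity)).trans (le_of_eq ?_)
      rw [show 5 * ((n : ℝ) + 1) ^ 2 / 4 = (5 / 4) * ((n : ℝ) + 1) ^ 2 by ring, mul_pow, ← pow_mul]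
      ring
  unfold tser
  rw [coeff_mk]
  refine (norm_sum_le _ _).trans ((Finset.sum_le_card_nsmul _ _ _ key).trans ?_)
  rw [nsmul_eq_mul, hcard, pow_add _ 1, pow_one]
  have : (6 * (n : ℝ) + 1) ≤ 6 * ((n : ℝ) + 1) := by linarith
  calc (6 * (n : ℝ) + 1) *
      (|C| * (5 / 4) ^ (k / 2) * ((n : ℝ) + 1) ^ (4 + 2 * (k / 2) + a + b))
      ≤ (6 * ((n : ℝ) + 1)) *
      (|C| * (5 / 4) ^ (k / 2) * ((n : ℝ) + 1) ^ (4 + 2 * (k / 2) + a + b)) := by gcongr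
    _ = _ := by ring

theorem KG_sum (κ : ℕ) {r : ℝ} (h0 : 0 ≤ r) (h1 : r < 1) :
    Summable (fun n : ℕ => ((n : ℝ) + 1) ^ κ * r ^ n) ∧
      ∑' n : ℕ, ((n : ℝ) + 1) ^ κ * r ^ n ≤ (κ.factorial : ℝ) * (1 / (1 - r) ^ (κ + 1)) := by
  have hr : ‖r‖ < 1 := by rwa [Real.norm_of_nonneg h0]
  have hs := (hasSum_choose_mul_geometric_of_norm_lt_one κ hr).mul_left (κ.factorial : ℝ)
  have hle : ∀ n : ℕ, ((n : ℝ) + 1) ^ κ * r ^ n ≤
      (κ.factorial : ℝ) * (((n + κ).choose κ : ℕ) * r ^ n) := by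
    intro n
    rw [← mul_assoc]
    refine mul_le_mul_of_nonneg_right ?_ (pow_nonneg h0 n)
    have e1 := Nat.pow_succ_le_ascFactorial (n + 1) κ
    rw [Nat.ascFactorial_eq_factorial_mul_choose] at e1
    exact_mod_cast e1
  have hsum : Summable (fun n : ℕ => ((n : ℝ) + 1) ^ κ * r ^ n) :=
    Summable.of_nonneg_of_le (fun n => by positivity) hle hs.summable
  exact ⟨hsum, (hsum.tsum_le_tsum hle hs.summable).trans (le_of_eq hs.tsum_eq)⟩

theorem KG_exp {y : ℝ} (hy : 0 < y) : 1 / (1 - Real.exp (-(2 * Real.pi * y))) ≤ 1 + y⁻¹ := by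
  have h1 : 1 + y ≤ Real.exp (2 * Real.pi * y) := by
    have h2 := Real.add_one_le_exp (2 * Real.pi * y)
    have h3 : y ≤ 2 * Real.pi * y := by
      have := Real.pi_gt_three
      nlinarith
    linarith
  have h2 : Real.exp (-(2 * Real.pi * y)) ≤ (1 + y)⁻¹ := by
    rw [Real.exp_neg]
    exact inv_anti₀ (by linarith) h1
  have h3 : y / (1 + y) ≤ 1 - Real.exp (-(2 * Real.pi * y)) := by
    have : y / (1 + y) = 1 - (1 + y)⁻¹ := by
      have : (1 + y) ≠ 0 := by positivity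
      field_simp
      ring
    rw [this]
    linarith
  have h4 : 0 < y / (1 + y) := by positivity
  calc 1 / (1 - Real.exp (-(2 * Real.pi * y))) ≤ 1 / (y / (1 + y)) :=
        one_div_le_one_div_of_le h4 h3
    _ = 1 + y⁻¹ := by
        field_simp
        ring

/-- Moderate growth of the value. -/
theorem MG_ev {f : PowerSeries ℂ} (hf : CG f) :
    Cv f ∧ ∃ C : ℝ, ∃ A : ℕ, ∀ z : ℂ, 0 < z.im → ‖ev f z‖ ≤ C * (1 + z.im⁻¹ ^ A) := by
  obtain ⟨C, κ, hC, h⟩ := CG_nonneg hf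
  have hb : ∀ z : ℂ, 0 < z.im → ∀ n : ℕ,
      ‖coeff n f * Complex.exp (2 * Real.pi * Complex.I * (n * z))‖ ≤
        C * (((n : ℝ) + 1) ^ κ * Real.exp (-(2 * Real.pi * z.im)) ^ n) := by
    intro z hz n
    rw [norm_mul, Complex.norm_exp, ← Real.exp_nat_mul, ← mul_assoc C]
    have e1 : (2 * (Real.pi : ℂ) * Complex.I * (n * z)).re = n * (-(2 * Real.pi * z.im)) := by
      simp [Complex.mul_re, Complex.mul_im]
      ring
    rw [e1]
    exact mul_le_mul_of_nonneg_right (h n) (Real.exp_pos _).le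
  have hr : ∀ z : ℂ, 0 < z.im → 0 ≤ Real.exp (-(2 * Real.pi * z.im)) ∧
      Real.exp (-(2 * Real.pi * z.im)) < 1 := by
    intro z hz
    refine ⟨(Real.exp_pos _).le, ?_⟩
    rw [Real.exp_lt_one_iff]
    have := mul_pos (mul_pos (by norm_num : (0 : ℝ) < 2) Real.pi_pos) hz
    linarith
  have hcv : Cv f := fun z hz =>
    Summable.of_nonneg_of_le (fun n => norm_nonneg _) (hb z hz)
      ((KG_sum κ (hr z hz).1 (hr z hz).2).1.mul_left C)
  refine ⟨hcv, C * ((κ.factorial : ℝ) * 2 ^ (κ + 1)), κ + 1, fun z hz => ?_⟩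
  have e1 := (KG_sum κ (hr z hz).1 (hr z hz).2)
  have hy1 : 0 < 1 - Real.exp (-(2 * Real.pi * z.im)) := by linarith [(hr z hz).2]
  have e2 : 1 / (1 - Real.exp (-(2 * Real.pi * z.im))) ^ (κ + 1) ≤
      2 ^ (κ + 1) * (1 + z.im⁻¹ ^ (κ + 1)) := by
    have e3 := KG_exp hz
    have e4 : (1 / (1 - Real.exp (-(2 * Real.pi * z.im)))) ^ (κ + 1) ≤ (1 + z.im⁻¹) ^ (κ + 1) :=
      pow_le_pow_left₀ (by positivity) e3 _
    rw [one_div_pow] at e4
    refine e4.trans ?_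
    have hx : 0 ≤ z.im⁻¹ := by positivity
    rcases le_total z.im⁻¹ 1 with h1 | h1
    · calc (1 + z.im⁻¹) ^ (κ + 1) ≤ 2 ^ (κ + 1) :=
            pow_le_pow_left₀ (by positivity) (by linarith) _
        _ ≤ 2 ^ (κ + 1) * (1 + z.im⁻¹ ^ (κ + 1)) :=
            le_mul_of_one_le_right (by positivity) (by linarith [pow_nonneg hx (κ + 1)])
    · calc (1 + z.im⁻¹) ^ (κ + 1) ≤ (2 * z.im⁻¹) ^ (κ + 1) :=
            pow_le_pow_left₀ (by positivity) (by linarith) _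
        _ = 2 ^ (κ + 1) * z.im⁻¹ ^ (κ + 1) := mul_pow _ _ _
        _ ≤ 2 ^ (κ + 1) * (1 + z.im⁻¹ ^ (κ + 1)) := by
            refine mul_le_mul_of_nonneg_left ?_ (by positivity)
            linarith
  unfold ev
  calc ‖∑' n : ℕ, coeff n f * Complex.exp (2 * Real.pi * Complex.I * (n * z))‖
      ≤ ∑' n : ℕ, ‖coeff n f * Complex.exp (2 * Real.pi * Complex.I * (n * z))‖ :=
        norm_tsum_le_tsum_norm (hcv z hz)
    _ ≤ ∑' n : ℕ, C * (((n : ℝ) + 1) ^ κ * Real.exp (-(2 * Real.pi * z.im)) ^ n) :=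
        (hcv z hz).tsum_le_tsum (hb z hz) (e1.1.mul_left C)
    _ = C * ∑' n : ℕ, ((n : ℝ) + 1) ^ κ * Real.exp (-(2 * Real.pi * z.im)) ^ n :=
        tsum_mul_left
    _ ≤ C * ((κ.factorial : ℝ) * (2 ^ (κ + 1) * (1 + z.im⁻¹ ^ (κ + 1)))) := by
        refine mul_le_mul_of_nonneg_left (e1.2.trans ?_) hC
        exact mul_le_mul_of_nonneg_left e2 (by positivity)
    _ = _ := by ring

end H94M
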