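import Pool.Agent.Lib.H94M.TD

/-!
# H94M: Theorem S for sparse good primes (`rel_sparse`)

As `rel_gen`, with weaker hypotheses on the good primes `R` (for every `η > 0` the sum of `log p`
over `p ≤ X` in `R` is at least `X^(1-η)` for `X` large) and a stronger one on the exceptional set
`E` (at most `X^((1-δ)/d)` primes up to `X`).
-/

open Finset

namespace H94M

open PowerSeries H53M

theorem card_all (E : ℕ → Prop) [DecidablePred E] (e : ℝ) (he : 0 ≤ e)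
    (hE : ∃ X₀ : ℕ, ∀ X ≥ X₀,
      (((range (X + 1)).filter (fun p => p.Prime ∧ E p)).card : ℝ) ≤ (X : ℝ) ^ e) :
    ∃ K : ℝ, 1 ≤ K ∧ ∀ X : ℕ, 1 ≤ X →
      (((range (X + 1)).filter (fun p => p.Prime ∧ E p)).card : ℝ) ≤ K * (X : ℝ) ^ e := by
  obtain ⟨X₀, h⟩ := hE
  refine ⟨X₀ + 1, by linarith [Nat.cast_nonneg (α := ℝ) X₀], fun X hX1 => ?_⟩
  have hX1' : (1 : ℝ) ≤ X := by exact_mod_cast hX1
  have h1 : 1 ≤ (X : ℝ) ^ e := Real.one_le_rpow hX1' he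
  have h0 : (0 : ℝ) ≤ X₀ := Nat.cast_nonneg X₀
  rcases le_or_gt X₀ X with hX | hX
  · refine (h X hX).trans ?_
    nlinarith
  · have h2 : ((range (X + 1)).filter (fun p => p.Prime ∧ E p)).card ≤ X₀ + 1 := by
      refine (card_filter_le _ _).trans ?_
      rw [card_range]
      omega
    have h3 : (((range (X + 1)).filter (fun p => p.Prime ∧ E p)).card : ℝ) ≤ X₀ + 1 := by
      exact_mod_cast h2
    nlinarith

theorem log_DG_sparse (E : ℕ → Prop) [DecidablePred E] (B d : ℕ) (hB : 1 ≤ B) (hd : 1 ≤ d)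
    (δ : ℝ) (hδ : 0 < δ) (hδ1 : δ ≤ 1)
    (hE : ∃ X₀ : ℕ, ∀ X ≥ X₀,
      (((range (X + 1)).filter (fun p => p.Prime ∧ E p)).card : ℝ) ≤
        (X : ℝ) ^ ((1 - δ) / (d : ℝ))) :
    ∃ K : ℝ, 0 ≤ K ∧ ∀ n : ℕ, Real.log (DG E B d n) ≤ K * ((n : ℝ) + 1) ^ (1 - δ / 2) := by
  have hBr : (1 : ℝ) ≤ B := by exact_mod_cast hB
  have hd0 : (0 : ℝ) < d := by exact_mod_cast hd
  have hd1 : (1 : ℝ) ≤ d := by exact_mod_cast hd
  obtain ⟨K, hK, hcard⟩ := card_all E _ (div_nonneg (by linarith) hd0.le) hE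
  refine ⟨K * (2 * d / δ) * B, by positivity, fun n => ?_⟩
  obtain ⟨M, hM⟩ : ∃ M, M = B * (n + 1) ^ d := ⟨_, rfl⟩
  have hM1 : 1 ≤ M := by
    rw [hM]
    exact Nat.mul_pos hB (Nat.pow_pos (by omega))
  have hM1' : (1 : ℝ) ≤ M := by exact_mod_cast hM1
  have hM0 : (0 : ℝ) < M := by linarith
  have h1 := log_DG_le E B d n hB
  rw [← hM] at h1
  have h2 := hcard M hM1
  have h3 : Real.log M ≤ (M : ℝ) ^ (δ / (2 * d)) / (δ / (2 * d)) :=
    Real.log_le_rpow_div hM0.le (by positivity)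
  have hl0 : 0 ≤ Real.log M := Real.log_nonneg hM1'
  have h4 : (M : ℝ) ^ ((1 - δ) / (d : ℝ)) * (M : ℝ) ^ (δ / (2 * d)) =
      (M : ℝ) ^ ((1 - δ / 2) / (d : ℝ)) := by
    rw [← Real.rpow_add hM0]
    congr 1
    field_simp
    ring
  have h5 : (M : ℝ) ^ ((1 - δ / 2) / (d : ℝ)) ≤ B * ((n : ℝ) + 1) ^ (1 - δ / 2) := by
    have a1 : (M : ℝ) ≤ ((B : ℝ) * ((n : ℝ) + 1)) ^ (d : ℝ) := by
      rw [hM, Real.rpow_natCast]
      push_cast
      rw [mul_pow]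
      refine mul_le_mul_of_nonneg_right ?_ (by positivity)
      exact le_self_pow₀ hBr (by omega)
    have a2 : (0 : ℝ) ≤ (B : ℝ) * ((n : ℝ) + 1) := by positivity
    calc (M : ℝ) ^ ((1 - δ / 2) / (d : ℝ))
        ≤ (((B : ℝ) * ((n : ℝ) + 1)) ^ (d : ℝ)) ^ ((1 - δ / 2) / (d : ℝ)) :=
          Real.rpow_le_rpow hM0.le a1 (div_nonneg (by linarith) hd0.le)
      _ = ((B : ℝ) * ((n : ℝ) + 1)) ^ (1 - δ / 2) := by
          rw [← Real.rpow_mul a2]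
          congr 1
          field_simp
      _ = (B : ℝ) ^ (1 - δ / 2) * ((n : ℝ) + 1) ^ (1 - δ / 2) :=
          Real.mul_rpow (by positivity) (by positivity)
      _ ≤ B * ((n : ℝ) + 1) ^ (1 - δ / 2) := by
          refine mul_le_mul_of_nonneg_right ?_ (by positivity)
          calc (B : ℝ) ^ (1 - δ / 2) ≤ (B : ℝ) ^ (1 : ℝ) :=
                Real.rpow_le_rpow_of_exponent_le hBr (by linarith)
            _ = B := Real.rpow_one _
  calc Real.log (DG E B d n)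
      ≤ (((range (M + 1)).filter (fun p => p.Prime ∧ E p)).card : ℝ) * Real.log M := h1
    _ ≤ (K * (M : ℝ) ^ ((1 - δ) / (d : ℝ))) * ((M : ℝ) ^ (δ / (2 * d)) / (δ / (2 * d))) :=
        mul_le_mul h2 h3 hl0 (by positivity)
    _ = K * (2 * d / δ) * ((M : ℝ) ^ ((1 - δ) / (d : ℝ)) * (M : ℝ) ^ (δ / (2 * d))) := by
        field_simp
    _ = K * (2 * d / δ) * (M : ℝ) ^ ((1 - δ / 2) / (d : ℝ)) := by rw [h4]
    _ ≤ K * (2 * d / δ) * (B * ((n : ℝ) + 1) ^ (1 - δ / 2)) :=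
        mul_le_mul_of_nonneg_left h5 (by positivity)
    _ = K * (2 * d / δ) * B * ((n : ℝ) + 1) ^ (1 - δ / 2) := by ring

/-- `X^a + X^b log X + K ≤ X^c` for `X` large. -/
theorem rpow_cmp (a b c K : ℝ) (hac : a < c) (hbc : b < c) (hc : 0 < c) :
    ∃ X₀ : ℕ, ∀ X : ℕ, X₀ ≤ X →
      (X : ℝ) ^ a + (X : ℝ) ^ b * Real.log X + K ≤ (X : ℝ) ^ c := by
  have ht : ∀ e : ℝ, 0 < e → Filter.Tendsto (fun x : ℝ => ‖x ^ e‖) Filter.atTop Filter.atTop :=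
    fun e he => tendsto_norm_atTop_atTop.comp (tendsto_rpow_atTop he)
  have h1 : (fun x : ℝ => x ^ a) =o[Filter.atTop] (fun x : ℝ => x ^ c) := by
    have h3 : (fun _ : ℝ => (1 : ℝ)) =o[Filter.atTop] (fun x : ℝ => x ^ (c - a)) :=
      Asymptotics.isLittleO_const_left.2 (Or.inr (ht _ (by linarith)))
    have h4 : (fun x : ℝ => x ^ a * 1) =o[Filter.atTop]
        (fun x : ℝ => x ^ a * x ^ (c - a)) :=
      (Asymptotics.isBigO_refl (fun x : ℝ => x ^ a) Filter.atTop).mul_isLittleO h3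
    refine h4.congr' (Filter.Eventually.of_forall fun x => mul_one _) ?_
    filter_upwards [Filter.eventually_gt_atTop 0] with x hx
    rw [← Real.rpow_add hx]
    congr 1
    ring
  have h2 : (fun x : ℝ => x ^ b * Real.log x) =o[Filter.atTop] (fun x : ℝ => x ^ c) := by
    have h3 : (fun x : ℝ => Real.log x) =o[Filter.atTop] (fun x : ℝ => x ^ (c - b)) :=
      isLittleO_log_rpow_atTop (by linarith)
    have h4 : (fun x : ℝ => x ^ b * Real.log x) =o[Filter.atTop]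
        (fun x : ℝ => x ^ b * x ^ (c - b)) :=
      (Asymptotics.isBigO_refl (fun x : ℝ => x ^ b) Filter.atTop).mul_isLittleO h3
    refine h4.congr' (Filter.Eventually.of_forall fun x => rfl) ?_
    filter_upwards [Filter.eventually_gt_atTop 0] with x hx
    rw [← Real.rpow_add hx]
    congr 1
    ring
  have h5 : (fun _ : ℝ => K) =o[Filter.atTop] (fun x : ℝ => x ^ c) := by
    exact Asymptotics.isLittleO_const_left.2 (Or.inr (ht c hc))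
  have e1 := h1.bound (show (0 : ℝ) < 1 / 3 by norm_num)
  have e2 := h2.bound (show (0 : ℝ) < 1 / 3 by norm_num)
  have e3 := h5.bound (show (0 : ℝ) < 1 / 3 by norm_num)
  have h6 := tendsto_natCast_atTop_atTop (R := ℝ) |>.eventually (e1.and (e2.and (e3.and
    (Filter.eventually_ge_atTop 0))))
  obtain ⟨X₀, hX⟩ := Filter.eventually_atTop.1 h6
  refine ⟨X₀, fun X hXX => ?_⟩
  obtain ⟨b1, b2, b3, b4⟩ := hX X hXX
  have h7 : ‖(X : ℝ) ^ c‖ = (X : ℝ) ^ c := Real.norm_of_nonneg (Real.rpow_nonneg b4 _)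
  rw [h7] at b1 b2 b3
  have c1 := (le_abs_self _).trans b1
  have c2 := (le_abs_self _).trans b2
  have c3 := (le_abs_self _).trans b3
  linarith

theorem GG_sparse (E R : ℕ → Prop) [DecidablePred E] [DecidablePred R] (p₀ d : ℕ)
    [DecidablePred (GG E R p₀)] (hd : 1 ≤ d) (δ : ℝ) (hδ : 0 < δ) (hδ1 : δ ≤ 1)
    (hE : ∃ X₀ : ℕ, ∀ X ≥ X₀,
      (((range (X + 1)).filter (fun p => p.Prime ∧ E p)).card : ℝ) ≤
        (X : ℝ) ^ ((1 - δ) / (d : ℝ)))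
    (hR : ∀ η : ℝ, 0 < η → ∃ X₀ : ℕ, ∀ X ≥ X₀, (X : ℝ) ^ (1 - η) ≤
      ∑ p ∈ (range (X + 1)).filter (fun p => p.Prime ∧ R p), Real.log p)
    (η : ℝ) (hη : 0 < η) :
    ∃ X₀ : ℕ, ∀ X ≥ X₀, (X : ℝ) ^ (1 - η) ≤
      ∑ p ∈ (range (X + 1)).filter (GG E R p₀), Real.log p := by
  obtain ⟨η', hη'⟩ : ∃ η', η' = min η δ / 2 := ⟨_, rfl⟩
  have hm : 0 < min η δ := lt_min hη hδ
  have hm1 : min η δ ≤ η := min_le_left _ _
  have hm2 : min η δ ≤ δ := min_le_right _ _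
  obtain ⟨X1, h1⟩ := hR η' (by rw [hη']; positivity)
  obtain ⟨X2, h2⟩ := hE
  obtain ⟨K, hK⟩ : ∃ K, K = ∑ p ∈ range (p₀ + 4), Real.log (p : ℝ) := ⟨_, rfl⟩
  obtain ⟨X3, h3⟩ := rpow_cmp (1 - η) (1 - δ) (1 - η') K (by linarith) (by linarith)
    (by linarith)
  refine ⟨max (max X1 X2) (max X3 1), fun X hX => ?_⟩
  have hX1 : X1 ≤ X := le_trans (le_trans (le_max_left _ _) (le_max_left _ _)) hX
  have hX2 : X2 ≤ X := le_trans (le_trans (le_max_right _ _) (le_max_left _ _)) hX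
  have hX3 : X3 ≤ X := le_trans (le_trans (le_max_left _ _) (le_max_right _ _)) hX
  have hX4 : 1 ≤ X := le_trans (le_trans (le_max_right _ _) (le_max_right _ _)) hX
  have hX4' : (1 : ℝ) ≤ X := by exact_mod_cast hX4
  have a1 := h1 X hX1
  have a2 := h2 X hX2
  have a3 := h3 X hX3
  have hlog : ∀ p : ℕ, 0 ≤ Real.log (p : ℝ) := fun p => Real.log_natCast_nonneg p
  have hsub : (range (X + 1)).filter (fun p => p.Prime ∧ R p) ⊆
      ((range (X + 1)).filter (GG E R p₀) ∪ (range (X + 1)).filter (fun p => p.Prime ∧ E p)) ∪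
        range (p₀ + 4) := by
    intro q hq
    rw [mem_filter, mem_range] at hq
    obtain ⟨hqX, hqp, hqR⟩ := hq
    rw [mem_union, mem_union, mem_filter, mem_filter, mem_range, mem_range]
    by_cases hE' : E q
    · exact Or.inl (Or.inr ⟨by omega, hqp, hE'⟩)
    by_cases h5 : 3 < q ∧ p₀ < q
    · exact Or.inl (Or.inl ⟨by omega, hqp, h5.1, h5.2, hqR, hE'⟩)
    · right
      omega
  have h4 : ∑ q ∈ (range (X + 1)).filter (fun p => p.Prime ∧ R p), Real.log q ≤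
      (∑ p ∈ (range (X + 1)).filter (GG E R p₀), Real.log p) +
      (∑ p ∈ (range (X + 1)).filter (fun p => p.Prime ∧ E p), Real.log p) + K := by
    refine (sum_le_sum_of_subset_of_nonneg hsub (fun p _ _ => hlog p)).trans ?_
    have b1 := sum_union_inter (s₁ := (range (X + 1)).filter (GG E R p₀) ∪
      (range (X + 1)).filter (fun p => p.Prime ∧ E p)) (s₂ := range (p₀ + 4))
      (f := fun p : ℕ => Real.log (p : ℝ))
    have b2 := sum_union_inter (s₁ := (range (X + 1)).filter (GG E R p₀))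
      (s₂ := (range (X + 1)).filter (fun p => p.Prime ∧ E p))
      (f := fun p : ℕ => Real.log (p : ℝ))
    have b3 : 0 ≤ ∑ p ∈ ((range (X + 1)).filter (GG E R p₀) ∪
      (range (X + 1)).filter (fun p => p.Prime ∧ E p)) ∩ range (p₀ + 4),
        Real.log (p : ℝ) := sum_nonneg fun p _ => hlog p
    have b4 : 0 ≤ ∑ p ∈ ((range (X + 1)).filter (GG E R p₀) ∩
      (range (X + 1)).filter (fun p => p.Prime ∧ E p)),
        Real.log (p : ℝ) := sum_nonneg fun p _ => hlog p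
    rw [← hK] at b1
    linarith
  have h5 : ∑ p ∈ (range (X + 1)).filter (fun p => p.Prime ∧ E p), Real.log p ≤
      (((range (X + 1)).filter (fun p => p.Prime ∧ E p)).card : ℝ) * Real.log X := by
    rw [← nsmul_eq_mul]
    refine sum_le_card_nsmul _ _ _ fun p hp => ?_
    rw [mem_filter, mem_range] at hp
    have hp0 : (0 : ℝ) < p := by exact_mod_cast hp.2.1.pos
    exact Real.log_le_log hp0 (by exact_mod_cast (by omega : p ≤ X))
  have h6 : (X : ℝ) ^ ((1 - δ) / (d : ℝ)) ≤ (X : ℝ) ^ (1 - δ) := by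
    have hd' : (1 : ℝ) ≤ d := by exact_mod_cast hd
    refine Real.rpow_le_rpow_of_exponent_le hX4' ?_
    exact div_le_self (by linarith) hd'
  have h8 : (((range (X + 1)).filter (fun p => p.Prime ∧ E p)).card : ℝ) * Real.log X ≤
      (X : ℝ) ^ (1 - δ) * Real.log X :=
    mul_le_mul_of_nonneg_right (a2.trans h6) (Real.log_nonneg hX4')
  linarith

/-- **Theorem S for sparse good primes.** -/
theorem rel_sparse (d B w' A : ℕ) (hd : 1 ≤ d) (hB : 1 ≤ B) (hA : 1 ≤ A) (h : PowerSeries ℚ)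
    (C : ℝ) (κ : ℕ) (hC : ∀ n, |((coeff n h : ℚ) : ℝ)| ≤ C * ((n : ℝ) + 1) ^ κ)
    (E : ℕ → Prop) (δ : ℝ) (hδ : 0 < δ) (hδ1 : δ ≤ 1)
    (hE : ∃ X₀ : ℕ, ∀ X ≥ X₀,
      (Set.ncard {p : ℕ | p ≤ X ∧ p.Prime ∧ E p} : ℝ) ≤ (X : ℝ) ^ ((1 - δ) / (d : ℝ)))
    (hden : ∀ n p : ℕ, p.Prime → p ^ padicValNat p (coeff n h).den ≤ B * (n + 1) ^ d)
    (hint : ∀ p : ℕ, p.Prime → ¬ E p → ∀ n, ¬ p ∣ (coeff n h).den)
    (R : ℕ → Prop)
    (hR : ∀ η : ℝ, 0 < η → ∃ X₀ : ℕ, ∀ X ≥ X₀, (X : ℝ) ^ (1 - η) ≤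
      ∑ᶠ p ∈ {p : ℕ | p ≤ X ∧ p.Prime ∧ R p}, Real.log p)
    (p₀ μ s : ℕ) (hμ : 1 ≤ μ)
    (hr : ∀ p [Fact p.Prime], 3 < p → p₀ < p → R p → ¬ E p →
      ∃ M : ℕ → Submodule (ZMod p) (PowerSeries (ZMod p)),
        MFam p μ s M ∧ redQ p h ∈ M (2 * w' + (p - 1) * A)) :
    Rel w' h := by
  classical
  have hset : ∀ (Q : ℕ → Prop) (X : ℕ), {p : ℕ | p ≤ X ∧ p.Prime ∧ Q p} =
      (((range (X + 1)).filter (fun p => p.Prime ∧ Q p) : Finset ℕ) : Set ℕ) := by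
    intro Q X
    ext p
    simp only [Set.mem_ofPred_eq, coe_filter, mem_range]
    constructor
    · rintro ⟨a, b⟩
      exact ⟨by omega, b⟩
    · rintro ⟨a, b⟩
      exact ⟨by omega, b⟩
  have hE' : ∃ X₀ : ℕ, ∀ X ≥ X₀,
      (((range (X + 1)).filter (fun p => p.Prime ∧ E p)).card : ℝ) ≤
        (X : ℝ) ^ ((1 - δ) / (d : ℝ)) := by
    obtain ⟨X₀, h⟩ := hE
    refine ⟨X₀, fun X hX => ?_⟩
    have h1 := h X hX
    rw [hset E X, Set.ncard_coe_finset] at h1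
    exact h1
  have hR' : ∀ η : ℝ, 0 < η → ∃ X₀ : ℕ, ∀ X ≥ X₀, (X : ℝ) ^ (1 - η) ≤
      ∑ p ∈ (range (X + 1)).filter (fun p => p.Prime ∧ R p), Real.log p := by
    intro η hη
    obtain ⟨X₀, h⟩ := hR η hη
    refine ⟨X₀, fun X hX => ?_⟩
    have h1 := h X hX
    rw [hset R X, finsum_mem_coe_finset] at h1
    exact h1
  obtain ⟨K, hK, hD⟩ := log_DG_sparse E B d hB hd δ hδ hδ1 hE'
  obtain ⟨k, hk⟩ := exists_nat_ge (4 / (δ / 2))
  rw [div_le_iff₀ (by positivity)] at hk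
  obtain ⟨X₀, hX₀⟩ := GG_sparse E R p₀ d hd δ hδ hδ1 hE' hR' (etaK k) (etaK_pos k)
  refine thmS_core w' A hA h C κ hC (DG E B d) (DG_pos E B d) (DG_dvd E B d)
    (fun n => DG_den E B d n _ (hden n) (fun p hp hEp => hint p hp hEp n))
    (GG E R p₀) (fun p hp => ⟨hp.1, hp.2.1⟩)
    (fun X => (X : ℝ) ^ (1 - etaK k)) X₀ hX₀ ?_ μ s hμ ?_
    (fun C4 hC4 => numeric_sparse w' A μ s X₀ hA hμ (DG E B d) k (δ / 2) K (by linarith) hk hK
      hD C4 hC4)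
  · intro p hp n
    exact hint p hp.1 hp.2.2.2.2 n
  · intro p _ hp
    exact hr p hp.2.1 hp.2.2.1 hp.2.2.2.1 hp.2.2.2.2

/-- `rel_sparse` with the hypothesis `ncard ≤ K X^η`, `η < 1/d`, on the exceptional set. -/
theorem rel_sparse_eta (d B w' A : ℕ) (hd : 1 ≤ d) (hB : 1 ≤ B) (hA : 1 ≤ A) (h : PowerSeries ℚ)
    (C : ℝ) (κ : ℕ) (hC : ∀ n, |((coeff n h : ℚ) : ℝ)| ≤ C * ((n : ℝ) + 1) ^ κ)
    (E : ℕ → Prop) (η K : ℝ) (hη : η < 1 / (d : ℝ))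
    (hE : ∃ X₀ : ℕ, ∀ X ≥ X₀,
      (Set.ncard {p : ℕ | p ≤ X ∧ p.Prime ∧ E p} : ℝ) ≤ K * (X : ℝ) ^ η)
    (hden : ∀ n p : ℕ, p.Prime → p ^ padicValNat p (coeff n h).den ≤ B * (n + 1) ^ d)
    (hint : ∀ p : ℕ, p.Prime → ¬ E p → ∀ n, ¬ p ∣ (coeff n h).den)
    (R : ℕ → Prop)
    (hR : ∀ η : ℝ, 0 < η → ∃ X₀ : ℕ, ∀ X ≥ X₀, (X : ℝ) ^ (1 - η) ≤
      ∑ᶠ p ∈ {p : ℕ | p ≤ X ∧ p.Prime ∧ R p}, Real.log p)
    (p₀ μ s : ℕ) (hμ : 1 ≤ μ)
    (hr : ∀ p [Fact p.Prime], 3 < p → p₀ < p → R p → ¬ E p →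
      ∃ M : ℕ → Submodule (ZMod p) (PowerSeries (ZMod p)),
        MFam p μ s M ∧ redQ p h ∈ M (2 * w' + (p - 1) * A)) :
    Rel w' h := by
  have hd0 : (0 : ℝ) < d := by exact_mod_cast hd
  obtain ⟨δ, hδ⟩ : ∃ δ : ℝ, δ = min ((1 - d * η) / 2) (1 / 2) := ⟨_, rfl⟩
  have h1 : 0 < 1 - d * η := by
    rw [lt_div_iff₀ hd0] at hη
    linarith
  have hδ0 : 0 < δ := by
    rw [hδ]
    exact lt_min (by linarith) (by norm_num)
  have hδ1 : δ ≤ 1 / 2 := by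
    rw [hδ]
    exact min_le_right _ _
  have hδ2 : δ ≤ (1 - d * η) / 2 := by
    rw [hδ]
    exact min_le_left _ _
  refine rel_sparse d B w' A hd hB hA h C κ hC E δ hδ0 (by linarith) ?_ hden hint R hR p₀ μ s hμ hr
  obtain ⟨X₁, h2⟩ := hE
  have h3 : η < (1 - δ) / d := by
    rw [lt_div_iff₀ hd0]
    linarith
  have h4 : 0 < (1 - δ) / (d : ℝ) := div_pos (by linarith) hd0
  obtain ⟨b, hb⟩ : ∃ b : ℝ, b = (max η 0 + (1 - δ) / d) / 2 := ⟨_, rfl⟩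
  have hm : max η 0 < (1 - δ) / (d : ℝ) := max_lt h3 h4
  -- `K X^η ≤ X^η log X ≤ X^((1-δ)/d)` for `X` large
  obtain ⟨X₂, h5⟩ := rpow_cmp (-1) η ((1 - δ) / d) 0 (by linarith) h3 h4
  obtain ⟨X₃, h6⟩ := exists_nat_ge (Real.exp K)
  refine ⟨max (max X₁ X₂) (max X₃ 1), fun X hX => ?_⟩
  have hX1 : X₁ ≤ X := le_trans (le_trans (le_max_left _ _) (le_max_left _ _)) hX
  have hX2 : X₂ ≤ X := le_trans (le_trans (le_max_right _ _) (le_max_left _ _)) hX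
  have hX3 : X₃ ≤ X := le_trans (le_trans (le_max_left _ _) (le_max_right _ _)) hX
  have a1 := h2 X hX1
  have a2 := h5 X hX2
  have a3 : K ≤ Real.log X := by
    have a4 : Real.exp K ≤ X := h6.trans (by exact_mod_cast hX3)
    exact (Real.le_log_iff_exp_le (lt_of_lt_of_le (Real.exp_pos _) a4)).2 a4
  have a4 : 0 ≤ (X : ℝ) ^ (-1 : ℝ) := Real.rpow_nonneg (Nat.cast_nonneg _) _
  have a5 : 0 ≤ (X : ℝ) ^ η := Real.rpow_nonneg (Nat.cast_nonneg _) _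
  have a6 : K * (X : ℝ) ^ η ≤ (X : ℝ) ^ η * Real.log X := by
    rw [mul_comm]
    exact mul_le_mul_of_nonneg_left a3 a5
  linarith

end H94M
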