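import Mathlib
import Pool.Agent.Lib.H53M.K0
import Pool.Agent.Lib.H53M.X0

/-!
# H94M: common definitions

Infinitely many ordinary primes for every rational newform of weight `k ≥ 4` (any level `N`).
See PROOF.md. The project extends H53M (level one, weights 12, .., 26) and uses its definitions:
`uu vv NN ms GS hser Rel e2 e4 e6 dl redQ redZ th MP` (H53M/Defs), `PI Cv ev ktoC GG tser tq Mq low`
(H53M/K0), `X.F X.L X.A X.co X.Fam X.cc X.U X.V X.gg X.Q` (H53M/X0).

* `chi5` : the quadratic character modulo 5;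
* `bc N k a` : the array of the coefficients of the base change to `ℚ(√5)` of `Σ a(n) qⁿ`, of weight
  `k` and level `N` (the summands `r` prime to `N` only);
* `DTrans N k G` : the diagonal action of `Γ₀(N)`: `G(γz₁, γz₂) = ((C z₁ + D)(C z₂ + D))^k G(z₁,z₂)`;
* `ArrN N k c` : the properties of an integral array which Part II uses.

* `G0 N`, `MN N p w` : `Γ₀(N)` in `GL₂(ℝ)`, modular forms modulo `p` on `Γ₀(N)` of weight `w` (span
  of the set `MNset N p w` of reductions of the forms with `p`-integral rational `q`-expansion);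
* `mu N` : the index of `Γ₀(N)`.

INTERFACE. Part I (module P): `DTrans N k (GS (bc N k a))` for the coefficients `a` of every cusp form
of weight `k ≥ 4` on `Γ₀(N)`. Part II: everything else.
-/

namespace H94M

open H53M
open scoped MatrixGroups

/-- The quadratic character modulo 5. -/
def chi5 (n : ℤ) : ℤ := if n % 5 = 0 then 0 else if n % 5 = 1 ∨ n % 5 = 4 then 1 else -1

/-- The coefficients of the base change to `ℚ(√5)`:
`c(n,m) = Σ_r χ₅(r) r^(k-1) a((5n² - m²)/(4r²))`, the sum over the `r ≥ 1` prime to `N` such that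
`(m + n√5)/2` is divisible by `r`. -/
def bc {R : Type*} [Ring R] (N k : ℕ) (a : ℕ → R) (n : ℕ) (m : ℤ) : R :=
  if m ^ 2 < 5 * (n : ℤ) ^ 2 ∧ (2 : ℤ) ∣ (n : ℤ) - m then
    ∑ r ∈ (Nat.gcd n m.natAbs).divisors.filter
        (fun r => r.Coprime N ∧ (2 : ℤ) ∣ ((n / r : ℕ) : ℤ) - m / (r : ℤ)),
      ((chi5 r * (r : ℤ) ^ (k - 1) : ℤ) : R) * a (NN (n / r) (m / (r : ℤ))).toNat
  else 0

/-- The transformation law under the diagonal action of `Γ₀(N)` in weight `(k,k)`. -/
def DTrans (N k : ℕ) (G : ℂ → ℂ → ℂ) : Prop :=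
  ∀ A B C D : ℤ, A * D - B * C = 1 → (N : ℤ) ∣ C → ∀ z₁ z₂ : ℂ, 0 < z₁.im → 0 < z₂.im →
    G ((A * z₁ + B) / (C * z₁ + D)) ((A * z₂ + B) / (C * z₂ + D)) =
      ((C * z₁ + D) * (C * z₂ + D)) ^ k * G z₁ z₂

/-- The properties of an integral array `c` used in Part II. -/
structure ArrN (N k : ℕ) (c : ℕ → ℤ → ℤ) : Prop where
  /-- support: `ν = u` totally positive in the inverse different -/
  supp : ∀ n m, c n m ≠ 0 → m ^ 2 < 5 * (n : ℤ) ^ 2 ∧ Even ((n : ℤ) - m)
  /-- polynomial growth, in the form used by H53M -/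
  bound : ∃ C : ℝ, ∀ n m, c n m ≠ 0 →
    |(c n m : ℝ)| ≤ C * (n : ℝ) ^ 4 * (NN n m : ℝ) ^ (k / 2)
  /-- absolute convergence of `Σ c v^{-(k-1)} e(u τ)` -/
  fam : X.Fam (k - 1) (X.cc c) X.U X.V
  /-- symmetry under conjugation -/
  symm : ∀ n m, c n (-m) = c n m
  /-- modularity on the diagonal -/
  trans : DTrans N k (GS (fun n m => (c n m : ℂ)))
  /-- non-triviality -/
  ne : c 1 1 ≠ 0

/-- `Γ₀(N)` as a subgroup of `GL₂(ℝ)`. -/
abbrev G0 (N : ℕ) : Subgroup (GL (Fin 2) ℝ) :=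
  ((CongruenceSubgroup.Gamma0 N : Subgroup SL(2, ℤ)) : Subgroup (GL (Fin 2) ℝ))

/-- Reductions modulo `p` of the modular forms on `Γ₀(N)` of weight `w` with `p`-integral rational
`q`-expansions. -/
def MNset (N p w : ℕ) [Fact p.Prime] : Set (PowerSeries (ZMod p)) :=
  {f | ∃ (F : ModularForm (G0 N) (w : ℤ)) (g : PowerSeries ℚ), PI p g ∧
    UpperHalfPlane.qExpansion 1 (F : UpperHalfPlane → ℂ) = ktoC g ∧ f = redQ p g}

/-- Modular forms modulo `p` on `Γ₀(N)`, of weight `w` (chunk A1: the span is the set itself). -/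
noncomputable def MN (N p w : ℕ) [Fact p.Prime] : Submodule (ZMod p) (PowerSeries (ZMod p)) :=
  Submodule.span (ZMod p) (MNset N p w)

/-- The index of `Γ₀(N)` in `SL₂(ℤ)` (as it occurs in `ModularForm.norm`). -/
noncomputable def mu (N : ℕ) : ℕ := Nat.card (𝒮ℒ ⧸ (G0 N).subgroupOf 𝒮ℒ)

end H94M
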