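import Pool.Agent.Lib.H94M.QA2
import Pool.Agent.Lib.H53M.Q6A
import Pool.Agent.Lib.H53M.KQ

/-!
# H94M, chunk QA3 (M): `θ` maps `MN N p w` to `MN N p (w + p + 1)`

PROOF. (1) `exists_serreN`: copy of H53M/Q6A `exists_serre` with `G0 N` for `𝒮ℒ`: the Serre
derivative of `F : ModularForm (G0 N) k` is a modular form of weight `k + 2` on `G0 N`: slash
invariance by `serreDerivative_slash_invariant` (elements of `G0 N` are images of `γ ∈ SL(2,ℤ)`),
holomorphic by `serreDerivative_mdifferentiable`, bounded at cusps: for `γ ∈ SL(2,ℤ)`,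
`serreDerivative_slash_equivariant`: `(∂F)|γ = ∂(F|γ)`, `F|γ` is bounded at `i∞` and so is its
normalised derivative (Cauchy estimates; see Q6A for level one, where the boundedness comes from the
q-expansion; for `F|γ`, which is periodic of period `N`, use the q-expansion of period `N` or a
Cauchy estimate on discs of radius 1: `‖deriv f z‖ ≤ sup_{|w-z| ≤ 1} ‖f w‖`,
`Complex.norm_deriv_le_of_forall_mem_sphere_norm_le`), `E₂` is bounded at `i∞`. Boundedness at
every cusp of `G0 N` from `OnePoint.isBoundedAt_iff_forall_SL2Z` (cusps of `G0 N` are cusps of `𝒮ℒ`,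
`IsCusp.mono`). The q-expansion as in Q6A (`Q6A_D`, `Q6A_E2`, `Q6A_mul`, with `G0 N`).
(2) `th_MN`: `f = redQ p g`, `(F, g)` by `mem_MN`. `redQ p (th g - (w/12) e2 g)` is in
`MN N p (w + 2)`, times `1 ∈ MP p (p - 1)` (`one_mem`, H53M/Q5): in `MN N p (w + 2 + (p - 1))`; and
`(w/12) redZ p e2 * f` is in `MN N p (p + 1 + w)` (`e2_mem`, H53M/Q6, `MP_le_MN`, `MN_mul`).
`Q6_PInt_th`, `Q6_redQ_th`.
-/

namespace H94M

open H53M UpperHalfPlane ModularForm PowerSeries
open scoped MatrixGroups ModularForm Manifold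


open Derivative in
/-- the `q`-expansion of the normalized derivative -/
theorem QA3_D (N : ℕ) [NeZero N] (k : ℤ) (F : ModularForm (G0 N) k) (τ : ℍ) :
    HasSum (fun m : ℕ ↦ (PowerSeries.coeff m (th (qExpansion 1 (F : ℍ → ℂ)))) *
      Function.Periodic.qParam 1 τ ^ m) (normalizedDerivOfComplex F τ) := by
  set g : ℂ → ℂ := cuspFunction 1 (F : ℍ → ℂ) with hg
  set q : ℂ := Function.Periodic.qParam 1 τ with hq
  have hq1 : ‖q‖ < 1 := Function.Periodic.norm_qParam_lt_one one_pos τ.im_pos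
  have hper : Function.Periodic ((F : ℍ → ℂ) ∘ ofComplex) (1 : ℝ) :=
    SlashInvariantFormClass.periodic_comp_ofComplex F (one_mem_strictPeriods N)
  have hdiff : DifferentiableOn ℂ g (Metric.ball 0 1) :=
    differentiableOn_cuspFunction_ball one_pos hper (ModularFormClass.holo F)
      (ModularFormClass.bdd_at_infty F)
  have hd' : DifferentiableOn ℂ (deriv g) (Metric.ball 0 1) :=
    hdiff.deriv Metric.isOpen_ball
  have h1 := Complex.hasSum_taylorSeries_on_ball hd' (z := q) (by simpa using hq1)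
  have h2 : HasSum (fun m : ℕ => ((m + 1 : ℕ) : ℂ) *
      PowerSeries.coeff (m + 1) (qExpansion 1 (F : ℍ → ℂ)) * q ^ m) (deriv g q) := by
    have e : (fun m : ℕ => ((m + 1 : ℕ) : ℂ) *
      PowerSeries.coeff (m + 1) (qExpansion 1 (F : ℍ → ℂ)) * q ^ m) =
      fun n => ((n.factorial : ℕ) : ℂ)⁻¹ • (q - 0) ^ n • iteratedDeriv n (deriv g) 0 := by
      funext m
      rw [qExpansion_coeff, iteratedDeriv_succ', Nat.factorial_succ, sub_zero, ← hg]
      simp only [smul_eq_mul]
      have h3 : ((m : ℂ) + 1) ≠ 0 := by exact_mod_cast Nat.succ_ne_zero m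
      have h4 : ((m.factorial : ℕ) : ℂ) ≠ 0 := by exact_mod_cast Nat.factorial_ne_zero m
      push_cast
      field_simp
    rw [e]
    exact h1
  have h3 : HasSum (fun m : ℕ ↦ (PowerSeries.coeff m (th (qExpansion 1 (F : ℍ → ℂ)))) * q ^ m)
      (q * deriv g q) := by
    rw [← hasSum_nat_add_iff' 1]
    have e : (fun m : ℕ => coeff (m + 1) (th (qExpansion 1 (F : ℍ → ℂ))) * q ^ (m + 1)) =
        fun m : ℕ => q * (((m + 1 : ℕ) : ℂ) *
      PowerSeries.coeff (m + 1) (qExpansion 1 (F : ℍ → ℂ)) * q ^ m) := by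
      funext m
      rw [Q6A_coeff_th, pow_succ]
      ring
    rw [e]
    have e2 : q * deriv g q - ∑ i ∈ Finset.range 1,
        coeff i (th (qExpansion 1 (F : ℍ → ℂ))) * q ^ i = q * deriv g q := by
      rw [Finset.sum_range_one, Q6A_coeff_th]
      simp
    rw [e2]
    exact h2.mul_left q
  have h5 : HasDerivAt g (deriv g q) q :=
    (hdiff.differentiableAt (Metric.isOpen_ball.mem_nhds (by simpa using hq1))).hasDerivAt
  have h6 : HasDerivAt (fun w : ℂ => Function.Periodic.qParam 1 w)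
      (q * (2 * Real.pi * Complex.I)) (τ : ℂ) := by
    have h7 : HasDerivAt (fun w : ℂ => 2 * Real.pi * Complex.I * w / ((1 : ℝ) : ℂ))
        (2 * Real.pi * Complex.I) (τ : ℂ) := by
      have h8 := ((hasDerivAt_id (τ : ℂ)).const_mul (2 * Real.pi * Complex.I)).div_const
        (((1 : ℝ) : ℂ))
      simpa using h8
    exact h7.cexp
  have h7 : HasDerivAt (g ∘ fun w : ℂ => Function.Periodic.qParam 1 w)
      (deriv g q * (q * (2 * Real.pi * Complex.I))) (τ : ℂ) :=
    HasDerivAt.comp (τ : ℂ) h5 h6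
  have h8 : (F : ℍ → ℂ) ∘ ofComplex =ᶠ[nhds (τ : ℂ)] (g ∘ fun w : ℂ => Function.Periodic.qParam 1 w) := by
    filter_upwards [isOpen_upperHalfPlaneSet.mem_nhds τ.im_pos] with w hw
    have h9 := eq_cuspFunction (f := (F : ℍ → ℂ)) (h := 1) ⟨w, hw⟩ one_ne_zero hper
    rw [Function.comp_apply, ofComplex_apply_of_im_pos hw, ← h9]
    rfl
  have h11 : normalizedDerivOfComplex (F : ℍ → ℂ) τ = q * deriv g q := by
    rw [normalizedDerivOfComplex, h8.deriv_eq, h7.deriv]
    have h10 : (2 * Real.pi * Complex.I : ℂ) ≠ 0 := Complex.two_pi_I_ne_zero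
    field_simp
  rw [h11]
  exact h3

open Derivative in
theorem QA3_S (N : ℕ) [NeZero N] (k : ℤ) (F : ModularForm (G0 N) k) (τ : ℍ) :
    HasSum (fun m : ℕ ↦ (PowerSeries.coeff m (th (qExpansion 1 (F : ℍ → ℂ)) -
      ((k : ℂ) / 12) • (toC e2 * qExpansion 1 (F : ℍ → ℂ)))) *
      Function.Periodic.qParam 1 τ ^ m) (serreDerivative k F τ) := by
  have h1 := QA3_D N k F τ
  have h2 := Q6A_mul (Q6A_E2 τ) (ModularForm.hasSum_qExpansion F one_pos (one_mem_strictPeriods N) τ)
  have h3 := h1.sub (h2.mul_left ((k : ℂ) / 12))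
  have e : (fun m : ℕ ↦ (PowerSeries.coeff m (th (qExpansion 1 (F : ℍ → ℂ)) -
      ((k : ℂ) / 12) • (toC e2 * qExpansion 1 (F : ℍ → ℂ)))) *
      Function.Periodic.qParam 1 τ ^ m) = fun m : ℕ =>
      coeff m (th (qExpansion 1 (F : ℍ → ℂ))) * Function.Periodic.qParam 1 τ ^ m -
      (k : ℂ) / 12 * (coeff m (toC e2 * qExpansion 1 (F : ℍ → ℂ)) *
        Function.Periodic.qParam 1 τ ^ m) := by
    funext m
    rw [map_sub, coeff_smul, smul_eq_mul]
    ring
  have e3 : serreDerivative k F τ = normalizedDerivOfComplex F τ -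
      (k : ℂ) / 12 * (EisensteinSeries.E2 τ * F τ) := by
    rw [serreDerivative_apply]
    ring
  rw [e, e3]
  exact h3


/-- the derivative of a function bounded at infinity is bounded at infinity -/
theorem QA3_D_bdd (f : ℍ → ℂ) (hf : MDiff f) (hb : IsBoundedAtImInfty f) :
    IsBoundedAtImInfty (Derivative.normalizedDerivOfComplex f) := by
  rw [isBoundedAtImInfty_iff] at hb ⊢
  obtain ⟨M, Y, hM⟩ := hb
  refine ⟨‖(2 * Real.pi * Complex.I : ℂ)⁻¹‖ * M, max Y 1 + 2, fun z hz => ?_⟩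
  have hY : Y ≤ max Y 1 := le_max_left _ _
  have h1 : (1 : ℝ) ≤ max Y 1 := le_max_right _ _
  have hin : ∀ w : ℂ, ‖w - z‖ ≤ 1 → max Y 1 ≤ w.im := by
    intro w hw
    have h2 := Complex.abs_im_le_norm (w - z)
    rw [Complex.sub_im] at h2
    have h3 := (abs_le.1 (h2.trans hw)).1
    have h4 : ((z : ℂ)).im = z.im := rfl
    rw [h4] at h3
    linarith
  rw [UpperHalfPlane.mdifferentiable_iff] at hf
  have hball : Metric.closedBall (z : ℂ) 1 ⊆ upperHalfPlaneSet := by
    intro w hw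
    rw [Metric.mem_closedBall, dist_eq_norm] at hw
    have := hin w hw
    exact lt_of_lt_of_le one_pos (h1.trans this)
  have hd : DiffContOnCl ℂ (f ∘ ofComplex) (Metric.ball (z : ℂ) 1) := by
    refine DifferentiableOn.diffContOnCl ?_
    rw [closure_ball _ one_ne_zero]
    exact hf.mono hball
  have h5 := Complex.norm_deriv_le_of_forall_mem_sphere_norm_le (C := M) one_pos hd (by
    intro w hw
    rw [mem_sphere_iff_norm] at hw
    have h6 := hin w hw.le
    have h7 : 0 < w.im := lt_of_lt_of_le one_pos (h1.trans h6)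
    rw [Function.comp_apply, ofComplex_apply_of_im_pos h7]
    exact hM ⟨w, h7⟩ (hY.trans h6))
  rw [div_one] at h5
  unfold Derivative.normalizedDerivOfComplex
  rw [norm_mul]
  exact mul_le_mul_of_nonneg_left h5 (norm_nonneg _)

theorem QA3_bdd (k : ℂ) (f : ℍ → ℂ) (hf : MDiff f) (hb : IsBoundedAtImInfty f) :
    IsBoundedAtImInfty (Derivative.serreDerivative k f) := by
  have h1 : (Derivative.normalizedDerivOfComplex f) =O[atImInfty] (1 : ℍ → ℝ) :=
    QA3_D_bdd f hf hb
  have h2 : (fun z => (k * 12⁻¹) * (EisensteinSeries.E2 * f) z) =O[atImInfty] (1 : ℍ → ℝ) :=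
    (EisensteinSeries.isBoundedAtImInfty_E2.mul hb).const_mul_left (k * 12⁻¹)
  refine (h1.sub h2).congr_left fun z => ?_
  simp only [Derivative.serreDerivative_apply, Pi.mul_apply]
  ring

theorem QA3_slash (N : ℕ) (k : ℤ) (F : ModularForm (G0 N) k) (γ : SL(2, ℤ))
    (hγ : γ ∈ CongruenceSubgroup.Gamma0 N) :
    Derivative.serreDerivative k F ∣[k + 2] γ = Derivative.serreDerivative k F := by
  refine Derivative.serreDerivative_slash_invariant F.holo' ?_
  exact F.slash_action_eq' _ ⟨γ, hγ, rfl⟩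

/-- the Serre derivative as a modular form on `Γ₀(N)` -/
noncomputable def QA3_form (N : ℕ) [NeZero N] (k : ℤ) (F : ModularForm (G0 N) k) :
    ModularForm (G0 N) (k + 2) where
  toFun := Derivative.serreDerivative k F
  slash_action_eq' := by
    rintro A ⟨γ, hγ, rfl⟩
    exact QA3_slash N k F γ hγ
  holo' := Derivative.serreDerivative_mdifferentiable _ F.holo'
  bdd_at_cusps' {c} hc := by
    rw [Subgroup.IsArithmetic.isCusp_iff_isCusp_SL2Z] at hc
    rw [OnePoint.isBoundedAt_iff_forall_SL2Z hc]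
    intro γ _
    have h1 := Derivative.serreDerivative_slash_equivariant (k := k) (F := (F : ℍ → ℂ)) F.holo'
      (γ := γ)
    rw [h1]
    refine QA3_bdd _ _ (F.holo'.slash k _) ?_
    exact ModularFormClass.bdd_at_infty_slash F γ

theorem exists_serreN (N : ℕ) [NeZero N] (k : ℤ) (F : ModularForm (G0 N) k) :
    ∃ G : ModularForm (G0 N) (k + 2), qExpansion 1 (G : ℍ → ℂ) =
      th (qExpansion 1 (F : ℍ → ℂ)) - ((k : ℂ) / 12) • (toC e2 * qExpansion 1 (F : ℍ → ℂ)) := by
  refine ⟨QA3_form N k F, ?_⟩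
  ext m
  exact (ModularFormClass.qExpansion_coeff_unique one_pos (one_mem_strictPeriods N)
    (f := QA3_form N k F) (QA3_S N k F) m).symm

theorem th_MN (N p : ℕ) [NeZero N] [Fact p.Prime] (hp : 3 < p) {w : ℕ} {f : PowerSeries (ZMod p)}
    (hf : f ∈ MN N p w) : th f ∈ MN N p (w + p + 1) := by
  rw [mem_MN] at hf
  obtain ⟨F, g, hg, hF, rfl⟩ := hf
  obtain ⟨G, hG⟩ := exists_serreN N (w : ℤ) F
  rw [hF] at hG
  obtain ⟨a, ha⟩ : ∃ a : ℚ, a = ((w : ℤ) : ℚ) / 12 := ⟨_, rfl⟩
  have haI : ¬ p ∣ a.den := ha ▸ Q6_den p hp _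
  have hth : PI p (th g) := Q6_PInt_th p hg
  have hsm : PI p (-(a • (toQ e2 * g))) := PI_neg (PI_smul haI (PI_mul (PI_toQ e2) hg))
  have hq : qExpansion 1 (G : ℍ → ℂ) = ktoC (th g + -(a • (toQ e2 * g))) := by
    rw [hG]
    ext m
    simp only [map_sub, map_add, map_neg, coeff_smul, coeff_map, smul_eq_mul, map_mul,
      Q6A_coeff_th, coeff_mul, map_sum, ha]
    push_cast
    simp
    ring_nf
  have h1 : redQ p (th g + -(a • (toQ e2 * g))) ∈ MN N p (w + 2) :=
    red_mem_MN G _ (PI_add hth hsm) hq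
  have h2 := MN_mul h1 (MP_le_MN N p _ (one_mem p hp))
  rw [mul_one] at h2
  have h3 := MN_mul (MP_le_MN N p _ (e2_mem p hp)) (red_mem_MN F g hg hF)
  have h4 := Submodule.smul_mem _ (a : ZMod p) h3
  have e1 : w + 2 + (p - 1) = w + p + 1 := by omega
  have e2' : p + 1 + w = w + p + 1 := by omega
  rw [e1] at h2
  rw [e2'] at h4
  have h5 := Submodule.add_mem _ h2 h4
  have h6 : redQ p (th g + -(a • (toQ e2 * g))) + (a : ZMod p) • (redZ p e2 * redQ p g) =
      th (redQ p g) := by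
    have e3 : redQ p (a • (toQ e2 * g)) = (a : ZMod p) • (redZ p e2 * redQ p g) := by
      rw [kredQ_smul haI (PI_mul (PI_toQ e2) hg), kredQ_mul (PI_toQ e2) hg, kredQ_toQ]
    rw [← e3, ← kredQ_add (PI_add hth hsm) (PI_smul haI (PI_mul (PI_toQ e2) hg)),
      neg_add_cancel_right, Q6_redQ_th p hg]
  rwa [h6] at h5

end H94M
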