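import Pool.Agent.Lib.H94M.T0
import Mathlib.NumberTheory.NumberField.Discriminant.Different
import Mathlib.NumberTheory.NumberField.Norm
import Mathlib.NumberTheory.Padics.Complex

/-!
# H94M, module TR: Theorem T for newforms with coefficients in a number field

`ordinaryE_of`: let `E` be a number field and `a : ℕ → 𝓞 E` such that for every embedding `σ` of `E` into
`ℂ` the series with coefficients `σ (a n)` is a cusp form of weight `k ≥ 4` on `Γ₀(N)`, with `a 1 = 1` and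
the Hecke recursion at the primes not dividing `N`. Then the set of primes `p`, not dividing `N`, for which
there is an embedding `τ` of `E` into an algebraic closure of `ℚ_p` with `τ (a p)` a unit, i.e. for which
the Frobenius eigenvalues have absolute values `1` and `p ^ (-(k-1))` at `τ`, is not `o(√X / log X)`.

Reduction to `thmT_of`: the traces `b n = Tr (a n)` are the coefficients of the sum of the conjugate forms.
-/

namespace H94M

open H53M UpperHalfPlane NumberField PowerSeries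

theorem LO_mono {S T : ℕ → Prop} (h : ∀ p : ℕ, p.Prime → S p → T p) (hT : LO T) : LO S := by
  intro ε hε
  obtain ⟨X₀, h0⟩ := hT ε hε
  refine ⟨X₀, fun X hX => le_trans ?_ (h0 X hX)⟩
  refine mul_le_mul_of_nonneg_right ?_ (Real.log_natCast_nonneg X)
  have h1 : {p : ℕ | p ≤ X ∧ p.Prime ∧ S p} ⊆ {p : ℕ | p ≤ X ∧ p.Prime ∧ T p} :=
    fun p hp => ⟨hp.1, hp.2.1, h p hp.2.1 hp.2.2⟩
  have h2 : {p : ℕ | p ≤ X ∧ p.Prime ∧ T p}.Finite :=
    (Set.finite_Iic X).subset fun p hp => hp.1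
  exact_mod_cast Set.ncard_le_ncard h1 h2

/-- Finitely many primes do not matter. -/
theorem LO_fin {S T : ℕ → Prop} (M : ℕ) (h : ∀ p : ℕ, p.Prime → M < p → S p → T p) (hT : LO T) :
    LO S := by
  refine LO_mono (T := fun p => T p ∨ p ≤ M) (fun p hp hS => ?_) (exc_add T M hT)
  by_cases hM : M < p
  · exact Or.inl (h p hp hM hS)
  · exact Or.inr (not_lt.1 hM)

theorem TR_trace {E : Type*} [Field E] [NumberField E] (x : 𝓞 E) :
    ((Algebra.trace ℤ (𝓞 E) x : ℤ) : ℂ) = ∑ σ : E →ₐ[ℚ] ℂ, σ (x : E) := by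
  have h1 := trace_eq_sum_embeddings (K := ℚ) (L := E) ℂ (x := (x : E))
  rw [← h1, ← Algebra.coe_trace_int]
  simp

theorem TR_sum (N k : ℕ) [NeZero N] {ι : Type*} (s : Finset ι) (f : ι → CuspForm (G0 N) (k : ℤ))
    (n : ℕ) : coeff n (qExpansion 1 ((∑ i ∈ s, f i : CuspForm (G0 N) (k : ℤ)) : ℍ → ℂ)) =
      ∑ i ∈ s, coeff n (qExpansion 1 (f i : ℍ → ℂ)) := by
  classical
  induction s using Finset.induction_on with
  | empty =>
    rw [Finset.sum_empty, Finset.sum_empty]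
    have : ((0 : CuspForm (G0 N) (k : ℤ)) : ℍ → ℂ) = 0 := rfl
    rw [this, qExpansion_zero]
    simp
  | insert i s hi ih =>
    rw [Finset.sum_insert hi, Finset.sum_insert hi, ← ih, FunLike.coe_add,
      ModularForm.qExpansion_add zero_lt_one (one_mem_strictPeriods N) (f i) (∑ j ∈ s, f j), map_add]

/-- A prime not dividing the discriminant generates a squarefree ideal. -/
theorem TR_sqf {E : Type*} [Field E] [NumberField E] {p : ℕ} (hp : p.Prime)
    (hd : ¬ (p : ℤ) ∣ discr E) : Squarefree (Ideal.span {(p : 𝓞 E)}) := by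
  have hpZ : Prime (p : ℤ) := Nat.prime_iff_prime_int.1 hp
  have h1 := (NumberField.not_dvd_discr_iff_forall_mem E (𝓞 E) hpZ).1 hd
  intro J hJ
  by_contra hu
  have hJ1 : J ≠ ⊤ := fun h => hu (Ideal.isUnit_iff.2 h)
  obtain ⟨P, hPm, hJP⟩ := Ideal.exists_le_maximal J hJ1
  have hPp : P.IsPrime := hPm.isPrime
  have hPJ : P ∣ J := Ideal.dvd_iff_le.2 hJP
  have hPI : P ^ 2 ∣ Ideal.span {(p : 𝓞 E)} := by
    rw [pow_two]
    exact (mul_dvd_mul hPJ hPJ).trans hJ
  have hpP : (p : 𝓞 E) ∈ P := by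
    have h3 : Ideal.span {(p : 𝓞 E)} ≤ P ^ 2 := Ideal.dvd_iff_le.1 hPI
    exact Ideal.pow_le_self (by norm_num) (h3 (Ideal.mem_span_singleton_self _))
  have hun := h1 P hPp (by exact_mod_cast hpP)
  have hun2 : ¬ P ∣ differentIdeal ℤ (𝓞 E) := not_dvd_differentIdeal_iff.2 hun
  apply hun2
  have hmax : (Ideal.span {(p : ℤ)}).IsMaximal :=
    PrincipalIdealRing.isMaximal_of_irreducible hpZ.irreducible
  have hmap : (Ideal.span {(p : ℤ)}).map (algebraMap ℤ (𝓞 E)) = Ideal.span {(p : 𝓞 E)} := by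
    rw [Ideal.map_span, Set.image_singleton]
    simp
  have h4 := pow_sub_one_dvd_differentIdeal ℤ (p := Ideal.span {(p : ℤ)}) P 2
    (by
      intro h
      exact hpZ.ne_zero (Ideal.span_singleton_eq_bot.1 h)) (by rw [hmap]; exact hPI)
  simpa using h4

theorem TR_dvd_of_pow {E : Type*} [Field E] [NumberField E] {p : ℕ} (hp : p.Prime)
    (hd : ¬ (p : ℤ) ∣ discr E) (x : 𝓞 E) (n : ℕ) (hn : (p : 𝓞 E) ∣ x ^ n) : (p : 𝓞 E) ∣ x := by
  have hp0 : (p : 𝓞 E) ≠ 0 := by exact_mod_cast hp.ne_zero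
  have hI0 : (Ideal.span {(p : 𝓞 E)}) ≠ 0 := by
    intro h
    exact hp0 (Ideal.span_singleton_eq_bot.1 h)
  have hrad := (isRadical_iff_squarefree_of_ne_zero hI0).2 (TR_sqf hp hd)
  have h5 : Ideal.span {(p : 𝓞 E)} ∣ (Ideal.span {x}) ^ n := by
    rw [Ideal.dvd_iff_le, Ideal.span_singleton_pow, Ideal.span_singleton_le_iff_mem]
    exact Ideal.mem_span_singleton.2 hn
  have h6 := hrad n _ h5
  rw [Ideal.dvd_iff_le, Ideal.span_singleton_le_iff_mem] at h6
  exact Ideal.mem_span_singleton.1 h6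

theorem TR_sub (p : ℕ) [Fact p.Prime] (x y : PadicAlgCl p) : ‖x - y‖ ≤ max ‖x‖ ‖y‖ := by
  rw [sub_eq_add_neg, ← norm_neg y]
  exact IsUltrametricDist.norm_add_le_max _ _

/-- Coefficients of a product of linear factors with small roots. -/
theorem TR_coeffs (p : ℕ) [Fact p.Prime] (s : Multiset (PadicAlgCl p)) (hs : ∀ r ∈ s, ‖r‖ < 1) :
    (∀ i, ‖((s.map fun r => Polynomial.X - Polynomial.C r).prod).coeff i‖ ≤ 1) ∧
      ∀ i < Multiset.card s, ‖((s.map fun r => Polynomial.X - Polynomial.C r).prod).coeff i‖ < 1 := by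
  induction s using Multiset.induction_on with
  | empty =>
    refine ⟨fun i => ?_, fun i hi => ?_⟩
    · rw [Multiset.map_zero, Multiset.prod_zero, Polynomial.coeff_one]
      split_ifs <;> simp
    · simp at hi
  | cons r s ih =>
    obtain ⟨h1, h2⟩ := ih fun x hx => hs x (Multiset.mem_cons_of_mem hx)
    have hr := hs r (Multiset.mem_cons_self r s)
    set P := (s.map fun r => Polynomial.X - Polynomial.C r).prod with hP
    have hPr : ((r ::ₘ s).map fun r => Polynomial.X - Polynomial.C r).prod =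
        (Polynomial.X - Polynomial.C r) * P := by
      rw [Multiset.map_cons, Multiset.prod_cons]
    have hsm : ∀ i, ‖r * P.coeff i‖ < 1 := by
      intro i
      rw [norm_mul]
      calc ‖r‖ * ‖P.coeff i‖ ≤ ‖r‖ * 1 :=
            mul_le_mul_of_nonneg_left (h1 i) (norm_nonneg _)
        _ < 1 := by rw [mul_one]; exact hr
    rw [hPr]
    have h0 : ((Polynomial.X - Polynomial.C r) * P).coeff 0 = - (r * P.coeff 0) := by
      rw [sub_mul, Polynomial.coeff_sub, Polynomial.coeff_X_mul_zero, Polynomial.coeff_C_mul, zero_sub]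
    have h3 : ∀ i, ((Polynomial.X - Polynomial.C r) * P).coeff (i + 1) =
        P.coeff i - r * P.coeff (i + 1) := by
      intro i
      rw [sub_mul, Polynomial.coeff_sub, Polynomial.coeff_X_mul, Polynomial.coeff_C_mul]
    have hmax : ∀ x y : PadicAlgCl p, ‖x - y‖ ≤ max ‖x‖ ‖y‖ := TR_sub p
    refine ⟨fun i => ?_, fun i hi => ?_⟩
    · rcases i with _ | i
      · rw [h0, norm_neg]
        exact (hsm 0).le
      · rw [h3]
        exact (hmax _ _).trans (max_le (h1 i) (hsm (i + 1)).le)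
    · rw [Multiset.card_cons] at hi
      rcases i with _ | i
      · rw [h0, norm_neg]
        exact hsm 0
      · rw [h3]
        exact (hmax _ _).trans_lt (max_lt (h2 i (by omega)) (hsm (i + 1)))

theorem TR_int_norm (p : ℕ) [Fact p.Prime] (c : ℤ) (h : ‖(c : PadicAlgCl p)‖ < 1) : (p : ℤ) ∣ c := by
  have h1 : ((c : ℚ_[p]) : PadicAlgCl p) = (c : PadicAlgCl p) := by
    exact map_intCast (algebraMap ℚ_[p] (PadicAlgCl p)) c
  rw [← h1, PadicAlgCl.norm_extends] at h
  have h2 : ‖((c : ℤ_[p]) : ℚ_[p])‖ < 1 := by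
    rw [PadicInt.coe_intCast]
    exact h
  exact (PadicInt.norm_int_lt_one_iff_dvd c).1 h2

/-- If all the `p`-adic absolute values of `x` are less than one, then a power of `x` is divisible
by `p`. -/
theorem TR_dvd_pow_of_norm {E : Type*} [Field E] [NumberField E] (p : ℕ) [Fact p.Prime] (x : 𝓞 E)
    (hx : ∀ τ : E →+* PadicAlgCl p, ‖τ (x : E)‖ < 1) : ∃ n : ℕ, (p : 𝓞 E) ∣ x ^ n := by
  have hint : IsIntegral ℤ x := Algebra.IsIntegral.isIntegral x
  have hmin := minpoly.isIntegrallyClosed_eq_field_fractions ℚ E hint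
  set P := minpoly ℤ x with hP
  have hPm : P.Monic := minpoly.monic hint
  have hroots : ∀ r ∈ (P.map (Int.castRingHom (PadicAlgCl p))).roots, ‖r‖ < 1 := by
    intro r hr
    have h1 : (P.map (Int.castRingHom (PadicAlgCl p))) =
        (minpoly ℚ (x : E)).map (algebraMap ℚ (PadicAlgCl p)) := by
      have h2 : minpoly ℚ (x : E) = P.map (algebraMap ℤ ℚ) := hmin
      rw [h2, Polynomial.map_map]
      congr 1
    rw [h1] at hr
    have h3 : r ∈ (minpoly ℚ (x : E)).rootSet (PadicAlgCl p) := by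
      rw [Polynomial.mem_rootSet']
      have h4 := Polynomial.mem_roots'.1 hr
      refine ⟨h4.1, ?_⟩
      have h5 := h4.2
      rw [Polynomial.IsRoot.def, Polynomial.eval_map] at h5
      rw [Polynomial.aeval_def]
      exact h5
    rw [← Algebra.IsAlgebraic.range_eval_eq_rootSet_minpoly (F := ℚ) (K := E) (PadicAlgCl p)] at h3
    obtain ⟨τ, rfl⟩ := h3
    exact hx (τ : E →+* PadicAlgCl p)
  have hspl : P.map (Int.castRingHom (PadicAlgCl p)) =
      ((P.map (Int.castRingHom (PadicAlgCl p))).roots.map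
        fun r => Polynomial.X - Polynomial.C r).prod :=
    (IsAlgClosed.splits _).eq_prod_roots_of_monic (hPm.map _)
  have hcard : Multiset.card (P.map (Int.castRingHom (PadicAlgCl p))).roots = P.natDegree := by
    rw [← (IsAlgClosed.splits _).natDegree_eq_card_roots, hPm.natDegree_map]
  have hco := (TR_coeffs p _ hroots).2
  rw [hcard, ← hspl] at hco
  have hdvd : ∀ i < P.natDegree, (p : ℤ) ∣ P.coeff i := by
    intro i hi
    have h1 := hco i hi
    rw [Polynomial.coeff_map] at h1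
    exact TR_int_norm p _ (by simpa using h1)
  refine ⟨P.natDegree, ?_⟩
  have h0 : Polynomial.aeval x P = 0 := minpoly.aeval ℤ x
  rw [hPm.as_sum] at h0
  simp only [map_add, map_pow, Polynomial.aeval_X, map_sum, map_mul, Polynomial.aeval_C] at h0
  rw [← neg_eq_iff_add_eq_zero] at h0
  rw [← dvd_neg, h0]
  refine Finset.dvd_sum fun i hi => ?_
  obtain ⟨c, hc⟩ := hdvd i (Finset.mem_range.1 hi)
  rw [hc, map_mul]
  refine Dvd.dvd.mul_right ?_ _
  refine Dvd.dvd.mul_right ?_ _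
  simp

theorem TR_norm_le {E : Type*} [Field E] [NumberField E] (p : ℕ) [Fact p.Prime]
    (τ : E →+* PadicAlgCl p) (x : 𝓞 E) : ‖τ (x : E)‖ ≤ 1 := by
  have h1 : IsIntegral ℤ (τ (x : E)) := map_isIntegral_int τ (RingOfIntegers.isIntegral_coe x)
  have h2 : IsIntegral (PadicAlgCl.valued p).v.integer (τ (x : E)) := h1.tower_top
  have h3 := Valuation.Integers.mem_of_integral
    (Valuation.integer.integers (v := (PadicAlgCl.valued p).v)) h2
  have h4 : (PadicAlgCl.valued p).v (τ (x : E)) ≤ 1 := h3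
  rw [PadicAlgCl.valuation_def] at h4
  exact_mod_cast h4

/-- The Newton polygon of `X ^ 2 - α X + p ^ m` for a unit `α`. -/
theorem TR_roots (p m : ℕ) [Fact p.Prime] (hm : 1 ≤ m) (α : PadicAlgCl p) (hα : ‖α‖ = 1) :
    ∃ x y : PadicAlgCl p, x + y = α ∧ x * y = (p : PadicAlgCl p) ^ m ∧ ‖x‖ = 1 ∧
      ‖y‖ = (p : ℝ) ^ (-(m : ℤ)) := by
  have hp : p.Prime := Fact.out
  have hnp : ‖(p : PadicAlgCl p)‖ = (p : ℝ)⁻¹ := by
    have h1 : ((p : ℚ_[p]) : PadicAlgCl p) = (p : PadicAlgCl p) := by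
      exact map_natCast (algebraMap ℚ_[p] (PadicAlgCl p)) p
    rw [← h1, PadicAlgCl.norm_extends, Padic.norm_p]
  have hp1 : (1 : ℝ) < p := by exact_mod_cast hp.one_lt
  have hq : ‖(p : PadicAlgCl p) ^ m‖ = (p : ℝ) ^ (-(m : ℤ)) := by
    rw [norm_pow, hnp, zpow_neg, zpow_natCast, inv_pow]
  have hq1 : ‖(p : PadicAlgCl p) ^ m‖ < 1 := by
    rw [norm_pow, hnp]
    exact pow_lt_one₀ (by positivity) (inv_lt_one_of_one_lt₀ hp1) (by omega)
  obtain ⟨x, hx⟩ : ∃ x : PadicAlgCl p, x * x - α * x + (p : PadicAlgCl p) ^ m = 0 := by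
    have hdeg : (Polynomial.X ^ 2 + Polynomial.C (-α) * Polynomial.X +
        Polynomial.C ((p : PadicAlgCl p) ^ m)).degree ≠ 0 := by
      have : (Polynomial.C (1 : PadicAlgCl p) * Polynomial.X ^ 2 + Polynomial.C (-α) * Polynomial.X +
        Polynomial.C ((p : PadicAlgCl p) ^ m)).degree = 2 :=
        Polynomial.degree_quadratic one_ne_zero
      rw [Polynomial.C_1, one_mul] at this
      rw [this]
      decide
    obtain ⟨x, hx⟩ := IsAlgClosed.exists_root _ hdeg
    refine ⟨x, ?_⟩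
    rw [Polynomial.IsRoot.def] at hx
    simp only [Polynomial.eval_add, Polynomial.eval_pow, Polynomial.eval_X, Polynomial.eval_mul,
      Polynomial.eval_C] at hx
    linear_combination hx
  -- both roots have norm at most one
  have key : ∀ z : PadicAlgCl p, z * z - α * z + (p : PadicAlgCl p) ^ m = 0 → ‖z‖ ≤ 1 := by
    intro z hz
    by_contra hc
    rw [not_le] at hc
    have h1 : z * z = α * z - (p : PadicAlgCl p) ^ m := by linear_combination hz
    have h2 : ‖z * z‖ ≤ max ‖α * z‖ ‖(p : PadicAlgCl p) ^ m‖ := by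
      rw [h1]
      exact TR_sub p _ _
    rw [norm_mul, norm_mul, hα, one_mul] at h2
    have h3 : max ‖z‖ ‖(p : PadicAlgCl p) ^ m‖ = ‖z‖ := max_eq_left (hq1.le.trans hc.le)
    rw [h3] at h2
    nlinarith
  have hy : (α - x) * (α - x) - α * (α - x) + (p : PadicAlgCl p) ^ m = 0 := by
    linear_combination hx
  have hxy : x * (α - x) = (p : PadicAlgCl p) ^ m := by linear_combination -hx
  have hnx := key x hx
  have hny := key (α - x) hy
  have hsum : x + (α - x) = α := by ring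
  have hmax : (1 : ℝ) ≤ max ‖x‖ ‖α - x‖ := by
    have h1 : ‖x + (α - x)‖ ≤ max ‖x‖ ‖α - x‖ := IsUltrametricDist.norm_add_le_max _ _
    rw [hsum, hα] at h1
    exact h1
  have hprod : ‖x‖ * ‖α - x‖ = (p : ℝ) ^ (-(m : ℤ)) := by rw [← norm_mul, hxy, hq]
  rcases le_max_iff.1 hmax with h | h
  · have h1 : ‖x‖ = 1 := le_antisymm hnx h
    rw [h1, one_mul] at hprod
    exact ⟨x, α - x, hsum, hxy, h1, hprod⟩
  · have h1 : ‖α - x‖ = 1 := le_antisymm hny h
    rw [h1, mul_one] at hprod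
    refine ⟨α - x, x, by ring, by rw [mul_comm]; exact hxy, h1, hprod⟩

/-- `p ^ r` divides `a n` if it divides `n` and `p` divides `a p`. -/
theorem TR_pow {R : Type*} [CommRing R] (a : ℕ → R) (p k : ℕ) (hp : p.Prime) (hk : 3 ≤ k)
    (hH : ∀ n, a (p * n) = a p * a n - (if p ∣ n then (p : R) ^ (k - 1) * a (n / p) else 0))
    (hpa : (p : R) ∣ a p) : ∀ r n, p ^ r ∣ n → (p : R) ^ r ∣ a n := by
  intro r
  induction r using Nat.strong_induction_on with
  | _ r ih =>
    intro n hn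
    rcases r with _ | _ | r
    · simp
    · obtain ⟨m, rfl⟩ := hn
      rw [zero_add, pow_one, pow_one, hH]
      refine dvd_sub (hpa.mul_right _) ?_
      split_ifs with h
      · exact (dvd_pow_self _ (by omega)).mul_right _
      · exact dvd_zero _
    · obtain ⟨m, rfl⟩ := hn
      have h1 : p ^ (r + 1 + 1) * m = p * (p ^ (r + 1) * m) := by ring
      rw [h1, hH]
      have h2 : (p : R) ^ (r + 1) ∣ a (p ^ (r + 1) * m) := ih (r + 1) (by omega) _ (dvd_mul_right _ _)
      have h3 : p ∣ p ^ (r + 1) * m := (dvd_pow_self p (by omega)).mul_right m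
      have h4 : p ^ (r + 1) * m / p = p ^ r * m := by
        rw [pow_succ', mul_assoc, Nat.mul_div_cancel_left _ hp.pos]
      rw [if_pos h3, h4]
      have h5 : (p : R) ^ r ∣ a (p ^ r * m) := ih r (by omega) _ (dvd_mul_right _ _)
      refine dvd_sub ?_ ?_
      · rw [pow_succ' (p : R) (r + 1)]
        exact mul_dvd_mul hpa h2
      · rw [pow_add (p : R) (r + 1) 1, pow_add (p : R) r 1, mul_assoc, ← pow_add, mul_comm]
        refine mul_dvd_mul (pow_dvd_pow _ (by omega)) h5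

/-- **Theorem T for newforms with coefficients in a number field.** -/
theorem ordinaryE_of (hP : StP) (N k : ℕ) [NeZero N] (hk : 4 ≤ k) (E : Type*) [Field E]
    [NumberField E] (a : ℕ → 𝓞 E)
    (hf : ∀ σ : E →+* ℂ, ∃ f : CuspForm (G0 N) (k : ℤ),
      ∀ n, (qExpansion 1 (f : ℍ → ℂ)).coeff n = σ (a n))
    (h1 : a 1 = 1)
    (hH : ∀ p : ℕ, p.Prime → ¬ p ∣ N → ∀ n,
      a (p * n) = a p * a n - (if p ∣ n then (p : 𝓞 E) ^ (k - 1) * a (n / p) else 0)) :
    ¬ LO (fun p => ¬ p ∣ N ∧ ∃ (_ : Fact p.Prime) (τ : E →+* PadicAlgCl p) (x y : PadicAlgCl p),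
      x + y = τ (a p) ∧ x * y = (p : PadicAlgCl p) ^ (k - 1) ∧ ‖x‖ = 1 ∧
        ‖y‖ = (p : ℝ) ^ (-((k : ℤ) - 1))) := by
  intro hLO
  choose f hf using hf
  have hb : ∀ n, coeff n (qExpansion 1
      ((∑ σ : E →ₐ[ℚ] ℂ, f (σ : E →+* ℂ) : CuspForm (G0 N) (k : ℤ)) : ℍ → ℂ)) =
      ((Algebra.trace ℤ (𝓞 E) (a n) : ℤ) : ℂ) := by
    intro n
    rw [TR_sum, TR_trace]
    exact Finset.sum_congr rfl fun σ _ => hf (σ : E →+* ℂ) n
  have hb1 : Algebra.trace ℤ (𝓞 E) (a 1) ≠ 0 := by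
    intro h0
    have h2 := TR_trace (E := E) (a 1)
    rw [h0, h1] at h2
    have h3 : (∑ σ : E →ₐ[ℚ] ℂ, σ ((1 : 𝓞 E) : E)) = (Fintype.card (E →ₐ[ℚ] ℂ) : ℂ) := by
      simp
    rw [h3, AlgHom.card] at h2
    have h4 : 0 < Module.finrank ℚ E := Module.finrank_pos
    have h5 : (0 : ℂ) = (Module.finrank ℚ E : ℂ) := by simpa using h2
    rw [eq_comm, Nat.cast_eq_zero] at h5
    omega
  refine thmT_of hP N k hk _ (fun n => Algebra.trace ℤ (𝓞 E) (a n)) hb hb1 ?_
  refine LO_fin (max N (discr E).natAbs) (fun p hp hM hS => ?_) hLO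
  have hpN : ¬ p ∣ N := fun h =>
    absurd (Nat.le_of_dvd (Nat.pos_of_ne_zero (NeZero.ne N)) h)
      (not_le.2 ((le_max_left _ _).trans_lt hM))
  have hpd : ¬ (p : ℤ) ∣ discr E := by
    intro h
    have h2 : p ∣ (discr E).natAbs := by
      have := Int.natAbs_dvd_natAbs.2 h
      simpa using this
    exact absurd (Nat.le_of_dvd (Int.natAbs_pos.2 (discr_ne_zero E)) h2)
      (not_le.2 ((le_max_right _ _).trans_lt hM))
  by_contra hc
  obtain ⟨n, r, hr, hna⟩ := hS
  apply hna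
  have hF : Fact p.Prime := ⟨hp⟩
  have hsm : ∀ τ : E →+* PadicAlgCl p, ‖τ (a p : E)‖ < 1 := by
    intro τ
    refine lt_of_le_of_ne (TR_norm_le p τ (a p)) fun h => hc ⟨hpN, hF, τ, ?_⟩
    obtain ⟨x, y, hx1, hx2, hx3, hx4⟩ := TR_roots p (k - 1) (by omega) _ h
    refine ⟨x, y, hx1, hx2, hx3, ?_⟩
    rw [hx4]
    congr 1
    have : ((k - 1 : ℕ) : ℤ) = (k : ℤ) - 1 := by omega
    rw [this]
  obtain ⟨m, hm⟩ := TR_dvd_pow_of_norm p (a p) hsm
  have hpa : (p : 𝓞 E) ∣ a p := TR_dvd_of_pow hp hpd _ m hm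
  obtain ⟨y, hy⟩ := TR_pow a p k hp (by omega) (hH p hp hpN) hpa r n hr
  have h6 : a n = ((p : ℤ) ^ r) • y := by
    rw [hy, zsmul_eq_mul]
    push_cast
    rfl
  show (p : ℤ) ^ r ∣ Algebra.trace ℤ (𝓞 E) (a n)
  rw [h6, map_smul, smul_eq_mul]
  exact dvd_mul_right _ _

end H94M
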