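import Pool.Agent.Lib.H94M.XN5
import Pool.Agent.Lib.H53M.XFin

/-!
# H94M, module X, assembly: `h` satisfies no isobaric relation with `E₂, E₄, Δ`
-/

namespace H94M

open H53M H53M.X Filter Topology

variable {N k : ℕ} {c : ℕ → ℤ → ℤ}

/-- the polynomial `P` of the proof -/
noncomputable def PpN (N K : ℕ) (c : ℕ → ℤ → ℤ) (t : ℂ) : Polynomial ℂ :=
  ∑ j ∈ Finset.range K,
    Polynomial.C ((N : ℂ)⁻¹ * (2 * Real.pi * Complex.I * co K j * QN N c (j + 1) t)) *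
      Polynomial.X ^ j

/-- the constant of the proof -/
noncomputable def kapN (N K : ℕ) : ℂ := (N : ℂ)⁻¹ * kap K

theorem kapN_ne (hN : 0 < N) (K : ℕ) : kapN N K ≠ 0 :=
  mul_ne_zero (inv_ne_zero (XN5_Nne hN)) (kap_ne K)

theorem h_shiftN (hN : 0 < N) (hk : 2 ≤ k) (hA : ArrN N k c) {t : ℂ} (ht : 0 < t.im) (M : ℕ) :
    ev (ktoC (hser c)) ((1 + -1 / (t + 2 * N * (M : ℂ))) / N) =
      (t + 2 * N * (M : ℂ)) ^ (2 * (k - 1)) *
      ((PpN N (k - 1) c t).eval (t + 2 * N * (M : ℂ))⁻¹ +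
        kapN N (k - 1) * (t + 2 * N * (M : ℂ))⁻¹ ^ (k - 2) *
          ggN (k - 1) (c1N N c) (uN N) (vN N) t ((M : ℝ) / Real.sqrt 5)) := by
  have ht1 : 0 < (t + 2 * N * (M : ℂ)).im := XN5_im2 ht M
  have ht0 : t + 2 * N * (M : ℂ) ≠ 0 := by
    intro h
    rw [h] at ht1
    simp at ht1
  have hf := hA.fam
  have hf' := fam_symm hf hA.symm
  rw [ev_transN hN hk hA ht1, ← LN_shift hN hf hf' ht M]
  simp only [QN_shift hN hA.supp _ t M]
  generalize t + 2 * N * (M : ℂ) = z at *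
  have e1 : (PpN N (k - 1) c t).eval z⁻¹ =
      ∑ j ∈ Finset.range (k - 1), (N : ℂ)⁻¹ * (2 * Real.pi * Complex.I * co (k - 1) j *
        QN N c (j + 1) t) * z⁻¹ ^ j := by
    unfold PpN
    rw [Polynomial.eval_finset_sum]
    refine Finset.sum_congr rfl fun j _ => ?_
    simp
  rw [e1, mul_sub, mul_sub, mul_add (z ^ (2 * (k - 1))), Finset.mul_sum, Finset.mul_sum,
    Finset.mul_sum, sub_eq_add_neg]
  congr 1
  · refine Finset.sum_congr rfl fun j hj => ?_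
    have hj' : j ≤ k - 2 := by
      have := Finset.mem_range.mp hj
      omega
    have e2 : z ^ (2 * (k - 1)) = z ^ (k - 1 + 1) * z ^ (k - 1 - 1 - j) * z ^ j := by
      rw [← pow_add, ← pow_add]
      congr 1
      omega
    rw [e2]
    have e3 : z ^ j * z⁻¹ ^ j = 1 := by
      rw [← mul_pow, mul_inv_cancel₀ ht0, one_pow]
    linear_combination (-((N : ℂ)⁻¹ * z ^ (k - 1 + 1) * z ^ (k - 1 - 1 - j) *
      (2 * Real.pi * Complex.I * co (k - 1) j * QN N c (j + 1) t))) * e3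
  · have e2 : z ^ (2 * (k - 1)) = z ^ (k - 1 + 1) * z ^ (k - 2) := by
      rw [← pow_add]
      congr 1
      omega
    rw [e2]
    have e3 : z ^ (k - 2) * z⁻¹ ^ (k - 2) = 1 := by
      rw [← mul_pow, mul_inv_cancel₀ ht0, one_pow]
    unfold kapN kap
    linear_combination ((N : ℂ)⁻¹ * z ^ (k - 1 + 1) * (2 * Real.pi * Complex.I *
      co (k - 1) (k - 1 - 1)) * (L (c1N N c) (uN N) (vN N) (k - 1) z +
        L (c1N N c) (vN N) (uN N) (k - 1) z)) * e3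

theorem inv_tendstoN (hN : 0 < N) (t : ℂ) :
    Tendsto (fun M : ℕ => (t + 2 * N * (M : ℂ))⁻¹) atTop (𝓝 0) := by
  have h := (inv_tendsto t).comp (tendsto_id.const_mul_atTop' hN : Tendsto (fun M : ℕ => N * M)
    atTop atTop)
  refine h.congr fun M => ?_
  simp only [Function.comp_apply, id]
  push_cast
  ring

theorem XNFin_im {y : ℝ} (hN : 0 < N) (hy : 0 < y) :
    0 < (1 + (N : ℂ) * (Complex.I * (y : ℂ))).im := by
  have : (1 + (N : ℂ) * (Complex.I * (y : ℂ))).im = N * y := by simp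
  rw [this]
  exact mul_pos (by exact_mod_cast hN) hy

/-- **Module X at level `N`.** -/
theorem not_relN (hN : 0 < N) (hk : 2 ≤ k) (hA : ArrN N k c) : ¬ Rel (k - 1) (hser c) := by
  rintro ⟨W, S, g, hS, ⟨t₀, ht₀, hg₀⟩, h0⟩
  refine hg₀ (triang W (k - 1) S g hS (fun y => ev (ktoC (toQ dl)) (Complex.I * (y : ℂ)))
    (fun y => ev (ktoC (toQ e4)) (Complex.I * (y : ℂ))) dl_tendsto dl_ne e4_tendsto ?_ t₀ ht₀)
  filter_upwards [ggN_nonconst hN hA, eventually_gt_atTop (0 : ℝ)] with y hy hy0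
  intro i j
  have hs : Sp c := hA.supp
  have hf := hA.fam
  have hf' := fam_symm hf hA.symm
  set τ : ℂ := Complex.I * (y : ℂ) with hτdef
  have hτ : 0 < τ.im := by
    rw [hτdef]
    simpa using hy0
  have hN' := XN5_Nne hN
  set t : ℂ := 1 + N * τ with htdef
  have ht : 0 < t.im := XNFin_im hN hy0
  have hne : ∀ M : ℕ, t + 2 * N * (M : ℂ) ≠ 0 := fun M => X3_ne (XN5_im2 ht M)
  refine elim S (fun s => (g s : ℂ) * (ev (ktoC (toQ dl)) τ ^ s.2.2 *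
      ev (ktoC (toQ e4)) τ ^ (3 * (W - s.1 - (k - 1) * s.2.1 - s.2.2))))
    (ev (ktoC (toQ e2)) τ) (12 / (2 * Real.pi * Complex.I) * N) (kapN N (k - 1))
    (mul_ne_zero (div_ne_zero (by norm_num) two_pi_I_ne) hN') (kapN_ne hN _)
    (PpN N (k - 1) c t) (k - 2)
    (fun M => (t + 2 * N * (M : ℂ))⁻¹)
    (fun M => ggN (k - 1) (c1N N c) (uN N) (vN N) t ((M : ℝ) / Real.sqrt 5))
    (fun M => inv_ne_zero (hne M)) (inv_tendstoN hN t)
    (clusters (ggN (k - 1) (c1N N c) (uN N) (vN N) t)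
      (ggN_continuous (fam1 hN hf) (fam1' hN hf') ht)
      (fun s => ggN_periodic (k - 1) (c1N N c) (uN N) (vN N) t s) hy) ?_ i j
  intro M
  have hz : 0 < (τ + 2 * (M : ℂ)).im := X13_im2 hτ M
  have e0 : t + 2 * N * (M : ℂ) = (N : ℂ) * (τ + 2 * (M : ℂ)) + 1 := by
    rw [htdef]
    ring
  have hz1 : (N : ℂ) * (τ + 2 * (M : ℂ)) + 1 ≠ 0 := XN4_ne hz N
  have e1 : (1 + -1 / (t + 2 * N * (M : ℂ))) / N =
      (τ + 2 * (M : ℂ)) / ((N : ℂ) * (τ + 2 * (M : ℂ)) + 1) := by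
    rw [e0]
    field_simp
    ring
  have hgam : 0 < ((τ + 2 * (M : ℂ)) / ((N : ℂ) * (τ + 2 * (M : ℂ)) + 1)).im := by
    rw [XN4_gam hz]
    exact X13_im (XN4_im hz N)
  have hr := rel_eval (XN2_Cv hk hs hf hf') h0 hgam
  have hh := h_shiftN hN hk hA ht M
  rw [e1] at hh
  rw [e0] at hh
  simp only [dl_gam hz, e4_gam hz, e2_gam hz, hh, ev_period] at hr
  rw [e0]
  have hW : ((N : ℂ) * (τ + 2 * (M : ℂ)) + 1) ^ (12 * W) ≠ 0 := pow_ne_zero _ hz1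
  apply mul_left_cancel₀ hW
  rw [mul_zero, ← hr, Finset.mul_sum]
  refine Finset.sum_congr rfl fun s hsS => ?_
  have hle := hS s hsS
  generalize (PpN N (k - 1) c t).eval ((N : ℂ) * (τ + 2 * (M : ℂ)) + 1)⁻¹ + kapN N (k - 1) *
    ((N : ℂ) * (τ + 2 * (M : ℂ)) + 1)⁻¹ ^ (k - 2) *
      ggN (k - 1) (c1N N c) (uN N) (vN N) t ((M : ℝ) / Real.sqrt 5) = A1
  generalize (ev (ktoC (toQ e2)) τ + 12 / (2 * Real.pi * Complex.I) * N *
    ((N : ℂ) * (τ + 2 * (M : ℂ)) + 1)⁻¹) = A2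
  generalize ev (ktoC (toQ dl)) τ = A3
  generalize ev (ktoC (toQ e4)) τ = A4
  generalize (N : ℂ) * (τ + 2 * (M : ℂ)) + 1 = u
  rw [mul_pow, mul_pow, mul_pow, mul_pow, ← pow_mul, ← pow_mul, ← pow_mul, ← pow_mul]
  have e : 12 * W = 12 * s.2.2 + 4 * (3 * (W - s.1 - (k - 1) * s.2.1 - s.2.2)) + 2 * (6 * s.1) +
      2 * (k - 1) * (6 * s.2.1) := by
    generalize hq : (k - 1) * s.2.1 = q at *
    have : 2 * (k - 1) * (6 * s.2.1) = 12 * q := by rw [← hq]; ring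
    rw [this]
    omega
  rw [e, pow_add, pow_add, pow_add]
  ring

end H94M
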