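import Pool.Agent.Lib.H53M.SH

/-!
# H94M: Theorem S for an abstract graded family of modular forms modulo p

`MFam p mu s M` : `M w` (w a weight) are subspaces of `F_p[[q]]` which contain the level one forms, are
multiplicative, and satisfy a Sturm bound `mu w / 12 + s`. Theorem S (H53M, SH) holds for `h` whose
reductions lie in `M (2w' + (p-1)A)`, with the same conclusion `Rel w' h` (a relation with level
one forms).
-/

namespace H94M

open PowerSeries H53M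

/-- A graded family of spaces of modular forms modulo `p` with a Sturm bound. -/
structure MFam (p μ s : ℕ) (M : ℕ → Submodule (ZMod p) (PowerSeries (ZMod p))) : Prop where
  le : ∀ w, MP p w ≤ M w
  mul : ∀ w w' : ℕ, ∀ f g : PowerSeries (ZMod p), f ∈ M w → g ∈ M w' → f * g ∈ M (w + w')
  sturm : ∀ w : ℕ, ∀ f : PowerSeries (ZMod p), f ∈ M w →
    (∀ n, n ≤ μ * w / 12 + s → coeff n f = 0) → f = 0

theorem MFam.pow {p μ s : ℕ} {M : ℕ → Submodule (ZMod p) (PowerSeries (ZMod p))}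
    (hM : MFam p μ s M) {w : ℕ} {f : PowerSeries (ZMod p)} (hf : f ∈ M w) (n : ℕ) :
    f ^ n ∈ M (n * w) := by
  induction n with
  | zero =>
    rw [pow_zero, Nat.zero_mul]
    exact hM.le 0 (one_mem_MP_zero p)
  | succ n ih =>
    rw [pow_succ]
    have h := hM.mul (n * w) w _ _ ih hf
    have e : n * w + w = (n + 1) * w := by ring
    rwa [e] at h

theorem redQ_Ft_fam (p : ℕ) [Fact p.Prime] (hp : 3 < p) {μ s : ℕ}
    {M : ℕ → Submodule (ZMod p) (PowerSeries (ZMod p))} (hM : MFam p μ s M)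
    (w' A B W : ℕ) (hA : 1 ≤ A)
    (h : PowerSeries ℚ) (hI : PInt p h) (hr : redQ p h ∈ M (2 * w' + (p - 1) * A))
    (t : ℕ × ℕ × ℕ) (ht : t ∈ Idx w' A B W) :
    PInt p (Ft w' W h t) ∧ redQ p (Ft w' W h t) ∈ M (12 * (W + (p - 1) / 2 * B)) := by
  obtain ⟨i, j, l⟩ := t
  obtain ⟨h1, h2⟩ := (mem_Idx hA).1 ht
  simp only at h1 h2
  refine ⟨PInt_mul (PInt_toQ _) (PInt_pow hI _), ?_⟩
  unfold Ft
  simp only
  rw [redQ_mul (PInt_toQ _) (PInt_pow hI _), redQ_toQ, redQ_pow hI]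
  obtain ⟨r, hr'⟩ : ∃ r, W - i - w' * j - l = r := ⟨_, rfl⟩
  obtain ⟨s', hs⟩ : ∃ s', B = s' + i + A * j := ⟨B - i - A * j, by omega⟩
  have hW : W = r + i + w' * j + l := by omega
  obtain ⟨q, hq⟩ : ∃ q, p = 2 * q + 1 := by
    rcases (Fact.out : p.Prime).eq_two_or_odd' with h | h
    · omega
    · exact h
  rw [hr']
  have e1 : redZ p (dl ^ l * e4 ^ (3 * r) * e2 ^ (6 * i)) =
      redZ p (dl ^ l * e4 ^ (3 * r) * e6 ^ 0) * redZ p e2 ^ (6 * i) := by
    rw [pow_zero, mul_one, map_mul, map_pow (redZ p) e2]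
  rw [e1]
  have m1 := MP_mono p (3 * r) 0 l
  have m2 := MP_pow (e2_mem p hp) (6 * i)
  have m3 := hM.pow hr (6 * j)
  have m4 := hM.mul _ _ _ _ (hM.le _ (MP_shift (one_mem p hp) (6 * s') (MP_mul m1 m2))) m3
  have e2 : 4 * (3 * r) + 6 * 0 + 12 * l + 6 * i * (p + 1) + 6 * s' * (p - 1) +
      6 * j * (2 * w' + (p - 1) * A) = 12 * (W + (p - 1) / 2 * B) := by
    have hp1 : p - 1 = 2 * q := by omega
    have hp2 : (p - 1) / 2 = q := by omega
    rw [hp2, hp1, hW, hs, hq]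
    ring
  rwa [e2] at m4

theorem Phi_dvd_fam (p : ℕ) [Fact p.Prime] (hp : 3 < p) {μ s : ℕ}
    {M : ℕ → Submodule (ZMod p) (PowerSeries (ZMod p))} (hM : MFam p μ s M)
    (w' A B W : ℕ) (hA : 1 ≤ A)
    (h : PowerSeries ℚ) (hI : PInt p h) (hr : redQ p h ∈ M (2 * w' + (p - 1) * A))
    (x : ℕ × ℕ × ℕ → ℤ) (N : ℕ) (h0 : ∀ n, n < N → coeff n (Phi w' W (Idx w' A B W) x h) = 0)
    (hN : μ * (W + (p - 1) / 2 * B) + s < N) (E : ℕ) (z : ℤ)
    (hz : (E : ℚ) * coeff N (Phi w' W (Idx w' A B W) x h) = z) : (p : ℤ) ∣ z := by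
  have hden : ∀ n : ℤ, ¬ p ∣ ((n : ℤ) : ℚ).den := by
    intro n
    rw [Rat.den_intCast]
    exact (Fact.out : p.Prime).one_lt.ne' ∘ Nat.dvd_one.1
  have hterm : ∀ t ∈ Idx w' A B W, PInt p ((x t : ℚ) • Ft w' W h t) := fun t ht =>
    PInt_smul (hden (x t)) (redQ_Ft_fam p hp hM w' A B W hA h hI hr t ht).1
  have hPI : PInt p (Phi w' W (Idx w' A B W) x h) := by
    rw [Phi_eq]
    exact PInt_sum _ hterm
  have hmem : redQ p (Phi w' W (Idx w' A B W) x h) ∈ M (12 * (W + (p - 1) / 2 * B)) := by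
    rw [Phi_eq, redQ_sum _ hterm]
    refine Submodule.sum_mem _ fun t ht => ?_
    obtain ⟨a, b⟩ := redQ_Ft_fam p hp hM w' A B W hA h hI hr t ht
    rw [redQ_smul (hden (x t)) a]
    exact Submodule.smul_mem _ _ b
  have hzero : redQ p (Phi w' W (Idx w' A B W) x h) = 0 := by
    refine hM.sturm _ _ hmem fun n hn => ?_
    have e : μ * (12 * (W + (p - 1) / 2 * B)) / 12 = μ * (W + (p - 1) / 2 * B) := by
      rw [Nat.mul_left_comm]
      exact Nat.mul_div_cancel_left _ (by norm_num)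
    rw [e] at hn
    rw [redQ, coeff_mk, h0 n (by omega)]
    simp
  have hc : ((coeff N (Phi w' W (Idx w' A B W) x h) : ℚ) : ZMod p) = 0 := by
    have := congrArg (coeff N) hzero
    rwa [redQ, coeff_mk, map_zero] at this
  have hne : ∀ y : ℚ, ¬ p ∣ y.den → (y.den : ZMod p) ≠ 0 := by
    intro y hy h
    exact hy ((ZMod.natCast_eq_zero_iff _ _).1 h)
  have hcast : ((z : ℤ) : ZMod p) = 0 := by
    have e : (((z : ℤ) : ℚ) : ZMod p) = ((z : ℤ) : ZMod p) := Rat.cast_intCast z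
    rw [← e, ← hz, Rat.cast_mul_of_ne_zero, hc, mul_zero]
    · have := hden (E : ℤ)
      exact hne _ (by exact_mod_cast this)
    · exact hne _ (hPI N)
  exact (ZMod.intCast_zmod_eq_zero_iff_dvd z p).1 hcast

/-- The numerics with the index `μ` and the shift `s`. -/
theorem numeric_fam (w' A : ℕ) (hA : 1 ≤ A) (D : ℕ → ℕ) (hD0 : ∀ n, 0 < D n)
    (hDl : ∀ ε : ℝ, 0 < ε → ∃ N₀ : ℕ, ∀ n ≥ N₀, Real.log (D n) ≤ ε * n)
    (c0 C4 : ℝ) (hc0 : 0 < c0) (hC4 : 0 < C4) (X₀ μ s : ℕ) (hμ : 1 ≤ μ) :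
    ∃ B W : ℕ, 1 ≤ B ∧ B ≤ W ∧ 2 * (1 + w') * B ≤ W ∧
      ∀ U : ℕ, (B : ℝ) ^ 2 * W / (8 * A) ≤ (U : ℝ) → U ≤ (B + 1) ^ 2 * (W + 1) →
        2 ≤ U ∧ ∀ N : ℕ, U / 2 ≤ N →
          X₀ ≤ 2 * (N - μ * W - s) / (μ * B) ∧
          2 * Real.log U + 12 * B * Real.log (D N) +
            2 * C4 * W * Real.log (2 + (N : ℝ) / W) <
              c0 * ((2 * (N - μ * W - s) / (μ * B) : ℕ) : ℝ) := by
  have hμ' : (1 : ℝ) ≤ μ := by exact_mod_cast hμ
  have hμ0 : (0 : ℝ) < μ := by linarith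
  obtain ⟨c1, hc1⟩ : ∃ c1, c1 = c0 / (2 * μ) := ⟨_, rfl⟩
  have hc1p : 0 < c1 := by
    rw [hc1]
    positivity
  obtain ⟨C5, hC5⟩ : ∃ C5, C5 = C4 + 12 * μ * c1 := ⟨_, rfl⟩
  have hC5p : 0 < C5 := by
    rw [hC5]
    positivity
  obtain ⟨B, W, hB, hBW, hW, hnum⟩ := numeric w' A hA D hD0 hDl c1 C5 hc1p hC5p
    (2 * μ * (X₀ + 1) + 8 * s)
  refine ⟨B, W, hB, hBW, hW, fun U h1 h2 => ?_⟩
  obtain ⟨hU, hN⟩ := hnum U h1 h2
  refine ⟨hU, fun N hUN => ?_⟩
  obtain ⟨a1, a2⟩ := hN N hUN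
  have hB' : (1 : ℝ) ≤ B := by exact_mod_cast hB
  have hB0 : (0 : ℝ) < B := by linarith
  have hW0 : (0 : ℝ) < W := by
    have : 0 < W := lt_of_lt_of_le hB hBW
    exact_mod_cast this
  obtain ⟨Y, hY⟩ : ∃ Y, Y = 2 * (N - W) / B := ⟨_, rfl⟩
  rw [← hY] at a1 a2
  -- sizes
  have hYB : Y * B ≤ 2 * (N - W) := by
    rw [hY]
    exact Nat.div_mul_le_self _ _
  have hY1 : 1 ≤ Y := by
    have : 2 * μ * (X₀ + 1) ≤ Y := by omega
    have h3 : 1 ≤ 2 * μ * (X₀ + 1) := by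
      have := Nat.mul_le_mul (Nat.mul_le_mul_left 2 hμ) (Nat.le_add_left 1 X₀)
      omega
    omega
  have hWN : W < N := by
    by_contra hcon
    have h3 : N - W = 0 := by omega
    rw [h3, Nat.mul_zero] at hYB
    have h4 : 1 ≤ Y * B := Nat.one_le_iff_ne_zero.2 (by positivity)
    omega
  have hYr : (Y : ℝ) * B ≤ 2 * ((N : ℝ) - W) := by
    have h3 : ((Y * B : ℕ) : ℝ) ≤ ((2 * (N - W) : ℕ) : ℝ) := by exact_mod_cast hYB
    push_cast [Nat.cast_sub hWN.le] at h3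
    exact h3
  have hY0 : (0 : ℝ) ≤ Y := Nat.cast_nonneg Y
  have hYN : (Y : ℝ) ≤ 2 * N := by nlinarith
  -- lower bound of the logarithm terms
  have hlU : 0 ≤ Real.log U := Real.log_natCast_nonneg U
  have hlD : 0 ≤ 12 * (B : ℝ) * Real.log (D N) := by
    have := Real.log_natCast_nonneg (D N)
    positivity
  have hlW : (1 : ℝ) / 2 ≤ Real.log (2 + (N : ℝ) / W) := by
    have h3 : Real.log 2 ≤ Real.log (2 + (N : ℝ) / W) :=
      Real.log_le_log (by norm_num) (by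
        have : 0 ≤ (N : ℝ) / W := by positivity
        linarith)
    have h4 := Real.log_two_gt_d9
    linarith
  have hNW : 6 * (μ : ℝ) * W ≤ N := by
    have h3 : 2 * C5 * W * (1 / 2) ≤ 2 * C5 * W * Real.log (2 + (N : ℝ) / W) :=
      mul_le_mul_of_nonneg_left hlW (by positivity)
    have h4 : C5 * W < c1 * Y := by linarith
    have h5 : 12 * μ * c1 * W ≤ C5 * W := by
      refine mul_le_mul_of_nonneg_right ?_ hW0.le
      rw [hC5]
      linarith
    have h6 : c1 * Y ≤ c1 * (2 * N) := mul_le_mul_of_nonneg_left hYN hc1p.le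
    have h7 : c1 * (12 * μ * W) ≤ c1 * (2 * N) := by linarith
    have h8 := le_of_mul_le_mul_left h7 hc1p
    linarith
  have hNs : 4 * (s : ℝ) ≤ N := by
    have h3 : ((2 * μ * (X₀ + 1) + 8 * s : ℕ) : ℝ) ≤ Y := by exact_mod_cast a1
    push_cast at h3
    have h4 : (0 : ℝ) ≤ 2 * μ * (X₀ + 1) := by positivity
    linarith
  have hBWr : (B : ℝ) ≤ W := by exact_mod_cast hBW
  have hμW : (μ : ℝ) * B ≤ μ * W := mul_le_mul_of_nonneg_left hBWr hμ0.le
  have hle : μ * W + s ≤ N := by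
    have h3 : (μ : ℝ) * W + s ≤ N := by
      have : (0 : ℝ) ≤ μ * W := by positivity
      linarith
    exact_mod_cast h3
  obtain ⟨X, hX⟩ : ∃ X, X = 2 * (N - μ * W - s) / (μ * B) := ⟨_, rfl⟩
  rw [← hX]
  have hμB : 0 < μ * B := Nat.mul_pos hμ hB
  have hXlow : 2 * ((N : ℝ) - μ * W - s) < μ * B * X + μ * B := by
    have h3 := Nat.div_add_mod (2 * (N - μ * W - s)) (μ * B)
    have h4 := Nat.mod_lt (2 * (N - μ * W - s)) hμB
    have h5 : 2 * (N - μ * W - s) < μ * B * X + μ * B := by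
      rw [hX]
      omega
    have h6 : ((2 * (N - μ * W - s) : ℕ) : ℝ) < ((μ * B * X + μ * B : ℕ) : ℝ) := by
      exact_mod_cast h5
    have h7 : N - μ * W - s = N - (μ * W + s) := by omega
    rw [h7] at h6
    push_cast [Nat.cast_sub hle] at h6
    linarith
  -- comparison of the two quotients
  have hcmp : (Y : ℝ) ≤ 2 * μ * X := by
    have h3 : (Y : ℝ) * B ≤ 2 * μ * X * B := by
      have : (0 : ℝ) ≤ W := hW0.le
      nlinarith
    exact le_of_mul_le_mul_right h3 hB0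
  constructor
  · have h3 : ((2 * μ * (X₀ + 1) + 8 * s : ℕ) : ℝ) ≤ Y := by exact_mod_cast a1
    push_cast at h3
    have h4 : (0 : ℝ) ≤ 8 * s := by positivity
    have h5 : 2 * (μ : ℝ) * X₀ ≤ 2 * μ * X := by nlinarith
    have h6 := le_of_mul_le_mul_left h5 (by positivity)
    exact_mod_cast h6
  · have h3 : 2 * C4 * W * Real.log (2 + (N : ℝ) / W) ≤
        2 * C5 * W * Real.log (2 + (N : ℝ) / W) := by
      have h4 : 2 * C4 * W ≤ 2 * C5 * W := by
        have h5 : C4 ≤ C5 := by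
          rw [hC5]
          have : 0 ≤ 12 * (μ : ℝ) * c1 := by positivity
          linarith
        nlinarith
      exact mul_le_mul_of_nonneg_right h4 (by linarith)
    have h4 : c1 * Y ≤ c0 * X := by
      calc c1 * Y ≤ c1 * (2 * μ * X) := mul_le_mul_of_nonneg_left hcmp hc1p.le
        _ = c0 * X := by
          rw [hc1]
          field_simp
    linarith

theorem thmS_fam (w' A : ℕ) (hA : 1 ≤ A) (h : PowerSeries ℚ) (C : ℝ) (κ : ℕ)
    (hC : ∀ n, |((coeff n h : ℚ) : ℝ)| ≤ C * ((n : ℝ) + 1) ^ κ)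
    (D : ℕ → ℕ) (hD0 : ∀ n, 0 < D n) (hDd : ∀ n, D n ∣ D (n + 1))
    (hDh : ∀ n, ∃ z : ℤ, (D n : ℚ) * coeff n h = z)
    (hDl : ∀ ε : ℝ, 0 < ε → ∃ N₀ : ℕ, ∀ n ≥ N₀, Real.log (D n) ≤ ε * n)
    (P : ℕ → Prop) [DecidablePred P] (hP : ∀ p, P p → p.Prime ∧ 3 < p)
    (c0 : ℝ) (hc0 : 0 < c0)
    (hθ : ∃ X₀ : ℕ, ∀ X ≥ X₀, c0 * (X : ℝ) ≤
      ∑ p ∈ (Finset.range (X + 1)).filter P, Real.log p)
    (hI : ∀ p, P p → PInt p h) (μ s : ℕ) (hμ : 1 ≤ μ)
    (hr : ∀ p [Fact p.Prime], P p → ∃ M : ℕ → Submodule (ZMod p) (PowerSeries (ZMod p)),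
      MFam p μ s M ∧ redQ p h ∈ M (2 * w' + (p - 1) * A)) :
    Rel w' h := by
  classical
  by_contra hRel
  obtain ⟨C4, hC4, hFb⟩ := Ft_bound w' A hA h C κ hC
  obtain ⟨X₀, hX₀⟩ := hθ
  obtain ⟨B, W, hB, hBW, hW, hnum⟩ := numeric_fam w' A hA D hD0 hDl c0 C4 hc0 hC4 X₀ μ s hμ
  have hWpos : (0 : ℝ) < W := by
    have : 0 < W := lt_of_lt_of_le hB hBW
    exact_mod_cast this
  have hmono : ∀ a b : ℕ, a ≤ b → C4 * W * Real.log (2 + (a : ℝ) / W) ≤
      C4 * W * Real.log (2 + (b : ℝ) / W) := by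
    intro a b hab
    have hab' : (a : ℝ) ≤ b := by exact_mod_cast hab
    have h1 : (a : ℝ) / W ≤ (b : ℝ) / W := by gcongr
    have h2 : 0 ≤ (a : ℝ) / W := by positivity
    have h3 : Real.log (2 + (a : ℝ) / W) ≤ Real.log (2 + (b : ℝ) / W) :=
      Real.log_le_log (by linarith) (by linarith)
    exact mul_le_mul_of_nonneg_left h3 (by positivity)
  obtain ⟨hU2, hNall⟩ := hnum _ (card_Idx_ge w' A B W hA hW) (card_Idx_le w' A B W)
  obtain ⟨U, hU⟩ : ∃ U, U = (Idx w' A B W).card := ⟨_, rfl⟩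
  rw [← hU] at hU2 hNall
  obtain ⟨T, hT⟩ : ∃ T, T = U / 2 := ⟨_, rfl⟩
  have hE1 : 1 ≤ Real.exp (C4 * W * Real.log (2 + (T : ℝ) / W)) := by
    rw [Real.one_le_exp_iff]
    have h2 : 0 ≤ (T : ℝ) / W := by positivity
    have h3 : 0 ≤ Real.log (2 + (T : ℝ) / W) := Real.log_nonneg (by linarith)
    positivity
  obtain ⟨x, hx0, hxb, hxT⟩ := siegel w' A B W hA h D hD0 hDd hDh (by rw [← hU]; exact hU2)
    (Real.exp (C4 * W * Real.log (2 + (T : ℝ) / W))) hE1 (by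
      intro t ht n hn
      rw [← hU, ← hT] at hn
      exact (hFb B W hB hBW t ht n).trans (Real.exp_le_exp.2 (hmono n T hn)))
  rw [← hU, ← hT] at hxT
  have hxb' : ∀ t, |(x t : ℝ)| ≤ (U : ℝ) * ((D T : ℝ) ^ (6 * B) *
      Real.exp (C4 * W * Real.log (2 + (T : ℝ) / W))) := by
    intro t
    have := hxb t
    rw [← hU, ← hT] at this
    exact this
  have hΦ0 : Phi w' W (Idx w' A B W) x h ≠ 0 := by
    intro h0
    exact hRel ⟨W, Idx w' A B W, x, fun t ht => ((mem_Idx hA).1 ht).2, hx0, h0⟩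
  have hex : ∃ N, coeff N (Phi w' W (Idx w' A B W) x h) ≠ 0 := by
    by_contra hcon
    push Not at hcon
    exact hΦ0 (PowerSeries.ext (fun n => by rw [hcon n, map_zero]))
  obtain ⟨N, hN⟩ : ∃ N, N = Nat.find hex := ⟨_, rfl⟩
  have hNne : coeff N (Phi w' W (Idx w' A B W) x h) ≠ 0 := by
    rw [hN]
    exact Nat.find_spec hex
  have hNlt : ∀ n, n < N → coeff n (Phi w' W (Idx w' A B W) x h) = 0 := by
    intro n hn
    rw [hN] at hn
    by_contra h1
    exact Nat.find_min hex hn h1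
  have hTN : T ≤ N := by
    by_contra hlt
    push Not at hlt
    exact hNne (hxT N hlt)
  obtain ⟨hXX, hfin⟩ := hNall N (by rw [← hT]; exact hTN)
  have hzt : ∀ t ∈ Idx w' A B W, ∃ z : ℤ,
      ((D N : ℚ)) ^ (6 * B) * coeff N (Ft w' W h t) = z :=
    fun t ht => Ft_int w' A B W hA h D hDd hDh t ht N N le_rfl
  choose! zt hzt' using hzt
  obtain ⟨z, hzdef⟩ : ∃ z : ℤ, z = ∑ t ∈ Idx w' A B W, x t * zt t := ⟨_, rfl⟩
  have hz : ((D N : ℚ)) ^ (6 * B) * coeff N (Phi w' W (Idx w' A B W) x h) = z := by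
    rw [coeff_Phi, Finset.mul_sum, hzdef]
    push_cast
    refine Finset.sum_congr rfl fun t ht => ?_
    rw [← hzt' t ht]
    ring
  have hDN : (0 : ℝ) < (D N : ℝ) := by exact_mod_cast hD0 N
  have hDT : (0 : ℝ) < (D T : ℝ) := by exact_mod_cast hD0 T
  have hz0 : z ≠ 0 := by
    intro h0
    rw [h0] at hz
    have hDN' : (D N : ℚ) ≠ 0 := by exact_mod_cast (hD0 N).ne'
    have := mul_eq_zero.1 (hz.trans (by norm_num))
    rcases this with h1 | h1
    · exact pow_ne_zero _ hDN' h1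
    · exact hNne h1
  -- size of z
  have hzb : |(z : ℝ)| ≤ (U : ℝ) * (((U : ℝ) * ((D T : ℝ) ^ (6 * B) *
      Real.exp (C4 * W * Real.log (2 + (T : ℝ) / W)))) * ((D N : ℝ) ^ (6 * B) *
      Real.exp (C4 * W * Real.log (2 + (N : ℝ) / W)))) := by
    have h1 : |(z : ℝ)| ≤ ∑ t ∈ Idx w' A B W, |(x t : ℝ)| * |(zt t : ℝ)| := by
      rw [hzdef]
      push_cast
      refine (Finset.abs_sum_le_sum_abs _ _).trans (le_of_eq ?_)
      exact Finset.sum_congr rfl fun t _ => abs_mul _ _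
    have h2 : ∀ t ∈ Idx w' A B W, |(x t : ℝ)| * |(zt t : ℝ)| ≤
        ((U : ℝ) * ((D T : ℝ) ^ (6 * B) * Real.exp (C4 * W * Real.log (2 + (T : ℝ) / W)))) *
        ((D N : ℝ) ^ (6 * B) * Real.exp (C4 * W * Real.log (2 + (N : ℝ) / W))) := by
      intro t ht
      have h3 : |(zt t : ℝ)| ≤ (D N : ℝ) ^ (6 * B) *
          Real.exp (C4 * W * Real.log (2 + (N : ℝ) / W)) := by
        have h4 : (zt t : ℝ) = (D N : ℝ) ^ (6 * B) * ((coeff N (Ft w' W h t) : ℚ) : ℝ) := by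
          have := hzt' t ht
          have h5 : (((zt t : ℤ) : ℚ) : ℝ) =
              ((((D N : ℚ)) ^ (6 * B) * coeff N (Ft w' W h t) : ℚ) : ℝ) := by rw [this]
          push_cast at h5
          exact h5
        rw [h4, abs_mul, abs_of_nonneg (by positivity : (0 : ℝ) ≤ (D N : ℝ) ^ (6 * B))]
        exact mul_le_mul_of_nonneg_left (hFb B W hB hBW t ht N) (by positivity)
      exact mul_le_mul (hxb' t) h3 (abs_nonneg _) (by positivity)
    refine h1.trans ((Finset.sum_le_sum h2).trans (le_of_eq ?_))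
    rw [Finset.sum_const, nsmul_eq_mul, ← hU]
  have hUpos : (0 : ℝ) < (U : ℝ) := by
    have : 0 < U := by omega
    exact_mod_cast this
  have hlog : Real.log |(z : ℝ)| ≤ 2 * Real.log U + 12 * B * Real.log (D N) +
      2 * C4 * W * Real.log (2 + (N : ℝ) / W) := by
    have hzpos : 0 < |(z : ℝ)| := by
      rw [abs_pos]
      exact_mod_cast hz0
    have h1 := Real.log_le_log hzpos hzb
    have hDTp : (0 : ℝ) < (D T : ℝ) ^ (6 * B) := by positivity
    have hDNp : (0 : ℝ) < (D N : ℝ) ^ (6 * B) := by positivity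
    rw [Real.log_mul hUpos.ne' (by positivity), Real.log_mul (by positivity) (by positivity),
      Real.log_mul hUpos.ne' (by positivity), Real.log_mul hDTp.ne' (Real.exp_pos _).ne',
      Real.log_mul hDNp.ne' (Real.exp_pos _).ne', Real.log_exp, Real.log_exp, Real.log_pow,
      Real.log_pow] at h1
    have h2 := hmono T N hTN
    have hdvd : ∀ k, D T ∣ D (T + k) := by
      intro k
      induction k with
      | zero => exact dvd_refl _
      | succ k ih => exact ih.trans (hDd (T + k))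
    have h3 : D T ≤ D N := by
      have := hdvd (N - T)
      rw [Nat.add_sub_cancel' hTN] at this
      exact Nat.le_of_dvd (hD0 N) this
    have h4 : Real.log (D T) ≤ Real.log (D N) :=
      Real.log_le_log hDT (by exact_mod_cast h3)
    have h5 : (0 : ℝ) ≤ (B : ℝ) := by positivity
    push_cast at h1
    have h6 : 6 * (B : ℝ) * Real.log (D T) ≤ 6 * (B : ℝ) * Real.log (D N) :=
      mul_le_mul_of_nonneg_left h4 (by positivity)
    nlinarith [h1, h2, h6]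
  -- the primes
  have hθ' : ∑ p ∈ (Finset.range (2 * (N - μ * W - s) / (μ * B) + 1)).filter P, Real.log p ≤
      Real.log |(z : ℝ)| := by
    refine theta_le_log P (fun p hp => (hP p hp).1) (2 * (N - μ * W - s) / (μ * B)) z hz0 ?_
    intro p hp hpX
    haveI : Fact p.Prime := ⟨(hP p hp).1⟩
    have hp3 := (hP p hp).2
    obtain ⟨M, hM, hrM⟩ := hr p hp
    have hμB : 0 < μ * B := Nat.mul_pos hμ hB
    have hpB : p * (μ * B) ≤ 2 * (N - μ * W - s) := (Nat.le_div_iff_mul_le hμB).1 hpX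
    have hlt : μ * (W + (p - 1) / 2 * B) + s < N := by
      have h1 : 2 * ((p - 1) / 2) ≤ p - 1 := Nat.mul_div_le _ _
      have h2 : 2 * ((p - 1) / 2) * (μ * B) ≤ (p - 1) * (μ * B) := Nat.mul_le_mul_right _ h1
      have h3 : (p - 1) * (μ * B) < p * (μ * B) := Nat.mul_lt_mul_of_pos_right (by omega) hμB
      have h4 : 2 * (μ * ((p - 1) / 2 * B)) < 2 * (N - μ * W - s) := by
        calc 2 * (μ * ((p - 1) / 2 * B)) = 2 * ((p - 1) / 2) * (μ * B) := by ring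
          _ ≤ (p - 1) * (μ * B) := h2
          _ < p * (μ * B) := h3
          _ ≤ 2 * (N - μ * W - s) := hpB
      rw [Nat.mul_add]
      omega
    refine Phi_dvd_fam p hp3 hM w' A B W hA h (hI p hp) hrM x N hNlt hlt (D N ^ (6 * B)) z ?_
    push_cast
    exact hz
  have hlow := hX₀ _ hXX
  linarith

end H94M
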