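import Pool.Agent.Lib.H94M.Defs
import Pool.Agent.Lib.H53M.X10

/-!
# H94M, module B: elementary properties of the array `bc`
-/

namespace H94M

open H53M

/-- The divisors occurring in `bc`. -/
def bdiv (N n : ℕ) (m : ℤ) : Finset ℕ :=
  (Nat.gcd n m.natAbs).divisors.filter
    (fun r => r.Coprime N ∧ (2 : ℤ) ∣ ((n / r : ℕ) : ℤ) - m / (r : ℤ))

theorem bc_eq {R : Type*} [Ring R] (N k : ℕ) (a : ℕ → R) (n : ℕ) (m : ℤ) :
    bc N k a n m = if m ^ 2 < 5 * (n : ℤ) ^ 2 ∧ (2 : ℤ) ∣ (n : ℤ) - m then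
      ∑ r ∈ bdiv N n m, ((chi5 r * (r : ℤ) ^ (k - 1) : ℤ) : R) * a (NN (n / r) (m / (r : ℤ))).toNat
    else 0 := rfl

theorem bc_supp {N k : ℕ} {a : ℕ → ℤ} {n : ℕ} {m : ℤ} (h : bc N k a n m ≠ 0) :
    m ^ 2 < 5 * (n : ℤ) ^ 2 ∧ Even ((n : ℤ) - m) := by
  rw [bc_eq] at h
  by_cases h1 : m ^ 2 < 5 * (n : ℤ) ^ 2 ∧ (2 : ℤ) ∣ (n : ℤ) - m
  · exact ⟨h1.1, even_iff_two_dvd.2 h1.2⟩
  · rw [if_neg h1] at h
    exact absurd rfl h

/-- Facts on the divisors: `n = r n₁`, `m = r m₁`, `n₁ ≡ m₁ mod 2`. -/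
theorem bdiv_facts {N n : ℕ} {m : ℤ} (hn : 0 < n) {r : ℕ} (hr : r ∈ bdiv N n m) :
    0 < r ∧ n = r * (n / r) ∧ m = r * (m / r) ∧ (2 : ℤ) ∣ ((n / r : ℕ) : ℤ) - m / (r : ℤ) ∧
      r ∣ n ∧ r.Coprime N := by
  unfold bdiv at hr
  rw [Finset.mem_filter, Nat.mem_divisors] at hr
  obtain ⟨⟨h1, h2⟩, h3, h4⟩ := hr
  have hrn : r ∣ n := h1.trans (Nat.gcd_dvd_left _ _)
  have hrm : (r : ℤ) ∣ m := Int.natCast_dvd.2 (h1.trans (Nat.gcd_dvd_right _ _))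
  have hr0 : 0 < r := Nat.pos_of_dvd_of_pos hrn hn
  exact ⟨hr0, (Nat.mul_div_cancel' hrn).symm, (Int.mul_ediv_cancel' hrm).symm, h4, hrn, h3⟩

/-- `NN (n/r) (m/r) = NN n m / r²`. -/
theorem NN_div {N n : ℕ} {m : ℤ} (hn : 0 < n) {r : ℕ} (hr : r ∈ bdiv N n m) :
    NN n m = (r : ℤ) ^ 2 * NN (n / r) (m / (r : ℤ)) := by
  obtain ⟨hr0, h1, h2, h3, -, -⟩ := bdiv_facts hn hr
  obtain ⟨x, hx⟩ : ∃ x, x = n / r := ⟨_, rfl⟩
  obtain ⟨y, hy⟩ : ∃ y, y = m / (r : ℤ) := ⟨_, rfl⟩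
  rw [← hx, ← hy] at h3 ⊢
  rw [← hx] at h1
  rw [← hy] at h2
  obtain ⟨z, hz⟩ := h3
  have e : (x : ℤ) = y + 2 * z := by linarith
  have e1 : 5 * (x : ℤ) ^ 2 - y ^ 2 = 4 * (y ^ 2 + 5 * y * z + 5 * z ^ 2) := by
    rw [e]
    ring
  have e2 : 5 * (n : ℤ) ^ 2 - m ^ 2 = 4 * ((r : ℤ) ^ 2 * (y ^ 2 + 5 * y * z + 5 * z ^ 2)) := by
    rw [h1, h2]
    push_cast
    linear_combination ((r : ℤ) ^ 2) * e1
  unfold NN
  rw [e1, e2, Int.mul_ediv_cancel_left _ (by norm_num), Int.mul_ediv_cancel_left _ (by norm_num)]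

theorem NN_four {n : ℕ} {m : ℤ} (h : (2 : ℤ) ∣ (n : ℤ) - m) :
    4 * NN n m = 5 * (n : ℤ) ^ 2 - m ^ 2 := by
  obtain ⟨z, hz⟩ := h
  have e : (n : ℤ) = m + 2 * z := by linarith
  have e1 : 5 * (n : ℤ) ^ 2 - m ^ 2 = 4 * (m ^ 2 + 5 * m * z + 5 * z ^ 2) := by
    rw [e]
    ring
  unfold NN
  rw [e1, Int.mul_ediv_cancel_left _ (by norm_num)]

theorem NN_pos' {n : ℕ} {m : ℤ} (h1 : m ^ 2 < 5 * (n : ℤ) ^ 2) (h : (2 : ℤ) ∣ (n : ℤ) - m) :
    0 < NN n m := by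
  have := NN_four h
  omega

theorem chi5_neg (n : ℤ) : chi5 (-n) = chi5 n := by
  unfold chi5
  have : (-n) % 5 = 0 ∧ n % 5 = 0 ∨ (-n) % 5 = 4 ∧ n % 5 = 1 ∨ (-n) % 5 = 3 ∧ n % 5 = 2 ∨
      (-n) % 5 = 2 ∧ n % 5 = 3 ∨ (-n) % 5 = 1 ∧ n % 5 = 4 := by omega
  rcases this with ⟨h1, h2⟩ | ⟨h1, h2⟩ | ⟨h1, h2⟩ | ⟨h1, h2⟩ | ⟨h1, h2⟩ <;> rw [h1, h2] <;> decide

theorem chi5_abs (n : ℤ) : |chi5 n| ≤ 1 := by
  unfold chi5
  split_ifs <;> simp

theorem bdiv_neg (N n : ℕ) (m : ℤ) : bdiv N n (-m) = bdiv N n m := by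
  unfold bdiv
  rw [Int.natAbs_neg]
  refine Finset.filter_congr fun r hr => ?_
  rw [Nat.mem_divisors] at hr
  have hrm : (r : ℤ) ∣ m := Int.natCast_dvd.2 (hr.1.trans (Nat.gcd_dvd_right _ _))
  rw [Int.neg_ediv_of_dvd hrm]
  have : (2 : ℤ) ∣ ((n / r : ℕ) : ℤ) - -(m / (r : ℤ)) ↔ (2 : ℤ) ∣ ((n / r : ℕ) : ℤ) - m / (r : ℤ) := by
    omega
  rw [this]

theorem bc_symm {R : Type*} [Ring R] (N k : ℕ) (a : ℕ → R) (n : ℕ) (m : ℤ) :
    bc N k a n (-m) = bc N k a n m := by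
  rw [bc_eq, bc_eq, bdiv_neg, neg_sq]
  have : (m ^ 2 < 5 * (n : ℤ) ^ 2 ∧ (2 : ℤ) ∣ (n : ℤ) - -m) ↔
      (m ^ 2 < 5 * (n : ℤ) ^ 2 ∧ (2 : ℤ) ∣ (n : ℤ) - m) := by
    have h2 : ((2 : ℤ) ∣ (n : ℤ) - -m) ↔ ((2 : ℤ) ∣ (n : ℤ) - m) := by omega
    rw [h2]
  rw [if_congr this rfl rfl]
  split_ifs with h
  · refine Finset.sum_congr rfl fun r hr => ?_
    have hrm : (r : ℤ) ∣ m := by
      unfold bdiv at hr
      rw [Finset.mem_filter, Nat.mem_divisors] at hr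
      exact Int.natCast_dvd.2 (hr.1.1.trans (Nat.gcd_dvd_right _ _))
    rw [Int.neg_ediv_of_dvd hrm, X.NN_neg]
  · rfl

theorem bc_one {R : Type*} [Ring R] (N k : ℕ) (a : ℕ → R) : bc N k a 1 1 = a 1 := by
  rw [bc_eq, if_pos ⟨by norm_num, by norm_num⟩]
  have e : bdiv N 1 1 = {1} := by
    unfold bdiv
    ext r
    simp only [Nat.cast_one, Int.natAbs_one, Nat.gcd_self, Nat.divisors_one, Finset.mem_filter,
      Finset.mem_singleton]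
    constructor
    · exact fun h => h.1
    · rintro rfl
      exact ⟨rfl, Nat.coprime_one_left N, by norm_num⟩
  rw [e, Finset.sum_singleton]
  have e1 : chi5 ((1 : ℕ) : ℤ) = 1 := by decide
  have e2 : (NN (1 / 1) (1 / ((1 : ℕ) : ℤ))).toNat = 1 := by decide
  rw [e1, e2]
  simp

theorem bc_cast (N k : ℕ) (a : ℕ → ℤ) (n : ℕ) (m : ℤ) :
    ((bc N k a n m : ℤ) : ℂ) = bc N k (fun n => (a n : ℂ)) n m := by
  rw [bc_eq, bc_eq]
  split_ifs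
  · push_cast
    rfl
  · simp

/-- The level may be multiplied by 5. -/
theorem bc_five {R : Type*} [Ring R] (N k : ℕ) (a : ℕ → R) (n : ℕ) (m : ℤ) :
    bc (5 * N) k a n m = bc N k a n m := by
  rw [bc_eq, bc_eq]
  split_ifs
  · refine Finset.sum_subset ?_ ?_
    · intro r hr
      unfold bdiv at hr ⊢
      rw [Finset.mem_filter] at hr ⊢
      exact ⟨hr.1, Nat.Coprime.coprime_mul_left_right hr.2.1, hr.2.2⟩
    · intro r hr hr'
      unfold bdiv at hr hr'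
      rw [Finset.mem_filter] at hr hr'
      have h5 : ¬ Nat.Coprime r 5 := by
        intro h
        exact hr' ⟨hr.1, Nat.Coprime.mul_right h hr.2.1, hr.2.2⟩
      have h6 : 5 ∣ r := by
        rcases (Nat.coprime_or_dvd_of_prime (by norm_num : Nat.Prime 5) r) with h | h
        · exact absurd h.symm h5
        · exact h
      have h7 : chi5 (r : ℤ) = 0 := by
        unfold chi5
        rw [if_pos]
        omega
      rw [h7]
      simp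
  · rfl

/-- **Divisibility (d).** -/
theorem bc_dvd {N k : ℕ} (hk : 3 ≤ k) {a : ℕ → ℤ} {p : ℕ} (hp : p.Prime)
    (ha : ∀ n r : ℕ, p ^ r ∣ n → (p : ℤ) ^ r ∣ a n) {n : ℕ} {m : ℤ} (h : bc N k a n m ≠ 0) :
    padicValInt p (NN n m) ≤ padicValInt p (bc N k a n m) := by
  haveI : Fact p.Prime := ⟨hp⟩
  obtain ⟨h1, h2⟩ := bc_supp h
  have h2' : (2 : ℤ) ∣ (n : ℤ) - m := even_iff_two_dvd.1 h2
  have hn : 0 < n := by
    rcases Nat.eq_zero_or_pos n with h0 | h0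
    · subst h0
      have := sq_nonneg m
      simp at h1
      omega
    · exact h0
  have hNN : 0 < NN n m := NN_pos' h1 h2'
  have hval : padicValInt p (NN n m) = padicValNat p (NN n m).toNat := by
    unfold padicValInt
    have : (NN n m).natAbs = (NN n m).toNat := by omega
    rw [this]
  have key : (p : ℤ) ^ (padicValNat p (NN n m).toNat) ∣ bc N k a n m := by
    rw [bc_eq, if_pos ⟨h1, h2'⟩]
    refine Finset.dvd_sum fun r hr => ?_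
    obtain ⟨hr0, -, -, h3, -, -⟩ := bdiv_facts hn hr
    have h4 := NN_div hn hr
    set j : ℤ := NN (n / r) (m / (r : ℤ)) with hj
    have hj0 : 0 < j := by
      rw [h4] at hNN
      by_contra hc
      push Not at hc
      have h5 : (r : ℤ) ^ 2 * j ≤ 0 := mul_nonpos_of_nonneg_of_nonpos (by positivity) hc
      omega
    have h5 : (NN n m).toNat = r ^ 2 * j.toNat := by
      have h6 : ((r ^ 2 * j.toNat : ℕ) : ℤ) = NN n m := by
        push_cast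
        rw [Int.toNat_of_nonneg hj0.le, h4]
      rw [← h6, Int.toNat_natCast]
    have hjn : j.toNat ≠ 0 := by omega
    rw [h5, padicValNat.mul (pow_ne_zero 2 hr0.ne') hjn, padicValNat.pow, pow_add,
      Int.cast_id]
    refine mul_dvd_mul (Dvd.dvd.mul_left ?_ _) (ha _ _ pow_padicValNat_dvd)
    have h7 : p ^ (padicValNat p r * (k - 1)) ∣ r ^ (k - 1) := by
      rw [pow_mul]
      exact pow_dvd_pow_of_dvd pow_padicValNat_dvd _
    have h8 : p ^ (2 * padicValNat p r) ∣ p ^ (padicValNat p r * (k - 1)) := by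
      refine pow_dvd_pow _ ?_
      rw [mul_comm]
      exact Nat.mul_le_mul_left _ (by omega)
    exact_mod_cast h8.trans h7
  rw [hval]
  exact ((padicValInt_dvd_iff _ _).1 key).resolve_left h

end H94M
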