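import Pool.Agent.Lib.H94M.Defs
import Pool.Agent.Lib.H53M.KR

/-!
# H94M, module Q: basic facts on `G0 N` (fully proved, no chunk)
-/

namespace H94M

open H53M UpperHalfPlane ModularForm
open scoped MatrixGroups

theorem G0_le (N : ℕ) : G0 N ≤ 𝒮ℒ := by
  rintro g ⟨γ, _, rfl⟩
  exact ⟨γ, rfl⟩

theorem one_mem_strictPeriods (N : ℕ) : (1 : ℝ) ∈ (G0 N).strictPeriods := by
  rw [CongruenceSubgroup.strictPeriods_Gamma0]
  exact AddSubgroup.mem_zmultiples 1

instance G0_arith (N : ℕ) [NeZero N] : (G0 N).IsArithmetic := by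
  infer_instance

theorem mu_pos (N : ℕ) [NeZero N] : 0 < mu N := by
  unfold mu
  have : Finite (𝒮ℒ ⧸ (G0 N).subgroupOf 𝒮ℒ) := inferInstance
  exact Nat.card_pos

/-- Restriction of a level one form to `Γ₀(N)`. -/
noncomputable def resG0 (N : ℕ) {k : ℤ} (F : ModularForm 𝒮ℒ k) : ModularForm (G0 N) k where
  toFun := F
  slash_action_eq' γ hγ := F.slash_action_eq' γ (G0_le N hγ)
  holo' := F.holo'
  bdd_at_cusps' hc := F.bdd_at_cusps' (hc.mono (G0_le N))

end H94M
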