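import Pool.Agent.Lib.H94M.Defs
import Pool.Agent.Lib.H94M.QA0

/-!
# H94M, chunk B2 (M): Bessel's inequality for cusp forms on `Γ₀(N)` (Hecke's mean square bound)

PROOF. `a j = coeff j (qExpansion 1 f)`. By `CuspFormClass.exists_bound` (Mathlib),
`‖f τ‖ ≤ C / (im τ)^(k/2)`. The numbers `a j e^{-2πjy}` are the Fourier coefficients of
`u ↦ f (u + iy)` on `(0, 1]`, so `Σ_j ‖a_j‖² e^{-4πjy} ≤ ∫₀¹ ‖f(u+iy)‖² du ≤ C² y^{-k}`
(Parseval, `hasSum_sq_fourierCoeffOn`).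
-/

namespace H94M

open H53M UpperHalfPlane ModularForm MeasureTheory

theorem b2_pt (u y : ℝ) (hy : 0 < y) : 0 < ((u : ℂ) + y * Complex.I).im := by
  simpa using hy

theorem b2_cont (N k : ℕ) [NeZero N] (f : CuspForm (G0 N) (k : ℤ)) (y : ℝ) (hy : 0 < y) :
    Continuous fun u : ℝ => (f : ℍ → ℂ) ⟨(u : ℂ) + y * Complex.I, b2_pt u y hy⟩ := by
  have hf : Continuous (f : ℍ → ℂ) := (CuspFormClass.holo f).continuous
  fun_prop

theorem b2_coeff (N k : ℕ) [NeZero N] (f : CuspForm (G0 N) (k : ℤ)) (y : ℝ) (hy : 0 < y) (j : ℕ) :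
    fourierCoeffOn (zero_lt_one : (0 : ℝ) < 1)
      (fun u : ℝ => (f : ℍ → ℂ) ⟨(u : ℂ) + y * Complex.I, b2_pt u y hy⟩) (j : ℤ) =
    PowerSeries.coeff j (qExpansion 1 (f : ℍ → ℂ)) * (Real.exp (-(2 * Real.pi * j * y)) : ℂ) := by
  rw [ModularFormClass.qExpansion_coeff_eq_intervalIntegral (F := CuspForm (G0 N) (k : ℤ)) f
    (one_pos) (one_mem_strictPeriods N) j hy, fourierCoeffOn_eq_integral]
  rw [sub_zero, one_div, one_div, Complex.ofReal_one, inv_one, inv_one, one_smul, one_mul,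
    ← intervalIntegral.integral_mul_const]
  refine intervalIntegral.integral_congr fun u _ => ?_
  rw [fourier_coe_apply, smul_eq_mul, mul_right_comm (1 / Function.Periodic.qParam 1 _ ^ j)]
  congr 1
  rw [Function.Periodic.qParam, ← Complex.exp_nat_mul, one_div, ← Complex.exp_neg,
    Complex.ofReal_exp, ← Complex.exp_add]
  congr 1
  push_cast
  have hI : Complex.I * Complex.I = -1 := Complex.I_mul_I
  field_simp
  linear_combination (j * y : ℂ) * hI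

theorem hecke_L2 (N k : ℕ) [NeZero N] (f : CuspForm (G0 N) (k : ℤ)) :
    ∃ C : ℝ, ∀ y : ℝ, 0 < y →
      Summable (fun j : ℕ => ‖PowerSeries.coeff j (qExpansion 1 (f : ℍ → ℂ))‖ ^ 2 *
        Real.exp (-(4 * Real.pi * j * y))) ∧
      ∑' j : ℕ, ‖PowerSeries.coeff j (qExpansion 1 (f : ℍ → ℂ))‖ ^ 2 *
        Real.exp (-(4 * Real.pi * j * y)) ≤ C * (y⁻¹) ^ k := by
  obtain ⟨C, hC⟩ := CuspFormClass.exists_bound f
  refine ⟨C ^ 2, fun y hy => ?_⟩
  set G : ℝ → ℂ := fun u : ℝ => (f : ℍ → ℂ) ⟨(u : ℂ) + y * Complex.I, b2_pt u y hy⟩ with hG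
  have hGc : Continuous G := b2_cont N k f y hy
  have hGb : ∀ u, ‖G u‖ ≤ C / y ^ ((k : ℝ) / 2) := by
    intro u
    have h := hC ⟨(u : ℂ) + y * Complex.I, b2_pt u y hy⟩
    have him : (⟨(u : ℂ) + y * Complex.I, b2_pt u y hy⟩ : ℍ).im = y := by
      show ((u : ℂ) + y * Complex.I).im = y
      simp
    rw [him] at h
    simpa using h
  have hM : MemLp G 2 (volume.restrict (Set.Ioc (0 : ℝ) 1)) :=
    MemLp.of_bound hGc.aestronglyMeasurable (C / y ^ ((k : ℝ) / 2)) (Filter.Eventually.of_forall hGb)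
  have hS := hasSum_sq_fourierCoeffOn (zero_lt_one : (0 : ℝ) < 1) hM
  have hterm : ∀ j : ℕ, ‖fourierCoeffOn (zero_lt_one : (0 : ℝ) < 1) G (j : ℤ)‖ ^ 2 =
      ‖PowerSeries.coeff j (qExpansion 1 (f : ℍ → ℂ))‖ ^ 2 *
        Real.exp (-(4 * Real.pi * j * y)) := by
    intro j
    rw [hG, b2_coeff N k f y hy j, norm_mul, mul_pow]
    congr 1
    rw [Complex.norm_real, Real.norm_of_nonneg (Real.exp_pos _).le, ← Real.exp_nat_mul]
    congr 1
    push_cast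
    ring
  have hsum : Summable fun j : ℕ => ‖fourierCoeffOn (zero_lt_one : (0 : ℝ) < 1) G (j : ℤ)‖ ^ 2 :=
    hS.summable.comp_injective Nat.cast_injective
  have hle : ∑' j : ℕ, ‖fourierCoeffOn (zero_lt_one : (0 : ℝ) < 1) G (j : ℤ)‖ ^ 2 ≤
      (1 - 0 : ℝ)⁻¹ • ∫ x in (0 : ℝ)..1, ‖G x‖ ^ 2 := by
    rw [← hS.tsum_eq]
    exact tsum_comp_le_tsum_of_inj hS.summable (fun i => sq_nonneg _) Nat.cast_injective
  simp_rw [hterm] at hsum hle
  refine ⟨hsum, hle.trans ?_⟩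
  rw [sub_zero, inv_one, one_smul]
  have h1 : ∫ x in (0 : ℝ)..1, ‖G x‖ ^ 2 ≤ ∫ x in (0 : ℝ)..1, (C / y ^ ((k : ℝ) / 2)) ^ 2 := by
    refine intervalIntegral.integral_mono_on zero_le_one ?_ ?_ fun x _ => ?_
    · exact (hGc.norm.pow 2).intervalIntegrable _ _
    · exact intervalIntegrable_const
    · exact pow_le_pow_left₀ (norm_nonneg _) (hGb x) 2
  refine h1.trans (le_of_eq ?_)
  rw [intervalIntegral.integral_const, sub_zero, one_smul, div_pow, div_eq_mul_inv, inv_pow]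
  congr 2
  rw [← Real.rpow_mul_natCast hy.le, ← Real.rpow_natCast]
  congr 1
  push_cast
  ring

end H94M
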