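import Mathlib

/-!
# H94M, chunk B3 (S/M): from the mean square bound to `Σ |a_j|² j^{-k-1/4} < ∞`

PROOF. For `j ≥ 1` take `i` with `2^i ≤ j < 2^(i+1)` (`Nat.log 2 j`). Then with `s = k + 1/4`:
`j^{-s} ≤ 2^{-is}` and `exp(-4π j 2^{-i-1}) ≥ exp(-4π)`, so
`α_j j^{-s} ≤ exp(4π) 2^{-is} α_j exp(-4πj 2^{-(i+1)}) ≤ exp(4π) Σ'_i 2^{-is} α_j exp(-4πj 2^{-(i+1)})`.
The double family over `(i, j)` is summable (`summable_prod_of_nonneg`): the sum over `j` is at most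
`C 2^{-is} 2^{(i+1)k} = C 2^k 2^{-i/4}`, geometric. The term `j = 0`: `(0 : ℝ) ^ (-s) = 0` as `s ≠ 0`.
-/

namespace H94M

/-- the weight of the dyadic block `i` -/
private noncomputable def b3w (k i : ℕ) : ℝ := (((2 : ℝ) ^ i)⁻¹) ^ k * ((2 : ℝ) ^ (-(1 / 4) : ℝ)) ^ i

private theorem b3w_nonneg (k i : ℕ) : 0 ≤ b3w k i := by
  unfold b3w
  positivity

private theorem b3_rpow (k i : ℕ) : ((2 : ℝ) ^ i) ^ (-(k : ℝ) - 1 / 4) = b3w k i := by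
  unfold b3w
  have h2 : (0 : ℝ) < 2 ^ i := by positivity
  rw [show (-(k : ℝ) - 1 / 4) = -(k : ℝ) + (-(1 / 4) : ℝ) by ring, Real.rpow_add h2,
    Real.rpow_neg h2.le, Real.rpow_natCast, inv_pow]
  congr 1
  rw [← Real.rpow_natCast (2 : ℝ) i, ← Real.rpow_natCast ((2 : ℝ) ^ (-(1 / 4) : ℝ)) i,
    ← Real.rpow_mul (by norm_num), ← Real.rpow_mul (by norm_num)]
  ring_nf

private theorem b3_term (k j : ℕ) (hj : j ≠ 0) (a : ℝ) (ha : 0 ≤ a) :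
    a * (j : ℝ) ^ (-(k : ℝ) - 1 / 4) ≤ Real.exp (4 * Real.pi) * (b3w k (Nat.log 2 j) *
      (a * Real.exp (-(4 * Real.pi * j * ((2 : ℝ) ^ (Nat.log 2 j + 1))⁻¹)))) := by
  set i := Nat.log 2 j with hi
  have h1 : 2 ^ i ≤ j := Nat.pow_log_le_self 2 hj
  have h2 : j < 2 ^ (i + 1) := Nat.lt_pow_succ_log_self (by norm_num) j
  have h1' : (2 : ℝ) ^ i ≤ j := by exact_mod_cast h1
  have h2' : (j : ℝ) < (2 : ℝ) ^ (i + 1) := by exact_mod_cast h2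
  have h0 : (0 : ℝ) < 2 ^ i := by positivity
  have h3 : (j : ℝ) ^ (-(k : ℝ) - 1 / 4) ≤ b3w k i := by
    rw [← b3_rpow]
    refine Real.rpow_le_rpow_of_nonpos h0 h1' ?_
    have : (0 : ℝ) ≤ k := Nat.cast_nonneg k
    linarith
  have h4 : (1 : ℝ) ≤ Real.exp (4 * Real.pi) *
      Real.exp (-(4 * Real.pi * j * ((2 : ℝ) ^ (i + 1))⁻¹)) := by
    rw [← Real.exp_add]
    refine Real.one_le_exp ?_
    have h5 : (j : ℝ) * ((2 : ℝ) ^ (i + 1))⁻¹ ≤ 1 := by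
      rw [← div_eq_mul_inv, div_le_one (by positivity)]
      exact h2'.le
    have h6 := mul_le_mul_of_nonneg_left h5 (by positivity : (0 : ℝ) ≤ 4 * Real.pi)
    linarith
  calc a * (j : ℝ) ^ (-(k : ℝ) - 1 / 4) ≤ a * b3w k i := mul_le_mul_of_nonneg_left h3 ha
    _ = a * b3w k i * 1 := by ring
    _ ≤ a * b3w k i * (Real.exp (4 * Real.pi) *
      Real.exp (-(4 * Real.pi * j * ((2 : ℝ) ^ (i + 1))⁻¹))) :=
        mul_le_mul_of_nonneg_left h4 (mul_nonneg ha (b3w_nonneg k i))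
    _ = _ := by ring

theorem rpow_summable (k : ℕ) (α : ℕ → ℝ) (hα : ∀ j, 0 ≤ α j) (C : ℝ)
    (h : ∀ y : ℝ, 0 < y → Summable (fun j : ℕ => α j * Real.exp (-(4 * Real.pi * j * y))) ∧
      ∑' j : ℕ, α j * Real.exp (-(4 * Real.pi * j * y)) ≤ C * (y⁻¹) ^ k) :
    Summable fun j : ℕ => α j * (j : ℝ) ^ (-(k : ℝ) - 1 / 4) := by
  have hC : 0 ≤ C := by
    have h1 := (h 1 one_pos).2
    have h2 : 0 ≤ ∑' j : ℕ, α j * Real.exp (-(4 * Real.pi * j * 1)) :=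
      tsum_nonneg fun j => mul_nonneg (hα j) (Real.exp_pos _).le
    simp only [inv_one, one_pow, mul_one] at h1 h2
    linarith
  have hq0 : (0 : ℝ) ≤ (2 : ℝ) ^ (-(1 / 4) : ℝ) := by positivity
  have hq1 : (2 : ℝ) ^ (-(1 / 4) : ℝ) < 1 :=
    Real.rpow_lt_one_of_one_lt_of_neg (by norm_num) (by norm_num)
  have hgeo := summable_geometric_of_lt_one hq0 hq1
  have hnn : ∀ i j : ℕ, 0 ≤ b3w k i *
      (α j * Real.exp (-(4 * Real.pi * j * ((2 : ℝ) ^ (i + 1))⁻¹))) := fun i j =>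
    mul_nonneg (b3w_nonneg k i) (mul_nonneg (hα j) (Real.exp_pos _).le)
  refine summable_of_sum_le (c := Real.exp (4 * Real.pi) *
    (C * 2 ^ k * ∑' i : ℕ, ((2 : ℝ) ^ (-(1 / 4) : ℝ)) ^ i)) ?_ ?_
  · intro j
    exact mul_nonneg (hα j) (Real.rpow_nonneg (Nat.cast_nonneg j) _)
  intro u
  set M : ℕ := u.sup (Nat.log 2) + 1 with hM
  have h1 : ∀ j ∈ u, α j * (j : ℝ) ^ (-(k : ℝ) - 1 / 4) ≤ Real.exp (4 * Real.pi) *
      ∑ i ∈ Finset.range M, b3w k i *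
        (α j * Real.exp (-(4 * Real.pi * j * ((2 : ℝ) ^ (i + 1))⁻¹))) := by
    intro j hj
    by_cases hj0 : j = 0
    · subst hj0
      have h0 : ((0 : ℕ) : ℝ) ^ (-(k : ℝ) - 1 / 4) = 0 := by
        rw [Nat.cast_zero]
        refine Real.zero_rpow ?_
        have : (0 : ℝ) ≤ k := Nat.cast_nonneg k
        intro hc
        linarith
      rw [h0, mul_zero]
      exact mul_nonneg (Real.exp_pos _).le (Finset.sum_nonneg fun i _ => hnn i 0)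
    · refine (b3_term k j hj0 (α j) (hα j)).trans ?_
      refine mul_le_mul_of_nonneg_left ?_ (Real.exp_pos _).le
      refine Finset.single_le_sum (f := fun i => b3w k i *
        (α j * Real.exp (-(4 * Real.pi * j * ((2 : ℝ) ^ (i + 1))⁻¹)))) (fun i _ => hnn i j) ?_
      rw [Finset.mem_range, hM]
      exact Nat.lt_succ_of_le (Finset.le_sup (f := Nat.log 2) hj)
  refine (Finset.sum_le_sum h1).trans ?_
  rw [← Finset.mul_sum]
  refine mul_le_mul_of_nonneg_left ?_ (Real.exp_pos _).le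
  rw [Finset.sum_comm]
  have h2 : ∀ i ∈ Finset.range M, ∑ j ∈ u, b3w k i *
      (α j * Real.exp (-(4 * Real.pi * j * ((2 : ℝ) ^ (i + 1))⁻¹))) ≤
      C * 2 ^ k * ((2 : ℝ) ^ (-(1 / 4) : ℝ)) ^ i := by
    intro i _
    rw [← Finset.mul_sum]
    obtain ⟨hs, hle⟩ := h (((2 : ℝ) ^ (i + 1))⁻¹) (by positivity)
    have h3 : ∑ j ∈ u, α j * Real.exp (-(4 * Real.pi * j * ((2 : ℝ) ^ (i + 1))⁻¹)) ≤
        C * ((2 : ℝ) ^ (i + 1)) ^ k := by
      refine (hs.sum_le_tsum u fun j _ => mul_nonneg (hα j) (Real.exp_pos _).le).trans ?_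
      rw [inv_inv] at hle
      exact hle
    refine (mul_le_mul_of_nonneg_left h3 (b3w_nonneg k i)).trans (le_of_eq ?_)
    unfold b3w
    have h4 : (((2 : ℝ) ^ i)⁻¹) ^ k * ((2 : ℝ) ^ (i + 1)) ^ k = 2 ^ k := by
      rw [← mul_pow]
      congr 1
      rw [pow_succ]
      field_simp
    calc (((2 : ℝ) ^ i)⁻¹) ^ k * ((2 : ℝ) ^ (-(1 / 4) : ℝ)) ^ i * (C * ((2 : ℝ) ^ (i + 1)) ^ k)
        = C * ((((2 : ℝ) ^ i)⁻¹) ^ k * ((2 : ℝ) ^ (i + 1)) ^ k) *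
          ((2 : ℝ) ^ (-(1 / 4) : ℝ)) ^ i := by ring
      _ = _ := by rw [h4]
  refine (Finset.sum_le_sum h2).trans ?_
  rw [← Finset.mul_sum]
  refine mul_le_mul_of_nonneg_left ?_ (by positivity)
  exact hgeo.sum_le_tsum _ fun i _ => pow_nonneg hq0 i

end H94M
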