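import Pool.Agent.Lib.H94M.B1

/-!
# H94M, chunk B4 (M): the sum over the fundamental domain `|m| ≤ n`

`D = {(n,m) : 1 ≤ n, |m| ≤ n, n ≡ m mod 2}`; there `4 NN = 5n² - m²`, `n² ≤ NN ≤ 5n²/4`.
-/

namespace H94M

open H53M

theorem B4_NN {n : ℕ} {m : ℤ} (h1 : 1 ≤ n) (h2 : |m| ≤ (n : ℤ)) (h3 : (2 : ℤ) ∣ (n : ℤ) - m) :
    (n : ℤ) ^ 2 ≤ NN n m ∧ 1 ≤ NN n m := by
  have h4 := NN_four h3
  have h5 : m ^ 2 ≤ (n : ℤ) ^ 2 := sq_le_sq' (abs_le.1 h2).1 (abs_le.1 h2).2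
  have h6 : (1 : ℤ) ≤ (n : ℤ) ^ 2 := by
    have : (1 : ℤ) ≤ n := by exact_mod_cast h1
    nlinarith
  constructor
  · linarith
  · linarith

/-- the first majorant -/
theorem B4_g2 : Summable fun i : ℕ × ℤ =>
    if 1 ≤ i.1 ∧ |i.2| ≤ (i.1 : ℤ) ∧ (2 : ℤ) ∣ (i.1 : ℤ) - i.2 then
      (NN i.1 i.2 : ℝ) ^ (-(5 / 4) : ℝ) else 0 := by
  set F : ℕ × ℤ → ℝ := fun i => if i.2 ∈ Finset.Icc (-(i.1 : ℤ)) i.1 then
    (i.1 : ℝ) ^ (-(5 / 2) : ℝ) else 0 with hF
  have hF0 : ∀ i, 0 ≤ F i := by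
    intro i
    simp only [hF]
    split_ifs
    · positivity
    · exact le_rfl
  have hFs : Summable F := by
    refine (summable_prod_of_nonneg hF0).2 ⟨fun n => ?_, ?_⟩
    · refine summable_of_ne_finset_zero (s := Finset.Icc (-(n : ℤ)) n) fun m hm => ?_
      simp only [hF]
      rw [if_neg hm]
    · have h1 : ∀ n : ℕ, ∑' m : ℤ, F (n, m) = (2 * n + 1) * (n : ℝ) ^ (-(5 / 2) : ℝ) := by
        intro n
        rw [tsum_eq_sum (s := Finset.Icc (-(n : ℤ)) n) (fun m hm => by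
          simp only [hF]
          rw [if_neg hm])]
        have h2 : ∀ m ∈ Finset.Icc (-(n : ℤ)) n, F (n, m) = (n : ℝ) ^ (-(5 / 2) : ℝ) := by
          intro m hm
          simp only [hF]
          rw [if_pos hm]
        rw [Finset.sum_congr rfl h2, Finset.sum_const, Int.card_Icc, nsmul_eq_mul]
        congr 1
        have : ((n : ℤ) + 1 - -(n : ℤ)).toNat = 2 * n + 1 := by omega
        rw [this]
        push_cast
        ring
      simp_rw [h1]
      have h3 : Summable fun n : ℕ => 3 * (n : ℝ) ^ (-(3 / 2) : ℝ) :=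
        (Real.summable_nat_rpow.2 (by norm_num)).mul_left 3
      refine Summable.of_nonneg_of_le (fun n => by positivity) (fun n => ?_) h3
      rcases Nat.eq_zero_or_pos n with hn | hn
      · subst hn
        rw [Nat.cast_zero, Real.zero_rpow (by norm_num), Real.zero_rpow (by norm_num)]
        simp
      · have hn1 : (1 : ℝ) ≤ n := by exact_mod_cast hn
        have e : (n : ℝ) ^ (-(3 / 2) : ℝ) = n * (n : ℝ) ^ (-(5 / 2) : ℝ) := by
          have h4 : (n : ℝ) ^ (-(3 / 2) : ℝ) = (n : ℝ) ^ ((1 : ℝ) + (-(5 / 2))) := by norm_num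
          rw [h4, Real.rpow_add (by linarith), Real.rpow_one]
        rw [e]
        have h5 : 0 ≤ (n : ℝ) ^ (-(5 / 2) : ℝ) := by positivity
        nlinarith
  refine Summable.of_nonneg_of_le (fun i => ?_) (fun i => ?_) hFs
  · split_ifs with hc
    · have := (B4_NN hc.1 hc.2.1 hc.2.2).2
      have h1 : (0 : ℝ) < (NN i.1 i.2 : ℝ) := by exact_mod_cast (by omega : 0 < NN i.1 i.2)
      positivity
    · exact le_rfl
  · split_ifs with hc
    · simp only [hF]
      rw [if_pos (Finset.mem_Icc.2 (abs_le.1 hc.2.1))]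
      have h1 := (B4_NN hc.1 hc.2.1 hc.2.2).1
      have h2 : ((i.1 : ℝ)) ^ 2 ≤ (NN i.1 i.2 : ℝ) := by exact_mod_cast h1
      have h3 : (0 : ℝ) < i.1 := by exact_mod_cast hc.1
      have e : (i.1 : ℝ) ^ (-(5 / 2) : ℝ) = ((i.1 : ℝ) ^ 2) ^ (-(5 / 4) : ℝ) := by
        rw [← Real.rpow_natCast, ← Real.rpow_mul h3.le]
        norm_num
      rw [e]
      exact Real.rpow_le_rpow_of_nonpos (by positivity) h2 (by norm_num)
    · exact hF0 i

/-- the second majorant -/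
theorem B4_g1 (k : ℕ) (hk : 4 ≤ k) (β : ℕ → ℝ)
    (h : Summable fun j : ℕ => β j ^ 2 * (j : ℝ) ^ (-(k : ℝ) - 1 / 4)) :
    Summable fun i : ℕ × ℤ =>
      if 1 ≤ i.1 ∧ |i.2| ≤ (i.1 : ℤ) ∧ (2 : ℤ) ∣ (i.1 : ℤ) - i.2 then
        β (NN i.1 i.2).toNat ^ 2 * (NN i.1 i.2 : ℝ) ^ (-2 * (k : ℝ) + 13 / 4) else 0 := by
  have hk4 : (4 : ℝ) ≤ k := by exact_mod_cast hk
  set G : ℕ × ℕ × Bool → ℝ := fun x => if x.2.1 ^ 2 ≤ x.1 then
    β x.1 ^ 2 * (x.1 : ℝ) ^ (-2 * (k : ℝ) + 13 / 4) else 0 with hGdef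
  have hG0 : ∀ x, 0 ≤ G x := by
    intro x
    simp only [hGdef]
    split_ifs
    · positivity
    · exact le_rfl
  have hG : Summable G := by
    refine (summable_prod_of_nonneg hG0).2 ⟨fun j => ?_, ?_⟩
    · refine summable_of_ne_finset_zero (s := Finset.range (Nat.sqrt j + 1) ×ˢ Finset.univ)
        fun x hx => ?_
      simp only [hGdef]
      rw [if_neg]
      intro hc
      apply hx
      rw [Finset.mem_product]
      refine ⟨Finset.mem_range.2 ?_, Finset.mem_univ _⟩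
      have := Nat.le_sqrt'.2 hc
      omega
    · refine Summable.of_nonneg_of_le (fun j => tsum_nonneg fun x => hG0 _) (fun j => ?_)
        (h.mul_left 4)
      rw [tsum_eq_sum (s := Finset.range (Nat.sqrt j + 1) ×ˢ (Finset.univ : Finset Bool))
        (fun x hx => by
          simp only [hGdef]
          rw [if_neg]
          intro hc
          apply hx
          rw [Finset.mem_product]
          refine ⟨Finset.mem_range.2 ?_, Finset.mem_univ _⟩
          have := Nat.le_sqrt'.2 hc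
          omega)]
      rcases Nat.eq_zero_or_pos j with hj | hj
      · subst hj
        have e : ∀ x ∈ Finset.range (Nat.sqrt 0 + 1) ×ˢ (Finset.univ : Finset Bool),
            G (0, x) = 0 := by
          intro x _
          simp only [hGdef]
          rw [Nat.cast_zero, Real.zero_rpow (by linarith)]
          simp
        rw [Finset.sum_congr rfl e, Finset.sum_const_zero]
        positivity
      · have hj1 : (1 : ℝ) ≤ j := by exact_mod_cast hj
        have h1 : ∀ x ∈ Finset.range (Nat.sqrt j + 1) ×ˢ (Finset.univ : Finset Bool),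
            G (j, x) ≤ β j ^ 2 * (j : ℝ) ^ (-2 * (k : ℝ) + 13 / 4) := by
          intro x _
          simp only [hGdef]
          split_ifs
          · exact le_rfl
          · positivity
        refine (Finset.sum_le_sum h1).trans ?_
        rw [Finset.sum_const, Finset.card_product, Finset.card_range, nsmul_eq_mul]
        have hB : (Finset.univ : Finset Bool).card = 2 := rfl
        rw [hB]
        have h2 : (((Nat.sqrt j + 1) * 2 : ℕ) : ℝ) ≤ 4 * (j : ℝ) ^ (1 / 2 : ℝ) := by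
          have h3 : ((Nat.sqrt j : ℕ) : ℝ) ≤ Real.sqrt j := Real.nat_sqrt_le_real_sqrt
          have h4 : (1 : ℝ) ≤ Real.sqrt j := by
            rw [show (1 : ℝ) = Real.sqrt 1 by simp]
            exact Real.sqrt_le_sqrt hj1
          rw [← Real.sqrt_eq_rpow]
          push_cast
          linarith
        have h5 : (j : ℝ) ^ (1 / 2 : ℝ) * (j : ℝ) ^ (-2 * (k : ℝ) + 13 / 4) ≤
            (j : ℝ) ^ (-(k : ℝ) - 1 / 4) := by
          rw [← Real.rpow_add (by linarith)]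
          exact Real.rpow_le_rpow_of_exponent_le hj1 (by linarith)
        have h6 : 0 ≤ β j ^ 2 * (j : ℝ) ^ (-2 * (k : ℝ) + 13 / 4) := by positivity
        calc _ ≤ 4 * (j : ℝ) ^ (1 / 2 : ℝ) * (β j ^ 2 * (j : ℝ) ^ (-2 * (k : ℝ) + 13 / 4)) :=
              mul_le_mul_of_nonneg_right h2 h6
          _ = 4 * (β j ^ 2 * ((j : ℝ) ^ (1 / 2 : ℝ) * (j : ℝ) ^ (-2 * (k : ℝ) + 13 / 4))) := by
              ring
          _ ≤ _ := by
              refine mul_le_mul_of_nonneg_left ?_ (by norm_num)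
              exact mul_le_mul_of_nonneg_left h5 (sq_nonneg _)
  set S : Set (ℕ × ℤ) := {i | 1 ≤ i.1 ∧ |i.2| ≤ (i.1 : ℤ) ∧ (2 : ℤ) ∣ (i.1 : ℤ) - i.2} with hS
  set Ψ : S → ℕ × ℕ × Bool := fun i => ((NN i.1.1 i.1.2).toNat, i.1.1, decide (0 ≤ i.1.2)) with hΨ
  have hinj : Function.Injective Ψ := by
    rintro ⟨⟨n, m⟩, hi⟩ ⟨⟨n', m'⟩, hj⟩ hij
    simp only [hΨ, Prod.mk.injEq] at hij
    obtain ⟨e1, e2, e3⟩ := hij
    subst e2
    have hi' : 1 ≤ n ∧ |m| ≤ (n : ℤ) ∧ (2 : ℤ) ∣ (n : ℤ) - m := hi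
    have hj' : 1 ≤ n ∧ |m'| ≤ (n : ℤ) ∧ (2 : ℤ) ∣ (n : ℤ) - m' := hj
    have a1 := (B4_NN hi'.1 hi'.2.1 hi'.2.2).2
    have a2 := (B4_NN hj'.1 hj'.2.1 hj'.2.2).2
    have a3 := NN_four hi'.2.2
    have a4 := NN_four hj'.2.2
    have a5 : NN n m = NN n m' := by omega
    have a6 : m ^ 2 = m' ^ 2 := by linarith
    have a7 : m = m' := by
      rcases sq_eq_sq_iff_eq_or_eq_neg.1 a6 with h | h
      · exact h
      · have h8 : (0 ≤ m) ↔ (0 ≤ m') := by
          constructor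
          · intro h9
            have : decide (0 ≤ m) = true := decide_eq_true h9
            rw [e3] at this
            exact of_decide_eq_true this
          · intro h9
            have : decide (0 ≤ m') = true := decide_eq_true h9
            rw [← e3] at this
            exact of_decide_eq_true this
        omega
    subst a7
    rfl
  have h1 := hG.comp_injective hinj
  rw [← (Subtype.val_injective (p := fun i => i ∈ S)).summable_iff]
  · refine h1.congr fun i => ?_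
    have hi : 1 ≤ (i : ℕ × ℤ).1 ∧ |(i : ℕ × ℤ).2| ≤ ((i : ℕ × ℤ).1 : ℤ) ∧
      (2 : ℤ) ∣ ((i : ℕ × ℤ).1 : ℤ) - (i : ℕ × ℤ).2 := i.2
    have a1 := B4_NN hi.1 hi.2.1 hi.2.2
    simp only [Function.comp_apply, hΨ, hGdef]
    rw [if_pos hi, if_pos]
    · congr 2
      have : (((NN (i : ℕ × ℤ).1 (i : ℕ × ℤ).2).toNat : ℤ) : ℝ) =
          ((NN (i : ℕ × ℤ).1 (i : ℕ × ℤ).2 : ℤ) : ℝ) := by
        rw [Int.toNat_of_nonneg (by omega)]
      exact_mod_cast this
    · have : ((((i : ℕ × ℤ).1 ^ 2 : ℕ)) : ℤ) ≤ NN (i : ℕ × ℤ).1 (i : ℕ × ℤ).2 := by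
        push_cast
        exact a1.1
      omega
  · intro i hi
    have hc : ¬ (1 ≤ i.1 ∧ |i.2| ≤ (i.1 : ℤ) ∧ (2 : ℤ) ∣ (i.1 : ℤ) - i.2) := by
      intro hc
      exact hi ⟨⟨i, hc⟩, rfl⟩
    rw [if_neg hc]

theorem box_summable (k : ℕ) (hk : 4 ≤ k) (β : ℕ → ℝ) (hβ : ∀ j, 0 ≤ β j)
    (h : Summable fun j : ℕ => β j ^ 2 * (j : ℝ) ^ (-(k : ℝ) - 1 / 4)) :
    Summable fun i : ℕ × ℤ =>
      if 1 ≤ i.1 ∧ |i.2| ≤ (i.1 : ℤ) ∧ (2 : ℤ) ∣ (i.1 : ℤ) - i.2 then
        β (NN i.1 i.2).toNat * ((NN i.1 i.2 : ℝ)⁻¹) ^ (k - 1) else 0 := by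
  refine Summable.of_nonneg_of_le (fun i => ?_) (fun i => ?_) ((B4_g1 k hk β h).add B4_g2)
  · split_ifs with hc
    · have := (B4_NN hc.1 hc.2.1 hc.2.2).2
      have h1 : (0 : ℝ) < (NN i.1 i.2 : ℝ) := by exact_mod_cast (by omega : 0 < NN i.1 i.2)
      have := hβ (NN i.1 i.2).toNat
      positivity
    · exact le_rfl
  · split_ifs with hc
    · have := (B4_NN hc.1 hc.2.1 hc.2.2).2
      have h1 : (0 : ℝ) < (NN i.1 i.2 : ℝ) := by exact_mod_cast (by omega : 0 < NN i.1 i.2)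
      obtain ⟨j, hj⟩ : ∃ j : ℝ, j = (NN i.1 i.2 : ℝ) := ⟨_, rfl⟩
      rw [← hj] at h1 ⊢
      set b := β (NN i.1 i.2).toNat
      have e1 : (j⁻¹) ^ (k - 1) = j ^ (-(k : ℝ) + 1) := by
        rw [← Real.rpow_natCast, Nat.cast_sub (by omega), ← Real.rpow_neg_one,
          ← Real.rpow_mul h1.le]
        congr 1
        push_cast
        ring
      have e2 : j ^ (-(k : ℝ) + 1) = j ^ (-(k : ℝ) + 13 / 8) * j ^ (-(5 / 8) : ℝ) := by
        rw [← Real.rpow_add h1]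
        congr 1
        ring
      have e3 : j ^ (-2 * (k : ℝ) + 13 / 4) = (j ^ (-(k : ℝ) + 13 / 8)) ^ 2 := by
        rw [← Real.rpow_natCast, ← Real.rpow_mul h1.le]
        congr 1
        push_cast
        ring
      have e4 : j ^ (-(5 / 4) : ℝ) = (j ^ (-(5 / 8) : ℝ)) ^ 2 := by
        rw [← Real.rpow_natCast, ← Real.rpow_mul h1.le]
        congr 1
        push_cast
        ring
      rw [e1, e2, e3, e4]
      have h2 : 0 ≤ j ^ (-(k : ℝ) + 13 / 8) := by positivity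
      have h3 : 0 ≤ j ^ (-(5 / 8) : ℝ) := by positivity
      nlinarith [sq_nonneg (b * j ^ (-(k : ℝ) + 13 / 8) - j ^ (-(5 / 8) : ℝ)),
        sq_nonneg (b * j ^ (-(k : ℝ) + 13 / 8)), sq_nonneg (j ^ (-(5 / 8) : ℝ))]
    · simp

end H94M
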