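import Pool.Agent.Lib.H94M.B1

/-!
# H94M, chunk B5 (S/M): reduction by the totally positive units

`ρ = (3 + √5)/2`, `ρ⁻¹ = (3 - √5)/2`.

PROOF. Strong induction on `n`. If `|m| ≤ n` take `t = 0`. If `m > n` put
`(n', m') = ((3n - m)/2, (3m - 5n)/2)` (integers since `n ≡ m mod 2`; `n' ≡ m' mod 2`), then
`0 < n' < n` (`m < √5 n < 3n`, from `m² < 5n²`), `5n'² - m'² = 5n² - m²`,
`uu n m = ρ uu n' m'`, `vv n m = ρ⁻¹ vv n' m'` (`√5² = 5`). If `m < -n` take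
`(n', m') = ((3n + m)/2, (3m + 5n)/2)`, `uu n m = ρ⁻¹ uu n' m'`, `vv n m = ρ vv n' m'`.
-/

namespace H94M

open H53M

/-- `ρ = ε²` -/
noncomputable def rho : ℝ := (3 + Real.sqrt 5) / 2

theorem B5_rho_pos : 0 < rho := by
  unfold rho
  positivity

theorem B5_sqrt : Real.sqrt 5 * Real.sqrt 5 = 5 := Real.mul_self_sqrt (by norm_num)

theorem B5_sqrt_ne : Real.sqrt 5 ≠ 0 := (Real.sqrt_pos.2 (by norm_num)).ne'

theorem B5_rho_inv : rho⁻¹ = (3 - Real.sqrt 5) / 2 := by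
  unfold rho
  refine inv_eq_of_mul_eq_one_right ?_
  have := B5_sqrt
  linear_combination (-1 / 4 : ℝ) * this

theorem B5_uu (n : ℕ) (w : ℤ) (n' : ℕ) (hn : (n' : ℤ) = n - w) :
    uu n ((n : ℤ) + 2 * w) = rho * uu n' (3 * w - n) := by
  have h : (n' : ℝ) = n - w := by exact_mod_cast hn
  unfold uu rho
  rw [h]
  push_cast
  have h5 := B5_sqrt
  have h0 := B5_sqrt_ne
  field_simp
  ring_nf
  ring_nf at h5
  have h6 : Real.sqrt 5 ^ 2 = 5 := h5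
  rw [h6]
  ring

theorem B5_vv (n : ℕ) (w : ℤ) (n' : ℕ) (hn : (n' : ℤ) = n - w) :
    vv n ((n : ℤ) + 2 * w) = rho⁻¹ * vv n' (3 * w - n) := by
  have h : (n' : ℝ) = n - w := by exact_mod_cast hn
  rw [B5_rho_inv]
  unfold vv
  rw [h]
  push_cast
  have h5 := B5_sqrt
  have h0 := B5_sqrt_ne
  field_simp
  ring_nf
  ring_nf at h5
  have h6 : Real.sqrt 5 ^ 2 = 5 := h5
  rw [h6]
  ring

theorem unit_red (n : ℕ) (m : ℤ) (h1 : m ^ 2 < 5 * (n : ℤ) ^ 2) (h2 : (2 : ℤ) ∣ (n : ℤ) - m) :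
    ∃ (t : ℤ) (n₀ : ℕ) (m₀ : ℤ), 1 ≤ n₀ ∧ |m₀| ≤ (n₀ : ℤ) ∧ (2 : ℤ) ∣ (n₀ : ℤ) - m₀ ∧
      uu n m = rho ^ t * uu n₀ m₀ ∧ vv n m = rho ^ (-t) * vv n₀ m₀ ∧ NN n m = NN n₀ m₀ := by
  induction n using Nat.strong_induction_on generalizing m with
  | _ n ih =>
  have hn : 0 < n := by
    rcases Nat.eq_zero_or_pos n with h0 | h0
    · subst h0
      have := sq_nonneg m
      simp at h1
      omega
    · exact h0
  have hr0 : rho ≠ 0 := B5_rho_pos.ne'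
  have key : ∀ m : ℤ, m ^ 2 < 5 * (n : ℤ) ^ 2 → (2 : ℤ) ∣ (n : ℤ) - m → (n : ℤ) < m →
      ∃ (t : ℤ) (n₀ : ℕ) (m₀ : ℤ), 1 ≤ n₀ ∧ |m₀| ≤ (n₀ : ℤ) ∧ (2 : ℤ) ∣ (n₀ : ℤ) - m₀ ∧
      uu n m = rho ^ t * uu n₀ m₀ ∧ vv n m = rho ^ (-t) * vv n₀ m₀ ∧ NN n m = NN n₀ m₀ := by
    intro m h1 h2 hm
    obtain ⟨w, hw⟩ : ∃ w : ℤ, m = n + 2 * w := by
      obtain ⟨z, hz⟩ := h2
      exact ⟨-z, by linarith⟩
    subst hw
    have hw0 : 0 < w := by omega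
    have hwn : w < n := by
      by_contra hc
      push Not at hc
      nlinarith
    obtain ⟨n', hn'⟩ : ∃ n' : ℕ, (n' : ℤ) = n - w := ⟨((n : ℤ) - w).toNat, by omega⟩
    have e : 5 * (n' : ℤ) ^ 2 - (3 * w - n) ^ 2 = 5 * (n : ℤ) ^ 2 - (n + 2 * w) ^ 2 := by
      rw [hn']
      ring
    have g1 : (3 * w - n) ^ 2 < 5 * (n' : ℤ) ^ 2 := by linarith
    have g2 : (2 : ℤ) ∣ (n' : ℤ) - (3 * w - n) := by
      rw [hn']
      exact ⟨(n : ℤ) - 2 * w, by ring⟩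
    obtain ⟨t, n₀, m₀, a1, a2, a3, a4, a5, a6⟩ := ih n' (by omega) (3 * w - n) g1 g2
    refine ⟨t + 1, n₀, m₀, a1, a2, a3, ?_, ?_, ?_⟩
    · rw [B5_uu n w n' hn', a4, zpow_add_one₀ hr0]
      ring
    · rw [B5_vv n w n' hn', a5, neg_add, zpow_add₀ hr0, zpow_neg_one]
      ring
    · rw [← a6]
      unfold NN
      rw [e]
  rcases lt_or_ge (n : ℤ) m with hm | hm
  · exact key m h1 h2 hm
  rcases lt_or_ge m (-(n : ℤ)) with hm' | hm'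
  · obtain ⟨t, n₀, m₀, a1, a2, a3, a4, a5, a6⟩ := key (-m) (by rw [neg_sq]; exact h1)
      (by omega) (by omega)
    rw [X.uu_neg] at a4
    rw [X.vv_neg] at a5
    rw [X.NN_neg] at a6
    refine ⟨-t, n₀, -m₀, a1, by rwa [abs_neg], by omega, ?_, ?_, ?_⟩
    · rw [a5, X.uu_neg]
    · rw [a4, X.vv_neg, neg_neg]
    · rw [a6, X.NN_neg]
  · exact ⟨0, n, m, hn, abs_le.2 ⟨hm', hm⟩, h2, by simp, by simp, rfl⟩

end H94M
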