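import Pool.Agent.Lib.H94M.B5

/-!
# H94M, chunk B6 (S/M): a sum over a geometric progression

PROOF. `φ(x) = x^K e^{-2πx}`. `x^(K-1) e^{-2πx}` and `x^(K+1) e^{-2πx}` are bounded for `x > 0`
(H53M/X1 `X1_pow`: `x^j e^{-x} ≤ j!`), so `φ(x) ≤ C₁ min(x, x⁻¹)`. Choose `t₀ : ℤ` with
`ρ^{t₀} ≤ x < ρ^{t₀+1}` (`exists_mem_Ico_zpow`). Then `φ(xρ^t) ≤ C₁ ρ ρ^{-|t+t₀|}`, and
`Σ_t ρ^{-|t|} < ∞` (H53M/X11 `X11_sumZ`).
-/

namespace H94M

open H53M

private theorem b6_one_lt_rho : 1 < rho := by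
  unfold rho
  have : 0 ≤ Real.sqrt 5 := Real.sqrt_nonneg 5
  linarith

private theorem b6_sumZ {r : ℝ} (h0 : 0 ≤ r) (h1 : r < 1) : Summable fun l : ℤ => r ^ l.natAbs := by
  rw [summable_int_iff_summable_nat_and_neg]
  constructor
  · simpa using summable_geometric_of_lt_one h0 h1
  · simpa using summable_geometric_of_lt_one h0 h1

private theorem b6_pow {x : ℝ} (hx : 0 ≤ x) (j : ℕ) :
    x ^ j * Real.exp (-(2 * Real.pi * x)) ≤ (j.factorial : ℝ) := by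
  have h1 := Real.pow_div_factorial_le_exp x hx j
  have h2 : (0 : ℝ) < (j.factorial : ℝ) := by exact_mod_cast Nat.factorial_pos j
  rw [div_le_iff₀ h2] at h1
  have h3 : x ^ j * Real.exp (-x) ≤ (j.factorial : ℝ) := by
    rw [Real.exp_neg, ← div_eq_mul_inv, div_le_iff₀ (Real.exp_pos x)]
    linarith
  refine le_trans ?_ h3
  refine mul_le_mul_of_nonneg_left (Real.exp_le_exp.mpr ?_) (pow_nonneg hx j)
  nlinarith [Real.pi_gt_three]

/-- `φ(z) ≤ (K+1)! min(z, 1/z)` -/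
private theorem b6_min (K : ℕ) (hK : 1 ≤ K) {z : ℝ} (hz : 0 < z) :
    z ^ K * Real.exp (-(2 * Real.pi * z)) ≤ ((K + 1).factorial : ℝ) * z ∧
      z ^ K * Real.exp (-(2 * Real.pi * z)) ≤ ((K + 1).factorial : ℝ) * z⁻¹ := by
  obtain ⟨k, rfl⟩ : ∃ k, K = k + 1 := ⟨K - 1, by omega⟩
  constructor
  · have h1 := b6_pow hz.le k
    have h2 : (k.factorial : ℝ) ≤ ((k + 1 + 1).factorial : ℝ) := by
      exact_mod_cast Nat.factorial_le (by omega)
    calc z ^ (k + 1) * Real.exp (-(2 * Real.pi * z))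
        = z ^ k * Real.exp (-(2 * Real.pi * z)) * z := by ring
      _ ≤ (k.factorial : ℝ) * z := mul_le_mul_of_nonneg_right h1 hz.le
      _ ≤ _ := mul_le_mul_of_nonneg_right h2 hz.le
  · have h1 := b6_pow hz.le (k + 1 + 1)
    calc z ^ (k + 1) * Real.exp (-(2 * Real.pi * z))
        = z ^ (k + 1 + 1) * Real.exp (-(2 * Real.pi * z)) * z⁻¹ := by
          field_simp
          ring
      _ ≤ _ := mul_le_mul_of_nonneg_right h1 (inv_nonneg.mpr hz.le)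

private theorem b6_term (K : ℕ) (hK : 1 ≤ K) {x : ℝ} (t₀ : ℤ) (h1 : rho ^ t₀ ≤ x)
    (h2 : x < rho ^ (t₀ + 1)) (t : ℤ) :
    (x * rho ^ t) ^ K * Real.exp (-(2 * Real.pi * (x * rho ^ t))) ≤
      ((K + 1).factorial : ℝ) * rho * (rho⁻¹) ^ (t + t₀).natAbs := by
  have hr1 := b6_one_lt_rho
  have hr0 : 0 < rho := by linarith
  have hx : 0 < x := lt_of_lt_of_le (zpow_pos hr0 _) h1
  have hz : 0 < x * rho ^ t := mul_pos hx (zpow_pos hr0 _)
  have hf : (0 : ℝ) < ((K + 1).factorial : ℝ) := by exact_mod_cast Nat.factorial_pos _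
  obtain ⟨ha, hb⟩ := b6_min K hK hz
  rcases le_or_gt 0 (t + t₀) with h | h
  · have h3 : rho ^ (t + t₀) ≤ x * rho ^ t := by
      rw [zpow_add₀ hr0.ne', mul_comm]
      exact mul_le_mul_of_nonneg_right h1 (zpow_pos hr0 _).le
    have h4 : (x * rho ^ t)⁻¹ ≤ (rho⁻¹) ^ (t + t₀).natAbs := by
      have h5 : (rho⁻¹) ^ (t + t₀).natAbs = (rho ^ (t + t₀))⁻¹ := by
        rw [← zpow_natCast, Int.natAbs_of_nonneg h, inv_zpow]
      rw [h5]
      exact inv_anti₀ (zpow_pos hr0 _) h3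
    refine hb.trans ?_
    have h6 : 0 ≤ (rho⁻¹) ^ (t + t₀).natAbs := by positivity
    calc ((K + 1).factorial : ℝ) * (x * rho ^ t)⁻¹
        ≤ ((K + 1).factorial : ℝ) * (rho⁻¹) ^ (t + t₀).natAbs :=
          mul_le_mul_of_nonneg_left h4 hf.le
      _ = ((K + 1).factorial : ℝ) * 1 * (rho⁻¹) ^ (t + t₀).natAbs := by ring
      _ ≤ ((K + 1).factorial : ℝ) * rho * (rho⁻¹) ^ (t + t₀).natAbs := by
          refine mul_le_mul_of_nonneg_right ?_ h6
          exact mul_le_mul_of_nonneg_left hr1.le hf.le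
  · have h3 : x * rho ^ t ≤ rho * rho ^ (t + t₀) := by
      have h4 : rho * rho ^ (t + t₀) = rho ^ (t₀ + 1) * rho ^ t := by
        rw [← zpow_add₀ hr0.ne', ← zpow_one_add₀ hr0.ne']
        congr 1
        ring
      rw [h4]
      exact mul_le_mul_of_nonneg_right h2.le (zpow_pos hr0 _).le
    have h5 : (rho⁻¹) ^ (t + t₀).natAbs = rho ^ (t + t₀) := by
      rw [← zpow_natCast, Int.ofNat_natAbs_of_nonpos h.le, inv_zpow, ← zpow_neg, neg_neg]
    refine ha.trans ?_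
    rw [h5, mul_assoc]
    exact mul_le_mul_of_nonneg_left h3 hf.le

theorem geom_sum (K : ℕ) (hK : 1 ≤ K) : ∃ C : ℝ, 0 ≤ C ∧ ∀ x : ℝ, 0 < x →
    Summable (fun t : ℤ => (x * rho ^ t) ^ K * Real.exp (-(2 * Real.pi * (x * rho ^ t)))) ∧
    ∑' t : ℤ, (x * rho ^ t) ^ K * Real.exp (-(2 * Real.pi * (x * rho ^ t))) ≤ C := by
  have hr1 := b6_one_lt_rho
  have hr0 : 0 < rho := by linarith
  have hs := b6_sumZ (inv_nonneg.mpr hr0.le) (inv_lt_one_of_one_lt₀ hr1)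
  refine ⟨((K + 1).factorial : ℝ) * rho * ∑' l : ℤ, (rho⁻¹) ^ l.natAbs, ?_, ?_⟩
  · have : 0 ≤ ∑' l : ℤ, (rho⁻¹) ^ l.natAbs := tsum_nonneg fun l => by positivity
    positivity
  intro x hx
  obtain ⟨t₀, h1, h2⟩ := exists_mem_Ico_zpow hx hr1
  have hs' : Summable fun t : ℤ => ((K + 1).factorial : ℝ) * rho * (rho⁻¹) ^ (t + t₀).natAbs :=
    ((Equiv.addRight t₀).summable_iff (f := fun l : ℤ => (rho⁻¹) ^ l.natAbs)).2 hs |>.mul_left _
  have hle := b6_term K hK t₀ h1 h2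
  have hsum : Summable (fun t : ℤ => (x * rho ^ t) ^ K *
      Real.exp (-(2 * Real.pi * (x * rho ^ t)))) := by
    refine Summable.of_nonneg_of_le (fun t => ?_) hle hs'
    exact mul_nonneg (pow_nonneg (mul_pos hx (zpow_pos hr0 _)).le _) (Real.exp_pos _).le
  refine ⟨hsum, (hsum.tsum_le_tsum hle hs').trans (le_of_eq ?_)⟩
  rw [tsum_mul_left]
  congr 1
  exact (Equiv.addRight t₀).tsum_eq (fun l : ℤ => (rho⁻¹) ^ l.natAbs)

end H94M
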