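import Pool.Agent.Lib.H94M.B4
import Pool.Agent.Lib.H94M.B6

/-!
# H94M, chunk B7 (M): the sum over `r` and over all `(n,m)`

PROOF. `K = k - 1 ≥ 3`. Let `S` be a finite set of triples `(r, n, m)` (as in the statement, only
those with `1 ≤ r`, `m² < 5n²`, `n ≡ m mod 2` count). By `unit_red` choose for each `(n,m)` a
`(t, n₀, m₀)`; the map `(r,n,m) ↦ (r, n₀, m₀, t)` is injective (`uu`, `vv` determine `(n,m)`). With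
`u₀ = uu n₀ m₀`, `v₀ = vv n₀ m₀` (positive), `u₀ v₀ = NN/5`, the term is
`β v₀^{-K} ρ^{tK} exp(-2π r u₀ y ρ^t) = β (v₀ u₀)^{-K} (r y)^{-K} (xρ^t)^K exp(-2π x ρ^t)`, `x = r u₀ y`.
The sum over `t` is `≤ C β (NN/5)^{-K} (r y)^{-K}` (`geom_sum`), the sum over `r ≥ 1` of `r^{-K}`
converges, the sum over `(n₀, m₀)` by `box_summable`. Formally: summable on `ℕ × (ℕ × ℤ) × ℤ`
(`summable_prod_of_nonneg`), then `summable_of_sum_le` or `Summable.comp_injective`.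
-/

namespace H94M

open H53M

/-- facts on the fundamental domain -/
theorem B7_box {n : ℕ} {m : ℤ} (h1 : 1 ≤ n) (h2 : |m| ≤ (n : ℤ)) (h3 : (2 : ℤ) ∣ (n : ℤ) - m) :
    0 < uu n m ∧ 0 < vv n m ∧ 5 * (uu n m * vv n m) = (NN n m : ℝ) := by
  have h5 : Real.sqrt 5 * Real.sqrt 5 = 5 := B5_sqrt
  have h0 : 0 < Real.sqrt 5 := Real.sqrt_pos.2 (by norm_num)
  have h51 : 1 < Real.sqrt 5 := by
    rw [show (1 : ℝ) = Real.sqrt 1 by simp]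
    exact Real.sqrt_lt_sqrt (by norm_num) (by norm_num)
  have hn : (1 : ℝ) ≤ n := by exact_mod_cast h1
  have hm := abs_le.1 h2
  have hm1 : (m : ℝ) ≤ n := by exact_mod_cast hm.2
  have hm2 : -(n : ℝ) ≤ m := by exact_mod_cast hm.1
  have a1 : (m : ℝ) / Real.sqrt 5 < n := by
    rw [div_lt_iff₀ h0]
    nlinarith
  have a2 : -(n : ℝ) < (m : ℝ) / Real.sqrt 5 := by
    rw [lt_div_iff₀ h0]
    nlinarith
  refine ⟨by unfold uu; linarith, by unfold vv; linarith, ?_⟩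
  have e : (4 : ℝ) * (NN n m : ℝ) = 5 * (n : ℝ) ^ 2 - (m : ℝ) ^ 2 := by
    exact_mod_cast NN_four h3
  have e2 : ((m : ℝ) / Real.sqrt 5) ^ 2 = (m : ℝ) ^ 2 / 5 := by
    rw [div_pow, pow_two (Real.sqrt 5), h5]
  unfold uu vv
  linear_combination (-5 / 4 : ℝ) * e2 - (1 / 4 : ℝ) * e

theorem B7_inj {n n' : ℕ} {m m' : ℤ} (h1 : uu n m = uu n' m') (h2 : vv n m = vv n' m') :
    n = n' ∧ m = m' := by
  have h0 : Real.sqrt 5 ≠ 0 := B5_sqrt_ne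
  unfold uu at h1
  unfold vv at h2
  have e1 : (n : ℝ) = n' := by linarith
  have e2 : (m : ℝ) / Real.sqrt 5 = (m' : ℝ) / Real.sqrt 5 := by linarith
  have e3 : (m : ℝ) = m' := by
    have := congrArg (fun x => x * Real.sqrt 5) e2
    simpa [div_mul_cancel₀, h0] using this
  exact ⟨by exact_mod_cast e1, by exact_mod_cast e3⟩

/-- the reference family -/
noncomputable def B7_G (K : ℕ) (β : ℕ → ℝ) (y : ℝ) (j : (ℕ × (ℕ × ℤ)) × ℤ) : ℝ :=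
  (if 1 ≤ j.1.1 then ((j.1.1 : ℝ)⁻¹) ^ K else 0) *
    (if 1 ≤ j.1.2.1 ∧ |j.1.2.2| ≤ (j.1.2.1 : ℤ) ∧ (2 : ℤ) ∣ (j.1.2.1 : ℤ) - j.1.2.2 then
        β (NN j.1.2.1 j.1.2.2).toNat * ((NN j.1.2.1 j.1.2.2 : ℝ)⁻¹) ^ K else 0) *
    ((5 * y⁻¹) ^ K * ((j.1.1 * uu j.1.2.1 j.1.2.2 * y * rho ^ j.2) ^ K *
      Real.exp (-(2 * Real.pi * (j.1.1 * uu j.1.2.1 j.1.2.2 * y * rho ^ j.2)))))

theorem B7_summable (K : ℕ) (hK : 2 ≤ K) (β : ℕ → ℝ) (hβ : ∀ j, 0 ≤ β j)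
    (h : Summable fun i : ℕ × ℤ =>
      if 1 ≤ i.1 ∧ |i.2| ≤ (i.1 : ℤ) ∧ (2 : ℤ) ∣ (i.1 : ℤ) - i.2 then
        β (NN i.1 i.2).toNat * ((NN i.1 i.2 : ℝ)⁻¹) ^ K else 0) (y : ℝ) (hy : 0 < y) :
    Summable (B7_G K β y) := by
  obtain ⟨C, hC, hg⟩ := geom_sum K (by omega)
  have hr : Summable fun r : ℕ => if 1 ≤ r then ((r : ℝ)⁻¹) ^ K else 0 := by
    have h1 : Summable fun r : ℕ => ((r : ℝ) ^ K)⁻¹ := Real.summable_nat_pow_inv.2 (by omega)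
    refine h1.congr fun r => ?_
    by_cases h2 : 1 ≤ r
    · rw [if_pos h2, inv_pow]
    · have : r = 0 := by omega
      subst this
      simp [show K ≠ 0 by omega]
  have hb0 : ∀ i : ℕ × ℤ, 0 ≤ (if 1 ≤ i.1 ∧ |i.2| ≤ (i.1 : ℤ) ∧ (2 : ℤ) ∣ (i.1 : ℤ) - i.2 then
        β (NN i.1 i.2).toNat * ((NN i.1 i.2 : ℝ)⁻¹) ^ K else 0) := by
    intro i
    split_ifs with hc
    · obtain ⟨a1, a2, a3⟩ := B7_box hc.1 hc.2.1 hc.2.2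
      have : 0 < (NN i.1 i.2 : ℝ) := by rw [← a3]; positivity
      have := hβ (NN i.1 i.2).toNat
      positivity
    · exact le_rfl
  have hr0 : ∀ r : ℕ, 0 ≤ (if 1 ≤ r then ((r : ℝ)⁻¹) ^ K else 0) := by
    intro r
    split_ifs
    · positivity
    · exact le_rfl
  have hprod := hr.mul_of_nonneg h hr0 hb0
  have hnn : ∀ j, 0 ≤ B7_G K β y j := by
    intro j
    unfold B7_G
    by_cases hc : 1 ≤ j.1.2.1 ∧ |j.1.2.2| ≤ (j.1.2.1 : ℤ) ∧ (2 : ℤ) ∣ (j.1.2.1 : ℤ) - j.1.2.2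
    · obtain ⟨a1, a2, a3⟩ := B7_box hc.1 hc.2.1 hc.2.2
      have := B5_rho_pos
      exact mul_nonneg (mul_nonneg (hr0 _) (hb0 _)) (by positivity)
    · rw [if_neg hc]
      simp
  refine (summable_prod_of_nonneg hnn).2 ⟨?_, ?_⟩
  · rintro ⟨r, i⟩
    by_cases hc : 1 ≤ r ∧ (1 ≤ i.1 ∧ |i.2| ≤ (i.1 : ℤ) ∧ (2 : ℤ) ∣ (i.1 : ℤ) - i.2)
    · obtain ⟨a1, a2, a3⟩ := B7_box hc.2.1 hc.2.2.1 hc.2.2.2
      have hr1 : (1 : ℝ) ≤ r := by exact_mod_cast hc.1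
      have hx : 0 < (r : ℝ) * uu i.1 i.2 * y := by positivity
      unfold B7_G
      simp only
      exact ((hg _ hx).1.mul_left _).mul_left _
    · have : (fun t : ℤ => B7_G K β y ((r, i), t)) = fun _ => 0 := by
        funext t
        unfold B7_G
        rcases not_and_or.1 hc with h1 | h1
        · simp only
          rw [if_neg h1]
          simp
        · simp only
          rw [if_neg h1]
          simp
      rw [this]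
      exact summable_zero
  · refine Summable.of_nonneg_of_le (fun x => tsum_nonneg fun t => hnn _) (fun x => ?_)
      (hprod.mul_left ((5 * y⁻¹) ^ K * C))
    obtain ⟨r, i⟩ := x
    by_cases hc : 1 ≤ r ∧ (1 ≤ i.1 ∧ |i.2| ≤ (i.1 : ℤ) ∧ (2 : ℤ) ∣ (i.1 : ℤ) - i.2)
    · obtain ⟨a1, a2, a3⟩ := B7_box hc.2.1 hc.2.2.1 hc.2.2.2
      have hr1 : (1 : ℝ) ≤ r := by exact_mod_cast hc.1
      have hx : 0 < (r : ℝ) * uu i.1 i.2 * y := by positivity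
      unfold B7_G
      simp only
      rw [tsum_mul_left, tsum_mul_left]
      have h1 := (hg _ hx).2
      have h2 : 0 ≤ (if 1 ≤ r then ((r : ℝ)⁻¹) ^ K else 0) *
        (if 1 ≤ i.1 ∧ |i.2| ≤ (i.1 : ℤ) ∧ (2 : ℤ) ∣ (i.1 : ℤ) - i.2 then
        β (NN i.1 i.2).toNat * ((NN i.1 i.2 : ℝ)⁻¹) ^ K else 0) := mul_nonneg (hr0 r) (hb0 i)
      have h3 : 0 ≤ (5 * y⁻¹) ^ K := by positivity
      calc _ ≤ ((if 1 ≤ r then ((r : ℝ)⁻¹) ^ K else 0) *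
        (if 1 ≤ i.1 ∧ |i.2| ≤ (i.1 : ℤ) ∧ (2 : ℤ) ∣ (i.1 : ℤ) - i.2 then
        β (NN i.1 i.2).toNat * ((NN i.1 i.2 : ℝ)⁻¹) ^ K else 0)) * ((5 * y⁻¹) ^ K * C) :=
            mul_le_mul_of_nonneg_left (mul_le_mul_of_nonneg_left h1 h3) h2
        _ = _ := by ring
    · have h0 : ∀ t : ℤ, B7_G K β y ((r, i), t) = 0 := by
        intro t
        unfold B7_G
        rcases not_and_or.1 hc with h1 | h1
        · simp only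
          rw [if_neg h1]
          simp
        · simp only
          rw [if_neg h1]
          simp
      simp only [h0, tsum_zero]
      exact mul_nonneg (by positivity) (mul_nonneg (hr0 r) (hb0 i))

theorem triple_summable (k : ℕ) (hk : 4 ≤ k) (β : ℕ → ℝ) (hβ : ∀ j, 0 ≤ β j)
    (h : Summable fun i : ℕ × ℤ =>
      if 1 ≤ i.1 ∧ |i.2| ≤ (i.1 : ℤ) ∧ (2 : ℤ) ∣ (i.1 : ℤ) - i.2 then
        β (NN i.1 i.2).toNat * ((NN i.1 i.2 : ℝ)⁻¹) ^ (k - 1) else 0) (y : ℝ) (hy : 0 < y) :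
    Summable fun i : ℕ × ℕ × ℤ =>
      if 1 ≤ i.1 ∧ i.2.2 ^ 2 < 5 * (i.2.1 : ℤ) ^ 2 ∧ (2 : ℤ) ∣ (i.2.1 : ℤ) - i.2.2 then
        β (NN i.2.1 i.2.2).toNat * (vv i.2.1 i.2.2)⁻¹ ^ (k - 1) *
          Real.exp (-(2 * Real.pi * (i.1 * uu i.2.1 i.2.2) * y)) else 0 := by
  have hG := B7_summable (k - 1) (by omega) β hβ h y hy
  set S : Set (ℕ × ℕ × ℤ) :=
    {i | 1 ≤ i.1 ∧ i.2.2 ^ 2 < 5 * (i.2.1 : ℤ) ^ 2 ∧ (2 : ℤ) ∣ (i.2.1 : ℤ) - i.2.2} with hS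
  have hex : ∀ i : S, ∃ z : ℤ × ℕ × ℤ, 1 ≤ z.2.1 ∧ |z.2.2| ≤ (z.2.1 : ℤ) ∧
      (2 : ℤ) ∣ (z.2.1 : ℤ) - z.2.2 ∧ uu i.1.2.1 i.1.2.2 = rho ^ z.1 * uu z.2.1 z.2.2 ∧
      vv i.1.2.1 i.1.2.2 = rho ^ (-z.1) * vv z.2.1 z.2.2 ∧
      NN i.1.2.1 i.1.2.2 = NN z.2.1 z.2.2 := by
    intro i
    obtain ⟨t, n₀, m₀, a⟩ := unit_red i.1.2.1 i.1.2.2 i.2.2.1 i.2.2.2
    exact ⟨(t, n₀, m₀), a⟩
  choose z hz using hex
  set Φ : S → (ℕ × (ℕ × ℤ)) × ℤ := fun i => ((i.1.1, ((z i).2.1, (z i).2.2)), (z i).1) with hΦ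
  have hinj : Function.Injective Φ := by
    intro i j hij
    simp only [hΦ, Prod.mk.injEq] at hij
    obtain ⟨⟨e1, e2, e3⟩, e4⟩ := hij
    obtain ⟨-, -, -, b1, b2, -⟩ := hz i
    obtain ⟨-, -, -, c1, c2, -⟩ := hz j
    rw [e2, e3, e4] at b1 b2
    obtain ⟨f1, f2⟩ := B7_inj (b1.trans c1.symm) (b2.trans c2.symm)
    exact Subtype.ext (Prod.ext e1 (Prod.ext f1 f2))
  have h1 := hG.comp_injective hinj
  rw [← (Subtype.val_injective (p := fun i => i ∈ S)).summable_iff]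
  · refine h1.congr fun i => ?_
    obtain ⟨d1, d2, d3, b1, b2, b3⟩ := hz i
    obtain ⟨a1, a2, a3⟩ := B7_box d1 d2 d3
    have hi : 1 ≤ (i : ℕ × ℕ × ℤ).1 ∧ (i : ℕ × ℕ × ℤ).2.2 ^ 2 < 5 * ((i : ℕ × ℕ × ℤ).2.1 : ℤ) ^ 2 ∧
      (2 : ℤ) ∣ ((i : ℕ × ℕ × ℤ).2.1 : ℤ) - (i : ℕ × ℕ × ℤ).2.2 := i.2
    simp only [Function.comp_apply, hΦ]
    rw [if_pos hi]
    unfold B7_G
    simp only
    rw [if_pos hi.1, if_pos ⟨d1, d2, d3⟩, b1, b2, b3, ← a3]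
    have hr1 : (1 : ℝ) ≤ ((i : ℕ × ℕ × ℤ).1 : ℝ) := by exact_mod_cast hi.1
    have hr2 : (((i : ℕ × ℕ × ℤ).1 : ℝ)) ≠ 0 := by positivity
    have hρ := B5_rho_pos
    have hρt : rho ^ (z i).1 ≠ 0 := (zpow_pos hρ _).ne'
    have e1 : Real.exp (-(2 * Real.pi * (((i : ℕ × ℕ × ℤ).1 : ℝ) * uu (z i).2.1 (z i).2.2 * y *
        rho ^ (z i).1))) = Real.exp (-(2 * Real.pi * (((i : ℕ × ℕ × ℤ).1 : ℝ) *
          (rho ^ (z i).1 * uu (z i).2.1 (z i).2.2)) * y)) := by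
      congr 1
      ring
    rw [e1, zpow_neg]
    have e2 : ((((i : ℕ × ℕ × ℤ).1 : ℝ))⁻¹) ^ (k - 1) *
        ((5 * (uu (z i).2.1 (z i).2.2 * vv (z i).2.1 (z i).2.2))⁻¹) ^ (k - 1) *
        ((5 * y⁻¹) ^ (k - 1) * (((i : ℕ × ℕ × ℤ).1 : ℝ) * uu (z i).2.1 (z i).2.2 * y *
        rho ^ (z i).1) ^ (k - 1)) = (((rho ^ (z i).1)⁻¹ * vv (z i).2.1 (z i).2.2)⁻¹) ^ (k - 1) := by
      rw [← mul_pow, ← mul_pow, ← mul_pow]
      congr 1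
      field_simp
    rw [← e2]
    ring
  · intro i hi
    have hc : ¬ (1 ≤ i.1 ∧ i.2.2 ^ 2 < 5 * (i.2.1 : ℤ) ^ 2 ∧ (2 : ℤ) ∣ (i.2.1 : ℤ) - i.2.2) := by
      intro hc
      exact hi ⟨⟨i, hc⟩, rfl⟩
    rw [if_neg hc]

end H94M
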