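import Pool.Agent.Lib.H94M.B7
import Pool.Agent.Lib.H94M.B2
import Pool.Agent.Lib.H94M.B3

/-!
# H94M, chunk B8 (M): the family of `bc` is absolutely convergent, the array `bc` is an `ArrN`

PROOF. `fam_bc`: positivity of `U, V` from `bc_supp` and H53M/X10 `facts`. Summability: for a finite
set `S` of `(n,m)`, by `bc_eq`, `|chi5| ≤ 1` (`chi5_abs`), `NN_div`, `bdiv_facts`:
`‖bc n m‖ (vv n m)^{-(k-1)} exp(-2π uu n m y) ≤ Σ_{r ∈ bdiv} β(NN (n/r) (m/r)) (vv (n/r) (m/r))^{-(k-1)}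
exp(-2π r uu(n/r)(m/r) y)` (`uu n m = r uu(n/r)(m/r)`, the same for `vv`), and the map
`((n,m), r) ↦ (r, n/r, m/r)` is injective on the pairs (`n = r (n/r)`): the sum over `S` is at most
the `tsum` of `triple_summable` (`summable_of_sum_le`, `Finset.sum_sigma`, `Finset.sum_image`,
`Summable.sum_le_tsum`). Note `NN (n/r) (m/r) > 0` and `(m/r)² < 5 (n/r)²` there.
`arrN_bc`: supp (`bc_supp`), bound (Hecke: `|a j| ≤ C j^(k/2)`, from `CuspFormClass.qExpansion_isBigO`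
(with `strictWidthInfty_Gamma0 = 1`, `k/2` even natural, a 0 = 0) or from `hecke_L2` at `y = 1/j`;
`|bc n m| ≤ Σ_{r} r^(k-1) C (NN/r²)^(k/2) ≤ C n² NN^(k/2)`), symm (`bc_symm`), ne (`bc_one`), trans =
hypothesis (`bc_cast`).
-/

namespace H94M

open H53M UpperHalfPlane

private theorem b8_uu {n : ℕ} {m : ℤ} {r n1 : ℕ} {m1 : ℤ} (h : n = r * n1) (h' : m = r * m1) :
    uu n m = r * uu n1 m1 ∧ vv n m = r * vv n1 m1 := by
  subst h
  subst h'
  unfold uu vv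
  push_cast
  constructor <;> ring

/-- Facts on the divisors occurring in the support. -/
private theorem b8_facts {N n : ℕ} {m : ℤ} (hn : 0 < n) (h1 : m ^ 2 < 5 * (n : ℤ) ^ 2)
    {r : ℕ} (hr : r ∈ bdiv N n m) :
    0 < r ∧ (m / (r : ℤ)) ^ 2 < 5 * ((n / r : ℕ) : ℤ) ^ 2 ∧
      (2 : ℤ) ∣ ((n / r : ℕ) : ℤ) - m / (r : ℤ) ∧ n = r * (n / r) ∧ m = r * (m / (r : ℤ)) := by
  obtain ⟨hr0, e1, e2, h3, -, -⟩ := bdiv_facts hn hr
  refine ⟨hr0, ?_, h3, e1, e2⟩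
  by_contra hc
  push Not at hc
  have h4 : (5 * (n : ℤ) ^ 2) ≤ m ^ 2 := by
    have e1' : (n : ℤ) = r * ((n / r : ℕ) : ℤ) := by exact_mod_cast e1
    calc 5 * (n : ℤ) ^ 2 = (r : ℤ) ^ 2 * (5 * ((n / r : ℕ) : ℤ) ^ 2) := by
          conv_lhs => rw [e1']
          ring
      _ ≤ (r : ℤ) ^ 2 * (m / (r : ℤ)) ^ 2 := mul_le_mul_of_nonneg_left hc (by positivity)
      _ = m ^ 2 := by
          conv_rhs => rw [e2]
          ring
  omega

/-- The bound for `|bc|`. -/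
private theorem b8_abs (N k : ℕ) (a : ℕ → ℤ) (n : ℕ) (m : ℤ) :
    |((bc N k a n m : ℤ) : ℝ)| ≤ ∑ r ∈ bdiv N n m, (r : ℝ) ^ (k - 1) *
      |(a (NN (n / r) (m / (r : ℤ))).toNat : ℝ)| := by
  rw [bc_eq]
  split_ifs with h
  · rw [Int.cast_sum]
    refine (Finset.abs_sum_le_sum_abs _ _).trans (Finset.sum_le_sum fun r _ => ?_)
    rw [Int.cast_mul, abs_mul, Int.cast_id]
    refine mul_le_mul_of_nonneg_right ?_ (abs_nonneg _)
    rw [Int.cast_mul, abs_mul]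
    have h1 : |((chi5 (r : ℤ) : ℤ) : ℝ)| ≤ 1 := by exact_mod_cast chi5_abs (r : ℤ)
    have h2 : |(((r : ℤ) ^ (k - 1) : ℤ) : ℝ)| = (r : ℝ) ^ (k - 1) := by
      push_cast
      exact abs_of_nonneg (by positivity)
    rw [h2]
    exact mul_le_of_le_one_left (by positivity) h1
  · rw [Int.cast_zero, abs_zero]
    exact Finset.sum_nonneg fun r _ => by positivity

/-- the terms of `triple_summable` -/
private noncomputable def b8t (k : ℕ) (β : ℕ → ℝ) (y : ℝ) (i : ℕ × ℕ × ℤ) : ℝ :=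
  if 1 ≤ i.1 ∧ i.2.2 ^ 2 < 5 * (i.2.1 : ℤ) ^ 2 ∧ (2 : ℤ) ∣ (i.2.1 : ℤ) - i.2.2 then
    β (NN i.2.1 i.2.2).toNat * (vv i.2.1 i.2.2)⁻¹ ^ (k - 1) *
      Real.exp (-(2 * Real.pi * (i.1 * uu i.2.1 i.2.2) * y)) else 0

private theorem b8_vv {n : ℕ} {m : ℤ} (h1 : m ^ 2 < 5 * (n : ℤ) ^ 2)
    (h2 : (2 : ℤ) ∣ (n : ℤ) - m) : 0 < uu n m ∧ 0 < vv n m := by
  have hs : X.Sp (fun n' m' => if n' = n ∧ m' = m then 1 else 0) := by
    intro n' m' h
    by_cases hc : n' = n ∧ m' = m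
    · obtain ⟨rfl, rfl⟩ := hc
      exact ⟨h1, even_iff_two_dvd.2 h2⟩
    · exact absurd (if_neg hc) h
  have hne : (fun (n' : ℕ) (m' : ℤ) => if n' = n ∧ m' = m then (1 : ℤ) else 0) n m ≠ 0 := by
    simp
  obtain ⟨h3, h4, -⟩ := X.facts hs hne
  exact ⟨h3, h4⟩

private theorem b8t_nonneg (k : ℕ) (β : ℕ → ℝ) (hβ : ∀ j, 0 ≤ β j) (y : ℝ) (i : ℕ × ℕ × ℤ) :
    0 ≤ b8t k β y i := by
  unfold b8t
  split_ifs with h
  · have := (b8_vv h.2.1 h.2.2).2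
    exact mul_nonneg (mul_nonneg (hβ _) (pow_nonneg (inv_nonneg.mpr this.le) _))
      (Real.exp_pos _).le
  · exact le_rfl

private theorem b8_term (N k : ℕ) (a : ℕ → ℤ) {n : ℕ} {m : ℤ} (h : bc N k a n m ≠ 0) (y : ℝ) :
    ‖((bc N k a n m : ℤ) : ℂ)‖ * (vv n m)⁻¹ ^ (k - 1) * Real.exp (-(2 * Real.pi * uu n m * y)) ≤
      ∑ r ∈ bdiv N n m, b8t k (fun j => |(a j : ℝ)|) y (r, n / r, m / (r : ℤ)) := by
  obtain ⟨h1, h2⟩ := bc_supp h
  have h2' : (2 : ℤ) ∣ (n : ℤ) - m := even_iff_two_dvd.1 h2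
  have hn : 0 < n := by
    rcases Nat.eq_zero_or_pos n with h0 | h0
    · subst h0
      have := sq_nonneg m
      simp only [Nat.cast_zero] at h1
      omega
    · exact h0
  have hv := (b8_vv h1 h2').2
  rw [Complex.norm_intCast]
  have h3 : 0 ≤ (vv n m)⁻¹ ^ (k - 1) * Real.exp (-(2 * Real.pi * uu n m * y)) :=
    mul_nonneg (pow_nonneg (inv_nonneg.mpr hv.le) _) (Real.exp_pos _).le
  rw [mul_assoc]
  refine (mul_le_mul_of_nonneg_right (b8_abs N k a n m) h3).trans (le_of_eq ?_)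
  rw [Finset.sum_mul]
  refine Finset.sum_congr rfl fun r hr => ?_
  obtain ⟨hr0, f1, f2, f3, f4⟩ := b8_facts hn h1 hr
  unfold b8t
  rw [if_pos ⟨hr0, f1, f2⟩]
  simp only
  obtain ⟨e1, e2⟩ := b8_uu f3 f4
  have hr' : (r : ℝ) ≠ 0 := by exact_mod_cast hr0.ne'
  rw [e1, e2, mul_inv, mul_pow, inv_pow (r : ℝ)]
  have h5 : (r : ℝ) ^ (k - 1) ≠ 0 := pow_ne_zero _ hr'
  have h6 : (-(2 * Real.pi * ((r : ℝ) * uu (n / r) (m / (r : ℤ))) * y)) =
      -(2 * Real.pi * ((r : ℝ) * uu (n / r) (m / (r : ℤ))) * y) := rfl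
  field_simp

theorem fam_bc (N k : ℕ) [NeZero N] (hk : 4 ≤ k) (f : CuspForm (G0 N) (k : ℤ)) (a : ℕ → ℤ)
    (ha : ∀ n, PowerSeries.coeff n (qExpansion 1 (f : ℍ → ℂ)) = (a n : ℂ)) :
    X.Fam (k - 1) (X.cc (bc N k a)) X.U X.V := by
  classical
  have hβ : ∀ j, (0 : ℝ) ≤ |(a j : ℝ)| := fun j => abs_nonneg _
  obtain ⟨C, hC⟩ := hecke_L2 N k f
  have hnorm : ∀ j, ‖PowerSeries.coeff j (qExpansion 1 (f : ℍ → ℂ))‖ = |(a j : ℝ)| := by
    intro j
    rw [ha, Complex.norm_intCast]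
  simp only [hnorm] at hC
  have h1 := rpow_summable k (fun j => |(a j : ℝ)| ^ 2) (fun j => by positivity) C hC
  have h2 := box_summable k hk (fun j => |(a j : ℝ)|) hβ h1
  refine ⟨?_, ?_⟩
  · intro i hi
    have h3 : bc N k a i.1 i.2 ≠ 0 := by
      intro h0
      apply hi
      unfold X.cc
      rw [h0]
      simp
    obtain ⟨h4, h5⟩ := bc_supp h3
    exact b8_vv h4 (even_iff_two_dvd.1 h5)
  · intro y hy
    have h3 := triple_summable k hk (fun j => |(a j : ℝ)|) hβ h2 y hy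
    have h3' : Summable (b8t k (fun j => |(a j : ℝ)|) y) := h3
    have hnn : ∀ i : X.Idx, 0 ≤ ‖X.cc (bc N k a) i‖ * (X.V i)⁻¹ ^ (k - 1) *
        Real.exp (-(2 * Real.pi * X.U i * y)) := by
      intro i
      by_cases h0 : bc N k a i.1 i.2 = 0
      · unfold X.cc
        rw [h0]
        simp
      · obtain ⟨h4, h5⟩ := bc_supp h0
        have h6 := (b8_vv h4 (even_iff_two_dvd.1 h5)).2
        exact mul_nonneg (mul_nonneg (norm_nonneg _) (pow_nonneg (inv_nonneg.mpr h6.le) _))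
          (Real.exp_pos _).le
    refine summable_of_sum_le (c := ∑' i, b8t k (fun j => |(a j : ℝ)|) y i) hnn ?_
    intro S
    set S' := S.filter (fun i => bc N k a i.1 i.2 ≠ 0) with hS'
    have e1 : ∑ i ∈ S, ‖X.cc (bc N k a) i‖ * (X.V i)⁻¹ ^ (k - 1) *
        Real.exp (-(2 * Real.pi * X.U i * y)) =
        ∑ i ∈ S', ‖X.cc (bc N k a) i‖ * (X.V i)⁻¹ ^ (k - 1) *
        Real.exp (-(2 * Real.pi * X.U i * y)) := by
      rw [hS', Finset.sum_filter]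
      refine Finset.sum_congr rfl fun i _ => ?_
      split_ifs with h0
      · rfl
      · have h0' : bc N k a i.1 i.2 = 0 := not_not.mp h0
        unfold X.cc
        rw [h0']
        simp
    rw [e1]
    have e2 : ∑ i ∈ S', ‖X.cc (bc N k a) i‖ * (X.V i)⁻¹ ^ (k - 1) *
        Real.exp (-(2 * Real.pi * X.U i * y)) ≤
        ∑ i ∈ S', ∑ r ∈ bdiv N i.1 i.2,
          b8t k (fun j => |(a j : ℝ)|) y (r, i.1 / r, i.2 / (r : ℤ)) := by
      refine Finset.sum_le_sum fun i hi => ?_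
      exact b8_term N k a (Finset.mem_filter.mp hi).2 y
    refine e2.trans ?_
    rw [Finset.sum_sigma']
    set φ : (Σ _ : X.Idx, ℕ) → ℕ × ℕ × ℤ := fun x => (x.2, x.1.1 / x.2, x.1.2 / (x.2 : ℤ)) with hφ
    have hfact : ∀ x ∈ S'.sigma (fun i => bdiv N i.1 i.2),
        x.1.1 = x.2 * (x.1.1 / x.2) ∧ x.1.2 = (x.2 : ℤ) * (x.1.2 / (x.2 : ℤ)) := by
      intro x hx
      rw [Finset.mem_sigma, hS', Finset.mem_filter] at hx
      obtain ⟨⟨-, hx1⟩, hx2⟩ := hx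
      obtain ⟨h4, h5⟩ := bc_supp hx1
      have hn : 0 < x.1.1 := by
        rcases Nat.eq_zero_or_pos x.1.1 with h0 | h0
        · rw [h0] at h4
          have := sq_nonneg x.1.2
          simp only [Nat.cast_zero] at h4
          omega
        · exact h0
      obtain ⟨-, -, -, f3, f4⟩ := b8_facts hn h4 hx2
      exact ⟨f3, f4⟩
    have hinj : Set.InjOn φ (S'.sigma (fun i => bdiv N i.1 i.2)) := by
      intro x hx x' hx' he
      obtain ⟨f1, f2⟩ := hfact x hx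
      obtain ⟨f1', f2'⟩ := hfact x' hx'
      rw [hφ] at he
      simp only [Prod.mk.injEq] at he
      obtain ⟨g1, g2, g3⟩ := he
      have e3 : x.1.1 = x'.1.1 := by rw [f1, f1', g2, g1]
      have e4 : x.1.2 = x'.1.2 := by rw [f2, f2', g3, g1]
      obtain ⟨⟨n, m⟩, r⟩ := x
      obtain ⟨⟨n', m'⟩, r'⟩ := x'
      simp only at e3 e4 g1
      subst e3
      subst e4
      subst g1
      rfl
    have e3 : ∑ x ∈ S'.sigma (fun i => bdiv N i.1 i.2),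
        b8t k (fun j => |(a j : ℝ)|) y (x.2, x.1.1 / x.2, x.1.2 / (x.2 : ℤ)) =
        ∑ z ∈ (S'.sigma (fun i => bdiv N i.1 i.2)).image φ,
          b8t k (fun j => |(a j : ℝ)|) y z := by
      rw [Finset.sum_image hinj]
    rw [e3]
    exact h3'.sum_le_tsum _ fun i _ => b8t_nonneg k _ hβ y i

/-- Hecke's bound. -/
private theorem b8_hecke (N k : ℕ) [NeZero N] (hke : Even k) (f : CuspForm (G0 N) (k : ℤ))
    (a : ℕ → ℤ) (ha : ∀ n, PowerSeries.coeff n (qExpansion 1 (f : ℍ → ℂ)) = (a n : ℂ)) :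
    ∃ C : ℝ, 0 ≤ C ∧ ∀ j : ℕ, 0 < j → |(a j : ℝ)| ≤ C * (j : ℝ) ^ (k / 2) := by
  obtain ⟨C, hC⟩ := hecke_L2 N k f
  refine ⟨Real.sqrt (|C| * Real.exp (4 * Real.pi)), Real.sqrt_nonneg _, ?_⟩
  intro j hj
  have hj' : (0 : ℝ) < j := by exact_mod_cast hj
  obtain ⟨hs, hle⟩ := hC ((j : ℝ)⁻¹) (by positivity)
  have h1 := hs.le_tsum j fun i _ => by positivity
  rw [ha, Complex.norm_intCast] at h1
  have e1 : 4 * Real.pi * (j : ℝ) * (j : ℝ)⁻¹ = 4 * Real.pi := by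
    rw [mul_assoc, mul_inv_cancel₀ hj'.ne', mul_one]
  rw [e1] at h1
  rw [inv_inv] at hle
  have h2 : |(a j : ℝ)| ^ 2 * Real.exp (-(4 * Real.pi)) ≤ |C| * (j : ℝ) ^ k :=
    (h1.trans hle).trans (mul_le_mul_of_nonneg_right (le_abs_self C) (by positivity))
  have h3 : |(a j : ℝ)| ^ 2 ≤ |C| * Real.exp (4 * Real.pi) * (j : ℝ) ^ k := by
    rw [Real.exp_neg, ← div_eq_mul_inv, div_le_iff₀ (Real.exp_pos _)] at h2
    linarith
  have h4 : |C| * Real.exp (4 * Real.pi) * (j : ℝ) ^ k =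
      (Real.sqrt (|C| * Real.exp (4 * Real.pi)) * (j : ℝ) ^ (k / 2)) ^ 2 := by
    rw [mul_pow, Real.sq_sqrt (by positivity), ← pow_mul]
    congr 2
    obtain ⟨l, hl⟩ := hke
    omega
  rw [h4] at h3
  exact le_of_pow_le_pow_left₀ two_ne_zero (by positivity) h3

theorem bound_bc (N k : ℕ) [NeZero N] (hk : 4 ≤ k) (hke : Even k) (f : CuspForm (G0 N) (k : ℤ))
    (a : ℕ → ℤ) (ha : ∀ n, PowerSeries.coeff n (qExpansion 1 (f : ℍ → ℂ)) = (a n : ℂ)) :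
    ∃ C : ℝ, ∀ n m, bc N k a n m ≠ 0 →
      |((bc N k a n m : ℤ) : ℝ)| ≤ C * (n : ℝ) ^ 4 * (NN n m : ℝ) ^ (k / 2) := by
  obtain ⟨C, hC0, hC⟩ := b8_hecke N k hke f a ha
  refine ⟨C, fun n m h => ?_⟩
  obtain ⟨h1, h2⟩ := bc_supp h
  have h2' : (2 : ℤ) ∣ (n : ℤ) - m := even_iff_two_dvd.1 h2
  have hn : 0 < n := by
    rcases Nat.eq_zero_or_pos n with h0 | h0
    · subst h0
      have := sq_nonneg m
      simp only [Nat.cast_zero] at h1
      omega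
    · exact h0
  have hNN := NN_pos' h1 h2'
  have hNN' : (0 : ℝ) < (NN n m : ℝ) := by exact_mod_cast hNN
  refine (b8_abs N k a n m).trans ?_
  have h3 : ∀ r ∈ bdiv N n m, (r : ℝ) ^ (k - 1) *
      |(a (NN (n / r) (m / (r : ℤ))).toNat : ℝ)| ≤ C * (NN n m : ℝ) ^ (k / 2) := by
    intro r hr
    obtain ⟨hr0, f1, f2, f3, f4⟩ := b8_facts hn h1 hr
    have hr1 : (1 : ℝ) ≤ r := by exact_mod_cast hr0
    have h4 : 0 < NN (n / r) (m / (r : ℤ)) := NN_pos' f1 f2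
    have h5 := NN_div hn hr
    obtain ⟨j, hj⟩ : ∃ j : ℕ, NN (n / r) (m / (r : ℤ)) = j :=
      ⟨_, (Int.toNat_of_nonneg h4.le).symm⟩
    rw [hj] at h4 h5 ⊢
    rw [Int.toNat_natCast]
    have hj0 : 0 < j := by exact_mod_cast h4
    have h6 : (NN n m : ℝ) = (r : ℝ) ^ 2 * j := by
      rw [h5]
      push_cast
      ring
    rw [h6, mul_pow]
    have h7 : (r : ℝ) ^ (k - 1) ≤ ((r : ℝ) ^ 2) ^ (k / 2) := by
      rw [← pow_mul]
      refine pow_le_pow_right₀ hr1 ?_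
      obtain ⟨l, hl⟩ := hke
      omega
    calc (r : ℝ) ^ (k - 1) * |(a j : ℝ)| ≤ ((r : ℝ) ^ 2) ^ (k / 2) * (C * (j : ℝ) ^ (k / 2)) :=
          mul_le_mul h7 (hC j hj0) (abs_nonneg _) (by positivity)
      _ = C * (((r : ℝ) ^ 2) ^ (k / 2) * (j : ℝ) ^ (k / 2)) := by ring
  refine (Finset.sum_le_sum h3).trans ?_
  rw [Finset.sum_const, nsmul_eq_mul]
  have h4 : ((bdiv N n m).card : ℝ) ≤ (n : ℝ) ^ 4 := by
    have h5 : (bdiv N n m).card ≤ n := by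
      unfold bdiv
      refine (Finset.card_filter_le _ _).trans ?_
      exact (Nat.card_divisors_le_self _).trans (Nat.le_of_dvd hn (Nat.gcd_dvd_left _ _))
    have h6 : n ≤ n ^ 4 := Nat.le_self_pow (by norm_num) n
    exact_mod_cast h5.trans h6
  calc ((bdiv N n m).card : ℝ) * (C * (NN n m : ℝ) ^ (k / 2))
      ≤ (n : ℝ) ^ 4 * (C * (NN n m : ℝ) ^ (k / 2)) :=
        mul_le_mul_of_nonneg_right h4 (by positivity)
    _ = C * (n : ℝ) ^ 4 * (NN n m : ℝ) ^ (k / 2) := by ring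

theorem arrN_bc (N k : ℕ) [NeZero N] (hk : 4 ≤ k) (hke : Even k) (f : CuspForm (G0 N) (k : ℤ))
    (a : ℕ → ℤ) (ha : ∀ n, PowerSeries.coeff n (qExpansion 1 (f : ℍ → ℂ)) = (a n : ℂ))
    (h1 : a 1 ≠ 0) (ht : DTrans N k (GS (bc N k (fun n => (a n : ℂ))))) :
    ArrN N k (bc N k a) where
  supp := fun _ _ h => bc_supp h
  bound := bound_bc N k hk hke f a ha
  fam := fam_bc N k hk f a ha
  symm := fun n m => bc_symm N k a n m
  trans := by
    have e : (fun n m => ((bc N k a n m : ℤ) : ℂ)) = bc N k (fun n => (a n : ℂ)) := by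
      funext n m
      exact bc_cast N k a n m
    rw [e]
    exact ht
  ne := by
    rw [bc_one]
    exact h1

end H94M
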