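import Pool.Agent.Lib.H94M.PFin
import Pool.Agent.Lib.H94M.TR

set_option autoImplicit false

/-!
# H94M: final form
-/

namespace H94M

open UpperHalfPlane H53M NumberField Filter Topology

/-- From `Tendsto` to `LO`. -/
theorem LO_of_tendsto {S : ℕ → Prop}
    (h : Tendsto (fun X : ℕ => ({p : ℕ | p ≤ X ∧ p.Prime ∧ S p}.ncard : ℝ) *
      Real.log X / Real.sqrt X) atTop (𝓝 0)) : LO S := by
  intro ε hε
  have h1 := h.eventually (gt_mem_nhds hε)
  obtain ⟨X₀, hX₀⟩ := eventually_atTop.1 (h1.and (eventually_ge_atTop 1))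
  refine ⟨X₀, fun X hX => ?_⟩
  obtain ⟨h2, h3⟩ := hX₀ X hX
  have hs : 0 < Real.sqrt (X : ℝ) := Real.sqrt_pos.2 (by exact_mod_cast h3)
  rw [div_lt_iff₀ hs] at h2
  exact h2.le

theorem infinite_of_not_tendsto {S : Set ℕ}
    (h : ¬ Tendsto (fun X : ℕ => ({p : ℕ | p ≤ X ∧ p ∈ S}.ncard : ℝ) *
      Real.log X / Real.sqrt X) atTop (𝓝 0)) : S.Infinite := by
  intro hfin
  apply h
  have h1 : Tendsto (fun X : ℕ => (S.ncard : ℝ) * (Real.log X / Real.sqrt X)) atTop (𝓝 0) := by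
    have h2 : Tendsto (fun x : ℝ => Real.log x / Real.sqrt x) atTop (𝓝 0) := by
      have := (isLittleO_log_rpow_atTop (r := 1 / 2) (by norm_num)).tendsto_div_nhds_zero
      simpa [Real.sqrt_eq_rpow] using this
    have h3 := (h2.comp (tendsto_natCast_atTop_atTop (R := ℝ))).const_mul (S.ncard : ℝ)
    simpa using h3
  refine squeeze_zero' (Eventually.of_forall fun X => ?_) ?_ h1
  · have := Real.log_natCast_nonneg X
    positivity
  · refine Eventually.of_forall fun X => ?_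
    have h4 : {p : ℕ | p ≤ X ∧ p ∈ S}.ncard ≤ S.ncard :=
      Set.ncard_le_ncard (fun p hp => hp.2) hfin
    have h5 : (({p : ℕ | p ≤ X ∧ p ∈ S}.ncard : ℕ) : ℝ) ≤ S.ncard := by exact_mod_cast h4
    have h6 := Real.log_natCast_nonneg X
    rw [mul_div_assoc]
    exact mul_le_mul_of_nonneg_right h5 (div_nonneg h6 (Real.sqrt_nonneg _))

/-- **Theorem T for newforms with coefficients in a number field.** -/
theorem ordinaryE (N k : ℕ) [NeZero N] (hk : 4 ≤ k) (E : Type*) [Field E]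
    [NumberField E] (a : ℕ → 𝓞 E)
    (hf : ∀ σ : E →+* ℂ, ∃ f : CuspForm (G0 N) (k : ℤ),
      ∀ n, (qExpansion 1 (f : ℍ → ℂ)).coeff n = σ (a n))
    (h1 : a 1 = 1)
    (hH : ∀ p : ℕ, p.Prime → ¬ p ∣ N → ∀ n,
      a (p * n) = a p * a n - (if p ∣ n then (p : 𝓞 E) ^ (k - 1) * a (n / p) else 0)) :
    ¬ LO (fun p => ¬ p ∣ N ∧ ∃ (_ : Fact p.Prime) (τ : E →+* PadicAlgCl p) (x y : PadicAlgCl p),
      x + y = τ (a p) ∧ x * y = (p : PadicAlgCl p) ^ (k - 1) ∧ ‖x‖ = 1 ∧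
        ‖y‖ = (p : ℝ) ^ (-((k : ℤ) - 1))) :=
  ordinaryE_of stP N k hk E a hf h1 hH

end H94M
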