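import Pool.Agent.Lib.H94M.K4
import Pool.Agent.Lib.H94M.KE2
import Pool.Agent.Lib.H53M.KEV

/-!
# H94M, chunk K5: modularity of `M_ab = (E_{-E₂/12} E_{-E₂/12} T)_ab` under `Γ₀(N)`
-/

namespace H94M

open H53M

variable {N k : ℕ} {c : ℕ → ℤ → ℤ}

theorem K5_Cv (hA : ArrN N k c) (a b : ℕ) :
    Cv (low k (-(ktoC e2q)) (tser c) a b) := by
  exact Cv_low k (Cv_neg KE2_Cv) (fun a b => K3_tser hA a b) a b

theorem K5 (hk : 1 ≤ k) (hA : ArrN N k c) {A B C D : ℤ} (hdet : A * D - B * C = 1)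
    (hC : (N : ℤ) ∣ C) (a b : ℕ) (z : ℂ) (hz : 0 < z.im) :
    ev (low k (-(ktoC e2q)) (tser c) a b) ((A * z + B) / (C * z + D)) =
      (C * z + D) ^ (2 * k + 2 * a + 2 * b) * ev (low k (-(ktoC e2q)) (tser c) a b) z := by
  have hz' := mob_im_pos hdet hz
  obtain ⟨e, he⟩ : ∃ e, e = ev (ktoC e2q) z := ⟨_, rfl⟩
  obtain ⟨w, hw⟩ : ∃ w : ℂ, w = C * z + D := ⟨_, rfl⟩
  obtain ⟨s, hs⟩ : ∃ s : ℂ, s = C / (2 * Real.pi * Complex.I * (C * z + D)) := ⟨_, rfl⟩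
  rw [ev_low k (Cv_neg KE2_Cv) (fun a b => K3_tser hA a b) a b hz',
    ev_low k (Cv_neg KE2_Cv) (fun a b => K3_tser hA a b) a b hz, ev_neg KE2_Cv hz',
    ev_neg KE2_Cv hz, KE2_trans hdet z hz]
  have h1 : (fun a' b' => ev (tser c a' b') ((A * z + B) / (C * z + D))) = fun a' b' =>
      w ^ (2 * k + 2 * a' + 2 * b') * low k s (fun a' b' => GG c a' b' z z) a' b' := by
    funext a' b'
    rw [K3_ev hA a' b' _ hz', K4 hk hA hdet hC a' b' z hz, hs, hw]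
  have h2 : (fun a' b' => ev (tser c a' b') z) = fun a' b' => GG c a' b' z z := by
    funext a' b'
    exact K3_ev hA a' b' z hz
  rw [h1, h2, ← he, ← hs, ← hw]
  have h3 : -(w ^ 2 * (e + s)) = w ^ 2 * (-(e + s)) := by ring
  rw [h3, low_homog, low_low k hk]
  congr 2
  ring

end H94M
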