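import Pool.Agent.Lib.H94M.TS
import Pool.Agent.Lib.H53M.NP

/-!
# H94M: assembly of Part II for an abstract graded family (generic version of H53M, module N)

Everything for an arbitrary integral array `c` with the support condition `Sup c` and polynomial
growth: `sup_PI` (`h` is `p`-integral), `sup_eq` (`h` modulo `p`), `sup_DN_hser` (denominators), `sup_growth`, and
`rel_of_fam`: if the exceptional primes are `o(sqrt X / log X)` and the reductions of `h` modulo the other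
primes `p = 2 mod 5`, `p > 5` lie in graded families with a Sturm bound, then `Rel`.
-/

open Finset

namespace H94M

open PowerSeries H53M

/-- the support condition -/
def Sup (c : ℕ → ℤ → ℤ) : Prop :=
  ∀ n m, c n m ≠ 0 → m ^ 2 < 5 * (n : ℤ) ^ 2 ∧ Even ((n : ℤ) - m)

theorem sup_pos {c : ℕ → ℤ → ℤ} (hA : Sup c) {n : ℕ} {m : ℤ} (h : c n m ≠ 0) :
    0 < NN n m ∧ 4 * NN n m = 5 * (n : ℤ) ^ 2 - m ^ 2 := by
  obtain ⟨h1, a, ha⟩ := hA n m h
  have h2 : 4 * NN n m = 5 * (n : ℤ) ^ 2 - m ^ 2 := by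
    have h3 : (n : ℤ) = m + (a + a) := by linarith
    have h4 : 5 * (n : ℤ) ^ 2 - m ^ 2 = 4 * (m ^ 2 + 5 * m * a + 5 * a ^ 2) := by
      rw [h3]
      ring
    unfold NN
    rw [h4, Int.mul_ediv_cancel_left _ (by norm_num)]
  exact ⟨by omega, h2⟩

theorem sup_term {c : ℕ → ℤ → ℤ} (hA : Sup c) (p : ℕ) [Fact p.Prime]
    (hd : ∀ n m, c n m ≠ 0 → padicValInt p (NN n m) ≤ padicValInt p (c n m)) (n : ℕ) (m : ℤ) :
    ¬ p ∣ ((c n m : ℚ) / (NN n m : ℚ)).den := by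
  by_cases h : c n m = 0
  · rw [h]
    have := pi_int (p := p) 0
    simpa using this
  · exact K8_quot p (sup_pos hA h).1 (hd n m h)

theorem sup_PI {c : ℕ → ℤ → ℤ} (hA : Sup c) (p : ℕ) [Fact p.Prime] (hp : 5 < p)
    (hd : ∀ n m, c n m ≠ 0 → padicValInt p (NN n m) ≤ padicValInt p (c n m)) :
    PI p (hser c) := by
  intro n
  unfold hser
  rw [coeff_mk]
  apply pi_mul
  · apply pi_mul
    · exact pi_nat 5
    · exact pi_nat n
  · apply pi_sum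
    intro m _
    exact sup_term hA p hd n m

theorem sup_eq {c : ℕ → ℤ → ℤ} (hA : Sup c) (p : ℕ) [Fact p.Prime] (hp : 5 < p)
    (h5 : p % 5 = 2 ∨ p % 5 = 3)
    (hd : ∀ n m, c n m ≠ 0 → padicValInt p (NN n m) ≤ padicValInt p (c n m)) :
    redQ p (hser c) = (5 : ZMod p) • th (redZ p (nser p c)) := by
  have hP : p.Prime := Fact.out
  ext n
  have hL : coeff n (redQ p (hser c)) = 5 * (n : ZMod p) *
      ∑ m ∈ ms n, (((c n m : ℚ) / (NN n m : ℚ) : ℚ) : ZMod p) := by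
    unfold redQ hser
    rw [coeff_mk, coeff_mk, cast_mul_pi, cast_mul_pi, cast_sum_pi]
    · push_cast
      rfl
    · intro m _
      exact sup_term hA p hd n m
    · exact pi_nat 5
    · exact pi_nat n
    · exact pi_mul (pi_nat 5) (pi_nat n)
    · exact pi_sum _ _ fun m _ => sup_term hA p hd n m
  have hR : coeff n ((5 : ZMod p) • th (redZ p (nser p c))) =
      5 * ((n : ZMod p) * ∑ m ∈ ms n, (c n m : ZMod p) * (NN n m : ZMod p) ^ (p - 2)) := by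
    rw [coeff_smul, smul_eq_mul]
    unfold th nser
    rw [coeff_mk, coeff_map, coeff_mk]
    congr 2
    rw [map_sum]
    apply Finset.sum_congr rfl
    intro m _
    rw [map_mul, map_pow]
    rfl
  rw [hL, hR, mul_assoc]
  congr 1
  rw [Finset.mul_sum, Finset.mul_sum]
  apply Finset.sum_congr rfl
  intro m _
  by_cases hc : c n m = 0
  · rw [hc]
    simp
  obtain ⟨hpos, hN⟩ := sup_pos hA hc
  by_cases hpN : ((NN n m : ℤ) : ZMod p) = 0
  · have h1 : (5 : ZMod p) * (n : ZMod p) ^ 2 = ((m : ℤ) : ZMod p) ^ 2 := by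
      have h2 := congrArg (fun x : ℤ => (x : ZMod p)) hN
      push_cast at h2
      rw [hpN] at h2
      linear_combination -h2
    rw [(K8_five p h5 _ _ h1 hp).1]
    ring
  · have h1 : (((c n m : ℚ) / (NN n m : ℚ) : ℚ) : ZMod p) * ((NN n m : ℤ) : ZMod p) =
        ((c n m : ℤ) : ZMod p) := by
      have h2 := cast_mul_pi (sup_term hA p hd n m) (pi_int (p := p) (NN n m))
      rw [div_mul_cancel₀ _ (by exact_mod_cast hpos.ne')] at h2
      rw [Rat.cast_intCast, Rat.cast_intCast] at h2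
      exact h2.symm
    have h3 : ((NN n m : ℤ) : ZMod p) ^ (p - 1) = 1 := ZMod.pow_card_sub_one_eq_one hpN
    have h4 : ((NN n m : ℤ) : ZMod p) ^ (p - 1) =
        ((NN n m : ℤ) : ZMod p) * ((NN n m : ℤ) : ZMod p) ^ (p - 2) := by
      rw [← pow_succ']
      congr 1
      omega
    have h5' : (((c n m : ℚ) / (NN n m : ℚ) : ℚ) : ZMod p) =
        ((c n m : ℤ) : ZMod p) * ((NN n m : ℤ) : ZMod p) ^ (p - 2) := by
      rw [← h1, mul_assoc, ← h4, h3, mul_one]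
    rw [h5']

theorem sup_DN_hser {c : ℕ → ℤ → ℤ} (hA : Sup c) (E : ℕ → Prop) [DecidablePred E]
    (hd : ∀ p : ℕ, p.Prime → ¬ E p → ∀ n m, c n m ≠ 0 →
      padicValInt p (NN n m) ≤ padicValInt p (c n m)) (n : ℕ) :
    ∃ z : ℤ, (DN E n : ℚ) * coeff n (hser c) = z := by
  have h1 : ∀ m : ℤ, ∃ z : ℤ, (DN E n : ℚ) * ((c n m : ℚ) / (NN n m : ℚ)) = z := by
    intro m
    by_cases hc : c n m = 0
    · exact ⟨0, by rw [hc]; simp⟩
    obtain ⟨hpos, hN⟩ := sup_pos hA hc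
    have hle : NN n m ≤ 2 * (n : ℤ) ^ 2 := by nlinarith [sq_nonneg m, sq_nonneg (n : ℤ)]
    obtain ⟨z, hz⟩ := N2_dvd E hpos hle hc (fun p hp hE => hd p hp hE n m hc)
    refine ⟨z, ?_⟩
    have hNQ : (NN n m : ℚ) ≠ 0 := by exact_mod_cast hpos.ne'
    rw [mul_div_assoc', div_eq_iff hNQ]
    have : ((DN E n : ℤ) : ℚ) * (c n m : ℚ) = (NN n m : ℚ) * (z : ℚ) := by exact_mod_cast hz
    rw [mul_comm (z : ℚ), ← this]
    push_cast
    rfl
  choose z hz using h1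
  refine ⟨5 * n * ∑ m ∈ ms n, z m, ?_⟩
  unfold hser
  rw [coeff_mk]
  push_cast
  rw [Finset.mul_sum, Finset.mul_sum, Finset.mul_sum]
  refine Finset.sum_congr rfl fun m _ => ?_
  rw [← hz m]
  ring

theorem sup_growth {c : ℕ → ℤ → ℤ} (hA : Sup c) (e : ℕ) (hb : ∃ C : ℝ, ∀ n m, c n m ≠ 0 →
    |(c n m : ℝ)| ≤ C * (n : ℝ) ^ 4 * (NN n m : ℝ) ^ e) : ∃ (C : ℝ) (κ : ℕ),
    ∀ n, |((coeff n (hser c) : ℚ) : ℝ)| ≤ C * ((n : ℝ) + 1) ^ κ := by
  obtain ⟨C0, hC0⟩ := hb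
  obtain ⟨C, hC⟩ : ∃ C, C = max C0 0 := ⟨_, rfl⟩
  have hCpos : 0 ≤ C := by
    rw [hC]
    exact le_max_right _ _
  -- one term
  have h1 : ∀ (n : ℕ) (m : ℤ), |((c n m : ℝ) / (NN n m : ℝ))| ≤
      C * 2 ^ e * ((n : ℝ) + 1) ^ (4 + 2 * e) := by
    intro n m
    have hn0 : (0 : ℝ) ≤ n := Nat.cast_nonneg n
    by_cases hc : c n m = 0
    · rw [hc]
      simp only [Int.cast_zero, zero_div, abs_zero]
      positivity
    obtain ⟨hpos, hN⟩ := sup_pos hA hc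
    have hNr : (1 : ℝ) ≤ (NN n m : ℝ) := by exact_mod_cast hpos
    have hle : NN n m ≤ 2 * (n : ℤ) ^ 2 := by nlinarith [sq_nonneg m, sq_nonneg (n : ℤ)]
    have hler : (NN n m : ℝ) ≤ 2 * (n : ℝ) ^ 2 := by exact_mod_cast hle
    rw [abs_div, abs_of_pos (by linarith : (0 : ℝ) < (NN n m : ℝ))]
    have h2 : |(c n m : ℝ)| / (NN n m : ℝ) ≤ |(c n m : ℝ)| :=
      div_le_self (abs_nonneg _) hNr
    refine h2.trans ((hC0 n m hc).trans ?_)
    have h3 : (NN n m : ℝ) ^ e ≤ (2 * ((n : ℝ) + 1) ^ 2) ^ e := by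
      refine pow_le_pow_left₀ (by linarith) (hler.trans ?_) e
      nlinarith
    have h4 : (n : ℝ) ^ 4 ≤ ((n : ℝ) + 1) ^ 4 := pow_le_pow_left₀ hn0 (by linarith) 4
    calc C0 * (n : ℝ) ^ 4 * (NN n m : ℝ) ^ e ≤ C * (n : ℝ) ^ 4 * (NN n m : ℝ) ^ e := by
          have : C0 ≤ C := by
            rw [hC]
            exact le_max_left _ _
          have h5 : 0 ≤ (NN n m : ℝ) ^ e := pow_nonneg (by linarith) e
          exact mul_le_mul_of_nonneg_right (mul_le_mul_of_nonneg_right this (by positivity)) h5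
      _ ≤ C * ((n : ℝ) + 1) ^ 4 * (2 * ((n : ℝ) + 1) ^ 2) ^ e := by
          refine mul_le_mul (mul_le_mul_of_nonneg_left h4 hCpos) h3
            (pow_nonneg (by linarith) e) (by positivity)
      _ = C * 2 ^ e * ((n : ℝ) + 1) ^ (4 + 2 * e) := by
          rw [mul_pow, ← pow_mul, pow_add]
          ring
  refine ⟨5 * 7 * (C * 2 ^ e), 1 + (1 + (4 + 2 * e)), fun n => ?_⟩
  have hn0 : (0 : ℝ) ≤ n := Nat.cast_nonneg n
  have h2 : ((coeff n (hser c) : ℚ) : ℝ) =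
      5 * (n : ℝ) * ∑ m ∈ ms n, (c n m : ℝ) / (NN n m : ℝ) := by
    unfold hser
    rw [coeff_mk]
    push_cast
    rfl
  rw [h2, abs_mul, abs_of_nonneg (by positivity : (0 : ℝ) ≤ 5 * (n : ℝ))]
  have hcard : ((ms n).card : ℝ) ≤ 7 * ((n : ℝ) + 1) := by
    unfold ms
    rw [Int.card_Icc]
    have h3 : (3 * (n : ℤ) + 1 - -(3 * (n : ℤ))).toNat = 6 * n + 1 := by omega
    rw [h3]
    push_cast
    linarith
  have h3 : |∑ m ∈ ms n, (c n m : ℝ) / (NN n m : ℝ)| ≤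
      (7 * ((n : ℝ) + 1)) * (C * 2 ^ e * ((n : ℝ) + 1) ^ (4 + 2 * e)) := by
    refine (Finset.abs_sum_le_sum_abs _ _).trans ?_
    refine (Finset.sum_le_card_nsmul _ _ _ (fun m _ => h1 n m)).trans ?_
    rw [nsmul_eq_mul]
    exact mul_le_mul_of_nonneg_right hcard (by positivity)
  calc 5 * (n : ℝ) * |∑ m ∈ ms n, (c n m : ℝ) / (NN n m : ℝ)|
      ≤ 5 * ((n : ℝ) + 1) * ((7 * ((n : ℝ) + 1)) *
          (C * 2 ^ e * ((n : ℝ) + 1) ^ (4 + 2 * e))) := by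
        refine mul_le_mul (by linarith) h3 (abs_nonneg _) (by positivity)
    _ = 5 * 7 * (C * 2 ^ e) * ((n : ℝ) + 1) ^ (1 + (1 + (4 + 2 * e))) := by
        rw [pow_add _ 1, pow_add _ 1]
        ring

theorem rel_of_fam {k : ℕ} (hk : 3 ≤ k) {c : ℕ → ℤ → ℤ} (hA : Sup c) (e : ℕ)
    (hb : ∃ C : ℝ, ∀ n m, c n m ≠ 0 → |(c n m : ℝ)| ≤ C * (n : ℝ) ^ 4 * (NN n m : ℝ) ^ e)
    (E : ℕ → Prop)
    (hE : ∀ ε : ℝ, 0 < ε → ∃ X₀ : ℕ, ∀ X ≥ X₀,
      (Set.ncard {p : ℕ | p ≤ X ∧ p.Prime ∧ E p} : ℝ) * Real.log X ≤ ε * Real.sqrt X)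
    (hd : ∀ p : ℕ, p.Prime → ¬ E p → ∀ n m, c n m ≠ 0 →
      padicValInt p (NN n m) ≤ padicValInt p (c n m)) (μ s : ℕ) (hμ : 1 ≤ μ)
    (hr : ∀ p [Fact p.Prime], 5 < p → p % 5 = 2 → ¬ E p →
      ∃ M : ℕ → Submodule (ZMod p) (PowerSeries (ZMod p)),
        MFam p μ s M ∧ redQ p (hser c) ∈ M (2 * k - 2 + (p - 1) * (2 * k - 1))) :
    Rel (k - 1) (hser c) := by
  classical
  have hE' : ∀ ε : ℝ, 0 < ε → ∃ X₀ : ℕ, ∀ X ≥ X₀,
      (((range (X + 1)).filter (fun p => p.Prime ∧ E p)).card : ℝ) * Real.log X ≤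
        ε * Real.sqrt X := by
    intro ε hε
    obtain ⟨X₀, h⟩ := hE ε hε
    refine ⟨X₀, fun X hX => ?_⟩
    have h1 := h X hX
    have h2 : {p : ℕ | p ≤ X ∧ p.Prime ∧ E p} =
        (((range (X + 1)).filter (fun p => p.Prime ∧ E p) : Finset ℕ) : Set ℕ) := by
      ext p
      simp only [Set.mem_setOf_eq, coe_filter, mem_range]
      constructor
      · rintro ⟨a, b⟩
        exact ⟨by omega, b⟩
      · rintro ⟨a, b⟩
        exact ⟨by omega, b⟩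
    rw [h2, Set.ncard_coe_finset] at h1
    exact h1
  obtain ⟨C, κ, hC⟩ := sup_growth hA e hb
  refine thmS_fam (k - 1) (2 * k - 1) (by omega) (hser c) C κ hC (DN E) (DN_pos E) (DN_dvd E)
    (sup_DN_hser hA E hd) (log_DN_small E hE') (GP E)
    (fun p hp => ⟨hp.1, by have := hp.2.1; omega⟩)
    (1 / 10) (by norm_num) (GP_theta E hE') ?_ μ s hμ ?_
  · intro p hp
    haveI : Fact p.Prime := ⟨hp.1⟩
    exact sup_PI hA p hp.2.1 (hd p hp.1 hp.2.2.2)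
  · intro p _ hp
    obtain ⟨M, hM, hm⟩ := hr p hp.2.1 hp.2.2.1 hp.2.2.2
    have e : 2 * (k - 1) + (p - 1) * (2 * k - 1) = 2 * k - 2 + (p - 1) * (2 * k - 1) := by
      omega
    refine ⟨M, hM, ?_⟩
    rw [e]
    exact hm

/-- adding finitely many primes to the exceptional set -/
theorem exc_add (E : ℕ → Prop) (p₀ : ℕ)
    (hE : ∀ ε : ℝ, 0 < ε → ∃ X₀ : ℕ, ∀ X ≥ X₀,
      (Set.ncard {p : ℕ | p ≤ X ∧ p.Prime ∧ E p} : ℝ) * Real.log X ≤ ε * Real.sqrt X) :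
    ∀ ε : ℝ, 0 < ε → ∃ X₀ : ℕ, ∀ X ≥ X₀,
      (Set.ncard {p : ℕ | p ≤ X ∧ p.Prime ∧ (E p ∨ p ≤ p₀)} : ℝ) * Real.log X ≤
        ε * Real.sqrt X := by
  intro ε hε
  obtain ⟨X1, h1⟩ := hE (ε / 2) (by positivity)
  have h3 := (isLittleO_log_rpow_atTop (r := 1 / 2) (by norm_num)).comp_tendsto
    (tendsto_natCast_atTop_atTop (R := ℝ))
  have h4 := h3.def (c := ε / (2 * (p₀ + 1))) (by positivity)
  obtain ⟨X2, h2⟩ := Filter.eventually_atTop.1 h4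
  refine ⟨max X1 X2, fun X hX => ?_⟩
  have a1 := h1 X (le_trans (le_max_left _ _) hX)
  have a2 := h2 X (le_trans (le_max_right _ _) hX)
  simp only [Function.comp_apply, Real.norm_eq_abs] at a2
  rw [← Real.sqrt_eq_rpow, abs_of_nonneg (Real.sqrt_nonneg _)] at a2
  have hlog : 0 ≤ Real.log X := Real.log_natCast_nonneg X
  have a3 : Real.log X ≤ ε / (2 * (p₀ + 1)) * Real.sqrt X := (le_abs_self _).trans a2
  have a4 : Set.ncard {p : ℕ | p ≤ X ∧ p.Prime ∧ (E p ∨ p ≤ p₀)} ≤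
      Set.ncard {p : ℕ | p ≤ X ∧ p.Prime ∧ E p} + (p₀ + 1) := by
    have hsub : {p : ℕ | p ≤ X ∧ p.Prime ∧ (E p ∨ p ≤ p₀)} ⊆
        {p : ℕ | p ≤ X ∧ p.Prime ∧ E p} ∪ ((range (p₀ + 1) : Finset ℕ) : Set ℕ) := by
      rintro p ⟨b1, b2, b3 | b3⟩
      · exact Or.inl ⟨b1, b2, b3⟩
      · right
        rw [Finset.mem_coe, mem_range]
        omega
    have hfin : {p : ℕ | p ≤ X ∧ p.Prime ∧ E p}.Finite :=
      (Set.finite_Iic X).subset fun p hp => hp.1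
    refine (Set.ncard_le_ncard hsub (hfin.union (Finset.finite_toSet _))).trans ?_
    refine (Set.ncard_union_le _ _).trans ?_
    rw [Set.ncard_coe_finset, card_range]
  have a5 : (Set.ncard {p : ℕ | p ≤ X ∧ p.Prime ∧ (E p ∨ p ≤ p₀)} : ℝ) ≤
      (Set.ncard {p : ℕ | p ≤ X ∧ p.Prime ∧ E p} : ℝ) + (p₀ + 1) := by exact_mod_cast a4
  calc (Set.ncard {p : ℕ | p ≤ X ∧ p.Prime ∧ (E p ∨ p ≤ p₀)} : ℝ) * Real.log X
      ≤ ((Set.ncard {p : ℕ | p ≤ X ∧ p.Prime ∧ E p} : ℝ) + (p₀ + 1)) * Real.log X :=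
        mul_le_mul_of_nonneg_right a5 hlog
    _ = (Set.ncard {p : ℕ | p ≤ X ∧ p.Prime ∧ E p} : ℝ) * Real.log X +
        (p₀ + 1) * Real.log X := by ring
    _ ≤ ε / 2 * Real.sqrt X + (p₀ + 1) * (ε / (2 * (p₀ + 1)) * Real.sqrt X) := by
        refine add_le_add a1 (mul_le_mul_of_nonneg_left a3 (by positivity))
    _ = ε * Real.sqrt X := by
        field_simp
        ring

end H94M
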