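import Pool.Agent.Lib.H94M.KMF
import Pool.Agent.Lib.H94M.QA3
import Pool.Agent.Lib.H94M.TN
import Pool.Agent.Lib.H53M.K7

/-!
# H94M, chunk K7: Theorem K at level `N` (copy of H53M/K6, K7, K8 with `MN N p` for `MP p`)

`K8 : redQ p (hser c) ∈ MN N p (2k - 2 + (p-1)(2k-1))`.
-/

namespace H94M

open H53M PowerSeries

variable {N k : ℕ} {c : ℕ → ℤ → ℤ}

theorem K6_uv (hA : ArrN N k c) {n : ℕ} {m : ℤ} (h : c n m ≠ 0) :
    (uu n m : ℂ) + (vv n m : ℂ) = ((n : ℚ) : ℂ) ∧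
      (uu n m : ℂ) * (vv n m : ℂ) = (((NN n m : ℚ) / 5 : ℚ) : ℂ) := by
  obtain ⟨-, -, h1, h2, -⟩ := supp_facts hA h
  constructor
  · have h3 := congrArg (fun x : ℝ => (x : ℂ)) h1
    push_cast at h3 ⊢
    exact h3
  · have h3 := congrArg (fun x : ℝ => (x : ℂ)) h2
    push_cast at h3 ⊢
    exact h3

theorem K6_toC (hA : ArrN N k c) (a b : ℕ) :
    ktoC (tq c a b) = tser c a b + tser c b a := by
  ext n
  unfold tq tser
  rw [coeff_map, coeff_mk, map_add, coeff_mk, coeff_mk, map_sum, ← Finset.sum_add_distrib]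
  apply Finset.sum_congr rfl
  intro m _
  by_cases h : c n m = 0
  · simp [h]
  · obtain ⟨h1, h2⟩ := K6_uv hA h
    rw [map_mul]
    have h3 := sy_eq (s := (n : ℚ)) (P := (NN n m : ℚ) / 5) h1 h2 a b
    change ((c n m : ℚ) : ℂ) * ((sy (n : ℚ) ((NN n m : ℚ) / 5) a b : ℚ) : ℂ) = _
    rw [h3]
    push_cast
    ring

theorem K7_toC (hA : ArrN N k c) (a b : ℕ) :
    ktoC (Mq k c a b) =
      low k (-(ktoC e2q)) (tser c) a b + low k (-(ktoC e2q)) (tser c) b a := by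
  rw [low_symm]
  unfold Mq
  rw [map_low, map_neg]
  congr 1
  funext a' b'
  exact K6_toC hA a' b'

theorem K7_CG (hA : ArrN N k c) (a b : ℕ) : CG (low k (-(ktoC e2q)) (tser c) a b) :=
  CG_low k (CG_neg CG_e2q) (fun a b => CG_tser hA a b) a b

theorem K7_MN [NeZero N] (hk : 1 ≤ k) (hA : ArrN N k c) (p : ℕ) [Fact p.Prime]
    (hp : 5 < p) (a b : ℕ) : redQ p (Mq k c a b) ∈ MN N p (2 * k + 2 * a + 2 * b) := by
  have hC : CG (ktoC (Mq k c a b)) := by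
    rw [K7_toC hA]
    exact CG_add (K7_CG hA a b) (K7_CG hA b a)
  obtain ⟨F, hF⟩ := KMFN N (ktoC (Mq k c a b)) hC (2 * k + 2 * a + 2 * b) (by
    intro A B C D hdet hNC z hz
    have hz' := mob_im_pos hdet hz
    rw [K7_toC hA, ev_add (K5_Cv hA a b) (K5_Cv hA b a) hz',
      ev_add (K5_Cv hA a b) (K5_Cv hA b a) hz, K5 hk hA hdet hNC a b z hz,
      K5 hk hA hdet hNC b a z hz]
    have e : 2 * k + 2 * b + 2 * a = 2 * k + 2 * a + 2 * b := by omega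
    rw [e]
    ring)
  exact red_mem_MN F _ (K7_PI p hp c a b) hF

theorem K7_tq [NeZero N] (hk : 3 ≤ k) (hA : ArrN N k c) (p : ℕ) [Fact p.Prime]
    (hp : 5 < p) : redQ p (tq c (p - 2) (p - 2)) ∈ MN N p (2 * k - 4 + (p - 1) * (2 * k - 2)) := by
  rw [K7_inv (by omega : 1 ≤ k) c, kredQ_low k (K6_e2q p (by omega)) (fun a b => K7_PI p hp c a b)]
  unfold low
  have hcast : ∀ i, k - 2 ≤ i → ((kc k (p - 2) i : ℕ) : PowerSeries (ZMod p)) = 0 := by
    intro i hi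
    rw [← map_natCast (PowerSeries.C (R := ZMod p)), K7_kc k hk p hp i hi, map_zero]
  refine Submodule.sum_mem _ fun i hi => Submodule.sum_mem _ fun j hj => ?_
  rw [Finset.mem_range] at hi hj
  by_cases h1 : k - 2 ≤ i
  · rw [hcast i h1]
    simp
  by_cases h2 : k - 2 ≤ j
  · rw [hcast j h2]
    simp
  have hM := K7_MN (by omega : 1 ≤ k) hA p hp (p - 2 - i) (p - 2 - j)
  have h3 := MN_mul (MN_pow (MP_le_MN N p _ (K7_e2q p hp)) (i + j)) hM
  have h4 := MN_mul h3 (MN_pow (MP_le_MN N p _ (KQ_one p (by omega))) (2 * k - 6 - (i + j)))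
  rw [one_pow, mul_one] at h4
  have hw : (i + j) * (p + 1) + (2 * k + 2 * (p - 2 - i) + 2 * (p - 2 - j)) +
      (2 * k - 6 - (i + j)) * (p - 1) = 2 * k - 4 + (p - 1) * (2 * k - 2) := by
    obtain ⟨l, hl⟩ : ∃ l, 2 * k - 6 - (i + j) = l := ⟨_, rfl⟩
    obtain ⟨q, rfl⟩ : ∃ q, p = q + 1 := ⟨p - 1, by omega⟩
    obtain ⟨x, hx⟩ : ∃ x, q + 1 - 2 - i = x := ⟨_, rfl⟩
    obtain ⟨y, hy⟩ : ∃ y, q + 1 - 2 - j = y := ⟨_, rfl⟩
    have ek : 2 * k - 2 = l + (i + j) + 4 := by omega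
    have ek2 : 2 * k - 4 = l + (i + j) + 2 := by omega
    have ekk : 2 * k = l + (i + j) + 6 := by omega
    have hq1 : q = x + i + 1 := by omega
    have hq2 : q = y + j + 1 := by omega
    rw [hl, hx, hy, ek, ek2, ekk, Nat.add_sub_cancel]
    have : 2 * q = x + i + 1 + (y + j + 1) := by omega
    nlinarith [this]
  rw [hw] at h4
  have h5 : ((kc k (p - 2) i : ℕ) : PowerSeries (ZMod p)) *
      ((kc k (p - 2) j : ℕ) : PowerSeries (ZMod p)) * redQ p e2q ^ (i + j) *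
        redQ p (Mq k c (p - 2 - i) (p - 2 - j)) =
      ((kc k (p - 2) i * kc k (p - 2) j : ℕ) : ZMod p) •
        (redQ p e2q ^ (i + j) * redQ p (Mq k c (p - 2 - i) (p - 2 - j))) := by
    rw [PowerSeries.smul_eq_C_mul, map_natCast]
    push_cast
    ring
  rw [h5]
  exact Submodule.smul_mem _ _ h4

/-- **Theorem K** at level `N`. -/
theorem K7 [NeZero N] (hk : 3 ≤ k) (hA : ArrN N k c) (p : ℕ) [Fact p.Prime]
    (hp : 5 < p) : redZ p (nser p c) ∈ MN N p (2 * k - 4 + (p - 1) * (2 * k - 2)) := by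
  have hpp : p.Prime := Fact.out
  have h1 : ((5 ^ (p - 2) : ℤ) : ℚ) • tq c (p - 2) (p - 2) = ((2 : ℤ) : ℚ) • toQ (nser p c) := by
    rw [K6_diag]
    ext n
    simp only [PowerSeries.coeff_smul, PowerSeries.coeff_mk, nser, PowerSeries.coeff_map,
      smul_eq_mul, Finset.mul_sum, Finset.sum_mul, map_sum, eq_intCast]
    refine Finset.sum_congr rfl fun m _ => ?_
    push_cast
    rw [div_pow]
    field_simp
  have h2 : redQ p (((5 ^ (p - 2) : ℤ) : ℚ) • tq c (p - 2) (p - 2)) =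
      redQ p (((2 : ℤ) : ℚ) • toQ (nser p c)) := by rw [h1]
  rw [kredQ_smul (pi_int _) (K6_PI p hp c _ _), kredQ_smul (pi_int _) (PI_toQ _), kredQ_toQ] at h2
  have h3 := Submodule.smul_mem _ ((((5 ^ (p - 2) : ℤ) : ℚ)) : ZMod p) (K7_tq hk hA p hp)
  rw [h2] at h3
  have h4 : ((((2 : ℤ) : ℚ)) : ZMod p) ≠ 0 := by
    have e : ((((2 : ℤ) : ℚ)) : ZMod p) = ((2 : ℕ) : ZMod p) := by
      rw [Rat.cast_intCast]
      norm_num
    rw [e, Ne, ZMod.natCast_eq_zero_iff]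
    intro h
    have := Nat.le_of_dvd (by norm_num) h
    omega
  have h5 := Submodule.smul_mem _ ((((2 : ℤ) : ℚ)) : ZMod p)⁻¹ h3
  rwa [smul_smul, inv_mul_cancel₀ h4, one_smul] at h5

/-- `h` is modular modulo `p` (level `N`). -/
theorem K8 [NeZero N] (hk : 3 ≤ k) (hA : ArrN N k c) (p : ℕ) [Fact p.Prime] (hp : 5 < p)
    (h5 : p % 5 = 2 ∨ p % 5 = 3)
    (hd : ∀ n m, c n m ≠ 0 → padicValInt p (NN n m) ≤ padicValInt p (c n m)) :
    redQ p (hser c) ∈ MN N p (2 * k - 2 + (p - 1) * (2 * k - 1)) := by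
  rw [sup_eq hA.supp p hp h5 hd]
  have h := th_MN N p (by omega) (K7 hk hA p hp)
  have e : 2 * k - 4 + (p - 1) * (2 * k - 2) + p + 1 = 2 * k - 2 + (p - 1) * (2 * k - 1) := by
    obtain ⟨q, rfl⟩ : ∃ q, p = q + 1 := ⟨p - 1, by omega⟩
    obtain ⟨j, rfl⟩ : ∃ j, k = j + 2 := ⟨k - 2, by omega⟩
    have h1 : 2 * (j + 2) - 4 = 2 * j := by omega
    have h2 : 2 * (j + 2) - 2 = 2 * j + 2 := by omega
    have h3 : 2 * (j + 2) - 1 = 2 * j + 3 := by omega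
    rw [h1, h2, h3, Nat.add_sub_cancel]
    ring
  rw [e] at h
  exact Submodule.smul_mem _ _ h

end H94M
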