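import Mathlib

/-!
# H94M, chunk MG: moderate growth implies boundedness at all cusps

If `f` is holomorphic on the upper half plane, slash invariant under a subgroup of finite index of
`SL(2, ℤ)`, and `|f z| ≤ C (1 + (Im z)^(-A))`, then `f ∣[k] g` is bounded at `i ∞` for every
`g` in `SL(2, ℤ)`.
-/

namespace H94M

open UpperHalfPlane Filter Topology Function Asymptotics
open scoped MatrixGroups ModularForm Manifold



theorem MG_re_invQParam {h : ℝ} (hh : 0 < h) (q : ℂ) :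
    |(Function.Periodic.invQParam h q).re| ≤ h := by
  have h1 : (Function.Periodic.invQParam h q).re = h / (2 * Real.pi) * Complex.arg q := by
    unfold Function.Periodic.invQParam
    rw [show ((h : ℂ) / (2 * Real.pi * Complex.I) * Complex.log q) =
      ((h / (2 * Real.pi) : ℝ) : ℂ) * (Complex.log q * (-Complex.I)) by
        push_cast
        have : (Complex.I : ℂ)⁻¹ = -Complex.I := Complex.inv_I
        rw [div_mul_eq_mul_div, div_mul_eq_mul_div, div_eq_mul_inv, mul_inv, this]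
        ring]
    rw [Complex.re_ofReal_mul]
    congr 1
    simp [Complex.mul_re, Complex.log_im]
  rw [h1, abs_mul, abs_of_pos (by positivity)]
  have h2 := Complex.abs_arg_le_pi q
  calc h / (2 * Real.pi) * |Complex.arg q| ≤ h / (2 * Real.pi) * Real.pi := by gcongr
    _ = h / 2 := by field_simp
    _ ≤ h := by linarith

theorem MG_periodic {h : ℝ} (hh : 0 < h) {F : ℂ → ℂ} (hF : Function.Periodic F h)
    (hol : ∀ᶠ z in (comap Complex.im atTop), DifferentiableAt ℂ F z) (C : ℝ) (A : ℕ)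
    (hg : ∀ᶠ z in (comap Complex.im atTop), |z.re| ≤ h → ‖F z‖ ≤ C * z.im ^ A) :
    ∃ L, Tendsto F (comap Complex.im atTop) (𝓝 L) := by
  have hd := Function.Periodic.eventually_differentiableAt_cuspFunction_nhds_ne_zero hh hF hol
  have hev : ∀ᶠ q in 𝓝[≠] (0 : ℂ), ‖Function.Periodic.cuspFunction h F q‖ ≤
      C * (-h / (2 * Real.pi) * Real.log ‖q‖) ^ A := by
    have h1 := (Function.Periodic.invQParam_tendsto hh).eventually hg
    filter_upwards [h1, self_mem_nhdsWithin] with q hq hq0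
    rw [Function.Periodic.cuspFunction_eq_of_nonzero _ _ hq0]
    have h2 := hq (MG_re_invQParam hh q)
    rwa [Function.Periodic.im_invQParam] at h2
  have hlog : (fun q : ℂ => (-h / (2 * Real.pi) * Real.log ‖q‖) ^ A) =o[𝓝[≠] (0 : ℂ)]
      fun q => q⁻¹ := by
    have h1 := isLittleO_abs_log_rpow_rpow_nhdsGT_zero (s := -1) (A : ℝ) (by norm_num)
    have h2 := h1.comp_tendsto (tendsto_norm_nhdsNE_zero (E := ℂ))
    have h3 : (fun q : ℂ => (-h / (2 * Real.pi) * Real.log ‖q‖) ^ A) =O[𝓝[≠] (0 : ℂ)]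
        ((fun x : ℝ => |Real.log x| ^ (A : ℝ)) ∘ fun q : ℂ => ‖q‖) := by
      refine IsBigO.of_bound (|h / (2 * Real.pi)| ^ A) (Eventually.of_forall fun q => ?_)
      simp only [Function.comp_apply, Real.rpow_natCast]
      rw [norm_pow, norm_pow, Real.norm_eq_abs, Real.norm_eq_abs, abs_mul, mul_pow, abs_abs]
      have : |(-h / (2 * Real.pi))| = |h / (2 * Real.pi)| := by rw [neg_div, abs_neg]
      rw [this]
    refine (h3.trans_isLittleO h2).trans_isBigO ?_
    refine IsBigO.of_bound 1 (Eventually.of_forall fun q => ?_)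
    simp only [Function.comp_apply, one_mul]
    rw [Real.rpow_neg (norm_nonneg _), Real.rpow_one, norm_inv, norm_inv, norm_norm]
  have hO : (Function.Periodic.cuspFunction h F) =o[𝓝[≠] (0 : ℂ)] fun q => q⁻¹ := by
    refine IsBigO.trans_isLittleO ?_ hlog
    refine IsBigO.of_bound |C| ?_
    filter_upwards [hev] with q hq
    refine hq.trans ?_
    rw [Real.norm_eq_abs]
    calc _ ≤ |C * (-h / (2 * Real.pi) * Real.log ‖q‖) ^ A| := le_abs_self _
      _ = _ := abs_mul _ _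
  have hc : (fun _ : ℂ => Function.Periodic.cuspFunction h F 0) =o[𝓝[≠] (0 : ℂ)]
      fun q => q⁻¹ := by
    refine (isLittleO_const_left).2 (Or.inr ?_)
    have := (tendsto_norm_inv_nhdsNE_zero_atTop (α := ℂ))
    exact this
  have ho : (fun z => Function.Periodic.cuspFunction h F z - Function.Periodic.cuspFunction h F 0)
      =o[𝓝[≠] (0 : ℂ)] fun z => (z - 0)⁻¹ := by
    simpa using hO.sub hc
  have hlim := Complex.tendsto_limUnder_of_differentiable_on_punctured_nhds_of_isLittleO hd ho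
  refine ⟨_, (hlim.comp (Function.Periodic.qParam_tendsto hh)).congr fun z => ?_⟩
  exact Function.Periodic.eq_cuspFunction hh.ne' hF z

theorem MG_denom (g : SL(2, ℤ)) (z : ℍ) :
    denom g z = (g 1 0 : ℂ) * z + (g 1 1 : ℂ) := by
  simp [denom]

theorem MG_denom_lower (g : SL(2, ℤ)) (z : ℍ) (hz : 1 ≤ z.im) : 1 ≤ ‖denom g z‖ := by
  rw [MG_denom]
  by_cases hc : g 1 0 = 0
  · have h1 : g 1 1 ≠ 0 := fun h1 => by
      have := g.det_coe
      rw [Matrix.det_fin_two, hc, h1] at this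
      simp at this
    rw [hc]
    simp only [Int.cast_zero, zero_mul, zero_add]
    rw [Complex.norm_intCast]
    exact_mod_cast Int.one_le_abs h1
  · have h1 : (1 : ℝ) ≤ |(g 1 0 : ℝ)| := by exact_mod_cast Int.one_le_abs hc
    have h2 : ((g 1 0 : ℂ) * z + (g 1 1 : ℂ)).im = (g 1 0 : ℝ) * z.im := by
      simp [Complex.mul_im]
    refine le_trans ?_ (Complex.abs_im_le_norm _)
    rw [h2, abs_mul, abs_of_pos z.im_pos]
    calc (1 : ℝ) = 1 * 1 := by ring
      _ ≤ _ := mul_le_mul h1 hz zero_le_one (by positivity)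

theorem MG_denom_upper (g : SL(2, ℤ)) (z : ℍ) (hz : 1 ≤ z.im) (h : ℝ) (hre : |z.re| ≤ h) :
    ‖denom g z‖ ≤ (|(g 1 0 : ℝ)| * (h + 1) + |(g 1 1 : ℝ)| + 1) * z.im := by
  rw [MG_denom]
  have h0 : 0 ≤ h := (abs_nonneg _).trans hre
  have h1 : ‖(z : ℂ)‖ ≤ (h + 1) * z.im := by
    refine (Complex.norm_le_abs_re_add_abs_im _).trans ?_
    have e1 : ((z : ℂ)).re = z.re := rfl
    have e2 : ((z : ℂ)).im = z.im := rfl
    rw [e1, e2, abs_of_pos z.im_pos]
    nlinarith
  calc ‖(g 1 0 : ℂ) * z + (g 1 1 : ℂ)‖ ≤ ‖(g 1 0 : ℂ)‖ * ‖(z : ℂ)‖ + ‖(g 1 1 : ℂ)‖ := by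
        refine (norm_add_le _ _).trans ?_
        rw [norm_mul]
    _ = |(g 1 0 : ℝ)| * ‖(z : ℂ)‖ + |(g 1 1 : ℝ)| := by
        rw [Complex.norm_intCast, Complex.norm_intCast]
    _ ≤ |(g 1 0 : ℝ)| * ((h + 1) * z.im) + |(g 1 1 : ℝ)| * z.im := by
        have : |(g 1 1 : ℝ)| ≤ |(g 1 1 : ℝ)| * z.im := le_mul_of_one_le_right (abs_nonneg _) hz
        gcongr
    _ ≤ _ := by nlinarith [z.im_pos]

theorem MG_growth (k : ℤ) (f : ℍ → ℂ) (C : ℝ) (A : ℕ)
    (hg : ∀ z : ℍ, ‖f z‖ ≤ C * (1 + z.im⁻¹ ^ A)) (g : SL(2, ℤ)) (h : ℝ) (h0 : 0 ≤ h) :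
    ∃ C' : ℝ, ∃ A' : ℕ, ∀ z : ℍ, 1 ≤ z.im → |z.re| ≤ h → ‖(f ∣[k] g) z‖ ≤ C' * z.im ^ A' := by
  have hC : 0 ≤ C := by
    have h1 := (norm_nonneg _).trans (hg UpperHalfPlane.I)
    have h2 : (0 : ℝ) < 1 + (UpperHalfPlane.I.im)⁻¹ ^ A := by
      have := UpperHalfPlane.I.im_pos
      positivity
    exact nonneg_of_mul_nonneg_left h1 h2
  set K : ℝ := |(g 1 0 : ℝ)| * (h + 1) + |(g 1 1 : ℝ)| + 1 with hK
  have hK1 : 1 ≤ K := by
    have : 0 ≤ |(g 1 0 : ℝ)| * (h + 1) := by positivity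
    have : 0 ≤ |(g 1 1 : ℝ)| := abs_nonneg _
    linarith
  refine ⟨C * (1 + (K ^ 2) ^ A) * K ^ k.natAbs, A + k.natAbs, fun z hz hre => ?_⟩
  have hl := MG_denom_lower g z hz
  have hu := MG_denom_upper g z hz h hre
  rw [← hK] at hu
  have hy := z.im_pos
  rw [ModularForm.SL_slash_apply, norm_mul]
  have h1 : ‖f (g • z)‖ ≤ C * (1 + (K ^ 2) ^ A) * z.im ^ A := by
    refine (hg _).trans ?_
    rw [mul_assoc]
    refine mul_le_mul_of_nonneg_left ?_ hC
    have e1 : ((g • z : ℍ).im)⁻¹ ≤ K ^ 2 * z.im := by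
      rw [ModularGroup.im_smul_eq_div_normSq, inv_div, Complex.normSq_eq_norm_sq,
        div_le_iff₀ hy]
      calc ‖denom g z‖ ^ 2 ≤ (K * z.im) ^ 2 := by gcongr
        _ = K ^ 2 * z.im * z.im := by ring
    have e2 : ((g • z : ℍ).im)⁻¹ ^ A ≤ (K ^ 2 * z.im) ^ A := by
      have := (g • z : ℍ).im_pos
      gcongr
    have e3 : (1 : ℝ) ≤ z.im ^ A := one_le_pow₀ hz
    calc 1 + ((g • z : ℍ).im)⁻¹ ^ A ≤ z.im ^ A + (K ^ 2 * z.im) ^ A := by linarith
      _ = _ := by rw [mul_pow]; ring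
  have h2 : ‖denom g z ^ (-k)‖ ≤ K ^ k.natAbs * z.im ^ k.natAbs := by
    rw [norm_zpow, ← mul_pow]
    calc ‖denom g z‖ ^ (-k) ≤ ‖denom g z‖ ^ (k.natAbs : ℤ) := by
          refine zpow_le_zpow_right₀ hl ?_
          omega
      _ = ‖denom g z‖ ^ k.natAbs := zpow_natCast _ _
      _ ≤ (K * z.im) ^ k.natAbs := by gcongr
  calc ‖f (g • z)‖ * ‖denom g z ^ (-k)‖
      ≤ (C * (1 + (K ^ 2) ^ A) * z.im ^ A) * (K ^ k.natAbs * z.im ^ k.natAbs) := by gcongr
    _ = _ := by rw [pow_add]; ring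

/-- **Moderate growth implies boundedness at the cusps.** -/
theorem MG_bdd {Γ : Subgroup SL(2, ℤ)} [Γ.FiniteIndex] (k : ℤ) (f : ℍ → ℂ)
    (hol : MDiff f) (hinv : ∀ γ ∈ Γ, f ∣[k] γ = f) (C : ℝ) (A : ℕ)
    (hg : ∀ z : ℍ, ‖f z‖ ≤ C * (1 + z.im⁻¹ ^ A)) (g : SL(2, ℤ)) :
    IsBoundedAtImInfty (f ∣[k] g) := by
  obtain ⟨n, hn, -, hnm⟩ := Subgroup.exists_pow_mem_of_index_ne_zero
    (Subgroup.FiniteIndex.index_ne_zero (H := Γ)) (g * ModularGroup.T * g⁻¹)
  have hn0 : (0 : ℝ) < n := by exact_mod_cast hn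
  set F : ℍ → ℂ := f ∣[k] g with hF
  have hFT : F ∣[k] (ModularGroup.T ^ n) = F := by
    rw [hF, ← SlashAction.slash_mul]
    have h1 : g * ModularGroup.T ^ n = (g * ModularGroup.T * g⁻¹) ^ n * g := by
      rw [conj_pow]
      group
    rw [h1, SlashAction.slash_mul, hinv _ hnm]
  have hper : ∀ z w : ℍ, (w : ℂ) = z + n → F w = F z := by
    intro z w hw
    have h1 := congrFun hFT z
    rw [ModularForm.SL_slash_apply] at h1
    have h2 : (ModularGroup.T ^ n • z : ℍ) = w := by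
      apply UpperHalfPlane.ext
      rw [hw]
      have := ModularGroup.coe_T_zpow_smul_eq z (n := (n : ℤ))
      rw [zpow_natCast] at this
      rw [this]
      push_cast
      rfl
    have h3 : denom (ModularGroup.T ^ n : SL(2, ℤ)) z = 1 := by
      have e1 := ModularGroup.coe_T_zpow (n : ℤ)
      rw [zpow_natCast] at e1
      rw [MG_denom]
      have e2 : (ModularGroup.T ^ n) 1 0 = 0 := by
        change (ModularGroup.T ^ n : SL(2, ℤ)).1 1 0 = 0
        rw [e1]; simp
      have e3 : (ModularGroup.T ^ n) 1 1 = 1 := by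
        change (ModularGroup.T ^ n : SL(2, ℤ)).1 1 1 = 1
        rw [e1]; simp
      rw [e2, e3]
      simp
    rw [h2, h3, one_zpow, mul_one] at h1
    exact h1
  have hFhol : MDiff F := by
    rw [hF]
    exact hol.slash k _
  obtain ⟨C', A', hgr⟩ := MG_growth k f C A hg g n hn0.le
  have hlim := MG_periodic (h := n) hn0 (F := F ∘ ofComplex)
    (by
      intro z
      by_cases hz : 0 < z.im
      · have hz' : 0 < (z + ((n : ℝ) : ℂ)).im := by simpa using hz
        simp only [Function.comp_apply]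
        rw [ofComplex_apply_of_im_pos hz, ofComplex_apply_of_im_pos hz']
        refine hper _ _ ?_
        simp
      · have hz' : ¬ 0 < (z + ((n : ℝ) : ℂ)).im := by simpa using hz
        simp only [Function.comp_apply]
        rw [ofComplex_apply_of_im_nonpos (not_lt.1 hz), ofComplex_apply_of_im_nonpos (not_lt.1 hz')])
    (by
      rw [UpperHalfPlane.mdifferentiable_iff] at hFhol
      have : ∀ᶠ z : ℂ in (comap Complex.im atTop), 0 < z.im :=
        tendsto_comap.eventually (eventually_gt_atTop 0)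
      filter_upwards [this] with z hz
      exact (hFhol z hz).differentiableAt ((isOpen_lt continuous_const Complex.continuous_im).mem_nhds hz))
    C' A'
    (by
      have : ∀ᶠ z : ℂ in (comap Complex.im atTop), 1 ≤ z.im :=
        tendsto_comap.eventually (eventually_ge_atTop 1)
      filter_upwards [this] with z hz hre
      have hz0 : 0 < z.im := lt_of_lt_of_le one_pos hz
      have := hgr (ofComplex z)
      rw [ofComplex_apply_of_im_pos hz0] at this
      simp only [Function.comp_apply]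
      rw [ofComplex_apply_of_im_pos hz0]
      exact this hz hre)
  obtain ⟨L, hL⟩ := hlim
  have h1 : Tendsto F atImInfty (𝓝 L) := by
    have := hL.comp tendsto_coe_atImInfty
    refine this.congr fun z => ?_
    simp
  exact h1.isBigO_one ℝ

end H94M
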