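import Mathlib

set_option autoImplicit false

/-!
# H94M, module P (the Doi-Naganuma kernel at level `N`, `5 ∣ N`): definitions

`K = ℚ(√5)`, `ω = (1 + √5)/2`.  The index `X = (a, x, y, b)` stands for the bilinear form
`a z₁ z₂ + l z₁ + l' z₂ + b`, `l = x + y ω`, with `l l' - a b = 5 μ`.  The pair `(n, j)` stands for
`ν` in the inverse different, `ν = (n + (n - 2 j)/√5)/2`: `Tr ν = n`, `Tr (ν ω') = j`,
`5 ν ν' = qf n j`, and an integer `r` divides `√5 ν` iff `r ∣ n` and `r ∣ j`.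
-/

namespace H94M

open UpperHalfPlane Real MatrixGroups CongruenceSubgroup
open scoped ModularForm

/-- `e(z) = exp (2 π i z)`. -/
noncomputable def ee (z : ℂ) : ℂ := Complex.exp (2 * (π : ℂ) * Complex.I * z)

/-- `ω = (1 + √5)/2`. -/
noncomputable def w1 : ℝ := (1 + √5) / 2

/-- `ω' = (1 - √5)/2`. -/
noncomputable def w2 : ℝ := (1 - √5) / 2

/-- The quadratic character modulo `5`. -/
def chi (n : ℤ) : ℤ := if n % 5 = 0 then 0 else if n % 5 = 1 ∨ n % 5 = 4 then 1 else -1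

/-- The norm form `N (x + y ω) = x² + x y - y²`; also `5 ν ν'` for `ν = ν (x, y)`. -/
def qf (x y : ℤ) : ℤ := x ^ 2 + x * y - y ^ 2

/-- `ν (n, j)`. -/
noncomputable def nu1 (n j : ℤ) : ℝ := ((n : ℝ) + ((n : ℝ) - 2 * j) / √5) / 2

/-- The conjugate of `ν (n, j)`. -/
noncomputable def nu2 (n j : ℤ) : ℝ := ((n : ℝ) - ((n : ℝ) - 2 * j) / √5) / 2

/-! ### The kernel -/

/-- The indices `(a, x, y, b)`. -/
abbrev Ix : Type := ℤ × ℤ × ℤ × ℤ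

/-- The bilinear form `a z₁ z₂ + l z₁ + l' z₂ + b`. -/
noncomputable def Xf (X : Ix) (z₁ z₂ : ℂ) : ℂ :=
  (X.1 : ℂ) * z₁ * z₂ + ((X.2.1 : ℂ) + (X.2.2.1 : ℂ) * w1) * z₁ +
    ((X.2.1 : ℂ) + (X.2.2.1 : ℂ) * w2) * z₂ + (X.2.2.2 : ℂ)

/-- The set of indices of the kernel of level `M`. -/
def XS (M μ : ℕ) : Set Ix :=
  {X | (M : ℤ) ∣ X.1 ∧ qf X.2.1 X.2.2.1 - X.1 * X.2.2.2 = 5 * (μ : ℤ)}

/-- The kernel `Ω_μ` of level `M` (used for `5 ∣ M`). -/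
noncomputable def Om (k M μ : ℕ) (z₁ z₂ : ℂ) : ℂ :=
  ∑' X : XS M μ, (chi (X : Ix).2.2.2 : ℂ) / Xf X z₁ z₂ ^ k

/-! ### Points of `ℍ × ℍ` with given heights -/

/-- First coordinate of the point with parameters `t` and height `y`. -/
noncomputable def pz1 (y : ℝ) (t : ℝ × ℝ) : ℂ := ((t.1 + t.2 * w2 : ℝ) : ℂ) + (y : ℂ) * Complex.I

/-- Second coordinate of the point with parameters `t` and height `y`. -/
noncomputable def pz2 (y : ℝ) (t : ℝ × ℝ) : ℂ := ((t.1 + t.2 * w1 : ℝ) : ℂ) + (y : ℂ) * Complex.I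

/-- The unit square. -/
def Q2 : Set (ℝ × ℝ) := Set.Ioc (0 : ℝ) 1 ×ˢ Set.Ioc (0 : ℝ) 1

/-- The Fourier coefficient `(n, j)` of a `ℤ²`-periodic function. -/
noncomputable def cf2 (g : ℝ × ℝ → ℂ) (n j : ℤ) : ℂ :=
  ∫ t in Q2, g t * ee (-((n : ℂ) * (t.1 : ℂ) + (j : ℂ) * (t.2 : ℂ)))

/-! ### Exponential sums -/

/-- An inverse of `d` modulo `c`. -/
def invm (d : ℤ) (c : ℕ) : ℤ := (((d : ZMod c)⁻¹).val : ℤ)

/-- The Kloosterman sum `K (m, n; c)`. -/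
noncomputable def Kl (m n : ℤ) (c : ℕ) : ℂ :=
  ∑ d ∈ (Finset.range c).filter (fun d => Nat.Coprime d c),
    ee (((m * (d : ℤ) + n * invm d c : ℤ) : ℂ) / (c : ℂ))

/-- The exponential sum `∑_{l mod a, N l = 5 μ mod a} χ (b) e (Tr (ν l') / a)`. -/
noncomputable def Ea (a μ : ℕ) (n j : ℤ) : ℂ :=
  ∑ x ∈ Finset.range a, ∑ y ∈ Finset.range a,
    if (a : ℤ) ∣ qf x y - 5 * (μ : ℤ) then
      (chi ((qf x y - 5 * (μ : ℤ)) / (a : ℤ)) : ℂ) * ee (((n * x + j * y : ℤ) : ℂ) / (a : ℂ))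
    else 0

/-- The Gauss sum of the norm form. -/
noncomputable def Sg (h : ℤ) (c : ℕ) : ℂ :=
  ∑ x ∈ Finset.range c, ∑ y ∈ Finset.range c, ee (((h * qf x y : ℤ) : ℂ) / (c : ℂ))

/-! ### Poincaré series -/

/-- A matrix with bottom row `v` (for coprime `v`). -/
noncomputable def gv (v : Fin 2 → ℤ) : SL(2, ℤ) :=
  open Classical in
  if h : IsCoprime (v 0) (v 1) then Classical.choose (h.exists_SL2_row 1) else 1

/-- The term of the Poincaré series belonging to the bottom row `v`. -/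
noncomputable def pt (k μ : ℕ) (v : Fin 2 → ℤ) (τ : ℍ) : ℂ :=
  ee ((μ : ℂ) * ((gv v • τ : ℍ) : ℂ)) / ((v 0 : ℂ) * (τ : ℂ) + (v 1 : ℂ)) ^ k

/-- The Poincaré series over a set of coprime bottom rows. -/
noncomputable def PS (k μ : ℕ) (S : Set (Fin 2 → ℤ)) (τ : ℍ) : ℂ :=
  (1 / 2) * ∑' v : S, pt k μ v τ

/-- The coprime bottom rows of `Γ₀(N)`. -/
def Row (N : ℕ) : Set (Fin 2 → ℤ) := {v | IsCoprime (v 0) (v 1) ∧ (N : ℤ) ∣ v 0}

/-- The Fourier coefficient at `n` (`0` for `n ≤ 0`). -/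
noncomputable def ac (f : ℍ → ℂ) (n : ℤ) : ℂ :=
  if 0 < n then PowerSeries.coeff n.toNat (qExpansion 1 f) else 0

/-- `∫_{Im w = y} w ^ (-k) e (-μ / (c² w) - n w) dw`. -/
noncomputable def Iy (k : ℕ) (y : ℝ) (c : ℕ) (μ n : ℤ) : ℂ :=
  ∫ x : ℝ, ee (-((μ : ℂ) / ((c : ℂ) ^ 2 * ((x : ℂ) + (y : ℂ) * Complex.I))) -
    (n : ℂ) * ((x : ℂ) + (y : ℂ) * Complex.I)) / ((x : ℂ) + (y : ℂ) * Complex.I) ^ k

/-! ### Coefficients of the lifts -/

/-- The constant `((-2 π i)^k / (k-1)!) √5 / 5^k`. -/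
noncomputable def CC (k : ℕ) : ℂ :=
  (-2 * (π : ℂ) * Complex.I) ^ k / ((k - 1).factorial : ℂ) * ((√5 : ℝ) : ℂ) / (5 : ℂ) ^ k

/-- The coefficients of the lift of level `N` of a series with coefficients `a`. -/
noncomputable def lc (k N : ℕ) (a : ℤ → ℂ) (n j : ℤ) : ℂ :=
  if 0 < n ∧ 0 < qf n j then
    ∑ r ∈ (Int.gcd n j).divisors.filter (fun r => Nat.Coprime r N),
      (chi r : ℂ) * (r : ℂ) ^ (k - 1) * a (qf n j / (r : ℤ) ^ 2)
  else 0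

/-- The Fourier coefficients of the kernel of level `M`, divided by `2 CC k`. -/
noncomputable def kc (k M μ : ℕ) (n j : ℤ) : ℂ :=
  if 0 < n ∧ 0 < qf n j then
    ∑ r ∈ (Int.gcd n j).divisors,
      (chi r : ℂ) * (r : ℂ) ^ (k - 1) *
        ac (PS k μ (Row (M / Nat.gcd M r))) (qf n j / (r : ℤ) ^ 2)
  else 0

/-- Series over the inverse different. -/
noncomputable def HSe (c : ℤ → ℤ → ℂ) (z₁ z₂ : ℂ) : ℂ :=
  ∑' p : ℤ × ℤ, c p.1 p.2 * ee ((nu1 p.1 p.2 : ℂ) * z₁ + (nu2 p.1 p.2 : ℂ) * z₂)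

end H94M
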