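import Pool.Agent.Lib.H94M.P0
import Pool.Agent.Lib.H94M.Defs

set_option autoImplicit false

/-!
# H94M, module P: the statements of the submodules PE, PP, PT, PK, PF

(Interface: each `StXX` is proved in the submodule XX; the assembly PZ uses only these.)
-/

namespace H94M

open UpperHalfPlane Real MatrixGroups CongruenceSubgroup
open scoped ModularForm

/-- PE: the exponential sum identity, `5 ∣ a`. -/
def StPE : Prop := ∀ (a μ : ℕ) (n j : ℤ), 0 < a → 5 ∣ a →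
  Ea a μ n j = ∑ r ∈ (Nat.gcd a (Int.gcd n j)).divisors,
    (chi r : ℂ) * (r : ℂ) * Kl μ (qf n j / (r : ℤ) ^ 2) (a / r)

/-- PP: the Poincaré series are cusp forms. -/
def StPP : Prop := ∀ (N k μ : ℕ), 1 ≤ N → 4 ≤ k → 1 ≤ μ →
  ∃ F : CuspForm (G0 N) (k : ℤ), (F : ℍ → ℂ) = PS k μ (Row N)

/-- PP: their Fourier coefficients, computed at any height `y`. -/
def StPC : Prop := ∀ (N k μ : ℕ) (n : ℤ) (y : ℝ), 1 ≤ N → 4 ≤ k → Even k → 1 ≤ μ → 0 < y →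
  HasSum (fun c : ℕ => if 0 < c ∧ N ∣ c then Kl μ n c * Iy k y c μ n / (c : ℂ) ^ k else 0)
    (ac (PS k μ (Row N)) n - if n = μ then 1 else 0)

/-- PT: the Poincaré series span the space of cusp forms. -/
def StPT : Prop := ∀ (N k : ℕ), 1 ≤ N → 4 ≤ k → Even k → ∀ f : CuspForm (G0 N) (k : ℤ),
  ∃ (s : Finset ℕ) (c : ℕ → ℂ), (∀ μ ∈ s, 1 ≤ μ) ∧
    ∀ τ : ℍ, f τ = ∑ μ ∈ s, c μ * PS k μ (Row N) τ

/-- PK: the kernel of level `M`, `5 ∣ M`, is invariant under the diagonal action of `Γ₀(M)`. -/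
def StPK : Prop := ∀ (k M μ : ℕ), 4 ≤ k → 1 ≤ M → 5 ∣ M → 1 ≤ μ → DTrans M k (Om k M μ)

/-- PF: the Fourier expansion of the kernel. -/
def StPF : Prop := ∀ (k M μ : ℕ), 4 ≤ k → Even k → 1 ≤ M → 5 ∣ M → 1 ≤ μ →
  ∀ z₁ z₂ : ℂ, 0 < z₁.im → 0 < z₂.im → Om k M μ z₁ z₂ = 2 * CC k * HSe (kc k M μ) z₁ z₂

end H94M
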