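import Pool.Agent.Lib.H94M.P0

set_option autoImplicit false

/-!
# H94M, module P: elementary facts on `ee`, `w1`, `w2`, `chi`, `nu1`, `nu2`, `qf`
-/

namespace H94M

open Real

theorem ee_add (z w : ℂ) : ee (z + w) = ee z * ee w := by
  simp only [ee, mul_add, Complex.exp_add]

theorem ee_zero : ee 0 = 1 := by simp [ee]

theorem ee_neg (z : ℂ) : ee (-z) = (ee z)⁻¹ := by
  simp only [ee, mul_neg, Complex.exp_neg]

theorem ee_ne_zero (z : ℂ) : ee z ≠ 0 := Complex.exp_ne_zero _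

theorem ee_int (n : ℤ) : ee (n : ℂ) = 1 := by
  unfold ee
  rw [Complex.exp_eq_one_iff]
  exact ⟨n, by ring⟩

theorem ee_add_int (z : ℂ) (n : ℤ) : ee (z + n) = ee z := by
  rw [ee_add, ee_int, mul_one]

theorem norm_ee (z : ℂ) : ‖ee z‖ = Real.exp (-(2 * π * z.im)) := by
  unfold ee
  rw [Complex.norm_exp]
  congr 1
  simp [Complex.mul_re, Complex.mul_im]

theorem ee_nsmul (n : ℕ) (z : ℂ) : ee (n * z) = ee z ^ n := by
  unfold ee
  rw [← Complex.exp_nat_mul]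
  congr 1
  ring

theorem continuous_ee : Continuous ee := by
  unfold ee
  fun_prop

theorem w_add : w1 + w2 = 1 := by unfold w1 w2; ring

theorem w_sub : w1 - w2 = √5 := by unfold w1 w2; ring

theorem w_mul : w1 * w2 = -1 := by
  unfold w1 w2
  have h : √5 * √5 = 5 := Real.mul_self_sqrt (by norm_num)
  nlinarith

theorem w1_sq : w1 ^ 2 = w1 + 1 := by
  have h := w_mul
  have h2 := w_add
  have : w2 = 1 - w1 := by linarith
  rw [this] at h
  nlinarith

theorem w2_sq : w2 ^ 2 = w2 + 1 := by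
  have h := w_mul
  have h2 := w_add
  have : w1 = 1 - w2 := by linarith
  rw [this] at h
  nlinarith

theorem w1_bounds : 1 < w1 ∧ w1 < 2 := by
  have h1 : (1 : ℝ) < √5 := by
    rw [Real.lt_sqrt (by norm_num)]; norm_num
  have h2 : √5 < 3 := by
    rw [Real.sqrt_lt' (by norm_num)]; norm_num
  unfold w1
  constructor <;> linarith

theorem w2_bounds : -1 < w2 ∧ w2 < 0 := by
  have h1 : (1 : ℝ) < √5 := by
    rw [Real.lt_sqrt (by norm_num)]; norm_num
  have h2 : √5 < 3 := by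
    rw [Real.sqrt_lt' (by norm_num)]; norm_num
  unfold w2
  constructor <;> linarith

/-- `N (x + y ω) = (x + y ω)(x + y ω')`. -/
theorem qf_eq (x y : ℤ) : ((x : ℝ) + y * w1) * ((x : ℝ) + y * w2) = (qf x y : ℝ) := by
  have h := w_mul
  have h2 := w_add
  unfold qf
  push_cast
  have : ((x : ℝ) + y * w1) * ((x : ℝ) + y * w2) =
      (x : ℝ) ^ 2 + x * y * (w1 + w2) + y ^ 2 * (w1 * w2) := by ring
  rw [this, h, h2]
  ring

theorem chi_neg (n : ℤ) : chi (-n) = chi n := by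
  unfold chi
  split_ifs <;> first | rfl | omega

theorem chi_add_five_mul (n m : ℤ) : chi (n + 5 * m) = chi n := by
  unfold chi
  have : (n + 5 * m) % 5 = n % 5 := by omega
  rw [this]

theorem chi_mul (n m : ℤ) : chi (n * m) = chi n * chi m := by
  have hn : n % 5 = 0 ∨ n % 5 = 1 ∨ n % 5 = 2 ∨ n % 5 = 3 ∨ n % 5 = 4 := by omega
  have hm : m % 5 = 0 ∨ m % 5 = 1 ∨ m % 5 = 2 ∨ m % 5 = 3 ∨ m % 5 = 4 := by omega
  unfold chi
  rw [Int.mul_emod]
  rcases hn with h | h | h | h | h <;> rcases hm with h' | h' | h' | h' | h' <;>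
    rw [h, h'] <;> decide

theorem norm_chi_le (n : ℤ) : ‖(chi n : ℂ)‖ ≤ 1 := by
  unfold chi
  split_ifs <;> simp

theorem chi_eq_zero_iff (n : ℤ) : chi n = 0 ↔ (5 : ℤ) ∣ n := by
  unfold chi
  split_ifs <;> simp <;> omega

/-- `Tr ν = n`. -/
theorem nu_add (n j : ℤ) : nu1 n j + nu2 n j = n := by unfold nu1 nu2; ring

/-- `Tr (ν ω') = j`. -/
theorem nu_w (n j : ℤ) : nu1 n j * w2 + nu2 n j * w1 = j := by
  unfold nu1 nu2 w1 w2
  have h : √5 * √5 = 5 := Real.mul_self_sqrt (by norm_num)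
  have h0 : √5 ≠ 0 := by positivity
  field_simp
  ring_nf

/-- `5 ν ν' = qf n j`. -/
theorem nu_mul (n j : ℤ) : 5 * (nu1 n j * nu2 n j) = (qf n j : ℝ) := by
  unfold nu1 nu2 qf
  have h : √5 * √5 = 5 := Real.mul_self_sqrt (by norm_num)
  have h0 : √5 ≠ 0 := by positivity
  have h2 : √5 ^ 2 = 5 := by rw [sq, h]
  push_cast
  field_simp
  ring_nf
  rw [h2]
  ring

/-- `ν` is totally positive iff `n > 0` and `qf n j > 0`. -/
theorem nu_pos_iff (n j : ℤ) : (0 < nu1 n j ∧ 0 < nu2 n j) ↔ (0 < n ∧ 0 < qf n j) := by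
  have h1 := nu_add n j
  have h2 := nu_mul n j
  constructor
  · rintro ⟨ha, hb⟩
    constructor
    · have : (0 : ℝ) < n := by linarith
      exact_mod_cast this
    · have : (0 : ℝ) < qf n j := by rw [← h2]; positivity
      exact_mod_cast this
  · rintro ⟨ha, hb⟩
    have ha' : (0 : ℝ) < n := by exact_mod_cast ha
    have hb' : (0 : ℝ) < qf n j := by exact_mod_cast hb
    rw [← h2] at hb'
    have hb'' : 0 < nu1 n j * nu2 n j := by linarith
    rcases pos_and_pos_or_neg_and_neg_of_mul_pos hb'' with h | h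
    · exact h
    · linarith [h.1, h.2]

/-- The parametrisation and the characters: `ν z₁ + ν' z₂ = n t₁ + j t₂ + i (ν y₁ + ν' y₂)`. -/
theorem nu_pz (n j : ℤ) (y₁ y₂ : ℝ) (t : ℝ × ℝ) :
    (nu1 n j : ℂ) * pz1 y₁ t + (nu2 n j : ℂ) * pz2 y₂ t =
      (n : ℂ) * t.1 + (j : ℂ) * t.2 + ((nu1 n j * y₁ + nu2 n j * y₂ : ℝ) : ℂ) * Complex.I := by
  have h1 : ((nu1 n j : ℂ) + (nu2 n j : ℂ)) = (n : ℂ) := by exact_mod_cast nu_add n j
  have h2 : ((nu1 n j : ℂ) * (w2 : ℂ) + (nu2 n j : ℂ) * (w1 : ℂ)) = (j : ℂ) := by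
    exact_mod_cast nu_w n j
  unfold pz1 pz2
  push_cast
  have : (nu1 n j : ℂ) * ((t.1 : ℂ) + t.2 * (w2 : ℂ) + y₁ * Complex.I) +
      (nu2 n j : ℂ) * ((t.1 : ℂ) + t.2 * (w1 : ℂ) + y₂ * Complex.I) =
      ((nu1 n j : ℂ) + (nu2 n j : ℂ)) * t.1 +
      ((nu1 n j : ℂ) * (w2 : ℂ) + (nu2 n j : ℂ) * (w1 : ℂ)) * t.2 +
      ((nu1 n j : ℂ) * y₁ + (nu2 n j : ℂ) * y₂) * Complex.I := by ring
  rw [this, h1, h2]

theorem pz1_im (y : ℝ) (t : ℝ × ℝ) : (pz1 y t).im = y := by simp [pz1]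

theorem pz2_im (y : ℝ) (t : ℝ × ℝ) : (pz2 y t).im = y := by simp [pz2]

theorem continuous_pz1 (y : ℝ) : Continuous (pz1 y) := by
  unfold pz1
  fun_prop

theorem continuous_pz2 (y : ℝ) : Continuous (pz2 y) := by
  unfold pz2
  fun_prop

/-- Every point is of the form `(pz1 y₁ t, pz2 y₂ t)`. -/
theorem exists_pz (z₁ z₂ : ℂ) : ∃ t : ℝ × ℝ, pz1 z₁.im t = z₁ ∧ pz2 z₂.im t = z₂ := by
  have h0 : √5 ≠ 0 := by positivity
  have hs : w1 - w2 = √5 := w_sub
  refine ⟨(z₂.re - (z₂.re - z₁.re) / √5 * w1, (z₂.re - z₁.re) / √5), ?_, ?_⟩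
  · apply Complex.ext
    · simp only [pz1, Complex.add_re, Complex.ofReal_re, Complex.mul_re, Complex.ofReal_im,
        Complex.I_re, Complex.I_im, mul_zero, zero_mul, sub_zero, add_zero]
      have : z₂.re - (z₂.re - z₁.re) / √5 * w1 + (z₂.re - z₁.re) / √5 * w2 =
        z₂.re - (z₂.re - z₁.re) / √5 * (w1 - w2) := by ring
      rw [this, hs, div_mul_cancel₀ _ h0]
      ring
    · simp [pz1]
  · apply Complex.ext
    · simp only [pz2, Complex.add_re, Complex.ofReal_re, Complex.mul_re, Complex.ofReal_im,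
        Complex.I_re, Complex.I_im, mul_zero, zero_mul, sub_zero, add_zero]
      ring
    · simp [pz2]

end H94M
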