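import Pool.Agent.Lib.H94M.PP1
import Pool.Agent.Lib.H94M.QA0

set_option autoImplicit false

/-!
# H94M, chunk PC1 (M): the coefficients of a cusp form as integrals at any height

PROOF. `f τ = Σ_{m ≥ 0} a_m ee (m τ)` (`ModularFormClass.hasSum_qExpansion f one_pos
(one_mem_strictPeriods N)`; `Function.Periodic.qParam 1 τ ^ m = ee (m τ)`), absolutely convergent and,
for fixed `Im τ = y`, with terms of norm independent of `x`: `‖a_m‖ exp (-2 π m y)`, summable
(a HasSum in ℂ is absolutely summable; evaluate at `τ = i y`). Multiply by `ee (-(n τ))` and integrate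
over `[0,1]` term by term (`intervalIntegral.hasSum_integral_of_dominated_convergence` or
`hasSum_intervalIntegral_of_summable_norm`): `∫_0^1 ee ((m - n)(x + i y)) dx = 1` if `m = n` and
`0` otherwise (`integral_exp_mul_complex`, `exp (2 π i (m - n)) = 1`). So the integral is `a_n` for
`n ≥ 0` and `0` for `n < 0`; for `n = 0`, `a_0 = 0` since `f` is a cusp form
(`CuspFormClass.qExpansion_coeff_zero`, hypotheses as above). `ac` is `0` for `n ≤ 0` by
definition. (For `n > 0` one can also use `ModularFormClass.qExpansion_coeff_eq_intervalIntegral`.)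
-/

namespace H94M

open UpperHalfPlane Real MatrixGroups CongruenceSubgroup
open scoped ModularForm

theorem PC1_pow (j : ℤ) (y : ℝ) :
    ∫ x in (0 : ℝ)..1, ee ((j : ℂ) * ((x : ℂ) + (y : ℂ) * Complex.I)) = if j = 0 then 1 else 0 := by
  by_cases hj : j = 0
  · subst hj
    simp [ee]
  · rw [if_neg hj]
    obtain ⟨c, hc⟩ : ∃ c : ℂ, c = 2 * (π : ℂ) * Complex.I * j := ⟨_, rfl⟩
    have hc0 : c ≠ 0 := by
      rw [hc]
      exact mul_ne_zero Complex.two_pi_I_ne_zero (by exact_mod_cast hj)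
    have h1 : ∀ x : ℝ, ee ((j : ℂ) * ((x : ℂ) + (y : ℂ) * Complex.I)) =
        ee ((j : ℂ) * ((y : ℂ) * Complex.I)) * Complex.exp (c * (x : ℂ)) := by
      intro x
      unfold ee
      rw [← Complex.exp_add, hc]
      congr 1
      ring
    simp_rw [h1]
    rw [intervalIntegral.integral_const_mul, integral_exp_mul_complex hc0]
    have h2 : Complex.exp (c * ((1 : ℝ) : ℂ)) = 1 := by
      rw [hc, Complex.ofReal_one, mul_one, mul_comm, Complex.exp_int_mul_two_pi_mul_I]
    have h3 : Complex.exp (c * ((0 : ℝ) : ℂ)) = 1 := by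
      simp
    rw [h2, h3]
    simp

theorem PC1_mul (m n : ℤ) (w : ℂ) : ee ((m : ℂ) * w) * ee (-((n : ℂ) * w)) =
    ee (((m - n : ℤ) : ℂ) * w) := by
  rw [← ee_add]
  congr 1
  push_cast
  ring

/-- The case `f = ee (μ τ)`. -/
theorem ee_integral (μ : ℕ) (n : ℤ) (y : ℝ) :
    ∫ x in (0 : ℝ)..1, ee ((μ : ℂ) * ((x : ℂ) + (y : ℂ) * Complex.I)) *
      ee (-((n : ℂ) * ((x : ℂ) + (y : ℂ) * Complex.I))) = if n = μ then 1 else 0 := by
  have h1 : ∀ x : ℝ, ee ((μ : ℂ) * ((x : ℂ) + (y : ℂ) * Complex.I)) *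
      ee (-((n : ℂ) * ((x : ℂ) + (y : ℂ) * Complex.I))) =
      ee ((((μ : ℤ) - n : ℤ) : ℂ) * ((x : ℂ) + (y : ℂ) * Complex.I)) := by
    intro x
    have := PC1_mul (μ : ℤ) n ((x : ℂ) + (y : ℂ) * Complex.I)
    rwa [Int.cast_natCast] at this
  simp_rw [h1]
  rw [PC1_pow]
  by_cases h : n = μ
  · rw [if_pos h, if_pos (by omega)]
  · rw [if_neg h, if_neg (by omega)]

theorem PC1_hasSum (N k : ℕ) [NeZero N] (f : CuspForm (G0 N) (k : ℤ)) (τ : ℍ) :
    HasSum (fun m : ℕ => PowerSeries.coeff m (qExpansion 1 (f : ℍ → ℂ)) * ee ((m : ℂ) * τ))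
      (f τ) := by
  have h := ModularForm.hasSum_qExpansion f one_pos (one_mem_strictPeriods N) τ
  refine h.congr_fun fun m => ?_
  rw [Function.Periodic.qParam, ← Complex.exp_nat_mul]
  unfold ee
  congr 2
  push_cast
  ring

theorem ac_integral (N k : ℕ) [NeZero N] (f : CuspForm (G0 N) (k : ℤ)) (n : ℤ) {y : ℝ}
    (hy : 0 < y) :
    ac f n = ∫ x in (0 : ℝ)..1, f (ofComplex ((x : ℂ) + (y : ℂ) * Complex.I)) *
      ee (-((n : ℂ) * ((x : ℂ) + (y : ℂ) * Complex.I))) := by
  have him : ∀ x : ℝ, 0 < ((x : ℂ) + (y : ℂ) * Complex.I).im := by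
    intro x
    simpa using hy
  obtain ⟨a, ha⟩ : ∃ a : ℕ → ℂ, a = fun m => PowerSeries.coeff m (qExpansion 1 (f : ℍ → ℂ)) :=
    ⟨_, rfl⟩
  have hs : ∀ x : ℝ, HasSum (fun m : ℕ => a m *
      ee ((((m : ℤ) - n : ℤ) : ℂ) * ((x : ℂ) + (y : ℂ) * Complex.I)))
      (f (ofComplex ((x : ℂ) + (y : ℂ) * Complex.I)) *
        ee (-((n : ℂ) * ((x : ℂ) + (y : ℂ) * Complex.I)))) := by
    intro x
    have h1 := (PC1_hasSum N k f (ofComplex ((x : ℂ) + (y : ℂ) * Complex.I))).mul_right
      (ee (-((n : ℂ) * ((x : ℂ) + (y : ℂ) * Complex.I))))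
    refine h1.congr_fun fun m => ?_
    rw [ofComplex_apply_of_im_pos (him x), mul_assoc, ha]
    have := PC1_mul (m : ℤ) n ((x : ℂ) + (y : ℂ) * Complex.I)
    rw [Int.cast_natCast] at this
    rw [← this]
  have hnorm : ∀ (m : ℕ) (x : ℝ), ‖a m *
      ee ((((m : ℤ) - n : ℤ) : ℂ) * ((x : ℂ) + (y : ℂ) * Complex.I))‖ =
      ‖a m‖ * Real.exp (-2 * π * (((m : ℤ) - n : ℤ) * y)) := by
    intro m x
    rw [norm_mul, PP1_norm_ee]
    congr 3
    simp
  have hint := intervalIntegral.hasSum_integral_of_dominated_convergence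
    (μ := MeasureTheory.volume) (a := (0 : ℝ)) (b := 1)
    (F := fun (m : ℕ) (x : ℝ) => a m *
      ee ((((m : ℤ) - n : ℤ) : ℂ) * ((x : ℂ) + (y : ℂ) * Complex.I)))
    (f := fun x : ℝ => f (ofComplex ((x : ℂ) + (y : ℂ) * Complex.I)) *
        ee (-((n : ℂ) * ((x : ℂ) + (y : ℂ) * Complex.I))))
    (fun m _ => ‖a m‖ * Real.exp (-2 * π * (((m : ℤ) - n : ℤ) * y)))
    (fun m => by
      refine Continuous.aestronglyMeasurable ?_
      unfold ee
      fun_prop)
    (fun m => by
      filter_upwards with x _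
      exact (hnorm m x).le)
    (by
      filter_upwards with x _
      refine (hs 0).summable.norm.congr fun m => ?_
      exact hnorm m 0)
    (by
      exact intervalIntegrable_const)
    (by
      filter_upwards with x _
      exact hs x)
  have h2 : ∀ m : ℕ, ∫ x in (0 : ℝ)..1, a m *
      ee ((((m : ℤ) - n : ℤ) : ℂ) * ((x : ℂ) + (y : ℂ) * Complex.I)) =
      a m * if ((m : ℤ) - n) = 0 then 1 else 0 := by
    intro m
    rw [intervalIntegral.integral_const_mul, PC1_pow]
  simp_rw [h2] at hint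
  rw [← hint.tsum_eq]
  by_cases hn : 0 ≤ n
  · obtain ⟨j, rfl⟩ : ∃ j : ℕ, n = j := ⟨n.toNat, by omega⟩
    rw [tsum_eq_single j]
    · rw [if_pos (sub_self _), mul_one]
      unfold ac
      by_cases hj : j = 0
      · subst hj
        rw [if_neg (by simp), ha]
        exact (CuspFormClass.qExpansion_coeff_zero f one_pos (one_mem_strictPeriods N)).symm
      · rw [if_pos (by omega), ha]
        simp
    · intro m hm
      rw [if_neg (by omega), mul_zero]
  · have h3 : ∀ m : ℕ, a m * (if ((m : ℤ) - n) = 0 then (1 : ℂ) else 0) = 0 := by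
      intro m
      rw [if_neg (by omega), mul_zero]
    simp_rw [h3]
    rw [tsum_zero]
    unfold ac
    rw [if_neg (by omega)]

end H94M
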