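import Pool.Agent.Lib.H94M.PP2

set_option autoImplicit false

/-!
# H94M, chunk PC2 (S/M): splitting the sum over the bottom rows

PROOF. `Row N` is the disjoint union of `{(0, 1), (0, -1)}`, `RowP N` and `- RowP N`. For `k`
even `pt k μ (-v) = pt k μ v`: `pt_eq` with `g = -gv v` (which acts as `gv v`,
`ModularGroup.SL_neg_smul`), `Even.neg_pow`. The two rows `(0, ±1)` give `ee (μ τ)` each (`pt_eq`
with `g = ±1`). Summability from `summable_pt`; e.g. write the sum over `Row N` as the sum of the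
function `Set.indicator` over all `v`, `Summable.tsum_add`/`tsum_subtype`, or
`Summable.tsum_union_disjoint`.
-/

namespace H94M

open UpperHalfPlane Real MatrixGroups CongruenceSubgroup
open scoped ModularForm

/-- The rows with positive first entry. -/
def RowP (N : ℕ) : Set (Fin 2 → ℤ) := {v | IsCoprime (v 0) (v 1) ∧ (N : ℤ) ∣ v 0 ∧ 0 < v 0}

theorem PC2_neg (k μ : ℕ) (hk : Even k) {v : Fin 2 → ℤ} (h : IsCoprime (v 0) (v 1)) (τ : ℍ) :
    pt k μ (-v) τ = pt k μ v τ := by
  have h1 := pt_eq k μ (gv v) (gv_row h 0) (gv_row h 1) τ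
  have h2 := pt_eq k μ (v := -v) (-gv v) (by
      rw [Matrix.SpecialLinearGroup.coe_neg, Matrix.neg_apply, Pi.neg_apply, gv_row h 0])
    (by rw [Matrix.SpecialLinearGroup.coe_neg, Matrix.neg_apply, Pi.neg_apply, gv_row h 1]) τ
  rw [h1, h2, ModularGroup.SL_neg_smul]
  congr 1
  simp only [Pi.neg_apply, Int.cast_neg]
  rw [show -(v 0 : ℂ) * τ + -(v 1 : ℂ) = -((v 0 : ℂ) * τ + v 1) by ring, hk.neg_pow]

theorem PC2_inf (k μ : ℕ) (τ : ℍ) : pt k μ ![0, 1] τ = ee ((μ : ℂ) * (τ : ℂ)) := by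
  rw [pt_eq k μ (v := ![0, 1]) 1 (by simp) (by simp) τ]
  simp

theorem PC2_neg_mem (N : ℕ) (v : Fin 2 → ℤ) :
    (-v ∈ RowP N) ↔ (IsCoprime (v 0) (v 1) ∧ (N : ℤ) ∣ v 0 ∧ v 0 < 0) := by
  unfold RowP
  simp only [Set.mem_setOf_eq, Pi.neg_apply, IsCoprime.neg_neg_iff, dvd_neg, Left.neg_pos_iff]

open Classical in
theorem PC2_ind (N : ℕ) (f : (Fin 2 → ℤ) → ℂ) (v : Fin 2 → ℤ) :
    (Row N).indicator f v = ((({![0, 1]} : Set (Fin 2 → ℤ)).indicator f v +
      ({![0, -1]} : Set (Fin 2 → ℤ)).indicator f v) + (RowP N).indicator f v) +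
      (-RowP N).indicator f v := by
  have hv : ∀ a b : ℤ, v = ![a, b] ↔ (v 0 = a ∧ v 1 = b) := by
    intro a b
    constructor
    · rintro rfl
      simp
    · rintro ⟨h0, h1⟩
      ext i
      fin_cases i
      · exact h0
      · exact h1
  simp only [Set.indicator_apply, Set.mem_singleton_iff, hv, Set.mem_neg, PC2_neg_mem]
  unfold Row RowP
  simp only [Set.mem_setOf_eq]
  by_cases hc : IsCoprime (v 0) (v 1)
  · by_cases hN : (N : ℤ) ∣ v 0
    · rcases lt_trichotomy (v 0) 0 with h | h | h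
      · rw [if_pos ⟨hc, hN⟩, if_neg (by omega), if_neg (by omega), if_neg (by omega),
          if_pos ⟨hc, hN, h⟩]
        ring
      · have h1 : v 1 = 1 ∨ v 1 = -1 := by
          rw [h, isCoprime_zero_left] at hc
          exact Int.isUnit_iff.1 hc
        rcases h1 with h1 | h1
        · rw [if_pos ⟨hc, hN⟩, if_pos ⟨h, h1⟩, if_neg (by omega), if_neg (by omega),
            if_neg (by omega)]
          ring
        · rw [if_pos ⟨hc, hN⟩, if_neg (by omega), if_pos ⟨h, h1⟩, if_neg (by omega),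
            if_neg (by omega)]
          ring
      · rw [if_pos ⟨hc, hN⟩, if_neg (by omega), if_neg (by omega), if_pos ⟨hc, hN, h⟩,
          if_neg (by omega)]
        ring
    · have h0 : v 0 ≠ 0 := by
        intro h0
        exact hN (h0 ▸ dvd_zero _)
      rw [if_neg (fun h => hN h.2), if_neg (fun h => h0 h.1), if_neg (fun h => h0 h.1),
        if_neg (fun h => hN h.2.1), if_neg (fun h => hN h.2.1)]
      ring
  · have h1 : ¬ (v 0 = 0 ∧ v 1 = 1) := by
      rintro ⟨h0, h1⟩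
      exact hc (by rw [h0, h1]; exact isCoprime_one_right)
    have h2 : ¬ (v 0 = 0 ∧ v 1 = -1) := by
      rintro ⟨h0, h1⟩
      exact hc (by rw [h0, h1]; exact isCoprime_one_right.neg_right)
    rw [if_neg (fun h => hc h.1), if_neg h1, if_neg h2,
        if_neg (fun h => hc h.1), if_neg (fun h => hc h.1)]
    ring

theorem PS_split (N k μ : ℕ) (hk : 3 ≤ k) (hev : Even k) (τ : ℍ) :
    PS k μ (Row N) τ = ee ((μ : ℂ) * (τ : ℂ)) + ∑' v : RowP N, pt k μ v τ := by
  obtain ⟨f, hf⟩ : ∃ f : (Fin 2 → ℤ) → ℂ, f = fun v => pt k μ v τ := ⟨_, rfl⟩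
  have hs : ∀ S : Set (Fin 2 → ℤ), Summable (S.indicator f) := by
    intro S
    have := (summable_pt k μ hk S τ).of_norm
    rw [hf]
    exact summable_subtype_iff_indicator.1 this
  have h1 : ∑' v : Row N, pt k μ v τ = ∑' v, (Row N).indicator f v := by
    rw [hf]
    exact tsum_subtype (Row N) (fun v => pt k μ v τ)
  have h2 : ∑' v : RowP N, pt k μ v τ = ∑' v, (RowP N).indicator f v := by
    rw [hf]
    exact tsum_subtype (RowP N) (fun v => pt k μ v τ)
  have h3 : ∑' v, (-RowP N).indicator f v = ∑' v, (RowP N).indicator f v := by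
    rw [← (Equiv.neg (Fin 2 → ℤ)).tsum_eq]
    refine tsum_congr fun v => ?_
    by_cases hv : v ∈ RowP N
    · rw [Set.indicator_of_mem hv, Set.indicator_of_mem (by simpa using hv), hf]
      exact PC2_neg k μ hev hv.1 τ
    · rw [Set.indicator_of_notMem hv, Set.indicator_of_notMem (by simpa using hv)]
  have h4 : ∀ w : Fin 2 → ℤ, ∑' v, ({w} : Set (Fin 2 → ℤ)).indicator f v = f w := by
    intro w
    rw [← tsum_subtype, tsum_fintype]
    simp
  unfold PS
  rw [h1, tsum_congr (PC2_ind N f), (((hs _).add (hs _)).add (hs _)).tsum_add (hs _),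
    ((hs _).add (hs _)).tsum_add (hs _), (hs _).tsum_add (hs _), h3, h2, h4, h4]
  have h5 : f ![0, -1] = f ![0, 1] := by
    rw [hf]
    have h := PC2_neg k μ hev (v := ![0, 1]) (by simpa using isCoprime_one_right) τ
    have e : -(![0, 1] : Fin 2 → ℤ) = ![0, -1] := by simp
    rw [e] at h
    exact h
  have h6 : f ![0, 1] = ee ((μ : ℂ) * (τ : ℂ)) := by
    rw [hf]
    exact PC2_inf k μ τ
  rw [h5, h6]
  ring

end H94M
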