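import Pool.Agent.Lib.H94M.PC2

set_option autoImplicit false

/-!
# H94M, chunk PC3 (M): rows `(c, d + c m)`

PROOF. Pure combinatorics. `RowP N` is in bijection with the triples `(c, d, m)`, `0 < c`,
`N ∣ c`, `d ∈ range c`, `Nat.Coprime d c`, `m ∈ ℤ`, by `v = (c, d + c m)` (`d = v 1 % c`,
`m = v 1 / c`; `IsCoprime (c : ℤ) (d + c m) ↔ Nat.Coprime d c`: `IsCoprime.add_mul_left_right_iff`,
`Nat.isCoprime_iff_coprime`). `Equiv.summable_iff`, then `Summable.hasSum.sigma` /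
`HasSum.sigma_of_hasSum` twice (inner sums: a finite sum over `d` of `tsum`s over `m`; summable
since a summable family in ℂ is absolutely summable and subfamilies are summable,
`Summable.comp_injective`), and extension by zero from `{c // 0 < c ∧ N ∣ c}` to `ℕ`
(`hasSum_subtype_iff_indicator`).
-/

namespace H94M

open Classical in
/-- the extended family -/
noncomputable def PC3_g (N : ℕ) (G : ℤ → ℤ → ℂ) (t : ℕ × (ℕ × ℤ)) : ℂ :=
  if 0 < t.1 ∧ N ∣ t.1 ∧ t.2.1 < t.1 ∧ Nat.Coprime t.2.1 t.1 then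
    G t.1 ((t.2.1 : ℤ) + t.1 * t.2.2) else 0

/-- the coordinates of a row -/
noncomputable def PC3_phi (N : ℕ) (v : RowP N) : ℕ × (ℕ × ℤ) :=
  ((v.1 0).toNat, ((v.1 1 % v.1 0).toNat, v.1 1 / v.1 0))

theorem PC3_phi_facts (N : ℕ) (v : RowP N) :
    ((PC3_phi N v).1 : ℤ) = v.1 0 ∧ ((PC3_phi N v).2.1 : ℤ) = v.1 1 % v.1 0 ∧
      ((PC3_phi N v).2.1 : ℤ) + (PC3_phi N v).1 * (PC3_phi N v).2.2 = v.1 1 := by
  have h0 : 0 < v.1 0 := v.2.2.2
  have h1 : ((PC3_phi N v).1 : ℤ) = v.1 0 := Int.toNat_of_nonneg h0.le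
  have h2 : ((PC3_phi N v).2.1 : ℤ) = v.1 1 % v.1 0 :=
    Int.toNat_of_nonneg (Int.emod_nonneg _ h0.ne')
  refine ⟨h1, h2, ?_⟩
  rw [h1, h2]
  exact Int.emod_add_mul_ediv _ _

theorem PC3_inj (N : ℕ) : Function.Injective (PC3_phi N) := by
  intro v w h
  obtain ⟨a1, -, a3⟩ := PC3_phi_facts N v
  obtain ⟨b1, -, b3⟩ := PC3_phi_facts N w
  rw [h] at a1 a3
  ext i
  fin_cases i
  · exact a1.symm.trans b1
  · exact a3.symm.trans b3

theorem PC3_mod {c d : ℤ} {m : ℤ} : IsCoprime c (d + c * m) ↔ IsCoprime c d :=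
  IsCoprime.add_mul_left_right_iff

theorem PC3_cond (N : ℕ) (v : RowP N) : 0 < (PC3_phi N v).1 ∧ N ∣ (PC3_phi N v).1 ∧
    (PC3_phi N v).2.1 < (PC3_phi N v).1 ∧ Nat.Coprime (PC3_phi N v).2.1 (PC3_phi N v).1 := by
  obtain ⟨h1, h2, h3⟩ := PC3_phi_facts N v
  obtain ⟨hc, hN, h0⟩ := v.2
  refine ⟨by omega, ?_, ?_, ?_⟩
  · rw [← h1] at hN
    exact_mod_cast hN
  · have := Int.emod_lt_of_pos (v.1 1) h0
    omega
  · rw [← h1, ← h3, PC3_mod] at hc
    exact (Nat.isCoprime_iff_coprime.1 hc).symm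

theorem PC3_val (N : ℕ) (G : ℤ → ℤ → ℂ) (v : RowP N) :
    PC3_g N G (PC3_phi N v) = G (v.1 0) (v.1 1) := by
  obtain ⟨h1, h2, h3⟩ := PC3_phi_facts N v
  unfold PC3_g
  rw [if_pos (PC3_cond N v), h3, h1]

theorem PC3_range (N : ℕ) (G : ℤ → ℤ → ℂ) (t : ℕ × (ℕ × ℤ)) (ht : t ∉ Set.range (PC3_phi N)) :
    PC3_g N G t = 0 := by
  unfold PC3_g
  refine if_neg fun h => ht ?_
  obtain ⟨c, d, m⟩ := t
  obtain ⟨hc, hN, hd, hco⟩ := h
  simp only at hc hN hd hco
  have hc' : (0 : ℤ) < c := by exact_mod_cast hc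
  have hd' : (d : ℤ) < c := by exact_mod_cast hd
  have hd0 : (0 : ℤ) ≤ d := by positivity
  have hmem : (![(c : ℤ), (d : ℤ) + c * m] : Fin 2 → ℤ) ∈ RowP N := by
    refine ⟨?_, ?_, ?_⟩
    · simp only [Matrix.cons_val_zero, Matrix.cons_val_one]
      rw [PC3_mod]
      exact Nat.isCoprime_iff_coprime.2 hco.symm
    · simp only [Matrix.cons_val_zero]
      exact_mod_cast hN
    · simpa using hc
  refine ⟨⟨_, hmem⟩, ?_⟩
  unfold PC3_phi
  simp only [Matrix.cons_val_zero, Matrix.cons_val_one, Int.toNat_natCast]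
  have e1 : ((d : ℤ) + c * m) % c = d := by
    rw [Int.add_mul_emod_self_left, Int.emod_eq_of_lt hd0 hd']
  have e2 : ((d : ℤ) + c * m) / c = m := by
    rw [Int.add_mul_ediv_left _ _ hc'.ne', Int.ediv_eq_zero_of_lt hd0 hd', zero_add]
  rw [e1, e2, Int.toNat_natCast]

theorem regroup (N : ℕ) (G : ℤ → ℤ → ℂ) (hG : Summable fun v : RowP N => G (v.1 0) (v.1 1)) :
    HasSum (fun c : ℕ => if 0 < c ∧ N ∣ c then
        ∑ d ∈ (Finset.range c).filter (fun d => Nat.Coprime d c), ∑' m : ℤ, G c (d + c * m)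
      else 0) (∑' v : RowP N, G (v.1 0) (v.1 1)) := by
  have h1 : HasSum (PC3_g N G) (∑' v : RowP N, G (v.1 0) (v.1 1)) := by
    rw [← (PC3_inj N).hasSum_iff (PC3_range N G)]
    refine hG.hasSum.congr_fun fun v => ?_
    exact PC3_val N G v
  refine h1.prod_fiberwise fun c => ?_
  have h2 : Summable fun t : ℕ × ℤ => PC3_g N G (c, t) := h1.summable.prod_factor c
  have h3 : ∑' t : ℕ × ℤ, PC3_g N G (c, t) = if 0 < c ∧ N ∣ c then
        ∑ d ∈ (Finset.range c).filter (fun d => Nat.Coprime d c), ∑' m : ℤ, G c (d + c * m)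
      else 0 := by
    rw [h2.tsum_prod]
    by_cases hc : 0 < c ∧ N ∣ c
    · rw [if_pos hc, tsum_eq_sum (s := (Finset.range c).filter (fun d => Nat.Coprime d c))]
      · refine Finset.sum_congr rfl fun d hd => tsum_congr fun m => ?_
        rw [Finset.mem_filter, Finset.mem_range] at hd
        unfold PC3_g
        rw [if_pos ⟨hc.1, hc.2, hd.1, hd.2⟩]
      · intro d hd
        have h4 : ∀ m : ℤ, PC3_g N G (c, (d, m)) = 0 := by
          intro m
          unfold PC3_g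
          refine if_neg fun h => hd ?_
          rw [Finset.mem_filter, Finset.mem_range]
          exact ⟨h.2.2.1, h.2.2.2⟩
        simp_rw [h4]
        exact tsum_zero
    · rw [if_neg hc]
      have h4 : ∀ (d : ℕ) (m : ℤ), PC3_g N G (c, (d, m)) = 0 := by
        intro d m
        unfold PC3_g
        exact if_neg fun h => hc ⟨h.1, h.2.1⟩
      simp_rw [h4]
      simp
  rw [← h3]
  exact h2.hasSum

end H94M
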