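import Pool.Agent.Lib.H94M.PP1

set_option autoImplicit false

/-!
# H94M, chunk PC4 (S/M): the term of the row `(c, d + c m)`

PROOF. Let `e = d + c m`, `a = invm d c`, so `a d = 1 mod c`, `a e = 1 mod c`; `b` with
`a e - b c = 1`; `g = !![a, b; c, e]`, `pt_eq` with this `g`. `g • τ = (a τ + b)/(c τ + e)
= a/c - 1/(c (c τ + e))`, `c τ + e = c (τ + d/c + m)`. `ee_add`.
(`invm d c = ((d : ZMod c)⁻¹).val`, `ZMod.coe_mul_inv_eq_one`, `ZMod.intCast_zmod_eq_zero_iff_dvd`.)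
-/

namespace H94M

open UpperHalfPlane Real MatrixGroups CongruenceSubgroup
open scoped ModularForm

theorem PC4_inv {c d : ℕ} (hc : 0 < c) (h : Nat.Coprime d c) (m : ℤ) :
    ∃ b : ℤ, invm d c * ((d : ℤ) + c * m) - b * (c : ℤ) = 1 := by
  have : NeZero c := ⟨hc.ne'⟩
  have h1 : (c : ℤ) ∣ invm d c * ((d : ℤ) + c * m) - 1 := by
    rw [← ZMod.intCast_zmod_eq_zero_iff_dvd]
    unfold invm
    push_cast
    rw [ZMod.natCast_zmod_val, ZMod.natCast_self, zero_mul, add_zero, mul_comm,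
      ZMod.coe_mul_inv_eq_one d h, sub_self]
  obtain ⟨b, hb⟩ := h1
  exact ⟨b, by linarith⟩

theorem pt_formula (k μ c d : ℕ) (m : ℤ) (hc : 0 < c) (hd : Nat.Coprime d c) (τ : ℍ) :
    pt k μ ![(c : ℤ), (d : ℤ) + c * m] τ =
      ee (((μ * invm d c : ℤ) : ℂ) / (c : ℂ)) *
        (ee (-((μ : ℂ) / ((c : ℂ) ^ 2 * ((τ : ℂ) + (d : ℂ) / (c : ℂ) + (m : ℂ))))) /
          ((c : ℂ) ^ k * ((τ : ℂ) + (d : ℂ) / (c : ℂ) + (m : ℂ)) ^ k)) := by
  obtain ⟨b, hb⟩ := PC4_inv hc hd m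
  obtain ⟨a, ha⟩ : ∃ a, a = invm d c := ⟨_, rfl⟩
  obtain ⟨e, he⟩ : ∃ e : ℤ, e = (d : ℤ) + c * m := ⟨_, rfl⟩
  rw [← ha, ← he] at hb
  have hc0 : (c : ℂ) ≠ 0 := by exact_mod_cast hc.ne'
  let g : SL(2, ℤ) := ⟨!![a, b; (c : ℤ), e], by rw [Matrix.det_fin_two_of]; exact hb⟩
  have hg : ((g • τ : ℍ) : ℂ) = ((a : ℂ) * τ + b) / (c * τ + e) := by
    rw [UpperHalfPlane.specialLinearGroup_apply]
    simp [g]
  have hden : (c : ℂ) * τ + e ≠ 0 := by
    intro h0
    have him := congrArg Complex.im h0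
    simp only [Complex.add_im, Complex.mul_im, Complex.natCast_re, Complex.natCast_im, zero_mul,
      add_zero, Complex.intCast_im, Complex.zero_im, coe_im] at him
    rcases mul_eq_zero.1 him with h1 | h1
    · exact hc.ne' (by exact_mod_cast h1)
    · exact τ.im_ne_zero h1
  obtain ⟨w, hw⟩ : ∃ w : ℂ, w = (τ : ℂ) + (d : ℂ) / (c : ℂ) + (m : ℂ) := ⟨_, rfl⟩
  have hw1 : (c : ℂ) * τ + e = c * w := by
    rw [hw, he]
    push_cast
    field_simp
    ring
  have hw0 : w ≠ 0 := by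
    rintro rfl
    rw [mul_zero] at hw1
    exact hden hw1
  have e1 : ((a : ℂ) * τ + b) / (c * w) = a / c - 1 / ((c : ℂ) ^ 2 * w) := by
    have h3 : (τ : ℂ) = w - (e : ℂ) / c := by
      have : (c : ℂ) * τ = c * w - e := by linear_combination hw1
      field_simp
      linear_combination this
    have hdet' : (a : ℂ) * e - b * c = 1 := by exact_mod_cast hb
    rw [h3]
    field_simp
    linear_combination -hdet'
  rw [← he, pt_eq k μ (v := ![(c : ℤ), e]) g (by simp [g]) (by simp [g]) τ, hg, ← ha, ← hw]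
  simp only [Matrix.cons_val_zero, Matrix.cons_val_one, Int.cast_natCast]
  rw [hw1, e1, mul_pow, ← mul_div_assoc, ← ee_add]
  congr 2
  push_cast
  field_simp
  ring

end H94M
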