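import Pool.Agent.Lib.H94M.PC4

set_option autoImplicit false

/-!
# H94M, chunk PC5 (M): unfolding one residue class

PROOF. Put `H w = ee (-(μ / (c² w)) - n w) / w ^ k` (`w = x + i y`, `x` real); by `pt_formula` and
`ee_add`, for `τ = x + i y`, `w = τ + d/c + m`, `-(n τ) = -(n w) + n d / c + n m`
(`ee (n m) = 1`, `ee_add_int`): the integrand is
`ee ((μ invm d c + n d)/c) * c^(-k) * H (x + d/c + m + i y)`.
`x ↦ H (x + i y)` is continuous and bounded by `exp (2 π n y) / (x² + y²)^(k/2)`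
(`‖ee (-(μ/(c² w)))‖ ≤ 1`, as `Im (-1/w) > 0`), so integrable (`k ≥ 2`;
`integrable_inv_one_add_sq` after scaling). The sum over `m` of the integrals over
`[0,1]` of the translates is the integral over `ℝ`
(`MeasureTheory.Integrable.hasSum_intervalIntegral_comp_add_int`), and the integral over `ℝ` is invariant under
translation by `d/c` (`MeasureTheory.integral_add_right_eq_self`).
-/

namespace H94M

open UpperHalfPlane Real MatrixGroups CongruenceSubgroup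
open scoped ModularForm

/-- the integrand of `Iy` -/
noncomputable def PC5_H (k c : ℕ) (μ n : ℤ) (w : ℂ) : ℂ :=
  ee (-((μ : ℂ) / ((c : ℂ) ^ 2 * w)) - (n : ℂ) * w) / w ^ k

theorem PC5_ne (x : ℝ) {y : ℝ} (hy : 0 < y) : (x : ℂ) + (y : ℂ) * Complex.I ≠ 0 := by
  intro h
  have := congrArg Complex.im h
  simp at this
  exact hy.ne' this

theorem PC5_norm_le (k c : ℕ) (μ : ℕ) (n : ℤ) (hk : 2 ≤ k) (x : ℝ) {y : ℝ} (hy : 0 < y) :
    ‖PC5_H k c μ n ((x : ℂ) + (y : ℂ) * Complex.I)‖ ≤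
      (Real.exp (2 * π * (n * y)) / (min 1 (y ^ 2) * y ^ (k - 2))) * (1 + x ^ 2)⁻¹ := by
  obtain ⟨w, hw⟩ : ∃ w : ℂ, w = (x : ℂ) + (y : ℂ) * Complex.I := ⟨_, rfl⟩
  have hwre : w.re = x := by rw [hw]; simp
  have hwim : w.im = y := by rw [hw]; simp
  have hw0 : w ≠ 0 := hw ▸ PC5_ne x hy
  rw [← hw]
  unfold PC5_H
  rw [norm_div, norm_pow, PP1_norm_ee]
  have hsq : ‖w‖ ^ 2 = x ^ 2 + y ^ 2 := by
    rw [← Complex.normSq_eq_norm_sq, Complex.normSq_apply, hwre, hwim]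
    ring
  have hwy : y ≤ ‖w‖ := by
    have := Complex.abs_im_le_norm w
    rw [hwim, abs_of_pos hy] at this
    exact this
  have h1 : -2 * π * (-((((μ : ℕ) : ℤ) : ℂ) / ((c : ℂ) ^ 2 * w)) - (n : ℂ) * w).im ≤
      2 * π * (n * y) := by
    have e1 : (-((((μ : ℕ) : ℤ) : ℂ) / ((c : ℂ) ^ 2 * w)) - (n : ℂ) * w).im =
        (μ : ℝ) / (c : ℝ) ^ 2 * (w.im / Complex.normSq w) - n * w.im := by
      have e2 : (((μ : ℕ) : ℤ) : ℂ) / ((c : ℂ) ^ 2 * w) =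
          (((μ : ℝ) / (c : ℝ) ^ 2 : ℝ) : ℂ) * w⁻¹ := by
        push_cast
        rw [div_mul_eq_div_div, div_eq_mul_inv _ w]
      rw [e2, Complex.sub_im, Complex.neg_im, Complex.im_ofReal_mul, Complex.inv_im]
      simp only [Complex.mul_im, Complex.intCast_re, Complex.intCast_im, zero_mul, add_zero]
      ring
    rw [e1, hwim]
    have e3 : 0 ≤ (μ : ℝ) / (c : ℝ) ^ 2 * (y / Complex.normSq w) := by
      have := Complex.normSq_nonneg w
      positivity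
    have hpi := Real.pi_pos
    nlinarith
  have h2 : min 1 (y ^ 2) * y ^ (k - 2) * (1 + x ^ 2) ≤ ‖w‖ ^ k := by
    have e1 : ‖w‖ ^ k = ‖w‖ ^ 2 * ‖w‖ ^ (k - 2) := by
      rw [← pow_add]
      congr 1
      omega
    have e2 : min 1 (y ^ 2) * (1 + x ^ 2) ≤ ‖w‖ ^ 2 := by
      rw [hsq, mul_add, mul_one]
      have a1 : min 1 (y ^ 2) ≤ y ^ 2 := min_le_right _ _
      have a2 : min 1 (y ^ 2) * x ^ 2 ≤ 1 * x ^ 2 :=
        mul_le_mul_of_nonneg_right (min_le_left _ _) (sq_nonneg x)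
      linarith
    have e3 : y ^ (k - 2) ≤ ‖w‖ ^ (k - 2) := pow_le_pow_left₀ hy.le hwy _
    rw [e1]
    calc min 1 (y ^ 2) * y ^ (k - 2) * (1 + x ^ 2)
        = (min 1 (y ^ 2) * (1 + x ^ 2)) * y ^ (k - 2) := by ring
      _ ≤ ‖w‖ ^ 2 * ‖w‖ ^ (k - 2) := mul_le_mul e2 e3 (by positivity) (by positivity)
  have hm : 0 < min 1 (y ^ 2) * y ^ (k - 2) := by
    have : 0 < min 1 (y ^ 2) := lt_min one_pos (by positivity)
    positivity
  rw [div_mul_eq_mul_div, ← div_eq_mul_inv, div_div, mul_comm (1 + x ^ 2)]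
  refine div_le_div₀ (Real.exp_pos _).le (Real.exp_le_exp.2 h1) (by positivity) h2

theorem PC5_integrable (k c : ℕ) (μ : ℕ) (n : ℤ) (hk : 2 ≤ k) (hc : 0 < c) {y : ℝ} (hy : 0 < y) :
    MeasureTheory.Integrable fun x : ℝ => PC5_H k c μ n ((x : ℂ) + (y : ℂ) * Complex.I) := by
  refine MeasureTheory.Integrable.mono' (integrable_inv_one_add_sq.const_mul _) ?_
    (Filter.Eventually.of_forall fun x => PC5_norm_le k c μ n hk x hy)
  refine Continuous.aestronglyMeasurable ?_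
  unfold PC5_H ee
  have hcc : (c : ℂ) ≠ 0 := by exact_mod_cast hc.ne'
  have hne : ∀ x : ℝ, (x : ℂ) + (y : ℂ) * Complex.I ≠ 0 := fun x => PC5_ne x hy
  refine Continuous.div ?_ (by fun_prop) fun x => pow_ne_zero k (hne x)
  refine Complex.continuous_exp.comp ?_
  refine continuous_const.mul (Continuous.sub (Continuous.neg ?_) (by fun_prop))
  exact Continuous.div continuous_const (by fun_prop)
    fun x => mul_ne_zero (pow_ne_zero 2 hcc) (hne x)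

theorem unfold_class (k μ c d : ℕ) (n : ℤ) (y : ℝ) (hk : 2 ≤ k) (hc : 0 < c)
    (hd : Nat.Coprime d c) (hy : 0 < y) :
    HasSum (fun m : ℤ => ∫ x in (0 : ℝ)..1,
        pt k μ ![(c : ℤ), (d : ℤ) + c * m] (ofComplex ((x : ℂ) + (y : ℂ) * Complex.I)) *
          ee (-((n : ℂ) * ((x : ℂ) + (y : ℂ) * Complex.I))))
      (ee (((μ * invm d c + n * d : ℤ) : ℂ) / (c : ℂ)) * (Iy k y c μ n / (c : ℂ) ^ k)) := by
  have hcc : (c : ℂ) ≠ 0 := by exact_mod_cast hc.ne'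
  obtain ⟨K, hK⟩ : ∃ K : ℂ, K = ee (((μ * invm d c + n * d : ℤ) : ℂ) / (c : ℂ)) / (c : ℂ) ^ k :=
    ⟨_, rfl⟩
  have hint := PC5_integrable k c μ n hk hc hy
  have hint2 := (hint.comp_add_right ((d : ℝ) / c)).const_mul K
  have h1 := hint2.hasSum_intervalIntegral_comp_add_int
  have h2 : ∫ x : ℝ, K * PC5_H k c μ n (((x + (d : ℝ) / c : ℝ) : ℂ) + (y : ℂ) * Complex.I) =
      ee (((μ * invm d c + n * d : ℤ) : ℂ) / (c : ℂ)) * (Iy k y c μ n / (c : ℂ) ^ k) := by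
    rw [MeasureTheory.integral_const_mul, MeasureTheory.integral_add_right_eq_self
      (fun x : ℝ => PC5_H k c μ n ((x : ℂ) + (y : ℂ) * Complex.I)) ((d : ℝ) / c), hK]
    unfold PC5_H Iy
    ring
  rw [h2] at h1
  refine h1.congr_fun fun m => ?_
  refine intervalIntegral.integral_congr fun x _ => ?_
  have him : 0 < ((x : ℂ) + (y : ℂ) * Complex.I).im := by simpa using hy
  have hcoe : ((ofComplex ((x : ℂ) + (y : ℂ) * Complex.I) : ℍ) : ℂ) =
      (x : ℂ) + (y : ℂ) * Complex.I := by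
    rw [ofComplex_apply_of_im_pos him]
  rw [pt_formula k μ c d m hc hd, hcoe]
  obtain ⟨w, hw⟩ : ∃ w : ℂ, w = (((x + m + (d : ℝ) / c : ℝ) : ℂ) + (y : ℂ) * Complex.I) :=
    ⟨_, rfl⟩
  have hw0 : w ≠ 0 := hw ▸ PC5_ne _ hy
  have hw1 : (x : ℂ) + (y : ℂ) * Complex.I + (d : ℂ) / (c : ℂ) + (m : ℂ) = w := by
    rw [hw]
    push_cast
    ring
  rw [hw1, ← hw]
  unfold PC5_H
  have e1 : ee (((μ * invm d c : ℤ) : ℂ) / (c : ℂ)) * ee (-((μ : ℂ) / ((c : ℂ) ^ 2 * w))) *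
      ee (-((n : ℂ) * ((x : ℂ) + (y : ℂ) * Complex.I))) =
      ee (((μ * invm d c + n * d : ℤ) : ℂ) / (c : ℂ)) *
        ee (-((((μ : ℕ) : ℤ) : ℂ) / ((c : ℂ) ^ 2 * w)) - (n : ℂ) * w) := by
    rw [← ee_add, ← ee_add, ← ee_add]
    have e2 : (x : ℂ) + (y : ℂ) * Complex.I = w - (d : ℂ) / (c : ℂ) - (m : ℂ) := by
      rw [← hw1]
      ring
    rw [e2, ← ee_add_int (((μ * invm d c + n * d : ℤ) : ℂ) / (c : ℂ) +
      (-((((μ : ℕ) : ℤ) : ℂ) / ((c : ℂ) ^ 2 * w)) - (n : ℂ) * w)) (n * m)]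
    congr 1
    push_cast
    field_simp
    ring
  calc ee (((μ * invm d c : ℤ) : ℂ) / (c : ℂ)) *
        (ee (-((μ : ℂ) / ((c : ℂ) ^ 2 * w))) / ((c : ℂ) ^ k * w ^ k)) *
        ee (-((n : ℂ) * ((x : ℂ) + (y : ℂ) * Complex.I)))
      = (ee (((μ * invm d c : ℤ) : ℂ) / (c : ℂ)) * ee (-((μ : ℂ) / ((c : ℂ) ^ 2 * w))) *
      ee (-((n : ℂ) * ((x : ℂ) + (y : ℂ) * Complex.I)))) / ((c : ℂ) ^ k * w ^ k) := by ring
    _ = K * (ee (-((((μ : ℕ) : ℤ) : ℂ) / ((c : ℂ) ^ 2 * w)) - (n : ℂ) * w) / w ^ k) := by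
        rw [e1, hK]
        field_simp

end H94M
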