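import Pool.Agent.Lib.H94M.PC2

set_option autoImplicit false

/-!
# H94M, chunk PC6 (M): integrating the sum over the rows term by term

PROOF. For `x ∈ [0,1]`, `τ = x + i y` lies in `verticalStrip 1 (y/2)` (or `verticalStrip 1 y`),
so `‖pt k μ v τ‖ ≤ ‖eisSummand k v τ‖ ≤ r(..)^(-k) ‖v‖^(-k)`
(`EisensteinSeries.summand_bound_of_mem_verticalStrip`, `norm_pt_le`) and
`‖ee (-(n τ))‖ = exp (2 π n y)`: dominated by a summable family of constants
(`EisensteinSeries.summable_one_div_norm_rpow`).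
`intervalIntegral.hasSum_integral_of_dominated_convergence` or
`intervalIntegral.hasSum_intervalIntegral_of_summable_norm`. Each term is continuous in `x`
(`pt` is `ee (μ (a τ + b)/(c τ + d)) / (c τ + d)^k` with `c τ + d ≠ 0`, or
measurable: enough), or use `PS_mdiff` of `PP2` for singletons.
-/

namespace H94M

open UpperHalfPlane Real MatrixGroups CongruenceSubgroup
open scoped ModularForm

theorem PC6_bound (k μ : ℕ) (y : ℝ) (hy : 0 < y) (v : Fin 2 → ℤ) (x : ℝ)
    (hx : x ∈ Set.Icc (0 : ℝ) 1) :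
    ‖pt k μ v (ofComplex ((x : ℂ) + (y : ℂ) * Complex.I))‖ ≤
      EisensteinSeries.r ⟨⟨1, y⟩, hy⟩ ^ (-(k : ℝ)) * ‖v‖ ^ (-(k : ℝ)) := by
  have him : 0 < ((x : ℂ) + (y : ℂ) * Complex.I).im := by simpa using hy
  refine (norm_pt_le k μ v _).trans ?_
  have hmem : (ofComplex ((x : ℂ) + (y : ℂ) * Complex.I)) ∈ verticalStrip 1 y := by
    rw [ofComplex_apply_of_im_pos him, mem_verticalStrip_iff]
    constructor
    · change |((x : ℂ) + (y : ℂ) * Complex.I).re| ≤ 1
      simp only [Complex.add_re, Complex.ofReal_re, Complex.mul_re, Complex.I_re, mul_zero,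
        Complex.ofReal_im, Complex.I_im, mul_one, sub_self, add_zero]
      rw [abs_le]
      constructor <;> linarith [hx.1, hx.2]
    · change y ≤ ((x : ℂ) + (y : ℂ) * Complex.I).im
      simp
  have h := EisensteinSeries.summand_bound_of_mem_verticalStrip
    (k := (k : ℝ)) (Nat.cast_nonneg k) v hy hmem
  refine le_trans (le_of_eq ?_) h
  unfold EisensteinSeries.eisSummand
  rw [norm_zpow, ← Real.rpow_intCast]
  push_cast
  rfl

theorem PC6_summable (k : ℕ) (hk : 3 ≤ k) (N : ℕ) (R : ℝ) :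
    Summable fun v : RowP N => R * ‖(v : Fin 2 → ℤ)‖ ^ (-(k : ℝ)) := by
  have h : (2 : ℝ) < k := by
    have : 2 < k := by omega
    exact_mod_cast this
  exact ((EisensteinSeries.summable_one_div_norm_rpow h).comp_injective
    Subtype.val_injective).mul_left R

theorem PC6_cont (k μ : ℕ) (hk : 3 ≤ k) (v : Fin 2 → ℤ) (y : ℝ) (hy : 0 < y) :
    Continuous fun x : ℝ => pt k μ v (ofComplex ((x : ℂ) + (y : ℂ) * Complex.I)) := by
  have h1 : ∀ τ : ℍ, pt k μ v τ = 2 * PS k μ {v} τ := by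
    intro τ
    unfold PS
    rw [tsum_fintype]
    simp
  have h2 : Continuous (PS k μ {v}) := (PS_mdiff k μ hk {v}).continuous
  have h3 : Continuous fun x : ℝ => (ofComplex ((x : ℂ) + (y : ℂ) * Complex.I)) := by
    rw [continuous_iff_continuousAt]
    intro x
    have him : 0 < ((x : ℂ) + (y : ℂ) * Complex.I).im := by simpa using hy
    refine ContinuousAt.comp (g := ofComplex) (f := fun x : ℝ => (x : ℂ) + (y : ℂ) * Complex.I) ?_
      (by fun_prop)
    exact (contMDiffAt_ofComplex (n := 1) him).continuousAt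
  simp_rw [h1]
  exact continuous_const.mul (h2.comp h3)

theorem PC6_exp (n : ℤ) (x y : ℝ) : ‖ee (-((n : ℂ) * ((x : ℂ) + (y : ℂ) * Complex.I)))‖ =
    Real.exp (2 * π * (n * y)) := by
  rw [PP1_norm_ee]
  congr 1
  simp

theorem PC6_norm (k μ : ℕ) (n : ℤ) (y : ℝ) (hy : 0 < y) (v : Fin 2 → ℤ) (x : ℝ)
    (hx : x ∈ Set.Icc (0 : ℝ) 1) :
    ‖pt k μ v (ofComplex ((x : ℂ) + (y : ℂ) * Complex.I)) *
      ee (-((n : ℂ) * ((x : ℂ) + (y : ℂ) * Complex.I)))‖ ≤
      (EisensteinSeries.r ⟨⟨1, y⟩, hy⟩ ^ (-(k : ℝ)) * Real.exp (2 * π * (n * y))) *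
        ‖v‖ ^ (-(k : ℝ)) := by
  rw [norm_mul, PC6_exp]
  refine (mul_le_mul_of_nonneg_right (PC6_bound k μ y hy v x hx) (Real.exp_pos _).le).trans ?_
  exact le_of_eq (by ring)

theorem hasSum_rows (N k μ : ℕ) (n : ℤ) (y : ℝ) (hk : 3 ≤ k) (hy : 0 < y) :
    HasSum (fun v : RowP N => ∫ x in (0 : ℝ)..1,
        pt k μ v (ofComplex ((x : ℂ) + (y : ℂ) * Complex.I)) *
          ee (-((n : ℂ) * ((x : ℂ) + (y : ℂ) * Complex.I))))
      (∫ x in (0 : ℝ)..1,
        (∑' v : RowP N, pt k μ v (ofComplex ((x : ℂ) + (y : ℂ) * Complex.I))) *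
          ee (-((n : ℂ) * ((x : ℂ) + (y : ℂ) * Complex.I)))) := by
  have hee : Continuous fun x : ℝ => ee (-((n : ℂ) * ((x : ℂ) + (y : ℂ) * Complex.I))) := by
    unfold ee
    fun_prop
  have hmem : ∀ x : ℝ, x ∈ Set.uIoc (0 : ℝ) 1 → x ∈ Set.Icc (0 : ℝ) 1 := by
    intro x hx
    rw [Set.uIoc_of_le zero_le_one] at hx
    exact Set.Ioc_subset_Icc_self hx
  refine intervalIntegral.hasSum_integral_of_dominated_convergence
    (fun v _ => (EisensteinSeries.r ⟨⟨1, y⟩, hy⟩ ^ (-(k : ℝ)) * Real.exp (2 * π * (n * y))) *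
        ‖(v : Fin 2 → ℤ)‖ ^ (-(k : ℝ))) ?_ ?_ ?_ ?_ ?_
  · intro v
    exact ((PC6_cont k μ hk v y hy).mul hee).aestronglyMeasurable
  · intro v
    filter_upwards with x hx
    exact PC6_norm k μ n y hy v x (hmem x hx)
  · filter_upwards with x _
    exact PC6_summable k hk N _
  · exact intervalIntegrable_const
  · filter_upwards with x hx
    refine HasSum.mul_right _ (Summable.hasSum ?_)
    refine Summable.of_norm_bounded (PC6_summable k hk N
      (EisensteinSeries.r ⟨⟨1, y⟩, hy⟩ ^ (-(k : ℝ)))) fun v => ?_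
    exact PC6_bound k μ y hy v x (hmem x hx)

/-- The sum over the rows is integrable in `x`. -/
theorem rows_integrable (N k μ : ℕ) (n : ℤ) (y : ℝ) (hk : 3 ≤ k) (hy : 0 < y) :
    IntervalIntegrable (fun x : ℝ =>
        (∑' v : RowP N, pt k μ v (ofComplex ((x : ℂ) + (y : ℂ) * Complex.I))) *
          ee (-((n : ℂ) * ((x : ℂ) + (y : ℂ) * Complex.I)))) MeasureTheory.volume 0 1 := by
  have hee : Continuous fun x : ℝ => ee (-((n : ℂ) * ((x : ℂ) + (y : ℂ) * Complex.I))) := by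
    unfold ee
    fun_prop
  refine ContinuousOn.intervalIntegrable ?_
  refine ContinuousOn.mul ?_ hee.continuousOn
  rw [Set.uIcc_of_le zero_le_one]
  exact continuousOn_tsum (fun v => (PC6_cont k μ hk v y hy).continuousOn)
    (PC6_summable k hk N _) fun v x hx => PC6_bound k μ y hy v x hx

end H94M
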