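import Pool.Agent.Lib.H94M.PP5
import Pool.Agent.Lib.H94M.PC1
import Pool.Agent.Lib.H94M.PC3
import Pool.Agent.Lib.H94M.PC5
import Pool.Agent.Lib.H94M.PC6

set_option autoImplicit false

/-!
# H94M, chunk PC7 (S/M): the Fourier coefficients of the Poincaré series

PROOF. `F : CuspForm (G0 N) k` with `F = PS k μ (Row N)` (`stPP`); `ac_integral`; `PS_split`;
the integral of the sum is the sum of the integrals (`rows_integrable`,
`intervalIntegral.integral_add`), `ee_integral` gives `if n = μ then 1 else 0`.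
`hasSum_rows` and `regroup` with
`G c d = ∫ x in 0..1, pt k μ ![c, d] (..) * ee (..)` (`v = ![v 0, v 1]`). For `0 < c`, `N ∣ c`:
`∑' m, G c (d + c m) = ee ((μ invm d c + n d)/c) * (Iy / c^k)` (`unfold_class`, `HasSum.tsum_eq`),
and `Σ_d ee ((μ invm d c + n d)/c) = Kl μ n c`: `Kl μ n c = Σ_d ee ((μ d + n invm d c)/c)` by
definition, reindex by the involution `d ↦ invm d c` (which maps `(range c).filter coprime` to
itself; exponents agree modulo `c`, `ee_add_int`).
-/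

namespace H94M

open UpperHalfPlane Real MatrixGroups CongruenceSubgroup
open scoped ModularForm

theorem PC7_ee_congr {a b : ℤ} {c : ℕ} (hc : 0 < c) (h : (c : ℤ) ∣ a - b) :
    ee ((a : ℂ) / (c : ℂ)) = ee ((b : ℂ) / (c : ℂ)) := by
  obtain ⟨j, hj⟩ := h
  have hcc : (c : ℂ) ≠ 0 := by exact_mod_cast hc.ne'
  have h1 : (a : ℂ) / (c : ℂ) = (b : ℂ) / (c : ℂ) + (j : ℂ) := by
    have h2 : (a : ℂ) - b = c * j := by exact_mod_cast hj
    field_simp
    linear_combination h2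
  rw [h1, ee_add_int]

theorem PC7_inv_range (d : ℤ) {c : ℕ} (hc : 0 < c) : 0 ≤ invm d c ∧ invm d c < c := by
  have : NeZero c := ⟨hc.ne'⟩
  unfold invm
  refine ⟨by positivity, ?_⟩
  exact_mod_cast ZMod.val_lt _

/-- the inverse as a natural number -/
noncomputable def PC7_i (c d : ℕ) : ℕ := ((d : ZMod c)⁻¹).val

theorem PC7_i_eq (c d : ℕ) : invm (d : ℤ) c = (PC7_i c d : ℤ) := by
  unfold invm PC7_i
  rw [Int.cast_natCast]

theorem PC7_i_mem {c d : ℕ} (hc : 0 < c)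
    (hd : d ∈ (Finset.range c).filter (fun d => Nat.Coprime d c)) :
    PC7_i c d ∈ (Finset.range c).filter (fun d => Nat.Coprime d c) := by
  have : NeZero c := ⟨hc.ne'⟩
  rw [Finset.mem_filter, Finset.mem_range] at hd ⊢
  refine ⟨ZMod.val_lt _, ?_⟩
  have h1 : IsUnit ((d : ZMod c)⁻¹) := by
    refine IsUnit.of_mul_eq_one (d : ZMod c) ?_
    rw [mul_comm]
    exact ZMod.coe_mul_inv_eq_one d hd.2
  have h2 : ((PC7_i c d : ℕ) : ZMod c) = (d : ZMod c)⁻¹ := by
    unfold PC7_i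
    rw [ZMod.natCast_zmod_val]
  rw [← h2] at h1
  exact (ZMod.isUnit_iff_coprime _ _).1 h1

theorem PC7_i_i {c d : ℕ} (hc : 0 < c)
    (hd : d ∈ (Finset.range c).filter (fun d => Nat.Coprime d c)) :
    PC7_i c (PC7_i c d) = d := by
  have : NeZero c := ⟨hc.ne'⟩
  have hm := PC7_i_mem hc hd
  rw [Finset.mem_filter, Finset.mem_range] at hd hm
  have h2 : ((PC7_i c d : ℕ) : ZMod c) = (d : ZMod c)⁻¹ := by
    unfold PC7_i
    rw [ZMod.natCast_zmod_val]
  have h3 := ZMod.coe_mul_inv_eq_one (PC7_i c d) hm.2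
  have h4 := ZMod.coe_mul_inv_eq_one d hd.2
  have h5 : ((PC7_i c d : ℕ) : ZMod c)⁻¹ = (d : ZMod c) := by
    calc ((PC7_i c d : ℕ) : ZMod c)⁻¹
        = ((d : ZMod c) * (d : ZMod c)⁻¹) * ((PC7_i c d : ℕ) : ZMod c)⁻¹ := by rw [h4, one_mul]
      _ = (d : ZMod c) * (((PC7_i c d : ℕ) : ZMod c) * ((PC7_i c d : ℕ) : ZMod c)⁻¹) := by
          rw [h2]
          ring
      _ = (d : ZMod c) := by rw [h3, mul_one]
  unfold PC7_i at h5 ⊢
  rw [h5, ZMod.val_natCast, Nat.mod_eq_of_lt hd.1]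

theorem Kl_symm (m n : ℤ) (c : ℕ) (hc : 0 < c) :
    ∑ d ∈ (Finset.range c).filter (fun d => Nat.Coprime d c),
      ee (((m * invm d c + n * (d : ℤ) : ℤ) : ℂ) / (c : ℂ)) = Kl m n c := by
  unfold Kl
  refine Finset.sum_bij' (fun d _ => PC7_i c d) (fun d _ => PC7_i c d)
    (fun d hd => PC7_i_mem hc hd) (fun d hd => PC7_i_mem hc hd)
    (fun d hd => PC7_i_i hc hd) (fun d hd => PC7_i_i hc hd) fun d hd => ?_
  rw [PC7_i_eq, PC7_i_eq, PC7_i_i hc hd]

theorem stPC : StPC := by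
  intro N k μ n y hN hk hev hμ hy
  have : NeZero N := ⟨by omega⟩
  obtain ⟨F, hF⟩ := stPP N k μ hN hk hμ
  obtain ⟨G, hG⟩ : ∃ G : ℤ → ℤ → ℂ, G = fun c d => ∫ x in (0 : ℝ)..1,
      pt k μ ![c, d] (ofComplex ((x : ℂ) + (y : ℂ) * Complex.I)) *
        ee (-((n : ℂ) * ((x : ℂ) + (y : ℂ) * Complex.I))) := ⟨_, rfl⟩
  have hv : ∀ v : Fin 2 → ℤ, ![v 0, v 1] = v := by
    intro v
    ext i
    fin_cases i <;> rfl
  have hrows := hasSum_rows N k μ n y (by omega) hy
  have hrows' : HasSum (fun v : RowP N => G (v.1 0) (v.1 1)) (∫ x in (0 : ℝ)..1,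
        (∑' v : RowP N, pt k μ v (ofComplex ((x : ℂ) + (y : ℂ) * Complex.I))) *
          ee (-((n : ℂ) * ((x : ℂ) + (y : ℂ) * Complex.I)))) := by
    refine hrows.congr_fun fun v => ?_
    rw [hG]
    simp only [hv]
  have hreg := regroup N G hrows'.summable
  rw [hrows'.tsum_eq] at hreg
  have hval : ac (PS k μ (Row N)) n - (if n = μ then 1 else 0) = ∫ x in (0 : ℝ)..1,
        (∑' v : RowP N, pt k μ v (ofComplex ((x : ℂ) + (y : ℂ) * Complex.I))) *
          ee (-((n : ℂ) * ((x : ℂ) + (y : ℂ) * Complex.I))) := by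
    have h1 := ac_integral N k F n hy
    rw [hF] at h1
    have h2 : ∫ x in (0 : ℝ)..1, PS k μ (Row N) (ofComplex ((x : ℂ) + (y : ℂ) * Complex.I)) *
        ee (-((n : ℂ) * ((x : ℂ) + (y : ℂ) * Complex.I))) =
        (∫ x in (0 : ℝ)..1, ee ((μ : ℂ) * ((x : ℂ) + (y : ℂ) * Complex.I)) *
          ee (-((n : ℂ) * ((x : ℂ) + (y : ℂ) * Complex.I)))) + ∫ x in (0 : ℝ)..1,
        (∑' v : RowP N, pt k μ v (ofComplex ((x : ℂ) + (y : ℂ) * Complex.I))) *
          ee (-((n : ℂ) * ((x : ℂ) + (y : ℂ) * Complex.I))) := by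
      rw [← intervalIntegral.integral_add]
      · refine intervalIntegral.integral_congr fun x _ => ?_
        have him : 0 < ((x : ℂ) + (y : ℂ) * Complex.I).im := by simpa using hy
        have hcoe : ((ofComplex ((x : ℂ) + (y : ℂ) * Complex.I) : ℍ) : ℂ) =
            (x : ℂ) + (y : ℂ) * Complex.I := by
          rw [ofComplex_apply_of_im_pos him]
        rw [PS_split N k μ (by omega) hev, hcoe, add_mul]
      · refine Continuous.intervalIntegrable ?_ _ _
        unfold ee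
        fun_prop
      · exact rows_integrable N k μ n y (by omega) hy
    rw [h2, ee_integral] at h1
    rw [h1]
    ring
  rw [hval]
  refine hreg.congr_fun fun c => ?_
  by_cases hc : 0 < c ∧ N ∣ c
  · rw [if_pos hc, if_pos hc, ← Kl_symm _ _ _ hc.1, mul_div_assoc, Finset.sum_mul]
    refine Finset.sum_congr rfl fun d hd => ?_
    rw [Finset.mem_filter] at hd
    have h := unfold_class k μ c d n y (by omega) hc.1 hd.2 hy
    rw [hG]
    simp only
    rw [h.tsum_eq]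
  · rw [if_neg hc, if_neg hc]

end H94M
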