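import Pool.Agent.Lib.H94M.PB

set_option autoImplicit false

/-!
CHUNK PE0 (M, elementary).  Finite sums of periodic functions.
-/

namespace H94M

open Finset

/-- `f` is periodic modulo `c`. -/
def Per (c : ℕ) (f : ℤ → ℂ) : Prop := ∀ x : ℤ, f (x + c) = f x

/-- CHUNK PE0.  Values at congruent arguments agree. -/
theorem PE0_congr {c : ℕ} {f : ℤ → ℂ} (hf : Per c f) {x y : ℤ} (h : (c : ℤ) ∣ x - y) :
    f x = f y := by
  obtain ⟨k, hk⟩ := h
  have h1 : Function.Periodic f (c : ℤ) := hf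
  have h2 := h1.int_mul k y
  have h3 : x = y + k * (c : ℤ) := by linear_combination hk
  rw [h3]
  exact h2

/-- CHUNK PE0.  Sums over two complete systems of residues agree: for any map `g` on `range c` with
values in `ℤ` which is injective modulo `c`. -/
theorem PE0_system {c : ℕ} {f : ℤ → ℂ} (hf : Per c f) (g : ℕ → ℤ)
    (hg : ∀ x < c, ∀ y < c, (c : ℤ) ∣ g x - g y → x = y) :
    ∑ x ∈ range c, f (g x) = ∑ x ∈ range c, f x := by
  rcases Nat.eq_zero_or_pos c with hc | hc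
  · subst hc
    simp
  have hc' : (0 : ℤ) < c := by exact_mod_cast hc
  have hgr : ∀ x, (((g x % (c : ℤ)).toNat : ℕ) : ℤ) = g x % (c : ℤ) := fun x =>
    Int.toNat_of_nonneg (Int.emod_nonneg _ hc'.ne')
  have hmaps : ∀ x ∈ range c, (g x % (c : ℤ)).toNat ∈ range c := by
    intro x _
    rw [mem_range]
    have h1 := Int.emod_lt_of_pos (g x) hc'
    have h2 := hgr x
    omega
  have hinj : Set.InjOn (fun x => (g x % (c : ℤ)).toNat) (range c : Set ℕ) := by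
    intro x hx y hy hxy
    have hx' : x < c := by simpa using hx
    have hy' : y < c := by simpa using hy
    apply hg x hx' y hy'
    have h1 : g x % (c : ℤ) = g y % (c : ℤ) := by
      rw [← hgr x, ← hgr y]
      exact congrArg _ hxy
    exact Int.ModEq.dvd (Int.ModEq.symm h1)
  refine Finset.sum_nbij (fun x => (g x % (c : ℤ)).toNat) hmaps hinj ?_ ?_
  · exact Finset.surjOn_of_injOn_of_card_le _ hmaps hinj le_rfl
  · intro x _
    apply PE0_congr hf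
    rw [hgr]
    exact Int.dvd_self_sub_emod

/-- CHUNK PE0. -/
theorem PE0_shift {c : ℕ} {f : ℤ → ℂ} (hf : Per c f) (s : ℤ) :
    ∑ x ∈ range c, f ((x : ℤ) + s) = ∑ x ∈ range c, f x := by
  refine PE0_system hf (fun x => (x : ℤ) + s) ?_
  intro x hx y hy h
  have h1 : (x : ℤ) + s - ((y : ℤ) + s) = (x : ℤ) - y := by ring
  rw [h1] at h
  have h2 : (y : ℤ) ≡ x [ZMOD c] := Int.modEq_iff_dvd.2 h
  have h3 := Int.natCast_modEq_iff.1 h2
  exact (Nat.ModEq.eq_of_lt_of_lt h3 hy hx).symm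

/-- CHUNK PE0. -/
theorem PE0_unit {c : ℕ} {f : ℤ → ℂ} (hf : Per c f) {u : ℤ} (hu : IsCoprime u (c : ℤ)) :
    ∑ x ∈ range c, f (u * (x : ℤ)) = ∑ x ∈ range c, f x := by
  refine PE0_system hf (fun x => u * (x : ℤ)) ?_
  intro x hx y hy h
  have h1 : u * (x : ℤ) - u * (y : ℤ) = u * ((x : ℤ) - y) := by ring
  rw [h1] at h
  have h' := hu.symm.dvd_of_dvd_mul_left h
  have h2 : (y : ℤ) ≡ x [ZMOD c] := Int.modEq_iff_dvd.2 h'
  have h3 := Int.natCast_modEq_iff.1 h2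
  exact (Nat.ModEq.eq_of_lt_of_lt h3 hy hx).symm

/-- CHUNK PE0.  Division with remainder: `x = u + c v`. -/
theorem PE0_mul (r c : ℕ) (f : ℤ → ℂ) :
    ∑ x ∈ range (r * c), f x = ∑ u ∈ range c, ∑ v ∈ range r, f ((u : ℤ) + c * v) := by
  induction r with
  | zero => simp
  | succ r ih =>
    have h1 : (r + 1) * c = r * c + c := by ring
    rw [h1, Finset.sum_range_add, ih, ← Finset.sum_add_distrib]
    refine Finset.sum_congr rfl fun u _ => ?_
    rw [Finset.sum_range_succ]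
    congr 2
    push_cast
    ring

/-- CHUNK PE0. -/
theorem PE0_lift {c : ℕ} {f : ℤ → ℂ} (hf : Per c f) (m : ℕ) :
    ∑ x ∈ range (m * c), f x = m * ∑ x ∈ range c, f x := by
  rw [PE0_mul, Finset.mul_sum]
  refine Finset.sum_congr rfl fun u _ => ?_
  have h1 : ∀ v ∈ range m, f ((u : ℤ) + c * v) = f u := by
    intro v _
    apply PE0_congr hf
    exact ⟨v, by ring⟩
  rw [Finset.sum_congr rfl h1, Finset.sum_const, Finset.card_range, nsmul_eq_mul]

/-- CHUNK PE0.  Chinese remainder theorem. -/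
theorem PE0_crt {c₁ c₂ : ℕ} (h : Nat.Coprime c₁ c₂) {f : ℤ → ℂ} (hf : Per (c₁ * c₂) f) :
    ∑ x ∈ range (c₁ * c₂), f x =
      ∑ u ∈ range c₁, ∑ v ∈ range c₂, f ((c₂ : ℤ) * u + c₁ * v) := by
  have hcop : IsCoprime (c₁ : ℤ) (c₂ : ℤ) := Nat.isCoprime_iff_coprime.2 h
  have h1 := PE0_system hf
    (fun x => (c₂ : ℤ) * ((x % c₁ : ℕ) : ℤ) + (c₁ : ℤ) * ((x / c₁ : ℕ) : ℤ)) (by
      intro x hx y hy hd
      have hc1 : 0 < c₁ := Nat.pos_of_ne_zero (by rintro rfl; simp at hx)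
      have hc2 : 0 < c₂ := Nat.pos_of_ne_zero (by rintro rfl; simp at hx)
      have hx1 : x % c₁ < c₁ := Nat.mod_lt _ hc1
      have hy1 : y % c₁ < c₁ := Nat.mod_lt _ hc1
      have hx2 : x / c₁ < c₂ := Nat.div_lt_of_lt_mul hx
      have hy2 : y / c₁ < c₂ := Nat.div_lt_of_lt_mul hy
      have e1 : x % c₁ = y % c₁ := by
        have h2 : (c₁ : ℤ) ∣ (c₂ : ℤ) * (((x % c₁ : ℕ) : ℤ) - ((y % c₁ : ℕ) : ℤ)) := by
          have h3 : (c₁ : ℤ) ∣ ((c₁ * c₂ : ℕ) : ℤ) := by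
            push_cast
            exact dvd_mul_right _ _
          have h4 := h3.trans hd
          have h5 : (c₂ : ℤ) * (((x % c₁ : ℕ) : ℤ) - ((y % c₁ : ℕ) : ℤ)) =
              ((c₂ : ℤ) * ((x % c₁ : ℕ) : ℤ) + (c₁ : ℤ) * ((x / c₁ : ℕ) : ℤ) -
                ((c₂ : ℤ) * ((y % c₁ : ℕ) : ℤ) + (c₁ : ℤ) * ((y / c₁ : ℕ) : ℤ))) -
              (c₁ : ℤ) * (((x / c₁ : ℕ) : ℤ) - ((y / c₁ : ℕ) : ℤ)) := by ring
          rw [h5]
          exact dvd_sub h4 (dvd_mul_right _ _)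
        have h6 := hcop.dvd_of_dvd_mul_left h2
        have h7 := Int.natCast_modEq_iff.1 (Int.modEq_iff_dvd.2 h6)
        exact (Nat.ModEq.eq_of_lt_of_lt h7 hy1 hx1).symm
      have e2 : x / c₁ = y / c₁ := by
        have h2 : (c₂ : ℤ) ∣ (c₁ : ℤ) * (((x / c₁ : ℕ) : ℤ) - ((y / c₁ : ℕ) : ℤ)) := by
          have h3 : (c₂ : ℤ) ∣ ((c₁ * c₂ : ℕ) : ℤ) := by
            push_cast
            exact dvd_mul_left _ _
          have h4 := h3.trans hd
          have h5 : (c₁ : ℤ) * (((x / c₁ : ℕ) : ℤ) - ((y / c₁ : ℕ) : ℤ)) =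
              ((c₂ : ℤ) * ((x % c₁ : ℕ) : ℤ) + (c₁ : ℤ) * ((x / c₁ : ℕ) : ℤ) -
                ((c₂ : ℤ) * ((y % c₁ : ℕ) : ℤ) + (c₁ : ℤ) * ((y / c₁ : ℕ) : ℤ))) -
              (c₂ : ℤ) * (((x % c₁ : ℕ) : ℤ) - ((y % c₁ : ℕ) : ℤ)) := by ring
          rw [h5]
          exact dvd_sub h4 (dvd_mul_right _ _)
        have h6 := hcop.symm.dvd_of_dvd_mul_left h2
        have h7 := Int.natCast_modEq_iff.1 (Int.modEq_iff_dvd.2 h6)
        exact (Nat.ModEq.eq_of_lt_of_lt h7 hy2 hx2).symm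
      rw [← Nat.mod_add_div x c₁, ← Nat.mod_add_div y c₁, e1, e2])
  rw [← h1]
  have h2 : ∑ x ∈ range (c₁ * c₂), f ((c₂ : ℤ) * ((x % c₁ : ℕ) : ℤ) + (c₁ : ℤ) * ((x / c₁ : ℕ) : ℤ)) =
      ∑ x ∈ range (c₂ * c₁), (fun z : ℤ => f ((c₂ : ℤ) * (z % c₁) + (c₁ : ℤ) * (z / c₁))) (x : ℤ) := by
    rw [mul_comm c₁ c₂]
    refine Finset.sum_congr rfl fun x _ => ?_
    push_cast
    rfl
  rw [h2]
  refine (PE0_mul c₂ c₁ (fun z : ℤ => f ((c₂ : ℤ) * (z % c₁) + (c₁ : ℤ) * (z / c₁)))).trans ?_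
  refine Finset.sum_congr rfl fun u hu => Finset.sum_congr rfl fun v _ => ?_
  rw [mem_range] at hu
  have hc1 : (0 : ℤ) < c₁ := by
    have : 0 < c₁ := by omega
    exact_mod_cast this
  have hu' : (u : ℤ) < c₁ := by exact_mod_cast hu
  have e1 : ((u : ℤ) + c₁ * v) % c₁ = u := by
    rw [Int.add_mul_emod_self_left]
    exact Int.emod_eq_of_lt (by positivity) hu'
  have e2 : ((u : ℤ) + c₁ * v) / c₁ = v := by
    rw [Int.add_mul_ediv_left _ _ hc1.ne', Int.ediv_eq_zero_of_lt (by positivity) hu', zero_add]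
  simp only [e1, e2]

/-- CHUNK PE0.  `e` at integers divided by `c`. -/
theorem PE0_ee_congr {c : ℕ} (hc : 0 < c) {x y : ℤ} (h : (c : ℤ) ∣ x - y) :
    ee ((x : ℂ) / (c : ℂ)) = ee ((y : ℂ) / (c : ℂ)) := by
  obtain ⟨k, hk⟩ := h
  have hc' : (c : ℂ) ≠ 0 := by exact_mod_cast hc.ne'
  have h1 : (x : ℂ) = (y : ℂ) + c * k := by
    have h2 : x = y + c * k := by linear_combination hk
    rw [h2]
    push_cast
    ring
  have h3 : (x : ℂ) / (c : ℂ) = (y : ℂ) / (c : ℂ) + (k : ℤ) := by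
    rw [h1]
    field_simp
  rw [h3, ee_add_int]

/-- CHUNK PE0.  Orthogonality of the additive characters. -/
theorem PE0_orth {c : ℕ} (hc : 0 < c) (h : ℤ) :
    ∑ x ∈ range c, ee (((h * (x : ℤ) : ℤ) : ℂ) / (c : ℂ)) = if (c : ℤ) ∣ h then (c : ℂ) else 0 := by
  have hc' : (c : ℂ) ≠ 0 := by exact_mod_cast hc.ne'
  have h1 : ∀ x : ℕ, ee (((h * (x : ℤ) : ℤ) : ℂ) / (c : ℂ)) = ee ((h : ℂ) / (c : ℂ)) ^ x := by
    intro x
    rw [← ee_nsmul]
    congr 1
    push_cast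
    ring
  simp only [h1]
  split_ifs with hd
  · have h2 : ee ((h : ℂ) / (c : ℂ)) = 1 := by
      have h3 := PE0_ee_congr hc (x := h) (y := 0) (by simpa using hd)
      rw [h3]
      simp [ee_zero]
    rw [h2]
    simp
  · have hne : ee ((h : ℂ) / (c : ℂ)) ≠ 1 := by
      intro h2
      unfold ee at h2
      rw [Complex.exp_eq_one_iff] at h2
      obtain ⟨n, hn⟩ := h2
      apply hd
      have hpi : (2 * (Real.pi : ℂ) * Complex.I) ≠ 0 := Complex.two_pi_I_ne_zero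
      have h3 : (h : ℂ) / (c : ℂ) = n := by
        have h4 : (2 * (Real.pi : ℂ) * Complex.I) * ((h : ℂ) / (c : ℂ)) =
            (2 * (Real.pi : ℂ) * Complex.I) * (n : ℂ) := by
          rw [hn]
          ring
        exact mul_left_cancel₀ hpi h4
      rw [div_eq_iff hc'] at h3
      have h5 : h = n * (c : ℤ) := by exact_mod_cast h3
      exact ⟨n, by rw [h5]; ring⟩
    have hpow : ee ((h : ℂ) / (c : ℂ)) ^ c = 1 := by
      rw [← ee_nsmul]
      have h6 : (c : ℂ) * ((h : ℂ) / (c : ℂ)) = (h : ℂ) := by field_simp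
      rw [h6, ee_int]
    rw [geom_sum_eq hne, hpow, sub_self, zero_div]

end H94M
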