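import Pool.Agent.Lib.H94M.PE0

set_option autoImplicit false

/-!
CHUNK PE1 (M).  The Gauss sum of the norm form modulo a prime `p ≠ 5`.
-/

namespace H94M

open Finset

theorem PE1_ee (p : ℕ) [NeZero p] (n : ℤ) :
    ee ((n : ℂ) / (p : ℂ)) = ZMod.stdAddChar ((n : ℤ) : ZMod p) := by
  rw [ZMod.stdAddChar_coe]
  unfold ee
  congr 1
  ring

theorem PE1_range (p : ℕ) [NeZero p] (f : ZMod p → ℂ) :
    ∑ x ∈ range p, f ((x : ℕ) : ZMod p) = ∑ x : ZMod p, f x := by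
  refine Finset.sum_nbij' (fun x => (x : ZMod p)) (fun x => x.val) ?_ ?_ ?_ ?_ ?_
  · intro x _
    exact mem_univ _
  · intro x _
    rw [mem_range]
    exact ZMod.val_lt x
  · intro x hx
    rw [mem_range] at hx
    exact ZMod.val_natCast_of_lt hx
  · intro x _
    exact ZMod.natCast_zmod_val x
  · intro x _
    rfl

theorem PE1_Sg (p : ℕ) [NeZero p] (h : ℤ) :
    Sg h p = ∑ x : ZMod p, ∑ y : ZMod p,
      ZMod.stdAddChar ((h : ZMod p) * (x ^ 2 + x * y - y ^ 2)) := by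
  unfold Sg
  rw [← PE1_range p (fun x => ∑ y : ZMod p,
      ZMod.stdAddChar ((h : ZMod p) * (x ^ 2 + x * y - y ^ 2)))]
  refine Finset.sum_congr rfl fun x _ => ?_
  rw [← PE1_range p (fun y =>
      ZMod.stdAddChar ((h : ZMod p) * ((x : ZMod p) ^ 2 + (x : ZMod p) * y - y ^ 2)))]
  refine Finset.sum_congr rfl fun y _ => ?_
  rw [PE1_ee]
  congr 1
  unfold qf
  push_cast
  ring

/-- The quadratic character with complex values. -/
noncomputable def PE1_chi (p : ℕ) [Fact p.Prime] : MulChar (ZMod p) ℂ :=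
  (quadraticChar (ZMod p)).ringHomComp (Int.castRingHom ℂ)

theorem PE1_chi_apply (p : ℕ) [Fact p.Prime] (a : ZMod p) :
    PE1_chi p a = ((quadraticChar (ZMod p) a : ℤ) : ℂ) := rfl

theorem PE1_chi_sq (p : ℕ) [Fact p.Prime] {a : ZMod p} (ha : a ≠ 0) :
    PE1_chi p a * PE1_chi p a = 1 := by
  rw [PE1_chi_apply]
  have h := quadraticChar_sq_one ha
  rw [← Int.cast_mul, ← sq, h, Int.cast_one]

/-- The Gauss sum of a square. -/
theorem PE1_gs (p : ℕ) [Fact p.Prime] (hp2 : p ≠ 2) {a : ZMod p} (ha : a ≠ 0) :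
    ∑ x : ZMod p, ZMod.stdAddChar (a * x ^ 2) =
      PE1_chi p a * gaussSum (PE1_chi p) (ZMod.stdAddChar (N := p)) := by
  classical
  have hF : ringChar (ZMod p) ≠ 2 := by rw [ZMod.ringChar_zmod_n]; exact hp2
  have h1 : ∑ x : ZMod p, ZMod.stdAddChar (a * x ^ 2) =
      ∑ y : ZMod p, ∑ x ∈ univ.filter (fun x : ZMod p => x ^ 2 = y), ZMod.stdAddChar (a * x ^ 2) :=
    (Finset.sum_fiberwise univ (fun x : ZMod p => x ^ 2) _).symm
  have h2 : ∀ y : ZMod p, ∑ x ∈ univ.filter (fun x : ZMod p => x ^ 2 = y),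
      ZMod.stdAddChar (a * x ^ 2) = (PE1_chi p y + 1) * ZMod.stdAddChar (a * y) := by
    intro y
    have h3 : ∀ x ∈ univ.filter (fun x : ZMod p => x ^ 2 = y),
        (ZMod.stdAddChar (a * x ^ 2) : ℂ) = ZMod.stdAddChar (a * y) := by
      intro x hx
      rw [(mem_filter.1 hx).2]
    rw [Finset.sum_congr rfl h3, Finset.sum_const, nsmul_eq_mul]
    congr 1
    have h4 := quadraticChar_card_sqrts hF y
    have h5 : ({x : ZMod p | x ^ 2 = y} : Set (ZMod p)).toFinset =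
        univ.filter (fun x : ZMod p => x ^ 2 = y) := by
      ext x
      simp
    rw [h5] at h4
    rw [PE1_chi_apply]
    exact_mod_cast h4
  rw [h1, Finset.sum_congr rfl fun y _ => h2 y]
  simp only [add_mul, one_mul, Finset.sum_add_distrib]
  have h6 : ∑ y : ZMod p, ZMod.stdAddChar (a * y) = 0 := by
    have h7 := AddChar.sum_mulShift a (ZMod.isPrimitive_stdAddChar p)
    rw [if_neg ha] at h7
    rw [← Nat.cast_zero, ← h7]
    refine Finset.sum_congr rfl fun y _ => ?_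
    rw [mul_comm]
  rw [h6, add_zero]
  unfold gaussSum
  have h8 : ∑ y : ZMod p, PE1_chi p y * ZMod.stdAddChar y =
      ∑ y : ZMod p, PE1_chi p (a * y) * ZMod.stdAddChar (a * y) :=
    (Fintype.sum_bijective _ (mulLeft_bijective₀ a ha) _ _ fun x => rfl).symm
  rw [h8, Finset.mul_sum]
  refine Finset.sum_congr rfl fun y _ => ?_
  rw [map_mul (PE1_chi p) a y, ← mul_assoc, ← mul_assoc, PE1_chi_sq p ha, one_mul]

theorem PE1_s1 : IsSquare ((1 : ℕ) : ZMod 5) := ⟨1, by decide⟩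

theorem PE1_s4 : IsSquare ((4 : ℕ) : ZMod 5) := ⟨2, by decide⟩

theorem PE1_s2 : ¬ IsSquare ((2 : ℕ) : ZMod 5) := by decide

theorem PE1_s3 : ¬ IsSquare ((3 : ℕ) : ZMod 5) := by decide

/-- Quadratic reciprocity for `5`. -/
theorem PE1_rec (p : ℕ) [Fact p.Prime] (hp2 : p ≠ 2) (hp5 : p ≠ 5) :
    PE1_chi p (5 : ZMod p) = (chi p : ℂ) := by
  have hp : p.Prime := Fact.out
  have h5 : Fact (Nat.Prime 5) := ⟨by norm_num⟩
  have h50 : (5 : ZMod p) ≠ 0 := by
    intro h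
    have h1 : ((5 : ℕ) : ZMod p) = 0 := by exact_mod_cast h
    rw [ZMod.natCast_eq_zero_iff] at h1
    exact hp5 ((Nat.prime_dvd_prime_iff_eq hp h5.1).1 h1)
  have hsq := ZMod.exists_sq_eq_prime_iff_of_mod_four_eq_one (p := 5) (q := p) (by norm_num) hp2
  have hpm : ((p : ℕ) : ZMod 5) = (((p % 5 : ℕ)) : ZMod 5) := by
    rw [ZMod.natCast_mod]
  have hlt : p % 5 < 5 := Nat.mod_lt _ (by norm_num)
  have hn0 : p % 5 ≠ 0 := by
    intro h
    exact hp5 ((Nat.prime_dvd_prime_iff_eq h5.1 hp).1 (Nat.dvd_of_mod_eq_zero h)).symm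
  have hz : ((p : ℤ) % 5) = ((p % 5 : ℕ) : ℤ) := by push_cast; rfl
  rw [PE1_chi_apply]
  congr 1
  by_cases hs : IsSquare ((p : ℕ) : ZMod 5)
  · have h2 : IsSquare (5 : ZMod p) := by
      have := hsq.1 hs
      exact_mod_cast this
    rw [(quadraticChar_one_iff_isSquare h50).2 h2]
    rw [hpm] at hs
    unfold chi
    rw [hz]
    interval_cases hq : p % 5
    · exact absurd rfl hn0
    · simp
    · exact absurd hs PE1_s2
    · exact absurd hs PE1_s3
    · simp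
  · have h2 : ¬ IsSquare (5 : ZMod p) := by
      intro h3
      apply hs
      apply hsq.2
      exact_mod_cast h3
    rw [quadraticChar_neg_one_iff_not_isSquare.2 h2]
    rw [hpm] at hs
    unfold chi
    rw [hz]
    interval_cases hq : p % 5
    · exact absurd rfl hn0
    · exact absurd PE1_s1 hs
    · simp
    · simp
    · exact absurd PE1_s4 hs

/-- CHUNK PE1.  Proof.  `p = 2`: direct (`h` odd, `1 + 3 (-1) = -2 = χ(2) 2`).
`p` odd: complete the square, `x² + x y - y² = (x + y/2)² - (5/4) y²`, so the sum is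
`χ_p (h) g χ_p (-5 h / 4) g = χ_p (-5) g² = χ_p (5) p`, and `χ_p (5) = χ (p)` by quadratic reciprocity. -/
theorem PE1_prime (p : ℕ) (hp : p.Prime) (h5 : p ≠ 5) (h : ℤ) (hh : ¬ (p : ℤ) ∣ h) :
    Sg h p = (chi p : ℂ) * p := by
  have hF : Fact p.Prime := ⟨hp⟩
  have hh0 : (h : ZMod p) ≠ 0 := by
    intro h1
    exact hh ((ZMod.intCast_zmod_eq_zero_iff_dvd h p).1 h1)
  rcases eq_or_ne p 2 with hp2 | hp2
  · subst hp2
    unfold Sg
    have hodd : h % 2 = 1 := by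
      have : ¬ (2 : ℤ) ∣ h := by exact_mod_cast hh
      omega
    have hee : ∀ m : ℤ, m % 2 = 1 → ee ((m : ℂ) / ((2 : ℕ) : ℂ)) = -1 := by
      intro m hm
      have h1 : ee ((m : ℂ) / ((2 : ℕ) : ℂ)) = ee (((1 : ℤ) : ℂ) / ((2 : ℕ) : ℂ)) :=
        PE0_ee_congr (by norm_num) (by
          have : (2 : ℤ) ∣ m - 1 := by omega
          exact_mod_cast this)
      rw [h1]
      unfold ee
      have h2 : 2 * (Real.pi : ℂ) * Complex.I * (((1 : ℤ) : ℂ) / ((2 : ℕ) : ℂ)) =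
          (Real.pi : ℂ) * Complex.I := by
        push_cast
        ring
      rw [h2, Complex.exp_pi_mul_I]
    simp only [Finset.sum_range_succ, Finset.sum_range_zero, zero_add, qf]
    have e1 : ee (((h * ((((0 : ℕ) : ℤ)) ^ 2 + ((0 : ℕ) : ℤ) * ((0 : ℕ) : ℤ) - ((0 : ℕ) : ℤ) ^ 2) : ℤ) : ℂ) /
        ((2 : ℕ) : ℂ)) = 1 := by
      simp [ee_zero]
    have e2 : ee (((h * ((((0 : ℕ) : ℤ)) ^ 2 + ((0 : ℕ) : ℤ) * ((1 : ℕ) : ℤ) - ((1 : ℕ) : ℤ) ^ 2) : ℤ) : ℂ) /
        ((2 : ℕ) : ℂ)) = -1 := hee _ (by push_cast; omega)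
    have e3 : ee (((h * ((((1 : ℕ) : ℤ)) ^ 2 + ((1 : ℕ) : ℤ) * ((0 : ℕ) : ℤ) - ((0 : ℕ) : ℤ) ^ 2) : ℤ) : ℂ) /
        ((2 : ℕ) : ℂ)) = -1 := hee _ (by push_cast; omega)
    have e4 : ee (((h * ((((1 : ℕ) : ℤ)) ^ 2 + ((1 : ℕ) : ℤ) * ((1 : ℕ) : ℤ) - ((1 : ℕ) : ℤ) ^ 2) : ℤ) : ℂ) /
        ((2 : ℕ) : ℂ)) = -1 := hee _ (by push_cast; omega)
    rw [e1, e2, e3, e4]
    have h3 : chi ((2 : ℕ) : ℤ) = -1 := by decide
    rw [h3]
    push_cast
    ring
  · have h2 : (2 : ZMod p) ≠ 0 := by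
      intro h1
      have h3 : ((2 : ℕ) : ZMod p) = 0 := by exact_mod_cast h1
      rw [ZMod.natCast_eq_zero_iff] at h3
      exact hp2 ((Nat.prime_dvd_prime_iff_eq hp Nat.prime_two).1 h3)
    have h50 : (5 : ZMod p) ≠ 0 := by
      intro h1
      have h3 : ((5 : ℕ) : ZMod p) = 0 := by exact_mod_cast h1
      rw [ZMod.natCast_eq_zero_iff] at h3
      exact h5 ((Nat.prime_dvd_prime_iff_eq hp (by norm_num)).1 h3)
    rw [PE1_Sg, Finset.sum_comm]
    have h3 : ∀ y : ZMod p, ∑ x : ZMod p,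
        (ZMod.stdAddChar ((h : ZMod p) * (x ^ 2 + x * y - y ^ 2)) : ℂ) =
        (∑ x : ZMod p, ZMod.stdAddChar ((h : ZMod p) * x ^ 2)) *
          ZMod.stdAddChar ((-(5 * (h : ZMod p) / 4)) * y ^ 2) := by
      intro y
      rw [Finset.sum_mul]
      have h4 : ∀ x : ZMod p, (ZMod.stdAddChar ((h : ZMod p) * (x ^ 2 + x * y - y ^ 2)) : ℂ) =
          ZMod.stdAddChar ((h : ZMod p) * (x + y / 2) ^ 2) *
            ZMod.stdAddChar ((-(5 * (h : ZMod p) / 4)) * y ^ 2) := by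
        intro x
        rw [← AddChar.map_add_eq_mul]
        congr 1
        have h40 : (4 : ZMod p) = 2 * 2 := by norm_num
        rw [h40]
        field_simp
        ring
      rw [Finset.sum_congr rfl fun x _ => h4 x]
      exact Fintype.sum_bijective _ (AddGroup.addRight_bijective (y / 2)) _ _ fun x => rfl
    rw [Finset.sum_congr rfl fun y _ => h3 y, ← Finset.mul_sum]
    have h4 : -(5 * (h : ZMod p) / 4) ≠ 0 := by
      have h40 : (4 : ZMod p) = 2 * 2 := by norm_num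
      rw [h40]
      exact neg_ne_zero.2 (div_ne_zero (mul_ne_zero h50 hh0) (mul_ne_zero h2 h2))
    rw [PE1_gs p hp2 hh0, PE1_gs p hp2 h4]
    have hχ1 : PE1_chi p ≠ 1 := by
      intro h6
      obtain ⟨a, ha⟩ := quadraticChar_exists_neg_one' (F := ZMod p)
        (by rw [ZMod.ringChar_zmod_n]; exact hp2)
      have h7 : PE1_chi p a = 1 := by
        rw [h6, MulChar.one_apply a.isUnit]
      rw [PE1_chi_apply, ha] at h7
      norm_num at h7
    have hχ2 : (PE1_chi p).IsQuadratic := (quadraticChar_isQuadratic (ZMod p)).comp _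
    have hg := gaussSum_sq hχ1 hχ2 (ZMod.isPrimitive_stdAddChar p)
    rw [ZMod.card] at hg
    set g := gaussSum (PE1_chi p) (ZMod.stdAddChar (N := p)) with hgd
    have h8 : PE1_chi p (h : ZMod p) * g * (PE1_chi p (-(5 * (h : ZMod p) / 4)) * g) =
        (PE1_chi p (h : ZMod p) * PE1_chi p (-(5 * (h : ZMod p) / 4))) * g ^ 2 := by ring
    rw [h8, hg, ← map_mul]
    have h9 : (h : ZMod p) * (-(5 * (h : ZMod p) / 4)) = -1 * 5 * (((h : ZMod p) / 2) * ((h : ZMod p) / 2)) := by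
      have h40 : (4 : ZMod p) = 2 * 2 := by norm_num
      rw [h40]
      field_simp
    rw [h9, map_mul, map_mul, map_mul, PE1_chi_sq p (div_ne_zero hh0 h2), mul_one, PE1_rec p hp2 h5]
    have h10 : PE1_chi p (-1) * PE1_chi p (-1) = 1 := PE1_chi_sq p (neg_ne_zero.2 one_ne_zero)
    calc PE1_chi p (-1) * (chi p : ℂ) * (PE1_chi p (-1) * (p : ℂ)) =
        (PE1_chi p (-1) * PE1_chi p (-1)) * ((chi p : ℂ) * p) := by ring
      _ = _ := by rw [h10, one_mul]

end H94M
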