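import Pool.Agent.Lib.H94M.PB

set_option autoImplicit false

/-!
CHUNK PL2 (M).  The Lipschitz formula with the quadratic character modulo `5`.
-/

namespace H94M

open Real

theorem PL2_per (m : ℤ) : ee ((m : ℂ) / 5) = ee (((m % 5 : ℤ) : ℂ) / 5) := by
  have h : (m : ℂ) / 5 = ((m % 5 : ℤ) : ℂ) / 5 + ((m / 5 : ℤ) : ℂ) := by
    have h1 : ((m % 5 + 5 * (m / 5) : ℤ) : ℂ) = (m : ℂ) := by
      rw [Int.emod_add_mul_ediv]
    rw [← h1]
    push_cast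
    ring
  rw [h, ee_add_int]

theorem PL2_cos (x : ℝ) : ee (x : ℂ) + ee ((-x : ℝ) : ℂ) = ((2 * Real.cos (2 * π * x) : ℝ) : ℂ) := by
  unfold ee
  have h1 : 2 * (π : ℂ) * Complex.I * (x : ℂ) = ((2 * π * x : ℝ) : ℂ) * Complex.I := by
    push_cast; ring
  have h2 : 2 * (π : ℂ) * Complex.I * ((-x : ℝ) : ℂ) = -((2 * π * x : ℝ) : ℂ) * Complex.I := by
    push_cast; ring
  rw [h1, h2]
  push_cast
  rw [Complex.two_cos]

theorem PL2_cos1 : Real.cos (2 * π * (1 / 5)) = (√5 - 1) / 4 := by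
  have h : (2 : ℝ) * π * (1 / 5) = 2 * (π / 5) := by ring
  rw [h, Real.cos_two_mul, Real.cos_pi_div_five]
  have h5 : √5 ^ 2 = 5 := Real.sq_sqrt (by norm_num)
  nlinarith

theorem PL2_cos2 : Real.cos (2 * π * (2 / 5)) = -(1 + √5) / 4 := by
  have h : (2 : ℝ) * π * (2 / 5) = π - π / 5 := by ring
  rw [h, Real.cos_pi_sub, Real.cos_pi_div_five]
  ring

theorem PL2_14 : ee (1 / 5) + ee (4 / 5) = (((√5 - 1) / 2 : ℝ) : ℂ) := by
  have h := PL2_cos (1 / 5)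
  rw [PL2_cos1] at h
  have h4 : ee (4 / 5) = ee ((-(1 / 5) : ℝ) : ℂ) := by
    have : (4 / 5 : ℂ) = ((-(1 / 5) : ℝ) : ℂ) + ((1 : ℤ) : ℂ) := by push_cast; norm_num
    rw [this, ee_add_int]
  have h1 : ee (1 / 5) = ee ((1 / 5 : ℝ) : ℂ) := by
    congr 1
    push_cast
    rfl
  rw [h1, h4, h]
  congr 1
  ring

theorem PL2_23 : ee (2 / 5) + ee (3 / 5) = ((-(1 + √5) / 2 : ℝ) : ℂ) := by
  have h := PL2_cos (2 / 5)
  rw [PL2_cos2] at h
  have h4 : ee (3 / 5) = ee ((-(2 / 5) : ℝ) : ℂ) := by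
    have : (3 / 5 : ℂ) = ((-(2 / 5) : ℝ) : ℂ) + ((1 : ℤ) : ℂ) := by push_cast; norm_num
    rw [this, ee_add_int]
  have h1 : ee (2 / 5) = ee ((2 / 5 : ℝ) : ℂ) := by
    congr 1
    push_cast
    rfl
  rw [h1, h4, h]
  congr 1
  ring

/-- CHUNK PL2 (S).  The Gauss sum `∑_{β mod 5} χ (β) e (n β / 5) = χ (n) √5`.  Proof: by periodicity
reduce to `n mod 5`; for `n ≡ 0`: `1 - 1 - 1 + 1 = 0`; the rest from
`2 cos (2 π/5) - 2 cos (4 π/5) = √5` (`Real.cos_pi_div_five`, or square the sum: `S² = 5`, `S` real and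
positive).  -/
theorem PL2_gauss (n : ℤ) :
    ∑ β ∈ Finset.range 5, (chi β : ℂ) * ee (((n * (β : ℤ) : ℤ) : ℂ) / 5) =
      (chi n : ℂ) * ((√5 : ℝ) : ℂ) := by
  have h14 := PL2_14
  have h23 := PL2_23
  push_cast at h14 h23
  have c0 : chi ((0 : ℕ) : ℤ) = 0 := by decide
  have c1 : chi ((1 : ℕ) : ℤ) = 1 := by decide
  have c2 : chi ((2 : ℕ) : ℤ) = -1 := by decide
  have c3 : chi ((3 : ℕ) : ℤ) = -1 := by decide
  have c4 : chi ((4 : ℕ) : ℤ) = 1 := by decide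
  simp only [Finset.sum_range_succ, Finset.sum_range_zero, c0, c1, c2, c3, c4]
  have hn : n % 5 = 0 ∨ n % 5 = 1 ∨ n % 5 = 2 ∨ n % 5 = 3 ∨ n % 5 = 4 := by omega
  rw [PL2_per (n * ((1 : ℕ) : ℤ)), PL2_per (n * ((2 : ℕ) : ℤ)), PL2_per (n * ((3 : ℕ) : ℤ)),
    PL2_per (n * ((4 : ℕ) : ℤ))]
  rcases hn with h | h | h | h | h
  · have e1 : n * ((1 : ℕ) : ℤ) % 5 = 0 := by omega
    have e2 : n * ((2 : ℕ) : ℤ) % 5 = 0 := by omega
    have e3 : n * ((3 : ℕ) : ℤ) % 5 = 0 := by omega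
    have e4 : n * ((4 : ℕ) : ℤ) % 5 = 0 := by omega
    have ec : chi n = 0 := by unfold chi; rw [if_pos h]
    rw [e1, e2, e3, e4, ec]
    push_cast
    ring
  · have e1 : n * ((1 : ℕ) : ℤ) % 5 = 1 := by omega
    have e2 : n * ((2 : ℕ) : ℤ) % 5 = 2 := by omega
    have e3 : n * ((3 : ℕ) : ℤ) % 5 = 3 := by omega
    have e4 : n * ((4 : ℕ) : ℤ) % 5 = 4 := by omega
    have ec : chi n = 1 := by unfold chi; rw [if_neg (by omega), if_pos (by omega)]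
    rw [e1, e2, e3, e4, ec]
    push_cast
    linear_combination h14 - h23
  · have e1 : n * ((1 : ℕ) : ℤ) % 5 = 2 := by omega
    have e2 : n * ((2 : ℕ) : ℤ) % 5 = 4 := by omega
    have e3 : n * ((3 : ℕ) : ℤ) % 5 = 1 := by omega
    have e4 : n * ((4 : ℕ) : ℤ) % 5 = 3 := by omega
    have ec : chi n = -1 := by unfold chi; rw [if_neg (by omega), if_neg (by omega)]
    rw [e1, e2, e3, e4, ec]
    push_cast
    linear_combination h23 - h14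
  · have e1 : n * ((1 : ℕ) : ℤ) % 5 = 3 := by omega
    have e2 : n * ((2 : ℕ) : ℤ) % 5 = 1 := by omega
    have e3 : n * ((3 : ℕ) : ℤ) % 5 = 4 := by omega
    have e4 : n * ((4 : ℕ) : ℤ) % 5 = 2 := by omega
    have ec : chi n = -1 := by unfold chi; rw [if_neg (by omega), if_neg (by omega)]
    rw [e1, e2, e3, e4, ec]
    push_cast
    linear_combination h23 - h14
  · have e1 : n * ((1 : ℕ) : ℤ) % 5 = 4 := by omega
    have e2 : n * ((2 : ℕ) : ℤ) % 5 = 3 := by omega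
    have e3 : n * ((3 : ℕ) : ℤ) % 5 = 2 := by omega
    have e4 : n * ((4 : ℕ) : ℤ) % 5 = 1 := by omega
    have ec : chi n = 1 := by unfold chi; rw [if_neg (by omega), if_pos (by omega)]
    rw [e1, e2, e3, e4, ec]
    push_cast
    linear_combination h14 - h23

theorem PL2_inj (β : ℕ) : Function.Injective (fun m : ℤ => 5 * m + (β : ℤ)) := by
  intro a b h
  simp only at h
  omega

theorem PL2_chi5 (β : ℕ) (m : ℤ) : chi (5 * m + (β : ℤ)) = chi β := by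
  rw [add_comm, chi_add_five_mul]

theorem PL2_split (f : ℤ → ℂ) (S : ℕ → ℂ)
    (h : ∀ β ∈ Finset.range 5, HasSum (fun m : ℤ => f (5 * m + (β : ℤ))) (S β)) :
    HasSum f (∑ β ∈ Finset.range 5, S β) := by
  have h1 : ∀ β ∈ Finset.range 5,
      HasSum (fun b : ℤ => if b % 5 = (β : ℤ) then f b else 0) (S β) := by
    intro β hβ
    have hβ5 : β < 5 := Finset.mem_range.1 hβ
    rw [← (PL2_inj β).hasSum_iff]
    · have := h β hβ
      refine this.congr_fun ?_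
      intro m
      simp only [Function.comp_apply]
      rw [if_pos (by omega)]
    · intro x hx
      apply if_neg
      intro hx2
      apply hx
      exact ⟨x / 5, by simp only; omega⟩
  have h2 := hasSum_sum h1
  refine h2.congr_fun ?_
  intro b
  have hb : b % 5 = 0 ∨ b % 5 = 1 ∨ b % 5 = 2 ∨ b % 5 = 3 ∨ b % 5 = 4 := by omega
  simp only [Finset.sum_range_succ, Finset.sum_range_zero]
  rcases hb with h | h | h | h | h <;> rw [h] <;> norm_num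

theorem PL2_q (k : ℕ) {τ : ℂ} (hτ : 0 < τ.im) :
    Summable (fun r : ℕ => (r : ℂ) ^ (k - 1) * ee ((r : ℂ) * τ / 5)) := by
  have h1 : ‖ee (τ / 5)‖ < 1 := by
    rw [norm_ee]
    apply Real.exp_lt_one_iff.2
    have : (τ / 5).im = τ.im / 5 := by simp
    rw [this]
    have := Real.pi_pos
    have : 0 < 2 * π * (τ.im / 5) := by positivity
    linarith
  have h2 := summable_pow_mul_geometric_of_norm_lt_one (k - 1) h1
  refine h2.congr ?_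
  intro r
  rw [← ee_nsmul, mul_div_assoc]

theorem PL2_class (k : ℕ) (hk : 2 ≤ k) {τ : ℂ} (hτ : 0 < τ.im) (β : ℕ) :
    HasSum (fun n : ℤ => 1 / ((τ + (β : ℂ)) / 5 + (n : ℂ)) ^ k)
      ((-2 * (π : ℂ) * Complex.I) ^ k / ((k - 1).factorial : ℂ) *
          ∑' r : ℕ, (r : ℂ) ^ (k - 1) * ee ((r : ℂ) * τ / 5) *
            ee ((((r : ℤ) * (β : ℤ) : ℤ) : ℂ) / 5)) := by
  have hz : 0 < ((τ + (β : ℂ)) / 5).im := by
    have : ((τ + (β : ℂ)) / 5).im = τ.im / 5 := by simp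
    rw [this]
    positivity
  obtain ⟨m, rfl⟩ : ∃ m, k = m + 1 := ⟨k - 1, by omega⟩
  have hE := EisensteinSeries.qExpansion_identity (k := m) (by omega)
    ⟨(τ + (β : ℂ)) / 5, hz⟩
  have hs : Summable (fun n : ℤ => 1 / ((τ + (β : ℂ)) / 5 + (n : ℂ)) ^ (m + 1)) := by
    have := EisensteinSeries.linear_right_summable ((τ + (β : ℂ)) / 5) 1 (k := ((m + 1 : ℕ) : ℤ))
      (by exact_mod_cast hk)
    refine this.congr ?_
    intro n
    rw [zpow_natCast]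
    simp only [Int.cast_one, one_mul, one_div]
  have hE2 : ∑' n : ℤ, 1 / ((τ + (β : ℂ)) / 5 + (n : ℂ)) ^ (m + 1) =
      (-2 * (π : ℂ) * Complex.I) ^ (m + 1) / (m.factorial : ℂ) *
        ∑' r : ℕ, (r : ℂ) ^ m * ee ((r : ℂ) * τ / 5) *
          ee ((((r : ℤ) * (β : ℤ) : ℤ) : ℂ) / 5) := by
    refine hE.trans ?_
    congr 1
    apply tsum_congr
    intro r
    have hr : Complex.exp (2 * (π : ℂ) * Complex.I *
        (((⟨(τ + (β : ℂ)) / 5, hz⟩ : UpperHalfPlane) : UpperHalfPlane) : ℂ)) =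
        ee ((τ + (β : ℂ)) / 5) := rfl
    rw [hr, ← ee_nsmul, mul_assoc, ← ee_add]
    congr 2
    push_cast
    ring
  have hs2 := hs.hasSum
  rw [hE2] at hs2
  exact hs2

theorem PL2_q2 (k : ℕ) {τ : ℂ} (hτ : 0 < τ.im) :
    Summable (fun r : ℕ => (chi r : ℂ) * (r : ℂ) ^ (k - 1) * ee ((r : ℂ) * τ / 5)) := by
  refine Summable.of_norm_bounded (PL2_q k hτ).norm ?_
  intro r
  rw [mul_assoc, norm_mul]
  calc ‖((chi (r : ℤ) : ℤ) : ℂ)‖ * ‖(r : ℂ) ^ (k - 1) * ee ((r : ℂ) * τ / 5)‖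
      ≤ 1 * ‖(r : ℂ) ^ (k - 1) * ee ((r : ℂ) * τ / 5)‖ :=
        mul_le_mul_of_nonneg_right (norm_chi_le _) (norm_nonneg _)
    _ = _ := one_mul _

theorem PL2_q3 (k : ℕ) {τ : ℂ} (hτ : 0 < τ.im) (β : ℕ) : Summable (fun r : ℕ => (chi β : ℂ) *
      ((r : ℂ) ^ (k - 1) * ee ((r : ℂ) * τ / 5) * ee ((((r : ℤ) * (β : ℤ) : ℤ) : ℂ) / 5))) := by
  apply Summable.mul_left
  refine Summable.of_norm_bounded (PL2_q k hτ).norm ?_
  intro r
  rw [norm_mul _ (ee ((((r : ℤ) * (β : ℤ) : ℤ) : ℂ) / 5)), norm_ee]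
  have h0 : ((((r : ℤ) * (β : ℤ) : ℤ) : ℂ) / 5).im = 0 := by
    have h1 : ((((r : ℤ) * (β : ℤ) : ℤ) : ℂ) / 5) =
        (((((r : ℤ) * (β : ℤ) : ℤ) : ℝ) / 5 : ℝ) : ℂ) := by
      push_cast; ring
    rw [h1, Complex.ofReal_im]
  rw [h0]
  simp only [mul_zero, neg_zero, Real.exp_zero, mul_one, le_refl]

theorem PL2_swap (k : ℕ) {τ : ℂ} (hτ : 0 < τ.im) :
    ∑ β ∈ Finset.range 5, (chi β : ℂ) * ∑' r : ℕ,
      (r : ℂ) ^ (k - 1) * ee ((r : ℂ) * τ / 5) * ee ((((r : ℤ) * (β : ℤ) : ℤ) : ℂ) / 5) =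
      ((√5 : ℝ) : ℂ) * ∑' r : ℕ, (chi r : ℂ) * (r : ℂ) ^ (k - 1) * ee ((r : ℂ) * τ / 5) := by
  simp_rw [← tsum_mul_left]
  rw [← Summable.tsum_finsetSum (fun β _ => PL2_q3 k hτ β)]
  apply tsum_congr
  intro r
  have hg := PL2_gauss (r : ℤ)
  have h0 : ∑ β ∈ Finset.range 5, (chi β : ℂ) *
      ((r : ℂ) ^ (k - 1) * ee ((r : ℂ) * τ / 5) * ee ((((r : ℤ) * (β : ℤ) : ℤ) : ℂ) / 5)) =
      ((r : ℂ) ^ (k - 1) * ee ((r : ℂ) * τ / 5)) *
        ∑ β ∈ Finset.range 5, (chi β : ℂ) * ee ((((r : ℤ) * (β : ℤ) : ℤ) : ℂ) / 5) := by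
    rw [Finset.mul_sum]
    apply Finset.sum_congr rfl
    intro β _
    ring
  rw [h0, hg]
  ring

/-- CHUNK PL2.  Proof.  Split `b = 5 m + β`, `0 ≤ β < 5`:
`∑_b χ (b) (τ + b)^(-k) = 5^(-k) ∑_β χ (β) ∑_m ((τ + β)/5 + m)^(-k)`, apply
`EisensteinSeries.qExpansion_identity` (exponent `k - 1 + 1`) to `(τ + β)/5`, interchange with the
finite sum over `β` and use `PL2_gauss`. -/
theorem PL2_lipschitz (k : ℕ) (hk : 2 ≤ k) {τ : ℂ} (hτ : 0 < τ.im) :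
    Summable (fun b : ℤ => (chi b : ℂ) / (τ + (b : ℂ)) ^ k) ∧
    Summable (fun r : ℕ => (chi r : ℂ) * (r : ℂ) ^ (k - 1) * ee ((r : ℂ) * τ / 5)) ∧
    ∑' b : ℤ, (chi b : ℂ) / (τ + (b : ℂ)) ^ k =
      CC k * ∑' r : ℕ, (chi r : ℂ) * (r : ℂ) ^ (k - 1) * ee ((r : ℂ) * τ / 5) := by
  have hq := PL2_q k hτ
  have hq2 := PL2_q2 k hτ
  have h2 := PL2_split (fun b : ℤ => (chi b : ℂ) / (τ + (b : ℂ)) ^ k)
    (fun β => (chi β : ℂ) / (5 : ℂ) ^ k *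
      ((-2 * (π : ℂ) * Complex.I) ^ k / ((k - 1).factorial : ℂ) *
          ∑' r : ℕ, (r : ℂ) ^ (k - 1) * ee ((r : ℂ) * τ / 5) *
            ee ((((r : ℤ) * (β : ℤ) : ℤ) : ℂ) / 5))) (fun β _ => by
      refine ((PL2_class k hk hτ β).mul_left ((chi β : ℂ) / (5 : ℂ) ^ k)).congr_fun ?_
      intro m
      have h0 : (τ + ((5 * m + (β : ℤ) : ℤ) : ℂ)) = 5 * ((τ + (β : ℂ)) / 5 + (m : ℂ)) := by
        push_cast; ring
      simp only [PL2_chi5]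
      rw [h0, mul_pow, div_mul_div_comm, mul_one])
  refine ⟨h2.summable, hq2, ?_⟩
  rw [h2.tsum_eq]
  have h4 := PL2_swap k hτ
  have h5 : ∑ β ∈ Finset.range 5, ((chi β : ℂ) / (5 : ℂ) ^ k *
      ((-2 * (π : ℂ) * Complex.I) ^ k / ((k - 1).factorial : ℂ) *
          ∑' r : ℕ, (r : ℂ) ^ (k - 1) * ee ((r : ℂ) * τ / 5) *
            ee ((((r : ℤ) * (β : ℤ) : ℤ) : ℂ) / 5))) =
      (-2 * (π : ℂ) * Complex.I) ^ k / ((k - 1).factorial : ℂ) / (5 : ℂ) ^ k *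
        ∑ β ∈ Finset.range 5, (chi β : ℂ) * ∑' r : ℕ,
      (r : ℂ) ^ (k - 1) * ee ((r : ℂ) * τ / 5) * ee ((((r : ℤ) * (β : ℤ) : ℤ) : ℂ) / 5) := by
    rw [Finset.mul_sum]
    apply Finset.sum_congr rfl
    intro β _
    ring
  rw [h5, h4]
  unfold CC
  ring

end H94M
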