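import Pool.Agent.Lib.H94M.PE0
import Pool.Agent.Lib.H94M.PL2

set_option autoImplicit false

/-!
CHUNK PE2 (S/M).  The Gauss sum modulo `5`, and multiplicativity.
-/

namespace H94M

open Finset

theorem PE2_E {x y : ℤ} (h : (5 : ℤ) ∣ x - y) :
    ee ((x : ℂ) / 5) = ee ((y : ℂ) / 5) := by
  have h1 := PE0_ee_congr (c := 5) (by norm_num) (x := x) (y := y) (by exact_mod_cast h)
  exact_mod_cast h1

/-- CHUNK PE2.  Proof.  `qf x y ≡ (x + 3 y)² mod 5`, so (shift `x` by `-3 y`, `PE0_shift`)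
`Sg h 5 = 5 ∑_u e (h u² / 5) = 5 (1 + 2 e (h/5) + 2 e (4 h/5)) = 5 ∑_β (1 + χ (β)) e (h β/5)`
(the sum with `β = 0` included, `1 + χ(0) = 1`) `= 5 χ (h) √5` (`PL2_gauss`, `PE0_orth`). -/
theorem PE2_five (h : ℤ) (hh : ¬ (5 : ℤ) ∣ h) : Sg h 5 = (chi h : ℂ) * 5 * ((√5 : ℝ) : ℂ) := by
  -- the sum of squares
  have hper : Per 5 (fun x : ℤ => ee (((h * x ^ 2 : ℤ) : ℂ) / 5)) := by
    intro x
    apply PE2_E
    exact ⟨h * (2 * x + 5), by push_cast; ring⟩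
  have hrow : ∀ y : ℤ, ∑ x ∈ range 5, ee (((h * qf x y : ℤ) : ℂ) / 5) =
      ∑ x ∈ range 5, ee (((h * (x : ℤ) ^ 2 : ℤ) : ℂ) / 5) := by
    intro y
    rw [← PE0_shift hper (3 * y)]
    refine Finset.sum_congr rfl fun x _ => ?_
    apply PE2_E
    exact ⟨h * (-((x : ℤ) * y) - 2 * y ^ 2), by unfold qf; ring⟩
  have hS : Sg h 5 = 5 * ∑ x ∈ range 5, ee (((h * (x : ℤ) ^ 2 : ℤ) : ℂ) / 5) := by
    unfold Sg
    rw [Finset.sum_comm]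
    have h1 : ∀ y ∈ range 5, ∑ x ∈ range 5, ee (((h * qf x y : ℤ) : ℂ) / ((5 : ℕ) : ℂ)) =
        ∑ x ∈ range 5, ee (((h * (x : ℤ) ^ 2 : ℤ) : ℂ) / 5) := by
      intro y _
      have h2 := hrow (y : ℤ)
      push_cast at h2 ⊢
      exact h2
    rw [Finset.sum_congr rfl h1, Finset.sum_const, Finset.card_range, nsmul_eq_mul]
    push_cast
    ring
  have hg := PL2_gauss h
  have ho := PE0_orth (c := 5) (by norm_num) h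
  rw [if_neg (by exact_mod_cast hh)] at ho
  have c0 : chi ((0 : ℕ) : ℤ) = 0 := by decide
  have c1 : chi ((1 : ℕ) : ℤ) = 1 := by decide
  have c2 : chi ((2 : ℕ) : ℤ) = -1 := by decide
  have c3 : chi ((3 : ℕ) : ℤ) = -1 := by decide
  have c4 : chi ((4 : ℕ) : ℤ) = 1 := by decide
  simp only [Finset.sum_range_succ, Finset.sum_range_zero, zero_add] at hg ho hS
  rw [c0, c1, c2, c3, c4] at hg
  have e2 : ee (((h * ((2 : ℕ) : ℤ) ^ 2 : ℤ) : ℂ) / 5) = ee (((h * ((4 : ℕ) : ℤ) : ℤ) : ℂ) / 5) :=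
    PE2_E ⟨0, by push_cast; ring⟩
  have e3 : ee (((h * ((3 : ℕ) : ℤ) ^ 2 : ℤ) : ℂ) / 5) = ee (((h * ((4 : ℕ) : ℤ) : ℤ) : ℂ) / 5) :=
    PE2_E ⟨h, by push_cast; ring⟩
  have e4 : ee (((h * ((4 : ℕ) : ℤ) ^ 2 : ℤ) : ℂ) / 5) = ee (((h * ((1 : ℕ) : ℤ) : ℤ) : ℂ) / 5) :=
    PE2_E ⟨3 * h, by push_cast; ring⟩
  have e1 : ee (((h * ((1 : ℕ) : ℤ) ^ 2 : ℤ) : ℂ) / 5) = ee (((h * ((1 : ℕ) : ℤ) : ℤ) : ℂ) / 5) :=
    PE2_E ⟨0, by push_cast; ring⟩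
  have e0 : ee (((h * ((0 : ℕ) : ℤ) ^ 2 : ℤ) : ℂ) / 5) = ee (((h * ((0 : ℕ) : ℤ) : ℤ) : ℂ) / 5) :=
    PE2_E ⟨0, by push_cast; ring⟩
  rw [e0, e1, e2, e3, e4] at hS
  have hcast : ((5 : ℕ) : ℂ) = 5 := by norm_num
  rw [hcast] at ho
  rw [hS]
  push_cast at hg ho ⊢
  linear_combination 5 * ho + 5 * hg

/-- CHUNK PE2.  Proof.  `PE0_crt` in both variables;
`qf (c₂ u + c₁ v) = c₂² qf u + c₁² qf v + c₁ c₂ B (u, v)`. -/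
theorem PE2_mult (h : ℤ) {c₁ c₂ : ℕ} (h₁ : 0 < c₁) (h₂ : 0 < c₂) (hc : Nat.Coprime c₁ c₂) :
    Sg h (c₁ * c₂) = Sg (h * c₂) c₁ * Sg (h * c₁) c₂ := by
  have h12 : 0 < c₁ * c₂ := Nat.mul_pos h₁ h₂
  have hc1 : (c₁ : ℂ) ≠ 0 := by exact_mod_cast h₁.ne'
  have hc2 : (c₂ : ℂ) ≠ 0 := by exact_mod_cast h₂.ne'
  have hx : ∀ y : ℤ, Per (c₁ * c₂) (fun x : ℤ => ee (((h * qf x y : ℤ) : ℂ) / ((c₁ * c₂ : ℕ) : ℂ))) := by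
    intro y x
    apply PE0_ee_congr h12
    exact ⟨h * (2 * x + ((c₁ * c₂ : ℕ) : ℤ) + y), by unfold qf; ring⟩
  have hy : ∀ x : ℤ, Per (c₁ * c₂) (fun y : ℤ => ee (((h * qf x y : ℤ) : ℂ) / ((c₁ * c₂ : ℕ) : ℂ))) := by
    intro x y
    apply PE0_ee_congr h12
    exact ⟨h * (x - 2 * y - ((c₁ * c₂ : ℕ) : ℤ)), by unfold qf; ring⟩
  have hval : ∀ u v u' v' : ℤ, ee (((h * qf (c₂ * u + c₁ * v) (c₂ * u' + c₁ * v') : ℤ) : ℂ) /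
      ((c₁ * c₂ : ℕ) : ℂ)) = ee (((h * c₂ * qf u u' : ℤ) : ℂ) / (c₁ : ℂ)) *
        ee (((h * c₁ * qf v v' : ℤ) : ℂ) / (c₂ : ℂ)) := by
    intro u v u' v'
    rw [← ee_add]
    have h3 : ((h * qf (c₂ * u + c₁ * v) (c₂ * u' + c₁ * v') : ℤ) : ℂ) / ((c₁ * c₂ : ℕ) : ℂ) =
        ((h * c₂ * qf u u' : ℤ) : ℂ) / (c₁ : ℂ) + ((h * c₁ * qf v v' : ℤ) : ℂ) / (c₂ : ℂ) +
        ((h * (2 * u * v + u * v' + v * u' - 2 * u' * v') : ℤ) : ℂ) := by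
      unfold qf
      push_cast
      field_simp
      ring
    rw [h3, ee_add_int]
  unfold Sg
  have e1 : ∀ x ∈ range (c₁ * c₂), ∑ y ∈ range (c₁ * c₂),
      ee (((h * qf x y : ℤ) : ℂ) / ((c₁ * c₂ : ℕ) : ℂ)) =
      ∑ u' ∈ range c₁, ∑ v' ∈ range c₂,
        ee (((h * qf x ((c₂ : ℤ) * u' + c₁ * v') : ℤ) : ℂ) / ((c₁ * c₂ : ℕ) : ℂ)) :=
    fun x _ => PE0_crt hc (hy x)
  rw [Finset.sum_congr rfl e1, Finset.sum_comm]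
  have e2 : ∀ u' ∈ range c₁, ∑ x ∈ range (c₁ * c₂), ∑ v' ∈ range c₂,
      ee (((h * qf x ((c₂ : ℤ) * u' + c₁ * v') : ℤ) : ℂ) / ((c₁ * c₂ : ℕ) : ℂ)) =
      (∑ u ∈ range c₁, ee (((h * c₂ * qf u u' : ℤ) : ℂ) / (c₁ : ℂ))) *
        ∑ v' ∈ range c₂, ∑ v ∈ range c₂, ee (((h * c₁ * qf v v' : ℤ) : ℂ) / (c₂ : ℂ)) := by
    intro u' _
    rw [Finset.sum_comm, Finset.mul_sum]
    refine Finset.sum_congr rfl fun v' _ => ?_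
    have e3 : ∑ x ∈ range (c₁ * c₂),
        ee (((h * qf x ((c₂ : ℤ) * u' + c₁ * v') : ℤ) : ℂ) / ((c₁ * c₂ : ℕ) : ℂ)) =
        ∑ u ∈ range c₁, ∑ v ∈ range c₂, ee (((h * qf ((c₂ : ℤ) * u + c₁ * v)
          ((c₂ : ℤ) * u' + c₁ * v') : ℤ) : ℂ) / ((c₁ * c₂ : ℕ) : ℂ)) :=
      PE0_crt hc (hx ((c₂ : ℤ) * u' + c₁ * v'))
    rw [e3, Finset.sum_mul_sum]
    exact Finset.sum_congr rfl fun u _ => Finset.sum_congr rfl fun v _ => hval u v u' v'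
  rw [Finset.sum_congr rfl e2, ← Finset.sum_mul]
  congr 1
  · exact Finset.sum_comm
  · exact Finset.sum_comm

/-- CHUNK PE2. -/
theorem PE2_one (h : ℤ) : Sg h 1 = 1 := by
  unfold Sg
  simp [qf, ee_zero]

end H94M
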