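import Pool.Agent.Lib.H94M.PE0

set_option autoImplicit false

/-!
CHUNK PE3 (M).  Reduction of the Gauss sum for `p² ∣ c`, `p ≠ 5`.
-/

namespace H94M

open Finset

/-- Sums of functions supported on the multiples of `p`. -/
theorem PE3_div (p e : ℕ) (hp : 0 < p) (f : ℤ → ℂ) (hf : ∀ x : ℤ, ¬ (p : ℤ) ∣ x → f x = 0) :
    ∑ x ∈ range (p * e), f x = ∑ x ∈ range e, f ((p : ℤ) * x) := by
  rw [mul_comm p e, PE0_mul e p f, Finset.sum_eq_single 0]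
  · refine Finset.sum_congr rfl fun v _ => ?_
    rw [Nat.cast_zero, zero_add]
  · intro u hu hu0
    refine Finset.sum_eq_zero fun v _ => hf _ ?_
    intro h
    rw [Finset.mem_range] at hu
    have h2 : (p : ℤ) ∣ (u : ℤ) := (Int.dvd_add_left (dvd_mul_right _ _)).1 h
    have h3 : p ∣ u := by exact_mod_cast h2
    exact hu0 (Nat.eq_zero_of_dvd_of_lt h3 hu)
  · intro h
    exact absurd (Finset.mem_range.2 hp) h

/-- CHUNK PE3.  Proof.  `c = p d`, `p ∣ d`.  Write `x = x₀ + d κ₁`, `y = y₀ + d κ₂`, `x₀, y₀ < d`,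
`κ₁, κ₂ < p` (`PE0_mul`): `qf x y = qf x₀ y₀ + d (κ₁ (2 x₀ + y₀) + κ₂ (x₀ - 2 y₀)) + d² qf κ₁ κ₂` and
`c ∣ d²`.  By `PE0_orth` the sum over `κ` is `p² [p ∣ 2 x₀ + y₀] [p ∣ x₀ - 2 y₀]` (`p ∤ h`), i.e. `p²` if
`p ∣ x₀` and `p ∣ y₀` (determinant `-5`), else `0`.  With `x₀ = p x₁`, `y₀ = p y₁`, `x₁, y₁ < d/p`:
`h p² qf x₁ y₁ / c = h qf x₁ y₁ / (c/p²)`. -/
theorem PE3_sq (p : ℕ) (hp : p.Prime) (h5 : p ≠ 5) (e : ℕ) (he : 0 < e) (h : ℤ)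
    (hh : ¬ (p : ℤ) ∣ h) : Sg h (p ^ 2 * e) = (p : ℂ) ^ 2 * Sg h e := by
  classical
  have hp0 : (p : ℂ) ≠ 0 := by exact_mod_cast hp.ne_zero
  have he0 : (e : ℂ) ≠ 0 := by exact_mod_cast he.ne'
  set d : ℕ := p * e with hd
  have hcd : p ^ 2 * e = p * d := by rw [hd]; ring
  let F : ℤ → ℤ → ℂ := fun x y => ee (((h * qf x y : ℤ) : ℂ) / ((p ^ 2 * e : ℕ) : ℂ))
  have hF : ∀ x0 k1 y0 k2 : ℤ, F (x0 + d * k1) (y0 + d * k2) = F x0 y0 *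
      (ee (((h * (2 * x0 + y0) * k1 : ℤ) : ℂ) / (p : ℂ)) *
        ee (((h * (x0 - 2 * y0) * k2 : ℤ) : ℂ) / (p : ℂ))) := by
    intro x0 k1 y0 k2
    simp only [F]
    rw [← ee_add, ← ee_add]
    have h1 : ((h * qf (x0 + d * k1) (y0 + d * k2) : ℤ) : ℂ) / ((p ^ 2 * e : ℕ) : ℂ) =
        (((h * qf x0 y0 : ℤ) : ℂ) / ((p ^ 2 * e : ℕ) : ℂ) +
          (((h * (2 * x0 + y0) * k1 : ℤ) : ℂ) / (p : ℂ) +
            ((h * (x0 - 2 * y0) * k2 : ℤ) : ℂ) / (p : ℂ))) +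
        ((h * e * qf k1 k2 : ℤ) : ℂ) := by
      rw [hd]
      unfold qf
      push_cast
      field_simp
      ring
    rw [h1, ee_add_int]
  have hsum : ∀ x0 y0 : ℤ, ∑ k1 ∈ range p, ∑ k2 ∈ range p, F (x0 + d * (k1 : ℤ)) (y0 + d * (k2 : ℤ)) =
      if (p : ℤ) ∣ x0 ∧ (p : ℤ) ∣ y0 then (p : ℂ) ^ 2 * F x0 y0 else 0 := by
    intro x0 y0
    simp only [hF]
    simp only [← Finset.mul_sum, ← Finset.sum_mul]
    rw [PE0_orth hp.pos, PE0_orth hp.pos]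
    have hpz : Prime (p : ℤ) := Nat.prime_iff_prime_int.1 hp
    have h5z : ¬ (p : ℤ) ∣ 5 := by
      intro hdiv
      have h6 : p ∣ 5 := by exact_mod_cast hdiv
      exact h5 ((Nat.prime_dvd_prime_iff_eq hp (by norm_num)).1 h6)
    have hiff : ((p : ℤ) ∣ h * (2 * x0 + y0) ∧ (p : ℤ) ∣ h * (x0 - 2 * y0)) ↔
        ((p : ℤ) ∣ x0 ∧ (p : ℤ) ∣ y0) := by
      constructor
      · rintro ⟨h1, h2⟩
        have h1' := (hpz.dvd_or_dvd h1).resolve_left hh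
        have h2' := (hpz.dvd_or_dvd h2).resolve_left hh
        constructor
        · have h3 : (p : ℤ) ∣ 5 * x0 := by
            have h8 : 5 * x0 = 2 * (2 * x0 + y0) + (x0 - 2 * y0) := by ring
            rw [h8]
            exact dvd_add (dvd_mul_of_dvd_right h1' 2) h2'
          exact (hpz.dvd_or_dvd h3).resolve_left h5z
        · have h3 : (p : ℤ) ∣ 5 * y0 := by
            have h8 : 5 * y0 = (2 * x0 + y0) - 2 * (x0 - 2 * y0) := by ring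
            rw [h8]
            exact dvd_sub h1' (dvd_mul_of_dvd_right h2' 2)
          exact (hpz.dvd_or_dvd h3).resolve_left h5z
      · rintro ⟨h1, h2⟩
        exact ⟨dvd_mul_of_dvd_right (dvd_add (dvd_mul_of_dvd_right h1 2) h2) h,
          dvd_mul_of_dvd_right (dvd_sub h1 (dvd_mul_of_dvd_right h2 2)) h⟩
    by_cases hc : (p : ℤ) ∣ x0 ∧ (p : ℤ) ∣ y0
    · obtain ⟨h1, h2⟩ := hiff.2 hc
      rw [if_pos hc, if_pos h1, if_pos h2]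
      ring
    · rw [if_neg hc]
      have h3 := mt hiff.1 hc
      rw [not_and_or] at h3
      rcases h3 with h3 | h3
      · rw [if_neg h3]; ring
      · rw [if_neg h3]; ring
  have h1 : Sg h (p ^ 2 * e) = ∑ x ∈ range (p * d), ∑ y ∈ range (p * d), F x y := by
    rw [← hcd]
    rfl
  rw [h1, PE0_mul p d (fun x => ∑ y ∈ range (p * d), F x y)]
  have h2 : ∀ x0 ∈ range d, ∑ v ∈ range p, ∑ y ∈ range (p * d), F ((x0 : ℤ) + d * (v : ℤ)) y =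
      ∑ y0 ∈ range d, (if (p : ℤ) ∣ (x0 : ℤ) ∧ (p : ℤ) ∣ (y0 : ℤ) then
        (p : ℂ) ^ 2 * F x0 y0 else 0) := by
    intro x0 _
    have h3 : ∀ v ∈ range p, ∑ y ∈ range (p * d), F ((x0 : ℤ) + d * (v : ℤ)) y =
        ∑ y0 ∈ range d, ∑ k2 ∈ range p, F ((x0 : ℤ) + d * (v : ℤ)) ((y0 : ℤ) + d * (k2 : ℤ)) := by
      intro v _
      exact PE0_mul p d (fun y => F ((x0 : ℤ) + d * (v : ℤ)) y)
    rw [Finset.sum_congr rfl h3, Finset.sum_comm]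
    exact Finset.sum_congr rfl fun y0 _ => hsum x0 y0
  rw [Finset.sum_congr rfl h2]
  have h4 : ∑ x0 ∈ range d, ∑ y0 ∈ range d, (if (p : ℤ) ∣ (x0 : ℤ) ∧ (p : ℤ) ∣ (y0 : ℤ) then
        (p : ℂ) ^ 2 * F x0 y0 else 0) =
      ∑ x1 ∈ range e, ∑ y1 ∈ range e, (p : ℂ) ^ 2 * F ((p : ℤ) * x1) ((p : ℤ) * y1) := by
    rw [hd, PE3_div p e hp.pos (fun x => ∑ y0 ∈ range (p * e),
      (if (p : ℤ) ∣ x ∧ (p : ℤ) ∣ (y0 : ℤ) then (p : ℂ) ^ 2 * F x y0 else 0))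
      (fun x hx => Finset.sum_eq_zero fun y _ => if_neg fun h => hx h.1)]
    refine Finset.sum_congr rfl fun x1 _ => ?_
    rw [PE3_div p e hp.pos (fun y => (if (p : ℤ) ∣ (p : ℤ) * x1 ∧ (p : ℤ) ∣ y then
      (p : ℂ) ^ 2 * F ((p : ℤ) * x1) y else 0)) (fun y hy => if_neg fun h => hy h.2)]
    refine Finset.sum_congr rfl fun y1 _ => ?_
    rw [if_pos ⟨dvd_mul_right _ _, dvd_mul_right _ _⟩]
  rw [h4]
  unfold Sg
  rw [Finset.mul_sum]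
  refine Finset.sum_congr rfl fun x1 _ => ?_
  rw [Finset.mul_sum]
  refine Finset.sum_congr rfl fun y1 _ => ?_
  congr 1
  simp only [F]
  congr 1
  unfold qf
  push_cast
  field_simp

end H94M
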