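import Pool.Agent.Lib.H94M.PE0

set_option autoImplicit false

/-!
CHUNK PE4 (M).  Reduction of the Gauss sum for `25 ∣ c`.
-/

namespace H94M

open Finset

/-- Sums of functions supported on the multiples of `p`. -/
theorem PE4_div (p e : ℕ) (hp : 0 < p) (f : ℤ → ℂ) (hf : ∀ x : ℤ, ¬ (p : ℤ) ∣ x → f x = 0) :
    ∑ x ∈ range (p * e), f x = ∑ x ∈ range e, f ((p : ℤ) * x) := by
  rw [mul_comm p e, PE0_mul e p f, Finset.sum_eq_single 0]
  · refine Finset.sum_congr rfl fun v _ => ?_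
    rw [Nat.cast_zero, zero_add]
  · intro u hu hu0
    refine Finset.sum_eq_zero fun v _ => hf _ ?_
    intro h
    rw [Finset.mem_range] at hu
    have h2 : (p : ℤ) ∣ (u : ℤ) := (Int.dvd_add_left (dvd_mul_right _ _)).1 h
    have h3 : p ∣ u := by exact_mod_cast h2
    exact hu0 (Nat.eq_zero_of_dvd_of_lt h3 hu)
  · intro h
    exact absurd (Finset.mem_range.2 hp) h

/-- CHUNK PE4.  Proof.  `c = 25 d`.  Write `x = x₀ + 5 d κ₁`, `y = y₀ + 5 d κ₂`, `x₀, y₀ < 5 d`,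
`κ₁, κ₂ < 5` (`PE0_mul`): `qf x y = qf x₀ y₀ + 5 d (κ₁ (2 x₀ + y₀) + κ₂ (x₀ - 2 y₀)) + 25 d² (...)`; by
`PE0_orth` the sum over `κ` is `25` if `x₀ ≡ 2 y₀ mod 5` and `0` otherwise.  So
`Sg h (25 d) = 25 ∑_{y < 5 d} ∑_{z < d} e (h (y² + 5 y z + 5 z²)/(5 d))` (`x₀ ≡ 2 y + 5 z mod 5 d`,
`qf (2 y + 5 z) y = 5 (y² + 5 y z + 5 z²)`; the summand depends only on `x₀ mod 5 d` when
`x₀ ≡ 2 y mod 5`, i.e. on `z mod d`).  Let `g (z) = ∑_{y < 5 d} e (h (y² + 5 y z + 5 z²)/(5 d))`, periodic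
modulo `d`; the substitution `y ↦ y - 2 z` (`PE0_shift`) gives
`g (z) = ∑_{y < 5 d} e (h (y² + y z - z²)/(5 d))`, so
`Sg h (5 d) = ∑_{z < 5 d} g (z) = 5 ∑_{z < d} g (z)` (`PE0_lift`). -/
theorem PE4_five (d : ℕ) (hd : 0 < d) (h : ℤ) (hh : ¬ (5 : ℤ) ∣ h) :
    Sg h (25 * d) = 5 * Sg h (5 * d) := by
  classical
  have hd0 : (d : ℂ) ≠ 0 := by exact_mod_cast hd.ne'
  have hcd : 25 * d = 5 * (5 * d) := by ring
  have h5z : Prime (5 : ℤ) := Int.prime_iff_natAbs_prime.2 (by norm_num)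
  let F : ℤ → ℤ → ℂ := fun x y => ee (((h * qf x y : ℤ) : ℂ) / ((25 * d : ℕ) : ℂ))
  have hF : ∀ x0 k1 y0 k2 : ℤ, F (x0 + (5 * d : ℕ) * k1) (y0 + (5 * d : ℕ) * k2) = F x0 y0 *
      (ee (((h * (2 * x0 + y0) * k1 : ℤ) : ℂ) / ((5 : ℕ) : ℂ)) *
        ee (((h * (x0 - 2 * y0) * k2 : ℤ) : ℂ) / ((5 : ℕ) : ℂ))) := by
    intro x0 k1 y0 k2
    simp only [F]
    rw [← ee_add, ← ee_add]
    have h1 : ((h * qf (x0 + (5 * d : ℕ) * k1) (y0 + (5 * d : ℕ) * k2) : ℤ) : ℂ) /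
          ((25 * d : ℕ) : ℂ) =
        (((h * qf x0 y0 : ℤ) : ℂ) / ((25 * d : ℕ) : ℂ) +
          (((h * (2 * x0 + y0) * k1 : ℤ) : ℂ) / ((5 : ℕ) : ℂ) +
            ((h * (x0 - 2 * y0) * k2 : ℤ) : ℂ) / ((5 : ℕ) : ℂ))) +
        ((h * d * qf k1 k2 : ℤ) : ℂ) := by
      unfold qf
      push_cast
      field_simp
      ring
    rw [h1, ee_add_int]
  have hsum : ∀ x0 y0 : ℤ, ∑ k1 ∈ range 5, ∑ k2 ∈ range 5,
      F (x0 + (5 * d : ℕ) * (k1 : ℤ)) (y0 + (5 * d : ℕ) * (k2 : ℤ)) =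
      if (5 : ℤ) ∣ x0 - 2 * y0 then 25 * F x0 y0 else 0 := by
    intro x0 y0
    simp only [hF]
    simp only [← Finset.mul_sum, ← Finset.sum_mul]
    rw [PE0_orth (by norm_num), PE0_orth (by norm_num)]
    by_cases hc : (5 : ℤ) ∣ x0 - 2 * y0
    · have h1 : ((5 : ℕ) : ℤ) ∣ h * (2 * x0 + y0) := by
        have h8 : 2 * x0 + y0 = 2 * (x0 - 2 * y0) + 5 * y0 := by ring
        rw [h8]
        exact dvd_mul_of_dvd_right (dvd_add (dvd_mul_of_dvd_right hc 2) (dvd_mul_right _ _)) h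
      have h2 : ((5 : ℕ) : ℤ) ∣ h * (x0 - 2 * y0) := dvd_mul_of_dvd_right hc h
      rw [if_pos hc, if_pos h1, if_pos h2]
      push_cast
      ring
    · rw [if_neg hc]
      have h2 : ¬ ((5 : ℕ) : ℤ) ∣ h * (x0 - 2 * y0) := by
        intro h3
        rcases h5z.dvd_or_dvd h3 with h4 | h4
        · exact hh h4
        · exact hc h4
      rw [if_neg h2]
      ring
  have h1 : Sg h (25 * d) = ∑ x ∈ range (5 * (5 * d)), ∑ y ∈ range (5 * (5 * d)), F x y := by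
    rw [← hcd]
    rfl
  have h2 : Sg h (25 * d) = ∑ x0 ∈ range (5 * d), ∑ y0 ∈ range (5 * d),
      (if (5 : ℤ) ∣ (x0 : ℤ) - 2 * (y0 : ℤ) then 25 * F x0 y0 else 0) := by
    rw [h1, PE0_mul 5 (5 * d) (fun x => ∑ y ∈ range (5 * (5 * d)), F x y)]
    refine Finset.sum_congr rfl fun x0 _ => ?_
    have h3 : ∀ v ∈ range 5, ∑ y ∈ range (5 * (5 * d)), F ((x0 : ℤ) + (5 * d : ℕ) * (v : ℤ)) y =
        ∑ y0 ∈ range (5 * d), ∑ k2 ∈ range 5,
          F ((x0 : ℤ) + (5 * d : ℕ) * (v : ℤ)) ((y0 : ℤ) + (5 * d : ℕ) * (k2 : ℤ)) := by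
      intro v _
      exact PE0_mul 5 (5 * d) (fun y => F ((x0 : ℤ) + (5 * d : ℕ) * (v : ℤ)) y)
    rw [Finset.sum_congr rfl h3, Finset.sum_comm]
    exact Finset.sum_congr rfl fun y0 _ => hsum x0 y0
  -- the inner sum over `x0`
  let g : ℤ → ℂ := fun z => ∑ y ∈ range (5 * d),
    ee (((h * (y ^ 2 + 5 * y * z + 5 * z ^ 2) : ℤ) : ℂ) / ((5 * d : ℕ) : ℂ))
  have h3 : ∀ y0 : ℕ, ∑ x0 ∈ range (5 * d),
      (if (5 : ℤ) ∣ (x0 : ℤ) - 2 * (y0 : ℤ) then 25 * F x0 y0 else 0) =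
      ∑ z ∈ range d, 25 * ee (((h * ((y0 : ℤ) ^ 2 + 5 * (y0 : ℤ) * (z : ℤ) + 5 * (z : ℤ) ^ 2) : ℤ) : ℂ) /
        ((5 * d : ℕ) : ℂ)) := by
    intro y0
    have hper : Per (5 * d) (fun x : ℤ =>
        if (5 : ℤ) ∣ x - 2 * (y0 : ℤ) then 25 * F x y0 else 0) := by
      intro x
      have hiff : (5 : ℤ) ∣ x + ((5 * d : ℕ) : ℤ) - 2 * (y0 : ℤ) ↔ (5 : ℤ) ∣ x - 2 * (y0 : ℤ) := by
        have h8 : x + ((5 * d : ℕ) : ℤ) - 2 * (y0 : ℤ) = (x - 2 * (y0 : ℤ)) + 5 * (d : ℤ) := by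
          push_cast
          ring
        rw [h8]
        exact (Int.dvd_add_left (dvd_mul_right _ _))
      simp only
      by_cases hc : (5 : ℤ) ∣ x - 2 * (y0 : ℤ)
      · rw [if_pos (hiff.2 hc), if_pos hc]
        congr 1
        have h4 := hF x 1 y0 0
        rw [mul_one, mul_zero, add_zero] at h4
        rw [h4]
        obtain ⟨t, ht⟩ := hc
        have h5 : (((h * (2 * x + (y0 : ℤ)) * 1 : ℤ) : ℂ) / ((5 : ℕ) : ℂ)) =
            ((h * (2 * t + (y0 : ℤ)) : ℤ) : ℂ) := by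
          have h6 : x = 2 * (y0 : ℤ) + 5 * t := by linarith
          rw [h6]
          push_cast
          ring
        have h7 : (((h * (x - 2 * (y0 : ℤ)) * 0 : ℤ) : ℂ) / ((5 : ℕ) : ℂ)) = ((0 : ℤ) : ℂ) := by
          push_cast
          ring
        rw [h5, h7, ee_int, ee_int, mul_one, mul_one]
      · rw [if_neg (mt hiff.1 hc), if_neg hc]
    have h4 := PE0_shift hper (2 * (y0 : ℤ))
    rw [← h4]
    have h5 := PE4_div 5 d (by norm_num) (fun x : ℤ =>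
      if (5 : ℤ) ∣ x + 2 * (y0 : ℤ) - 2 * (y0 : ℤ) then 25 * F (x + 2 * (y0 : ℤ)) y0 else 0)
      (fun x hx => by
        rw [if_neg]
        rw [add_sub_cancel_right]
        exact hx)
    rw [h5]
    refine Finset.sum_congr rfl fun z _ => ?_
    rw [if_pos (by rw [add_sub_cancel_right]; exact dvd_mul_right _ _)]
    congr 1
    simp only [F]
    congr 1
    unfold qf
    push_cast
    field_simp
    ring
  have h4 : Sg h (25 * d) = 25 * ∑ z ∈ range d, g z := by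
    rw [h2, Finset.sum_comm, Finset.sum_congr rfl fun y0 _ => h3 y0, Finset.sum_comm,
      Finset.mul_sum]
    refine Finset.sum_congr rfl fun z _ => ?_
    simp only [g]
    rw [Finset.mul_sum]
  have hg : ∀ z : ℤ, g z = ∑ y ∈ range (5 * d),
      ee (((h * qf y z : ℤ) : ℂ) / ((5 * d : ℕ) : ℂ)) := by
    intro z
    have hper : Per (5 * d) (fun y : ℤ =>
        ee (((h * (y ^ 2 + 5 * y * z + 5 * z ^ 2) : ℤ) : ℂ) / ((5 * d : ℕ) : ℂ))) := by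
      intro y
      simp only
      have h8 : ((h * ((y + (5 * d : ℕ)) ^ 2 + 5 * (y + (5 * d : ℕ)) * z + 5 * z ^ 2) : ℤ) : ℂ) /
          ((5 * d : ℕ) : ℂ) = ((h * (y ^ 2 + 5 * y * z + 5 * z ^ 2) : ℤ) : ℂ) / ((5 * d : ℕ) : ℂ) +
          ((h * (2 * y + 5 * d + 5 * z) : ℤ) : ℂ) := by
        push_cast
        field_simp
        ring
      rw [h8, ee_add_int]
    have h5 := PE0_shift hper (-(2 * z))
    simp only [g]
    rw [← h5]
    refine Finset.sum_congr rfl fun y _ => ?_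
    congr 3
    unfold qf
    ring
  have hgper : Per d g := by
    intro z
    simp only [g]
    refine Finset.sum_congr rfl fun y _ => ?_
    have h8 : ((h * ((y : ℤ) ^ 2 + 5 * (y : ℤ) * (z + d) + 5 * (z + d) ^ 2) : ℤ) : ℂ) /
        ((5 * d : ℕ) : ℂ) = ((h * ((y : ℤ) ^ 2 + 5 * (y : ℤ) * z + 5 * z ^ 2) : ℤ) : ℂ) /
          ((5 * d : ℕ) : ℂ) + ((h * ((y : ℤ) + 2 * z + d) : ℤ) : ℂ) := by
      push_cast
      field_simp
      ring
    rw [h8, ee_add_int]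
  have h6 : Sg h (5 * d) = 5 * ∑ z ∈ range d, g z := by
    have h7 := PE0_lift hgper 5
    have h8 : ((5 : ℕ) : ℂ) = 5 := by norm_num
    rw [h8] at h7
    rw [← h7]
    unfold Sg
    rw [Finset.sum_comm]
    exact Finset.sum_congr rfl fun z _ => (hg z).symm
  rw [h4, h6]
  ring

end H94M
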