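import Pool.Agent.Lib.H94M.PE1
import Pool.Agent.Lib.H94M.PE2
import Pool.Agent.Lib.H94M.PE3
import Pool.Agent.Lib.H94M.PE4

set_option autoImplicit false

/-!
CHUNK PE6 (S/M).  The Gauss sum of the norm form.
-/

namespace H94M

open Finset

theorem PE6_sq {n : ℤ} (h : ¬ (5 : ℤ) ∣ n) : (chi n : ℂ) * (chi n : ℂ) = 1 := by
  have h1 : chi n * chi n = 1 := by
    have h2 : n % 5 ≠ 0 := fun h3 => h (Int.dvd_of_emod_eq_zero h3)
    unfold chi
    rw [if_neg h2]
    split_ifs <;> norm_num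
  exact_mod_cast h1

theorem PE6_mul (n m : ℤ) : (chi (n * m) : ℂ) = (chi n : ℂ) * (chi m : ℂ) := by
  exact_mod_cast congrArg (Int.cast : ℤ → ℂ) (chi_mul n m)

/-- CHUNK PE6.  Proof by strong induction on `c`.  `c = 1`: `PE2_one`.  Let `p` be a prime divisor of
`c`.  If `p ≠ 5`, `p² ∣ c`: `PE3_sq` (`χ (c/p²) = χ (c)` as `χ (p)² = 1`).  If `25 ∣ c`: `PE4_five`.
Otherwise `c = p c'`, `p ∤ c'`: `PE2_mult`, `Sg h c = Sg (h c') p * Sg (h p) c'`; for `p = 5`:
`χ (h c') 5 √5 · χ (c') c' = χ (h) c √5`; for `p ≠ 5`, `5 ∣ c'`: `χ (p) p · χ (h p) c' √5 = χ (h) c √5`; for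
`p ≠ 5`, `5 ∤ c'`: `χ (p) p χ (c') c' = χ (c) c`. -/
theorem PE6_gauss (c : ℕ) (hc : 0 < c) (h : ℤ) (hh : IsCoprime h (c : ℤ)) :
    Sg h c = if 5 ∣ c then (chi h : ℂ) * c * ((√5 : ℝ) : ℂ) else (chi c : ℂ) * c := by
  revert h
  induction c using Nat.strong_induction_on with
  | _ c ih =>
  intro h hh
  rcases Nat.lt_or_ge 1 c with hc1 | hc1
  swap
  · have : c = 1 := by omega
    subst this
    rw [PE2_one, if_neg (by norm_num)]
    have h1 : chi ((1 : ℕ) : ℤ) = 1 := by decide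
    rw [h1]
    norm_num
  obtain ⟨p, hp, hpc⟩ := Nat.exists_prime_and_dvd (n := c) (by omega)
  have hp1 := hp.one_lt
  -- coprimality
  have hdvd : ∀ q : ℕ, q.Prime → q ∣ c → ¬ (q : ℤ) ∣ h := by
    intro q hq hqc hqh
    have h1 : IsCoprime (q : ℤ) (q : ℤ) :=
      (hh.of_isCoprime_of_dvd_left hqh).of_isCoprime_of_dvd_right (by exact_mod_cast hqc)
    have h2 := Nat.isCoprime_iff_coprime.1 h1
    rw [Nat.coprime_self] at h2
    exact hq.one_lt.ne' h2
  by_cases hp2 : p ^ 2 ∣ c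
  · obtain ⟨e, rfl⟩ := hp2
    have he : 0 < e := Nat.pos_of_ne_zero (by rintro rfl; simp at hc)
    have hlt : e < p ^ 2 * e := by
      have h1 : 1 < p ^ 2 := Nat.one_lt_pow two_ne_zero hp1
      nlinarith
    by_cases h5 : p = 5
    · subst h5
      have h3 : 5 ^ 2 * e = 25 * e := by norm_num
      rw [h3, PE4_five e he h (by exact_mod_cast hdvd 5 hp hpc),
        ih (5 * e) (by omega) (by omega) h (hh.of_isCoprime_of_dvd_right (by
          exact_mod_cast (⟨5, by ring⟩ : 5 * e ∣ 5 ^ 2 * e))), if_pos (dvd_mul_right 5 e),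
        if_pos (show 5 ∣ 25 * e from ⟨5 * e, by ring⟩)]
      push_cast
      ring
    · rw [PE3_sq p hp h5 e he h (hdvd p hp hpc),
        ih e hlt he h (hh.of_isCoprime_of_dvd_right (by exact_mod_cast Dvd.intro_left _ rfl))]
      have h5p : ¬ 5 ∣ p := fun h => h5 ((Nat.prime_dvd_prime_iff_eq Nat.prime_five hp).1 h).symm
      have h4 : 5 ∣ p ^ 2 * e ↔ 5 ∣ e := by
        rw [Nat.prime_five.dvd_mul]
        constructor
        · rintro (h | h)
          · exact absurd (Nat.prime_five.dvd_of_dvd_pow h) h5p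
          · exact h
        · exact Or.inr
      by_cases h6 : 5 ∣ e
      · rw [if_pos h6, if_pos (h4.2 h6)]
        push_cast
        ring
      · rw [if_neg h6, if_neg (fun h => h6 (h4.1 h))]
        have h7 : (((p ^ 2 * e : ℕ) : ℤ)) = (p : ℤ) * (p : ℤ) * (e : ℤ) := by
          push_cast
          ring
        have h8 := PE6_sq (n := (p : ℤ)) (by exact_mod_cast h5p)
        rw [h7, PE6_mul, PE6_mul, h8]
        push_cast
        ring
  · obtain ⟨c', rfl⟩ := hpc
    have hc' : 0 < c' := Nat.pos_of_ne_zero (by rintro rfl; simp at hc)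
    have hpc' : ¬ p ∣ c' := by
      rintro ⟨e, rfl⟩
      exact hp2 ⟨e, by ring⟩
    have hcop : Nat.Coprime p c' := (Nat.Prime.coprime_iff_not_dvd hp).2 hpc'
    have hlt : c' < p * c' := by nlinarith
    have hph := hdvd p hp (dvd_mul_right p c')
    have hpz : Prime (p : ℤ) := Nat.prime_iff_prime_int.1 hp
    have hphc : ¬ (p : ℤ) ∣ h * c' := by
      intro h1
      rcases hpz.dvd_or_dvd h1 with h2 | h2
      · exact hph h2
      · exact hpc' (by exact_mod_cast h2)
    have hcop2 : IsCoprime (h * (p : ℤ)) (c' : ℤ) := by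
      refine IsCoprime.mul_left (hh.of_isCoprime_of_dvd_right (by
        exact_mod_cast dvd_mul_left c' p)) ?_
      exact Nat.isCoprime_iff_coprime.2 hcop
    rw [PE2_mult h hp.pos hc' hcop, ih c' hlt hc' (h * p) hcop2]
    by_cases h5 : p = 5
    · subst h5
      rw [PE2_five _ (by exact_mod_cast hphc), if_neg hpc', if_pos (dvd_mul_right 5 c'), PE6_mul]
      have h8 := PE6_sq (n := (c' : ℤ)) (by exact_mod_cast hpc')
      push_cast
      linear_combination (5 * (chi h : ℂ) * c' * ((√5 : ℝ) : ℂ)) * h8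
    · have h5p : ¬ 5 ∣ p := fun h => h5 ((Nat.prime_dvd_prime_iff_eq Nat.prime_five hp).1 h).symm
      have h8 := PE6_sq (n := (p : ℤ)) (by exact_mod_cast h5p)
      have h4 : 5 ∣ p * c' ↔ 5 ∣ c' := by
        rw [Nat.prime_five.dvd_mul]
        constructor
        · rintro (h | h)
          · exact absurd h h5p
          · exact h
        · exact Or.inr
      rw [PE1_prime p hp h5 _ hphc]
      by_cases h6 : 5 ∣ c'
      · rw [if_pos h6, if_pos (h4.2 h6), PE6_mul]
        push_cast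
        linear_combination ((chi h : ℂ) * p * c' * ((√5 : ℝ) : ℂ)) * h8
      · rw [if_neg h6, if_neg (fun h => h6 (h4.1 h))]
        have h7 : (((p * c' : ℕ) : ℤ)) = (p : ℤ) * (c' : ℤ) := by push_cast; ring
        rw [h7, PE6_mul]
        push_cast
        ring

end H94M
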