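import Pool.Agent.Lib.H94M.PE6

set_option autoImplicit false

/-!
CHUNK PE7 (M).  Gauss sums with a linear term.
-/

namespace H94M

open Finset

theorem PE7_per1 {c : ℕ} (hc : 0 < c) (h y : ℤ) :
    Per c (fun x : ℤ => ee (((h * qf x y : ℤ) : ℂ) / (c : ℂ))) := by
  intro x
  apply PE0_ee_congr hc
  refine ⟨h * (2 * x + c + y), ?_⟩
  unfold qf
  ring

theorem PE7_per2 {c : ℕ} (hc : 0 < c) (h x : ℤ) :
    Per c (fun y : ℤ => ee (((h * qf x y : ℤ) : ℂ) / (c : ℂ))) := by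
  intro y
  apply PE0_ee_congr hc
  refine ⟨h * (x - 2 * y - c), ?_⟩
  unfold qf
  ring

/-- CHUNK PE7.  Completing the square.  Proof.  With `δ = h' (2 n + j, n - 2 j)` (`h h' ≡ 1 mod 5 c`):
`h qf x y + 5 (n x + j y) ≡ h qf (x + δ₁) (y + δ₂) - 5 h' qf n j mod 5 c`, because the polar form of `qf`
at `(x, y)`, `(2 n + j, n - 2 j)` is `5 (n x + j y)` and `qf (2 n + j) (n - 2 j) = 5 qf n j`.  Shift both
variables (`PE0_shift`) and apply `PE6_gauss` with the modulus `5 c`. -/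
theorem PE7_linear (c : ℕ) (hc : 0 < c) (h h' n j : ℤ) (hh : ((5 * c : ℕ) : ℤ) ∣ h * h' - 1) :
    ∑ x ∈ range (5 * c), ∑ y ∈ range (5 * c),
        ee (((h * qf x y + 5 * (n * x + j * y) : ℤ) : ℂ) / ((5 * c : ℕ) : ℂ)) =
      ee (((-(h' * qf n j) : ℤ) : ℂ) / (c : ℂ)) * ((chi h : ℂ) * ((5 * c : ℕ) : ℂ) * ((√5 : ℝ) : ℂ)) := by
  have h5c : 0 < 5 * c := by omega
  have hcC : (c : ℂ) ≠ 0 := by exact_mod_cast hc.ne'
  have hcop : IsCoprime h ((5 * c : ℕ) : ℤ) := by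
    obtain ⟨k, hk⟩ := hh
    exact ⟨h', -k, by linear_combination hk⟩
  have hS := PE6_gauss (5 * c) h5c h hcop
  rw [if_pos (dvd_mul_right 5 c)] at hS
  obtain ⟨k, hk⟩ := hh
  have h1 : ∀ x y : ℤ, ee (((h * qf x y + 5 * (n * x + j * y) : ℤ) : ℂ) / ((5 * c : ℕ) : ℂ)) =
      ee (((-(h' * qf n j) : ℤ) : ℂ) / (c : ℂ)) *
        ee (((h * qf (x + h' * (2 * n + j)) (y + h' * (n - 2 * j)) : ℤ) : ℂ) / ((5 * c : ℕ) : ℂ)) := by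
    intro x y
    rw [← ee_add]
    have h2 : ((-(h' * qf n j) : ℤ) : ℂ) / (c : ℂ) +
        ((h * qf (x + h' * (2 * n + j)) (y + h' * (n - 2 * j)) : ℤ) : ℂ) / ((5 * c : ℕ) : ℂ) =
        ((-(5 * h' * qf n j) + h * qf (x + h' * (2 * n + j)) (y + h' * (n - 2 * j)) : ℤ) : ℂ) /
          ((5 * c : ℕ) : ℂ) := by
      push_cast
      field_simp
    rw [h2]
    apply PE0_ee_congr h5c
    refine ⟨-(k * (5 * (n * x + j * y) + 5 * h' * qf n j)), ?_⟩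
    unfold qf
    linear_combination (-(5 * (n * x + j * y) + 5 * h' * (n ^ 2 + n * j - j ^ 2))) * hk
  have h3 : ∀ x y : ℕ, ee (((h * qf x y + 5 * (n * x + j * y) : ℤ) : ℂ) / ((5 * c : ℕ) : ℂ)) =
      ee (((-(h' * qf n j) : ℤ) : ℂ) / (c : ℂ)) *
        ee (((h * qf (x + h' * (2 * n + j)) (y + h' * (n - 2 * j)) : ℤ) : ℂ) / ((5 * c : ℕ) : ℂ)) :=
    fun x y => h1 x y
  simp only [h3, ← Finset.mul_sum]
  congr 1
  rw [← hS]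
  unfold Sg
  have h4 : ∀ x : ℤ, ∑ y ∈ range (5 * c),
      ee (((h * qf x ((y : ℤ) + h' * (n - 2 * j)) : ℤ) : ℂ) / ((5 * c : ℕ) : ℂ)) =
      ∑ y ∈ range (5 * c), ee (((h * qf x (y : ℤ) : ℤ) : ℂ) / ((5 * c : ℕ) : ℂ)) := fun x =>
    PE0_shift (PE7_per2 h5c h x) (h' * (n - 2 * j))
  simp only [h4]
  exact PE0_shift (f := fun x : ℤ => ∑ y ∈ range (5 * c),
    ee (((h * qf x (y : ℤ) : ℤ) : ℂ) / ((5 * c : ℕ) : ℂ)))
    (fun x => Finset.sum_congr rfl fun y _ => PE7_per1 h5c h y x) (h' * (2 * n + j))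

/-- CHUNK PE7.  Reduction by a common factor `r` prime to `5`.  Proof.  `x = x₀ + 5 c κ₁`,
`y = y₀ + 5 c κ₂`, `x₀, y₀ < 5 c`, `κ₁, κ₂ < r` (`PE0_mul`): the quadratic part
`r h qf x y / (5 r c) = h qf x y / (5 c)` depends only on `(x₀, y₀)`, the linear part is
`(n x₀ + j y₀)/(r c) + 5 (n κ₁ + j κ₂)/r`, so the sum over `κ` is `r² [r ∣ n] [r ∣ j]` (`PE0_orth`). -/
theorem PE7_reduce (r c : ℕ) (hr : 0 < r) (hc : 0 < c) (hr5 : Nat.Coprime r 5) (h h' n j : ℤ)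
    (hh : ((5 * c : ℕ) : ℤ) ∣ h * h' - 1) :
    ∑ x ∈ range (5 * (r * c)), ∑ y ∈ range (5 * (r * c)),
        ee (((r * h * qf x y + 5 * (n * x + j * y) : ℤ) : ℂ) / ((5 * (r * c) : ℕ) : ℂ)) =
      if (r : ℤ) ∣ n ∧ (r : ℤ) ∣ j then
        (r : ℂ) ^ 2 * (ee (((-(h' * qf (n / r) (j / r)) : ℤ) : ℂ) / (c : ℂ)) *
          ((chi h : ℂ) * ((5 * c : ℕ) : ℂ) * ((√5 : ℝ) : ℂ)))
      else 0 := by
  have h5c : 0 < 5 * c := by omega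
  have hcC : (c : ℂ) ≠ 0 := by exact_mod_cast hc.ne'
  have hrC : (r : ℂ) ≠ 0 := by exact_mod_cast hr.ne'
  have hN : 0 < 5 * (r * c) := by positivity
  have hrc : 5 * (r * c) = r * (5 * c) := by ring
  have hco : IsCoprime (r : ℤ) (5 : ℤ) := by exact_mod_cast Nat.isCoprime_iff_coprime.2 hr5
  have hdvd : ∀ m : ℤ, (r : ℤ) ∣ 5 * m ↔ (r : ℤ) ∣ m := fun m =>
    ⟨fun h1 => hco.dvd_of_dvd_mul_left h1, fun h1 => h1.mul_left 5⟩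
  -- the term
  have hterm : ∀ x₀ y₀ κ₁ κ₂ : ℤ,
      ee (((r * h * qf (x₀ + (5 * c : ℕ) * κ₁) (y₀ + (5 * c : ℕ) * κ₂) +
        5 * (n * (x₀ + (5 * c : ℕ) * κ₁) + j * (y₀ + (5 * c : ℕ) * κ₂)) : ℤ) : ℂ) /
          ((5 * (r * c) : ℕ) : ℂ)) =
      ee (((r * h * qf x₀ y₀ + 5 * (n * x₀ + j * y₀) : ℤ) : ℂ) / ((5 * (r * c) : ℕ) : ℂ)) *
        (ee (((5 * n * κ₁ : ℤ) : ℂ) / (r : ℂ)) * ee (((5 * j * κ₂ : ℤ) : ℂ) / (r : ℂ))) := by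
    intro x₀ y₀ κ₁ κ₂
    rw [← ee_add, ← ee_add]
    have h2 : ((r * h * qf x₀ y₀ + 5 * (n * x₀ + j * y₀) : ℤ) : ℂ) / ((5 * (r * c) : ℕ) : ℂ) +
        (((5 * n * κ₁ : ℤ) : ℂ) / (r : ℂ) + ((5 * j * κ₂ : ℤ) : ℂ) / (r : ℂ)) =
        ((r * h * qf x₀ y₀ + 5 * (n * x₀ + j * y₀) + 5 * c * (5 * n * κ₁) + 5 * c * (5 * j * κ₂) : ℤ) : ℂ) /
          ((5 * (r * c) : ℕ) : ℂ) := by
      push_cast
      field_simp
      ring
    rw [h2]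
    apply PE0_ee_congr hN
    refine ⟨h * (2 * x₀ * κ₁ + (5 * c) * κ₁ ^ 2 + x₀ * κ₂ + κ₁ * y₀ + 5 * c * κ₁ * κ₂ -
      2 * y₀ * κ₂ - 5 * c * κ₂ ^ 2), ?_⟩
    unfold qf
    push_cast
    ring
  -- the sum
  have hsum : ∑ x ∈ range (5 * (r * c)), ∑ y ∈ range (5 * (r * c)),
        ee (((r * h * qf x y + 5 * (n * x + j * y) : ℤ) : ℂ) / ((5 * (r * c) : ℕ) : ℂ)) =
      (∑ x ∈ range (5 * c), ∑ y ∈ range (5 * c),
        ee (((r * h * qf x y + 5 * (n * x + j * y) : ℤ) : ℂ) / ((5 * (r * c) : ℕ) : ℂ))) *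
      ((∑ κ ∈ range r, ee (((5 * n * (κ : ℤ) : ℤ) : ℂ) / (r : ℂ))) *
        (∑ κ ∈ range r, ee (((5 * j * (κ : ℤ) : ℤ) : ℂ) / (r : ℂ)))) := by
    have e1 := PE0_mul r (5 * c) (fun x : ℤ => ∑ y ∈ range (5 * (r * c)),
        ee (((r * h * qf x (y : ℤ) + 5 * (n * x + j * (y : ℤ)) : ℤ) : ℂ) / ((5 * (r * c) : ℕ) : ℂ)))
    have e2 : ∀ x : ℤ, ∑ y ∈ range (5 * (r * c)),
        ee (((r * h * qf x (y : ℤ) + 5 * (n * x + j * (y : ℤ)) : ℤ) : ℂ) / ((5 * (r * c) : ℕ) : ℂ)) =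
        ∑ u ∈ range (5 * c), ∑ v ∈ range r,
        ee (((r * h * qf x ((u : ℤ) + (5 * c : ℕ) * v) + 5 * (n * x + j * ((u : ℤ) + (5 * c : ℕ) * v)) : ℤ) : ℂ) /
          ((5 * (r * c) : ℕ) : ℂ)) := by
      intro x
      rw [hrc]
      exact PE0_mul r (5 * c) (fun y : ℤ =>
        ee (((r * h * qf x y + 5 * (n * x + j * y) : ℤ) : ℂ) / ((r * (5 * c) : ℕ) : ℂ)))
    rw [← hrc] at e1
    rw [e1]
    simp only [e2, hterm]
    rw [Finset.sum_mul]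
    refine Finset.sum_congr rfl fun x _ => ?_
    rw [Finset.sum_comm, Finset.sum_mul]
    refine Finset.sum_congr rfl fun y _ => ?_
    rw [Finset.sum_mul_sum, Finset.mul_sum]
    refine Finset.sum_congr rfl fun κ _ => ?_
    rw [Finset.mul_sum]
  rw [hsum]
  have o1 := PE0_orth hr (5 * n)
  have o2 := PE0_orth hr (5 * j)
  rw [o1, o2]
  simp only [hdvd]
  by_cases hn : (r : ℤ) ∣ n
  swap
  · rw [if_neg hn, zero_mul, mul_zero, if_neg (fun h1 => hn h1.1)]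
  by_cases hj : (r : ℤ) ∣ j
  swap
  · rw [if_neg hj, mul_zero, mul_zero, if_neg (fun h1 => hj h1.2)]
  rw [if_pos hn, if_pos hj, if_pos ⟨hn, hj⟩]
  obtain ⟨n', rfl⟩ := hn
  obtain ⟨j', rfl⟩ := hj
  have hrZ : (r : ℤ) ≠ 0 := by exact_mod_cast hr.ne'
  rw [Int.mul_ediv_cancel_left _ hrZ, Int.mul_ediv_cancel_left _ hrZ, ← PE7_linear c hc h h' n' j' hh]
  have h7 : ∀ x y : ℕ, ee (((r * h * qf x y + 5 * (r * n' * x + r * j' * y) : ℤ) : ℂ) / ((5 * (r * c) : ℕ) : ℂ)) =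
      ee (((h * qf x y + 5 * (n' * x + j' * y) : ℤ) : ℂ) / ((5 * c : ℕ) : ℂ)) := by
    intro x y
    congr 1
    push_cast
    field_simp
  simp only [h7]
  ring

end H94M
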