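import Pool.Agent.Lib.H94M.PE0
import Pool.Agent.Lib.H94M.PL2

set_option autoImplicit false

/-!
CHUNK PE8 (M).  Additive characters for the condition and the weight.
-/

namespace H94M

open Finset

/-- CHUNK PE8.  Proof.  `H = u + 5 v`, `u < 5`, `v < a` (`PE0_mul`): the sum is
`∑_u χ (u) e (u s/(5 a)) ∑_v e (v s/a) = a [a ∣ s] ∑_u χ (u) e (u (s/a)/5) = a [a ∣ s] χ (s/a) √5`
(`PE0_orth`, `PL2_gauss`). -/
theorem PE8_char (a : ℕ) (ha : 0 < a) (s : ℤ) :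
    ∑ H ∈ range (5 * a), (chi H : ℂ) * ee (((H * s : ℤ) : ℂ) / ((5 * a : ℕ) : ℂ)) =
      if (a : ℤ) ∣ s then (a : ℂ) * ((√5 : ℝ) : ℂ) * (chi (s / (a : ℤ)) : ℂ) else 0 := by
  have ha' : (a : ℂ) ≠ 0 := by exact_mod_cast ha.ne'
  have haz : (a : ℤ) ≠ 0 := by exact_mod_cast ha.ne'
  have h1 : ∑ H ∈ range (5 * a), (chi H : ℂ) * ee (((H * s : ℤ) : ℂ) / ((5 * a : ℕ) : ℂ)) =
      ∑ u ∈ range 5, ∑ v ∈ range a,
        (chi ((u : ℤ) + (5 : ℕ) * v) : ℂ) *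
          ee (((((u : ℤ) + (5 : ℕ) * v) * s : ℤ) : ℂ) / ((5 * a : ℕ) : ℂ)) := by
    rw [mul_comm 5 a]
    exact PE0_mul a 5 (fun x : ℤ => (chi x : ℂ) * ee (((x * s : ℤ) : ℂ) / ((a * 5 : ℕ) : ℂ)))
  have h2 : ∀ u v : ℕ, (chi ((u : ℤ) + (5 : ℕ) * v) : ℂ) *
      ee (((((u : ℤ) + (5 : ℕ) * v) * s : ℤ) : ℂ) / ((5 * a : ℕ) : ℂ)) =
      (chi u : ℂ) * ee (((u * s : ℤ) : ℂ) / ((5 * a : ℕ) : ℂ)) *
        ee (((s * (v : ℤ) : ℤ) : ℂ) / (a : ℂ)) := by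
    intro u v
    have e1 : chi ((u : ℤ) + (5 : ℕ) * v) = chi u := by
      have := chi_add_five_mul (u : ℤ) (v : ℤ)
      push_cast
      exact this
    rw [e1, mul_assoc, ← ee_add]
    congr 2
    push_cast
    field_simp
  rw [h1, Finset.sum_congr rfl fun u _ => Finset.sum_congr rfl fun v _ => h2 u v]
  simp only [← Finset.mul_sum]
  rw [← Finset.sum_mul, PE0_orth ha s]
  split_ifs with hd
  · obtain ⟨t, ht⟩ := hd
    have h3 : s / (a : ℤ) = t := by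
      rw [ht]
      exact Int.mul_ediv_cancel_left t haz
    rw [h3]
    have h4 : ∀ u ∈ range 5, (chi u : ℂ) * ee (((u * s : ℤ) : ℂ) / ((5 * a : ℕ) : ℂ)) =
        (chi u : ℂ) * ee (((t * (u : ℤ) : ℤ) : ℂ) / 5) := by
      intro u _
      congr 2
      rw [ht]
      push_cast
      field_simp
    rw [Finset.sum_congr rfl h4, PL2_gauss t]
    ring
  · rw [mul_zero]

/-- The summand. -/
noncomputable def PE8_G (a μ : ℕ) (n j : ℤ) (x y : ℤ) : ℂ :=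
  if (a : ℤ) ∣ qf x y - 5 * (μ : ℤ) then
    (chi ((qf x y - 5 * (μ : ℤ)) / (a : ℤ)) : ℂ) * ee (((n * x + j * y : ℤ) : ℂ) / (a : ℂ))
  else 0

theorem PE8_five {x y : ℤ} {μ : ℕ} {a : ℕ} (h5 : 5 ∣ a) (h : (a : ℤ) ∣ qf x y - 5 * (μ : ℤ)) :
    (5 : ℤ) ∣ x + 3 * y := by
  have h1 : (5 : ℤ) ∣ (a : ℤ) := by exact_mod_cast h5
  have h2 := h1.trans h
  have h3 : (5 : ℤ) ∣ (x + 3 * y) ^ 2 := by
    have h4 : (x + 3 * y) ^ 2 = (qf x y - 5 * (μ : ℤ)) + 5 * (x * y + 2 * y ^ 2 + μ) := by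
      unfold qf
      ring
    rw [h4]
    exact dvd_add h2 (dvd_mul_right _ _)
  exact (by norm_num : Prime (5 : ℤ)).dvd_of_dvd_pow h3

/-- The general step: replacing `(x, y)` by `(x', y')` with the same class. -/
theorem PE8_step {a μ : ℕ} (ha : 0 < a) {n j x y x' y' c : ℤ}
    (hq : qf x' y' = qf x y + a * (5 * c))
    (he : (a : ℤ) ∣ (n * x' + j * y') - (n * x + j * y)) :
    PE8_G a μ n j x' y' = PE8_G a μ n j x y := by
  have haz : (a : ℤ) ≠ 0 := by exact_mod_cast ha.ne'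
  unfold PE8_G
  have h1 : ((a : ℤ) ∣ qf x' y' - 5 * (μ : ℤ)) ↔ ((a : ℤ) ∣ qf x y - 5 * (μ : ℤ)) := by
    have h2 : qf x' y' - 5 * (μ : ℤ) = (qf x y - 5 * (μ : ℤ)) + a * (5 * c) := by rw [hq]; ring
    rw [h2]
    exact dvd_add_left (dvd_mul_right _ _)
  by_cases hd : (a : ℤ) ∣ qf x y - 5 * (μ : ℤ)
  · rw [if_pos (h1.2 hd), if_pos hd, PE0_ee_congr ha he]
    congr 2
    obtain ⟨t, ht⟩ := hd
    have h2 : qf x' y' - 5 * (μ : ℤ) = (a : ℤ) * (t + 5 * c) := by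
      rw [hq]
      linear_combination ht
    rw [h2, ht, Int.mul_ediv_cancel_left _ haz, Int.mul_ediv_cancel_left _ haz, chi_add_five_mul]
  · rw [if_neg (fun h => hd (h1.1 h)), if_neg hd]

theorem PE8_zero {a μ : ℕ} {n j x y x' y' c : ℤ}
    (hq : qf x' y' = qf x y + a * c) (hd : ¬ (a : ℤ) ∣ qf x y - 5 * (μ : ℤ)) :
    PE8_G a μ n j x' y' = PE8_G a μ n j x y := by
  unfold PE8_G
  rw [if_neg hd, if_neg]
  intro h
  apply hd
  have h2 : qf x y - 5 * (μ : ℤ) = (qf x' y' - 5 * (μ : ℤ)) - a * c := by rw [hq]; ring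
  rw [h2]
  exact dvd_sub h (dvd_mul_right _ _)

theorem PE8_perx (a μ : ℕ) (ha : 0 < a) (h5 : 5 ∣ a) (n j y : ℤ) :
    Per a (fun x => PE8_G a μ n j x y) := by
  intro x
  show PE8_G a μ n j (x + a) y = PE8_G a μ n j x y
  by_cases hd : (a : ℤ) ∣ qf x y - 5 * (μ : ℤ)
  · obtain ⟨t, ht⟩ := PE8_five h5 hd
    obtain ⟨b, hb⟩ := h5
    have hbz : (a : ℤ) = 5 * b := by exact_mod_cast hb
    refine PE8_step ha (c := 2 * t - y + b) ?_ ⟨n, by ring⟩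
    have h1 : 5 * (2 * t - y + b) = 2 * x + y + a := by
      rw [hbz]
      linear_combination (-2) * ht
    rw [h1]
    unfold qf
    ring
  · refine PE8_zero (c := 2 * x + y + a) ?_ hd
    unfold qf
    ring

theorem PE8_pery (a μ : ℕ) (ha : 0 < a) (h5 : 5 ∣ a) (n j x : ℤ) :
    Per a (fun y => PE8_G a μ n j x y) := by
  intro y
  show PE8_G a μ n j x (y + a) = PE8_G a μ n j x y
  by_cases hd : (a : ℤ) ∣ qf x y - 5 * (μ : ℤ)
  · obtain ⟨t, ht⟩ := PE8_five h5 hd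
    obtain ⟨b, hb⟩ := h5
    have hbz : (a : ℤ) = 5 * b := by exact_mod_cast hb
    refine PE8_step ha (c := t - y - b) ?_ ⟨j, by ring⟩
    have h1 : 5 * (t - y - b) = x - 2 * y - a := by
      rw [hbz]
      linear_combination (-1) * ht
    rw [h1]
    unfold qf
    ring
  · refine PE8_zero (c := x - 2 * y - a) ?_ hd
    unfold qf
    ring

/-- CHUNK PE8.  For `5 ∣ a` the summand of `Ea` is periodic modulo `a` in `x` and in `y`, so the sum may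
be taken over a square of side `5 a`.  Proof: if `a ∣ s`, `s = qf x y - 5 μ`, then
`5 ∣ qf x y ≡ (x + 3 y)²`, so `2 x + y ≡ x - 2 y ≡ 0 mod 5`; the change of `s` under `x ↦ x + a` is
`a (2 x + y) + a²`, under `y ↦ y + a` it is `a (x - 2 y) - a²`, hence `s/a` changes by multiples of `5`
(`chi_add_five_mul`); `a ∣ s` is invariant; `PE0_lift` twice. -/
theorem PE8_Ea (a μ : ℕ) (ha : 0 < a) (h5 : 5 ∣ a) (n j : ℤ) :
    25 * Ea a μ n j = ∑ x ∈ range (5 * a), ∑ y ∈ range (5 * a),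
      if (a : ℤ) ∣ qf x y - 5 * (μ : ℤ) then
        (chi ((qf x y - 5 * (μ : ℤ)) / (a : ℤ)) : ℂ) *
          ee (((n * x + j * y : ℤ) : ℂ) / (a : ℂ))
      else 0 := by
  have h1 : ∀ x : ℤ, ∑ y ∈ range (5 * a), PE8_G a μ n j x y =
      ((5 : ℕ) : ℂ) * ∑ y ∈ range a, PE8_G a μ n j x y := fun x =>
    PE0_lift (PE8_pery a μ ha h5 n j x) 5
  have h2 : ∀ y : ℤ, ∑ x ∈ range (5 * a), PE8_G a μ n j x y =
      ((5 : ℕ) : ℂ) * ∑ x ∈ range a, PE8_G a μ n j x y := fun y =>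
    PE0_lift (PE8_perx a μ ha h5 n j y) 5
  have h3 : ∑ x ∈ range (5 * a), ∑ y ∈ range (5 * a), PE8_G a μ n j x y = 25 * Ea a μ n j := by
    rw [Finset.sum_congr rfl fun (x : ℕ) _ => h1 (x : ℤ), ← Finset.mul_sum, Finset.sum_comm,
      Finset.sum_congr rfl fun (y : ℕ) _ => h2 (y : ℤ), ← Finset.mul_sum, Finset.sum_comm]
    have h4 : ∑ x ∈ range a, ∑ y ∈ range a, PE8_G a μ n j x y = Ea a μ n j := rfl
    rw [h4]
    push_cast
    ring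
  exact h3.symm

/-- CHUNK PE8.  Combination of the two statements: with `G H = ∑_{x, y < 5 a}
e ((H qf x y + 5 (n x + j y))/(5 a))`. -/
theorem PE8_sum (a μ : ℕ) (ha : 0 < a) (h5 : 5 ∣ a) (n j : ℤ) :
    25 * ((a : ℂ) * ((√5 : ℝ) : ℂ)) * Ea a μ n j =
      ∑ H ∈ range (5 * a), (chi H : ℂ) * ee (((-(H * μ) : ℤ) : ℂ) / (a : ℂ)) *
        ∑ x ∈ range (5 * a), ∑ y ∈ range (5 * a),
          ee (((H * qf x y + 5 * (n * x + j * y) : ℤ) : ℂ) / ((5 * a : ℕ) : ℂ)) := by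
  have ha' : (a : ℂ) ≠ 0 := by exact_mod_cast ha.ne'
  have h1 : ∀ x y : ℕ, ((a : ℂ) * ((√5 : ℝ) : ℂ)) * (if (a : ℤ) ∣ qf x y - 5 * (μ : ℤ) then
        (chi ((qf x y - 5 * (μ : ℤ)) / (a : ℤ)) : ℂ) *
          ee (((n * x + j * y : ℤ) : ℂ) / (a : ℂ))
      else 0) = ∑ H ∈ range (5 * a), (chi H : ℂ) * ee (((-(H * μ) : ℤ) : ℂ) / (a : ℂ)) *
          ee (((H * qf x y + 5 * (n * x + j * y) : ℤ) : ℂ) / ((5 * a : ℕ) : ℂ)) := by
    intro x y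
    have h2 := PE8_char a ha (qf x y - 5 * (μ : ℤ))
    have h3 : ∀ H ∈ range (5 * a), (chi H : ℂ) * ee (((-(H * μ) : ℤ) : ℂ) / (a : ℂ)) *
          ee (((H * qf x y + 5 * (n * x + j * y) : ℤ) : ℂ) / ((5 * a : ℕ) : ℂ)) =
        ((chi H : ℂ) * ee (((H * (qf x y - 5 * (μ : ℤ)) : ℤ) : ℂ) / ((5 * a : ℕ) : ℂ))) *
          ee (((n * x + j * y : ℤ) : ℂ) / (a : ℂ)) := by
      intro H _
      rw [mul_assoc, mul_assoc, ← ee_add, ← ee_add]
      congr 2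
      push_cast
      field_simp
      ring
    rw [Finset.sum_congr rfl h3, ← Finset.sum_mul, h2]
    split_ifs
    · ring
    · ring
  have h4 : 25 * ((a : ℂ) * ((√5 : ℝ) : ℂ)) * Ea a μ n j =
      ((a : ℂ) * ((√5 : ℝ) : ℂ)) * (25 * Ea a μ n j) := by ring
  rw [h4, PE8_Ea a μ ha h5 n j, Finset.mul_sum]
  simp only [Finset.mul_sum]
  rw [Finset.sum_congr rfl fun x _ => (Finset.sum_congr rfl fun y _ => h1 x y).trans
    Finset.sum_comm, Finset.sum_comm]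

end H94M
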