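import Pool.Agent.Lib.H94M.PE7
import Pool.Agent.Lib.H94M.PE8
import Pool.Agent.Lib.H94M.P1

set_option autoImplicit false

/-!
CHUNK PE9 (M).  The exponential sum identity.
-/

namespace H94M

open Finset

/-- `invm x c` is an inverse of `x` modulo `c`. -/
theorem PE9_invm_mul {c : ℕ} (hc : 0 < c) {x : ℤ} (hx : IsCoprime x (c : ℤ)) :
    (c : ℤ) ∣ x * invm x c - 1 := by
  have : NeZero c := ⟨hc.ne'⟩
  rw [← ZMod.intCast_zmod_eq_zero_iff_dvd]
  unfold invm
  push_cast
  rw [ZMod.natCast_zmod_val, ZMod.coe_int_mul_inv_eq_one hx, sub_self]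

theorem PE9_invm_unique {c : ℕ} (hc : 0 < c) {x y : ℤ} (hx : IsCoprime x (c : ℤ))
    (hy : (c : ℤ) ∣ x * y - 1) : (c : ℤ) ∣ y - invm x c := by
  have h1 := PE9_invm_mul hc hx
  have h2 : (c : ℤ) ∣ x * (y - invm x c) := by
    have h3 : x * (y - invm x c) = (x * y - 1) - (x * invm x c - 1) := by ring
    rw [h3]
    exact dvd_sub hy h1
  exact hx.symm.dvd_of_dvd_mul_left h2

theorem PE9_invm_neg {c : ℕ} (hc : 0 < c) {x : ℤ} (hx : IsCoprime x (c : ℤ)) :
    (c : ℤ) ∣ -invm x c - invm (-x) c := by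
  refine PE9_invm_unique hc hx.neg_left ?_
  have h1 := PE9_invm_mul hc hx
  have h2 : -x * -invm x c - 1 = x * invm x c - 1 := by ring
  rw [h2]
  exact h1

theorem PE9_invm_add (c : ℕ) (x : ℤ) : invm (x + c) c = invm x c := by
  unfold invm
  push_cast
  rw [ZMod.natCast_self, add_zero]

/-- CHUNK PE9.  The Kloosterman sum over `5 c` residues: `h` runs over the residues modulo `5 c` prime
to `c`, `5 ∣ c`; both signs.  Proof: the summand depends only on `h mod c` (`invm h c` is an inverse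
modulo `c`: `ZMod.coe_mul_inv_eq_one`, `ZMod.natCast_val`), `PE0_lift`-like regrouping gives the factor
`5`, and `h ↦ c - h` changes the sign (`invm (-h) c ≡ -invm h c mod c`). -/
theorem PE9_kloosterman (c : ℕ) (hc : 0 < c) (m n : ℤ) :
    ∑ h ∈ (range (5 * c)).filter (fun h => Nat.Coprime h c),
        ee (((-(m * (h : ℤ) + n * invm h c) : ℤ) : ℂ) / (c : ℂ)) = 5 * Kl m n c := by
  classical
  let φ : ℤ → ℂ := fun h => if IsCoprime h (c : ℤ) then
    ee (((-(m * h + n * invm h c) : ℤ) : ℂ) / (c : ℂ)) else 0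
  have hc0 : (c : ℂ) ≠ 0 := by exact_mod_cast hc.ne'
  have hper : Per c φ := by
    intro h
    simp only [φ]
    have hiff : IsCoprime (h + (c : ℤ)) (c : ℤ) ↔ IsCoprime h (c : ℤ) := by
      have := IsCoprime.add_mul_right_left_iff (x := h) (y := (c : ℤ)) (z := 1)
      rwa [one_mul] at this
    by_cases hh : IsCoprime h (c : ℤ)
    · rw [if_pos (hiff.2 hh), if_pos hh, PE9_invm_add]
      apply PE0_ee_congr hc
      have h1 : -(m * (h + (c : ℤ)) + n * invm h c) - -(m * h + n * invm h c) =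
        (c : ℤ) * (-m) := by ring
      rw [h1]
      exact dvd_mul_right _ _
    · rw [if_neg (mt hiff.1 hh), if_neg hh]
  have h1 : ∑ h ∈ (range (5 * c)).filter (fun h => Nat.Coprime h c),
        ee (((-(m * (h : ℤ) + n * invm h c) : ℤ) : ℂ) / (c : ℂ)) =
      ∑ h ∈ range (5 * c), φ h := by
    rw [Finset.sum_filter]
    refine Finset.sum_congr rfl fun h _ => ?_
    simp only [φ, Nat.isCoprime_iff_coprime]
  have h2 : ∑ h ∈ range c, φ h = Kl m n c := by
    have h3 := PE0_unit hper (u := -1) (isCoprime_one_left.neg_left)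
    rw [← h3]
    unfold Kl
    rw [Finset.sum_filter]
    refine Finset.sum_congr rfl fun h _ => ?_
    simp only [φ]
    have hiff : IsCoprime (-1 * (h : ℤ)) (c : ℤ) ↔ Nat.Coprime h c := by
      rw [neg_one_mul, IsCoprime.neg_left_iff, Nat.isCoprime_iff_coprime]
    by_cases hh : Nat.Coprime h c
    · rw [if_pos (hiff.2 hh), if_pos hh]
      apply PE0_ee_congr hc
      rw [neg_one_mul]
      have h4 := PE9_invm_neg hc (Nat.isCoprime_iff_coprime.2 hh)
      have h5 : -(m * -(h : ℤ) + n * invm (-(h : ℤ)) c) - (m * (h : ℤ) + n * invm h c) =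
        n * (-invm (h : ℤ) c - invm (-(h : ℤ)) c) := by ring
      rw [h5]
      exact dvd_mul_of_dvd_right h4 n
    · rw [if_neg (mt hiff.1 hh), if_neg hh]
  rw [h1, PE0_lift hper 5, h2]
  norm_num

/-- CHUNK PE9.  The residues `H < 5 a` prime to `5` (`5 ∣ a`) are uniquely `H = r h`, `r ∣ a`, `5 ∤ r`,
`h < 5 (a/r)`, `gcd (h, a/r) = 1` (`r = gcd (H, a)`). -/
theorem PE9_group (a : ℕ) (ha : 0 < a) (h5 : 5 ∣ a) (f : ℕ → ℂ) (hf : ∀ H, 5 ∣ H → f H = 0) :
    ∑ H ∈ range (5 * a), f H =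
      ∑ r ∈ a.divisors.filter (fun r => ¬ 5 ∣ r),
        ∑ h ∈ (range (5 * (a / r))).filter (fun h => Nat.Coprime h (a / r)), f (r * h) := by
  classical
  have hmaps : ∀ H ∈ range (5 * a), Nat.gcd H a ∈ a.divisors := fun H _ =>
    Nat.mem_divisors.2 ⟨Nat.gcd_dvd_right _ _, ha.ne'⟩
  rw [← Finset.sum_fiberwise_of_maps_to hmaps f, Finset.sum_filter]
  refine Finset.sum_congr rfl fun r hr => ?_
  have hra := (Nat.mem_divisors.1 hr).1
  have hr0 : 0 < r := Nat.pos_of_dvd_of_pos hra ha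
  by_cases h5r : 5 ∣ r
  · rw [if_neg (by simpa using h5r)]
    refine Finset.sum_eq_zero fun H hH => hf H ?_
    rw [Finset.mem_filter] at hH
    rw [← hH.2] at h5r
    exact h5r.trans (Nat.gcd_dvd_left _ _)
  · rw [if_pos h5r]
    obtain ⟨c, hc⟩ := hra
    have hac : a / r = c := by
      rw [hc]
      exact Nat.mul_div_cancel_left c hr0
    rw [hac]
    symm
    refine Finset.sum_bij (fun h _ => r * h) ?_ ?_ ?_ ?_
    · intro h hh
      rw [Finset.mem_filter, Finset.mem_range] at hh ⊢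
      constructor
      · rw [hc]
        calc r * h < r * (5 * c) := Nat.mul_lt_mul_of_pos_left hh.1 hr0
          _ = 5 * (r * c) := by ring
      · rw [hc, Nat.gcd_mul_left, hh.2.gcd_eq_one, mul_one]
    · intro h1 _ h2 _ heq
      exact Nat.eq_of_mul_eq_mul_left hr0 heq
    · intro H hH
      rw [Finset.mem_filter, Finset.mem_range] at hH
      have h1 : r ∣ H := by
        rw [← hH.2]
        exact Nat.gcd_dvd_left _ _
      obtain ⟨h, hh⟩ := h1
      refine ⟨h, ?_, hh.symm⟩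
      rw [Finset.mem_filter, Finset.mem_range]
      constructor
      · have h2 := hH.1
        rw [hh, hc] at h2
        have h3 : r * h < r * (5 * c) := by
          calc r * h < 5 * (r * c) := h2
            _ = r * (5 * c) := by ring
        exact Nat.lt_of_mul_lt_mul_left h3
      · have h2 := hH.2
        rw [hh, hc, Nat.gcd_mul_left] at h2
        have h3 : r * Nat.gcd h c = r * 1 := by rw [h2, mul_one]
        exact Nat.eq_of_mul_eq_mul_left hr0 h3
    · intro h _
      rfl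

/-- CHUNK PE9.  **The identity.**  Proof: `PE8_sum`, `PE9_group` with
`f H = χ (H) e (-H μ/a) G (H)`; for `H = r h`, `a = r c` the inner sum is `PE7_reduce`
(`h` is prime to `5 c` since `5 ∣ c`; choose an inverse `h'` modulo `5 c`; modulo `c` it agrees with
`invm h c`); `χ (r h) χ (h) = χ (r)`; `PE9_kloosterman` with `n = qf (n/r) (j/r) = qf n j / r²`; constants:
`r² · 5 c √5 · 5 = 25 a √5 · r`.  The divisors `r` of `a` with `r ∣ n`, `r ∣ j` are the divisors of
`gcd (a, gcd (n, j))`; those with `5 ∣ r` contribute `0` (`chi_eq_zero_iff`). -/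
theorem PE9_identity : StPE := by
  classical
  intro a μ n j ha h5
  have ha0 : (a : ℂ) ≠ 0 := by exact_mod_cast ha.ne'
  have hs0 : ((√5 : ℝ) : ℂ) ≠ 0 := by
    have : (√5 : ℝ) ≠ 0 := by positivity
    exact_mod_cast this
  let f : ℕ → ℂ := fun H => (chi H : ℂ) * ee (((-((H : ℤ) * μ) : ℤ) : ℂ) / (a : ℂ)) *
        ∑ x ∈ range (5 * a), ∑ y ∈ range (5 * a),
          ee ((((H : ℤ) * qf x y + 5 * (n * x + j * y) : ℤ) : ℂ) / ((5 * a : ℕ) : ℂ))
  have hf : ∀ H, 5 ∣ H → f H = 0 := by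
    intro H hH
    have h1 : chi (H : ℤ) = 0 := (chi_eq_zero_iff _).2 (by exact_mod_cast hH)
    simp only [f, h1]
    simp
  have hsum : 25 * ((a : ℂ) * ((√5 : ℝ) : ℂ)) * Ea a μ n j =
      ∑ r ∈ a.divisors.filter (fun r => ¬ 5 ∣ r),
        ∑ h ∈ (range (5 * (a / r))).filter (fun h => Nat.Coprime h (a / r)), f (r * h) := by
    rw [← PE9_group a ha h5 f hf, PE8_sum a μ ha h5 n j]
  have hterm : ∀ r ∈ a.divisors.filter (fun r => ¬ 5 ∣ r),
      ∑ h ∈ (range (5 * (a / r))).filter (fun h => Nat.Coprime h (a / r)), f (r * h) =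
      if (r : ℤ) ∣ n ∧ (r : ℤ) ∣ j then 25 * ((a : ℂ) * ((√5 : ℝ) : ℂ)) *
        ((chi r : ℂ) * (r : ℂ) * Kl μ (qf n j / (r : ℤ) ^ 2) (a / r)) else 0 := by
    intro r hr
    rw [Finset.mem_filter, Nat.mem_divisors] at hr
    obtain ⟨⟨hra, -⟩, h5r⟩ := hr
    have hr0 : 0 < r := Nat.pos_of_dvd_of_pos hra ha
    obtain ⟨c, hc⟩ := hra
    have hac : a / r = c := by
      rw [hc]
      exact Nat.mul_div_cancel_left c hr0
    rw [hac]
    have hc0 : 0 < c := by
      rcases Nat.eq_zero_or_pos c with h | h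
      · rw [h, mul_zero] at hc
        omega
      · exact h
    have hr5 : Nat.Coprime r 5 := by
      rw [Nat.coprime_comm]
      exact (Nat.Prime.coprime_iff_not_dvd (by norm_num)).2 h5r
    have h5c : 5 ∣ c := by
      rw [hc] at h5
      exact (Nat.Coprime.symm hr5).dvd_of_dvd_mul_left h5
    have hrC : (r : ℂ) ≠ 0 := by exact_mod_cast hr0.ne'
    have hcC : (c : ℂ) ≠ 0 := by exact_mod_cast hc0.ne'
    have hone : ∀ h ∈ (range (5 * c)).filter (fun h => Nat.Coprime h c), f (r * h) =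
        if (r : ℤ) ∣ n ∧ (r : ℤ) ∣ j then
          ((chi r : ℂ) * (r : ℂ) ^ 2 * (((5 * c : ℕ) : ℂ) * ((√5 : ℝ) : ℂ))) *
            ee (((-((μ : ℤ) * (h : ℤ) + (qf n j / (r : ℤ) ^ 2) * invm h c) : ℤ) : ℂ) / (c : ℂ))
        else 0 := by
      intro h hh
      rw [Finset.mem_filter] at hh
      have hhc := hh.2
      have hh5 : Nat.Coprime h 5 := Nat.Coprime.coprime_dvd_right h5c hhc
      have hh5c : Nat.Coprime h (5 * c) := Nat.Coprime.mul_right hh5 hhc
      have h5c0 : 0 < 5 * c := by omega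
      have hinv := PE9_invm_mul h5c0 (Nat.isCoprime_iff_coprime.2 hh5c)
      have hred := PE7_reduce r c hr0 hc0 hr5 h (invm h (5 * c)) n j hinv
      have h1 : f (r * h) = (chi ((r : ℤ) * h) : ℂ) *
          ee (((-((h : ℤ) * μ) : ℤ) : ℂ) / (c : ℂ)) *
          ∑ x ∈ range (5 * (r * c)), ∑ y ∈ range (5 * (r * c)),
            ee ((((r : ℤ) * h * qf x y + 5 * (n * x + j * y) : ℤ) : ℂ) /
              ((5 * (r * c) : ℕ) : ℂ)) := by
        simp only [f]
        have h2 : ((-(((r * h : ℕ) : ℤ) * (μ : ℤ)) : ℤ) : ℂ) / (a : ℂ) =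
            ((-((h : ℤ) * μ) : ℤ) : ℂ) / (c : ℂ) := by
          rw [hc]
          push_cast
          field_simp
        rw [h2, ← hc]
        push_cast
        rfl
      rw [h1, hred]
      by_cases hnj : (r : ℤ) ∣ n ∧ (r : ℤ) ∣ j
      · rw [if_pos hnj, if_pos hnj]
        obtain ⟨⟨n', hn'⟩, ⟨j', hj'⟩⟩ := hnj
        have hrz : (r : ℤ) ≠ 0 := by exact_mod_cast hr0.ne'
        have hn2 : n / (r : ℤ) = n' := by
          rw [hn']
          exact Int.mul_ediv_cancel_left n' hrz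
        have hj2 : j / (r : ℤ) = j' := by
          rw [hj']
          exact Int.mul_ediv_cancel_left j' hrz
        have hQ : qf n j / (r : ℤ) ^ 2 = qf n' j' := by
          have h3 : qf n j = (r : ℤ) ^ 2 * qf n' j' := by
            rw [hn', hj']
            unfold qf
            ring
          rw [h3]
          exact Int.mul_ediv_cancel_left _ (pow_ne_zero 2 hrz)
        rw [hn2, hj2, hQ]
        have hchi : (chi (h : ℤ) : ℂ) * (chi (h : ℤ) : ℂ) = 1 := by
          have h4 : chi (h : ℤ) ≠ 0 := by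
            rw [Ne, chi_eq_zero_iff]
            intro h6
            have h7 : 5 ∣ h := by exact_mod_cast h6
            have h8 := Nat.dvd_gcd h7 (dvd_refl 5)
            rw [hh5.gcd_eq_one] at h8
            omega
          have h5 : chi (h : ℤ) = 1 ∨ chi (h : ℤ) = -1 := by
            unfold chi at h4 ⊢
            split_ifs at h4 ⊢
            · exact absurd rfl h4
            · left
              rfl
            · right
              rfl
          rcases h5 with h5 | h5 <;> rw [h5] <;> norm_num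
        have hdiv : (c : ℤ) ∣ invm h (5 * c) - invm h c := by
          refine PE9_invm_unique hc0 (Nat.isCoprime_iff_coprime.2 hhc) ?_
          refine dvd_trans ?_ hinv
          push_cast
          exact dvd_mul_left _ _
        have hee : ee (((-((h : ℤ) * μ) : ℤ) : ℂ) / (c : ℂ)) *
            ee (((-(invm h (5 * c) * qf n' j') : ℤ) : ℂ) / (c : ℂ)) =
            ee (((-((μ : ℤ) * (h : ℤ) + qf n' j' * invm h c) : ℤ) : ℂ) / (c : ℂ)) := by
          rw [← ee_add, ← add_div]
          have h3 : (((-((h : ℤ) * μ) : ℤ) : ℂ) + ((-(invm h (5 * c) * qf n' j') : ℤ) : ℂ)) =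
              ((-((h : ℤ) * μ) + -(invm h (5 * c) * qf n' j') : ℤ) : ℂ) := by
            push_cast
            ring
          rw [h3]
          apply PE0_ee_congr hc0
          have h4 : -((h : ℤ) * μ) + -(invm h (5 * c) * qf n' j') -
              -((μ : ℤ) * (h : ℤ) + qf n' j' * invm h c) =
              -(qf n' j') * (invm h (5 * c) - invm h c) := by ring
          rw [h4]
          exact dvd_mul_of_dvd_right hdiv _
        rw [chi_mul, ← hee]
        push_cast
        linear_combination ((chi (r : ℤ) : ℂ) * (r : ℂ) ^ 2 * (5 * (c : ℂ) * ((√5 : ℝ) : ℂ)) *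
          (ee (-((h : ℂ) * (μ : ℂ)) / (c : ℂ)) *
            ee (-((invm h (5 * c) : ℂ) * (qf n' j' : ℂ)) / (c : ℂ)))) * hchi
      · rw [if_neg hnj, if_neg hnj, mul_zero]
    rw [Finset.sum_congr rfl hone]
    by_cases hnj : (r : ℤ) ∣ n ∧ (r : ℤ) ∣ j
    · simp only [if_pos hnj]
      rw [← Finset.mul_sum, PE9_kloosterman c hc0 μ (qf n j / (r : ℤ) ^ 2)]
      have h3 : (a : ℂ) = (r : ℂ) * (c : ℂ) := by
        rw [hc]
        push_cast
        ring
      rw [h3]
      push_cast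
      ring
    · simp only [if_neg hnj]
      rw [Finset.sum_const_zero]
  rw [Finset.sum_congr rfl hterm, ← Finset.sum_filter, ← Finset.mul_sum] at hsum
  have h25 : (25 : ℂ) * ((a : ℂ) * ((√5 : ℝ) : ℂ)) ≠ 0 :=
    mul_ne_zero (by norm_num) (mul_ne_zero ha0 hs0)
  rw [mul_left_cancel₀ h25 hsum]
  -- compare the sets of divisors
  have hg0 : Nat.gcd a (Int.gcd n j) ≠ 0 := by
    intro h
    exact ha.ne' (Nat.eq_zero_of_gcd_eq_zero_left h)
  have hsub : (a.divisors.filter (fun r : ℕ => ¬ 5 ∣ r)).filter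
      (fun r : ℕ => (r : ℤ) ∣ n ∧ (r : ℤ) ∣ j) ⊆ (Nat.gcd a (Int.gcd n j)).divisors := by
    intro r hr
    rw [Finset.mem_filter, Finset.mem_filter, Nat.mem_divisors] at hr
    rw [Nat.mem_divisors]
    refine ⟨Nat.dvd_gcd hr.1.1.1 ?_, hg0⟩
    have h6 := Int.dvd_coe_gcd hr.2.1 hr.2.2
    exact_mod_cast h6
  refine Finset.sum_subset hsub ?_
  intro r hr hr'
  rw [Nat.mem_divisors] at hr
  have h6 : r ∣ a := hr.1.trans (Nat.gcd_dvd_left _ _)
  have h7 : r ∣ Int.gcd n j := hr.1.trans (Nat.gcd_dvd_right _ _)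
  have h8 : (r : ℤ) ∣ n := (Int.natCast_dvd_natCast.2 h7).trans (Int.gcd_dvd_left ..)
  have h9 : (r : ℤ) ∣ j := (Int.natCast_dvd_natCast.2 h7).trans (Int.gcd_dvd_right ..)
  have h10 : 5 ∣ r := by
    by_contra h11
    apply hr'
    rw [Finset.mem_filter, Finset.mem_filter, Nat.mem_divisors]
    exact ⟨⟨⟨h6, ha.ne'⟩, h11⟩, h8, h9⟩
  have h12 : chi (r : ℤ) = 0 := (chi_eq_zero_iff _).2 (by exact_mod_cast h10)
  rw [h12]
  simp

end H94M
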