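import Pool.Agent.Lib.H94M.PB

set_option autoImplicit false

/-!
CHUNK PF1 (M, pure Mathlib).  A continuous `ℤ²`-periodic function whose Fourier coefficients vanish
is zero.
-/

namespace H94M

open Real MeasureTheory

/-- CHUNK PF1.  One variable: `f` continuous, `1`-periodic, all Fourier coefficients `0`.  Proof: lift
`f` to `AddCircle (1 : ℝ)` (`Function.Periodic.lift`, `ContinuousMap`), the coefficients are
`fourierCoeff` (`fourierCoeff_eq_intervalIntegral`), which are `0`, so they are summable and
`has_pointwise_sum_fourier_series_of_summable` gives `f = 0`. -/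
theorem PF1_one {f : ℝ → ℂ} (hf : Continuous f) (hp : ∀ t, f (t + 1) = f t)
    (h0 : ∀ n : ℤ, ∫ t in (0 : ℝ)..1, f t * ee (-((n : ℂ) * (t : ℂ))) = 0) (t : ℝ) : f t = 0 := by
  have hp' : Function.Periodic f 1 := hp
  have hc : Continuous (hp'.lift) := continuous_coinduced_dom.mpr hf
  let F : C(AddCircle (1 : ℝ), ℂ) := ⟨hp'.lift, hc⟩
  have hF : ∀ x : ℝ, F (x : AddCircle (1 : ℝ)) = f x := fun x => hp'.lift_coe x
  have hcoef : ∀ n : ℤ, fourierCoeff F n = 0 := by
    intro n
    rw [fourierCoeff_eq_intervalIntegral F n 0]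
    have h1 : (∫ x in (0 : ℝ)..0 + 1, (fourier (-n) (x : AddCircle (1 : ℝ))) • F x) =
        ∫ t in (0 : ℝ)..1, f t * ee (-((n : ℂ) * (t : ℂ))) := by
      rw [zero_add]
      refine intervalIntegral.integral_congr fun x _ => ?_
      change (fourier (-n) (x : AddCircle (1 : ℝ))) • F x = f x * ee (-((n : ℂ) * (x : ℂ)))
      rw [hF, fourier_coe_apply, smul_eq_mul, mul_comm]
      congr 1
      unfold ee
      congr 1
      push_cast
      ring
    rw [h1, h0, smul_zero]
  have hsum : Summable (fourierCoeff F) := by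
    have : fourierCoeff F = fun _ => 0 := funext hcoef
    rw [this]
    exact summable_zero
  have h2 := has_pointwise_sum_fourier_series_of_summable hsum (t : AddCircle (1 : ℝ))
  have h3 : (fun i => fourierCoeff F i • (fourier i (t : AddCircle (1 : ℝ)) : ℂ)) = fun _ => 0 := by
    funext i
    rw [hcoef, zero_smul]
  rw [h3] at h2
  have h4 := h2.unique hasSum_zero
  rw [← hF, h4]

/-- CHUNK PF1.  Two variables.  Proof: for fixed `n` put
`g_n (s) = ∫ t in 0..1, g (t, s) * ee (-(n t))`, continuous (`intervalIntegral` with a continuous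
integrand: `intervalIntegral.continuous_parametric_intervalIntegral_of_continuous'`), periodic, with
`∫ s in 0..1, g_n (s) * ee (-(j s)) = cf2 g n j = 0` (`setIntegral_prod`, Fubini on the unit square,
`intervalIntegral.integral_of_le`).  By `PF1_one` `g_n = 0` for all `n`, and for fixed `s` `PF1_one`
applies to `t ↦ g (t, s)`. -/
theorem PF1_two {g : ℝ × ℝ → ℂ} (hg : Continuous g) (hp1 : ∀ t s, g (t + 1, s) = g (t, s))
    (hp2 : ∀ t s, g (t, s + 1) = g (t, s)) (h0 : ∀ n j : ℤ, cf2 g n j = 0) (t : ℝ × ℝ) :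
    g t = 0 := by
  have hee : Continuous ee := continuous_ee
  have key : ∀ (n : ℤ) (s : ℝ),
      ∫ x in (0 : ℝ)..1, g (x, s) * ee (-((n : ℂ) * (x : ℂ))) = 0 := by
    intro n s
    refine PF1_one (f := fun s => ∫ x in (0 : ℝ)..1, g (x, s) * ee (-((n : ℂ) * (x : ℂ))))
      ?_ ?_ ?_ s
    · refine intervalIntegral.continuous_parametric_intervalIntegral_of_continuous'
        (f := fun (s : ℝ) (x : ℝ) => g (x, s) * ee (-((n : ℂ) * (x : ℂ)))) ?_ 0 1
      have : Continuous fun p : ℝ × ℝ => g (p.2, p.1) * ee (-((n : ℂ) * (p.2 : ℂ))) := by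
        fun_prop
      exact this
    · intro s
      simp only [hp2]
    · intro j
      have h1 := h0 n j
      unfold cf2 Q2 at h1
      have hcont : Continuous fun t : ℝ × ℝ =>
          g t * ee (-((n : ℂ) * (t.1 : ℂ) + (j : ℂ) * (t.2 : ℂ))) := by fun_prop
      have hint : IntegrableOn (fun t : ℝ × ℝ =>
          g t * ee (-((n : ℂ) * (t.1 : ℂ) + (j : ℂ) * (t.2 : ℂ))))
          (Set.Ioc (0 : ℝ) 1 ×ˢ Set.Ioc (0 : ℝ) 1) (volume.prod volume) := by
        have h5 : IntegrableOn (fun t : ℝ × ℝ =>
          g t * ee (-((n : ℂ) * (t.1 : ℂ) + (j : ℂ) * (t.2 : ℂ))))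
          (Set.Icc (0 : ℝ) 1 ×ˢ Set.Icc (0 : ℝ) 1) (volume.prod volume) :=
          hcont.continuousOn.integrableOn_compact (isCompact_Icc.prod isCompact_Icc)
        exact h5.mono_set (Set.prod_mono Set.Ioc_subset_Icc_self Set.Ioc_subset_Icc_self)
      rw [Measure.volume_eq_prod, setIntegral_prod _ hint] at h1
      rw [← h1]
      rw [integral_integral_swap]
      · rw [intervalIntegral.integral_of_le zero_le_one]
        refine integral_congr_ae (Filter.Eventually.of_forall fun y => ?_)
        simp only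
        rw [intervalIntegral.integral_of_le zero_le_one, ← integral_mul_const]
        refine integral_congr_ae (Filter.Eventually.of_forall fun x => ?_)
        simp only
        rw [neg_add, ee_add]
        ring
      · rw [Measure.prod_restrict]
        exact hint
  obtain ⟨x, s⟩ := t
  refine PF1_one (f := fun x => g (x, s)) (by fun_prop) (fun x => hp1 x s) (fun n => key n s) x

end H94M
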