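import Pool.Agent.Lib.H94M.PF9
import Pool.Agent.Lib.H94M.P1

set_option autoImplicit false

/-!
CHUNK PF10 (M).  Growth of the coefficients of the lifts.
-/

namespace H94M

open Real UpperHalfPlane

/-- CHUNK PF10.  `|a_f (n)| ≤ C |n|^k` (`CuspFormClass.qExpansion_isBigO`, strict width `1` of
`Γ₀(N)`: `strictWidthInfty_Gamma0`; `k/2 ≤ k`). -/
theorem PF10_ac (N k : ℕ) (hN : 1 ≤ N) (f : CuspForm (G0 N) (k : ℤ)) :
    ∃ C : ℝ, ∀ n : ℤ, ‖ac f n‖ ≤ C * |(n : ℝ)| ^ k := by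
  haveI : NeZero N := ⟨by omega⟩
  have h1 := ModularFormClass.qExpansion_isBigO (Γ := G0 N) (k := (k : ℤ)) (by positivity) f
  have hw : (G0 N).strictWidthInfty = 1 := CongruenceSubgroup.strictWidthInfty_Gamma0 N
  rw [hw] at h1
  obtain ⟨C, hC, hb⟩ := Asymptotics.bound_of_isBigO_nat_atTop h1
  refine ⟨C, fun n => ?_⟩
  unfold ac
  split_ifs with hn
  · obtain ⟨m, rfl⟩ : ∃ m : ℕ, n = m := ⟨n.toNat, by omega⟩
    have hm : (0 : ℝ) < m := by exact_mod_cast hn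
    have h2 := @hb m (by positivity)
    rw [Int.toNat_natCast]
    refine h2.trans (le_of_eq ?_)
    rw [zpow_natCast, Real.norm_eq_abs, abs_pow, Int.cast_natCast]
  · rw [norm_zero]
    positivity

/-- The common estimate. -/
theorem PF10_aux (k : ℕ) (n j : ℤ) (hn : 0 < n) (hq : 0 < qf n j) (S : Finset ℕ)
    (hS : S ⊆ (Int.gcd n j).divisors) (b : ℕ → ℤ → ℂ) (C : ℝ) (hC : 0 ≤ C)
    (hb : ∀ r ∈ S, ∀ m : ℤ, ‖b r m‖ ≤ C * |(m : ℝ)| ^ k) :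
    ‖∑ r ∈ S, (chi r : ℂ) * (r : ℂ) ^ (k - 1) * b r (qf n j / (r : ℤ) ^ 2)‖ ≤
      (C * 2 ^ k) * |(n : ℝ)| ^ (3 * k + 1) := by
  have hn' : (0 : ℝ) < n := by exact_mod_cast hn
  have hn1 : (1 : ℝ) ≤ n := by exact_mod_cast hn
  have hg : Int.gcd n j ≤ n.toNat := by
    have h1 : (Int.gcd n j : ℤ) ∣ n := Int.gcd_dvd_left n j
    have h2 := Int.le_of_dvd hn h1
    omega
  have hnt : ((n.toNat : ℕ) : ℝ) = (n : ℝ) := by
    have : ((n.toNat : ℕ) : ℤ) = n := Int.toNat_of_nonneg hn.le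
    exact_mod_cast this
  have hqn : (qf n j : ℝ) ≤ 2 * (n : ℝ) ^ 2 := by
    have h3 : 4 * qf n j = 5 * n ^ 2 - (n - 2 * j) ^ 2 := by unfold qf; ring
    have h4 : qf n j ≤ 2 * n ^ 2 := by nlinarith [sq_nonneg (n - 2 * j), sq_nonneg n]
    exact_mod_cast h4
  have hterm : ∀ r ∈ S, ‖(chi r : ℂ) * (r : ℂ) ^ (k - 1) * b r (qf n j / (r : ℤ) ^ 2)‖ ≤
      (n : ℝ) ^ k * (C * (2 * (n : ℝ) ^ 2) ^ k) := by
    intro r hr
    have hr' := hS hr
    have hr0 : 0 < r := Nat.pos_of_mem_divisors hr'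
    have hrn : r ≤ n.toNat := (Nat.divisor_le hr').trans hg
    have hrn' : (r : ℝ) ≤ n := by
      rw [← hnt]
      exact_mod_cast hrn
    rw [norm_mul, norm_mul, norm_pow, Complex.norm_natCast]
    have h5 : ‖(chi r : ℂ)‖ ≤ 1 := norm_chi_le _
    have h6 : (r : ℝ) ^ (k - 1) ≤ (n : ℝ) ^ k :=
      (pow_le_pow_left₀ (by positivity) hrn' _).trans (pow_le_pow_right₀ hn1 (by omega))
    have h7 : ‖b r (qf n j / (r : ℤ) ^ 2)‖ ≤ C * (2 * (n : ℝ) ^ 2) ^ k := by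
      refine (hb r hr _).trans ?_
      refine mul_le_mul_of_nonneg_left ?_ hC
      refine pow_le_pow_left₀ (abs_nonneg _) ?_ _
      have h8 : 0 ≤ qf n j / (r : ℤ) ^ 2 := Int.ediv_nonneg hq.le (by positivity)
      have h9 : qf n j / (r : ℤ) ^ 2 ≤ qf n j := Int.ediv_le_self _ hq.le
      have h10 : (0 : ℝ) ≤ ((qf n j / (r : ℤ) ^ 2 : ℤ) : ℝ) := by exact_mod_cast h8
      have h11 : ((qf n j / (r : ℤ) ^ 2 : ℤ) : ℝ) ≤ (qf n j : ℝ) := by exact_mod_cast h9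
      rw [abs_of_nonneg h10]
      linarith
    calc ‖(chi r : ℂ)‖ * (r : ℝ) ^ (k - 1) * ‖b r (qf n j / (r : ℤ) ^ 2)‖
        ≤ 1 * (n : ℝ) ^ k * (C * (2 * (n : ℝ) ^ 2) ^ k) := by gcongr
      _ = _ := by rw [one_mul]
  have hcard : (S.card : ℝ) ≤ n := by
    have h1 : S.card ≤ (Int.gcd n j).divisors.card := Finset.card_le_card hS
    have h2 : (Int.gcd n j).divisors.card ≤ Int.gcd n j := Nat.card_divisors_le_self _
    have h3 : S.card ≤ n.toNat := h1.trans (h2.trans hg)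
    rw [← hnt]
    exact_mod_cast h3
  calc ‖∑ r ∈ S, (chi r : ℂ) * (r : ℂ) ^ (k - 1) * b r (qf n j / (r : ℤ) ^ 2)‖
      ≤ ∑ r ∈ S, ‖(chi r : ℂ) * (r : ℂ) ^ (k - 1) * b r (qf n j / (r : ℤ) ^ 2)‖ :=
        norm_sum_le _ _
    _ ≤ ∑ _r ∈ S, (n : ℝ) ^ k * (C * (2 * (n : ℝ) ^ 2) ^ k) := Finset.sum_le_sum hterm
    _ = (S.card : ℝ) * ((n : ℝ) ^ k * (C * (2 * (n : ℝ) ^ 2) ^ k)) := by
        rw [Finset.sum_const, nsmul_eq_mul]
    _ ≤ (n : ℝ) * ((n : ℝ) ^ k * (C * (2 * (n : ℝ) ^ 2) ^ k)) := by gcongr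
    _ = (C * 2 ^ k) * |(n : ℝ)| ^ (3 * k + 1) := by
        rw [abs_of_pos hn', mul_pow, ← pow_mul]
        ring

/-- CHUNK PF10.  If `‖a n‖ ≤ C |n|^k` then the lift has polynomial growth: `qf n j ≤ 2 n²`
(`4 qf n j = 5 n² - (n - 2 j)²`), at most `n` divisors `r ≤ n`, `|χ| ≤ 1`:
`‖lc k N a n j‖ ≤ n · n^(k-1) · C (2 n²)^k`. -/
theorem PF10_lc (k N : ℕ) {a : ℤ → ℂ} (ha : ∃ C : ℝ, ∀ n : ℤ, ‖a n‖ ≤ C * |(n : ℝ)| ^ k) :
    PG (lc k N a) := by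
  obtain ⟨C, hC⟩ := ha
  have hC0 : 0 ≤ C := by
    have h1 := hC 1
    have h2 : (0 : ℝ) ≤ C * |((1 : ℤ) : ℝ)| ^ k := (norm_nonneg _).trans h1
    simpa using h2
  refine ⟨fun n j h => ?_, C * 2 ^ k, 3 * k + 1, fun n j => ?_⟩
  · by_contra h1
    exact h (by unfold lc; rw [if_neg h1])
  · unfold lc
    split_ifs with h
    · exact PF10_aux k n j h.1 h.2 _ (Finset.filter_subset _ _) (fun _ m => a m) C hC0
        (fun _ _ m => hC m)
    · rw [norm_zero]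
      positivity

/-- CHUNK PF10.  The same for the kernel: the levels `M / gcd (M, r)` divide `M`, so finitely many
cusp forms (`StPP`) occur; take the maximum of the constants. -/
theorem PF10_kc (hPP : StPP) (k M μ : ℕ) (hk : 4 ≤ k) (hM : 1 ≤ M) (hμ : 1 ≤ μ) :
    PG (kc k M μ) := by
  have key : ∀ L : ℕ, ∃ C : ℝ, 1 ≤ L → ∀ n : ℤ, ‖ac (PS k μ (Row L)) n‖ ≤ C * |(n : ℝ)| ^ k := by
    intro L
    by_cases hL : 1 ≤ L
    · obtain ⟨F, hF⟩ := hPP L k μ hL hk hμ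
      obtain ⟨C, hC⟩ := PF10_ac L k hL F
      exact ⟨C, fun _ => by rw [← hF]; exact hC⟩
    · exact ⟨0, fun h => absurd h hL⟩
  choose c hc using key
  have hC0 : 0 ≤ ∑ L ∈ M.divisors, |c L| := Finset.sum_nonneg fun _ _ => abs_nonneg _
  refine ⟨fun n j h => ?_, (∑ L ∈ M.divisors, |c L|) * 2 ^ k, 3 * k + 1, fun n j => ?_⟩
  · by_contra h1
    exact h (by unfold kc; rw [if_neg h1])
  · unfold kc
    split_ifs with h
    · refine PF10_aux k n j h.1 h.2 _ (Finset.Subset.refl _)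
        (fun r m => ac (PS k μ (Row (M / Nat.gcd M r))) m) _ hC0 ?_
      intro r hr m
      have hd : Nat.gcd M r ∣ M := Nat.gcd_dvd_left M r
      have hd1 : M / Nat.gcd M r ∣ M := Nat.div_dvd_of_dvd hd
      have hL : 1 ≤ M / Nat.gcd M r := Nat.pos_of_dvd_of_pos hd1 hM
      have hmem : M / Nat.gcd M r ∈ M.divisors := Nat.mem_divisors.mpr ⟨hd1, by omega⟩
      refine (hc _ hL m).trans ?_
      refine mul_le_mul_of_nonneg_right ?_ (by positivity)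
      exact (le_abs_self _).trans
        (Finset.single_le_sum (f := fun L => |c L|) (fun _ _ => abs_nonneg _) hmem)
    · rw [norm_zero]
      positivity

end H94M
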