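import Pool.Agent.Lib.H94M.PF8
import Pool.Agent.Lib.H94M.PF10
import Pool.Agent.Lib.H94M.PF1

set_option autoImplicit false

/-!
Submodule PF, conclusion.
-/

namespace H94M

open Real MeasureTheory

/-- The substitution `X ↦ X (z₁ + s', z₂ + s)`. -/
def PF11_map (s₁ s₂ : ℤ) (X : Ix) : Ix :=
  (X.1, X.2.1 + X.1 * s₁, X.2.2.1 + X.1 * s₂,
    X.2.2.2 + s₁ * (2 * X.2.1 + X.2.2.1) + s₂ * (X.2.1 - 2 * X.2.2.1) + X.1 * qf s₁ s₂)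

theorem PF11_inv (s₁ s₂ : ℤ) (X : Ix) : PF11_map (-s₁) (-s₂) (PF11_map s₁ s₂ X) = X := by
  obtain ⟨a, x, y, b⟩ := X
  simp only [PF11_map, Prod.mk.injEq, qf]
  refine ⟨trivial, ?_, ?_, ?_⟩ <;> ring

theorem PF11_mem (M μ : ℕ) (s₁ s₂ : ℤ) (X : Ix) (hX : X ∈ XS M μ) : PF11_map s₁ s₂ X ∈ XS M μ := by
  obtain ⟨a, x, y, b⟩ := X
  obtain ⟨h1, h2⟩ := hX
  refine ⟨h1, ?_⟩
  simp only [PF11_map, qf] at h2 ⊢
  linear_combination h2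

theorem PF11_chi (M μ : ℕ) (h5 : 5 ∣ M) (s₁ s₂ : ℤ) (X : Ix) (hX : X ∈ XS M μ) :
    chi (PF11_map s₁ s₂ X).2.2.2 = chi X.2.2.2 := by
  obtain ⟨a, x, y, b⟩ := X
  obtain ⟨h1, h2⟩ := hX
  simp only [qf] at h1 h2
  have h5' : (5 : ℤ) ∣ a := (by exact_mod_cast h5 : (5 : ℤ) ∣ (M : ℤ)).trans h1
  have h3 : (5 : ℤ) ∣ x + 3 * y := by
    have h4 : (5 : ℤ) ∣ (x + 3 * y) ^ 2 := by
      obtain ⟨c, hc⟩ := h5'
      refine ⟨c * b + μ + x * y + 2 * y ^ 2, ?_⟩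
      rw [hc] at h2
      linear_combination h2
    exact Int.Prime.dvd_pow' (by norm_num) h4
  obtain ⟨c, hc⟩ := h3
  obtain ⟨d, hd⟩ := h5'
  have h6 : (PF11_map s₁ s₂ (a, x, y, b)).2.2.2 =
      b + 5 * (s₁ * (2 * c - y) + s₂ * (c - y) + d * qf s₁ s₂) := by
    simp only [PF11_map]
    rw [hd]
    linear_combination (2 * s₁ + s₂) * hc
  rw [h6, chi_add_five_mul]

/-- The permutation of the indices. -/
def PF11_equiv (M μ : ℕ) (s₁ s₂ : ℤ) : XS M μ ≃ XS M μ where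
  toFun X := ⟨PF11_map s₁ s₂ X, PF11_mem M μ s₁ s₂ X X.2⟩
  invFun X := ⟨PF11_map (-s₁) (-s₂) X, PF11_mem M μ (-s₁) (-s₂) X X.2⟩
  left_inv X := Subtype.ext (PF11_inv s₁ s₂ X)
  right_inv X := Subtype.ext (by
    have h := PF11_inv (-s₁) (-s₂) (X : Ix)
    rwa [neg_neg, neg_neg] at h)

theorem PF11_Xf (s₁ s₂ : ℤ) (X : Ix) (z₁ z₂ : ℂ) :
    Xf X (z₁ + ((s₁ : ℂ) + (s₂ : ℂ) * w2)) (z₂ + ((s₁ : ℂ) + (s₂ : ℂ) * w1)) =
      Xf (PF11_map s₁ s₂ X) z₁ z₂ := by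
  obtain ⟨a, x, y, b⟩ := X
  have h1 : (w1 : ℂ) + (w2 : ℂ) = 1 := by exact_mod_cast w_add
  have h2 : (w1 : ℂ) * (w2 : ℂ) = -1 := by exact_mod_cast w_mul
  simp only [Xf, PF11_map, qf]
  push_cast
  linear_combination ((a : ℂ) * s₁ * s₂ + x * s₂ + y * s₁) * h1 +
    ((a : ℂ) * s₂ ^ 2 + 2 * y * s₂) * h2

theorem PF11_pz1 (s₁ s₂ : ℤ) (y : ℝ) (t : ℝ × ℝ) :
    pz1 y (t.1 + s₁, t.2 + s₂) = pz1 y t + ((s₁ : ℂ) + (s₂ : ℂ) * w2) := by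
  unfold pz1
  push_cast
  ring

theorem PF11_pz2 (s₁ s₂ : ℤ) (y : ℝ) (t : ℝ × ℝ) :
    pz2 y (t.1 + s₁, t.2 + s₂) = pz2 y t + ((s₁ : ℂ) + (s₂ : ℂ) * w1) := by
  unfold pz2
  push_cast
  ring

/-- CHUNK PF11 (S).  Periodicity of both sides in the parameters: `Om` is invariant under
`t ↦ t + s`, `s ∈ ℤ²` (that is `z ↦ (z₁ + s', z₂ + s)`, `s = s₁ + s₂ ω`).  Proof: reindex by
`X = (a, x, y, b) ↦ (a, x + a s₁, y + a s₂, b + s₁ (2 x + y) + s₂ (x - 2 y) + a qf s₁ s₂)`, a bijection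
of `XS M μ` (`Xf (new X) z₁ z₂ = Xf X (z₁ + s') (z₂ + s)`), and `χ (b)` does not change: `5 ∣ a`,
`5 ∣ qf x y ≡ (x + 3 y)²`, so `2 x + y ≡ x - 2 y ≡ 0 mod 5`. -/
theorem PF11_periodic (k M μ : ℕ) (h5 : 5 ∣ M) (s₁ s₂ : ℤ) (y₁ y₂ : ℝ) (t : ℝ × ℝ) :
    Om k M μ (pz1 y₁ (t.1 + s₁, t.2 + s₂)) (pz2 y₂ (t.1 + s₁, t.2 + s₂)) =
      Om k M μ (pz1 y₁ t) (pz2 y₂ t) := by
  rw [PF11_pz1, PF11_pz2]
  unfold Om
  refine Eq.trans ?_ ((PF11_equiv M μ s₁ s₂).tsum_eq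
    (fun X : XS M μ => (chi (X : Ix).2.2.2 : ℂ) / Xf X (pz1 y₁ t) (pz2 y₂ t) ^ k))
  refine tsum_congr fun X => ?_
  rw [PF11_Xf]
  have h1 : ((PF11_equiv M μ s₁ s₂ X : XS M μ) : Ix) = PF11_map s₁ s₂ (X : Ix) := rfl
  rw [h1, PF11_chi M μ h5 s₁ s₂ X X.2]

/-- CHUNK PF11 (S).  `HSe` is periodic (`nu_pz`, `ee_add_int`). -/
theorem PF11_periodic' (c : ℤ → ℤ → ℂ) (s₁ s₂ : ℤ) (y₁ y₂ : ℝ) (t : ℝ × ℝ) :
    HSe c (pz1 y₁ (t.1 + s₁, t.2 + s₂)) (pz2 y₂ (t.1 + s₁, t.2 + s₂)) =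
      HSe c (pz1 y₁ t) (pz2 y₂ t) := by
  unfold HSe
  refine tsum_congr fun p => ?_
  rw [nu_pz, nu_pz]
  have h1 : (p.1 : ℂ) * (((t.1 + s₁, t.2 + s₂) : ℝ × ℝ).1 : ℂ) +
      (p.2 : ℂ) * (((t.1 + s₁, t.2 + s₂) : ℝ × ℝ).2 : ℂ) +
      ((nu1 p.1 p.2 * y₁ + nu2 p.1 p.2 * y₂ : ℝ) : ℂ) * Complex.I =
      ((p.1 : ℂ) * t.1 + (p.2 : ℂ) * t.2 +
        ((nu1 p.1 p.2 * y₁ + nu2 p.1 p.2 * y₂ : ℝ) : ℂ) * Complex.I) +
        ((p.1 * s₁ + p.2 * s₂ : ℤ) : ℂ) := by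
    push_cast
    ring
  rw [h1, ee_add_int]

/-- CHUNK PF11 (S).  **The Fourier expansion of the kernel.**  `exists_pz`, and `PF1_two` applied to
the difference of the two sides (`PK3_cont`, `PF9_cont`, `PF8_coeff`, `PF9_coeff`; `cf2` of a
difference: `integral_sub`, integrable on `Q2` as continuous functions on a bounded set). -/
theorem PF11_expansion (hPE : StPE) (hPP : StPP) (hPC : StPC) : StPF := by
  intro k M μ hk hke hM h5 hμ z₁ z₂ h₁ h₂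
  obtain ⟨t, ht1, ht2⟩ := exists_pz z₁ z₂
  have hPG := PF10_kc hPP k M μ hk hM hμ
  have hc1 := PK3_cont k M μ hk hμ h₁ h₂
  have hc2 := (PF9_cont hPG h₁ h₂).const_mul (2 * CC k)
  have hint : ∀ g : ℝ × ℝ → ℂ, Continuous g → ∀ n j : ℤ, IntegrableOn (fun t : ℝ × ℝ =>
      g t * ee (-((n : ℂ) * (t.1 : ℂ) + (j : ℂ) * (t.2 : ℂ)))) Q2 := by
    intro g hg n j
    have hee := continuous_ee
    have hcont : Continuous fun t : ℝ × ℝ =>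
        g t * ee (-((n : ℂ) * (t.1 : ℂ) + (j : ℂ) * (t.2 : ℂ))) := by fun_prop
    have h6 : IntegrableOn (fun t : ℝ × ℝ =>
        g t * ee (-((n : ℂ) * (t.1 : ℂ) + (j : ℂ) * (t.2 : ℂ))))
        (Set.Icc (0 : ℝ) 1 ×ˢ Set.Icc (0 : ℝ) 1) :=
      hcont.continuousOn.integrableOn_compact (isCompact_Icc.prod isCompact_Icc)
    exact h6.mono_set (Set.prod_mono Set.Ioc_subset_Icc_self Set.Ioc_subset_Icc_self)
  have key := PF1_two (g := fun t => Om k M μ (pz1 z₁.im t) (pz2 z₂.im t) -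
    2 * CC k * HSe (kc k M μ) (pz1 z₁.im t) (pz2 z₂.im t)) (hc1.sub hc2)
    (fun x s => by
      have e1 := PF11_periodic k M μ h5 1 0 z₁.im z₂.im (x, s)
      have e2 := PF11_periodic' (kc k M μ) 1 0 z₁.im z₂.im (x, s)
      simp only [Int.cast_one, Int.cast_zero, add_zero] at e1 e2
      rw [e1, e2])
    (fun x s => by
      have e1 := PF11_periodic k M μ h5 0 1 z₁.im z₂.im (x, s)
      have e2 := PF11_periodic' (kc k M μ) 0 1 z₁.im z₂.im (x, s)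
      simp only [Int.cast_one, Int.cast_zero, add_zero] at e1 e2
      rw [e1, e2])
    (fun n j => by
      have e1 := PF8_coeff hPE hPC k M μ hk hke hM h5 hμ h₁ h₂ n j
      have e2 := PF9_coeff hPG h₁ h₂ n j
      unfold cf2 at e1 e2 ⊢
      have e3 : ∀ t : ℝ × ℝ, (Om k M μ (pz1 z₁.im t) (pz2 z₂.im t) -
          2 * CC k * HSe (kc k M μ) (pz1 z₁.im t) (pz2 z₂.im t)) *
          ee (-((n : ℂ) * (t.1 : ℂ) + (j : ℂ) * (t.2 : ℂ))) =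
          Om k M μ (pz1 z₁.im t) (pz2 z₂.im t) *
          ee (-((n : ℂ) * (t.1 : ℂ) + (j : ℂ) * (t.2 : ℂ))) -
          2 * CC k * (HSe (kc k M μ) (pz1 z₁.im t) (pz2 z₂.im t) *
          ee (-((n : ℂ) * (t.1 : ℂ) + (j : ℂ) * (t.2 : ℂ)))) := fun t => by ring
      simp only [e3]
      rw [integral_sub (hint _ hc1 n j) ((hint _ (PF9_cont hPG h₁ h₂) n j).const_mul (2 * CC k)),
        integral_const_mul, e1, e2]
      ring)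
    t
  simp only [ht1, ht2] at key
  exact sub_eq_zero.1 key

end H94M
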