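import Pool.Agent.Lib.H94M.PB

set_option autoImplicit false

/-!
CHUNK PF2 (M, pure Mathlib).  Unfolding over `ℤ²`.
-/

namespace H94M

open Real MeasureTheory

/-- CHUNK PF2.  The integral over the plane is the sum of the integrals over the translates of the
unit square.  Proof: the sets `Q2 + s = Ioc s₁ (s₁ + 1) ×ˢ Ioc s₂ (s₂ + 1)`, `s : ℤ × ℤ`, are
measurable, pairwise disjoint and cover the plane (`Int.ceil`), `hasSum_integral_iUnion`, and
`∫ t in Q2, g (t.1 + s.1, t.2 + s.2) = ∫ t in Q2 + s, g t` (translation invariance: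
`MeasureTheory.measurePreserving_add_right`, `MeasurePreserving.setIntegral_preimage_emb`); compare
`MeasureTheory.Integrable.hasSum_intervalIntegral_comp_add_int` in one variable. -/
theorem PF2_hasSum {g : ℝ × ℝ → ℂ} (hg : Integrable g) :
    HasSum (fun s : ℤ × ℤ => ∫ t in Q2, g (t.1 + (s.1 : ℝ), t.2 + (s.2 : ℝ))) (∫ t, g t) := by
  let E : ℤ × ℤ → Set (ℝ × ℝ) := fun s =>
    Set.Ioc (s.1 : ℝ) ((s.1 : ℝ) + 1) ×ˢ Set.Ioc (s.2 : ℝ) ((s.2 : ℝ) + 1)
  have hE : ∀ s, MeasurableSet (E s) := fun s => measurableSet_Ioc.prod measurableSet_Ioc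
  have hcov : ⋃ s, E s = Set.univ := by
    rw [Set.eq_univ_iff_forall]
    rintro ⟨x, y⟩
    rw [Set.mem_iUnion]
    refine ⟨(⌈x⌉ - 1, ⌈y⌉ - 1), ?_, ?_⟩
    · simp only [Int.cast_sub, Int.cast_one, sub_add_cancel, Set.mem_Ioc]
      exact ⟨by linarith [Int.ceil_lt_add_one x], Int.le_ceil x⟩
    · simp only [Int.cast_sub, Int.cast_one, sub_add_cancel, Set.mem_Ioc]
      exact ⟨by linarith [Int.ceil_lt_add_one y], Int.le_ceil y⟩
  have aux : ∀ (a b : ℤ) (x : ℝ), x ∈ Set.Ioc (a : ℝ) ((a : ℝ) + 1) →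
      x ∈ Set.Ioc (b : ℝ) ((b : ℝ) + 1) → a = b := by
    intro a b x h1 h2
    have h3 : (a : ℝ) < (b : ℝ) + 1 := lt_of_lt_of_le h1.1 h2.2
    have h4 : (b : ℝ) < (a : ℝ) + 1 := lt_of_lt_of_le h2.1 h1.2
    have h5 : a < b + 1 := by exact_mod_cast h3
    have h6 : b < a + 1 := by exact_mod_cast h4
    omega
  have hdis : Pairwise (Function.onFun Disjoint E) := by
    intro s s' hne
    rw [Function.onFun, Set.disjoint_left]
    rintro ⟨x, y⟩ h1 h2
    exact hne (Prod.ext (aux _ _ x h1.1 h2.1) (aux _ _ y h1.2 h2.2))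
  have hmain := hasSum_integral_iUnion (f := g) (μ := volume) hE hdis (hg.integrableOn)
  rw [hcov, setIntegral_univ] at hmain
  refine hmain.congr_fun ?_
  intro s
  have hpre : (fun t : ℝ × ℝ => t + ((s.1 : ℝ), (s.2 : ℝ))) ⁻¹' (E s) = Q2 := by
    ext ⟨x, y⟩
    simp only [E, Q2, Set.mem_preimage, Prod.mk_add_mk, Set.mem_prod, Set.mem_Ioc]
    constructor
    · rintro ⟨⟨h1, h2⟩, h3, h4⟩
      exact ⟨⟨by linarith, by linarith⟩, by linarith, by linarith⟩
    · rintro ⟨⟨h1, h2⟩, h3, h4⟩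
      exact ⟨⟨by linarith, by linarith⟩, by linarith, by linarith⟩
  have hmp := measurePreserving_add_right (volume : Measure (ℝ × ℝ)) ((s.1 : ℝ), (s.2 : ℝ))
  have := hmp.setIntegral_preimage_emb (measurableEmbedding_addRight _) g (E s)
  rw [hpre] at this
  exact this

end H94M
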