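import Pool.Agent.Lib.H94M.PK3

set_option autoImplicit false

/-!
CHUNK PF3 (M).  The Fourier coefficients of the kernel as a sum over the indices.
-/

namespace H94M

open Real MeasureTheory

/-- The integral of `(1 / X^k) e (-(n t₁ + j t₂))` over the unit square, times `χ (b)`. -/
noncomputable def TX (k : ℕ) (y₁ y₂ : ℝ) (n j : ℤ) (X : Ix) : ℂ :=
  (chi X.2.2.2 : ℂ) * ∫ t in Q2, ee (-((n : ℂ) * (t.1 : ℂ) + (j : ℂ) * (t.2 : ℂ))) /
    Xf X (pz1 y₁ t) (pz2 y₂ t) ^ k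

theorem PF3_norm_ee (n j : ℤ) (t : ℝ × ℝ) :
    ‖ee (-((n : ℂ) * (t.1 : ℂ) + (j : ℂ) * (t.2 : ℂ)))‖ = 1 := by
  rw [norm_ee]
  simp

theorem PF3_pz_bound {y₁ y₂ : ℝ} (h₁ : 0 < y₁) (h₂ : 0 < y₂) (t : ℝ × ℝ) (ht : t ∈ Q2) :
    ‖pz1 y₁ t‖ ≤ 3 + y₁ + y₂ ∧ ‖pz2 y₂ t‖ ≤ 3 + y₁ + y₂ := by
  obtain ⟨ht1, ht2⟩ := ht
  have hw1 := w1_bounds
  have hw2 := w2_bounds
  have ha1 : |t.1| ≤ 1 := abs_le.mpr ⟨by linarith [ht1.1], ht1.2⟩
  have ha2 : |t.2| ≤ 1 := abs_le.mpr ⟨by linarith [ht2.1], ht2.2⟩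
  have key : ∀ w y : ℝ, |w| ≤ 2 → 0 < y →
      ‖((t.1 + t.2 * w : ℝ) : ℂ) + (y : ℂ) * Complex.I‖ ≤ 3 + y := by
    intro w y hw hy
    refine (norm_add_le _ _).trans ?_
    rw [norm_mul, Complex.norm_I, mul_one, Complex.norm_real, Complex.norm_real, Real.norm_eq_abs,
      Real.norm_eq_abs, abs_of_pos hy]
    have h1 : |t.1 + t.2 * w| ≤ |t.1| + |t.2 * w| := abs_add_le _ _
    have h2 : |t.2 * w| ≤ 1 * 2 := by
      rw [abs_mul]
      exact mul_le_mul ha2 hw (abs_nonneg _) zero_le_one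
    linarith
  constructor
  · have := key w2 y₁ (abs_le.mpr ⟨by linarith, by linarith⟩) h₁
    unfold pz1
    linarith
  · have := key w1 y₂ (abs_le.mpr ⟨by linarith, by linarith⟩) h₂
    unfold pz2
    linarith

theorem PF3_vol : (volume : Measure (ℝ × ℝ)).real Q2 = 1 := by
  unfold Q2
  rw [Measure.volume_eq_prod, Measure.real, Measure.prod_prod, Real.volume_Ioc]
  simp

theorem PF3_vol_lt : (volume : Measure (ℝ × ℝ)) Q2 < ⊤ := by
  unfold Q2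
  rw [Measure.volume_eq_prod, Measure.prod_prod, Real.volume_Ioc]
  simp

theorem PF3_meas : MeasurableSet Q2 := measurableSet_Ioc.prod measurableSet_Ioc

theorem PF3_cont (k : ℕ) {y₁ y₂ : ℝ} (n j : ℤ) (X : Ix)
    (hX : ∀ t, Xf X (pz1 y₁ t) (pz2 y₂ t) ≠ 0) :
    Continuous fun t : ℝ × ℝ => ee (-((n : ℂ) * (t.1 : ℂ) + (j : ℂ) * (t.2 : ℂ))) /
      Xf X (pz1 y₁ t) (pz2 y₂ t) ^ k := by
  have hee : Continuous ee := continuous_ee
  have h1 := continuous_pz1 y₁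
  have h2 := continuous_pz2 y₂
  refine Continuous.div (by fun_prop) ?_ (fun t => pow_ne_zero _ (hX t))
  unfold Xf
  fun_prop

theorem PF3_int (k : ℕ) {y₁ y₂ : ℝ} (n j : ℤ) (X : Ix)
    (hX : ∀ t, Xf X (pz1 y₁ t) (pz2 y₂ t) ≠ 0) :
    IntegrableOn (fun t : ℝ × ℝ => ee (-((n : ℂ) * (t.1 : ℂ) + (j : ℂ) * (t.2 : ℂ))) /
      Xf X (pz1 y₁ t) (pz2 y₂ t) ^ k) Q2 := by
  have h5 : IntegrableOn (fun t : ℝ × ℝ => ee (-((n : ℂ) * (t.1 : ℂ) + (j : ℂ) * (t.2 : ℂ))) /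
      Xf X (pz1 y₁ t) (pz2 y₂ t) ^ k) (Set.Icc (0 : ℝ) 1 ×ˢ Set.Icc (0 : ℝ) 1) :=
    (PF3_cont k n j X hX).continuousOn.integrableOn_compact (isCompact_Icc.prod isCompact_Icc)
  exact h5.mono_set (Set.prod_mono Set.Ioc_subset_Icc_self Set.Ioc_subset_Icc_self)

/-- CHUNK PF3.  Termwise integration: on `Q2` (closure compact) the terms are bounded by the summable
`u X` of `PK3_bound` (`R` large, `δ = min y₁ y₂`), `‖ee (-(n t₁ + j t₂))‖ = 1` (`norm_ee`), `Q2` has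
measure `1`; `hasSum_integral_of_summable_integral_norm` (the terms are continuous in `t`).  The second
statement: `‖TX X‖ ≤ u X`. -/
theorem PF3_hasSum (k M μ : ℕ) (hk : 4 ≤ k) (hμ : 1 ≤ μ) {y₁ y₂ : ℝ} (h₁ : 0 < y₁)
    (h₂ : 0 < y₂) (n j : ℤ) :
    HasSum (fun X : XS M μ => TX k y₁ y₂ n j X)
      (cf2 (fun t => Om k M μ (pz1 y₁ t) (pz2 y₂ t)) n j) ∧
    Summable (fun X : XS M μ => ‖TX k y₁ y₂ n j X‖) := by
  obtain ⟨u, hus, hu⟩ := PK3_bound k M μ hk hμ (3 + y₁ + y₂) (min y₁ y₂) (lt_min h₁ h₂)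
  have hne : ∀ (X : XS M μ) (t : ℝ × ℝ), Xf (X : Ix) (pz1 y₁ t) (pz2 y₂ t) ≠ 0 := fun X t =>
    PK3_ne M μ hμ X (by rw [pz1_im]; exact h₁) (by rw [pz2_im]; exact h₂)
  let F : XS M μ → ℝ × ℝ → ℂ := fun X t => (chi (X : Ix).2.2.2 : ℂ) *
    (ee (-((n : ℂ) * (t.1 : ℂ) + (j : ℂ) * (t.2 : ℂ))) / Xf (X : Ix) (pz1 y₁ t) (pz2 y₂ t) ^ k)
  have hFi : ∀ X, Integrable (F X) (volume.restrict Q2) := fun X =>
    (PF3_int k n j (X : Ix) (hne X)).const_mul _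
  have hFb : ∀ X, ∀ t ∈ Q2, ‖F X t‖ ≤ u X := by
    intro X t ht
    obtain ⟨hb1, hb2⟩ := PF3_pz_bound h₁ h₂ t ht
    have h3 := (hu X (pz1 y₁ t) (pz2 y₂ t) (by rw [pz1_im]; exact min_le_left _ _)
      (by rw [pz2_im]; exact min_le_right _ _) hb1 hb2).2.2
    have h4 : F X t = ((chi (X : Ix).2.2.2 : ℂ) / Xf (X : Ix) (pz1 y₁ t) (pz2 y₂ t) ^ k) *
        ee (-((n : ℂ) * (t.1 : ℂ) + (j : ℂ) * (t.2 : ℂ))) := by
      simp only [F]
      ring
    rw [h4, norm_mul, PF3_norm_ee, mul_one]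
    exact h3
  have hFn : ∀ X, (∫ t in Q2, ‖F X t‖) ≤ u X := by
    intro X
    have h5 : (∫ t in Q2, ‖F X t‖) ≤ ∫ _t in Q2, u X :=
      setIntegral_mono_on (hFi X).norm (integrableOn_const (hs := PF3_vol_lt.ne)) PF3_meas
        (hFb X)
    rw [setIntegral_const, PF3_vol, one_smul] at h5
    exact h5
  have hFs : Summable fun X => ∫ t in Q2, ‖F X t‖ :=
    Summable.of_nonneg_of_le (fun X => integral_nonneg fun t => norm_nonneg _) hFn hus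
  have hFT : ∀ X : XS M μ, (∫ t in Q2, F X t) = TX k y₁ y₂ n j X := by
    intro X
    unfold TX
    exact integral_const_mul _ _
  constructor
  · have hmain := hasSum_integral_of_summable_integral_norm hFi hFs
    have h6 : (∫ t in Q2, ∑' X, F X t) = cf2 (fun t => Om k M μ (pz1 y₁ t) (pz2 y₂ t)) n j := by
      unfold cf2
      refine integral_congr_ae (Filter.Eventually.of_forall fun t => ?_)
      simp only
      unfold Om
      rw [← tsum_mul_right]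
      refine tsum_congr fun X => ?_
      simp only [F]
      ring
    rw [h6] at hmain
    have h7 : (fun X => ∫ t in Q2, F X t) = fun X : XS M μ => TX k y₁ y₂ n j X := funext hFT
    rw [h7] at hmain
    exact hmain
  · refine Summable.of_nonneg_of_le (fun X => norm_nonneg _) (fun X => ?_) hus
    rw [← hFT]
    exact (norm_integral_le_integral_norm _).trans (hFn X)

/-- CHUNK PF3.  Symmetry under `X ↦ -X` (`k` even, `chi_neg`). -/
theorem PF3_neg (k : ℕ) (hk : Even k) (y₁ y₂ : ℝ) (n j : ℤ) (a x y b : ℤ) :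
    TX k y₁ y₂ n j (-a, -x, -y, -b) = TX k y₁ y₂ n j (a, x, y, b) := by
  unfold TX
  simp only [chi_neg]
  congr 1
  refine integral_congr_ae (Filter.Eventually.of_forall fun t => ?_)
  simp only
  congr 1
  have : Xf (-a, -x, -y, -b) (pz1 y₁ t) (pz2 y₂ t) = -Xf (a, x, y, b) (pz1 y₁ t) (pz2 y₂ t) := by
    unfold Xf
    push_cast
    ring
  rw [this, hk.neg_pow]

end H94M
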