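import Pool.Agent.Lib.H94M.PB

set_option autoImplicit false

/-!
CHUNK PF4 (M, pure rearrangement of sums).  Splitting of a sum over the indices.
-/

namespace H94M

open Real

open Classical in
/-- The extension by zero. -/
noncomputable def PF4_f (M μ : ℕ) (F : Ix → ℂ) (X : Ix) : ℂ := if X ∈ XS M μ then F X else 0

/-- Negation of an index. -/
def PF4_neg (X : Ix) : Ix := (-X.1, -X.2.1, -X.2.2.1, -X.2.2.2)

theorem PF4_neg_neg (X : Ix) : PF4_neg (PF4_neg X) = X := by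
  unfold PF4_neg
  simp

theorem PF4_neg_mem (M μ : ℕ) (X : Ix) : PF4_neg X ∈ XS M μ ↔ X ∈ XS M μ := by
  have h : ∀ Y : Ix, Y ∈ XS M μ → PF4_neg Y ∈ XS M μ := by
    rintro Y ⟨h1, h2⟩
    refine ⟨?_, ?_⟩
    · exact (dvd_neg).mpr h1
    · rw [← h2]
      unfold PF4_neg qf
      ring
  exact ⟨fun hX => by simpa [PF4_neg_neg] using h _ hX, h X⟩

theorem PF4_f_neg (M μ : ℕ) (F : Ix → ℂ)
    (hneg : ∀ a x y b : ℤ, F (-a, -x, -y, -b) = F (a, x, y, b)) (X : Ix) :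
    PF4_f M μ F (PF4_neg X) = PF4_f M μ F X := by
  have h1 : F (PF4_neg X) = F X := by
    obtain ⟨a, x, y, b⟩ := X
    exact hneg a x y b
  unfold PF4_f
  by_cases hX : X ∈ XS M μ
  · rw [if_pos hX, if_pos ((PF4_neg_mem M μ X).mpr hX), h1]
  · rw [if_neg hX, if_neg fun h => hX ((PF4_neg_mem M μ X).mp h)]

open Classical in
/-- The part with `a > 0`. -/
noncomputable def PF4_f1 (M μ : ℕ) (F : Ix → ℂ) (X : Ix) : ℂ :=
  if 0 < X.1 then PF4_f M μ F X else 0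

open Classical in
/-- The part with `a = 0`. -/
noncomputable def PF4_f0 (M μ : ℕ) (F : Ix → ℂ) (X : Ix) : ℂ :=
  if X.1 = 0 ∧ 0 < (X.2.1 : ℝ) + X.2.2.1 * w1 then PF4_f M μ F X else 0

theorem PF4_point (M μ : ℕ) (hμ : 1 ≤ μ) (F : Ix → ℂ)
    (hneg : ∀ a x y b : ℤ, F (-a, -x, -y, -b) = F (a, x, y, b)) (X : Ix) :
    PF4_f M μ F X = (PF4_f1 M μ F X + PF4_f1 M μ F (PF4_neg X)) +
      (PF4_f0 M μ F X + PF4_f0 M μ F (PF4_neg X)) := by
  have hn := PF4_f_neg M μ F hneg X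
  have e1 : (PF4_neg X).1 = -X.1 := rfl
  have e2 : (((PF4_neg X).2.1 : ℤ) : ℝ) + (((PF4_neg X).2.2.1 : ℤ) : ℝ) * w1 =
      -((X.2.1 : ℝ) + X.2.2.1 * w1) := by
    unfold PF4_neg
    push_cast
    ring
  unfold PF4_f1 PF4_f0
  rw [hn, e1, e2]
  rcases lt_trichotomy X.1 0 with h | h | h
  · rw [if_neg (by omega), if_pos (by omega), if_neg (by omega), if_neg (by omega)]
    ring
  · have hz : ∀ (_ : X ∈ XS M μ), (X.2.1 : ℝ) + X.2.2.1 * w1 ≠ 0 := by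
      intro hX h0
      have h1 := hX.2
      rw [h, zero_mul, sub_zero] at h1
      have h2 := qf_eq X.2.1 X.2.2.1
      rw [h0, zero_mul, h1] at h2
      have h3 : (0 : ℝ) < ((5 * (μ : ℤ) : ℤ) : ℝ) := by
        push_cast
        have : (1 : ℝ) ≤ μ := by exact_mod_cast hμ
        linarith
      linarith
    rw [if_neg (by omega), if_neg (by omega)]
    by_cases hX : X ∈ XS M μ
    · rcases lt_trichotomy ((X.2.1 : ℝ) + X.2.2.1 * w1) 0 with h' | h' | h'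
      · rw [if_neg (by rintro ⟨_, h2⟩; linarith), if_pos ⟨by omega, by linarith⟩]
        ring
      · exact absurd h' (hz hX)
      · rw [if_pos ⟨h, h'⟩, if_neg (by rintro ⟨_, h2⟩; linarith)]
        ring
    · have h0 : PF4_f M μ F X = 0 := by
        unfold PF4_f
        rw [if_neg hX]
      rw [h0]
      simp
  · rw [if_pos h, if_neg (by omega), if_neg (by omega), if_neg (by omega)]
    ring

theorem PF4_summable (M μ : ℕ) (F : Ix → ℂ) (hF : Summable fun X : XS M μ => ‖F X‖) :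
    Summable (PF4_f M μ F) := by
  classical
  have h1 : Summable fun X : XS M μ => F X := hF.of_norm
  have h2 : Summable ((XS M μ).indicator F) := summable_subtype_iff_indicator.mp h1
  refine h2.congr fun X => ?_
  unfold PF4_f
  rw [Set.indicator_apply]

theorem PF4_tsum (M μ : ℕ) (F : Ix → ℂ) : ∑' X : XS M μ, F X = ∑' X, PF4_f M μ F X := by
  classical
  rw [tsum_subtype (XS M μ) F]
  refine tsum_congr fun X => ?_
  unfold PF4_f
  rw [Set.indicator_apply]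

theorem PF4_summable1 (M μ : ℕ) (F : Ix → ℂ) (hF : Summable fun X : XS M μ => ‖F X‖) :
    Summable (PF4_f1 M μ F) := by
  classical
  have h := (PF4_summable M μ F hF).indicator {X : Ix | 0 < X.1}
  refine h.congr fun X => ?_
  unfold PF4_f1
  rw [Set.indicator_apply]
  rfl

theorem PF4_summable0 (M μ : ℕ) (F : Ix → ℂ) (hF : Summable fun X : XS M μ => ‖F X‖) :
    Summable (PF4_f0 M μ F) := by
  classical
  have h := (PF4_summable M μ F hF).indicator {X : Ix | X.1 = 0 ∧ 0 < (X.2.1 : ℝ) + X.2.2.1 * w1}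
  refine h.congr fun X => ?_
  unfold PF4_f0
  rw [Set.indicator_apply]
  rfl

/-- Negation as an equivalence. -/
def PF4_e : Ix ≃ Ix where
  toFun := PF4_neg
  invFun := PF4_neg
  left_inv := PF4_neg_neg
  right_inv := PF4_neg_neg

theorem PF4_two (M μ : ℕ) (hμ : 1 ≤ μ) (F : Ix → ℂ)
    (hF : Summable fun X : XS M μ => ‖F X‖)
    (hneg : ∀ a x y b : ℤ, F (-a, -x, -y, -b) = F (a, x, y, b)) :
    ∑' X : XS M μ, F X = 2 * (∑' X, PF4_f1 M μ F X) + 2 * (∑' X, PF4_f0 M μ F X) := by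
  have s1 := PF4_summable1 M μ F hF
  have s0 := PF4_summable0 M μ F hF
  have s1' : Summable fun X => PF4_f1 M μ F (PF4_neg X) := PF4_e.summable_iff.mpr s1
  have s0' : Summable fun X => PF4_f0 M μ F (PF4_neg X) := PF4_e.summable_iff.mpr s0
  have t1 : ∑' X, PF4_f1 M μ F (PF4_neg X) = ∑' X, PF4_f1 M μ F X := PF4_e.tsum_eq _
  have t0 : ∑' X, PF4_f0 M μ F (PF4_neg X) = ∑' X, PF4_f0 M μ F X := PF4_e.tsum_eq _
  rw [PF4_tsum, tsum_congr (PF4_point M μ hμ F hneg), (s1.add s1').tsum_add (s0.add s0'),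
    s1.tsum_add s1', s0.tsum_add s0', t1, t0]
  ring

/-- The term with `a > 0`. -/
noncomputable def PF4_h (M μ : ℕ) (F : Ix → ℂ) (q : ℕ × (ℤ × ℤ)) : ℂ :=
  if 0 < q.1 ∧ M ∣ q.1 ∧ (q.1 : ℤ) ∣ qf q.2.1 q.2.2 - 5 * (μ : ℤ) then
    F ((q.1 : ℤ), q.2.1, q.2.2, (qf q.2.1 q.2.2 - 5 * (μ : ℤ)) / (q.1 : ℤ)) else 0

/-- The parametrisation of the part with `a > 0`. -/
def PF4_i (μ : ℕ) (q : ℕ × (ℤ × ℤ)) : Ix :=
  ((q.1 : ℤ), q.2.1, q.2.2, (qf q.2.1 q.2.2 - 5 * (μ : ℤ)) / (q.1 : ℤ))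

theorem PF4_i_inj (μ : ℕ) : Function.Injective (PF4_i μ) := by
  rintro ⟨a, x, y⟩ ⟨a', x', y'⟩ h
  simp only [PF4_i, Prod.mk.injEq] at h
  obtain ⟨h1, h2, h3, _⟩ := h
  have : a = a' := by exact_mod_cast h1
  subst this
  subst h2
  subst h3
  rfl

theorem PF4_h_eq (M μ : ℕ) (F : Ix → ℂ) (q : ℕ × (ℤ × ℤ)) :
    PF4_f1 M μ F (PF4_i μ q) = PF4_h M μ F q := by
  obtain ⟨a, x, y⟩ := q
  have hmem : PF4_i μ (a, x, y) ∈ XS M μ ↔
      ((M : ℤ) ∣ (a : ℤ) ∧ qf x y - (a : ℤ) * ((qf x y - 5 * (μ : ℤ)) / (a : ℤ)) = 5 * (μ : ℤ)) :=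
    Iff.rfl
  have hfst : (PF4_i μ (a, x, y)).1 = (a : ℤ) := rfl
  unfold PF4_f1 PF4_f
  rw [hfst]
  by_cases hcond : 0 < a ∧ M ∣ a ∧ (a : ℤ) ∣ qf x y - 5 * (μ : ℤ)
  · obtain ⟨ha, hM, hd⟩ := hcond
    have ha' : (0 : ℤ) < a := by exact_mod_cast ha
    have hX : PF4_i μ (a, x, y) ∈ XS M μ := by
      rw [hmem]
      refine ⟨by exact_mod_cast hM, ?_⟩
      rw [Int.mul_ediv_cancel' hd]
      ring
    rw [if_pos ha', if_pos hX]
    unfold PF4_h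
    rw [if_pos ⟨ha, hM, hd⟩]
    rfl
  · have h2 : PF4_h M μ F (a, x, y) = 0 := by
      unfold PF4_h
      rw [if_neg hcond]
    rw [h2]
    split_ifs with ha' hX
    · exfalso
      rw [hmem] at hX
      obtain ⟨h3, h4⟩ := hX
      apply hcond
      refine ⟨by exact_mod_cast ha', by exact_mod_cast h3, ?_⟩
      exact ⟨(qf x y - 5 * (μ : ℤ)) / (a : ℤ), by linarith⟩
    · rfl
    · rfl

theorem PF4_supp (M μ : ℕ) (F : Ix → ℂ) : ∀ X ∉ Set.range (PF4_i μ), PF4_f1 M μ F X = 0 := by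
  rintro ⟨a, x, y, b⟩ hX
  unfold PF4_f1 PF4_f
  simp only
  split_ifs with h1 h2
  · exfalso
    apply hX
    obtain ⟨_, h3⟩ := h2
    simp only at h3
    refine ⟨(a.toNat, x, y), ?_⟩
    unfold PF4_i
    simp only
    have h4 : ((a.toNat : ℕ) : ℤ) = a := Int.toNat_of_nonneg h1.le
    rw [h4]
    have h5 : (qf x y - 5 * (μ : ℤ)) / a = b := by
      have : qf x y - 5 * (μ : ℤ) = a * b := by linarith
      rw [this, Int.mul_ediv_cancel_left _ h1.ne']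
    rw [h5]
  · rfl
  · rfl

/-- The term with `a = 0`. -/
noncomputable def PF4_g (μ : ℕ) (F : Ix → ℂ) (q : (ℤ × ℤ) × ℤ) : ℂ :=
  open Classical in
  if qf q.1.1 q.1.2 = 5 * (μ : ℤ) ∧ 0 < (q.1.1 : ℝ) + q.1.2 * w1 then
    F (0, q.1.1, q.1.2, q.2) else 0

/-- The parametrisation of the part with `a = 0`. -/
def PF4_k (q : (ℤ × ℤ) × ℤ) : Ix := (0, q.1.1, q.1.2, q.2)

theorem PF4_k_inj : Function.Injective PF4_k := by
  rintro ⟨⟨x, y⟩, b⟩ ⟨⟨x', y'⟩, b'⟩ h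
  simp only [PF4_k, Prod.mk.injEq] at h
  obtain ⟨_, h2, h3, h4⟩ := h
  subst h2
  subst h3
  subst h4
  rfl

theorem PF4_g_eq (M μ : ℕ) (F : Ix → ℂ) (q : (ℤ × ℤ) × ℤ) :
    PF4_f0 M μ F (PF4_k q) = PF4_g μ F q := by
  obtain ⟨⟨x, y⟩, b⟩ := q
  have hmem : PF4_k ((x, y), b) ∈ XS M μ ↔
      ((M : ℤ) ∣ (0 : ℤ) ∧ qf x y - (0 : ℤ) * b = 5 * (μ : ℤ)) := Iff.rfl
  have hcond1 : ((PF4_k ((x, y), b)).1 = 0 ∧
      0 < ((PF4_k ((x, y), b)).2.1 : ℝ) + (PF4_k ((x, y), b)).2.2.1 * w1) ↔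
      0 < (x : ℝ) + y * w1 := ⟨fun h => h.2, fun h => ⟨rfl, h⟩⟩
  unfold PF4_f0
  by_cases h1 : 0 < (x : ℝ) + y * w1
  · rw [if_pos (hcond1.mpr h1)]
    by_cases h2 : qf x y = 5 * (μ : ℤ)
    · have hX : PF4_k ((x, y), b) ∈ XS M μ := by
        rw [hmem]
        exact ⟨dvd_zero _, by rw [zero_mul, sub_zero, h2]⟩
      unfold PF4_f PF4_g
      rw [if_pos hX, if_pos ⟨h2, h1⟩]
      rfl
    · have hX : ¬ PF4_k ((x, y), b) ∈ XS M μ := by
        rw [hmem]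
        rintro ⟨_, h3⟩
        rw [zero_mul, sub_zero] at h3
        exact h2 h3
      unfold PF4_f PF4_g
      rw [if_neg hX, if_neg (fun h => h2 h.1)]
  · rw [if_neg (fun h => h1 (hcond1.mp h))]
    unfold PF4_g
    rw [if_neg (fun h => h1 h.2)]

theorem PF4_supp0 (M μ : ℕ) (F : Ix → ℂ) : ∀ X ∉ Set.range PF4_k, PF4_f0 M μ F X = 0 := by
  rintro ⟨a, x, y, b⟩ hX
  unfold PF4_f0
  simp only
  rw [if_neg]
  rintro ⟨h1, _⟩
  apply hX
  refine ⟨((x, y), b), ?_⟩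
  unfold PF4_k
  rw [h1]

/-- CHUNK PF4.  Let `F` be absolutely summable over `XS M μ` and `F (-X) = F X`.  Then the sum is twice
the sum over the `X` with `a > 0` plus twice the sum over the `X` with `a = 0`, `x + y ω > 0`.

Proof.  `XS M μ` is the disjoint union of the sets `S⁺ = {a > 0} ∪ {a = 0, x + y ω > 0}` and `-S⁺`
(if `a = 0` then `(x + y ω)(x + y ω') = qf x y = 5 μ ≠ 0`, so `x + y ω ≠ 0`); `HasSum.add_isCompl` or
`Summable.tsum_add_tsum_compl`, and the sums over `S⁺` and `-S⁺` agree (`Equiv.tsum_eq` with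
`X ↦ -X`).  On `S⁺` with `a > 0`: the map `(a, x, y) ↦ (a, x, y, (qf x y - 5 μ)/a)` is a bijection of
`{(a, x, y) : a > 0, M ∣ a, a ∣ qf x y - 5 μ}` onto the part `a > 0`; write the sum as an iterated
sum over `a : ℕ` and `(x, y)` (`Summable.tsum_sigma'`/`Summable.tsum_prod`; extend by `0` to
`ℕ × (ℤ × ℤ)` with `Function.Injective.tsum_eq` / `tsum_subtype`).  For `a = 0` iterate over
`(x, y)` and `b`. -/
theorem PF4_split (M μ : ℕ) (hM : 1 ≤ M) (hμ : 1 ≤ μ) (F : Ix → ℂ)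
    (hF : Summable fun X : XS M μ => ‖F X‖)
    (hneg : ∀ a x y b : ℤ, F (-a, -x, -y, -b) = F (a, x, y, b)) :
    (Summable fun a : ℕ => ∑' p : ℤ × ℤ, if 0 < a ∧ M ∣ a ∧ (a : ℤ) ∣ qf p.1 p.2 - 5 * (μ : ℤ) then
        F ((a : ℤ), p.1, p.2, (qf p.1 p.2 - 5 * (μ : ℤ)) / (a : ℤ)) else 0) ∧
    (∀ a : ℕ, Summable fun p : ℤ × ℤ =>
      if 0 < a ∧ M ∣ a ∧ (a : ℤ) ∣ qf p.1 p.2 - 5 * (μ : ℤ) then
        F ((a : ℤ), p.1, p.2, (qf p.1 p.2 - 5 * (μ : ℤ)) / (a : ℤ)) else 0) ∧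
    (Summable fun p : ℤ × ℤ => ∑' b : ℤ, if qf p.1 p.2 = 5 * (μ : ℤ) ∧ 0 < (p.1 : ℝ) + p.2 * w1 then
        F (0, p.1, p.2, b) else 0) ∧
    ∑' X : XS M μ, F X =
      2 * (∑' a : ℕ, ∑' p : ℤ × ℤ,
        if 0 < a ∧ M ∣ a ∧ (a : ℤ) ∣ qf p.1 p.2 - 5 * (μ : ℤ) then
          F ((a : ℤ), p.1, p.2, (qf p.1 p.2 - 5 * (μ : ℤ)) / (a : ℤ)) else 0) +
      2 * (∑' p : ℤ × ℤ, ∑' b : ℤ,
        if qf p.1 p.2 = 5 * (μ : ℤ) ∧ 0 < (p.1 : ℝ) + p.2 * w1 then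
          F (0, p.1, p.2, b) else 0) := by
  have s1 := PF4_summable1 M μ F hF
  have s0 := PF4_summable0 M μ F hF
  have sh : Summable (PF4_h M μ F) := by
    have h := s1.comp_injective (PF4_i_inj μ)
    exact h.congr fun q => PF4_h_eq M μ F q
  have sg : Summable (PF4_g μ F) := by
    have h := s0.comp_injective PF4_k_inj
    exact h.congr fun q => PF4_g_eq M μ F q
  have t1 : ∑' X, PF4_f1 M μ F X = ∑' a : ℕ, ∑' p : ℤ × ℤ, PF4_h M μ F (a, p) := by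
    rw [← sh.tsum_prod, ← (PF4_i_inj μ).tsum_eq (f := PF4_f1 M μ F)]
    · exact tsum_congr fun q => PF4_h_eq M μ F q
    · intro X hX
      by_contra h
      exact hX (PF4_supp M μ F X h)
  have t0 : ∑' X, PF4_f0 M μ F X = ∑' p : ℤ × ℤ, ∑' b : ℤ, PF4_g μ F (p, b) := by
    rw [← sg.tsum_prod, ← PF4_k_inj.tsum_eq (f := PF4_f0 M μ F)]
    · exact tsum_congr fun q => PF4_g_eq M μ F q
    · intro X hX
      by_contra h
      exact hX (PF4_supp0 M μ F X h)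
  have hg : ∀ (p : ℤ × ℤ) (b : ℤ), PF4_g μ F (p, b) =
      if qf p.1 p.2 = 5 * (μ : ℤ) ∧ 0 < (p.1 : ℝ) + p.2 * w1 then F (0, p.1, p.2, b) else 0 := by
    intro p b
    unfold PF4_g
    congr
  have hh : ∀ (a : ℕ) (p : ℤ × ℤ), PF4_h M μ F (a, p) =
      if 0 < a ∧ M ∣ a ∧ (a : ℤ) ∣ qf p.1 p.2 - 5 * (μ : ℤ) then
        F ((a : ℤ), p.1, p.2, (qf p.1 p.2 - 5 * (μ : ℤ)) / (a : ℤ)) else 0 := by
    intro a p
    unfold PF4_h
    rfl
  simp only [← hh, ← hg]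
  refine ⟨sh.prod, fun a => sh.prod_factor a, sg.prod, ?_⟩
  rw [PF4_two M μ hμ F hF hneg, t1, t0]

end H94M
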