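import Pool.Agent.Lib.H94M.PB

set_option autoImplicit false

/-!
CHUNK PF5A (M, pure Mathlib).  Integrability of `(z₁ z₂ - s)^(-k)`.
-/

namespace H94M

open Real MeasureTheory

/-- CHUNK PF5A.  For `s ≥ 0` and `z` in the upper half plane, `Im (s / z) ≤ 0`; so
`z₁ z₂ - s = z₂ (z₁ - s/z₂)` with `Im (z₁ - s/z₂) ≥ Im z₁ > 0`. -/
theorem PF5A_ne {s : ℝ} (hs : 0 ≤ s) {z₁ z₂ : ℂ} (h₁ : 0 < z₁.im) (h₂ : 0 < z₂.im) :
    z₁ * z₂ - s ≠ 0 := by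
  intro h
  have hre : z₁.re * z₂.re - z₁.im * z₂.im - s = 0 := by
    have := congrArg Complex.re h
    simpa using this
  have him : z₁.re * z₂.im + z₁.im * z₂.re = 0 := by
    have := congrArg Complex.im h
    simpa using this
  have h3 : z₂.im * (z₁.re * z₂.re) = -(z₁.im * z₂.re ^ 2) := by
    linear_combination z₂.re * him
  have h4 : 0 < z₁.re * z₂.re := by nlinarith [mul_pos h₁ h₂]
  have h5 : 0 < z₂.im * (z₁.re * z₂.re) := mul_pos h₂ h4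
  have h6 : 0 ≤ z₁.im * z₂.re ^ 2 := mul_nonneg h₁.le (sq_nonneg _)
  linarith

theorem PF5A_norm (k : ℕ) (x η : ℝ) :
    ‖(1 : ℂ) / (((x : ℝ) : ℂ) + (η : ℂ) * Complex.I) ^ k‖ = (√(x ^ 2 + η ^ 2) ^ k)⁻¹ := by
  rw [norm_div, norm_one, norm_pow, one_div]
  congr 2
  rw [Complex.norm_def, Complex.normSq_apply]
  congr 1
  simp
  ring

theorem PF5A_ne' {x η : ℝ} (hη : 0 < η) : (((x : ℝ) : ℂ) + (η : ℂ) * Complex.I) ≠ 0 := by
  intro h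
  have := congrArg Complex.im h
  simp at this
  exact hη.ne' this

/-- CHUNK PF5A.  Integrable on the line. -/
theorem PF5A_line (k : ℕ) (hk : 2 ≤ k) {η : ℝ} (hη : 0 < η) :
    Integrable fun x : ℝ => 1 / (((x : ℝ) : ℂ) + (η : ℂ) * Complex.I) ^ k := by
  have hb : Integrable fun x : ℝ => (η ^ (k - 2))⁻¹ * (max 1 (η ^ 2)⁻¹ * (1 + x ^ 2)⁻¹) :=
    (integrable_inv_one_add_sq.const_mul _).const_mul _
  refine hb.mono' ?_ ?_
  · apply Continuous.aestronglyMeasurable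
    refine continuous_const.div (by fun_prop) fun x => ?_
    exact pow_ne_zero _ (PF5A_ne' hη)
  · refine Filter.Eventually.of_forall fun x => ?_
    rw [PF5A_norm]
    have hk' : k = (k - 2) + 2 := by omega
    have h1 : √(x ^ 2 + η ^ 2) ^ k = √(x ^ 2 + η ^ 2) ^ (k - 2) * (x ^ 2 + η ^ 2) := by
      conv_lhs => rw [hk']
      rw [pow_add, Real.sq_sqrt (by positivity)]
    rw [h1, mul_inv]
    have h2 : η ≤ √(x ^ 2 + η ^ 2) := by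
      apply Real.le_sqrt_of_sq_le
      nlinarith [sq_nonneg x]
    apply mul_le_mul
    · apply inv_anti₀ (by positivity)
      exact pow_le_pow_left₀ hη.le h2 _
    · have h3 : 1 + x ^ 2 ≤ max 1 (η ^ 2)⁻¹ * (x ^ 2 + η ^ 2) := by
        have h4 : (1 : ℝ) ≤ max 1 (η ^ 2)⁻¹ := le_max_left _ _
        have h5 : (η ^ 2)⁻¹ ≤ max 1 (η ^ 2)⁻¹ := le_max_right _ _
        have h6 : 1 ≤ max 1 (η ^ 2)⁻¹ * η ^ 2 := by
          calc (1 : ℝ) = (η ^ 2)⁻¹ * η ^ 2 := by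
                rw [inv_mul_cancel₀]; positivity
            _ ≤ _ := by
                apply mul_le_mul_of_nonneg_right h5
                positivity
        have h7 : x ^ 2 ≤ max 1 (η ^ 2)⁻¹ * x ^ 2 := le_mul_of_one_le_left (sq_nonneg x) h4
        linarith
      rw [← div_eq_mul_inv, le_div_iff₀ (by positivity), inv_mul_le_iff₀ (by positivity), mul_comm]
      exact h3
    · positivity
    · positivity

/-- the translated point -/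
theorem PF5A_split (s y₁ y₂ x₁ x₂ : ℝ) (h₂ : 0 < y₂) :
    (((x₁ : ℝ) : ℂ) + (y₁ : ℂ) * Complex.I) * (((x₂ : ℝ) : ℂ) + (y₂ : ℂ) * Complex.I) - (s : ℂ) =
      (((x₂ : ℝ) : ℂ) + (y₂ : ℂ) * Complex.I) *
        ((((x₁ - s * x₂ / (x₂ ^ 2 + y₂ ^ 2) : ℝ)) : ℂ) +
          ((y₁ + s * y₂ / (x₂ ^ 2 + y₂ ^ 2) : ℝ) : ℂ) * Complex.I) := by
  have h3 : x₂ ^ 2 + y₂ ^ 2 ≠ 0 := by positivity
  obtain ⟨u, hu⟩ : ∃ u, u = s * x₂ / (x₂ ^ 2 + y₂ ^ 2) := ⟨_, rfl⟩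
  obtain ⟨v, hv⟩ : ∃ v, v = s * y₂ / (x₂ ^ 2 + y₂ ^ 2) := ⟨_, rfl⟩
  rw [← hu, ← hv]
  have h4 : x₂ * u + y₂ * v = s := by
    rw [hu, hv]
    field_simp
  have h5 : y₂ * u = x₂ * v := by
    rw [hu, hv]
    ring
  apply Complex.ext
  · simp
    linarith
  · simp
    linarith

/-- CHUNK PF5A.  Integrable on the plane.  Proof: `integrable_prod_iff'` (measurable since
continuous, `PF5A_ne`).  For fixed `x₂`, `z₂ = x₂ + i y₂`, `s / z₂ = u - i v` with `v ≥ 0`, the function of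
`x₁` is `z₂^(-k) (x₁ - u + i (y₁ + v))^(-k)`, integrable by `PF5A_line` and translation, and
`∫ |x₁ - u + i (y₁ + v)|^(-k) dx₁ ≤ ∫ |x + i y₁|^(-k) dx =: C` (translate, then monotone in the height);
so the integral over `x₁` of the norm is `≤ C |z₂|^(-k)`, which is integrable. -/
theorem PF5A_integrable (k : ℕ) (hk : 2 ≤ k) {s : ℝ} (hs : 0 ≤ s) {y₁ y₂ : ℝ} (h₁ : 0 < y₁)
    (h₂ : 0 < y₂) : Integrable fun x : ℝ × ℝ =>
      1 / ((((x.1 : ℝ) : ℂ) + (y₁ : ℂ) * Complex.I) * (((x.2 : ℝ) : ℂ) + (y₂ : ℂ) * Complex.I) -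
        (s : ℂ)) ^ k := by
  have hcont : Continuous fun x : ℝ × ℝ =>
      1 / ((((x.1 : ℝ) : ℂ) + (y₁ : ℂ) * Complex.I) * (((x.2 : ℝ) : ℂ) + (y₂ : ℂ) * Complex.I) -
        (s : ℂ)) ^ k := by
    refine continuous_const.div (by fun_prop) fun x => ?_
    exact pow_ne_zero _ (PF5A_ne hs (by simpa using h₁) (by simpa using h₂))
  have hmeas := hcont.aestronglyMeasurable (μ := (volume : Measure (ℝ × ℝ)))
  have hsec : ∀ x₂ : ℝ, (fun x₁ : ℝ => 1 / ((((x₁ : ℝ) : ℂ) + (y₁ : ℂ) * Complex.I) *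
      (((x₂ : ℝ) : ℂ) + (y₂ : ℂ) * Complex.I) - (s : ℂ)) ^ k) = fun x₁ : ℝ =>
      (1 / (((x₂ : ℝ) : ℂ) + (y₂ : ℂ) * Complex.I) ^ k) *
        (1 / ((((x₁ - s * x₂ / (x₂ ^ 2 + y₂ ^ 2) : ℝ)) : ℂ) +
          ((y₁ + s * y₂ / (x₂ ^ 2 + y₂ ^ 2) : ℝ) : ℂ) * Complex.I) ^ k) := by
    intro x₂
    funext x₁
    rw [PF5A_split s y₁ y₂ x₁ x₂ h₂, mul_pow, one_div, mul_inv, one_div, one_div]
  have hη : ∀ x₂ : ℝ, y₁ ≤ y₁ + s * y₂ / (x₂ ^ 2 + y₂ ^ 2) := by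
    intro x₂
    have : 0 ≤ s * y₂ / (x₂ ^ 2 + y₂ ^ 2) := by positivity
    linarith
  rw [Measure.volume_eq_prod, integrable_prod_iff' (by rw [← Measure.volume_eq_prod]; exact hmeas)]
  constructor
  · refine Filter.Eventually.of_forall fun x₂ => ?_
    show Integrable (fun x₁ : ℝ => 1 / ((((x₁ : ℝ) : ℂ) + (y₁ : ℂ) * Complex.I) *
      (((x₂ : ℝ) : ℂ) + (y₂ : ℂ) * Complex.I) - (s : ℂ)) ^ k) volume
    rw [hsec x₂]
    apply Integrable.const_mul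
    exact (PF5A_line k hk (h₁.trans_le (hη x₂))).comp_sub_right (s * x₂ / (x₂ ^ 2 + y₂ ^ 2))
  · have hb : Integrable fun x₂ : ℝ => ‖(1 : ℂ) / (((x₂ : ℝ) : ℂ) + (y₂ : ℂ) * Complex.I) ^ k‖ *
        ∫ x : ℝ, ‖(1 : ℂ) / (((x : ℝ) : ℂ) + (y₁ : ℂ) * Complex.I) ^ k‖ :=
      (PF5A_line k hk h₂).norm.mul_const _
    refine hb.mono' ?_ ?_
    · have h3 : StronglyMeasurable fun z : ℝ × ℝ => ‖(1 : ℂ) / ((((z.2 : ℝ) : ℂ) +
          (y₁ : ℂ) * Complex.I) * (((z.1 : ℝ) : ℂ) + (y₂ : ℂ) * Complex.I) - (s : ℂ)) ^ k‖ :=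
        (hcont.comp continuous_swap).norm.stronglyMeasurable
      exact h3.integral_prod_right.aestronglyMeasurable
    · refine Filter.Eventually.of_forall fun x₂ => ?_
      rw [Real.norm_of_nonneg (integral_nonneg fun _ => norm_nonneg _)]
      have h4 : (∫ x₁ : ℝ, ‖(1 : ℂ) / ((((x₁ : ℝ) : ℂ) + (y₁ : ℂ) * Complex.I) *
          (((x₂ : ℝ) : ℂ) + (y₂ : ℂ) * Complex.I) - (s : ℂ)) ^ k‖) =
          ‖(1 : ℂ) / (((x₂ : ℝ) : ℂ) + (y₂ : ℂ) * Complex.I) ^ k‖ *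
          ∫ x₁ : ℝ, ‖(1 : ℂ) / ((((x₁ - s * x₂ / (x₂ ^ 2 + y₂ ^ 2) : ℝ)) : ℂ) +
          ((y₁ + s * y₂ / (x₂ ^ 2 + y₂ ^ 2) : ℝ) : ℂ) * Complex.I) ^ k‖ := by
        rw [← integral_const_mul]
        apply integral_congr_ae
        refine Filter.Eventually.of_forall fun x₁ => ?_
        have := congrFun (hsec x₂) x₁
        simp only at this ⊢
        rw [this, norm_mul]
      have h5 : (∫ x₁ : ℝ, ‖(1 : ℂ) / ((((x₁ - s * x₂ / (x₂ ^ 2 + y₂ ^ 2) : ℝ)) : ℂ) +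
          ((y₁ + s * y₂ / (x₂ ^ 2 + y₂ ^ 2) : ℝ) : ℂ) * Complex.I) ^ k‖) =
          ∫ x₁ : ℝ, ‖(1 : ℂ) / (((x₁ : ℝ) : ℂ) +
          ((y₁ + s * y₂ / (x₂ ^ 2 + y₂ ^ 2) : ℝ) : ℂ) * Complex.I) ^ k‖ :=
        integral_sub_right_eq_self (fun x₁ : ℝ => ‖(1 : ℂ) / (((x₁ : ℝ) : ℂ) +
          ((y₁ + s * y₂ / (x₂ ^ 2 + y₂ ^ 2) : ℝ) : ℂ) * Complex.I) ^ k‖) _
      show (∫ x₁ : ℝ, ‖(1 : ℂ) / ((((x₁ : ℝ) : ℂ) + (y₁ : ℂ) * Complex.I) *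
          (((x₂ : ℝ) : ℂ) + (y₂ : ℂ) * Complex.I) - (s : ℂ)) ^ k‖) ≤ _
      rw [h4, h5]
      apply mul_le_mul_of_nonneg_left _ (norm_nonneg _)
      apply integral_mono (PF5A_line k hk (h₁.trans_le (hη x₂))).norm (PF5A_line k hk h₁).norm
      intro x
      show ‖(1 : ℂ) / (((x : ℝ) : ℂ) +
          ((y₁ + s * y₂ / (x₂ ^ 2 + y₂ ^ 2) : ℝ) : ℂ) * Complex.I) ^ k‖ ≤
          ‖(1 : ℂ) / (((x : ℝ) : ℂ) + (y₁ : ℂ) * Complex.I) ^ k‖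
      rw [PF5A_norm, PF5A_norm]
      apply inv_anti₀
      · positivity
      · apply pow_le_pow_left₀ (Real.sqrt_nonneg _)
        apply Real.sqrt_le_sqrt
        have := hη x₂
        nlinarith

end H94M
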