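import Pool.Agent.Lib.H94M.PB

set_option autoImplicit false

/-!
CHUNK PF5B (S/M, pure Mathlib).  The linear change of variables `(t₁, t₂) ↦ (t₁ + t₂ ω', t₁ + t₂ ω)`.
-/

namespace H94M

open Real MeasureTheory

/-- The linear map. -/
noncomputable def PF5B_L : ℝ × ℝ →ₗ[ℝ] ℝ × ℝ :=
  Matrix.toLin (Module.Basis.finTwoProd ℝ) (Module.Basis.finTwoProd ℝ) !![1, w2; 1, w1]

theorem PF5B_L_apply (t : ℝ × ℝ) : PF5B_L t = (t.1 + t.2 * w2, t.1 + t.2 * w1) := by
  unfold PF5B_L
  rw [Matrix.toLin_finTwoProd_apply]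
  ext
  · simp only
    ring
  · simp only
    ring

theorem PF5B_det : LinearMap.det PF5B_L = √5 := by
  unfold PF5B_L
  rw [LinearMap.det_toLin, Matrix.det_fin_two_of, ← w_sub]
  ring

theorem PF5B_inj : Function.Injective PF5B_L := by
  intro t s h
  rw [PF5B_L_apply, PF5B_L_apply, Prod.mk.injEq] at h
  obtain ⟨h1, h2⟩ := h
  have h0 : (0 : ℝ) < √5 := by positivity
  have h3 : (t.2 - s.2) * (w1 - w2) = 0 := by linarith
  rw [w_sub] at h3
  have h4 : t.2 = s.2 := by
    rcases mul_eq_zero.mp h3 with h | h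
    · linarith
    · exact absurd h h0.ne'
  refine Prod.ext ?_ h4
  rw [h4] at h1
  linarith

theorem PF5B_cont : Continuous PF5B_L := by
  have : (PF5B_L : ℝ × ℝ → ℝ × ℝ) = fun t => (t.1 + t.2 * w2, t.1 + t.2 * w1) :=
    funext PF5B_L_apply
  rw [this]
  fun_prop

theorem PF5B_emb : MeasurableEmbedding PF5B_L :=
  PF5B_cont.measurableEmbedding PF5B_inj

theorem PF5B_map : Measure.map PF5B_L (volume : Measure (ℝ × ℝ)) =
    ENNReal.ofReal (1 / √5) • volume := by
  have h0 : (0 : ℝ) < √5 := by positivity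
  rw [Measure.map_linearMap_addHaar_eq_smul_addHaar volume (by rw [PF5B_det]; exact h0.ne'),
    PF5B_det, abs_of_pos (by positivity), one_div]

/-- CHUNK PF5B.  The determinant is `w1 - w2 = √5`
(`MeasureTheory.Measure.map_linearMap_addHaar_eq_smul_addHaar`, `integral_map_equiv`; or two shears
and a dilation with Fubini). -/
theorem PF5B_integral (h : ℝ × ℝ → ℂ) :
    ∫ t : ℝ × ℝ, h (t.1 + t.2 * w2, t.1 + t.2 * w1) = ((1 / √5 : ℝ) : ℂ) * ∫ x, h x := by
  have h1 := PF5B_emb.integral_map (μ := volume) h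
  rw [PF5B_map, integral_smul_measure, ENNReal.toReal_ofReal (by positivity)] at h1
  simp only [PF5B_L_apply] at h1
  rw [← h1, Complex.real_smul]

/-- CHUNK PF5B. -/
theorem PF5B_integrable {h : ℝ × ℝ → ℂ} (hh : Integrable h) :
    Integrable fun t : ℝ × ℝ => h (t.1 + t.2 * w2, t.1 + t.2 * w1) := by
  have h1 : Integrable h (Measure.map PF5B_L volume) := by
    rw [PF5B_map]
    exact hh.smul_measure ENNReal.ofReal_ne_top
  have h2 := (PF5B_emb.integrable_map_iff (μ := volume)).mp h1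
  have h3 : (h ∘ PF5B_L) = fun t : ℝ × ℝ => h (t.1 + t.2 * w2, t.1 + t.2 * w1) := by
    funext t
    rw [Function.comp_apply, PF5B_L_apply]
  rw [h3] at h2
  exact h2

end H94M
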