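import Pool.Agent.Lib.H94M.PF2
import Pool.Agent.Lib.H94M.PF3
import Pool.Agent.Lib.H94M.PF5A
import Pool.Agent.Lib.H94M.PF5B

set_option autoImplicit false

/-!
CHUNK PF5 (M).  The part of the Fourier coefficient of the kernel belonging to a fixed `a > 0`.
-/

namespace H94M

open Real MeasureTheory

/-- The integral over the plane of `e (-(n t₁ + j t₂)) / (z₁ z₂ - s)^k`. -/
noncomputable def JJ (k : ℕ) (y₁ y₂ : ℝ) (n j : ℤ) (s : ℝ) : ℂ :=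
  ∫ t : ℝ × ℝ, ee (-((n : ℂ) * (t.1 : ℂ) + (j : ℂ) * (t.2 : ℂ))) /
    (pz1 y₁ t * pz2 y₂ t - (s : ℂ)) ^ k

theorem PF5_dvd {x y : ℤ} (hq : (5 : ℤ) ∣ qf x y) :
    (5 : ℤ) ∣ 2 * x + y ∧ (5 : ℤ) ∣ x - 2 * y := by
  unfold qf at hq
  have h1 : (5 : ℤ) ∣ (x + 3 * y) ^ 2 := by
    obtain ⟨c, hc⟩ := hq
    refine ⟨c + x * y + 2 * y ^ 2, ?_⟩
    linear_combination hc
  have h2 : (5 : ℤ) ∣ x + 3 * y := Int.Prime.dvd_pow' (by norm_num) h1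
  obtain ⟨c, hc⟩ := h2
  exact ⟨⟨2 * c - y, by linarith⟩, ⟨c - y, by linarith⟩⟩

theorem PF5_Xf {a : ℕ} (ha : 0 < a) (μ : ℕ) (x y b : ℤ) (hb : qf x y - 5 * (μ : ℤ) = a * b)
    (y₁ y₂ : ℝ) (t : ℝ × ℝ) :
    Xf ((a : ℤ), x, y, b) (pz1 y₁ t) (pz2 y₂ t) =
      (a : ℂ) * (pz1 y₁ (t.1 + (x : ℝ) / a, t.2 + (y : ℝ) / a) *
        pz2 y₂ (t.1 + (x : ℝ) / a, t.2 + (y : ℝ) / a) - ((5 * (μ : ℝ) / (a : ℝ) ^ 2 : ℝ) : ℂ)) := by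
  have ha0 : (a : ℂ) ≠ 0 := by exact_mod_cast ha.ne'
  have h1 : pz1 y₁ (t.1 + (x : ℝ) / a, t.2 + (y : ℝ) / a) = pz1 y₁ t + ((x : ℂ) + y * w2) / a := by
    unfold pz1
    push_cast
    ring
  have h2 : pz2 y₂ (t.1 + (x : ℝ) / a, t.2 + (y : ℝ) / a) = pz2 y₂ t + ((x : ℂ) + y * w1) / a := by
    unfold pz2
    push_cast
    ring
  have h3 : ((x : ℂ) + y * w1) * ((x : ℂ) + y * w2) = 5 * (μ : ℂ) + a * b := by
    have h4 := qf_eq x y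
    have h5 : qf x y = 5 * (μ : ℤ) + a * b := by linarith
    rw [h5] at h4
    push_cast at h4
    exact_mod_cast h4
  rw [h1, h2]
  unfold Xf
  push_cast
  field_simp
  linear_combination (-1 : ℂ) * h3

theorem PF5_g_int (k : ℕ) (hk : 4 ≤ k) {s : ℝ} (hs : 0 ≤ s) {y₁ y₂ : ℝ}
    (h₁ : 0 < y₁) (h₂ : 0 < y₂) (n j : ℤ) :
    Integrable fun t : ℝ × ℝ => ee (-((n : ℂ) * (t.1 : ℂ) + (j : ℂ) * (t.2 : ℂ))) /
      (pz1 y₁ t * pz2 y₂ t - (s : ℂ)) ^ k := by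
  have h3 : Integrable fun t : ℝ × ℝ => 1 / (pz1 y₁ t * pz2 y₂ t - (s : ℂ)) ^ k :=
    PF5B_integrable (PF5A_integrable k (by omega) hs h₁ h₂)
  have hee := continuous_ee
  have h4 : Continuous fun t : ℝ × ℝ => ee (-((n : ℂ) * (t.1 : ℂ) + (j : ℂ) * (t.2 : ℂ))) := by
    fun_prop
  have h5 := h3.bdd_mul (c := 1) h4.aestronglyMeasurable
    (Filter.Eventually.of_forall fun t => (PF3_norm_ee n j t).le)
  refine h5.congr (Filter.Eventually.of_forall fun t => ?_)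
  simp only
  ring

/-- The function with a shift. -/
noncomputable def PF5_G (k : ℕ) (y₁ y₂ : ℝ) (n j : ℤ) (s : ℝ) (v : ℝ × ℝ) (t : ℝ × ℝ) : ℂ :=
  ee (-((n : ℂ) * (t.1 : ℂ) + (j : ℂ) * (t.2 : ℂ))) /
      (pz1 y₁ (t + v) * pz2 y₂ (t + v) - (s : ℂ)) ^ k

theorem PF5_G_eq (k : ℕ) (y₁ y₂ : ℝ) (n j : ℤ) (s : ℝ) (v : ℝ × ℝ) (t : ℝ × ℝ) :
    PF5_G k y₁ y₂ n j s v t = ee ((n : ℂ) * (v.1 : ℂ) + (j : ℂ) * (v.2 : ℂ)) *
      (ee (-((n : ℂ) * ((t + v).1 : ℂ) + (j : ℂ) * ((t + v).2 : ℂ))) /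
      (pz1 y₁ (t + v) * pz2 y₂ (t + v) - (s : ℂ)) ^ k) := by
  unfold PF5_G
  rw [← mul_div_assoc, ← ee_add]
  congr 2
  rw [Prod.fst_add, Prod.snd_add]
  push_cast
  ring

theorem PF5_G_int (k : ℕ) (hk : 4 ≤ k) {s : ℝ} (hs : 0 ≤ s) {y₁ y₂ : ℝ}
    (h₁ : 0 < y₁) (h₂ : 0 < y₂) (n j : ℤ) (v : ℝ × ℝ) :
    Integrable (PF5_G k y₁ y₂ n j s v) := by
  have h3 := ((PF5_g_int k hk hs h₁ h₂ n j).comp_add_right v).const_mul
    (ee ((n : ℂ) * (v.1 : ℂ) + (j : ℂ) * (v.2 : ℂ)))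
  refine h3.congr (Filter.Eventually.of_forall fun t => ?_)
  exact (PF5_G_eq k y₁ y₂ n j s v t).symm

theorem PF5_G_integral (k : ℕ) {s : ℝ} {y₁ y₂ : ℝ} (n j : ℤ) (v : ℝ × ℝ) :
    ∫ t, PF5_G k y₁ y₂ n j s v t =
      ee ((n : ℂ) * (v.1 : ℂ) + (j : ℂ) * (v.2 : ℂ)) * JJ k y₁ y₂ n j s := by
  simp only [PF5_G_eq]
  rw [integral_const_mul]
  congr 1
  exact integral_add_right_eq_self (fun t : ℝ × ℝ =>
    ee (-((n : ℂ) * (t.1 : ℂ) + (j : ℂ) * (t.2 : ℂ))) /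
      (pz1 y₁ t * pz2 y₂ t - (s : ℂ)) ^ k) v

/-- The terms over one class. -/
theorem PF5_TX {k μ a : ℕ} (ha : 0 < a) {y₁ y₂ : ℝ} (n j : ℤ) (x₀ y₀ s₁ s₂ b : ℤ)
    (hb : qf (x₀ + a * s₁) (y₀ + a * s₂) - 5 * (μ : ℤ) = a * b) :
    TX k y₁ y₂ n j ((a : ℤ), x₀ + a * s₁, y₀ + a * s₂, b) = (chi b : ℂ) * (1 / (a : ℂ) ^ k) *
      ∫ t in Q2, PF5_G k y₁ y₂ n j (5 * (μ : ℝ) / (a : ℝ) ^ 2) ((x₀ : ℝ) / a, (y₀ : ℝ) / a)
        (t.1 + (s₁ : ℝ), t.2 + (s₂ : ℝ)) := by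
  have ha0 : (a : ℝ) ≠ 0 := by exact_mod_cast ha.ne'
  unfold TX
  rw [mul_assoc]
  congr 1
  rw [← integral_const_mul]
  refine integral_congr_ae (Filter.Eventually.of_forall fun t => ?_)
  simp only
  rw [PF5_Xf ha μ _ _ b hb]
  have h1 : t.1 + (((x₀ + a * s₁ : ℤ)) : ℝ) / a = t.1 + (s₁ : ℝ) + (x₀ : ℝ) / a := by
    push_cast
    field_simp
    ring
  have h2 : t.2 + (((y₀ + a * s₂ : ℤ)) : ℝ) / a = t.2 + (s₂ : ℝ) + (y₀ : ℝ) / a := by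
    push_cast
    field_simp
    ring
  rw [h1, h2]
  unfold PF5_G
  have h3 : ee (-((n : ℂ) * ((t.1 + (s₁ : ℝ) : ℝ) : ℂ) + (j : ℂ) * ((t.2 + (s₂ : ℝ) : ℝ) : ℂ))) =
      ee (-((n : ℂ) * (t.1 : ℂ) + (j : ℂ) * (t.2 : ℂ))) := by
    have h4 : -((n : ℂ) * ((t.1 + (s₁ : ℝ) : ℝ) : ℂ) + (j : ℂ) * ((t.2 + (s₂ : ℝ) : ℝ) : ℂ)) =
        -((n : ℂ) * (t.1 : ℂ) + (j : ℂ) * (t.2 : ℂ)) + ((-(n * s₁ + j * s₂) : ℤ) : ℂ) := by
      push_cast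
      ring
    rw [h4, ee_add_int]
  simp only [Prod.mk_add_mk]
  rw [h3, mul_pow]
  rw [div_mul_div_comm, one_mul]

/-- CHUNK PF5.  Proof.  For `b = (qf x y - 5 μ)/a`:
`Xf (a, x, y, b) z₁ z₂ = a ((z₁ + l'/a)(z₂ + l/a) - 5 μ/a²)` (`qf_eq`), and
`pz1 y₁ t + l'/a = pz1 y₁ (t + (x, y)/a)`, `pz2 y₂ t + l/a = pz2 y₂ (t + (x, y)/a)`.
Write `(x, y) = (x₀, y₀) + a (s₁, s₂)`, `0 ≤ x₀, y₀ < a` (an equivalence
`ℤ × ℤ ≃ (Fin a × Fin a) × (ℤ × ℤ)`, or `Int.divModEquiv` twice).  The condition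
`a ∣ qf x y - 5 μ` depends only on `(x₀, y₀)`, and so does `χ (b)`: `b - b₀ =
s₁ (2 x₀ + y₀) + s₂ (x₀ - 2 y₀) + a qf s₁ s₂`, where `5 ∣ a`, and `5 ∣ qf x₀ y₀ ≡ (x₀ + 3 y₀)² mod 5`, so
`2 x₀ + y₀ ≡ x₀ - 2 y₀ ≡ 0 mod 5`.  Hence
`TX (a, x, y, b) = χ (b₀) a^(-k) ∫ t in Q2, G (t + s)`, `G (t) = ee (-(n t₁ + j t₂)) /
(pz1 (t + p₀/a) pz2 (t + p₀/a) - 5 μ/a²)^k` (`ee_add_int`), and by `PF2_hasSum` (`G` is integrable by
`PF5A_integrable`, `PF5B_integrable`, translation invariance and `norm_ee`) the sum over `s` is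
`χ (b₀) a^(-k) ∫ G = χ (b₀) a^(-k) ee ((n x₀ + j y₀)/a) JJ` (`integral_add_right_eq_self`).  The sum
over `(x₀, y₀)` is `Ea a μ n j`. -/
theorem PF5_sum (k μ a : ℕ) (hk : 4 ≤ k) (hμ : 1 ≤ μ) (ha : 0 < a) (h5 : 5 ∣ a) {y₁ y₂ : ℝ}
    (h₁ : 0 < y₁) (h₂ : 0 < y₂) (n j : ℤ) :
    ∑' p : ℤ × ℤ, (if (a : ℤ) ∣ qf p.1 p.2 - 5 * (μ : ℤ) then
      TX k y₁ y₂ n j ((a : ℤ), p.1, p.2, (qf p.1 p.2 - 5 * (μ : ℤ)) / (a : ℤ)) else 0) =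
    1 / (a : ℂ) ^ k * Ea a μ n j * JJ k y₁ y₂ n j (5 * (μ : ℝ) / (a : ℝ) ^ 2) := by
  classical
  have hNZ : NeZero a := ⟨ha.ne'⟩
  have haz : (a : ℤ) ≠ 0 := by exact_mod_cast ha.ne'
  let f : ℤ × ℤ → ℂ := fun p => if (a : ℤ) ∣ qf p.1 p.2 - 5 * (μ : ℤ) then
      TX k y₁ y₂ n j ((a : ℤ), p.1, p.2, (qf p.1 p.2 - 5 * (μ : ℤ)) / (a : ℤ)) else 0
  -- the equivalence
  let E : (Fin a × Fin a) × (ℤ × ℤ) → ℤ × ℤ := fun q =>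
    ((q.1.1 : ℤ) + a * q.2.1, (q.1.2 : ℤ) + a * q.2.2)
  have hE : Function.Bijective E := by
    constructor
    · rintro ⟨⟨x, y⟩, s₁, s₂⟩ ⟨⟨x', y'⟩, s₁', s₂'⟩ h
      have h3 : (x : ℤ) + a * s₁ = (x' : ℤ) + a * s₁' := congrArg Prod.fst h
      have h4 : (y : ℤ) + a * s₂ = (y' : ℤ) + a * s₂' := congrArg Prod.snd h
      have key : ∀ (u u' : Fin a) (s s' : ℤ), (u : ℤ) + a * s = (u' : ℤ) + a * s' →
          u = u' ∧ s = s' := by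
        intro u u' s s' h5
        have h6 : ((u : ℤ) + a * s) % a = (u : ℤ) := by
          rw [Int.add_mul_emod_self_left]
          exact Int.emod_eq_of_lt (by positivity) (by exact_mod_cast u.2)
        have h7 : ((u' : ℤ) + a * s') % a = (u' : ℤ) := by
          rw [Int.add_mul_emod_self_left]
          exact Int.emod_eq_of_lt (by positivity) (by exact_mod_cast u'.2)
        have h8 : (u : ℤ) = u' := by rw [← h6, h5, h7]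
        have h9 : u = u' := Fin.ext (by exact_mod_cast h8)
        refine ⟨h9, ?_⟩
        rw [h8] at h5
        exact mul_left_cancel₀ haz (add_left_cancel h5)
      obtain ⟨rfl, rfl⟩ := key _ _ _ _ h3
      obtain ⟨rfl, rfl⟩ := key _ _ _ _ h4
      rfl
    · rintro ⟨x, y⟩
      have hpos : (0 : ℤ) < a := by exact_mod_cast ha
      have key : ∀ x : ℤ, ∃ (u : Fin a) (s : ℤ), (u : ℤ) + a * s = x := by
        intro x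
        have h3 := Int.emod_nonneg x haz
        have h4 := Int.emod_lt_of_pos x hpos
        refine ⟨⟨(x % a).toNat, by omega⟩, x / a, ?_⟩
        show (((x % a).toNat : ℕ) : ℤ) + a * (x / a) = x
        rw [Int.toNat_of_nonneg h3]
        exact Int.emod_add_mul_ediv x a
      obtain ⟨u, s, hu⟩ := key x
      obtain ⟨u', s', hu'⟩ := key y
      exact ⟨((u, u'), (s, s')), Prod.ext hu hu'⟩
  let E' : (Fin a × Fin a) × (ℤ × ℤ) ≃ ℤ × ℤ := Equiv.ofBijective E hE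
  let S : Fin a × Fin a → ℂ := fun i =>
    if (a : ℤ) ∣ qf (i.1 : ℤ) (i.2 : ℤ) - 5 * (μ : ℤ) then
      (chi ((qf (i.1 : ℤ) (i.2 : ℤ) - 5 * (μ : ℤ)) / (a : ℤ)) : ℂ) * (1 / (a : ℂ) ^ k) *
        (ee ((n : ℂ) * (((i.1 : ℤ) : ℝ) / a : ℝ) + (j : ℂ) * (((i.2 : ℤ) : ℝ) / a : ℝ)) *
          JJ k y₁ y₂ n j (5 * (μ : ℝ) / (a : ℝ) ^ 2)) else 0
  have hshift : ∀ (x y s₁ s₂ : ℤ), qf (x + a * s₁) (y + a * s₂) - 5 * (μ : ℤ) =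
      (qf x y - 5 * (μ : ℤ)) + a * (s₁ * (2 * x + y) + s₂ * (x - 2 * y) + a * qf s₁ s₂) := by
    intro x y s₁ s₂
    unfold qf
    ring
  have hclass : ∀ i : Fin a × Fin a, HasSum (fun s : ℤ × ℤ => f (E (i, s))) (S i) := by
    rintro ⟨x, y⟩
    by_cases hd : (a : ℤ) ∣ qf (x : ℤ) (y : ℤ) - 5 * (μ : ℤ)
    · obtain ⟨b₀, hb₀⟩ := hd
      have hS : S (x, y) = (chi b₀ : ℂ) * (1 / (a : ℂ) ^ k) *
        (ee ((n : ℂ) * (((x : ℤ) : ℝ) / a : ℝ) + (j : ℂ) * (((y : ℤ) : ℝ) / a : ℝ)) *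
          JJ k y₁ y₂ n j (5 * (μ : ℝ) / (a : ℝ) ^ 2)) := by
        simp only [S]
        rw [if_pos ⟨b₀, hb₀⟩, hb₀, Int.mul_ediv_cancel_left _ haz]
      rw [hS]
      have h3 := (PF2_hasSum (PF5_G_int k hk (s := 5 * (μ : ℝ) / (a : ℝ) ^ 2) (by positivity)
        h₁ h₂ n j (((x : ℤ) : ℝ) / a, ((y : ℤ) : ℝ) / a))).mul_left
          ((chi b₀ : ℂ) * (1 / (a : ℂ) ^ k))
      rw [PF5_G_integral] at h3
      refine h3.congr_fun fun s => ?_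
      obtain ⟨s₁, s₂⟩ := s
      have hb : qf ((x : ℤ) + a * s₁) ((y : ℤ) + a * s₂) - 5 * (μ : ℤ) =
          a * (b₀ + (s₁ * (2 * x + y) + s₂ * (x - 2 * y) + a * qf s₁ s₂)) := by
        rw [hshift, hb₀]
        ring
      have hchi : chi (b₀ + (s₁ * (2 * x + y) + s₂ * (x - 2 * y) + a * qf s₁ s₂)) = chi b₀ := by
        have h5a : (5 : ℤ) ∣ a := by exact_mod_cast h5
        have h5q : (5 : ℤ) ∣ qf (x : ℤ) (y : ℤ) := by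
          have h6 : qf (x : ℤ) (y : ℤ) = 5 * (μ : ℤ) + a * b₀ := by linarith
          rw [h6]
          exact dvd_add (dvd_mul_right _ _) (h5a.mul_right _)
        obtain ⟨⟨c, hc⟩, ⟨d, hd⟩⟩ := PF5_dvd h5q
        obtain ⟨a', ha'⟩ := h5a
        have h7 : s₁ * (2 * (x : ℤ) + y) + s₂ * ((x : ℤ) - 2 * y) + a * qf s₁ s₂ =
            5 * (s₁ * c + s₂ * d + a' * qf s₁ s₂) := by
          rw [hc, hd]
          linear_combination (qf s₁ s₂) * ha'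
        rw [h7, chi_add_five_mul]
      show f ((x : ℤ) + a * s₁, (y : ℤ) + a * s₂) = _
      simp only [f]
      rw [if_pos ⟨_, hb⟩, hb, Int.mul_ediv_cancel_left _ haz, PF5_TX ha n j _ _ _ _ _ hb, hchi]
    · have hS : S (x, y) = 0 := if_neg hd
      rw [hS]
      have h3 : ∀ s : ℤ × ℤ, f (E ((x, y), s)) = 0 := by
        rintro ⟨s₁, s₂⟩
        refine if_neg fun h => hd ?_
        have h4 : (a : ℤ) ∣ qf ((x : ℤ) + a * s₁) ((y : ℤ) + a * s₂) - 5 * (μ : ℤ) := h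
        rw [hshift] at h4
        exact (dvd_add_left (dvd_mul_right _ _)).1 h4
      simp only [h3]
      exact hasSum_zero
  have hsum : Summable fun q : (Fin a × Fin a) × (ℤ × ℤ) => f (E q) := by
    refine Summable.of_norm ?_
    rw [summable_prod_of_nonneg fun q => norm_nonneg _]
    exact ⟨fun i => (hclass i).summable.norm, Summable.of_finite⟩
  have h3 : ∑' p : ℤ × ℤ, f p = ∑ i, S i := by
    rw [← Equiv.tsum_eq E' f]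
    have h4 : ∑' q, f (E' q) = ∑' i, ∑' s, f (E (i, s)) := hsum.tsum_prod
    rw [h4, tsum_fintype]
    exact Finset.sum_congr rfl fun i _ => (hclass i).tsum_eq
  show ∑' p : ℤ × ℤ, f p = _
  rw [h3, Fintype.sum_prod_type]
  unfold Ea
  rw [Finset.sum_range]
  simp only [Finset.sum_range]
  rw [Finset.mul_sum, Finset.sum_mul]
  refine Finset.sum_congr rfl fun x _ => ?_
  rw [Finset.mul_sum, Finset.sum_mul]
  refine Finset.sum_congr rfl fun y _ => ?_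
  simp only [S]
  by_cases hd : (a : ℤ) ∣ qf (x : ℤ) (y : ℤ) - 5 * (μ : ℤ)
  · rw [if_pos hd, if_pos hd]
    have h6 : ((n : ℂ) * ((((x : ℕ) : ℤ) : ℝ) / a : ℝ) + (j : ℂ) * ((((y : ℕ) : ℤ) : ℝ) / a : ℝ)) =
        ((n * (x : ℕ) + j * (y : ℕ) : ℤ) : ℂ) / (a : ℂ) := by
      push_cast
      ring
    rw [h6]
    ring
  · rw [if_neg hd, if_neg hd]
    ring

end H94M
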