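import Pool.Agent.Lib.H94M.PF5A

set_option autoImplicit false

/-!
CHUNK PF6A (M, pure Mathlib).  The Lipschitz integral.
-/

namespace H94M

open Real MeasureTheory

theorem PF6A_int1 (m : ℕ) {b : ℝ} (hb : 0 < b) :
    IntegrableOn (fun u : ℝ => u ^ m * Real.exp (-(b * u))) (Set.Ioi 0) := by
  apply integrable_of_isBigO_exp_neg (b := b / 2) (by positivity)
  · exact Continuous.continuousOn (by fun_prop)
  · have h1 := (isLittleO_pow_exp_pos_mul_atTop m (b := b / 2) (by positivity)).isBigO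
    have h2 := h1.mul (Asymptotics.isBigO_refl (fun u : ℝ => Real.exp (-(b * u))) Filter.atTop)
    refine h2.congr_right ?_
    intro u
    rw [← Real.exp_add]
    congr 1
    ring

theorem PF6A_norm (m : ℕ) (r : ℂ) {u : ℝ} (hu : 0 ≤ u) :
    ‖(u : ℂ) ^ m * Complex.exp (-(r * u))‖ = u ^ m * Real.exp (-(r.re * u)) := by
  rw [norm_mul, norm_pow, Complex.norm_real, Real.norm_of_nonneg hu, Complex.norm_exp]
  congr 2
  simp

theorem PF6A_int2 (m : ℕ) {r : ℂ} (hr : 0 < r.re) :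
    IntegrableOn (fun u : ℝ => (u : ℂ) ^ m * Complex.exp (-(r * u))) (Set.Ioi 0) := by
  refine (PF6A_int1 m hr).mono' ?_ ?_
  · exact (by fun_prop : Continuous fun u : ℝ => (u : ℂ) ^ m *
      Complex.exp (-(r * u))).aestronglyMeasurable
  · rw [ae_restrict_iff' measurableSet_Ioi]
    refine Filter.Eventually.of_forall fun u hu => ?_
    rw [PF6A_norm m r (le_of_lt hu)]

theorem PF6A_tendsto (m : ℕ) {r : ℂ} (hr : 0 < r.re) :
    Filter.Tendsto (fun u : ℝ => (u : ℂ) ^ m * Complex.exp (-(r * u))) Filter.atTop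
      (nhds 0) := by
  rw [tendsto_zero_iff_norm_tendsto_zero]
  have h1 : Filter.Tendsto (fun u : ℝ => u ^ m * Real.exp (-(r.re * u))) Filter.atTop
      (nhds 0) := by
    have h2 := (isLittleO_pow_exp_pos_mul_atTop m hr).tendsto_div_nhds_zero
    refine h2.congr fun u => ?_
    rw [Real.exp_neg, div_eq_mul_inv]
  refine h1.congr' ?_
  filter_upwards [Filter.eventually_ge_atTop 0] with u hu
  rw [PF6A_norm m r hu]

theorem PF6A_gamma (m : ℕ) {r : ℂ} (hr : 0 < r.re) :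
    ∫ u : ℝ in Set.Ioi 0, (u : ℂ) ^ m * Complex.exp (-(r * u)) =
      (m.factorial : ℂ) / r ^ (m + 1) := by
  have hr0 : r ≠ 0 := by
    intro h
    rw [h] at hr
    simp at hr
  have hexp : ∀ x : ℝ, HasDerivAt (fun u : ℝ => Complex.exp (-(r * u)))
      (Complex.exp (-(r * x)) * (-r)) x := by
    intro x
    have h1 : HasDerivAt (fun u : ℂ => -(r * u)) (-r) (x : ℂ) := by
      have h2 := (hasDerivAt_id (x : ℂ)).const_mul (-r)
      simpa using h2
    exact h1.cexp.comp_ofReal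
  induction m with
  | zero =>
    have h1 := integral_Ioi_of_hasDerivAt_of_tendsto' (f := fun u : ℝ =>
      (-(1 / r)) * (Complex.exp (-(r * u)))) (f' := fun u : ℝ => (u : ℂ) ^ 0 * Complex.exp (-(r * u)))
      (a := 0) (m := 0) (fun x _ => ?_) (PF6A_int2 0 hr) ?_
    · rw [h1]
      simp
    · have h2 := (hexp x).const_mul (-(1 / r))
      refine h2.congr_deriv ?_
      field_simp
    · have h3 := (PF6A_tendsto 0 hr).const_mul (-(1 / r))
      simpa using h3
  | succ m ih =>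
    have h1 := integral_Ioi_of_hasDerivAt_of_tendsto' (f := fun u : ℝ =>
      (-(1 / r)) * ((u : ℂ) ^ (m + 1) * Complex.exp (-(r * u))))
      (f' := fun u : ℝ => (u : ℂ) ^ (m + 1) * Complex.exp (-(r * u)) -
        ((m + 1 : ℕ) : ℂ) / r * ((u : ℂ) ^ m * Complex.exp (-(r * u))))
      (a := 0) (m := 0) (fun x _ => ?_) ?_ ?_
    · rw [integral_sub (PF6A_int2 (m + 1) hr) ((PF6A_int2 m hr).const_mul _),
        integral_const_mul, ih] at h1
      simp only [Complex.ofReal_zero, ne_eq, Nat.add_eq_zero_iff, one_ne_zero, and_false,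
        not_false_eq_true, zero_pow, zero_mul, mul_zero, sub_self] at h1
      rw [sub_eq_zero] at h1
      rw [h1, Nat.factorial_succ, pow_succ r (m + 1)]
      push_cast
      field_simp
    · have hpow : HasDerivAt (fun u : ℝ => (u : ℂ) ^ (m + 1)) (((m + 1 : ℕ) : ℂ) * (x : ℂ) ^ m) x := by
        have := (hasDerivAt_pow (m + 1) (x : ℂ)).comp_ofReal
        simpa using this
      have h2 := (hpow.fun_mul (hexp x)).const_mul (-(1 / r))
      refine h2.congr_deriv ?_
      field_simp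
      ring
    · exact (PF6A_int2 (m + 1) hr).sub ((PF6A_int2 m hr).const_mul _)
    · have h3 := (PF6A_tendsto (m + 1) hr).const_mul (-(1 / r))
      rw [mul_zero] at h3
      exact h3

/-- `u^(k-1) exp (-2 π η u)` on the positive half line. -/
noncomputable def PF6A_g (k : ℕ) (η : ℝ) (u : ℝ) : ℂ :=
  if 0 < u then (u : ℂ) ^ (k - 1) * Complex.exp (-(((2 * π * η : ℝ) : ℂ) * u)) else 0

theorem PF6A_g_eq (k : ℕ) (hk : 2 ≤ k) (η : ℝ) : PF6A_g k η = fun u : ℝ =>
    ((max u 0 : ℝ) : ℂ) ^ (k - 1) * Complex.exp (-(((2 * π * η : ℝ) : ℂ) * u)) := by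
  funext u
  unfold PF6A_g
  split_ifs with h
  · rw [max_eq_left h.le]
  · rw [max_eq_right (not_lt.1 h), Complex.ofReal_zero, zero_pow (by omega), zero_mul]

theorem PF6A_g_cont (k : ℕ) (hk : 2 ≤ k) (η : ℝ) : Continuous (PF6A_g k η) := by
  rw [PF6A_g_eq k hk]
  fun_prop

theorem PF6A_g_ind (k : ℕ) (η : ℝ) : PF6A_g k η = Set.indicator (Set.Ioi 0) (fun u : ℝ =>
    (u : ℂ) ^ (k - 1) * Complex.exp (-(((2 * π * η : ℝ) : ℂ) * u))) := by
  funext u
  rw [Set.indicator_apply]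
  rfl

theorem PF6A_g_int (k : ℕ) {η : ℝ} (hη : 0 < η) : Integrable (PF6A_g k η) := by
  rw [PF6A_g_ind, integrable_indicator_iff measurableSet_Ioi]
  apply PF6A_int2
  rw [Complex.ofReal_re]
  positivity

open FourierTransform in
theorem PF6A_inv (k : ℕ) (hk : 2 ≤ k) {η : ℝ} (hη : 0 < η) (x : ℝ) :
    𝓕⁻ (PF6A_g k η) x = ((k - 1).factorial : ℂ) /
      (-2 * (π : ℂ) * Complex.I * (((x : ℝ) : ℂ) + (η : ℂ) * Complex.I)) ^ k := by
  rw [Real.fourierInv_eq']
  have h1 : (fun v : ℝ => Complex.exp (((2 * π * inner ℝ v x : ℝ) : ℂ) * Complex.I) •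
      PF6A_g k η v) = Set.indicator (Set.Ioi 0) (fun v : ℝ => (v : ℂ) ^ (k - 1) * Complex.exp
        (-((-2 * (π : ℂ) * Complex.I * (((x : ℝ) : ℂ) + (η : ℂ) * Complex.I)) * v))) := by
    funext v
    rw [PF6A_g_ind, Set.indicator_apply, Set.indicator_apply]
    split_ifs with h
    · rw [smul_eq_mul, ← mul_assoc, mul_comm (Complex.exp _) ((v : ℂ) ^ (k - 1)), mul_assoc,
        ← Complex.exp_add]
      congr 2
      have h2 : inner ℝ v x = x * v := by simp
      rw [h2]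
      push_cast
      ring_nf
      rw [Complex.I_sq]
      ring
    · rw [smul_zero]
  rw [h1, integral_indicator measurableSet_Ioi, PF6A_gamma (k - 1)]
  · rw [Nat.sub_add_cancel (by omega : 1 ≤ k)]
  · have h3 : (-2 * (π : ℂ) * Complex.I * (((x : ℝ) : ℂ) + (η : ℂ) * Complex.I)).re =
        2 * π * η := by
      simp [Complex.mul_re, Complex.mul_im]
    rw [h3]
    positivity

open FourierTransform in
/-- CHUNK PF6A.  `∫_{Im z = η} z^(-k) e (-ν z) dz`.

Proof.  Let `g (u) = u^(k-1) exp (-2 π η u)` for `u > 0` and `0` for `u ≤ 0`: continuous, integrable.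
Its inverse Fourier transform is `∫_0^∞ u^(k-1) exp (-u · (-2 π i (x + i η))) du =
(k-1)! / (-2 π i (x + i η))^k` (`Complex.GammaIntegral`,
`Complex.integral_cpow_mul_exp_neg_mul_Ioi`), which is integrable (`PF5A_line`); by the Fourier
inversion theorem (`MeasureTheory.Integrable.fourierInv_fourier_eq`,
`Continuous.fourier_inversion` and the like, for `𝓕` of `𝓕⁻ g`)
`∫ (k-1)! / (-2 π i (x + i η))^k e (-ν x) dx = g (ν)`.  Multiply by
`e (-ν i η) = exp (2 π ν η)`. -/
theorem PF6A_integral (k : ℕ) (hk : 2 ≤ k) {η : ℝ} (hη : 0 < η) (ν : ℝ) :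
    ∫ x : ℝ, ee (-((ν : ℂ) * (((x : ℝ) : ℂ) + (η : ℂ) * Complex.I))) /
      (((x : ℝ) : ℂ) + (η : ℂ) * Complex.I) ^ k =
    if 0 < ν then (-2 * (π : ℂ) * Complex.I) ^ k * (ν : ℂ) ^ (k - 1) / ((k - 1).factorial : ℂ)
    else 0 := by
  have hpi : (-2 * (π : ℂ) * Complex.I) ≠ 0 := by
    simp [Real.pi_ne_zero]
  have hfac : ((k - 1).factorial : ℂ) ≠ 0 := by
    exact_mod_cast (Nat.factorial_pos (k - 1)).ne'
  have hF : Integrable (𝓕 (PF6A_g k η)) := by
    have h1 : 𝓕 (PF6A_g k η) = fun x : ℝ => ((k - 1).factorial : ℂ) /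
        (-2 * (π : ℂ) * Complex.I) ^ k * (1 / ((((-x : ℝ) : ℝ) : ℂ) + (η : ℂ) * Complex.I) ^ k) := by
      funext x
      have h2 := PF6A_inv k hk hη (-x)
      rw [Real.fourierInv_eq_fourier_neg, neg_neg] at h2
      rw [h2, mul_pow, div_mul_div_comm, mul_one]
    rw [h1]
    apply Integrable.const_mul
    exact (PF5A_line k hk hη).comp_neg
  have hinv := congrFun ((PF6A_g_cont k hk η).fourier_fourierInv_eq (PF6A_g_int k hη) hF) ν
  rw [Real.fourier_real_eq_integral_exp_smul] at hinv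
  have h1 : (fun x : ℝ => ee (-((ν : ℂ) * (((x : ℝ) : ℂ) + (η : ℂ) * Complex.I))) /
      (((x : ℝ) : ℂ) + (η : ℂ) * Complex.I) ^ k) = fun x : ℝ =>
      (Complex.exp (((2 * π * η : ℝ) : ℂ) * ν) * (-2 * (π : ℂ) * Complex.I) ^ k /
        ((k - 1).factorial : ℂ)) *
      (Complex.exp (((-2 * π * x * ν : ℝ) : ℂ) * Complex.I) • 𝓕⁻ (PF6A_g k η) x) := by
    funext x
    have hz : (((x : ℝ) : ℂ) + (η : ℂ) * Complex.I) ≠ 0 := PF5A_ne' hη
    rw [PF6A_inv k hk hη x, smul_eq_mul,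
      mul_pow (-2 * (π : ℂ) * Complex.I) (((x : ℝ) : ℂ) + (η : ℂ) * Complex.I) k]
    have h2 : ee (-((ν : ℂ) * (((x : ℝ) : ℂ) + (η : ℂ) * Complex.I))) =
        Complex.exp (((2 * π * η : ℝ) : ℂ) * ν) *
          Complex.exp (((-2 * π * x * ν : ℝ) : ℂ) * Complex.I) := by
      unfold ee
      rw [← Complex.exp_add]
      congr 1
      push_cast
      ring_nf
      rw [Complex.I_sq]
      ring
    rw [h2]
    have h3 := pow_ne_zero k hpi
    have h4 := pow_ne_zero k hz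
    generalize (-2 * (π : ℂ) * Complex.I) ^ k = A at h3 ⊢
    generalize (((x : ℝ) : ℂ) + (η : ℂ) * Complex.I) ^ k = B at h4 ⊢
    field_simp
  rw [h1, integral_const_mul, hinv]
  unfold PF6A_g
  split_ifs with h
  · have h2 : Complex.exp (((2 * π * η : ℝ) : ℂ) * ν) *
        Complex.exp (-(((2 * π * η : ℝ) : ℂ) * ν)) = 1 := by
      rw [← Complex.exp_add, add_neg_cancel, Complex.exp_zero]
    linear_combination ((-2 * (π : ℂ) * Complex.I) ^ k * (ν : ℂ) ^ (k - 1) /
      ((k - 1).factorial : ℂ)) * h2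
  · rw [mul_zero]

end H94M
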