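import Pool.Agent.Lib.H94M.PF5
import Pool.Agent.Lib.H94M.PF6A

set_option autoImplicit false

/-!
CHUNK PF6 (M).  Evaluation of the integral over the plane.
-/

namespace H94M

open Real MeasureTheory

theorem PF6_cont (k : ℕ) {s : ℝ} (hs : 0 ≤ s) {y₁ y₂ : ℝ} (h₁ : 0 < y₁)
    (h₂ : 0 < y₂) (ν ν' : ℝ) :
    Continuous fun x : ℝ × ℝ => ee (-((ν : ℂ) * (((x.1 : ℝ) : ℂ) + (y₁ : ℂ) * Complex.I) +
        (ν' : ℂ) * (((x.2 : ℝ) : ℂ) + (y₂ : ℂ) * Complex.I))) /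
      ((((x.1 : ℝ) : ℂ) + (y₁ : ℂ) * Complex.I) * (((x.2 : ℝ) : ℂ) + (y₂ : ℂ) * Complex.I) -
        (s : ℂ)) ^ k := by
  refine Continuous.div ?_ (by fun_prop) fun x => ?_
  · exact continuous_ee.comp (by fun_prop)
  · exact pow_ne_zero _ (PF5A_ne hs (by simpa using h₁) (by simpa using h₂))

theorem PF6_integrable (k : ℕ) (hk : 2 ≤ k) {s : ℝ} (hs : 0 ≤ s) {y₁ y₂ : ℝ} (h₁ : 0 < y₁)
    (h₂ : 0 < y₂) (ν ν' : ℝ) :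
    Integrable fun x : ℝ × ℝ => ee (-((ν : ℂ) * (((x.1 : ℝ) : ℂ) + (y₁ : ℂ) * Complex.I) +
        (ν' : ℂ) * (((x.2 : ℝ) : ℂ) + (y₂ : ℂ) * Complex.I))) /
      ((((x.1 : ℝ) : ℂ) + (y₁ : ℂ) * Complex.I) * (((x.2 : ℝ) : ℂ) + (y₂ : ℂ) * Complex.I) -
        (s : ℂ)) ^ k := by
  have hb := (PF5A_integrable k hk hs h₁ h₂).norm.const_mul
    (Real.exp (2 * π * (ν * y₁ + ν' * y₂)))
  refine hb.mono' (PF6_cont k hs h₁ h₂ ν ν').aestronglyMeasurable ?_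
  refine Filter.Eventually.of_forall fun x => ?_
  rw [div_eq_mul_one_div, norm_mul, norm_ee]
  apply le_of_eq
  congr 2
  simp
  ring

/-- the point `s / z₂`. -/
theorem PF6_uv (s y₂ x₂ : ℝ) (h₂ : 0 < y₂) :
    (s : ℂ) / (((x₂ : ℝ) : ℂ) + (y₂ : ℂ) * Complex.I) =
      ((s * x₂ / (x₂ ^ 2 + y₂ ^ 2) : ℝ) : ℂ) -
        ((s * y₂ / (x₂ ^ 2 + y₂ ^ 2) : ℝ) : ℂ) * Complex.I := by
  have h := PF5A_split s 0 y₂ 0 x₂ h₂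
  have hz : (((x₂ : ℝ) : ℂ) + (y₂ : ℂ) * Complex.I) ≠ 0 := PF5A_ne' h₂
  rw [div_eq_iff hz]
  simp only [Complex.ofReal_zero, zero_mul, add_zero, zero_sub, zero_add, zero_mul] at h
  push_cast at h ⊢
  linear_combination -h

/-- CHUNK PF6.  The double integral in the coordinates `(x₁, x₂)`: Fubini (`integral_prod_symm` or
`integral_prod` after a swap; integrability from `PF5A_integrable` times the bounded factor), inner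
integral over `x₁`: with `z₂ = x₂ + i y₂`, `s / z₂ = u - i v`, `v ≥ 0`: `z₁ z₂ - s = z₂ (z₁ - s/z₂)`,
`z₁ - s/z₂ = (x₁ - u) + i (y₁ + v)`; translate `x₁` by `u` and apply `PF6A_integral` with
`η = y₁ + v`: the inner integral is `e (-ν s/z₂) e (-ν' z₂) z₂^(-k) L`. -/
theorem PF6_double (k : ℕ) (hk : 2 ≤ k) {s : ℝ} (hs : 0 ≤ s) {y₁ y₂ : ℝ} (h₁ : 0 < y₁)
    (h₂ : 0 < y₂) (ν ν' : ℝ) :
    ∫ x : ℝ × ℝ, ee (-((ν : ℂ) * (((x.1 : ℝ) : ℂ) + (y₁ : ℂ) * Complex.I) +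
        (ν' : ℂ) * (((x.2 : ℝ) : ℂ) + (y₂ : ℂ) * Complex.I))) /
      ((((x.1 : ℝ) : ℂ) + (y₁ : ℂ) * Complex.I) * (((x.2 : ℝ) : ℂ) + (y₂ : ℂ) * Complex.I) -
        (s : ℂ)) ^ k =
    (if 0 < ν then (-2 * (π : ℂ) * Complex.I) ^ k * (ν : ℂ) ^ (k - 1) / ((k - 1).factorial : ℂ)
      else 0) *
    ∫ x : ℝ, ee (-((ν : ℂ) * (s : ℂ) / (((x : ℝ) : ℂ) + (y₂ : ℂ) * Complex.I)) -
        (ν' : ℂ) * (((x : ℝ) : ℂ) + (y₂ : ℂ) * Complex.I)) /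
      (((x : ℝ) : ℂ) + (y₂ : ℂ) * Complex.I) ^ k := by
  rw [Measure.volume_eq_prod, integral_prod_symm _ (by
    rw [← Measure.volume_eq_prod]
    exact PF6_integrable k hk hs h₁ h₂ ν ν'), ← integral_const_mul]
  apply integral_congr_ae
  refine Filter.Eventually.of_forall fun x₂ => ?_
  simp only
  set z₂ : ℂ := ((x₂ : ℝ) : ℂ) + (y₂ : ℂ) * Complex.I with hz₂
  set u : ℝ := s * x₂ / (x₂ ^ 2 + y₂ ^ 2) with hu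
  set v : ℝ := s * y₂ / (x₂ ^ 2 + y₂ ^ 2) with hv
  have hv0 : 0 ≤ v := by positivity
  have huv : (s : ℂ) / z₂ = (u : ℂ) - (v : ℂ) * Complex.I := PF6_uv s y₂ x₂ h₂
  have hz0 : z₂ ≠ 0 := PF5A_ne' h₂
  have key : (fun x₁ : ℝ => ee (-((ν : ℂ) * (((x₁ : ℝ) : ℂ) + (y₁ : ℂ) * Complex.I) +
        (ν' : ℂ) * z₂)) / ((((x₁ : ℝ) : ℂ) + (y₁ : ℂ) * Complex.I) * z₂ - (s : ℂ)) ^ k) =
      fun x₁ : ℝ => (ee (-((ν : ℂ) * (s : ℂ) / z₂) - (ν' : ℂ) * z₂) / z₂ ^ k) *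
        (ee (-((ν : ℂ) * ((((x₁ - u : ℝ)) : ℂ) + ((y₁ + v : ℝ) : ℂ) * Complex.I))) /
          ((((x₁ - u : ℝ)) : ℂ) + ((y₁ + v : ℝ) : ℂ) * Complex.I) ^ k) := by
    funext x₁
    rw [PF5A_split s y₁ y₂ x₁ x₂ h₂, ← hz₂, ← hu, ← hv, mul_pow, div_mul_div_comm, ← ee_add]
    congr 2
    rw [mul_div_assoc, huv]
    push_cast
    ring
  rw [key, integral_const_mul]
  have h5 : (∫ x₁ : ℝ, ee (-((ν : ℂ) * ((((x₁ - u : ℝ)) : ℂ) + ((y₁ + v : ℝ) : ℂ) * Complex.I))) /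
          ((((x₁ - u : ℝ)) : ℂ) + ((y₁ + v : ℝ) : ℂ) * Complex.I) ^ k) =
      ∫ x₁ : ℝ, ee (-((ν : ℂ) * (((x₁ : ℝ) : ℂ) + ((y₁ + v : ℝ) : ℂ) * Complex.I))) /
          (((x₁ : ℝ) : ℂ) + ((y₁ + v : ℝ) : ℂ) * Complex.I) ^ k :=
    integral_sub_right_eq_self (fun x₁ : ℝ =>
      ee (-((ν : ℂ) * (((x₁ : ℝ) : ℂ) + ((y₁ + v : ℝ) : ℂ) * Complex.I))) /
          (((x₁ : ℝ) : ℂ) + ((y₁ + v : ℝ) : ℂ) * Complex.I) ^ k) u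
  rw [h5, PF6A_integral k hk (by linarith : 0 < y₁ + v), mul_comm]

/-- CHUNK PF6.  Rescaling: `x = lam x'` with `lam = 5 ν / r²`, `s = 5 μ / (r c)²`, so that
`ν s / lam = μ / c²` and `ν' lam = m` (`integral_comp_mul_left`). -/
theorem PF6_scale (k : ℕ) (hk : 2 ≤ k) {y₂ ν ν' : ℝ} (h₂ : 0 < y₂) (hν : 0 < ν) (μ r c : ℕ)
    (hr : 0 < r) (hc : 0 < c) (m : ℤ) (hm : 5 * (ν * ν') = (m : ℝ) * (r : ℝ) ^ 2) :
    ∫ x : ℝ, ee (-((ν : ℂ) * ((5 * (μ : ℝ) / ((r * c : ℕ) : ℝ) ^ 2 : ℝ) : ℂ) /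
          (((x : ℝ) : ℂ) + (y₂ : ℂ) * Complex.I)) -
        (ν' : ℂ) * (((x : ℝ) : ℂ) + (y₂ : ℂ) * Complex.I)) /
      (((x : ℝ) : ℂ) + (y₂ : ℂ) * Complex.I) ^ k =
    1 / (((5 * ν / (r : ℝ) ^ 2 : ℝ) : ℂ)) ^ (k - 1) *
      Iy k (y₂ * (r : ℝ) ^ 2 / (5 * ν)) c μ m := by
  set lam : ℝ := 5 * ν / (r : ℝ) ^ 2 with hlam
  have hrR : (0 : ℝ) < r := by exact_mod_cast hr
  have hcR : (0 : ℝ) < c := by exact_mod_cast hc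
  have hlam0 : 0 < lam := by positivity
  have hlamC : (lam : ℂ) ≠ 0 := by exact_mod_cast hlam0.ne'
  set y : ℝ := y₂ * (r : ℝ) ^ 2 / (5 * ν) with hy
  have hyl : y₂ = lam * y := by
    rw [hlam, hy]
    field_simp
  have hy0 : 0 < y := by positivity
  set f : ℝ → ℂ := fun x : ℝ => ee (-((ν : ℂ) * ((5 * (μ : ℝ) / ((r * c : ℕ) : ℝ) ^ 2 : ℝ) : ℂ) /
          (((x : ℝ) : ℂ) + (y₂ : ℂ) * Complex.I)) -
        (ν' : ℂ) * (((x : ℝ) : ℂ) + (y₂ : ℂ) * Complex.I)) /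
      (((x : ℝ) : ℂ) + (y₂ : ℂ) * Complex.I) ^ k with hf
  have h1 : ∫ x : ℝ, f x = (lam : ℂ) * ∫ x : ℝ, f (lam * x) := by
    rw [Measure.integral_comp_mul_left f lam, abs_of_pos (inv_pos.2 hlam0), Complex.real_smul,
      ← mul_assoc, Complex.ofReal_inv, mul_inv_cancel₀ hlamC, one_mul]
  have h2 : (fun x : ℝ => f (lam * x)) = fun x : ℝ => (1 / (lam : ℂ) ^ k) *
      (ee (-(((μ : ℤ) : ℂ) / ((c : ℂ) ^ 2 * ((x : ℂ) + (y : ℂ) * Complex.I))) -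
    (m : ℂ) * ((x : ℂ) + (y : ℂ) * Complex.I)) / ((x : ℂ) + (y : ℂ) * Complex.I) ^ k) := by
    funext x
    have hz : (((lam * x : ℝ) : ℂ) + (y₂ : ℂ) * Complex.I) =
        (lam : ℂ) * ((x : ℂ) + (y : ℂ) * Complex.I) := by
      rw [hyl]
      push_cast
      ring
    have hw : ((x : ℂ) + (y : ℂ) * Complex.I) ≠ 0 := PF5A_ne' hy0
    rw [hf]
    simp only
    rw [hz, mul_pow, div_mul_div_comm, one_mul]
    congr 2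
    have hm' : (ν' : ℂ) * (lam : ℂ) = (m : ℂ) := by
      have : ν' * lam = m := by
        rw [hlam]
        field_simp
        linarith
      exact_mod_cast this
    have hs' : (ν : ℂ) * ((5 * (μ : ℝ) / ((r * c : ℕ) : ℝ) ^ 2 : ℝ) : ℂ) =
        (lam : ℂ) * (((μ : ℤ) : ℂ) / (c : ℂ) ^ 2) := by
      have : ν * (5 * (μ : ℝ) / ((r * c : ℕ) : ℝ) ^ 2) = lam * ((μ : ℝ) / (c : ℝ) ^ 2) := by
        rw [hlam]
        push_cast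
        field_simp
      have h3 := congrArg (fun t : ℝ => (t : ℂ)) this
      push_cast at h3 ⊢
      exact h3
    rw [hs', ← mul_assoc, hm', mul_div_mul_left _ _ hlamC, div_div]
  show ∫ x : ℝ, f x = _
  rw [h1, h2, integral_const_mul]
  unfold Iy
  rw [← mul_assoc]
  congr 1
  have hk' : k = (k - 1) + 1 := by omega
  conv_lhs => rw [hk', pow_succ]
  rw [mul_one_div, mul_comm ((lam : ℂ) ^ (k - 1)) (lam : ℂ), div_mul_cancel_left₀ hlamC, one_div]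

/-- the integral over the plane in the coordinates `(x₁, x₂)`. -/
theorem PF6_JJ (k : ℕ) (y₁ y₂ : ℝ) (n j : ℤ) (s : ℝ) :
    JJ k y₁ y₂ n j s = (Real.exp (-(2 * π * (nu1 n j * y₁ + nu2 n j * y₂))) : ℂ) *
      (((1 / √5 : ℝ) : ℂ) * ∫ x : ℝ × ℝ,
        ee (-((nu1 n j : ℂ) * (((x.1 : ℝ) : ℂ) + (y₁ : ℂ) * Complex.I) +
        (nu2 n j : ℂ) * (((x.2 : ℝ) : ℂ) + (y₂ : ℂ) * Complex.I))) /
      ((((x.1 : ℝ) : ℂ) + (y₁ : ℂ) * Complex.I) * (((x.2 : ℝ) : ℂ) + (y₂ : ℂ) * Complex.I) -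
        (s : ℂ)) ^ k) := by
  rw [← PF5B_integral (fun x : ℝ × ℝ => ee (-((nu1 n j : ℂ) *
      (((x.1 : ℝ) : ℂ) + (y₁ : ℂ) * Complex.I) +
        (nu2 n j : ℂ) * (((x.2 : ℝ) : ℂ) + (y₂ : ℂ) * Complex.I))) /
      ((((x.1 : ℝ) : ℂ) + (y₁ : ℂ) * Complex.I) * (((x.2 : ℝ) : ℂ) + (y₂ : ℂ) * Complex.I) -
        (s : ℂ)) ^ k)]
  unfold JJ
  rw [← integral_const_mul]
  apply integral_congr_ae
  refine Filter.Eventually.of_forall fun t => ?_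
  show ee (-((n : ℂ) * (t.1 : ℂ) + (j : ℂ) * (t.2 : ℂ))) /
    (pz1 y₁ t * pz2 y₂ t - (s : ℂ)) ^ k =
    (Real.exp (-(2 * π * (nu1 n j * y₁ + nu2 n j * y₂))) : ℂ) *
      (ee (-((nu1 n j : ℂ) * pz1 y₁ t + (nu2 n j : ℂ) * pz2 y₂ t)) /
        (pz1 y₁ t * pz2 y₂ t - (s : ℂ)) ^ k)
  rw [nu_pz, ← mul_div_assoc]
  congr 1
  rw [Complex.ofReal_exp]
  unfold ee
  rw [← Complex.exp_add]
  congr 1
  push_cast
  ring_nf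
  rw [Complex.I_sq]
  ring

/-- CHUNK PF6.  **The integral over the plane**, `ν > 0`.  Proof: by `nu_pz`,
`e (-(n t₁ + j t₂)) = e (-(ν z₁ + ν' z₂)) exp (-2 π (ν y₁ + ν' y₂))`; `PF5B_integral`, `PF6_double`,
`PF6_scale` with `m = qf n j / r²` (`nu_mul`, `r² ∣ qf n j`); constants:
`(1/√5) ν^(k-1) (r²/(5 ν))^(k-1) = (√5/5^k) r^(2 k - 2)`. -/
theorem PF6_pos (k : ℕ) (hk : 2 ≤ k) {y₁ y₂ : ℝ} (h₁ : 0 < y₁) (h₂ : 0 < y₂) (n j : ℤ)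
    (hν : 0 < nu1 n j) (μ r c : ℕ) (hr : 0 < r) (hc : 0 < c) (hn : (r : ℤ) ∣ n)
    (hj : (r : ℤ) ∣ j) :
    JJ k y₁ y₂ n j (5 * (μ : ℝ) / ((r * c : ℕ) : ℝ) ^ 2) =
      (Real.exp (-(2 * π * (nu1 n j * y₁ + nu2 n j * y₂))) : ℂ) * CC k *
        (r : ℂ) ^ (2 * k - 2) *
        Iy k (y₂ * (r : ℝ) ^ 2 / (5 * nu1 n j)) c μ (qf n j / (r : ℤ) ^ 2) := by
  have hrR : (0 : ℝ) < r := by exact_mod_cast hr
  have hdvd : (r : ℤ) ^ 2 ∣ qf n j := by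
    obtain ⟨a, rfl⟩ := hn
    obtain ⟨b, rfl⟩ := hj
    exact ⟨a ^ 2 + a * b - b ^ 2, by unfold qf; ring⟩
  obtain ⟨m, hm⟩ := hdvd
  have hm' : qf n j / (r : ℤ) ^ 2 = m := by
    rw [hm]
    exact Int.mul_ediv_cancel_left _ (by positivity)
  have hm2 : 5 * (nu1 n j * nu2 n j) = (m : ℝ) * (r : ℝ) ^ 2 := by
    rw [nu_mul, hm]
    push_cast
    ring
  rw [PF6_JJ, PF6_double k hk (by positivity) h₁ h₂, if_pos hν,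
    PF6_scale k hk h₂ hν μ r c hr hc m hm2, hm']
  unfold CC
  have h5 : ((√5 : ℝ) : ℂ) * ((√5 : ℝ) : ℂ) = 5 := by
    have : √5 * √5 = 5 := Real.mul_self_sqrt (by norm_num)
    exact_mod_cast this
  have h50 : ((√5 : ℝ) : ℂ) ≠ 0 := by
    have : √5 ≠ 0 := by positivity
    exact_mod_cast this
  have hν0 : (nu1 n j : ℂ) ≠ 0 := by exact_mod_cast hν.ne'
  have hr0 : (r : ℂ) ≠ 0 := by exact_mod_cast hr.ne'
  have hfac : ((k - 1).factorial : ℂ) ≠ 0 := by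
    exact_mod_cast (Nat.factorial_pos (k - 1)).ne'
  have hconst : ((1 / √5 : ℝ) : ℂ) * ((-2 * (π : ℂ) * Complex.I) ^ k * (nu1 n j : ℂ) ^ (k - 1) /
      ((k - 1).factorial : ℂ)) * (1 / (((5 * nu1 n j / (r : ℝ) ^ 2 : ℝ) : ℂ)) ^ (k - 1)) =
      (-2 * (π : ℂ) * Complex.I) ^ k / ((k - 1).factorial : ℂ) * ((√5 : ℝ) : ℂ) / (5 : ℂ) ^ k *
        (r : ℂ) ^ (2 * k - 2) := by
    have e1 : (r : ℂ) ^ (2 * k - 2) = ((r : ℂ) ^ 2) ^ (k - 1) := by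
      rw [← pow_mul]
      congr 1
      omega
    have e2 : (5 : ℂ) ^ k = 5 ^ (k - 1) * 5 := by
      rw [← pow_succ]
      congr 1
      omega
    rw [e1, e2]
    push_cast
    rw [div_pow, mul_pow (5 : ℂ) (nu1 n j : ℂ)]
    generalize (-2 * (π : ℂ) * Complex.I) ^ k = A
    have e3 : (nu1 n j : ℂ) ^ (k - 1) ≠ 0 := pow_ne_zero _ hν0
    have e4 : ((r : ℂ) ^ 2) ^ (k - 1) ≠ 0 := pow_ne_zero _ (pow_ne_zero _ hr0)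
    generalize (nu1 n j : ℂ) ^ (k - 1) = B at e3 ⊢
    generalize ((r : ℂ) ^ 2) ^ (k - 1) = R at e4 ⊢
    have e5 : (5 : ℂ) ^ (k - 1) ≠ 0 := pow_ne_zero _ (by norm_num)
    generalize (5 : ℂ) ^ (k - 1) = F at e5 ⊢
    field_simp
    linear_combination (-A) * h5
  linear_combination (Real.exp (-(2 * π * (nu1 n j * y₁ + nu2 n j * y₂))) : ℂ) *
    Iy k (y₂ * (r : ℝ) ^ 2 / (5 * nu1 n j)) c μ m * hconst

/-- CHUNK PF6.  The integral over the plane vanishes for `ν ≤ 0`. -/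
theorem PF6_nonpos (k : ℕ) (hk : 2 ≤ k) {y₁ y₂ : ℝ} (h₁ : 0 < y₁) (h₂ : 0 < y₂) (n j : ℤ)
    (hν : nu1 n j ≤ 0) {s : ℝ} (hs : 0 ≤ s) : JJ k y₁ y₂ n j s = 0 := by
  rw [PF6_JJ, PF6_double k hk hs h₁ h₂, if_neg (not_lt.2 hν), zero_mul, mul_zero, mul_zero]

end H94M
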