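import Pool.Agent.Lib.H94M.PB

set_option autoImplicit false

/-!
CHUNK PF9 (M).  Series over the totally positive elements of the inverse different with coefficients
of polynomial growth.
-/

namespace H94M

open Real MeasureTheory

/-- Support in the totally positive elements and polynomial growth. -/
def PG (c : ℤ → ℤ → ℂ) : Prop :=
  (∀ n j : ℤ, c n j ≠ 0 → 0 < n ∧ 0 < qf n j) ∧
    ∃ (C : ℝ) (A : ℕ), ∀ n j : ℤ, ‖c n j‖ ≤ C * |(n : ℝ)| ^ A

/-! ### Orthogonality -/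

theorem PF9_orth1 (m : ℤ) : ∫ x in Set.Ioc (0 : ℝ) 1, ee ((m : ℂ) * (x : ℂ)) =
    if m = 0 then 1 else 0 := by
  rw [← intervalIntegral.integral_of_le zero_le_one]
  by_cases hm : m = 0
  · rw [if_pos hm, hm]
    simp [ee]
  · rw [if_neg hm]
    have h0 : (2 * (π : ℂ) * Complex.I * (m : ℂ)) ≠ 0 := by
      have h1 : (m : ℂ) ≠ 0 := by exact_mod_cast hm
      exact mul_ne_zero Complex.two_pi_I_ne_zero h1
    have h1 : (fun x : ℝ => ee ((m : ℂ) * (x : ℂ))) =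
        fun x : ℝ => Complex.exp ((2 * (π : ℂ) * Complex.I * (m : ℂ)) * (x : ℂ)) := by
      funext x
      unfold ee
      congr 1
      ring
    rw [h1, integral_exp_mul_complex h0]
    have h2 : Complex.exp (2 * (π : ℂ) * Complex.I * (m : ℂ) * ((1 : ℝ) : ℂ)) = 1 := by
      rw [Complex.exp_eq_one_iff]
      exact ⟨m, by push_cast; ring⟩
    rw [h2]
    simp

theorem PF9_orth (m₁ m₂ : ℤ) :
    ∫ t in Q2, ee ((m₁ : ℂ) * (t.1 : ℂ) + (m₂ : ℂ) * (t.2 : ℂ)) =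
      if m₁ = 0 ∧ m₂ = 0 then 1 else 0 := by
  have h1 : ∀ t : ℝ × ℝ, ee ((m₁ : ℂ) * (t.1 : ℂ) + (m₂ : ℂ) * (t.2 : ℂ)) =
      ee ((m₁ : ℂ) * (t.1 : ℂ)) * ee ((m₂ : ℂ) * (t.2 : ℂ)) := fun t => ee_add _ _
  simp only [h1]
  unfold Q2
  rw [Measure.volume_eq_prod, setIntegral_prod_mul (fun x : ℝ => ee ((m₁ : ℂ) * (x : ℂ)))
    (fun x : ℝ => ee ((m₂ : ℂ) * (x : ℂ))), PF9_orth1, PF9_orth1]
  by_cases h : m₁ = 0 <;> by_cases h' : m₂ = 0 <;> simp [h, h']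

/-! ### The bound -/

theorem PF9_sumz (A : ℕ) {a : ℝ} (ha : 0 < a) :
    Summable fun n : ℤ => |(n : ℝ)| ^ A * Real.exp (-(a * |(n : ℝ)|)) := by
  have h1 := Real.summable_pow_mul_exp_neg_nat_mul A ha
  refine Summable.of_nat_of_neg ?_ ?_
  · refine h1.congr fun n => ?_
    rw [Int.cast_natCast, abs_of_nonneg (Nat.cast_nonneg n), neg_mul]
  · refine h1.congr fun n => ?_
    rw [Int.cast_neg, abs_neg, Int.cast_natCast, abs_of_nonneg (Nat.cast_nonneg n), neg_mul]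

theorem PF9_abs_j {n j : ℤ} (hn : 0 < n) (hq : 0 < qf n j) : |(j : ℝ)| ≤ 2 * (n : ℝ) := by
  unfold qf at hq
  have h1 : |j| ≤ 2 * n := by
    rw [abs_le]
    constructor
    · by_contra hcon
      push Not at hcon
      nlinarith
    · by_contra hcon
      push Not at hcon
      nlinarith
  have h2 : ((|j| : ℤ) : ℝ) ≤ ((2 * n : ℤ) : ℝ) := by exact_mod_cast h1
  rw [Int.cast_abs] at h2
  push_cast at h2
  exact h2

/-- CHUNK PF9.  Absolute convergence, with a uniform bound for heights `≥ δ`.  Proof: if `c n j ≠ 0`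
then `ν, ν' > 0` (`nu_pos_iff`), `ν y₁ + ν' y₂ ≥ δ (ν + ν') = δ n`, and `|n - 2 j| < √5 n`, so
`|j| ≤ 2 n`; for fixed `n` at most `4 n + 1` values of `j`: take `u (n, j) = C |n|^A exp (-2 π δ |n|)` if
`|j| ≤ 2 |n|` and `0` otherwise; summable (`Real.summable_pow_mul_exp_neg_nat_mul` and the like). -/
theorem PF9_bound {c : ℤ → ℤ → ℂ} (hc : PG c) {δ : ℝ} (hδ : 0 < δ) :
    ∃ u : ℤ × ℤ → ℝ, Summable u ∧ ∀ (p : ℤ × ℤ) (z₁ z₂ : ℂ), δ ≤ z₁.im → δ ≤ z₂.im →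
      ‖c p.1 p.2 * ee ((nu1 p.1 p.2 : ℂ) * z₁ + (nu2 p.1 p.2 : ℂ) * z₂)‖ ≤ u p := by
  obtain ⟨hsupp, C, A, hC⟩ := hc
  have hπδ : 0 < π * δ := mul_pos Real.pi_pos hδ
  have hu1 := PF9_sumz A hπδ
  have hu2 : Summable fun n : ℤ => Real.exp (-((π * δ / 2) * |(n : ℝ)|)) := by
    have := PF9_sumz 0 (half_pos hπδ)
    simpa using this
  have hu := (hu1.mul_left |C|).mul_of_nonneg hu2 (fun n => by positivity) (fun n => by positivity)
  refine ⟨_, hu, fun p z₁ z₂ h₁ h₂ => ?_⟩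
  obtain ⟨n, j⟩ := p
  by_cases h0 : c n j = 0
  · simp only [h0, zero_mul, norm_zero]
    positivity
  obtain ⟨hn, hq⟩ := hsupp n j h0
  obtain ⟨hnu1, hnu2⟩ := (nu_pos_iff n j).2 ⟨hn, hq⟩
  have hn' : (0 : ℝ) < n := by exact_mod_cast hn
  have hj := PF9_abs_j hn hq
  have hadd := nu_add n j
  simp only
  rw [norm_mul, norm_ee]
  have him : ((nu1 n j : ℂ) * z₁ + (nu2 n j : ℂ) * z₂).im = nu1 n j * z₁.im + nu2 n j * z₂.im := by
    simp [Complex.add_im, Complex.mul_im]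
  rw [him]
  have h3 : δ * n ≤ nu1 n j * z₁.im + nu2 n j * z₂.im := by
    rw [← hadd]
    nlinarith [mul_le_mul_of_nonneg_left h₁ hnu1.le, mul_le_mul_of_nonneg_left h₂ hnu2.le]
  have h4 : Real.exp (-(2 * π * (nu1 n j * z₁.im + nu2 n j * z₂.im))) ≤
      Real.exp (-(π * δ * |(n : ℝ)|)) * Real.exp (-(π * δ / 2 * |(j : ℝ)|)) := by
    rw [← Real.exp_add]
    apply Real.exp_le_exp.2
    rw [abs_of_pos hn']
    have h5 := mul_le_mul_of_nonneg_left h3 Real.pi_pos.le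
    have h6 := mul_le_mul_of_nonneg_left hj (half_pos hπδ).le
    nlinarith
  have h7 : ‖c n j‖ ≤ |C| * |(n : ℝ)| ^ A :=
    (hC n j).trans (mul_le_mul_of_nonneg_right (le_abs_self C) (by positivity))
  calc ‖c n j‖ * Real.exp (-(2 * π * (nu1 n j * z₁.im + nu2 n j * z₂.im)))
      ≤ (|C| * |(n : ℝ)| ^ A) *
        (Real.exp (-(π * δ * |(n : ℝ)|)) * Real.exp (-(π * δ / 2 * |(j : ℝ)|))) :=
        mul_le_mul h7 h4 (Real.exp_pos _).le (by positivity)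
    _ = _ := by ring

/-- CHUNK PF9. -/
theorem PF9_summable {c : ℤ → ℤ → ℂ} (hc : PG c) {z₁ z₂ : ℂ} (h₁ : 0 < z₁.im)
    (h₂ : 0 < z₂.im) : Summable fun p : ℤ × ℤ =>
      c p.1 p.2 * ee ((nu1 p.1 p.2 : ℂ) * z₁ + (nu2 p.1 p.2 : ℂ) * z₂) := by
  obtain ⟨u, hu, h⟩ := PF9_bound hc (lt_min h₁ h₂)
  exact Summable.of_norm (Summable.of_nonneg_of_le (fun _ => norm_nonneg _)
    (fun p => h p z₁ z₂ (min_le_left _ _) (min_le_right _ _)) hu)

/-- CHUNK PF9.  Continuity (`continuous_tsum`). -/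
theorem PF9_cont {c : ℤ → ℤ → ℂ} (hc : PG c) {y₁ y₂ : ℝ} (h₁ : 0 < y₁) (h₂ : 0 < y₂) :
    Continuous fun t => HSe c (pz1 y₁ t) (pz2 y₂ t) := by
  obtain ⟨u, hu, h⟩ := PF9_bound hc (lt_min h₁ h₂)
  unfold HSe
  refine continuous_tsum (fun p => ?_) hu (fun p t => h p _ _ ?_ ?_)
  · have h3 := continuous_pz1 y₁
    have h4 := continuous_pz2 y₂
    have hee := continuous_ee
    fun_prop
  · rw [pz1_im]
    exact min_le_left _ _
  · rw [pz2_im]
    exact min_le_right _ _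

/-- CHUNK PF9.  The Fourier coefficients: termwise integration over `Q2`
(`hasSum_integral_of_summable_integral_norm`), `nu_pz`, orthogonality
(`∫ t in Q2, ee (m₁ t₁ + m₂ t₂) = [m₁ = m₂ = 0]`; prove it here or move `PF7_orth`). -/
theorem PF9_coeff {c : ℤ → ℤ → ℂ} (hc : PG c) {y₁ y₂ : ℝ} (h₁ : 0 < y₁) (h₂ : 0 < y₂)
    (n j : ℤ) :
    cf2 (fun t => HSe c (pz1 y₁ t) (pz2 y₂ t)) n j =
      c n j * (Real.exp (-(2 * π * (nu1 n j * y₁ + nu2 n j * y₂))) : ℂ) := by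
  obtain ⟨u, hu, h⟩ := PF9_bound hc (lt_min h₁ h₂)
  have hvol : (volume : Measure (ℝ × ℝ)).real Q2 = 1 := by
    unfold Q2
    rw [Measure.volume_eq_prod, Measure.real, Measure.prod_prod, Real.volume_Ioc]
    simp
  have hvol_lt : (volume : Measure (ℝ × ℝ)) Q2 < ⊤ := by
    unfold Q2
    rw [Measure.volume_eq_prod, Measure.prod_prod, Real.volume_Ioc]
    simp
  have hmeas : MeasurableSet Q2 := measurableSet_Ioc.prod measurableSet_Ioc
  let F : ℤ × ℤ → ℝ × ℝ → ℂ := fun p t =>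
    c p.1 p.2 * ee ((nu1 p.1 p.2 : ℂ) * pz1 y₁ t + (nu2 p.1 p.2 : ℂ) * pz2 y₂ t) *
      ee (-((n : ℂ) * (t.1 : ℂ) + (j : ℂ) * (t.2 : ℂ)))
  have hFc : ∀ p, Continuous (F p) := by
    intro p
    have h3 := continuous_pz1 y₁
    have h4 := continuous_pz2 y₂
    have hee := continuous_ee
    unfold F
    fun_prop
  have hFi : ∀ p, Integrable (F p) (volume.restrict Q2) := by
    intro p
    have h5 : IntegrableOn (F p) (Set.Icc (0 : ℝ) 1 ×ˢ Set.Icc (0 : ℝ) 1) :=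
      (hFc p).continuousOn.integrableOn_compact (isCompact_Icc.prod isCompact_Icc)
    exact h5.mono_set (Set.prod_mono Set.Ioc_subset_Icc_self Set.Ioc_subset_Icc_self)
  have hFb : ∀ p t, ‖F p t‖ ≤ u p := by
    intro p t
    have h6 : ‖ee (-((n : ℂ) * (t.1 : ℂ) + (j : ℂ) * (t.2 : ℂ)))‖ = 1 := by
      rw [norm_ee]
      simp
    show ‖_ * _‖ ≤ u p
    rw [norm_mul, h6, mul_one]
    exact h p _ _ (by rw [pz1_im]; exact min_le_left _ _) (by rw [pz2_im]; exact min_le_right _ _)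
  have hFn : ∀ p, (∫ t in Q2, ‖F p t‖) ≤ u p := by
    intro p
    have h5 : (∫ t in Q2, ‖F p t‖) ≤ ∫ _t in Q2, u p :=
      setIntegral_mono_on (hFi p).norm (integrableOn_const (hs := hvol_lt.ne)) hmeas
        (fun t _ => hFb p t)
    rw [setIntegral_const, hvol, one_smul] at h5
    exact h5
  have hFs : Summable fun p => ∫ t in Q2, ‖F p t‖ :=
    Summable.of_nonneg_of_le (fun p => integral_nonneg fun t => norm_nonneg _) hFn hu
  have hmain := (hasSum_integral_of_summable_integral_norm hFi hFs).tsum_eq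
  have hL : cf2 (fun t => HSe c (pz1 y₁ t) (pz2 y₂ t)) n j = ∫ t in Q2, ∑' p, F p t := by
    unfold cf2
    refine integral_congr_ae (Filter.Eventually.of_forall fun t => ?_)
    simp only
    unfold HSe
    rw [← tsum_mul_right]
  rw [hL, ← hmain]
  have hterm : ∀ p : ℤ × ℤ, (∫ t in Q2, F p t) =
      if p = (n, j) then c n j * (Real.exp (-(2 * π * (nu1 n j * y₁ + nu2 n j * y₂))) : ℂ)
      else 0 := by
    rintro ⟨a, b⟩
    have h7 : ∀ t : ℝ × ℝ, F (a, b) t =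
        (c a b * (Real.exp (-(2 * π * (nu1 a b * y₁ + nu2 a b * y₂))) : ℂ)) *
          ee (((a - n : ℤ) : ℂ) * (t.1 : ℂ) + ((b - j : ℤ) : ℂ) * (t.2 : ℂ)) := by
      intro t
      show c a b * ee ((nu1 a b : ℂ) * pz1 y₁ t + (nu2 a b : ℂ) * pz2 y₂ t) *
        ee (-((n : ℂ) * (t.1 : ℂ) + (j : ℂ) * (t.2 : ℂ))) = _
      rw [nu_pz, mul_assoc, ← ee_add, mul_assoc]
      congr 1
      have h8 : (a : ℂ) * (t.1 : ℂ) + (b : ℂ) * (t.2 : ℂ) +
          ((nu1 a b * y₁ + nu2 a b * y₂ : ℝ) : ℂ) * Complex.I +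
          -((n : ℂ) * (t.1 : ℂ) + (j : ℂ) * (t.2 : ℂ)) =
          ((nu1 a b * y₁ + nu2 a b * y₂ : ℝ) : ℂ) * Complex.I +
          (((a - n : ℤ) : ℂ) * (t.1 : ℂ) + ((b - j : ℤ) : ℂ) * (t.2 : ℂ)) := by
        push_cast
        ring
      rw [h8, ee_add]
      congr 1
      unfold ee
      rw [Complex.ofReal_exp]
      congr 1
      have hI : Complex.I * Complex.I = -1 := Complex.I_mul_I
      push_cast
      linear_combination (2 * (π : ℂ) * ((nu1 a b : ℂ) * y₁ + (nu2 a b : ℂ) * y₂)) * hI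
    simp only [h7]
    rw [integral_const_mul, PF9_orth]
    by_cases hp : (a, b) = (n, j)
    · obtain ⟨rfl, rfl⟩ := Prod.mk.inj hp
      rw [if_pos rfl, if_pos ⟨sub_self _, sub_self _⟩, mul_one]
    · rw [if_neg hp, if_neg, mul_zero]
      rintro ⟨h8, h9⟩
      exact hp (Prod.ext (by simpa using sub_eq_zero.1 h8) (by simpa using sub_eq_zero.1 h9))
  rw [tsum_congr hterm, tsum_ite_eq]

end H94M
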