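import Pool.Agent.Lib.H94M.PF3
import Pool.Agent.Lib.H94M.PL2
import Pool.Agent.Lib.H94M.PF9

set_option autoImplicit false

/-!
CHUNK PF7 (M).  The part `a = 0` of the Fourier coefficient of the kernel.
-/

namespace H94M

open Real MeasureTheory

/-- CHUNK PF7.  Orthogonality on the unit square. -/
theorem PF7_orth (m₁ m₂ : ℤ) :
    ∫ t in Q2, ee ((m₁ : ℂ) * (t.1 : ℂ) + (m₂ : ℂ) * (t.2 : ℂ)) =
      if m₁ = 0 ∧ m₂ = 0 then 1 else 0 := PF9_orth m₁ m₂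

/-! ### Arithmetic -/

theorem PF7_div {x y μ : ℤ} (hq : qf x y = 5 * μ) :
    ∃ x' y' : ℤ, 2 * x + y = 5 * x' ∧ x - 2 * y = 5 * y' := by
  unfold qf at hq
  have h1 : (5 : ℤ) ∣ (x + 3 * y) ^ 2 := by
    refine ⟨μ + x * y + 2 * y ^ 2, ?_⟩
    linear_combination hq
  have h2 : (5 : ℤ) ∣ x + 3 * y := Int.Prime.dvd_pow' (by norm_num) h1
  obtain ⟨c, hc⟩ := h2
  exact ⟨2 * c - y, c - y, by linarith, by linarith⟩

theorem PF7_Xf (x y b : ℤ) (y₁ y₂ : ℝ) (t : ℝ × ℝ) :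
    Xf (0, x, y, b) (pz1 y₁ t) (pz2 y₂ t) =
      (((2 * x + y : ℤ) : ℂ) * (t.1 : ℂ) + ((x - 2 * y : ℤ) : ℂ) * (t.2 : ℂ) +
        ((((x : ℝ) + y * w1) * y₁ + ((x : ℝ) + y * w2) * y₂ : ℝ) : ℂ) * Complex.I) + (b : ℂ) := by
  have h1 : ((w1 : ℂ) + (w2 : ℂ)) = 1 := by exact_mod_cast w_add
  have h2 : ((w1 : ℂ) * (w2 : ℂ)) = -1 := by exact_mod_cast w_mul
  unfold Xf pz1 pz2
  push_cast
  linear_combination ((y : ℂ) * t.1 + (x : ℂ) * t.2) * h1 + (2 * (y : ℂ) * t.2) * h2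

theorem PF7_ee_im (a : ℝ) : ee ((a : ℂ) * Complex.I) = (Real.exp (-(2 * π * a)) : ℂ) := by
  unfold ee
  rw [Complex.ofReal_exp]
  congr 1
  have hI : Complex.I * Complex.I = -1 := Complex.I_mul_I
  push_cast
  linear_combination (2 * (π : ℂ) * (a : ℂ)) * hI

/-- CHUNK PF7.  Fixed `(x, y)` with `qf x y = 5 μ`, `l = x + y ω > 0` (so `l' > 0`).  Proof.
`5 ∣ qf x y ≡ (x + 3 y)² mod 5`, so `2 x + y = 5 x'`, `x - 2 y = 5 y'`; with `t` in the plane
`l z₁ + l' z₂ = 5 x' t₁ + 5 y' t₂ + i h`, `h = l y₁ + l' y₂ > 0` (`w1 + w2 = 1`, `w1 w2 = -1`).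
Interchange the sum over `b` and the integral over `Q2` (the terms `χ (b) / Xf^k` are bounded by
`const / (1 + |b|)^2` on `Q2`, or use `PK3_bound`), apply `PL2_lipschitz` with
`τ = l z₁ + l' z₂` and interchange again (`∑ r^(k-1) exp (-2 π r h/5) < ∞`); by `PF7_orth`
`∫ e (r τ/5) e (-(n t₁ + j t₂)) = exp (-2 π r h/5)` if `r x' = n`, `r y' = j`, and `0` otherwise; in the
first case `r l/5 = ν (n, j)`, `r h/5 = ν y₁ + ν' y₂`. -/
theorem PF7_inner (k μ : ℕ) (hk : 4 ≤ k) (hμ : 1 ≤ μ) {y₁ y₂ : ℝ} (h₁ : 0 < y₁)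
    (h₂ : 0 < y₂) (n j x y : ℤ) (hq : qf x y = 5 * (μ : ℤ)) (hl : 0 < (x : ℝ) + y * w1) :
    ∑' b : ℤ, TX k y₁ y₂ n j (0, x, y, b) =
      (Real.exp (-(2 * π * (nu1 n j * y₁ + nu2 n j * y₂))) : ℂ) * CC k *
        ∑' r : ℕ, if 0 < r ∧ 5 * n = r * (2 * x + y) ∧ 5 * j = r * (x - 2 * y) then
          (chi r : ℂ) * (r : ℂ) ^ (k - 1) else 0 := by
  obtain ⟨x', y', hx', hy'⟩ := PF7_div hq
  have hl' : 0 < (x : ℝ) + y * w2 := by
    have h3 := qf_eq x y
    rw [hq] at h3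
    have h4 : (0 : ℝ) < ((5 * (μ : ℤ) : ℤ) : ℝ) := by
      push_cast
      have : (1 : ℝ) ≤ μ := by exact_mod_cast hμ
      linarith
    rw [← h3] at h4
    exact (mul_pos_iff_of_pos_left hl).1 h4
  obtain ⟨h, hh⟩ : ∃ h : ℝ, h = ((x : ℝ) + y * w1) * y₁ + ((x : ℝ) + y * w2) * y₂ := ⟨_, rfl⟩
  have hh0 : 0 < h := by rw [hh]; positivity
  let τ : ℝ × ℝ → ℂ := fun t => ((2 * x + y : ℤ) : ℂ) * (t.1 : ℂ) + ((x - 2 * y : ℤ) : ℂ) * (t.2 : ℂ) +
        (h : ℂ) * Complex.I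
  have hτim : ∀ t, (τ t).im = h := by
    intro t
    simp [τ]
  have hXf : ∀ (b : ℤ) (t : ℝ × ℝ), Xf (0, x, y, b) (pz1 y₁ t) (pz2 y₂ t) = τ t + (b : ℂ) := by
    intro b t
    rw [PF7_Xf, ← hh]
  -- the first interchange
  have hmem : ∀ b : ℤ, ((0, x, y, b) : Ix) ∈ XS 0 μ := by
    intro b
    refine ⟨dvd_refl _, ?_⟩
    show qf x y - 0 * b = 5 * (μ : ℤ)
    rw [zero_mul, sub_zero, hq]
  obtain ⟨u, hus, hu⟩ := PK3_bound k 0 μ hk hμ (3 + y₁ + y₂) (min y₁ y₂) (lt_min h₁ h₂)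
  let u' : ℤ → ℝ := fun b => u ⟨(0, x, y, b), hmem b⟩
  have hu's : Summable u' := by
    refine hus.comp_injective (i := fun b : ℤ => (⟨(0, x, y, b), hmem b⟩ : XS 0 μ)) ?_
    intro b b' hb
    have h3 := congrArg Subtype.val hb
    simp only [Prod.mk.injEq, true_and] at h3
    exact h3
  have hne : ∀ (b : ℤ) (t : ℝ × ℝ), Xf (0, x, y, b) (pz1 y₁ t) (pz2 y₂ t) ≠ 0 := fun b t =>
    PK3_ne 0 μ hμ ⟨(0, x, y, b), hmem b⟩ (by rw [pz1_im]; exact h₁) (by rw [pz2_im]; exact h₂)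
  let F : ℤ → ℝ × ℝ → ℂ := fun b t => (chi b : ℂ) *
    (ee (-((n : ℂ) * (t.1 : ℂ) + (j : ℂ) * (t.2 : ℂ))) / Xf (0, x, y, b) (pz1 y₁ t) (pz2 y₂ t) ^ k)
  have hFi : ∀ b, Integrable (F b) (volume.restrict Q2) := fun b =>
    (PF3_int k n j (0, x, y, b) (hne b)).const_mul _
  have hFb : ∀ b, ∀ t ∈ Q2, ‖F b t‖ ≤ u' b := by
    intro b t ht
    obtain ⟨hb1, hb2⟩ := PF3_pz_bound h₁ h₂ t ht
    have h3 := (hu ⟨(0, x, y, b), hmem b⟩ (pz1 y₁ t) (pz2 y₂ t) (by rw [pz1_im]; exact min_le_left _ _)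
      (by rw [pz2_im]; exact min_le_right _ _) hb1 hb2).2.2
    have h4 : F b t = ((chi b : ℂ) / Xf (0, x, y, b) (pz1 y₁ t) (pz2 y₂ t) ^ k) *
        ee (-((n : ℂ) * (t.1 : ℂ) + (j : ℂ) * (t.2 : ℂ))) := by
      simp only [F]
      ring
    rw [h4, norm_mul, PF3_norm_ee, mul_one]
    exact h3
  have hint_le : ∀ {G : ℝ × ℝ → ℂ} {c : ℝ}, Integrable G (volume.restrict Q2) →
      (∀ t ∈ Q2, ‖G t‖ ≤ c) → (∫ t in Q2, ‖G t‖) ≤ c := by
    intro G c hG hb
    have h5 : (∫ t in Q2, ‖G t‖) ≤ ∫ _t in Q2, c :=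
      setIntegral_mono_on hG.norm (integrableOn_const (hs := PF3_vol_lt.ne)) PF3_meas hb
    rw [setIntegral_const, PF3_vol, one_smul] at h5
    exact h5
  have hFs : Summable fun b => ∫ t in Q2, ‖F b t‖ :=
    Summable.of_nonneg_of_le (fun b => integral_nonneg fun t => norm_nonneg _)
      (fun b => hint_le (hFi b) (hFb b)) hu's
  have hFT : ∀ b : ℤ, (∫ t in Q2, F b t) = TX k y₁ y₂ n j (0, x, y, b) := by
    intro b
    unfold TX
    exact integral_const_mul _ _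
  have hA : ∑' b : ℤ, TX k y₁ y₂ n j (0, x, y, b) = ∫ t in Q2, ∑' b, F b t := by
    rw [← (hasSum_integral_of_summable_integral_norm hFi hFs).tsum_eq]
    exact tsum_congr fun b => (hFT b).symm
  -- the Lipschitz formula
  let G : ℕ → ℝ × ℝ → ℂ := fun r t => ((chi r : ℂ) * (r : ℂ) ^ (k - 1) * ee ((r : ℂ) * τ t / 5)) *
    ee (-((n : ℂ) * (t.1 : ℂ) + (j : ℂ) * (t.2 : ℂ)))
  have hB : ∀ t : ℝ × ℝ, ∑' b, F b t = CC k * ∑' r, G r t := by
    intro t
    have h3 := (PL2_lipschitz k (by omega) (τ := τ t) (by rw [hτim]; exact hh0)).2.2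
    have h4 : ∑' b, F b t = (∑' b : ℤ, (chi b : ℂ) / (τ t + (b : ℂ)) ^ k) *
        ee (-((n : ℂ) * (t.1 : ℂ) + (j : ℂ) * (t.2 : ℂ))) := by
      rw [← tsum_mul_right]
      refine tsum_congr fun b => ?_
      simp only [F, hXf]
      ring
    rw [h4, h3, mul_assoc, ← tsum_mul_right]
  -- the second interchange
  have hG1 : ∀ r t, G r t = ((chi r : ℂ) * (r : ℂ) ^ (k - 1) *
      (Real.exp (-(2 * π * (r * h / 5))) : ℂ)) *
      ee (((r * x' - n : ℤ) : ℂ) * (t.1 : ℂ) + ((r * y' - j : ℤ) : ℂ) * (t.2 : ℂ)) := by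
    intro r t
    simp only [G]
    rw [mul_assoc, ← ee_add, mul_assoc ((chi r : ℂ) * (r : ℂ) ^ (k - 1))]
    congr 1
    have hx'' : (((2 * x + y : ℤ)) : ℂ) = 5 * (x' : ℂ) := by
      rw [hx']; push_cast; ring
    have hy'' : (((x - 2 * y : ℤ)) : ℂ) = 5 * (y' : ℂ) := by
      rw [hy']; push_cast; ring
    have h8 : (r : ℂ) * τ t / 5 + -((n : ℂ) * (t.1 : ℂ) + (j : ℂ) * (t.2 : ℂ)) =
        ((r * h / 5 : ℝ) : ℂ) * Complex.I +
          (((r * x' - n : ℤ) : ℂ) * (t.1 : ℂ) + ((r * y' - j : ℤ) : ℂ) * (t.2 : ℂ)) := by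
      simp only [τ]
      rw [hx'', hy'']
      push_cast
      ring
    rw [h8, ee_add, PF7_ee_im]
  have hGc : ∀ r, Continuous (G r) := by
    intro r
    have hee := continuous_ee
    simp only [G, τ]
    fun_prop
  have hGi : ∀ r, Integrable (G r) (volume.restrict Q2) := by
    intro r
    have h5 : IntegrableOn (G r) (Set.Icc (0 : ℝ) 1 ×ˢ Set.Icc (0 : ℝ) 1) :=
      (hGc r).continuousOn.integrableOn_compact (isCompact_Icc.prod isCompact_Icc)
    exact h5.mono_set (Set.prod_mono Set.Ioc_subset_Icc_self Set.Ioc_subset_Icc_self)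
  have hGb : ∀ r, ∀ t ∈ Q2, ‖G r t‖ ≤ (r : ℝ) ^ (k - 1) * Real.exp (-(2 * π * h / 5) * r) := by
    intro r t _
    rw [hG1, norm_mul, norm_mul, norm_mul, norm_pow, Complex.norm_natCast, Complex.norm_real,
      Real.norm_of_nonneg (Real.exp_pos _).le, norm_ee]
    have h5 := norm_chi_le r
    have h6 : (((r * x' - n : ℤ) : ℂ) * (t.1 : ℂ) + ((r * y' - j : ℤ) : ℂ) * (t.2 : ℂ)).im = 0 := by
      simp
    rw [h6, mul_zero, neg_zero, Real.exp_zero, mul_one]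
    have h7 : -(2 * π * (r * h / 5)) = -(2 * π * h / 5) * r := by ring
    rw [h7]
    exact mul_le_mul_of_nonneg_right (mul_le_of_le_one_left (by positivity) h5) (Real.exp_pos _).le
  have hGs : Summable fun r => ∫ t in Q2, ‖G r t‖ :=
    Summable.of_nonneg_of_le (fun r => integral_nonneg fun t => norm_nonneg _)
      (fun r => hint_le (hGi r) (hGb r))
      (Real.summable_pow_mul_exp_neg_nat_mul (k - 1) (by positivity : 0 < 2 * π * h / 5))
  have hC : (∫ t in Q2, ∑' r, G r t) = ∑' r, ∫ t in Q2, G r t :=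
    (hasSum_integral_of_summable_integral_norm hGi hGs).tsum_eq.symm
  rw [hA]
  have hD : (∫ t in Q2, ∑' b, F b t) = CC k * ∫ t in Q2, ∑' r, G r t := by
    rw [← integral_const_mul]
    exact integral_congr_ae (Filter.Eventually.of_forall fun t => hB t)
  rw [hD, hC, mul_comm ((Real.exp (-(2 * π * (nu1 n j * y₁ + nu2 n j * y₂))) : ℂ)), mul_assoc]
  congr 1
  rw [← tsum_mul_left]
  refine tsum_congr fun r => ?_
  have h9 : (∫ t in Q2, G r t) = ((chi r : ℂ) * (r : ℂ) ^ (k - 1) *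
      (Real.exp (-(2 * π * (r * h / 5))) : ℂ)) * if (r * x' - n : ℤ) = 0 ∧ (r * y' - j : ℤ) = 0
        then 1 else 0 := by
    simp only [hG1]
    rw [integral_const_mul, PF7_orth]
  rw [h9]
  by_cases hr : r = 0
  · rw [hr]
    have h10 : ((0 : ℕ) : ℂ) ^ (k - 1) = 0 := by
      rw [Nat.cast_zero, zero_pow (by omega)]
    simp only [h10, lt_irrefl, false_and, if_false, mul_zero, zero_mul]
  have hr0 : 0 < r := Nat.pos_of_ne_zero hr
  by_cases hcond : (r * x' - n : ℤ) = 0 ∧ (r * y' - j : ℤ) = 0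
  · obtain ⟨hc1, hc2⟩ := hcond
    have hn : n = r * x' := by linarith
    have hj : j = r * y' := by linarith
    rw [if_pos ⟨hc1, hc2⟩, if_pos ⟨hr0, by rw [hx', hn]; ring, by rw [hy', hj]; ring⟩, mul_one,
      mul_comm]
    congr 3
    have h5 : √5 * √5 = 5 := Real.mul_self_sqrt (by norm_num)
    have h50 : √5 ≠ 0 := by positivity
    have hxr : (5 : ℝ) * x' = 2 * x + y := by exact_mod_cast hx'.symm
    have hyr : (5 : ℝ) * y' = x - 2 * y := by exact_mod_cast hy'.symm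
    have hnr : (n : ℝ) = r * x' := by rw [hn]; push_cast; ring
    have hjr : (j : ℝ) = r * y' := by rw [hj]; push_cast; ring
    have hd : ((n : ℝ) - 2 * j) / √5 = r * y * √5 / 5 := by
      rw [div_eq_iff h50, hnr, hjr]
      have : (x' : ℝ) - 2 * y' = y := by linarith
      have h6 : (r : ℝ) * x' - 2 * (r * y') = r * y := by rw [← this]; ring
      rw [h6]
      have h7 : (r : ℝ) * y * √5 / 5 * √5 = r * y * (√5 * √5) / 5 := by ring
      rw [h7, h5]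
      ring
    have hn5 : (n : ℝ) = r * (2 * x + y) / 5 := by rw [hnr, ← hxr]; ring
    rw [hh]
    unfold nu1 nu2
    rw [hd, hn5]
    unfold w1 w2
    ring
  · rw [if_neg hcond, if_neg, mul_zero, mul_zero]
    rintro ⟨-, hc1, hc2⟩
    apply hcond
    rw [hx'] at hc1
    rw [hy'] at hc2
    constructor
    · have : 5 * (r * x' - n) = 0 := by linarith
      omega
    · have : 5 * (r * y' - j) = 0 := by linarith
      omega

/-- CHUNK PF7.  **The part `a = 0`.**  Proof.  Sum `PF7_inner` over `(x, y)`: a pair `(x, y)` and `r ≥ 1`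
with `5 n = r (2 x + y)`, `5 j = r (x - 2 y)`, `qf x y = 5 μ`, `x + y ω > 0` is the same as `r ≥ 1` with
`r ∣ n`, `r ∣ j`, `qf n j = r² μ`, `n > 0` (`2 x + y = 5 x'`, `x - 2 y = 5 y'`; `x = 2 x' + y'`,
`y = x' - 2 y'`, `n = r x'`, `j = r y'`, `qf x y = 5 qf x' y'`; `5 μ = N (l) > 0`, so `l > 0` iff
`Tr l = 2 x + y > 0` iff `n > 0`); all sums have finitely many nonzero terms. -/
theorem PF7_total (k μ : ℕ) (hk : 4 ≤ k) (hμ : 1 ≤ μ) {y₁ y₂ : ℝ} (h₁ : 0 < y₁)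
    (h₂ : 0 < y₂) (n j : ℤ) :
    ∑' p : ℤ × ℤ, ∑' b : ℤ, (if qf p.1 p.2 = 5 * (μ : ℤ) ∧ 0 < (p.1 : ℝ) + p.2 * w1 then
        TX k y₁ y₂ n j (0, p.1, p.2, b) else 0) =
      (Real.exp (-(2 * π * (nu1 n j * y₁ + nu2 n j * y₂))) : ℂ) * CC k *
        (if 0 < n ∧ 0 < qf n j then
          ∑ r ∈ (Int.gcd n j).divisors, (chi r : ℂ) * (r : ℂ) ^ (k - 1) *
            (if qf n j / (r : ℤ) ^ 2 = (μ : ℤ) then 1 else 0)
        else 0) := by
  classical
  -- the terms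
  let f : ℤ × ℤ → ℕ → ℂ := fun p r =>
    if (qf p.1 p.2 = 5 * (μ : ℤ) ∧ 0 < (p.1 : ℝ) + p.2 * w1) ∧
      (0 < r ∧ 5 * n = r * (2 * p.1 + p.2) ∧ 5 * j = r * (p.1 - 2 * p.2)) then
      (chi r : ℂ) * (r : ℂ) ^ (k - 1) else 0
  have hin : ∀ p : ℤ × ℤ, ∑' b : ℤ, (if qf p.1 p.2 = 5 * (μ : ℤ) ∧ 0 < (p.1 : ℝ) + p.2 * w1 then
        TX k y₁ y₂ n j (0, p.1, p.2, b) else 0) =
      (Real.exp (-(2 * π * (nu1 n j * y₁ + nu2 n j * y₂))) : ℂ) * CC k * ∑' r, f p r := by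
    intro p
    by_cases hp : qf p.1 p.2 = 5 * (μ : ℤ) ∧ 0 < (p.1 : ℝ) + p.2 * w1
    · simp only [if_pos hp]
      rw [PF7_inner k μ hk hμ h₁ h₂ n j p.1 p.2 hp.1 hp.2]
      congr 1
      refine tsum_congr fun r => ?_
      simp only [f]
      by_cases hr : 0 < r ∧ 5 * n = r * (2 * p.1 + p.2) ∧ 5 * j = r * (p.1 - 2 * p.2)
      · rw [if_pos hr, if_pos ⟨hp, hr⟩]
      · rw [if_neg hr, if_neg fun h => hr h.2]
    · simp only [if_neg hp, tsum_zero]
      have h3 : ∀ r, f p r = 0 := fun r => if_neg fun h => hp h.1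
      simp only [h3, tsum_zero, mul_zero]
  rw [tsum_congr hin, tsum_mul_left]
  congr 1
  let R := (Int.gcd n j).divisors
  let P : ℕ → ℤ × ℤ := fun r => (2 * (n / r) + j / r, n / r - 2 * (j / r))
  -- the equations
  have heq : ∀ (p : ℤ × ℤ) (r : ℕ), 0 < r → (5 * n = r * (2 * p.1 + p.2)) →
      (5 * j = r * (p.1 - 2 * p.2)) → qf p.1 p.2 = 5 * (μ : ℤ) →
      (r : ℤ) ∣ n ∧ (r : ℤ) ∣ j ∧ p = P r := by
    intro p r hr h3 h4 h5
    obtain ⟨x', y', hx', hy'⟩ := PF7_div h5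
    have hr0 : (r : ℤ) ≠ 0 := by exact_mod_cast hr.ne'
    have hn : n = r * x' := by
      rw [hx'] at h3
      have : 5 * (n - r * x') = 0 := by linarith
      omega
    have hj : j = r * y' := by
      rw [hy'] at h4
      have : 5 * (j - r * y') = 0 := by linarith
      omega
    refine ⟨⟨x', hn⟩, ⟨y', hj⟩, ?_⟩
    have h6 : n / r = x' := by rw [hn, Int.mul_ediv_cancel_left _ hr0]
    have h7 : j / r = y' := by rw [hj, Int.mul_ediv_cancel_left _ hr0]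
    apply Prod.ext
    · show p.1 = 2 * (n / r) + j / r
      rw [h6, h7]
      linarith
    · show p.2 = n / r - 2 * (j / r)
      rw [h6, h7]
      linarith
  have hf0 : ∀ (p : ℤ × ℤ) (r : ℕ), f p r ≠ 0 → r ∈ R ∧ p = P r := by
    intro p r h
    have h3 : (qf p.1 p.2 = 5 * (μ : ℤ) ∧ 0 < (p.1 : ℝ) + p.2 * w1) ∧
      (0 < r ∧ 5 * n = r * (2 * p.1 + p.2) ∧ 5 * j = r * (p.1 - 2 * p.2)) := by
      by_contra hcon
      exact h (if_neg hcon)
    obtain ⟨⟨h4, h5⟩, h6, h7, h8⟩ := h3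
    obtain ⟨h9, h10, h11⟩ := heq p r h6 h7 h8 h4
    refine ⟨?_, h11⟩
    rw [Nat.mem_divisors]
    refine ⟨Int.natCast_dvd_natCast.1 (Int.dvd_coe_gcd h9 h10), ?_⟩
    intro h12
    rw [Int.gcd_eq_zero_iff] at h12
    obtain ⟨h13, h14⟩ := h12
    rw [h13] at h7
    rw [h14] at h8
    have hr0 : (r : ℤ) ≠ 0 := by exact_mod_cast h6.ne'
    have h15 : 2 * p.1 + p.2 = 0 := by
      rcases mul_eq_zero.1 (h7.symm.trans (mul_zero 5)) with h | h
      · exact absurd h hr0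
      · exact h
    have h16 : p.1 - 2 * p.2 = 0 := by
      rcases mul_eq_zero.1 (h8.symm.trans (mul_zero 5)) with h | h
      · exact absurd h hr0
      · exact h
    have h17 : p.1 = 0 := by omega
    have h18 : p.2 = 0 := by omega
    rw [h17, h18] at h4
    unfold qf at h4
    have : (1 : ℤ) ≤ μ := by exact_mod_cast hμ
    omega
  have h3 : ∀ p, ∑' r, f p r = ∑ r ∈ R, f p r := by
    intro p
    refine tsum_eq_sum fun r hr => ?_
    by_contra hcon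
    exact hr (hf0 p r hcon).1
  rw [tsum_congr h3, Summable.tsum_finsetSum]
  swap
  · intro r _
    refine summable_of_ne_finset_zero (s := {P r}) fun p hp => ?_
    by_contra hcon
    exact hp (Finset.mem_singleton.2 (hf0 p r hcon).2)
  have h4 : ∀ r ∈ R, ∑' p, f p r = f (P r) r := by
    intro r _
    refine tsum_eq_single (P r) fun p hp => ?_
    by_contra hcon
    exact hp (hf0 p r hcon).2
  rw [Finset.sum_congr rfl h4]
  -- the value at `P r`
  have hval : ∀ r ∈ R, 0 < r ∧ ∃ x' y' : ℤ, n = r * x' ∧ j = r * y' ∧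
      P r = (2 * x' + y', x' - 2 * y') := by
    intro r hr
    rw [Nat.mem_divisors] at hr
    obtain ⟨h5, h6⟩ := hr
    have hr0 : 0 < r := Nat.pos_of_dvd_of_pos h5 (Nat.pos_of_ne_zero h6)
    have h7 : (r : ℤ) ∣ n := (Int.natCast_dvd_natCast.2 h5).trans (Int.gcd_dvd_left ..)
    have h8 : (r : ℤ) ∣ j := (Int.natCast_dvd_natCast.2 h5).trans (Int.gcd_dvd_right ..)
    obtain ⟨x', hx'⟩ := h7
    obtain ⟨y', hy'⟩ := h8
    have hr1 : (r : ℤ) ≠ 0 := by exact_mod_cast hr0.ne'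
    refine ⟨hr0, x', y', hx', hy', ?_⟩
    simp only [P]
    rw [hx', hy', Int.mul_ediv_cancel_left _ hr1, Int.mul_ediv_cancel_left _ hr1]
  have hqf : ∀ x' y' : ℤ, qf (2 * x' + y') (x' - 2 * y') = 5 * qf x' y' := by
    intro x' y'
    unfold qf
    ring
  have hqr : ∀ r x' y' : ℤ, qf (r * x') (r * y') = r ^ 2 * qf x' y' := by
    intro r x' y'
    unfold qf
    ring
  have hfP : ∀ r ∈ R, f (P r) r = if 0 < n ∧ qf n j / (r : ℤ) ^ 2 = (μ : ℤ) then
      (chi r : ℂ) * (r : ℂ) ^ (k - 1) else 0 := by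
    intro r hr
    obtain ⟨hr0, x', y', hn, hj, hP⟩ := hval r hr
    have hr1 : (0 : ℤ) < r := by exact_mod_cast hr0
    have hdiv : qf n j / (r : ℤ) ^ 2 = qf x' y' := by
      rw [hn, hj, hqr, Int.mul_ediv_cancel_left _ (by positivity)]
    have hiff : ((qf (P r).1 (P r).2 = 5 * (μ : ℤ) ∧ 0 < ((P r).1 : ℝ) + (P r).2 * w1) ∧
        (0 < r ∧ 5 * n = r * (2 * (P r).1 + (P r).2) ∧ 5 * j = r * ((P r).1 - 2 * (P r).2))) ↔
        (0 < n ∧ qf n j / (r : ℤ) ^ 2 = (μ : ℤ)) := by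
      rw [hdiv, hP]
      simp only
      rw [hqf]
      constructor
      · rintro ⟨⟨h5, h6⟩, -⟩
        have h7 : qf x' y' = μ := by omega
        refine ⟨?_, h7⟩
        have h8 := qf_eq (2 * x' + y') (x' - 2 * y')
        rw [hqf, h7] at h8
        have h9 : (0 : ℝ) < ((5 * (μ : ℤ) : ℤ) : ℝ) := by
          push_cast
          have : (1 : ℝ) ≤ μ := by exact_mod_cast hμ
          linarith
        rw [← h8] at h9
        have h10 := (mul_pos_iff_of_pos_left h6).1 h9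
        have h11 := w_add
        have h12 : (0 : ℝ) < x' := by
          push_cast at h6 h10
          have h13 : w2 = 1 - w1 := by linarith
          rw [h13] at h10
          nlinarith
        have h14 : 0 < x' := by exact_mod_cast h12
        rw [hn]
        positivity
      · rintro ⟨h5, h6⟩
        have h7 : 0 < x' := by
          rw [hn] at h5
          exact (mul_pos_iff_of_pos_left hr1).1 h5
        refine ⟨⟨by rw [h6], ?_⟩, hr0, by rw [hn]; ring, by rw [hj]; ring⟩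
        have h8 := qf_eq (2 * x' + y') (x' - 2 * y')
        rw [hqf, h6] at h8
        have h9 : (0 : ℝ) < ((5 * (μ : ℤ) : ℤ) : ℝ) := by
          push_cast
          have : (1 : ℝ) ≤ μ := by exact_mod_cast hμ
          linarith
        rw [← h8] at h9
        rcases pos_and_pos_or_neg_and_neg_of_mul_pos h9 with h10 | h10
        · exact h10.1
        · exfalso
          obtain ⟨h11, h12⟩ := h10
          have h13 := w_add
          have h14 : w2 = 1 - w1 := by linarith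
          have h15 : (0 : ℝ) < x' := by exact_mod_cast h7
          rw [h14] at h12
          push_cast at h11 h12
          nlinarith
    simp only [f]
    by_cases h5 : 0 < n ∧ qf n j / (r : ℤ) ^ 2 = (μ : ℤ)
    · rw [if_pos h5, if_pos (hiff.2 h5)]
    · rw [if_neg h5, if_neg fun h => h5 (hiff.1 h)]
  rw [Finset.sum_congr rfl hfP]
  by_cases hn : 0 < n ∧ 0 < qf n j
  · rw [if_pos hn]
    refine Finset.sum_congr rfl fun r _ => ?_
    by_cases h5 : qf n j / (r : ℤ) ^ 2 = (μ : ℤ)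
    · rw [if_pos ⟨hn.1, h5⟩, if_pos h5, mul_one]
    · rw [if_neg fun h => h5 h.2, if_neg h5, mul_zero]
  · rw [if_neg hn]
    refine Finset.sum_eq_zero fun r hr => ?_
    rw [if_neg]
    rintro ⟨h5, h6⟩
    apply hn
    refine ⟨h5, ?_⟩
    obtain ⟨hr0, x', y', hn', hj', -⟩ := hval r hr
    have hr1 : (0 : ℤ) < r := by exact_mod_cast hr0
    have hdiv : qf n j / (r : ℤ) ^ 2 = qf x' y' := by
      rw [hn', hj', hqr, Int.mul_ediv_cancel_left _ (by positivity)]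
    rw [hdiv] at h6
    rw [hn', hj', hqr, h6]
    have : (1 : ℤ) ≤ μ := by exact_mod_cast hμ
    positivity

end H94M
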