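import Pool.Agent.Lib.H94M.PF4
import Pool.Agent.Lib.H94M.PF6
import Pool.Agent.Lib.H94M.PF7
import Pool.Agent.Lib.H94M.P1

set_option autoImplicit false

namespace H94M

open Real MeasureTheory

theorem PF8_term (k M μ : ℕ) (hk : 4 ≤ k)
    (h5 : 5 ∣ M) (hμ : 1 ≤ μ) {y₁ y₂ : ℝ} (h₁ : 0 < y₁) (h₂ : 0 < y₂) (n j : ℤ) (a : ℕ) :
    ∑' p : ℤ × ℤ, (if 0 < a ∧ M ∣ a ∧ (a : ℤ) ∣ qf p.1 p.2 - 5 * (μ : ℤ) then
        TX k y₁ y₂ n j ((a : ℤ), p.1, p.2, (qf p.1 p.2 - 5 * (μ : ℤ)) / (a : ℤ)) else 0) =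
      if 0 < a ∧ M ∣ a then
        1 / (a : ℂ) ^ k * Ea a μ n j * JJ k y₁ y₂ n j (5 * (μ : ℝ) / (a : ℝ) ^ 2) else 0 := by
  by_cases h : 0 < a ∧ M ∣ a
  · rw [if_pos h, ← PF5_sum k μ a hk hμ h.1 (h5.trans h.2) h₁ h₂ n j]
    refine tsum_congr fun p => ?_
    simp only [h.1, h.2, true_and]
  · rw [if_neg h]
    have : ∀ p : ℤ × ℤ, (if 0 < a ∧ M ∣ a ∧ (a : ℤ) ∣ qf p.1 p.2 - 5 * (μ : ℤ) then
        TX k y₁ y₂ n j ((a : ℤ), p.1, p.2, (qf p.1 p.2 - 5 * (μ : ℤ)) / (a : ℤ)) else 0) = 0 := by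
      intro p
      rw [if_neg]
      rintro ⟨ha, hb, -⟩
      exact h ⟨ha, hb⟩
    simp only [this, tsum_zero]

theorem PF8_dvd (M r c : ℕ) (hM : 1 ≤ M) : M ∣ r * c ↔ M / Nat.gcd M r ∣ c := by
  have hg : 0 < Nat.gcd M r := Nat.gcd_pos_of_pos_left _ hM
  have h1 : Nat.gcd M r ∣ M := Nat.gcd_dvd_left _ _
  have h2 : Nat.gcd M r ∣ r := Nat.gcd_dvd_right _ _
  have hcop : Nat.Coprime (M / Nat.gcd M r) (r / Nat.gcd M r) :=
    Nat.coprime_div_gcd_div_gcd hg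
  constructor
  · intro h
    have h3 : M / Nat.gcd M r ∣ (r / Nat.gcd M r) * c := by
      obtain ⟨q, hq⟩ := h
      refine ⟨q, ?_⟩
      have h4 : Nat.gcd M r * (r / Nat.gcd M r) = r := Nat.mul_div_cancel' h2
      have h5 : Nat.gcd M r * (M / Nat.gcd M r) = M := Nat.mul_div_cancel' h1
      apply Nat.eq_of_mul_eq_mul_left hg
      calc Nat.gcd M r * (r / Nat.gcd M r * c) = (Nat.gcd M r * (r / Nat.gcd M r)) * c := by ring
        _ = r * c := by rw [h4]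
        _ = M * q := hq
        _ = (Nat.gcd M r * (M / Nat.gcd M r)) * q := by rw [h5]
        _ = Nat.gcd M r * (M / Nat.gcd M r * q) := by ring
    exact hcop.dvd_of_dvd_mul_left h3
  · rintro ⟨q, hq⟩
    have h4 : Nat.gcd M r * (r / Nat.gcd M r) = r := Nat.mul_div_cancel' h2
    have h5 : Nat.gcd M r * (M / Nat.gcd M r) = M := Nat.mul_div_cancel' h1
    refine ⟨(r / Nat.gcd M r) * q, ?_⟩
    calc r * c = (Nat.gcd M r * (r / Nat.gcd M r)) * (M / Nat.gcd M r * q) := by rw [h4, hq]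
      _ = (Nat.gcd M r * (M / Nat.gcd M r)) * (r / Nat.gcd M r * q) := by ring
      _ = M * (r / Nat.gcd M r * q) := by rw [h5]

/-- the summand -/
noncomputable def PF8_g (k μ : ℕ) (y₁ y₂ : ℝ) (n j : ℤ) (r c : ℕ) : ℂ :=
  (Real.exp (-(2 * π * (nu1 n j * y₁ + nu2 n j * y₂))) : ℂ) * CC k *
    ((chi r : ℂ) * (r : ℂ) ^ (k - 1)) *
      (Kl μ (qf n j / (r : ℤ) ^ 2) c *
        Iy k (y₂ * (r : ℝ) ^ 2 / (5 * nu1 n j)) c μ (qf n j / (r : ℤ) ^ 2) / (c : ℂ) ^ k)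

theorem PF8_expand (hPE : StPE) (k M μ : ℕ) (hk : 4 ≤ k)
    (h5 : 5 ∣ M) {y₁ y₂ : ℝ} (h₁ : 0 < y₁) (h₂ : 0 < y₂) (n j : ℤ)
    (hν : 0 < nu1 n j) (a : ℕ) (ha : 0 < a) (hMa : M ∣ a) :
    1 / (a : ℂ) ^ k * Ea a μ n j * JJ k y₁ y₂ n j (5 * (μ : ℝ) / (a : ℝ) ^ 2) =
      ∑ r ∈ (Nat.gcd a (Int.gcd n j)).divisors, PF8_g k μ y₁ y₂ n j r (a / r) := by
  rw [hPE a μ n j ha (h5.trans hMa), Finset.mul_sum, Finset.sum_mul]
  refine Finset.sum_congr rfl fun r hr => ?_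
  have hr1 := Nat.mem_divisors.mp hr
  have hra : r ∣ a := hr1.1.trans (Nat.gcd_dvd_left _ _)
  have hrg : r ∣ Int.gcd n j := hr1.1.trans (Nat.gcd_dvd_right _ _)
  have hrn : (r : ℤ) ∣ n := (Int.natCast_dvd_natCast.mpr hrg).trans (Int.gcd_dvd_left _ _)
  have hrj : (r : ℤ) ∣ j := (Int.natCast_dvd_natCast.mpr hrg).trans (Int.gcd_dvd_right _ _)
  have hr0 : 0 < r := Nat.pos_of_dvd_of_pos hra ha
  obtain ⟨c, rfl⟩ := hra
  have hc : 0 < c := Nat.pos_of_mul_pos_left ha |> fun h => by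
    rcases Nat.eq_zero_or_pos c with h0 | h0
    · subst h0; simp at ha
    · exact h0
  rw [Nat.mul_div_cancel_left c hr0,
    PF6_pos k (by omega) h₁ h₂ n j hν μ r c hr0 hc hrn hrj]
  unfold PF8_g
  have hr0' : (r : ℂ) ≠ 0 := by exact_mod_cast hr0.ne'
  have hc0' : (c : ℂ) ≠ 0 := by exact_mod_cast hc.ne'
  have e1 : (r : ℂ) * (r : ℂ) ^ (2 * k - 2) = (r : ℂ) ^ (k - 1) * (r : ℂ) ^ k := by
    rw [← pow_succ', ← pow_add]
    congr 1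
    omega
  have e2 : (1 : ℂ) / ((r * c : ℕ) : ℂ) ^ k * ((r : ℂ) * (r : ℂ) ^ (2 * k - 2)) =
      (r : ℂ) ^ (k - 1) / (c : ℂ) ^ k := by
    rw [e1]
    push_cast
    rw [mul_pow]
    field_simp
  calc _ = ((1 : ℂ) / ((r * c : ℕ) : ℂ) ^ k * ((r : ℂ) * (r : ℂ) ^ (2 * k - 2))) *
        ((Real.exp (-(2 * π * (nu1 n j * y₁ + nu2 n j * y₂))) : ℂ) * CC k * (chi r : ℂ) *
        Kl μ (qf n j / (r : ℤ) ^ 2) c *
        Iy k (y₂ * (r : ℝ) ^ 2 / (5 * nu1 n j)) c μ (qf n j / (r : ℤ) ^ 2)) := by ring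
    _ = _ := by rw [e2]; ring

/-- CHUNK PF8. -/
theorem PF8_pos (hPE : StPE) (hPC : StPC) (k M μ : ℕ) (hk : 4 ≤ k) (hke : Even k) (hM : 1 ≤ M)
    (h5 : 5 ∣ M) (hμ : 1 ≤ μ) {y₁ y₂ : ℝ} (h₁ : 0 < y₁) (h₂ : 0 < y₂) (n j : ℤ)
    (hν : 0 < nu1 n j) :
    ∑' a : ℕ, ∑' p : ℤ × ℤ, (if 0 < a ∧ M ∣ a ∧ (a : ℤ) ∣ qf p.1 p.2 - 5 * (μ : ℤ) then
        TX k y₁ y₂ n j ((a : ℤ), p.1, p.2, (qf p.1 p.2 - 5 * (μ : ℤ)) / (a : ℤ)) else 0) =
      (Real.exp (-(2 * π * (nu1 n j * y₁ + nu2 n j * y₂))) : ℂ) * CC k *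
        ∑ r ∈ (Int.gcd n j).divisors, (chi r : ℂ) * (r : ℂ) ^ (k - 1) *
          (ac (PS k μ (Row (M / Nat.gcd M r))) (qf n j / (r : ℤ) ^ 2) -
            if qf n j / (r : ℤ) ^ 2 = (μ : ℤ) then 1 else 0) := by
  classical
  have hg : Int.gcd n j ≠ 0 := by
    intro h0
    rw [Int.gcd_eq_zero_iff] at h0
    rw [h0.1, h0.2] at hν
    simp [nu1] at hν
  -- the term of `a` as a sum over the divisors of `gcd n j`
  have hterm : ∀ a : ℕ, (∑' p : ℤ × ℤ,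
      (if 0 < a ∧ M ∣ a ∧ (a : ℤ) ∣ qf p.1 p.2 - 5 * (μ : ℤ) then
        TX k y₁ y₂ n j ((a : ℤ), p.1, p.2, (qf p.1 p.2 - 5 * (μ : ℤ)) / (a : ℤ)) else 0)) =
      ∑ r ∈ (Int.gcd n j).divisors,
        if r ∣ a ∧ 0 < a ∧ M ∣ a then PF8_g k μ y₁ y₂ n j r (a / r) else 0 := by
    intro a
    rw [PF8_term k M μ hk h5 hμ h₁ h₂ n j a]
    by_cases h : 0 < a ∧ M ∣ a
    · rw [if_pos h, PF8_expand hPE k M μ hk h5 h₁ h₂ n j hν a h.1 h.2]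
      rw [← Finset.sum_filter]
      refine Finset.sum_congr ?_ fun _ _ => rfl
      ext r
      simp only [Nat.mem_divisors, Finset.mem_filter]
      constructor
      · rintro ⟨hr1, hr2⟩
        exact ⟨⟨hr1.trans (Nat.gcd_dvd_right _ _), hg⟩, hr1.trans (Nat.gcd_dvd_left _ _), h⟩
      · rintro ⟨⟨hr1, hr2⟩, hr3, -⟩
        exact ⟨Nat.dvd_gcd hr3 hr1, Nat.gcd_ne_zero_right hg⟩
    · rw [if_neg h]
      symm
      refine Finset.sum_eq_zero fun r _ => ?_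
      rw [if_neg]
      rintro ⟨-, h'⟩
      exact h h'
  have hsum : ∀ r ∈ (Int.gcd n j).divisors, HasSum (fun a : ℕ =>
      if r ∣ a ∧ 0 < a ∧ M ∣ a then PF8_g k μ y₁ y₂ n j r (a / r) else 0)
      ((Real.exp (-(2 * π * (nu1 n j * y₁ + nu2 n j * y₂))) : ℂ) * CC k *
        ((chi r : ℂ) * (r : ℂ) ^ (k - 1)) *
          (ac (PS k μ (Row (M / Nat.gcd M r))) (qf n j / (r : ℤ) ^ 2) -
            if qf n j / (r : ℤ) ^ 2 = (μ : ℤ) then 1 else 0)) := by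
    intro r hr
    have hr0 : 0 < r := Nat.pos_of_mem_divisors hr
    have hgM : 0 < Nat.gcd M r := Nat.gcd_pos_of_pos_left _ hM
    have hN' : 1 ≤ M / Nat.gcd M r :=
      Nat.div_pos (Nat.le_of_dvd hM (Nat.gcd_dvd_left _ _)) hgM
    have hy : 0 < y₂ * (r : ℝ) ^ 2 / (5 * nu1 n j) := by positivity
    have h := (hPC (M / Nat.gcd M r) k μ (qf n j / (r : ℤ) ^ 2)
      (y₂ * (r : ℝ) ^ 2 / (5 * nu1 n j)) hN' hk hke hμ hy).mul_left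
      ((Real.exp (-(2 * π * (nu1 n j * y₁ + nu2 n j * y₂))) : ℂ) * CC k *
        ((chi r : ℂ) * (r : ℂ) ^ (k - 1)))
    have hinj : Function.Injective (fun c : ℕ => r * c) := fun x y hxy =>
      Nat.eq_of_mul_eq_mul_left hr0 hxy
    have heq : ((fun a : ℕ =>
        if r ∣ a ∧ 0 < a ∧ M ∣ a then PF8_g k μ y₁ y₂ n j r (a / r) else 0) ∘
        fun c : ℕ => r * c) = fun c : ℕ =>
        ((Real.exp (-(2 * π * (nu1 n j * y₁ + nu2 n j * y₂))) : ℂ) * CC k *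
        ((chi r : ℂ) * (r : ℂ) ^ (k - 1))) *
          (if 0 < c ∧ M / Nat.gcd M r ∣ c then Kl μ (qf n j / (r : ℤ) ^ 2) c *
            Iy k (y₂ * (r : ℝ) ^ 2 / (5 * nu1 n j)) c μ (qf n j / (r : ℤ) ^ 2) / (c : ℂ) ^ k
            else 0) := by
      funext c
      simp only [Function.comp]
      rw [Nat.mul_div_cancel_left c hr0]
      by_cases hc : 0 < c ∧ M / Nat.gcd M r ∣ c
      · rw [if_pos hc, if_pos ⟨dvd_mul_right _ _, Nat.mul_pos hr0 hc.1,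
          (PF8_dvd M r c hM).mpr hc.2⟩]
        rfl
      · rw [if_neg hc, if_neg, mul_zero]
        rintro ⟨-, h1, h2⟩
        refine hc ⟨?_, (PF8_dvd M r c hM).mp h2⟩
        rcases Nat.eq_zero_or_pos c with h0 | h0
        · subst h0; simp at h1
        · exact h0
    rw [← hinj.hasSum_iff]
    · rw [heq]
      exact h
    · intro a ha
      rw [if_neg]
      rintro ⟨⟨c, hc⟩, -⟩
      exact ha ⟨c, hc.symm⟩
  have htot := hasSum_sum hsum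
  rw [tsum_congr hterm, htot.tsum_eq, Finset.mul_sum]
  refine Finset.sum_congr rfl fun r _ => ?_
  ring

/-- CHUNK PF8.  The part `a > 0` for `ν ≤ 0` vanishes (`PF5_sum`, `PF6_nonpos`). -/
theorem PF8_nonpos (k M μ : ℕ) (hk : 4 ≤ k) (hM : 1 ≤ M)
    (h5 : 5 ∣ M) (hμ : 1 ≤ μ) {y₁ y₂ : ℝ} (h₁ : 0 < y₁) (h₂ : 0 < y₂) (n j : ℤ)
    (hν : nu1 n j ≤ 0) :
    ∑' a : ℕ, ∑' p : ℤ × ℤ, (if 0 < a ∧ M ∣ a ∧ (a : ℤ) ∣ qf p.1 p.2 - 5 * (μ : ℤ) then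
        TX k y₁ y₂ n j ((a : ℤ), p.1, p.2, (qf p.1 p.2 - 5 * (μ : ℤ)) / (a : ℤ)) else 0) = 0 := by
  have : ∀ a : ℕ, (∑' p : ℤ × ℤ,
      (if 0 < a ∧ M ∣ a ∧ (a : ℤ) ∣ qf p.1 p.2 - 5 * (μ : ℤ) then
        TX k y₁ y₂ n j ((a : ℤ), p.1, p.2, (qf p.1 p.2 - 5 * (μ : ℤ)) / (a : ℤ)) else 0)) = 0 := by
    intro a
    rw [PF8_term k M μ hk h5 hμ h₁ h₂ n j a]
    split_ifs with h
    · rw [PF6_nonpos k (by omega) h₁ h₂ n j hν (by positivity), mul_zero]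
    · rfl
  simp only [this, tsum_zero]

/-- CHUNK PF8.  **The Fourier coefficients of the kernel.** -/
theorem PF8_coeff (hPE : StPE) (hPC : StPC) (k M μ : ℕ) (hk : 4 ≤ k) (hke : Even k) (hM : 1 ≤ M)
    (h5 : 5 ∣ M) (hμ : 1 ≤ μ) {y₁ y₂ : ℝ} (h₁ : 0 < y₁) (h₂ : 0 < y₂) (n j : ℤ) :
    cf2 (fun t => Om k M μ (pz1 y₁ t) (pz2 y₂ t)) n j =
      2 * CC k * kc k M μ n j *
        (Real.exp (-(2 * π * (nu1 n j * y₁ + nu2 n j * y₂))) : ℂ) := by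
  obtain ⟨hs1, hs2⟩ := PF3_hasSum k M μ hk hμ h₁ h₂ n j
  obtain ⟨-, -, -, hsp⟩ := PF4_split M μ hM hμ (TX k y₁ y₂ n j) hs2
    (fun a x y b => PF3_neg k hke y₁ y₂ n j a x y b)
  rw [← hs1.tsum_eq, hsp, PF7_total k μ hk hμ h₁ h₂ n j]
  by_cases hν : 0 < nu1 n j
  · rw [PF8_pos hPE hPC k M μ hk hke hM h5 hμ h₁ h₂ n j hν]
    unfold kc
    by_cases hpos : 0 < n ∧ 0 < qf n j
    · rw [if_pos hpos, if_pos hpos]
      simp only [mul_sub, Finset.sum_sub_distrib]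
      ring
    · rw [if_neg hpos, if_neg hpos]
      have hν' : nu2 n j ≤ 0 := by
        by_contra hcon
        exact hpos ((nu_pos_iff n j).mp ⟨hν, not_le.mp hcon⟩)
      have hq : qf n j ≤ 0 := by
        have h := nu_mul n j
        have : (qf n j : ℝ) ≤ 0 := by
          rw [← h]
          nlinarith
        exact_mod_cast this
      have hz : ∀ r ∈ (Int.gcd n j).divisors, (chi r : ℂ) * (r : ℂ) ^ (k - 1) *
          (ac (PS k μ (Row (M / Nat.gcd M r))) (qf n j / (r : ℤ) ^ 2) -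
            if qf n j / (r : ℤ) ^ 2 = (μ : ℤ) then 1 else 0) = 0 := by
        intro r hr
        have hr0 : 0 < r := Nat.pos_of_mem_divisors hr
        have h1 : qf n j / (r : ℤ) ^ 2 ≤ 0 :=
          Int.ediv_le_of_le_mul (by positivity) (by simpa using hq)
        rw [if_neg (by omega)]
        unfold ac
        rw [if_neg (by omega)]
        ring
      rw [Finset.sum_eq_zero hz]
      ring
  · have hν' : nu1 n j ≤ 0 := not_lt.mp hν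
    rw [PF8_nonpos k M μ hk hM h5 hμ h₁ h₂ n j hν']
    have hpos : ¬ (0 < n ∧ 0 < qf n j) := fun h => hν ((nu_pos_iff n j).mpr h).1
    unfold kc
    rw [if_neg hpos, if_neg hpos]
    ring

end H94M
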