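import Pool.Agent.Lib.H94M.PP1

set_option autoImplicit false

/-!
# H94M, chunk PP3 (S/M): the slash action on Poincaré series

PROOF. `PS_slash`: `(f ∣[k] γ) τ = f (γ • τ) * denom γ τ ^ (-k)` (`ModularForm.SL_slash_apply`);
`pt_slash`, `tsum_mul_left`; reindex the sum by the bijection `S ≃ S γ`
(`Equiv.Set.image _ S (injective)`, `Equiv.tsum_eq`; `v ↦ v γ` is injective since `γ` is
invertible: `Matrix.vecMul_vecMul`, `γ γ⁻¹ = 1`; Mathlib has `Matrix.vecMul_injective_of_isUnit`).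
`Row_image`: `(v γ) 0 = v 0 γ00 + v 1 γ10`, `N ∣ v 0`, `N ∣ γ10` (`CongruenceSubgroup.Gamma0_mem`,
`ZMod.intCast_zmod_eq_zero_iff_dvd`); coprimality is preserved (`IsCoprime.vecMulSL`, Mathlib
NumberTheory/.../SpecialLinearGroup, or explicitly); surjectivity with `γ⁻¹`.
-/

namespace H94M

open UpperHalfPlane Real MatrixGroups CongruenceSubgroup
open scoped ModularForm

theorem PP3_inj (γ : SL(2, ℤ)) : Function.Injective
    (fun v : Fin 2 → ℤ => Matrix.vecMul v (γ : Matrix (Fin 2) (Fin 2) ℤ)) := by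
  intro v w h
  have h1 := congrArg (fun u => Matrix.vecMul u ((γ⁻¹ : SL(2, ℤ)) : Matrix (Fin 2) (Fin 2) ℤ)) h
  simp only [Matrix.vecMul_vecMul, ← Matrix.SpecialLinearGroup.coe_mul, mul_inv_cancel,
    Matrix.SpecialLinearGroup.coe_one, Matrix.vecMul_one] at h1
  exact h1

theorem PS_slash (k μ : ℕ) (S : Set (Fin 2 → ℤ)) (hS : ∀ v ∈ S, IsCoprime (v 0) (v 1))
    (γ : SL(2, ℤ)) :
    (PS k μ S) ∣[(k : ℤ)] γ =
      PS k μ ((fun v => Matrix.vecMul v (γ : Matrix (Fin 2) (Fin 2) ℤ)) '' S) := by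
  ext τ
  rw [ModularForm.SL_slash_apply]
  unfold PS
  rw [tsum_image (fun w => pt k μ w τ) ((PP3_inj γ).injOn)]
  have h1 : ∑' v : S, pt k μ v (γ • τ) = denom γ τ ^ k *
      ∑' v : S, pt k μ (Matrix.vecMul (v : Fin 2 → ℤ) (γ : Matrix (Fin 2) (Fin 2) ℤ)) τ := by
    rw [← tsum_mul_left]
    refine tsum_congr fun v => ?_
    exact pt_slash k μ (hS v v.2) γ τ
  rw [h1]
  have hne : denom γ τ ≠ 0 := denom_ne_zero γ τ
  rw [zpow_neg, zpow_natCast]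
  field_simp

theorem image_coprime (S : Set (Fin 2 → ℤ)) (hS : ∀ v ∈ S, IsCoprime (v 0) (v 1))
    (γ : SL(2, ℤ)) :
    ∀ v ∈ (fun v => Matrix.vecMul v (γ : Matrix (Fin 2) (Fin 2) ℤ)) '' S,
      IsCoprime (v 0) (v 1) := by
  rintro _ ⟨v, hv, rfl⟩
  exact (hS v hv).vecMulSL γ

theorem PP3_sub (N : ℕ) {γ : SL(2, ℤ)} (hγ : γ ∈ Gamma0 N) :
    (fun v => Matrix.vecMul v (γ : Matrix (Fin 2) (Fin 2) ℤ)) '' Row N ⊆ Row N := by
  rintro _ ⟨v, hv, rfl⟩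
  refine ⟨hv.1.vecMulSL γ, ?_⟩
  have h1 : (N : ℤ) ∣ γ 1 0 := (ZMod.intCast_zmod_eq_zero_iff_dvd _ _).1 (Gamma0_mem.1 hγ)
  have h2 : (Matrix.vecMul v (γ : Matrix (Fin 2) (Fin 2) ℤ)) 0 = v 0 * γ 0 0 + v 1 * γ 1 0 := by
    simp [Matrix.vecMul, dotProduct, Fin.sum_univ_two]
  show (N : ℤ) ∣ (Matrix.vecMul v (γ : Matrix (Fin 2) (Fin 2) ℤ)) 0
  rw [h2]
  exact dvd_add (hv.2.mul_right _) (h1.mul_left _)

theorem Row_image (N : ℕ) {γ : SL(2, ℤ)} (hγ : γ ∈ Gamma0 N) :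
    (fun v => Matrix.vecMul v (γ : Matrix (Fin 2) (Fin 2) ℤ)) '' Row N = Row N := by
  refine Set.Subset.antisymm (PP3_sub N hγ) fun v hv => ?_
  refine ⟨Matrix.vecMul v ((γ⁻¹ : SL(2, ℤ)) : Matrix (Fin 2) (Fin 2) ℤ),
    PP3_sub N (inv_mem hγ) ⟨v, hv, rfl⟩, ?_⟩
  simp only [Matrix.vecMul_vecMul, ← Matrix.SpecialLinearGroup.coe_mul, inv_mul_cancel,
    Matrix.SpecialLinearGroup.coe_one, Matrix.vecMul_one]

end H94M
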