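import Pool.Agent.Lib.H94M.PP2
import Pool.Agent.Lib.H94M.PP3

set_option autoImplicit false

/-!
# H94M, chunk PP4 (M): the Poincaré series vanish at `i∞`

PROOF. Let `Im z ≥ 2`.  Rows `v ∈ S` with `v 0 = 0` are `(0, ±1)` (coprime), at most two, and
`‖pt‖ = ‖ee (μ (gv v • z))‖ = exp (-2 π μ Im z) ≤ exp (-2 π Im z)` (`pt_eq` with `g = ±1`,
`PP1_norm_ee`).  For `v 0 ≠ 0`: `‖v 0 z + v 1‖ ≥ |v 0| Im z ≥ Im z`, so by `norm_pt_le`
`‖pt k μ v z‖ ≤ ‖v 0 z + v 1‖^(-k) ≤ (Im z)^(-(k-3)) ‖v 0 z + v 1‖^(-3)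
≤ (Im z)^(-1) ‖eisSummand 3 v z‖`.  And `Σ_v ‖eisSummand 3 v z‖ ≤ C` for all `z` with
`Im z ≥ 2`: as in Mathlib `EisensteinSeries.isBoundedAtImInfty_eisensteinSeriesSIF`: the sum over all
`v : Fin 2 → ℤ` is invariant under `z ↦ z + n` (reindex `v ↦ (v 0, v 1 + n v 0)`), so one may
assume `z ∈ verticalStrip 1 2` (`ModularGroup_T_zpow_mem_verticalStrip`, `N = 1`), then
`summand_bound_of_mem_verticalStrip` and `summable_one_div_norm_rpow` (exponent 3).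
So `‖PS k μ S z‖ ≤ exp (-2 π Im z) + C / Im z → 0`. (`UpperHalfPlane.isZeroAtImInfty_iff`.)
-/

namespace H94M

open UpperHalfPlane Real MatrixGroups CongruenceSubgroup
open scoped ModularForm

theorem PP4_bound : ∃ C : ℝ, ∀ z : ℍ, 2 ≤ z.im →
    ∑' v : Fin 2 → ℤ, ‖EisensteinSeries.eisSummand 3 v z‖ ≤ C := by
  refine ⟨∑' x : Fin 2 → ℤ, EisensteinSeries.r ⟨⟨(1 : ℕ), 2⟩, Nat.ofNat_pos⟩ ^ (-(3 : ℤ)) *
    ‖x‖ ^ (-(3 : ℤ)), fun z hz => ?_⟩
  obtain ⟨n, hn⟩ := ModularGroup_T_zpow_mem_verticalStrip z (N := 1) one_pos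
  obtain ⟨z', hz'⟩ : ∃ z', z' = ModularGroup.T ^ (((1 : ℕ) : ℤ) * n) • z := ⟨_, rfl⟩
  obtain ⟨A, hA⟩ : ∃ A : SL(2, ℤ), A = (ModularGroup.T ^ (((1 : ℕ) : ℤ) * n))⁻¹ := ⟨_, rfl⟩
  have hzA : z = A • z' := by
    rw [hA, hz', inv_smul_smul]
  rw [← hz'] at hn
  have hden : ‖denom A z'‖ = 1 := by
    have e1 : A = ModularGroup.T ^ (-(((1 : ℕ) : ℤ) * n)) := by
      rw [hA, ← zpow_neg]
    rw [PP1_denom, e1, ModularGroup.coe_T_zpow]
    simp
  have h1 : ∀ v : Fin 2 → ℤ, ‖EisensteinSeries.eisSummand 3 v z‖ =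
      ‖EisensteinSeries.eisSummand 3 (Matrix.vecMul v (A : Matrix (Fin 2) (Fin 2) ℤ)) z'‖ := by
    intro v
    rw [hzA, EisensteinSeries.eisSummand_SL2_apply, norm_mul, norm_zpow, hden, one_zpow, one_mul]
  simp_rw [h1]
  have hs := EisensteinSeries.summable_norm_eisSummand (k := 3) le_rfl z'
  refine (tsum_comp_le_tsum_of_inj hs (fun _ => norm_nonneg _) (PP3_inj A)).trans ?_
  have hk' : (2 : ℝ) < ((3 : ℤ) : ℝ) := by norm_num
  refine hs.tsum_le_tsum (fun x => ?_) ?_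
  · unfold EisensteinSeries.eisSummand
    rw [norm_zpow]
    exact_mod_cast EisensteinSeries.summand_bound_of_mem_verticalStrip
      (by norm_num : (0 : ℝ) ≤ ((3 : ℤ) : ℝ)) x two_pos (verticalStrip_anti_right _ hz hn)
  · exact_mod_cast (EisensteinSeries.summable_one_div_norm_rpow hk').mul_left <|
      EisensteinSeries.r ⟨⟨(1 : ℕ), 2⟩, Nat.ofNat_pos⟩ ^ (-(3 : ℤ))

theorem PP4_term (k μ : ℕ) (hk : 4 ≤ k) (hμ : 1 ≤ μ) {v : Fin 2 → ℤ}
    (hv : IsCoprime (v 0) (v 1)) {z : ℍ} (hz : 2 ≤ z.im) :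
    ‖pt k μ v z‖ ≤ (1 / z.im) * ‖EisensteinSeries.eisSummand 3 v z‖ := by
  have hz0 : 0 < z.im := z.im_pos
  unfold EisensteinSeries.eisSummand
  rw [norm_zpow, zpow_neg]
  by_cases h0 : v 0 = 0
  · -- the two rows `(0, ±1)`
    have h1 : v 1 = 1 ∨ v 1 = -1 := by
      rw [h0] at hv
      have := isCoprime_zero_left.1 hv
      exact Int.isUnit_iff.1 this
    have h2 : ‖(v 0 : ℂ) * (z : ℂ) + (v 1 : ℂ)‖ = 1 := by
      rw [h0]
      rcases h1 with h | h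
      · rw [h]
        simp
      · rw [h]
        simp
    rw [h2, one_zpow, inv_one, mul_one]
    unfold pt
    rw [norm_div, norm_pow, h2, one_pow, div_one, PP1_norm_ee]
    have h3 : ((μ : ℂ) * ((gv v • z : ℍ) : ℂ)).im = μ * (gv v • z).im := by
      simp
    have h4 : (gv v • z).im = z.im := by
      rw [ModularGroup.im_smul_eq_div_normSq, Complex.normSq_eq_norm_sq, PP1_denom, gv_row hv,
        gv_row hv, h2]
      simp
    rw [h3, h4]
    have h5 : (1 : ℝ) ≤ μ := by exact_mod_cast hμ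
    have h6 : z.im ≤ 2 * π * (μ * z.im) := by
      have h7 : z.im ≤ μ * z.im := by nlinarith
      have h8 : 1 ≤ 2 * π := by nlinarith [Real.pi_gt_three]
      calc z.im ≤ μ * z.im := h7
        _ ≤ 2 * π * (μ * z.im) := by
          have : 0 ≤ (μ : ℝ) * z.im := by positivity
          nlinarith
    have h9 : Real.exp (-2 * π * (μ * z.im)) ≤ Real.exp (-z.im) := by
      apply Real.exp_le_exp.2
      linarith
    refine h9.trans ?_
    rw [Real.exp_neg, ← one_div]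
    refine one_div_le_one_div_of_le hz0 ?_
    have := Real.add_one_le_exp z.im
    linarith
  · have h1 : z.im ≤ ‖(v 0 : ℂ) * (z : ℂ) + (v 1 : ℂ)‖ := by
      have h2 := Complex.abs_im_le_norm ((v 0 : ℂ) * (z : ℂ) + (v 1 : ℂ))
      have h3 : ((v 0 : ℂ) * (z : ℂ) + (v 1 : ℂ)).im = (v 0 : ℝ) * z.im := by
        simp
      rw [h3, abs_mul, abs_of_pos hz0] at h2
      have h4 : (1 : ℝ) ≤ |(v 0 : ℝ)| := by
        have := Int.one_le_abs h0
        exact_mod_cast this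
      nlinarith
    obtain ⟨t, ht⟩ : ∃ t, t = ‖(v 0 : ℂ) * (z : ℂ) + (v 1 : ℂ)‖ := ⟨_, rfl⟩
    have h5 := norm_pt_le k μ v z
    unfold EisensteinSeries.eisSummand at h5
    rw [norm_zpow, zpow_neg, zpow_natCast] at h5
    rw [← ht] at h1 h5 ⊢
    have ht0 : 0 < t := by linarith
    have ht1 : 1 ≤ t := by linarith
    refine h5.trans ?_
    have h6 : t ^ (3 : ℤ) = t ^ 3 := by
      exact zpow_natCast t 3
    rw [h6]
    have h7 : z.im * t ^ 3 ≤ t ^ k := by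
      calc z.im * t ^ 3 ≤ t * t ^ 3 := mul_le_mul_of_nonneg_right h1 (by positivity)
        _ = t ^ 4 := by ring
        _ ≤ t ^ k := pow_le_pow_right₀ ht1 hk
    calc (t ^ k)⁻¹ ≤ (z.im * t ^ 3)⁻¹ := inv_anti₀ (by positivity) h7
      _ = 1 / z.im * (t ^ 3)⁻¹ := by
        rw [mul_inv, one_div]

theorem PS_zero (k μ : ℕ) (hk : 4 ≤ k) (hμ : 1 ≤ μ) (S : Set (Fin 2 → ℤ))
    (hS : ∀ v ∈ S, IsCoprime (v 0) (v 1)) : IsZeroAtImInfty (PS k μ S) := by
  obtain ⟨C, hC⟩ := PP4_bound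
  rw [isZeroAtImInfty_iff]
  intro ε hε
  refine ⟨max 2 (C / ε), fun z hz => ?_⟩
  have hz2 : 2 ≤ z.im := (le_max_left _ _).trans hz
  have hzC : C / ε ≤ z.im := (le_max_right _ _).trans hz
  have hz0 : 0 < z.im := z.im_pos
  have hs := EisensteinSeries.summable_norm_eisSummand (k := 3) le_rfl z
  have h1 : ‖PS k μ S z‖ ≤ ∑' v : S, ‖pt k μ v z‖ := by
    unfold PS
    rw [norm_mul]
    have h2 := norm_tsum_le_tsum_norm (summable_pt k μ (by omega) S z)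
    have h3 : ‖(1 / 2 : ℂ)‖ ≤ 1 := by
      rw [norm_div]
      simp
      norm_num
    exact (mul_le_of_le_one_left (norm_nonneg _) h3).trans h2
  have h2 : ∑' v : S, ‖pt k μ v z‖ ≤
      ∑' v : S, (1 / z.im) * ‖EisensteinSeries.eisSummand 3 (v : Fin 2 → ℤ) z‖ := by
    refine (summable_pt k μ (by omega) S z).tsum_le_tsum (fun v => PP4_term k μ hk hμ (hS v v.2) hz2)
      ((hs.subtype S).mul_left _)
  have h3 : ∑' v : S, (1 / z.im) * ‖EisensteinSeries.eisSummand 3 (v : Fin 2 → ℤ) z‖ ≤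
      (1 / z.im) * C := by
    rw [tsum_mul_left]
    refine mul_le_mul_of_nonneg_left ?_ (by positivity)
    exact (Summable.tsum_subtype_le (fun v : Fin 2 → ℤ => ‖EisensteinSeries.eisSummand 3 v z‖) S
      (fun _ => norm_nonneg _) hs).trans (hC z hz2)
  refine h1.trans (h2.trans (h3.trans ?_))
  rw [div_le_iff₀ hε] at hzC
  rw [one_div, inv_mul_le_iff₀ hz0]
  exact hzC

end H94M
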