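import Pool.Agent.Lib.H94M.PP3
import Pool.Agent.Lib.H94M.PP4
import Pool.Agent.Lib.H94M.QA0

set_option autoImplicit false

/-!
# H94M, chunk PP5 (S): the Poincaré series are cusp forms

PROOF. The fields of `CuspForm (G0 N) k`: `slash_action_eq'`: elements of `G0 N` are images of
`γ ∈ Gamma0 N`, `PS_slash`, `Row_image`; `holo'` = `PS_mdiff`; `zero_at_cusps'`: a cusp of
`G0 N` is a cusp of `𝒮ℒ` (`IsCusp.mono`, `G0_le` in QA0), then `OnePoint.isZeroAt_iff_forall_SL2Z`,
`PS_slash`, `image_coprime`, `PS_zero`.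
-/

namespace H94M

open UpperHalfPlane Real MatrixGroups CongruenceSubgroup
open scoped ModularForm

theorem PP5_row {N : ℕ} : ∀ v ∈ Row N, IsCoprime (v 0) (v 1) := fun _ hv => hv.1

theorem stPP : StPP := by
  intro N k μ hN hk hμ
  refine ⟨{ toFun := PS k μ (Row N)
            slash_action_eq' := ?_
            holo' := PS_mdiff k μ (by omega) (Row N)
            zero_at_cusps' := ?_ }, rfl⟩
  · rintro _ ⟨γ, hγ, rfl⟩
    have h := PS_slash k μ (Row N) PP5_row γ
    rw [Row_image N hγ] at h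
    exact h
  · intro c hc
    have hc' : IsCusp c 𝒮ℒ := hc.mono (G0_le N)
    rw [OnePoint.isZeroAt_iff_forall_SL2Z hc']
    intro γ _
    have h := PS_slash k μ (Row N) PP5_row γ
    rw [h]
    exact PS_zero k μ hk hμ _ (image_coprime (Row N) PP5_row γ)

end H94M
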