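import Pool.Agent.Lib.H94M.PT2

set_option autoImplicit false

/-!
# H94M, chunk PT3 (M): the integral of `Fs` is a multiple of the conjugate coefficient

PROOF. `integral_uhp`, Fubini (`setIntegral_prod`/`integral_prod_symm`, integrability from
`Fs_integrable` and `integrable_uhp`): the integral is
`∫_{y > 0} y^(-2) ∫_x Fs (x + i y) dx dy`, and the inner integral is
`y^k ∫_0^1 conj (f (x + i y)) ee (μ (x + i y)) dx`. Now
`ee (μ (x + i y)) = exp (-4 π μ y) conj (ee (-(μ (x + i y))))`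
(`conj (ee w) = ee (-conj w)`), so the inner integral is
`y^k exp (-4 π μ y) conj (∫_0^1 f (x + i y) ee (-(μ (x + i y))) dx) = y^k exp (-4 π μ y) conj (ac f μ)`
(`ac_integral` with `n = μ`; `integral_conj`). Finally
`∫_{y > 0} y^(k-2) exp (-4 π μ y) dy = Γ(k-1)/(4 π μ)^(k-1)` (`Real.integral_rpow_mul_exp_neg_mul_Ioi`,
`Real.Gamma_nat_eq_factorial`) is a nonzero constant.
-/

namespace H94M

open UpperHalfPlane Real MatrixGroups CongruenceSubgroup MeasureTheory
open scoped ModularForm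

theorem PT3_conj (w : ℂ) :
    ee w = ((Real.exp (-(4 * π * w.im)) : ℝ) : ℂ) * (starRingEnd ℂ) (ee (-w)) := by
  unfold ee
  rw [← Complex.exp_conj, Complex.ofReal_exp, ← Complex.exp_add]
  congr 1
  apply Complex.ext
  · simp [Complex.mul_re, Complex.mul_im]
    ring
  · simp [Complex.mul_re, Complex.mul_im]

theorem PT3_coe (x : ℝ) {y : ℝ} (hy : 0 < y) :
    ((zxy x y : ℍ) : ℂ) = (x : ℂ) + (y : ℂ) * Complex.I := by
  unfold zxy
  rw [ofComplex_apply_of_im_pos (by simpa using hy)]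

theorem PT3_re (x : ℝ) {y : ℝ} (hy : 0 < y) : (zxy x y).re = x := by
  have h : (zxy x y).re = ((zxy x y : ℍ) : ℂ).re := rfl
  rw [h, PT3_coe x hy]
  simp

theorem PT3_im (x : ℝ) {y : ℝ} (hy : 0 < y) : (zxy x y).im = y := by
  have h : (zxy x y).im = ((zxy x y : ℍ) : ℂ).im := rfl
  rw [h, PT3_coe x hy]
  simp

theorem PT3_point (k μ : ℕ) (f : ℍ → ℂ) (x : ℝ) {y : ℝ} (hy : 0 < y) :
    ((1 / y ^ 2 : ℝ) : ℂ) * Fs k μ f (zxy x y) =
      (Set.Ico (0 : ℝ) 1).indicator (fun x : ℝ =>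
        ((y ^ (((k : ℝ) - 1) - 1) * Real.exp (-(4 * π * μ * y)) : ℝ) : ℂ) *
        (starRingEnd ℂ) (f (ofComplex ((x : ℂ) + (y : ℂ) * Complex.I)) *
          ee (-(((μ : ℤ) : ℂ) * ((x : ℂ) + (y : ℂ) * Complex.I))))) x := by
  unfold Fs
  rw [PT3_re x hy]
  by_cases hx : 0 ≤ x ∧ x < 1
  · rw [if_pos hx, Set.indicator_of_mem (Set.mem_Ico.2 hx)]
    unfold petersson
    beta_reduce
    rw [PT3_im x hy, PT3_coe x hy, PT3_conj ((μ : ℂ) * ((x : ℂ) + (y : ℂ) * Complex.I))]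
    have h1 : ((μ : ℂ) * ((x : ℂ) + (y : ℂ) * Complex.I)).im = μ * y := by
      simp
    have h2 : y ^ (((k : ℝ) - 1) - 1) = 1 / y ^ 2 * y ^ k := by
      have h3 : ((k : ℝ) - 1) - 1 = (k : ℝ) - ((2 : ℕ) : ℝ) := by
        push_cast
        ring
      rw [h3, Real.rpow_sub hy, Real.rpow_natCast, Real.rpow_natCast]
      ring
    have h4 : f (zxy x y) = f (ofComplex ((x : ℂ) + (y : ℂ) * Complex.I)) := rfl
    rw [h1, h2, h4, map_mul, zpow_natCast, ← mul_assoc (4 * π) (μ : ℝ) y]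
    push_cast
    ring
  · rw [if_neg hx, Set.indicator_of_notMem (by simpa [Set.mem_Ico] using hx), mul_zero]

theorem Fs_integral (N k μ : ℕ) [NeZero N] (hk : 3 ≤ k) (hμ : 1 ≤ μ) :
    ∃ r : ℂ, r ≠ 0 ∧ ∀ f : CuspForm (G0 N) (k : ℤ),
      ∫ z : ℍ, Fs k μ f z = r * (starRingEnd ℂ) (ac f μ) := by
  have hk' : (3 : ℝ) ≤ k := by exact_mod_cast hk
  have hμ' : (0 : ℝ) < μ := by exact_mod_cast hμ
  refine ⟨((∫ y in Set.Ioi (0 : ℝ), y ^ (((k : ℝ) - 1) - 1) * Real.exp (-(4 * π * μ * y)) : ℝ) : ℂ),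
    ?_, fun f => ?_⟩
  · rw [Real.integral_rpow_mul_exp_neg_mul_Ioi (by linarith) (by positivity)]
    have h : 0 < Real.Gamma ((k : ℝ) - 1) := Real.Gamma_pos_of_pos (by linarith)
    exact_mod_cast (by positivity : (0 : ℝ) < (1 / (4 * π * μ)) ^ ((k : ℝ) - 1) *
      Real.Gamma ((k : ℝ) - 1)).ne'
  · have hint := (integrable_uhp (Fs k μ f)).1 (Fs_integrable N k μ hk hμ f)
    unfold IntegrableOn at hint
    rw [Measure.volume_eq_prod, ← Measure.prod_restrict] at hint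
    rw [integral_uhp, Measure.volume_eq_prod, ← Measure.prod_restrict, integral_prod_symm _ hint,
      ← integral_complex_ofReal, ← integral_mul_const]
    refine setIntegral_congr_fun measurableSet_Ioi fun y hy => ?_
    have hy' : 0 < y := hy
    simp only [Measure.restrict_univ]
    simp_rw [PT3_point k μ f _ hy']
    rw [integral_indicator measurableSet_Ico, integral_Ico_eq_integral_Ioc, integral_const_mul,
      integral_conj, ← intervalIntegral.integral_of_le zero_le_one, ac_integral N k f (μ : ℤ) hy']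

end H94M
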