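import Pool.Agent.Lib.H94M.PP1

set_option autoImplicit false

/-!
# H94M, chunk PP2 (S/M): convergence and holomorphy of the Poincaré series

PROOF. Mathlib: `EisensteinSeries.summable_norm_eisSummand`, `norm_pt_le`, `Summable.of_nonneg_of_le`,
`.subtype`. Holomorphy: copy the proofs of `EisensteinSeries.eisensteinSeries_tendstoLocallyUniformly`,
`eisensteinSeries_tendstoLocallyUniformlyOn`, `eisensteinSeriesSIF_mdifferentiable`
(Mathlib.NumberTheory.ModularForms.EisensteinSeries.UniformConvergence / MDifferentiable) with the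
set `S` for `gammaSet N 1 a` and `pt k μ v` for `eisSummand k v` (`summand_bound_of_mem_verticalStrip`,
`norm_pt_le`). Each term is holomorphic: `pt k μ v τ = ee (μ * (gv v • τ)) / (v 0 τ + v 1) ^ k`,
`gv v • τ = (a τ + b)/(c τ + d)` with `c τ + d ≠ 0` (`UpperHalfPlane.specialLinearGroup_apply`,
`denom_ne_zero`); `(v 0 τ + v 1) ^ k` is nonzero on the upper half plane unless `v = 0`, and for
`v = 0` the term is `_ / 0 ^ k = 0` (`k ≥ 3`).
-/

namespace H94M

open UpperHalfPlane Real MatrixGroups CongruenceSubgroup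
open scoped ModularForm Manifold

theorem summable_pt (k μ : ℕ) (hk : 3 ≤ k) (S : Set (Fin 2 → ℤ)) (τ : ℍ) :
    Summable fun v : S => ‖pt k μ v τ‖ := by
  have h1 : Summable fun v : Fin 2 → ℤ => ‖pt k μ v τ‖ :=
    Summable.of_nonneg_of_le (fun _ => norm_nonneg _) (fun v => norm_pt_le k μ v τ)
      (EisensteinSeries.summable_norm_eisSummand (by exact_mod_cast hk) τ)
  exact h1.subtype S

/-- Each term is holomorphic. -/
theorem pt_diff (k μ : ℕ) (hk : 1 ≤ k) (v : Fin 2 → ℤ) :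
    DifferentiableOn ℂ ((pt k μ v) ∘ ofComplex) {z : ℂ | 0 < z.im} := by
  obtain ⟨g, hg⟩ : ∃ g, g = gv v := ⟨_, rfl⟩
  have hden : ∀ z : ℂ, 0 < z.im → (g 1 0 : ℂ) * z + (g 1 1 : ℂ) ≠ 0 := by
    intro z hz
    have h := denom_ne_zero g (⟨z, hz⟩ : ℍ)
    rw [PP1_denom] at h
    exact h
  by_cases hv : v = 0
  · have h0 : (pt k μ v) ∘ ofComplex = fun _ => 0 := by
      ext z
      rw [hv]
      show pt k μ 0 (ofComplex z) = 0
      unfold pt
      simp only [Pi.zero_apply, Int.cast_zero, zero_mul, add_zero]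
      rw [zero_pow (by omega), div_zero]
    rw [h0]
    exact differentiableOn_const 0
  have hvne : ∀ z : ℂ, 0 < z.im → ((v 0 : ℂ) * z + (v 1 : ℂ)) ≠ 0 := by
    intro z hz h
    have h1 : (v 0 : ℝ) * z.im = 0 := by
      have := congrArg Complex.im h
      simpa using this
    have h2 : v 0 = 0 := by
      rcases mul_eq_zero.1 h1 with h3 | h3
      · exact_mod_cast h3
      · exact absurd h3 hz.ne'
    rw [h2] at h
    have h3 : v 1 = 0 := by
      simpa using h
    apply hv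
    ext j
    fin_cases j
    · exact h2
    · exact h3
  have h1 : DifferentiableOn ℂ (fun z : ℂ => ee ((μ : ℂ) *
      (((g 0 0 : ℂ) * z + (g 0 1 : ℂ)) / ((g 1 0 : ℂ) * z + (g 1 1 : ℂ)))) /
        ((v 0 : ℂ) * z + (v 1 : ℂ)) ^ k) {z : ℂ | 0 < z.im} := by
    intro z hz
    have e1 : DifferentiableAt ℂ (fun z : ℂ => ((g 0 0 : ℂ) * z + (g 0 1 : ℂ)) /
        ((g 1 0 : ℂ) * z + (g 1 1 : ℂ))) z := by
      refine DifferentiableAt.div ?_ ?_ (hden z hz)
      · fun_prop
      · fun_prop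
    have e2 : DifferentiableAt ℂ (fun z : ℂ => ee ((μ : ℂ) *
        (((g 0 0 : ℂ) * z + (g 0 1 : ℂ)) / ((g 1 0 : ℂ) * z + (g 1 1 : ℂ))))) z := by
      unfold ee
      exact ((e1.const_mul _).const_mul _).cexp
    have e3 : DifferentiableAt ℂ (fun z : ℂ => ((v 0 : ℂ) * z + (v 1 : ℂ)) ^ k) z := by
      fun_prop
    exact (e2.div e3 (pow_ne_zero _ (hvne z hz))).differentiableWithinAt
  refine h1.congr fun z hz => ?_
  show pt k μ v (ofComplex z) = _
  unfold pt
  rw [← hg, PP1_coe, ofComplex_apply_of_im_pos hz]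

theorem PP2_unif (k μ : ℕ) (hk : 3 ≤ k) (S : Set (Fin 2 → ℤ)) :
    TendstoLocallyUniformly (fun (s : Finset S) => (fun τ : ℍ => ∑ v ∈ s, pt k μ v τ))
      (fun τ : ℍ => ∑' v : S, pt k μ v τ) Filter.atTop := by
  have hk' : (2 : ℝ) < k := by
    have : (3 : ℝ) ≤ k := by exact_mod_cast hk
    linarith
  have p_sum : Summable fun x : S => ‖x.val‖ ^ (-(k : ℝ)) :=
    (EisensteinSeries.summable_one_div_norm_rpow hk').subtype S
  rw [tendstoLocallyUniformly_iff_forall_isCompact]
  intro K hK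
  obtain ⟨A, B, hB, HABK⟩ := subset_verticalStrip_of_isCompact hK
  refine (tendstoUniformlyOn_tsum (hu := p_sum.mul_left <|
    EisensteinSeries.r ⟨⟨A, B⟩, hB⟩ ^ (-k : ℝ)) (fun p z hz => ?_)).mono HABK
  refine (norm_pt_le k μ p z).trans ?_
  have h := EisensteinSeries.summand_bound_of_mem_verticalStrip (k := (k : ℝ)) (by positivity)
    p.val hB hz
  unfold EisensteinSeries.eisSummand
  rw [norm_zpow, ← Real.rpow_intCast]
  push_cast
  exact h

theorem PS_mdiff (k μ : ℕ) (hk : 3 ≤ k) (S : Set (Fin 2 → ℤ)) :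
    MDifferentiable 𝓘(ℂ) 𝓘(ℂ) (PS k μ S) := by
  rw [mdifferentiable_iff]
  have h1 : TendstoLocallyUniformlyOn
      (fun (s : Finset S) => ((fun τ : ℍ => ∑ v ∈ s, pt k μ v τ) ∘ ofComplex))
      ((fun τ : ℍ => ∑' v : S, pt k μ v τ) ∘ ofComplex) Filter.atTop {z : ℂ | 0 < z.im} := by
    rw [← upperHalfPlaneSet, ← range_coe, ← Set.image_univ]
    apply TendstoLocallyUniformlyOn.comp (s := ⊤) _ _ _ (OpenPartialHomeomorph.continuousOn_symm _)
    · simp only [Set.top_eq_univ, tendstoLocallyUniformlyOn_univ]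
      exact PP2_unif k μ hk S
    · simp only [Topology.IsOpenEmbedding.toOpenPartialHomeomorph_target, Set.top_eq_univ,
        Set.mapsTo_range_iff, Set.mem_univ, forall_const]
  have h2 := h1.differentiableOn (Filter.Eventually.of_forall fun s => by
    have : ((fun τ : ℍ => ∑ v ∈ s, pt k μ v τ) ∘ ofComplex) =
        fun z => ∑ v ∈ s, ((pt k μ v) ∘ ofComplex) z := by
      ext z
      rfl
    rw [this]
    exact DifferentiableOn.fun_sum fun v _ => pt_diff k μ (by omega) v)
    isOpen_upperHalfPlaneSet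
  exact h2.const_mul (1 / 2)

end H94M
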