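import Pool.Agent.Lib.H94M.PT2
import Pool.Agent.Lib.H94M.PP2

set_option autoImplicit false

/-!
# H94M, chunk PT4 (M): the Petersson integrand of `f` and a Poincaré series as a sum over `Γ₀(N)`

PROOF. Let `H z = petersson k f (ee (μ ·)) z = conj (f z) ee (μ z) y^k`; `H (z + n) = H z` for
integers `n` (`f` is invariant under `T ∈ Γ₀(N)`, `ee_add_int`).
(1) For a coprime row `v ∈ Row N`, `g = gv v ∈ Γ₀(N)`: `H (g • z) = petersson k f (pt k μ v) z`:
`f (g • z) = j^k f z` (`SlashInvariantForm.slash_action_eqn_SL''` or similar), `j = denom g z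
= v 0 z + v 1`, `Im (g • z) = y / |j|²` (`UpperHalfPlane.im_smul_eq_div_normSq`), so
`conj j^k * (y/|j|²)^k = y^k / j^k`.
(2) `Γ₀(N) ≃ Row N × ℤ`, `(v, n) ↦ T^n gv v` (as in `pt_eq`: a matrix is determined by its bottom row
up to `T^n`). `Fs (T^n gv v • z) = H (gv v • z)` if `n = -⌊Re (gv v • z)⌋` and `0` otherwise.
(3) So the family `(v, n) ↦ Fs (..)` is supported on the image of the injection
`v ↦ (v, -⌊Re (gv v • z)⌋)`: `Function.Injective.hasSum_iff`; it remains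
`HasSum (v ↦ petersson k f (pt k μ v) z) (petersson k f (2 PS) z)`: `HasSum.mul_left`,
`summable_pt`, definition of `PS` (with the factor `1/2`).
-/

namespace H94M

open UpperHalfPlane Real MatrixGroups CongruenceSubgroup MeasureTheory
open scoped ModularForm

theorem PT4_row (N k μ : ℕ) (f : CuspForm (G0 N) (k : ℤ)) (z : ℍ) {g : SL(2, ℤ)}
    (hg : g ∈ Gamma0 N) :
    petersson (k : ℤ) f (fun w => ee ((μ : ℂ) * (w : ℂ))) (g • z) =
      (starRingEnd ℂ) (f z) * (ee ((μ : ℂ) * ((g • z : ℍ) : ℂ)) /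
        ((g 1 0 : ℂ) * z + (g 1 1 : ℂ)) ^ k) * ((z.im : ℝ) : ℂ) ^ (k : ℤ) := by
  unfold petersson
  have h1 : f (g • z) = (denom g z) ^ (k : ℤ) * f z :=
    SlashInvariantForm.slash_action_eqn_SL'' f hg z
  have hne : denom g z ≠ 0 := denom_ne_zero g z
  rw [PP1_denom] at h1 hne
  have h2 : ((((g • z).im : ℝ)) : ℂ) = ((z.im : ℝ) : ℂ) /
      (((g 1 0 : ℂ) * z + (g 1 1 : ℂ)) *
        (starRingEnd ℂ) ((g 1 0 : ℂ) * z + (g 1 1 : ℂ))) := by
    rw [ModularGroup.im_smul_eq_div_normSq, Complex.ofReal_div, PP1_denom, Complex.mul_conj]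
  rw [h1, h2, map_mul, map_zpow₀]
  have hne' : (starRingEnd ℂ) ((g 1 0 : ℂ) * z + (g 1 1 : ℂ)) ≠ 0 := by
    rw [Ne, map_eq_zero]
    exact hne
  obtain ⟨j, hj⟩ : ∃ j, j = (g 1 0 : ℂ) * z + (g 1 1 : ℂ) := ⟨_, rfl⟩
  rw [← hj] at hne hne' ⊢
  simp only [zpow_natCast]
  rw [div_pow, mul_pow]
  field_simp

theorem PT4_T (N k μ : ℕ) (f : CuspForm (G0 N) (k : ℤ)) (z : ℍ) (n : ℤ) :
    petersson (k : ℤ) f (fun w => ee ((μ : ℂ) * (w : ℂ))) (ModularGroup.T ^ n • z) =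
      petersson (k : ℤ) f (fun w => ee ((μ : ℂ) * (w : ℂ))) z := by
  have hT : (ModularGroup.T ^ n : SL(2, ℤ)) ∈ Gamma0 N := by
    rw [Gamma0_mem, ModularGroup.coe_T_zpow]
    simp
  rw [PT4_row N k μ f z hT]
  unfold petersson
  have h1 : ((ModularGroup.T ^ n : SL(2, ℤ)) 1 0 : ℂ) * z +
      ((ModularGroup.T ^ n : SL(2, ℤ)) 1 1 : ℂ) = 1 := by
    rw [ModularGroup.coe_T_zpow]
    simp
  have h2 : ((ModularGroup.T ^ n • z : ℍ) : ℂ) = (z : ℂ) + n := by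
    rw [PP1_coe, ModularGroup.coe_T_zpow]
    simp
  rw [h1, one_pow, div_one, h2, mul_add]
  have e : (μ : ℂ) * (n : ℂ) = (((μ : ℤ) * n : ℤ) : ℂ) := by push_cast; ring
  rw [e, ee_add_int]

theorem PT4_mem {N : ℕ} {v : Fin 2 → ℤ} (hv : v ∈ Row N) : gv v ∈ Gamma0 N := by
  rw [Gamma0_mem, gv_row hv.1]
  exact (ZMod.intCast_zmod_eq_zero_iff_dvd _ _).2 hv.2

theorem PT4_Tmem (N : ℕ) (n : ℤ) : (ModularGroup.T ^ n : SL(2, ℤ)) ∈ Gamma0 N := by
  rw [Gamma0_mem, ModularGroup.coe_T_zpow]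
  simp

/-- The bijection of rows and translations with `Γ₀(N)`. -/
noncomputable def PT4_e (N : ℕ) (x : Row N × ℤ) : Gamma0 N :=
  ⟨ModularGroup.T ^ x.2 * gv x.1, mul_mem (PT4_Tmem N x.2) (PT4_mem x.1.2)⟩

theorem PT4_entry (n : ℤ) (g : SL(2, ℤ)) :
    (ModularGroup.T ^ n * g) 0 0 = g 0 0 + n * g 1 0 ∧
    (ModularGroup.T ^ n * g) 0 1 = g 0 1 + n * g 1 1 ∧
    (ModularGroup.T ^ n * g) 1 0 = g 1 0 ∧ (ModularGroup.T ^ n * g) 1 1 = g 1 1 := by
  refine ⟨?_, ?_, ?_, ?_⟩ <;>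
  · rw [Matrix.SpecialLinearGroup.coe_mul, Matrix.mul_apply, ModularGroup.coe_T_zpow]
    simp [Fin.sum_univ_two]

theorem PT4_bij (N : ℕ) : Function.Bijective (PT4_e N) := by
  constructor
  · rintro ⟨⟨v, hv⟩, n⟩ ⟨⟨w, hw⟩, m⟩ h
    have h1 : ModularGroup.T ^ n * gv v = ModularGroup.T ^ m * gv w := congrArg Subtype.val h
    obtain ⟨a1, a2, a3, a4⟩ := PT4_entry n (gv v)
    obtain ⟨b1, b2, b3, b4⟩ := PT4_entry m (gv w)
    have hvw : v = w := by
      ext j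
      fin_cases j
      · rw [h1, b3, gv_row hv.1, gv_row hw.1] at a3
        exact a3.symm
      · rw [h1, b4, gv_row hv.1, gv_row hw.1] at a4
        exact a4.symm
    subst hvw
    have h2 : (ModularGroup.T ^ n : SL(2, ℤ)) = ModularGroup.T ^ m := mul_right_cancel h1
    have h3 : n = m := by
      have h4 := congrArg (fun g : SL(2, ℤ) => g 0 1) h2
      simpa [ModularGroup.coe_T_zpow] using h4
    subst h3
    rfl
  · rintro ⟨γ, hγ⟩
    obtain ⟨v, hv⟩ : ∃ v : Fin 2 → ℤ, v = γ 1 := ⟨_, rfl⟩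
    have hco : IsCoprime (v 0) (v 1) := by
      rw [hv]
      exact ⟨-γ 0 1, γ 0 0, by linear_combination PP1_det γ⟩
    have hrow : v ∈ Row N := by
      refine ⟨hco, ?_⟩
      rw [hv]
      exact (ZMod.intCast_zmod_eq_zero_iff_dvd _ _).1 (Gamma0_mem.1 hγ)
    have r0 : γ 1 0 = gv v 1 0 := by rw [gv_row hco, hv]
    have r1 : γ 1 1 = gv v 1 1 := by rw [gv_row hco, hv]
    obtain ⟨n, n0, n1, -⟩ := same_row γ (gv v) r0 r1
    refine ⟨(⟨v, hrow⟩, n), ?_⟩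
    apply Subtype.ext
    show ModularGroup.T ^ n * gv v = γ
    obtain ⟨a1, a2, a3, a4⟩ := PT4_entry n (gv v)
    ext i j
    fin_cases i <;> fin_cases j
    · show (ModularGroup.T ^ n * gv v) 0 0 = γ 0 0
      rw [a1, n0]
    · show (ModularGroup.T ^ n * gv v) 0 1 = γ 0 1
      rw [a2, n1]
    · show (ModularGroup.T ^ n * gv v) 1 0 = γ 1 0
      rw [a3, r0]
    · show (ModularGroup.T ^ n * gv v) 1 1 = γ 1 1
      rw [a4, r1]

theorem PT4_re (n : ℤ) (z : ℍ) : (ModularGroup.T ^ n • z).re = z.re + n := by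
  have h2 : ((ModularGroup.T ^ n • z : ℍ) : ℂ) = (z : ℂ) + n := by
    rw [PP1_coe, ModularGroup.coe_T_zpow]
    simp
  have h3 := congrArg Complex.re h2
  simpa using h3

theorem petersson_unfold (N k μ : ℕ) [NeZero N] (hk : 3 ≤ k) (f : CuspForm (G0 N) (k : ℤ))
    (z : ℍ) :
    HasSum (fun γ : Gamma0 N => Fs k μ f ((γ : SL(2, ℤ)) • z))
      (2 * petersson (k : ℤ) f (PS k μ (Row N)) z) := by
  rw [← (Equiv.ofBijective _ (PT4_bij N)).hasSum_iff]
  have hi : Function.Injective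
      (fun v : Row N => ((v, -⌊(gv (v : Fin 2 → ℤ) • z).re⌋) : Row N × ℤ)) := by
    intro v w h
    exact (Prod.ext_iff.1 h).1
  rw [← hi.hasSum_iff]
  · have h1 : ((fun γ : Gamma0 N => Fs k μ f ((γ : SL(2, ℤ)) • z)) ∘
        (Equiv.ofBijective _ (PT4_bij N))) ∘
        (fun v : Row N => ((v, -⌊(gv (v : Fin 2 → ℤ) • z).re⌋) : Row N × ℤ)) =
        fun v : Row N => (starRingEnd ℂ) (f z) * pt k μ v z * ((z.im : ℝ) : ℂ) ^ (k : ℤ) := by
      ext v
      show Fs k μ f ((ModularGroup.T ^ (-⌊(gv (v : Fin 2 → ℤ) • z).re⌋) * gv (v : Fin 2 → ℤ)) • z)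
        = _
      rw [mul_smul]
      unfold Fs
      rw [if_pos, PT4_T, PT4_row N k μ f z (PT4_mem v.2), gv_row v.2.1, gv_row v.2.1]
      · rfl
      · rw [PT4_re]
        push_cast
        constructor
        · have := Int.floor_le (gv (v : Fin 2 → ℤ) • z).re
          linarith
        · have := Int.lt_floor_add_one (gv (v : Fin 2 → ℤ) • z).re
          linarith
    rw [h1]
    have h2 : 2 * petersson (k : ℤ) f (PS k μ (Row N)) z =
        (starRingEnd ℂ) (f z) * (∑' v : Row N, pt k μ v z) * ((z.im : ℝ) : ℂ) ^ (k : ℤ) := by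
      unfold petersson PS
      ring
    rw [h2]
    exact ((summable_pt k μ hk (Row N) z).of_norm.hasSum.mul_left _).mul_right _
  · rintro ⟨v, n⟩ hx
    show Fs k μ f ((ModularGroup.T ^ n * gv (v : Fin 2 → ℤ)) • z) = 0
    rw [mul_smul]
    unfold Fs
    rw [if_neg]
    rintro ⟨a, b⟩
    rw [PT4_re] at a b
    apply hx
    refine ⟨v, ?_⟩
    have h3 : ⌊(gv (v : Fin 2 → ℤ) • z).re⌋ = -n := by
      rw [Int.floor_eq_iff]
      push_cast
      constructor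
      · linarith
      · linarith
    show (v, -⌊(gv (v : Fin 2 → ℤ) • z).re⌋) = (v, n)
    rw [h3, neg_neg]

end H94M
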