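import Pool.Agent.Lib.H94M.PT5
import Pool.Agent.Lib.H94M.QA0

set_option autoImplicit false

/-!
# H94M, chunk PT6 (S/M): linearity of the Petersson product in the second variable

PROOF. For cusp forms `f, g`: `z ↦ petersson k f g (γ • z)` is continuous and bounded
(`CuspFormClass.petersson_bounded_left`, `G0 N` is arithmetic), and `𝒟` has finite volume
(`volume_fd_lt_top`): integrable on `𝒟` (`Measure.integrableOn_of_bounded`). The quotient is finite:
`tsum_fintype`, `integral_finset_sum`, `petersson k f (g₁ + g₂) = petersson k f g₁ + petersson k f g₂`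
and `petersson k f (c • g) = c * petersson k f g` pointwise. (One can also state both properties for
the sum and use `integral_add`, `integral_const_mul`.)
-/

namespace H94M

open UpperHalfPlane MatrixGroups CongruenceSubgroup MeasureTheory ModularGroup
open scoped Modular ModularForm
open Pool.Agent.Lib.Maass

theorem PT6_int (N k : ℕ) [NeZero N] (f g : CuspForm (G0 N) (k : ℤ)) (γ : SL(2, ℤ)) :
    IntegrableOn (fun z : ℍ => petersson (k : ℤ) f g (γ • z)) (𝒟 : Set ℍ) := by
  obtain ⟨C, hC⟩ := CuspFormClass.petersson_bounded_left (k : ℤ) (G0 N) f g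
  have hcont : Continuous (petersson (k : ℤ) f g) :=
    petersson_continuous (k : ℤ) f.holo'.continuous g.holo'.continuous
  have hmeas : AEStronglyMeasurable (fun z : ℍ => petersson (k : ℤ) f g (γ • z)) volume :=
    (hcont.measurable.comp (measurePreserving_SL_smul γ).measurable).aestronglyMeasurable
  refine Measure.integrableOn_of_bounded (M := C) volume_fd_lt_top.ne hmeas ?_
  exact Filter.Eventually.of_forall fun z => hC _

theorem PT6_sum_int (N k : ℕ) [NeZero N] (f g : CuspForm (G0 N) (k : ℤ)) :
    IntegrableOn (fun z : ℍ => ∑' q : SL(2, ℤ) ⧸ Gamma0 N,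
      petersson (k : ℤ) f g ((Quotient.out q)⁻¹ • z)) (𝒟 : Set ℍ) := by
  haveI : Fintype (SL(2, ℤ) ⧸ Gamma0 N) := Fintype.ofFinite _
  simp only [tsum_fintype]
  exact integrable_finset_sum _ fun q _ => PT6_int N k f g _

theorem exists_B (N k : ℕ) [NeZero N] (f : CuspForm (G0 N) (k : ℤ)) :
    ∃ L : CuspForm (G0 N) (k : ℤ) →ₗ[ℂ] ℂ, ∀ g : CuspForm (G0 N) (k : ℤ),
      L g = Bq N (petersson (k : ℤ) f g) := by
  refine ⟨{ toFun := fun g => Bq N (petersson (k : ℤ) f g), map_add' := ?_, map_smul' := ?_ },
    fun g => rfl⟩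
  · intro g₁ g₂
    unfold Bq
    rw [← integral_add (PT6_sum_int N k f g₁) (PT6_sum_int N k f g₂)]
    haveI : Fintype (SL(2, ℤ) ⧸ Gamma0 N) := Fintype.ofFinite _
    refine integral_congr_ae (Filter.Eventually.of_forall fun z => ?_)
    simp only [tsum_fintype]
    rw [← Finset.sum_add_distrib]
    refine Finset.sum_congr rfl fun q _ => ?_
    simp only [petersson, CuspForm.add_apply]
    ring
  · intro c g
    unfold Bq
    rw [RingHom.id_apply, smul_eq_mul, ← integral_const_mul]
    haveI : Fintype (SL(2, ℤ) ⧸ Gamma0 N) := Fintype.ofFinite _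
    refine integral_congr_ae (Filter.Eventually.of_forall fun z => ?_)
    simp only [tsum_fintype]
    rw [Finset.mul_sum]
    refine Finset.sum_congr rfl fun q _ => ?_
    simp only [petersson, CuspForm.smul_apply, smul_eq_mul]
    ring

end H94M
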