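import Pool.Agent.Lib.H94M.QA5

set_option autoImplicit false

/-!
# H94M, chunk PT7 (S/M): the space of cusp forms has finite dimension

PROOF. `dependent` (QA5): any `r = k mu/12 + 2` modular forms have linearly dependent q-expansions, so
any `r` cusp forms `f_i` are linearly dependent: `Σ x_i qExpansion f_i = 0`, hence
`qExpansion (Σ x_i f_i) = 0` (additivity: `ModularForm.qExpansion_add`, `qExpansion_smul`,
`ModularForm.qExpansionAddHom`), so `Σ x_i f_i = 0` (`ModularForm.qExpansion_eq_zero_iff`). A vector space in
which every family of `r` vectors is linearly dependent is finite dimensional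
(`Module.finite_of_finrank_pos`... ; e.g. `Module.Finite` from `Module.rank < ℵ₀`,
`rank_lt_aleph0_iff`, `exists_linearIndependent...`: if not finite, `Module.Free.chooseBasis`/
`Basis.ofVectorSpace` is infinite and contains `r` independent vectors). A cusp form is
regarded as a modular form by its fields (`bdd_at_cusps' hc g hg := (zero_at_cusps' ..).boundedAtFilter`;
or `ModularForm` coercion of Mathlib CuspFormSubmodule.lean).
-/

namespace H94M

open UpperHalfPlane MatrixGroups CongruenceSubgroup
open scoped ModularForm

theorem PT7_modular_finite (N k : ℕ) [NeZero N] : Module.Finite ℂ (ModularForm (G0 N) (k : ℤ)) := by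
  rw [← Module.rank_lt_aleph0_iff]
  refine lt_of_le_of_lt (rank_le (n := k * mu N / 12 + 1) fun s hs => ?_) (Cardinal.natCast_lt_aleph0)
  by_contra hc
  push Not at hc
  let F : Fin s.card → ModularForm (G0 N) (k : ℤ) := fun i => (s.equivFin.symm i : _)
  have hF : LinearIndependent ℂ F := hs.comp _ s.equivFin.symm.injective
  obtain ⟨x, hx, hx0⟩ := dependent N k s.card hc F
  apply hx
  have h1 : (∑ i, x i • F i : ModularForm (G0 N) (k : ℤ)) = 0 := by
    rw [← ModularForm.qExpansion_eq_zero_iff zero_lt_one (one_mem_strictPeriods N), QA5_qexp]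
    exact hx0
  exact funext fun i => Fintype.linearIndependent_iff.1 hF x h1 i

theorem cusp_finite (N k : ℕ) [NeZero N] : Module.Finite ℂ (CuspForm (G0 N) (k : ℤ)) := by
  have := PT7_modular_finite N k
  exact Module.Finite.of_injective _ (CuspForm.toModularFormₗ_injective (Γ := G0 N) (k := (k : ℤ)))

end H94M
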