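import Pool.Agent.Lib.H94M.PP5
import Pool.Agent.Lib.H94M.PT3
import Pool.Agent.Lib.H94M.PT4
import Pool.Agent.Lib.H94M.PT6
import Pool.Agent.Lib.H94M.PT7

set_option autoImplicit false

/-!
# H94M, chunk PT8 (M): the Poincaré series span the space of cusp forms

PROOF. `P μ` (`μ ≥ 1`): the cusp form with `P μ = PS k μ (Row N)` (`stPP`). For a cusp form `f`,
`L_f` the linear functional of `exists_B`. `L_f (P μ) = Bq N (petersson k f (PS k μ (Row N)))
= ∫ Fs k μ f = r_μ conj (ac f μ)`, `r_μ ≠ 0` (`Bq_unfold` with `petersson_unfold`,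
`Fs_integrable`; `Fs_integral`).
Linear algebra: `S = CuspForm (G0 N) k` is finite dimensional (`cusp_finite`). Let
`V = span (range (μ ↦ P (μ + 1)))`; by `exists_linearIndependent ℂ (range ..)` there is
`b ⊆ range ..`, `span b = V`, linearly independent, so `b` is finite with `finrank V` elements
(`finrank_span_set_eq_card`). Choose `m β ≥ 1` with `β = P (m β)` for `β ∈ b`. The map
`T : S → (b → ℂ)`, `f ↦ (ac f (m β))_β` is linear (`ac` is a coefficient of the q-expansion) and
injective: if `ac f (m β) = 0` for all `β ∈ b`, then `L_f β = 0` for `β ∈ b`, so `L_f = 0` on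
`span b = V`, so `L_f (P μ) = 0` and `ac f μ = 0` for all `μ ≥ 1`; so the q-expansion of `f` is
zero (the coefficient of index 0 is zero for a cusp form) and `f = 0`
(`ModularForm.qExpansion_eq_zero_iff`). Hence `finrank S ≤ card b = finrank V`
(`LinearMap.finrank_le_finrank_of_injective`), `V = ⊤` (`Submodule.eq_top_of_finrank_eq`).
So `f ∈ span`, i.e. a finite linear combination (`Finsupp.mem_span_range_iff_exists_finsupp`), evaluate
at `τ`.
-/

namespace H94M

open UpperHalfPlane Real MatrixGroups CongruenceSubgroup MeasureTheory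
open scoped ModularForm

/-- The Petersson product of `f` with the Poincaré series. -/
theorem pet_poincare (N k μ : ℕ) [NeZero N] (hk : 3 ≤ k) (hμ : 1 ≤ μ) :
    ∃ r : ℂ, r ≠ 0 ∧ ∀ f : CuspForm (G0 N) (k : ℤ),
      Bq N (petersson (k : ℤ) f (PS k μ (Row N))) = r * (starRingEnd ℂ) (ac f μ) := by
  obtain ⟨r, hr, h⟩ := Fs_integral N k μ hk hμ
  refine ⟨r, hr, fun f => ?_⟩
  rw [← h f]
  exact Bq_unfold N _ _ (Fs_integrable N k μ hk hμ f) (petersson_unfold N k μ hk f)

theorem PT8_ac (N k μ : ℕ) (hμ : 1 ≤ μ) (f : CuspForm (G0 N) (k : ℤ)) :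
    ac f μ = PowerSeries.coeff μ (qExpansion 1 (f : ℍ → ℂ)) := by
  unfold ac
  rw [if_pos (by exact_mod_cast hμ)]
  rw [Int.toNat_natCast]

theorem PT8_add (N k μ : ℕ) (hμ : 1 ≤ μ) (f g : CuspForm (G0 N) (k : ℤ)) :
    ac ((f + g : CuspForm (G0 N) (k : ℤ)) : ℍ → ℂ) μ = ac f μ + ac g μ := by
  rw [PT8_ac N k μ hμ, PT8_ac N k μ hμ, PT8_ac N k μ hμ]
  have h := ModularForm.qExpansion_add (Γ := G0 N) one_pos (one_mem_strictPeriods N) f g
  have e : ((f + g : CuspForm (G0 N) (k : ℤ)) : ℍ → ℂ) = (f : ℍ → ℂ) + (g : ℍ → ℂ) := rfl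
  rw [e, h, map_add]

theorem PT8_smul (N k μ : ℕ) (hμ : 1 ≤ μ) (c : ℂ) (f : CuspForm (G0 N) (k : ℤ)) :
    ac ((c • f : CuspForm (G0 N) (k : ℤ)) : ℍ → ℂ) μ = c * ac f μ := by
  rw [PT8_ac N k μ hμ, PT8_ac N k μ hμ]
  have h := ModularForm.qExpansion_smul (Γ := G0 N) one_pos (one_mem_strictPeriods N) c f
  have e : ((c • f : CuspForm (G0 N) (k : ℤ)) : ℍ → ℂ) = c • (f : ℍ → ℂ) := by
    ext z
    simp
  rw [e, h, PowerSeries.coeff_smul, smul_eq_mul]

theorem PT8_eq_zero (N k : ℕ) [NeZero N] (f : CuspForm (G0 N) (k : ℤ))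
    (h : ∀ μ : ℕ, 1 ≤ μ → ac f μ = 0) : f = 0 := by
  have hq : qExpansion 1 (f : ℍ → ℂ) = 0 := by
    ext n
    rcases Nat.eq_zero_or_pos n with hn | hn
    · subst hn
      rw [CuspFormClass.qExpansion_coeff_zero f one_pos (one_mem_strictPeriods N), map_zero]
    · rw [← PT8_ac N k n hn, h n hn, map_zero]
  haveI : Fact (IsCusp OnePoint.infty (G0 N)) :=
    ⟨(G0 N).isCusp_of_mem_strictPeriods one_pos (one_mem_strictPeriods N)⟩
  have h1 := (UpperHalfPlane.qExpansion_eq_zero_iff one_pos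
    (SlashInvariantFormClass.periodic_comp_ofComplex f (one_mem_strictPeriods N))
    (ModularFormClass.holo f) (ModularFormClass.bdd_at_infty f)).1 hq
  exact DFunLike.coe_injective (by rw [h1]; rfl)

theorem stPT : StPT := by
  intro N k hN hk hev f
  haveI : NeZero N := ⟨by omega⟩
  have hP : ∀ μ : ℕ, ∃ F : CuspForm (G0 N) (k : ℤ), (F : ℍ → ℂ) = PS k (μ + 1) (Row N) :=
    fun μ => stPP N k (μ + 1) hN hk (by omega)
  choose P hPS using hP
  choose L hL using exists_B N k
  have hr : ∀ μ : ℕ, ∃ r : ℂ, r ≠ 0 ∧ ∀ g : CuspForm (G0 N) (k : ℤ),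
      L g (P μ) = r * (starRingEnd ℂ) (ac g ((μ + 1 : ℕ) : ℤ)) := by
    intro μ
    obtain ⟨r, hr0, hr⟩ := pet_poincare N k (μ + 1) (by omega) (by omega)
    refine ⟨r, hr0, fun g => ?_⟩
    rw [hL, hPS]
    exact hr g
  haveI := cusp_finite N k
  obtain ⟨b, hbP, hspan, hli⟩ := exists_linearIndependent ℂ (Set.range P)
  haveI hbfin : Finite b := hli.finite
  haveI : Fintype b := Fintype.ofFinite b
  have hm' : ∀ β : b, ∃ m : ℕ, P m = β := fun β => hbP β.2
  choose m hm using hm'
  obtain ⟨T, hT⟩ : ∃ T : CuspForm (G0 N) (k : ℤ) →ₗ[ℂ] (b → ℂ),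
      ∀ g β, T g β = ac g ((m β + 1 : ℕ) : ℤ) :=
    ⟨{ toFun := fun g β => ac g ((m β + 1 : ℕ) : ℤ)
       map_add' := fun g h => by
         ext β
         exact PT8_add N k (m β + 1) (by omega) g h
       map_smul' := fun c g => by
         ext β
         exact PT8_smul N k (m β + 1) (by omega) c g }, fun _ _ => rfl⟩
  have hinj : Function.Injective T := by
    rw [← LinearMap.ker_eq_bot, LinearMap.ker_eq_bot']
    intro g hg
    have h1 : ∀ x ∈ Submodule.span ℂ b, L g x = 0 := by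
      intro x hx
      induction hx using Submodule.span_induction with
      | mem x hx =>
        obtain ⟨r, -, hr⟩ := hr (m ⟨x, hx⟩)
        have h2 := hr g
        rw [hm ⟨x, hx⟩, ← hT g ⟨x, hx⟩, hg] at h2
        simpa using h2
      | zero => exact map_zero _
      | add x y _ _ hx hy => rw [map_add, hx, hy, add_zero]
      | smul c x _ hx => rw [map_smul, hx, smul_zero]
    refine PT8_eq_zero N k g fun μ hμ => ?_
    obtain ⟨μ', rfl⟩ : ∃ μ', μ = μ' + 1 := ⟨μ - 1, by omega⟩
    obtain ⟨r, hr0, hr⟩ := hr μ'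
    have h2 : L g (P μ') = 0 := by
      refine h1 _ ?_
      rw [hspan]
      exact Submodule.subset_span ⟨μ', rfl⟩
    rw [hr g] at h2
    rcases mul_eq_zero.1 h2 with h3 | h3
    · exact absurd h3 hr0
    · exact (map_eq_zero _).1 h3
  have h3 := LinearMap.finrank_le_finrank_of_injective hinj
  rw [Module.finrank_fintype_fun_eq_card] at h3
  have h4 : Module.finrank ℂ (Submodule.span ℂ b) = Fintype.card b := by
    rw [finrank_span_set_eq_card hli, Set.toFinset_card]
  have h5 : Submodule.span ℂ b = ⊤ := by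
    refine Submodule.eq_top_of_finrank_eq (le_antisymm (Submodule.finrank_le _) ?_)
    rw [h4]
    exact h3
  have h6 : f ∈ Submodule.span ℂ (Set.range P) := by
    rw [← hspan, h5]
    exact Submodule.mem_top
  obtain ⟨c, hc⟩ := (Finsupp.mem_span_range_iff_exists_finsupp).1 h6
  refine ⟨c.support.map ⟨fun μ => μ + 1, fun a b h => by simpa using h⟩, fun μ => c (μ - 1),
    fun μ hμ => ?_, fun τ => ?_⟩
  · rw [Finset.mem_map] at hμ
    obtain ⟨a, -, ha⟩ := hμ
    have : μ = a + 1 := ha.symm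
    omega
  · rw [Finset.sum_map, ← hc, Finsupp.sum]
    have h7 : ∀ s : Finset ℕ, (∑ i ∈ s, c i • P i : CuspForm (G0 N) (k : ℤ)) τ =
        ∑ i ∈ s, c i * PS k (i + 1) (Row N) τ := by
      intro s
      induction s using Finset.induction_on with
      | empty =>
        rw [Finset.sum_empty, Finset.sum_empty]
        rfl
      | insert a s ha ih =>
        rw [Finset.sum_insert ha, Finset.sum_insert ha, ← ih, ← hPS a]
        rfl
    rw [h7]
    refine Finset.sum_congr rfl fun i _ => ?_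
    simp

end H94M
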