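import Pool.Agent.Lib.H94M.B8
import Pool.Agent.Lib.H94M.XNFin
import Pool.Agent.Lib.H94M.TM
import Pool.Agent.Lib.H94M.K7

/-!
# H94M: Theorem T, assembly

* `LO S` : the set `S` of primes is `o(√X / log X)`;
* `StP` : module P, for levels divisible by 5;
* `StK` : module K (proved).
-/

namespace H94M

open H53M UpperHalfPlane

/-- The primes in `S` are `o(√X / log X)`. -/
def LO (S : ℕ → Prop) : Prop := ∀ ε : ℝ, 0 < ε → ∃ X₀ : ℕ, ∀ X ≥ X₀,
  (Set.ncard {p : ℕ | p ≤ X ∧ p.Prime ∧ S p} : ℝ) * Real.log X ≤ ε * Real.sqrt X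

/-- Module P (levels divisible by 5). -/
def StP : Prop := ∀ (N k : ℕ), 1 ≤ N → 5 ∣ N → 4 ≤ k → Even k → ∀ (f : CuspForm (G0 N) (k : ℤ)),
  DTrans N k (GS (bc N k (fun n => PowerSeries.coeff n (qExpansion 1 (f : ℍ → ℂ)))))

/-- Module K. -/
def StK : Prop := ∀ (N k : ℕ), 1 ≤ N → 4 ≤ k → Even k → ∀ (c : ℕ → ℤ → ℤ), ArrN N k c →
  ∀ (p : ℕ) [Fact p.Prime], 5 < p → p % 5 = 2 →
  (∀ n m, c n m ≠ 0 → padicValInt p (NN n m) ≤ padicValInt p (c n m)) →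
  redQ p (hser c) ∈ MN N p (2 * k - 2 + (p - 1) * (2 * k - 1))

theorem stK : StK := by
  intro N k hN hk _ c hA p _ hp5 hp2 hd
  have : NeZero N := ⟨by omega⟩
  exact K8 (by omega) hA p hp5 (Or.inl hp2) hd

/-- Restriction to a smaller group. -/
noncomputable def resCusp {N M : ℕ} (h : G0 M ≤ G0 N) {k : ℤ} (F : CuspForm (G0 N) k) :
    CuspForm (G0 M) k where
  toFun := F
  slash_action_eq' γ hγ := F.slash_action_eq' γ (h hγ)
  holo' := F.holo'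
  zero_at_cusps' hc := F.zero_at_cusps' (hc.mono h)

theorem G0_mul_le (N : ℕ) : G0 (5 * N) ≤ G0 N := by
  rintro g ⟨γ, hγ, rfl⟩
  refine ⟨γ, ?_, rfl⟩
  have h1 : ((γ 1 0 : ℤ) : ZMod (5 * N)) = 0 := CongruenceSubgroup.Gamma0_mem.1 hγ
  refine CongruenceSubgroup.Gamma0_mem.2 ?_
  rw [ZMod.intCast_zmod_eq_zero_iff_dvd] at h1 ⊢
  have h2 : ((N : ℕ) : ℤ) ∣ ((5 * N : ℕ) : ℤ) := by
    push_cast
    exact Dvd.intro_left 5 rfl
  exact h2.trans h1

/-- A nonzero cusp form on `Γ₀(N)` has even weight. -/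
theorem even_of_ne (N k : ℕ) [NeZero N] (f : CuspForm (G0 N) (k : ℤ)) (hf : (f : ℍ → ℂ) ≠ 0) :
    Even k := by
  by_contra hc
  rw [Nat.not_even_iff_odd] at hc
  apply hf
  have h1 : (-1 : GL (Fin 2) ℝ) ∈ G0 N := by
    refine ⟨-1, ?_, ?_⟩
    · refine CongruenceSubgroup.Gamma0_mem.2 ?_
      simp
    · ext i j
      simp
  have hk : Odd (k : ℤ) := by exact_mod_cast hc
  have h2 := ModularForm.eq_zero_of_neg_one_mem h1 hk (f : ModularForm (G0 N) (k : ℤ))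
  funext τ
  have h3 := DFunLike.congr_fun h2 τ
  exact h3

theorem bc_level (N k : ℕ) {R : Type*} [Ring R] (a : ℕ → R) : bc (5 * N) k a = bc N k a := by
  funext n m
  exact bc_five N k a n m

/-- **Theorem T** (from module P). -/
theorem thmT_of (hP : StP) (N k : ℕ) [NeZero N] (hk : 4 ≤ k) (f : CuspForm (G0 N) (k : ℤ))
    (a : ℕ → ℤ) (ha : ∀ n, PowerSeries.coeff n (qExpansion 1 (f : ℍ → ℂ)) = (a n : ℂ))
    (h1 : a 1 ≠ 0) : ¬ LO (fun p => ∃ n r : ℕ, p ^ r ∣ n ∧ ¬ (p : ℤ) ^ r ∣ a n) := by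
  intro hE
  have hke : Even k := by
    refine even_of_ne N k f fun h => h1 ?_
    have h2 := ha 1
    rw [h, qExpansion_zero] at h2
    simpa using h2.symm
  have hN5 : NeZero (5 * N) := ⟨by have := NeZero.ne N; omega⟩
  have hN0 : 0 < 5 * N := Nat.pos_of_ne_zero hN5.1
  have hk2 : 2 ≤ k := by omega
  have hA : ArrN (5 * N) k (bc (5 * N) k a) := by
    refine arrN_bc (5 * N) k hk hke (resCusp (G0_mul_le N) f) a ha h1 ?_
    have h3 := hP (5 * N) k hN0 (Dvd.intro N rfl) hk hke (resCusp (G0_mul_le N) f)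
    have h4 : (fun n => PowerSeries.coeff n
        (qExpansion 1 (resCusp (G0_mul_le N) f : ℍ → ℂ))) = fun n => (a n : ℂ) := by
      funext n
      exact ha n
    rw [h4] at h3
    exact h3
  have hd : ∀ p : ℕ, p.Prime → ¬ (∃ n r : ℕ, p ^ r ∣ n ∧ ¬ (p : ℤ) ^ r ∣ a n) →
      ∀ n m, bc (5 * N) k a n m ≠ 0 →
      padicValInt p (NN n m) ≤ padicValInt p (bc (5 * N) k a n m) := by
    intro p hp hpE n m h
    refine bc_dvd (by omega) hp ?_ h
    intro n r hr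
    by_contra hc
    exact hpE ⟨n, r, hr, hc⟩
  refine not_relN hN0 hk2 hA (relN (by omega) hA _ hE hd ?_)
  intro p _ hp5 hp2 hpE
  exact stK (5 * N) k hN0 hk hke _ hA p hp5 hp2 (hd p (Fact.out) hpE)

end H94M
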