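import Pool.Agent.Lib.H94M.PZ6
import Pool.Agent.Lib.H94M.PE9
import Pool.Agent.Lib.H94M.PP5
import Pool.Agent.Lib.H94M.PC7
import Pool.Agent.Lib.H94M.PT8
import Pool.Agent.Lib.H94M.T0

set_option autoImplicit false

/-!
# H94M: module P and Theorem T
-/

namespace H94M

open UpperHalfPlane H53M

/-- **Module P.** -/
theorem stP : StP := fun N k hN h5 hk hke f =>
  PZ6_final PE9_identity stPP stPC stPT N k hN h5 hk hke f

/-- **Theorem T.** -/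
theorem thmT (N k : ℕ) [NeZero N] (hk : 4 ≤ k) (f : CuspForm (G0 N) (k : ℤ))
    (a : ℕ → ℤ) (ha : ∀ n, PowerSeries.coeff n (qExpansion 1 (f : ℍ → ℂ)) = (a n : ℂ))
    (h1 : a 1 ≠ 0) : ¬ LO (fun p => ∃ n r : ℕ, p ^ r ∣ n ∧ ¬ (p : ℤ) ^ r ∣ a n) :=
  thmT_of stP N k hk f a ha h1

end H94M
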