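import Pool.Agent.Lib.H94M.PB

set_option autoImplicit false

/-!
CHUNK PK1 (S/M).  The bilinear forms are bounded below by their coefficients.
-/

namespace H94M

open Real

theorem PK1_key (P R z : ℂ) (hz : 0 < z.im) (h : (P * (starRingEnd ℂ) R).im ≤ 0) :
    z.im * ‖P‖ ≤ ‖P * z + R‖ := by
  have h1 : ‖P * (starRingEnd ℂ) z + R‖ ^ 2 ≤ ‖P * z + R‖ ^ 2 := by
    rw [← Complex.normSq_eq_norm_sq, ← Complex.normSq_eq_norm_sq, Complex.normSq_apply,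
      Complex.normSq_apply]
    simp only [Complex.add_re, Complex.add_im, Complex.mul_re, Complex.mul_im, Complex.conj_re,
      Complex.conj_im] at h ⊢
    have h2 := mul_nonneg hz.le (neg_nonneg.mpr h)
    nlinarith
  have h2 : ‖P * (starRingEnd ℂ) z + R‖ ≤ ‖P * z + R‖ :=
    le_of_pow_le_pow_left₀ two_ne_zero (norm_nonneg _) h1
  have h3 : ‖P * z + R - (P * (starRingEnd ℂ) z + R)‖ = 2 * (z.im * ‖P‖) := by
    have e : P * z + R - (P * (starRingEnd ℂ) z + R) = P * ((2 * z.im : ℝ) * Complex.I) := by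
      have e1 : z - (starRingEnd ℂ) z = (2 * z.im : ℝ) * Complex.I := Complex.sub_conj z
      rw [← e1]
      ring
    rw [e, norm_mul, norm_mul, Complex.norm_I, mul_one, Complex.norm_real, Real.norm_eq_abs,
      abs_of_pos (by positivity)]
    ring
  have h4 := norm_sub_le (P * z + R) (P * (starRingEnd ℂ) z + R)
  rw [h3] at h4
  linarith

/-- CHUNK PK1.  For an index with `qf x y - a b ≥ 0` the value `X (z₁, z₂)` at points of the upper half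
plane in a bounded region dominates all the coefficients.

Proof.  Write `P = a z₁ + l'`, `R = l z₁ + b` (`l = x + y ω`, `l' = x + y ω'`), so
`X (z₁, z₂) = P z₂ + R`, `X (z₁, conj z₂) = P conj z₂ + R` and
`‖X (z₁, z₂)‖² - ‖X (z₁, conj z₂)‖² = - 4 y₂ Im (P conj R) = 4 y₁ y₂ (l l' - a b) ≥ 0`
(`Complex.normSq`, expand in real and imaginary parts; `l l' = qf x y` is `qf_eq`).  Hence with
`V = ‖X (z₁, z₂)‖`: `2 y₂ ‖P‖ = ‖X (z₁, z₂) - X (z₁, conj z₂)‖ ≤ 2 V`, `‖P‖ ≤ V / δ`, and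
`|a| y₁ = |Im P| ≤ ‖P‖` gives `|a| ≤ V / δ²`, `|l'| ≤ ‖P‖ + |a| R`.  By symmetry (exchange `z₁, z₂` and
`l, l'`) `|l| ≤ V / δ + |a| R`, and `|b| ≤ V + |a| R² + (|l| + |l'|) R`.  Finally
`y = (l - l') / √5`, `x = l - y ω` (`w_sub`, `w1_bounds`). -/
theorem PK1_bound (R δ : ℝ) (hδ : 0 < δ) : ∃ C : ℝ, 0 < C ∧ ∀ (X : Ix) (z₁ z₂ : ℂ),
    0 ≤ qf X.2.1 X.2.2.1 - X.1 * X.2.2.2 → δ ≤ z₁.im → δ ≤ z₂.im → ‖z₁‖ ≤ R → ‖z₂‖ ≤ R →
    |(X.1 : ℝ)| + |(X.2.1 : ℝ)| + |(X.2.2.1 : ℝ)| + |(X.2.2.2 : ℝ)| ≤ C * ‖Xf X z₁ z₂‖ := by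
  set R' := |R| with hR'
  have hR0 : 0 ≤ R' := abs_nonneg R
  set c1 : ℝ := 1 / δ ^ 2 with hc1
  set c2 : ℝ := 1 / δ + R' / δ ^ 2 with hc2
  have hc1p : 0 < c1 := by positivity
  have hc2p : 0 < c2 := by positivity
  refine ⟨c1 + 7 * c2 + (1 + c1 * R' ^ 2 + 2 * c2 * R'), by positivity, ?_⟩
  rintro ⟨a, x, y, b⟩ z₁ z₂ hq h1 h2 hn1 hn2
  simp only at hq ⊢
  have hn1' : ‖z₁‖ ≤ R' := hn1.trans (le_abs_self R)
  have hn2' : ‖z₂‖ ≤ R' := hn2.trans (le_abs_self R)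
  set l : ℝ := (x : ℝ) + y * w1 with hl
  set l' : ℝ := (x : ℝ) + y * w2 with hl'
  have hll : l * l' = (qf x y : ℝ) := qf_eq x y
  have hq' : (a : ℝ) * b - l * l' ≤ 0 := by
    have : (0 : ℝ) ≤ (qf x y : ℝ) - a * b := by exact_mod_cast hq
    linarith
  set V : ℝ := ‖Xf (a, x, y, b) z₁ z₂‖ with hV
  have hV0 : 0 ≤ V := norm_nonneg _
  have e1 : Xf (a, x, y, b) z₁ z₂ = ((a : ℂ) * z₁ + (l' : ℂ)) * z₂ + ((l : ℂ) * z₁ + (b : ℂ)) := by
    unfold Xf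
    rw [hl, hl']
    push_cast
    ring
  have e2 : Xf (a, x, y, b) z₁ z₂ = ((a : ℂ) * z₂ + (l : ℂ)) * z₁ + ((l' : ℂ) * z₂ + (b : ℂ)) := by
    rw [e1]
    ring
  have k1 := PK1_key ((a : ℂ) * z₁ + (l' : ℂ)) ((l : ℂ) * z₁ + (b : ℂ)) z₂ (hδ.trans_le h2) (by
    have : (((a : ℂ) * z₁ + (l' : ℂ)) * (starRingEnd ℂ) ((l : ℂ) * z₁ + (b : ℂ))).im =
        ((a : ℝ) * b - l * l') * z₁.im := by
      simp
      ring
    rw [this]
    exact mul_nonpos_of_nonpos_of_nonneg hq' (hδ.le.trans h1))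
  have k2 := PK1_key ((a : ℂ) * z₂ + (l : ℂ)) ((l' : ℂ) * z₂ + (b : ℂ)) z₁ (hδ.trans_le h1) (by
    have : (((a : ℂ) * z₂ + (l : ℂ)) * (starRingEnd ℂ) ((l' : ℂ) * z₂ + (b : ℂ))).im =
        ((a : ℝ) * b - l * l') * z₂.im := by
      simp
      ring
    rw [this]
    exact mul_nonpos_of_nonpos_of_nonneg hq' (hδ.le.trans h2))
  rw [← e1] at k1
  rw [← e2] at k2
  have p1 : ‖(a : ℂ) * z₁ + (l' : ℂ)‖ ≤ V / δ := by
    rw [le_div_iff₀ hδ]
    have := mul_le_mul_of_nonneg_right h2 (norm_nonneg ((a : ℂ) * z₁ + (l' : ℂ)))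
    linarith
  have p2 : ‖(a : ℂ) * z₂ + (l : ℂ)‖ ≤ V / δ := by
    rw [le_div_iff₀ hδ]
    have := mul_le_mul_of_nonneg_right h1 (norm_nonneg ((a : ℂ) * z₂ + (l : ℂ)))
    linarith
  have ha : |(a : ℝ)| ≤ c1 * V := by
    have h3 := Complex.abs_im_le_norm ((a : ℂ) * z₁ + (l' : ℂ))
    have h4 : ((a : ℂ) * z₁ + (l' : ℂ)).im = a * z₁.im := by simp
    rw [h4, abs_mul, abs_of_pos (hδ.trans_le h1)] at h3
    have h5 : |(a : ℝ)| * δ ≤ V / δ :=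
      (mul_le_mul_of_nonneg_left h1 (abs_nonneg _)).trans (h3.trans p1)
    rw [hc1, one_div, inv_mul_eq_div, le_div_iff₀ (by positivity)]
    rw [le_div_iff₀ hδ] at h5
    linarith
  have na1 : ‖(a : ℂ) * z₁‖ ≤ c1 * V * R' := by
    rw [norm_mul, Complex.norm_intCast]
    exact mul_le_mul ha hn1' (norm_nonneg _) (by positivity)
  have na2 : ‖(a : ℂ) * z₂‖ ≤ c1 * V * R' := by
    rw [norm_mul, Complex.norm_intCast]
    exact mul_le_mul ha hn2' (norm_nonneg _) (by positivity)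
  have c2V : c2 * V = V / δ + c1 * V * R' := by
    rw [hc2, hc1]
    ring
  have hl'b : |l'| ≤ c2 * V := by
    have h3 : (l' : ℂ) = ((a : ℂ) * z₁ + (l' : ℂ)) - (a : ℂ) * z₁ := by ring
    have h4 : |l'| = ‖(l' : ℂ)‖ := by rw [Complex.norm_real, Real.norm_eq_abs]
    rw [h4, h3, c2V]
    exact (norm_sub_le _ _).trans (add_le_add p1 na1)
  have hlb : |l| ≤ c2 * V := by
    have h3 : (l : ℂ) = ((a : ℂ) * z₂ + (l : ℂ)) - (a : ℂ) * z₂ := by ring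
    have h4 : |l| = ‖(l : ℂ)‖ := by rw [Complex.norm_real, Real.norm_eq_abs]
    rw [h4, h3, c2V]
    exact (norm_sub_le _ _).trans (add_le_add p2 na2)
  have hb : |(b : ℝ)| ≤ (1 + c1 * R' ^ 2 + 2 * c2 * R') * V := by
    have h3 : (b : ℂ) = Xf (a, x, y, b) z₁ z₂ - ((a : ℂ) * z₁ * z₂ + (l : ℂ) * z₁ + (l' : ℂ) * z₂) := by
      rw [e1]
      ring
    have h4 : |(b : ℝ)| = ‖(b : ℂ)‖ := by rw [Complex.norm_intCast]
    rw [h4, h3]
    have h5 : ‖(a : ℂ) * z₁ * z₂‖ ≤ c1 * V * R' * R' := by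
      rw [norm_mul]
      exact mul_le_mul na1 hn2' (norm_nonneg _) (by positivity)
    have h6 : ‖(l : ℂ) * z₁‖ ≤ c2 * V * R' := by
      rw [norm_mul, Complex.norm_real, Real.norm_eq_abs]
      exact mul_le_mul hlb hn1' (norm_nonneg _) (by positivity)
    have h7 : ‖(l' : ℂ) * z₂‖ ≤ c2 * V * R' := by
      rw [norm_mul, Complex.norm_real, Real.norm_eq_abs]
      exact mul_le_mul hl'b hn2' (norm_nonneg _) (by positivity)
    have h8 := norm_sub_le (Xf (a, x, y, b) z₁ z₂)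
      ((a : ℂ) * z₁ * z₂ + (l : ℂ) * z₁ + (l' : ℂ) * z₂)
    have h9 := norm_add₃_le (a := (a : ℂ) * z₁ * z₂) (b := (l : ℂ) * z₁) (c := (l' : ℂ) * z₂)
    have h10 : V = ‖Xf (a, x, y, b) z₁ z₂‖ := rfl
    rw [← h10] at h8
    nlinarith
  have hy : |(y : ℝ)| ≤ 2 * (c2 * V) := by
    have h3 : (y : ℝ) * √5 = l - l' := by
      rw [← w_sub, hl, hl']
      ring
    have h4 : |(y : ℝ)| * √5 ≤ 2 * (c2 * V) := by
      have h5 : |(y : ℝ)| * √5 = |l - l'| := by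
        rw [← h3, abs_mul, abs_of_nonneg (Real.sqrt_nonneg 5)]
      rw [h5]
      have h6 := abs_sub l l'
      linarith
    have h7 : (1 : ℝ) ≤ √5 := by
      rw [Real.one_le_sqrt]
      norm_num
    have h8 := mul_le_mul_of_nonneg_left h7 (abs_nonneg (y : ℝ))
    linarith
  have hx : |(x : ℝ)| ≤ 5 * (c2 * V) := by
    have h3 : (x : ℝ) = l - y * w1 := by
      rw [hl]
      ring
    have h4 : |(y : ℝ) * w1| ≤ 2 * (c2 * V) * 2 := by
      rw [abs_mul]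
      obtain ⟨hw1, hw2⟩ := w1_bounds
      rw [abs_of_pos (show (0 : ℝ) < w1 by linarith)]
      exact mul_le_mul hy hw2.le (by linarith) (by positivity)
    rw [h3]
    have h5 := abs_sub l ((y : ℝ) * w1)
    linarith
  have h11 : (c1 + 7 * c2 + (1 + c1 * R' ^ 2 + 2 * c2 * R')) * V =
      c1 * V + 5 * (c2 * V) + 2 * (c2 * V) + (1 + c1 * R' ^ 2 + 2 * c2 * R') * V := by ring
  rw [h11]
  linarith

end H94M
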