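import Pool.Agent.Lib.H94M.PB

set_option autoImplicit false

/-!
CHUNK PK2 (M).  Summability over the indices of the kernel.
-/

namespace H94M

open Real

/-- The sum of the absolute values of the coefficients. -/
noncomputable def PK2_S (X : Ix) : ℝ := |(X.1 : ℝ)| + |(X.2.1 : ℝ)| + |(X.2.2.1 : ℝ)| + |(X.2.2.2 : ℝ)|

theorem PK2_one_le {M μ : ℕ} (hμ : 1 ≤ μ) {X : Ix} (hX : X ∈ XS M μ) : 1 ≤ PK2_S X := by
  obtain ⟨a, x, y, b⟩ := X
  obtain ⟨-, h⟩ := hX
  simp only at h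
  have h1 : (1 : ℤ) ≤ |a| + |x| + |y| + |b| := by
    by_contra hcon
    push Not at hcon
    have ha := abs_nonneg a
    have hx := abs_nonneg x
    have hy := abs_nonneg y
    have hb := abs_nonneg b
    have ha0 : a = 0 := abs_eq_zero.1 (by omega)
    have hx0 : x = 0 := abs_eq_zero.1 (by omega)
    have hy0 : y = 0 := abs_eq_zero.1 (by omega)
    rw [ha0, hx0, hy0] at h
    unfold qf at h
    have : (5 : ℤ) * μ = 0 := by linarith
    omega
  unfold PK2_S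
  have h2 : ((1 : ℤ) : ℝ) ≤ ((|a| + |x| + |y| + |b| : ℤ) : ℝ) := by exact_mod_cast h1
  push_cast at h2
  exact h2

/-- The weight. -/
noncomputable def PK2_w (t : ℤ) : ℝ := (1 + |(t : ℝ)|) ^ (-(4 / 3) : ℝ)

theorem PK2_w_nonneg (t : ℤ) : 0 ≤ PK2_w t := by
  unfold PK2_w
  positivity

theorem PK2_w_summable : Summable PK2_w := by
  have h1 : Summable fun n : ℕ => ((n + 1 : ℕ) : ℝ) ^ (-(4 / 3) : ℝ) :=
    (summable_nat_add_iff 1).2 (Real.summable_nat_rpow.2 (by norm_num))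
  rw [summable_int_iff_summable_nat_and_neg]
  constructor
  · refine h1.congr fun n => ?_
    unfold PK2_w
    congr 1
    push_cast
    rw [abs_of_nonneg (by positivity)]
    ring
  · refine h1.congr fun n => ?_
    unfold PK2_w
    congr 1
    push_cast
    rw [abs_neg, abs_of_nonneg (by positivity)]
    ring

theorem PK2_w3 : Summable fun v : ℤ × ℤ × ℤ => 16 * (PK2_w v.1 * (PK2_w v.2.1 * PK2_w v.2.2)) := by
  have h2 : Summable fun v : ℤ × ℤ => PK2_w v.1 * PK2_w v.2 :=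
    PK2_w_summable.mul_of_nonneg PK2_w_summable PK2_w_nonneg PK2_w_nonneg
  exact (PK2_w_summable.mul_of_nonneg h2 PK2_w_nonneg
    (fun v => mul_nonneg (PK2_w_nonneg _) (PK2_w_nonneg _))).mul_left 16

theorem PK2_w_ge {t : ℤ} {S : ℝ} (hS : 1 ≤ S) (ht : |(t : ℝ)| ≤ S) :
    (2 * S) ^ (-(4 / 3) : ℝ) ≤ PK2_w t := by
  unfold PK2_w
  exact Real.rpow_le_rpow_of_nonpos (by positivity) (by linarith) (by norm_num)

theorem PK2_bd {k : ℕ} (hk : 4 ≤ k) {S : ℝ} (hS : 1 ≤ S) {p q r : ℤ} (hp : |(p : ℝ)| ≤ S)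
    (hq : |(q : ℝ)| ≤ S) (hr : |(r : ℝ)| ≤ S) :
    1 / S ^ k ≤ 16 * (PK2_w p * (PK2_w q * PK2_w r)) := by
  have hS0 : 0 < S := by linarith
  set z : ℝ := (2 * S) ^ (-(4 / 3) : ℝ) with hz
  have hz0 : 0 ≤ z := by rw [hz]; positivity
  have h1 : z * (z * z) = 1 / (2 * S) ^ 4 := by
    have h2 : z * (z * z) = z ^ 3 := by ring
    rw [h2, hz, ← Real.rpow_natCast, ← Real.rpow_mul (by positivity)]
    have h3 : (-(4 / 3) * ((3 : ℕ) : ℝ) : ℝ) = -((4 : ℕ) : ℝ) := by norm_num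
    rw [h3, Real.rpow_neg (by positivity), Real.rpow_natCast, one_div]
  have h2 : z * (z * z) ≤ PK2_w p * (PK2_w q * PK2_w r) := by
    refine mul_le_mul (PK2_w_ge hS hp) ?_ (by positivity) (PK2_w_nonneg _)
    exact mul_le_mul (PK2_w_ge hS hq) (PK2_w_ge hS hr) hz0 (PK2_w_nonneg _)
  have h3 : 1 / S ^ k ≤ 1 / S ^ 4 :=
    one_div_le_one_div_of_le (by positivity) (pow_le_pow_right₀ hS hk)
  have h4 : 1 / S ^ 4 = 16 * (1 / (2 * S) ^ 4) := by
    rw [mul_pow]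
    field_simp
    norm_num
  calc 1 / S ^ k ≤ 1 / S ^ 4 := h3
    _ = 16 * (z * (z * z)) := by rw [h4, h1]
    _ ≤ _ := by linarith

/-- CHUNK PK2.  Proof.  All `X ∈ XS M μ` are nonzero (`qf x y - a b = 5 μ > 0`), so
`|a| + |x| + |y| + |b| ≥ 1` and we may take `k = 4` (or keep `k`).  The set `XS M μ` is the union of
`{a ≠ 0}`, on which `(a, x, y)` determines `b`, of `{b ≠ 0}`, on which `(x, y, b)` determines `a`, and of
`{a = b = 0}`, on which `(x, y)` determines `X`.  So the sum is at most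
`2 ∑_{v ∈ ℤ³ \ 0} 1/|v|^k + ∑_{v ∈ ℤ² \ 0} 1/|v|^k`, where `|v|` is the sum of the absolute values
(injectivity: `Summable.comp_injective`; a function whose restrictions to two sets covering the type
are summable is summable: `summable_subtype_and_compl`, or indicators).  For the summability on `ℤ³`
with exponent `k ≥ 4 > 3`: `ZLattice.summable_norm_rpow` /
`EisensteinSeries.summable_one_div_norm_rpow` (dimension 2), or elementary: with
`w(v) = (1 + |a|)(1 + |x|)(1 + |y|)` one has `w(v) ≤ (1 + |v|)³ ≤ 8 |v|³`, hence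
`|v|⁻⁴ ≤ 16 w(v)^(-4/3)`, a product of three summable functions (`Real.summable_one_div_nat_rpow`,
`Summable.mul_of_nonneg` ...). -/
theorem PK2_summable (k M μ : ℕ) (hk : 4 ≤ k) (hμ : 1 ≤ μ) :
    Summable (fun X : XS M μ => 1 / (|((X : Ix).1 : ℝ)| + |((X : Ix).2.1 : ℝ)| +
      |((X : Ix).2.2.1 : ℝ)| + |((X : Ix).2.2.2 : ℝ)|) ^ k) := by
  have key : Summable (fun X : XS M μ => 1 / (PK2_S X) ^ k) := by
    have h0 : ∀ X : XS M μ, 0 ≤ 1 / (PK2_S X) ^ k := by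
      intro X
      have := PK2_one_le hμ X.2
      positivity
    have hle : ∀ X : Ix, |(X.1 : ℝ)| ≤ PK2_S X ∧ |(X.2.1 : ℝ)| ≤ PK2_S X ∧
        |(X.2.2.1 : ℝ)| ≤ PK2_S X ∧ |(X.2.2.2 : ℝ)| ≤ PK2_S X := by
      intro X
      unfold PK2_S
      have h1 := abs_nonneg (X.1 : ℝ)
      have h2 := abs_nonneg (X.2.1 : ℝ)
      have h3 := abs_nonneg (X.2.2.1 : ℝ)
      have h4 := abs_nonneg (X.2.2.2 : ℝ)
      refine ⟨?_, ?_, ?_, ?_⟩ <;> linarith
    refine (summable_subtype_and_compl (s := {X : XS M μ | (X : Ix).1 = 0})).1 ⟨?_, ?_⟩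
    · have hinj : Function.Injective (fun X : {X : XS M μ | (X : Ix).1 = 0} =>
          ((X.1 : Ix).2.1, (X.1 : Ix).2.2.1, (X.1 : Ix).2.2.2)) := by
        rintro ⟨⟨⟨a, x, y, b⟩, hX⟩, ha⟩ ⟨⟨⟨a', x', y', b'⟩, hX'⟩, ha'⟩ h
        simp only [Prod.mk.injEq] at h
        obtain ⟨rfl, rfl, rfl⟩ := h
        have h1 : a = 0 := ha
        have h2 : a' = 0 := ha'
        subst h1
        subst h2
        rfl
      refine Summable.of_nonneg_of_le (fun X => h0 X.1) (fun X => ?_)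
        (PK2_w3.comp_injective hinj)
      obtain ⟨h1, h2, h3, h4⟩ := hle (X.1 : Ix)
      exact PK2_bd hk (PK2_one_le hμ X.1.2) h2 h3 h4
    · have hinj : Function.Injective (fun X : ({X : XS M μ | (X : Ix).1 = 0}ᶜ : Set (XS M μ)) =>
          ((X.1 : Ix).1, (X.1 : Ix).2.1, (X.1 : Ix).2.2.1)) := by
        rintro ⟨⟨⟨a, x, y, b⟩, hX⟩, ha⟩ ⟨⟨⟨a', x', y', b'⟩, hX'⟩, ha'⟩ h
        simp only [Prod.mk.injEq] at h
        obtain ⟨rfl, rfl, rfl⟩ := h
        have h1 : a ≠ 0 := ha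
        have h2 : qf x y - a * b = 5 * (μ : ℤ) := hX.2
        have h3 : qf x y - a * b' = 5 * (μ : ℤ) := hX'.2
        have h4 : a * b = a * b' := by linarith
        have h5 : b = b' := mul_left_cancel₀ h1 h4
        subst h5
        rfl
      refine Summable.of_nonneg_of_le (fun X => h0 X.1) (fun X => ?_)
        (PK2_w3.comp_injective hinj)
      obtain ⟨h1, h2, h3, h4⟩ := hle (X.1 : Ix)
      exact PK2_bd hk (PK2_one_le hμ X.1.2) h1 h2 h3
  exact key

end H94M
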