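import Pool.Agent.Lib.H94M.PK1
import Pool.Agent.Lib.H94M.PK2

set_option autoImplicit false

/-!
CHUNK PK3 (S/M).  Uniform convergence of the kernel on bounded regions; continuity.
-/

namespace H94M

open Real

/-- CHUNK PK3.  From `PK1_bound` (for `X ∈ XS M μ` the hypothesis is `5 μ ≥ 0`), `PK2_summable` and
`norm_chi_le`: `‖χ (b) / X (z₁, z₂)^k‖ ≤ C^k / (|a| + |x| + |y| + |b|)^k`; also `Xf X z₁ z₂ ≠ 0`. -/
theorem PK3_bound (k M μ : ℕ) (hk : 4 ≤ k) (hμ : 1 ≤ μ) (R δ : ℝ) (hδ : 0 < δ) :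
    ∃ u : XS M μ → ℝ, Summable u ∧ ∀ (X : XS M μ) (z₁ z₂ : ℂ), δ ≤ z₁.im → δ ≤ z₂.im →
      ‖z₁‖ ≤ R → ‖z₂‖ ≤ R → Xf X z₁ z₂ ≠ 0 ∧
      ‖(1 : ℂ) / Xf X z₁ z₂ ^ k‖ ≤ u X ∧ ‖(chi (X : Ix).2.2.2 : ℂ) / Xf X z₁ z₂ ^ k‖ ≤ u X := by
  obtain ⟨C, hC, hb⟩ := PK1_bound R δ hδ
  refine ⟨fun X => C ^ k * (1 / (PK2_S X) ^ k), (PK2_summable k M μ hk hμ).mul_left (C ^ k), ?_⟩
  intro X z₁ z₂ h₁ h₂ h₃ h₄
  have hS : 1 ≤ PK2_S X := PK2_one_le hμ X.2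
  have hX : qf (X : Ix).2.1 (X : Ix).2.2.1 - (X : Ix).1 * (X : Ix).2.2.2 = 5 * (μ : ℤ) := X.2.2
  have h5 : PK2_S X ≤ C * ‖Xf X z₁ z₂‖ := hb X z₁ z₂ (by rw [hX]; positivity) h₁ h₂ h₃ h₄
  have hpos : 0 < ‖Xf X z₁ z₂‖ := by
    by_contra hcon
    have h6 : ‖Xf X z₁ z₂‖ = 0 := le_antisymm (not_lt.1 hcon) (norm_nonneg _)
    rw [h6] at h5
    linarith
  have hne : Xf X z₁ z₂ ≠ 0 := norm_pos_iff.1 hpos
  have h1 : ‖(1 : ℂ) / Xf X z₁ z₂ ^ k‖ ≤ C ^ k * (1 / (PK2_S X) ^ k) := by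
    rw [norm_div, norm_one, norm_pow, ← mul_div_assoc, mul_one,
      div_le_div_iff₀ (by positivity) (by positivity), one_mul, ← mul_pow]
    exact pow_le_pow_left₀ (by linarith) h5 k
  refine ⟨hne, h1, le_trans ?_ h1⟩
  rw [norm_div, norm_div, norm_one]
  exact div_le_div_of_nonneg_right (norm_chi_le _) (norm_nonneg _)

/-- CHUNK PK3. -/
theorem PK3_ne (M μ : ℕ) (hμ : 1 ≤ μ) (X : XS M μ) {z₁ z₂ : ℂ} (h₁ : 0 < z₁.im)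
    (h₂ : 0 < z₂.im) : Xf X z₁ z₂ ≠ 0 := by
  obtain ⟨u, -, hu⟩ := PK3_bound 4 M μ le_rfl hμ (max ‖z₁‖ ‖z₂‖) (min z₁.im z₂.im)
    (lt_min h₁ h₂)
  exact (hu X z₁ z₂ (min_le_left _ _) (min_le_right _ _) (le_max_left _ _) (le_max_right _ _)).1

/-- CHUNK PK3. -/
theorem PK3_summable (k M μ : ℕ) (hk : 4 ≤ k) (hμ : 1 ≤ μ) {z₁ z₂ : ℂ} (h₁ : 0 < z₁.im)
    (h₂ : 0 < z₂.im) :
    Summable (fun X : XS M μ => ‖(chi (X : Ix).2.2.2 : ℂ) / Xf X z₁ z₂ ^ k‖) := by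
  obtain ⟨u, hs, hu⟩ := PK3_bound k M μ hk hμ (max ‖z₁‖ ‖z₂‖) (min z₁.im z₂.im)
    (lt_min h₁ h₂)
  exact Summable.of_nonneg_of_le (fun _ => norm_nonneg _)
    (fun X => (hu X z₁ z₂ (min_le_left _ _) (min_le_right _ _) (le_max_left _ _)
      (le_max_right _ _)).2.2) hs

/-- CHUNK PK3.  Continuity in the parameters (`continuous_iff_continuousAt`; near a point `t₀` the
points `pz1 y₁ t`, `pz2 y₂ t` stay in a bounded region of heights `y₁`, `y₂`; `continuousOn_tsum` with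
the bound of `PK3_bound` on a ball, `Xf` is continuous and nonzero). -/
theorem PK3_cont (k M μ : ℕ) (hk : 4 ≤ k) (hμ : 1 ≤ μ) {y₁ y₂ : ℝ} (h₁ : 0 < y₁)
    (h₂ : 0 < y₂) : Continuous fun t => Om k M μ (pz1 y₁ t) (pz2 y₂ t) := by
  rw [continuous_iff_continuousAt]
  intro t₀
  set R : ℝ := max (‖pz1 y₁ t₀‖ + 1) (‖pz2 y₂ t₀‖ + 1) with hR
  obtain ⟨u, hs, hu⟩ := PK3_bound k M μ hk hμ R (min y₁ y₂) (lt_min h₁ h₂)
  set U : Set (ℝ × ℝ) := {t | ‖pz1 y₁ t‖ < ‖pz1 y₁ t₀‖ + 1 ∧ ‖pz2 y₂ t‖ < ‖pz2 y₂ t₀‖ + 1} with hU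
  have hopen : IsOpen U :=
    (isOpen_lt (continuous_pz1 y₁).norm continuous_const).inter
      (isOpen_lt (continuous_pz2 y₂).norm continuous_const)
  have hmem : t₀ ∈ U := ⟨by linarith, by linarith⟩
  have hb : ∀ (X : XS M μ) (t : ℝ × ℝ), t ∈ U → Xf X (pz1 y₁ t) (pz2 y₂ t) ≠ 0 ∧
      ‖(1 : ℂ) / Xf X (pz1 y₁ t) (pz2 y₂ t) ^ k‖ ≤ u X ∧
      ‖(chi (X : Ix).2.2.2 : ℂ) / Xf X (pz1 y₁ t) (pz2 y₂ t) ^ k‖ ≤ u X := by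
    intro X t ht
    refine hu X _ _ ?_ ?_ ?_ ?_
    · rw [pz1_im]; exact min_le_left _ _
    · rw [pz2_im]; exact min_le_right _ _
    · exact le_trans ht.1.le (le_max_left _ _)
    · exact le_trans ht.2.le (le_max_right _ _)
  have hc : ContinuousOn (fun t => Om k M μ (pz1 y₁ t) (pz2 y₂ t)) U := by
    unfold Om
    refine continuousOn_tsum (fun X => ?_) hs (fun X t ht => (hb X t ht).2.2)
    refine continuousOn_const.div ?_ (fun t ht => pow_ne_zero _ (hb X t ht).1)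
    refine ContinuousOn.pow ?_ k
    have h1 := continuous_pz1 y₁
    have h2 := continuous_pz2 y₂
    unfold Xf
    fun_prop
  exact hc.continuousAt (hopen.mem_nhds hmem)

end H94M
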