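import Pool.Agent.Lib.H94M.PK3
import Pool.Agent.Lib.H94M.P1

set_option autoImplicit false

/-!
CHUNK PK4 (M).  Invariance of the kernel under `Γ₀(M)`, `5 ∣ M`.
-/

namespace H94M

open Real

/-- The index of the transformed form `(C z₁ + D)(C z₂ + D) X (γ z₁, γ z₂)`. -/
def actX (A B C D : ℤ) (X : Ix) : Ix :=
  (X.1 * A ^ 2 + (2 * X.2.1 + X.2.2.1) * A * C + X.2.2.2 * C ^ 2,
    X.1 * A * B + X.2.2.2 * C * D + X.2.1 * (A * D + B * C) + X.2.2.1 * B * C,
    X.2.2.1,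
    X.1 * B ^ 2 + (2 * X.2.1 + X.2.2.1) * B * D + X.2.2.2 * D ^ 2)

theorem PK4_frac (X : Ix) {N₁ N₂ D₁ D₂ : ℂ} (h₁ : D₁ ≠ 0) (h₂ : D₂ ≠ 0) :
    Xf X (N₁ / D₁) (N₂ / D₂) * (D₁ * D₂) = (X.1 : ℂ) * N₁ * N₂ +
      ((X.2.1 : ℂ) + X.2.2.1 * w1) * N₁ * D₂ + ((X.2.1 : ℂ) + X.2.2.1 * w2) * D₁ * N₂ +
      X.2.2.2 * D₁ * D₂ := by
  unfold Xf
  field_simp

theorem PK4_pow (k : ℕ) (c W : ℂ) {J : ℂ} (hJ : J ≠ 0) :
    c / W ^ k = J ^ k * (c / (W * J) ^ k) := by
  have h := pow_ne_zero k hJ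
  rw [mul_pow, mul_div_assoc', mul_comm (J ^ k) c, mul_div_mul_right _ _ h]

/-- Transformation of the bilinear form. -/
theorem PK4_Xf {A B C D : ℤ} (hdet : A * D - B * C = 1) (X : Ix) {z₁ z₂ : ℂ}
    (h₁ : (C : ℂ) * z₁ + D ≠ 0) (h₂ : (C : ℂ) * z₂ + D ≠ 0) :
    Xf X ((A * z₁ + B) / (C * z₁ + D)) ((A * z₂ + B) / (C * z₂ + D)) *
      ((C * z₁ + D) * (C * z₂ + D)) = Xf (actX A B C D X) z₁ z₂ := by
  obtain ⟨a, x, y, b⟩ := X
  have hw : (w1 : ℂ) + (w2 : ℂ) = 1 := by exact_mod_cast w_add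
  have hd : (A : ℂ) * D - B * C = 1 := by exact_mod_cast hdet
  rw [PK4_frac _ h₁ h₂]
  unfold Xf actX
  push_cast
  linear_combination ((y : ℂ) * (A * C * z₁ * z₂ + B * C * z₁ + B * C * z₂ + B * D)) * hw +
    ((y : ℂ) * (w1 * z₁ + w2 * z₂)) * hd

/-- The inverse. -/
theorem PK4_act_act {A B C D : ℤ} (hdet : A * D - B * C = 1) (X : Ix) :
    actX D (-B) (-C) A (actX A B C D X) = X := by
  obtain ⟨a, x, y, b⟩ := X
  unfold actX
  simp only [Prod.mk.injEq]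
  refine ⟨?_, ?_, trivial, ?_⟩
  · linear_combination (a * (A * D - B * C + 1) + C * D * y) * hdet
  · linear_combination (x * (A * D - B * C + 1) - y * B * C) * hdet
  · linear_combination (b * (A * D - B * C + 1) + A * B * y) * hdet

/-- The discriminant is preserved. -/
theorem PK4_qf {A B C D : ℤ} (hdet : A * D - B * C = 1) (X : Ix) :
    qf (actX A B C D X).2.1 (actX A B C D X).2.2.1 - (actX A B C D X).1 * (actX A B C D X).2.2.2 =
      qf X.2.1 X.2.2.1 - X.1 * X.2.2.2 := by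
  obtain ⟨a, x, y, b⟩ := X
  have h4 : 4 * (qf (actX A B C D (a, x, y, b)).2.1 (actX A B C D (a, x, y, b)).2.2.1 -
      (actX A B C D (a, x, y, b)).1 * (actX A B C D (a, x, y, b)).2.2.2) =
      4 * (qf x y - a * b) := by
    unfold qf actX
    simp only
    linear_combination ((A * D - B * C + 1) * ((2 * x + y) ^ 2 - 4 * a * b) -
      2 * (2 * a * A * B + (2 * x + y) * (A * D + B * C) + 2 * b * C * D) * y -
      y ^ 2 * (1 - (A * D - B * C))) * hdet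
  simp only at h4 ⊢
  linarith

theorem PK4_mem {M μ : ℕ} {A B C D : ℤ} (hdet : A * D - B * C = 1) (hC : (M : ℤ) ∣ C) {X : Ix}
    (hX : X ∈ XS M μ) : actX A B C D X ∈ XS M μ := by
  refine ⟨?_, ?_⟩
  · have ha : (M : ℤ) ∣ X.1 := hX.1
    unfold actX
    simp only
    refine dvd_add (dvd_add (ha.mul_right _) (hC.mul_left _)) ?_
    rw [sq]
    exact (hC.mul_right _).mul_left _
  · rw [PK4_qf hdet]
    exact hX.2

theorem PK4_chi {M μ : ℕ} (h5 : 5 ∣ M) {A B C D : ℤ} (hdet : A * D - B * C = 1)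
    (hC : (M : ℤ) ∣ C) {X : Ix} (hX : X ∈ XS M μ) :
    chi (actX A B C D X).2.2.2 = chi X.2.2.2 := by
  obtain ⟨a, x, y, b⟩ := X
  obtain ⟨ha, hq⟩ := hX
  simp only at ha hq
  have h5' : (5 : ℤ) ∣ (M : ℤ) := by exact_mod_cast h5
  obtain ⟨a', rfl⟩ := h5'.trans ha
  obtain ⟨C', rfl⟩ := h5'.trans hC
  have hs : (5 : ℤ) ∣ (2 * x + y) ^ 2 := by
    refine ⟨y ^ 2 + 4 * μ + 4 * (a' * b), ?_⟩
    unfold qf at hq
    linear_combination 4 * hq
  have hp : Prime (5 : ℤ) := by norm_num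
  obtain ⟨m, hm⟩ := hp.dvd_of_dvd_pow hs
  have hb : (actX A B (5 * C') D (5 * a', x, y, b)).2.2.2 =
      b * (D * D) + 5 * (a' * B ^ 2 + m * B * D) := by
    unfold actX
    simp only
    linear_combination (B * D) * hm
  rw [hb, chi_add_five_mul, chi_mul, chi_mul]
  have hD : chi D * chi D = 1 := by
    have hne : ¬ (5 : ℤ) ∣ D := by
      rintro ⟨d, rfl⟩
      have : 5 * (A * d - B * C') = 1 := by linear_combination hdet
      omega
    unfold chi
    have hD' : D % 5 ≠ 0 := by omega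
    rw [if_neg hD']
    split_ifs <;> norm_num
  simp only
  rw [hD, mul_one]

/-- The bijection of the indices. -/
def PK4_equiv {M μ : ℕ} {A B C D : ℤ} (hdet : A * D - B * C = 1) (hC : (M : ℤ) ∣ C) :
    XS M μ ≃ XS M μ where
  toFun X := ⟨actX A B C D X, PK4_mem hdet hC X.2⟩
  invFun X := ⟨actX D (-B) (-C) A X, PK4_mem (by linear_combination hdet) (by simpa using hC) X.2⟩
  left_inv X := Subtype.ext (PK4_act_act hdet X)
  right_inv X := by
    refine Subtype.ext ?_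
    have h := PK4_act_act (A := D) (B := -B) (C := -C) (D := A) (by linear_combination hdet)
      (X : Ix)
    rw [neg_neg, neg_neg] at h
    exact h

theorem PK4_den {C D : ℤ} {A B : ℤ} (hdet : A * D - B * C = 1) {z : ℂ} (hz : 0 < z.im) :
    (C : ℂ) * z + D ≠ 0 := by
  intro h
  have him : (C : ℝ) * z.im = 0 := by
    have := congrArg Complex.im h
    simpa using this
  have hC0 : (C : ℝ) = 0 := by
    rcases mul_eq_zero.1 him with h' | h'
    · exact h'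
    · linarith
  have hC : C = 0 := by exact_mod_cast hC0
  subst hC
  have hD0 : (D : ℂ) = 0 := by simpa using h
  have hD : D = 0 := by exact_mod_cast hD0
  subst hD
  simp at hdet

/-- CHUNK PK4.  Proof.  (1) For `A D - B C = 1`, `z₁, z₂` in the upper half plane:
`Xf X (γ z₁) (γ z₂) = Xf (actX A B C D X) z₁ z₂ / ((C z₁ + D)(C z₂ + D))` (clear denominators, `ring`
with `w1 + w2 = 1` and `A D - B C = 1`: the coefficient of `z₁` is
`a A B + b C D + l A D + l' B C`, `l = x + y ω`, `l' = x + y ω' = x + y - y ω`).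
(2) `actX` maps `XS M μ` into itself if `M ∣ C`: `qf x y - a b` is preserved
(`(2x + y)² - 5 y² - 4 a b = 4 (qf x y - a b)` is, up to sign, the discriminant of the quadratic form
`a A² + (2x+y) A C + b C²`; or `ring` after substituting `(A D - B C)² = 1`), and `M` divides
`a A² + (2x+y) A C + b C²`.  It is a bijection with inverse `actX D (-B) (-C) A` (`Equiv`).
(3) `χ (b_new) = χ (b)`: modulo `5` one has `a ≡ 0`, so `qf x y ≡ 0`, and
`qf x y ≡ (x + 3 y)²`, hence `x + 3 y ≡ 0` and `2 x + y ≡ 2 (x + 3 y) ≡ 0`; so `b_new ≡ b D²`, and `5 ∤ D`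
because `5 ∣ C` and `A D - B C = 1` (`chi_mul`, `chi D ^ 2 = 1`, `chi_add_five_mul`).
(4) `Equiv.tsum_eq` and `tsum_mul_left`. -/
theorem PK4_inv : StPK := by
  intro k M μ hk hM h5 hμ A B C D hdet hC z₁ z₂ h₁ h₂
  have hd₁ := PK4_den hdet h₁
  have hd₂ := PK4_den hdet h₂
  have hJ : ((C : ℂ) * z₁ + D) * (C * z₂ + D) ≠ 0 := mul_ne_zero hd₁ hd₂
  unfold Om
  rw [← tsum_mul_left, ← Equiv.tsum_eq (PK4_equiv (μ := μ) hdet hC)
    (fun X : XS M μ => (((C : ℂ) * z₁ + D) * (C * z₂ + D)) ^ k *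
      ((chi (X : Ix).2.2.2 : ℂ) / Xf X z₁ z₂ ^ k))]
  refine tsum_congr fun X => ?_
  have e1 : (((PK4_equiv (μ := μ) hdet hC) X : XS M μ) : Ix) = actX A B C D X := rfl
  rw [e1, PK4_chi h5 hdet hC X.2, ← PK4_Xf hdet (X : Ix) hd₁ hd₂]
  exact PK4_pow k _ _ hJ

end H94M
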