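import Pool.Agent.Lib.H94M.P1
import Pool.Agent.Lib.H94M.PB

set_option autoImplicit false

/-!
# H94M, chunk PP1 (S/M): the terms of the Poincaré series

PROOF.
* `gv_row`: unfold `gv`, `dif_pos h`, `Classical.choose_spec (h.exists_SL2_row 1)`.
* `ee_add_int`: `Complex.exp_add`, `Complex.exp_int_mul_two_pi_mul_I`.
* `PP1_norm_ee`: `‖ee z‖ = exp (-2 π im z)` (`Complex.norm_exp`).
* `pt_eq`: `v` is coprime (`det g = 1`), `g' = gv v` has the same bottom row as `g`, so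
  `g * g'⁻¹` has bottom row `(0, 1)`, hence (determinant 1) top row `(1, n)`: `g = T ^ n * g'`
  (`ModularGroup.coe_T_zpow`, or directly with matrices: `g 0 0 = g' 0 0 + n g' 1 0`,
  `g 0 1 = g' 0 1 + n g' 1 1` with `n = g 0 1 * g' 0 0 - g 0 0 * g' 0 1`), so `g • τ = g' • τ + n`
  (`UpperHalfPlane.modular_T_zpow_smul`), `ee_add_int`.
* `norm_pt_le`: `‖ee (μ * z)‖ ≤ 1` for `z` in the upper half plane; `eisSummand`, `norm_zpow`.
* `pt_slash`: `gv v * γ` has bottom row `v γ` (also coprime), `pt_eq` for `v γ` with `g = gv v * γ`,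
  `mul_smul`, and `(v 0 (γ τ) + v 1) * denom γ τ = (v γ) 0 τ + (v γ) 1`
  (`UpperHalfPlane.denom_cocycle`, or `specialLinearGroup_apply` and `field_simp`).
-/

namespace H94M

open UpperHalfPlane Real MatrixGroups CongruenceSubgroup
open scoped ModularForm

theorem gv_row {v : Fin 2 → ℤ} (h : IsCoprime (v 0) (v 1)) (j : Fin 2) : gv v 1 j = v j := by
  have h1 : gv v = Classical.choose (h.exists_SL2_row 1) := by
    unfold gv
    exact dif_pos h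
  rw [h1]
  obtain ⟨a, b⟩ := Classical.choose_spec (h.exists_SL2_row 1)
  fin_cases j
  · exact a
  · exact b

theorem PP1_norm_ee (z : ℂ) : ‖ee z‖ = Real.exp (-2 * π * z.im) := by
  unfold ee
  rw [Complex.norm_exp]
  congr 1
  simp [Complex.mul_re, Complex.mul_im]

theorem PP1_coe (g : SL(2, ℤ)) (τ : ℍ) : ((g • τ : ℍ) : ℂ) =
    ((g 0 0 : ℂ) * τ + (g 0 1 : ℂ)) / ((g 1 0 : ℂ) * τ + (g 1 1 : ℂ)) := by
  rw [specialLinearGroup_apply]
  simp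

theorem PP1_denom (g : SL(2, ℤ)) (τ : ℍ) : denom g τ = (g 1 0 : ℂ) * τ + (g 1 1 : ℂ) := by
  simp [denom]

theorem PP1_det (g : SL(2, ℤ)) : g 0 0 * g 1 1 - g 0 1 * g 1 0 = 1 := by
  have h := g.det_coe
  rw [Matrix.det_fin_two] at h
  exact h

/-- Two matrices with the same bottom row act in the same way up to a translation. -/
theorem same_row (g g' : SL(2, ℤ)) (h0 : g 1 0 = g' 1 0) (h1 : g 1 1 = g' 1 1) :
    ∃ n : ℤ, g 0 0 = g' 0 0 + n * g' 1 0 ∧ g 0 1 = g' 0 1 + n * g' 1 1 ∧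
      ∀ τ : ℍ, ((g • τ : ℍ) : ℂ) = ((g' • τ : ℍ) : ℂ) + n := by
  have d1 := PP1_det g
  have d2 := PP1_det g'
  rw [h0, h1] at d1
  have e1 : g 0 0 = g' 0 0 + (g 0 1 * g' 0 0 - g 0 0 * g' 0 1) * g' 1 0 := by
    linear_combination (g' 0 0) * d1 - (g 0 0) * d2
  have e2 : g 0 1 = g' 0 1 + (g 0 1 * g' 0 0 - g 0 0 * g' 0 1) * g' 1 1 := by
    linear_combination (g' 0 1) * d1 - (g 0 1) * d2
  refine ⟨g 0 1 * g' 0 0 - g 0 0 * g' 0 1, e1, e2, fun τ => ?_⟩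
  obtain ⟨n, hn⟩ : ∃ n, n = g 0 1 * g' 0 0 - g 0 0 * g' 0 1 := ⟨_, rfl⟩
  rw [← hn] at e1 e2
  rw [← hn, PP1_coe, PP1_coe, h0, h1, e1, e2]
  have hne : (g' 1 0 : ℂ) * τ + (g' 1 1 : ℂ) ≠ 0 := by
    rw [← PP1_denom]
    exact denom_ne_zero g' τ
  push_cast
  field_simp
  ring

theorem pt_eq (k μ : ℕ) {v : Fin 2 → ℤ} (g : SL(2, ℤ)) (h0 : g 1 0 = v 0) (h1 : g 1 1 = v 1)
    (τ : ℍ) :
    pt k μ v τ = ee ((μ : ℂ) * ((g • τ : ℍ) : ℂ)) / ((v 0 : ℂ) * (τ : ℂ) + (v 1 : ℂ)) ^ k := by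
  have hco : IsCoprime (v 0) (v 1) := by
    rw [← h0, ← h1]
    exact ⟨-g 0 1, g 0 0, by linear_combination PP1_det g⟩
  obtain ⟨n, -, -, hn⟩ := same_row g (gv v) (by rw [h0, gv_row hco]) (by rw [h1, gv_row hco])
  unfold pt
  rw [hn τ, mul_add]
  have e : (μ : ℂ) * (n : ℂ) = (((μ : ℤ) * n : ℤ) : ℂ) := by push_cast; ring
  rw [e, ee_add_int]

theorem norm_pt_le (k μ : ℕ) (v : Fin 2 → ℤ) (τ : ℍ) :
    ‖pt k μ v τ‖ ≤ ‖EisensteinSeries.eisSummand (k : ℤ) v τ‖ := by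
  unfold pt EisensteinSeries.eisSummand
  rw [norm_div, norm_zpow, zpow_neg, zpow_natCast, norm_pow]
  have h1 : ‖ee ((μ : ℂ) * ((gv v • τ : ℍ) : ℂ))‖ ≤ 1 := by
    rw [PP1_norm_ee, Real.exp_le_one_iff]
    have h2 : ((μ : ℂ) * ((gv v • τ : ℍ) : ℂ)).im = μ * (gv v • τ).im := by
      simp
    rw [h2]
    have h3 := (gv v • τ).im_pos
    have h4 : 0 ≤ (μ : ℝ) * (gv v • τ).im := by positivity
    nlinarith [Real.pi_pos]
  rw [div_eq_mul_inv]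
  exact mul_le_of_le_one_left (by positivity) h1

theorem pt_slash (k μ : ℕ) {v : Fin 2 → ℤ} (h : IsCoprime (v 0) (v 1)) (γ : SL(2, ℤ)) (τ : ℍ) :
    pt k μ v (γ • τ) = denom γ τ ^ k *
      pt k μ (Matrix.vecMul v (γ : Matrix (Fin 2) (Fin 2) ℤ)) τ := by
  have r0 : (gv v * γ) 1 0 = (Matrix.vecMul v (γ : Matrix (Fin 2) (Fin 2) ℤ)) 0 := by
    rw [Matrix.SpecialLinearGroup.coe_mul, Matrix.mul_apply, Matrix.vecMul, dotProduct]
    refine Finset.sum_congr rfl fun j _ => ?_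
    rw [← gv_row h j]
  have r1 : (gv v * γ) 1 1 = (Matrix.vecMul v (γ : Matrix (Fin 2) (Fin 2) ℤ)) 1 := by
    rw [Matrix.SpecialLinearGroup.coe_mul, Matrix.mul_apply, Matrix.vecMul, dotProduct]
    refine Finset.sum_congr rfl fun j _ => ?_
    rw [← gv_row h j]
  rw [pt_eq k μ (gv v * γ) r0 r1, pt_eq k μ (gv v) (gv_row h 0) (gv_row h 1), mul_smul]
  have hne : denom γ τ ≠ 0 := denom_ne_zero γ τ
  have key : ((v 0 : ℂ) * ((γ • τ : ℍ) : ℂ) + (v 1 : ℂ)) * denom γ τ =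
      ((Matrix.vecMul v (γ : Matrix (Fin 2) (Fin 2) ℤ)) 0 : ℂ) * τ +
        ((Matrix.vecMul v (γ : Matrix (Fin 2) (Fin 2) ℤ)) 1 : ℂ) := by
    rw [PP1_coe]
    rw [PP1_denom] at hne ⊢
    rw [add_mul, mul_assoc, div_mul_cancel₀ _ hne]
    simp only [Matrix.vecMul, dotProduct, Fin.sum_univ_two]
    push_cast
    ring
  rw [← key, mul_pow]
  field_simp

end H94M
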