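import Mathlib

set_option autoImplicit false

/-!
# H94M, chunk PT1 (M): integration over the upper half plane in coordinates

PROOF. As in the proof of Mathlib's `UpperHalfPlane.volume_eq_lintegral` (and Lib/Maass/FundDom
`volume_fd_lt_top`): `volume = (volume.comap coe).withDensity (1/y²)`
(`UpperHalfPlane.volume_def`); `integral_withDensity_eq_integral_smul` (density NNReal valued,
measurable), `integrable_withDensity_iff_integrable_smul`; `coe : ℍ → ℂ` is measure preserving from
`volume.comap coe` to `volume.restrict (range coe)` (`measurableEmbedding_coe.map_comap`), so the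
integral over ℍ is the integral over `{z : ℂ | 0 < im z}` of `(1/y²) F (ofComplex z)`
(`MeasurePreserving.integral_comp`, `integrable_comp_emb`, `ofComplex_apply`); then
`Complex.measurableEquivRealProd`, `Complex.volume_preserving_equiv_real_prod`.
-/

namespace H94M

open UpperHalfPlane MeasureTheory

/-- The point `x + i y`. -/
noncomputable def zxy (x y : ℝ) : ℍ := ofComplex ((x : ℂ) + (y : ℂ) * Complex.I)

/-- The density. -/
noncomputable def PT1_d (z : ℍ) : NNReal := (1 / NNReal.mk z.im z.im_pos.le) ^ 2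

theorem PT1_meas : Measurable PT1_d := by
  unfold PT1_d
  refine Measurable.pow_const ?_ 2
  refine Measurable.div measurable_const ?_
  exact (continuous_im.subtype_mk _).measurable

theorem PT1_mp : MeasurePreserving UpperHalfPlane.coe (volume.comap UpperHalfPlane.coe)
    (volume.restrict (Set.range UpperHalfPlane.coe)) :=
  ⟨measurable_coe, by rw [measurableEmbedding_coe.map_comap]⟩

/-- The integrand on `ℂ`. -/
noncomputable def PT1_G (F : ℍ → ℂ) (z : ℂ) : ℂ := ((1 / z.im ^ 2 : ℝ) : ℂ) * F (ofComplex z)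

theorem PT1_G_coe (F : ℍ → ℂ) (z : ℍ) : PT1_G F (UpperHalfPlane.coe z) = PT1_d z • F z := by
  unfold PT1_G PT1_d
  rw [ofComplex_apply, NNReal.smul_def]
  simp only [Complex.real_smul]
  congr 1
  congr 1
  rw [NNReal.coe_pow, NNReal.coe_div, NNReal.coe_one]
  rw [div_pow, one_pow]
  rfl

/-- The integrand on `ℝ × ℝ`. -/
noncomputable def PT1_H (F : ℍ → ℂ) (p : ℝ × ℝ) : ℂ :=
  ((1 / p.2 ^ 2 : ℝ) : ℂ) * F (zxy p.1 p.2)

theorem PT1_G_H (F : ℍ → ℂ) : PT1_G F = PT1_H F ∘ Complex.measurableEquivRealProd := by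
  funext z
  simp only [PT1_G, PT1_H, Function.comp_apply, Complex.measurableEquivRealProd_apply, zxy]
  rw [Complex.re_add_im]

theorem PT1_pre : Complex.measurableEquivRealProd ⁻¹' (Set.univ ×ˢ Set.Ioi (0 : ℝ)) =
    Set.range UpperHalfPlane.coe := by
  rw [UpperHalfPlane.range_coe]
  ext z
  simp

theorem integrable_uhp (F : ℍ → ℂ) :
    Integrable F ↔ IntegrableOn (fun p : ℝ × ℝ => ((1 / p.2 ^ 2 : ℝ) : ℂ) * F (zxy p.1 p.2))
      (Set.univ ×ˢ Set.Ioi (0 : ℝ)) := by
  have h1 : Integrable F ↔ Integrable (fun z => PT1_d z • F z) (volume.comap UpperHalfPlane.coe) := by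
    rw [volume_def]
    exact integrable_withDensity_iff_integrable_smul PT1_meas
  have h2 : (fun z => PT1_d z • F z) = PT1_G F ∘ UpperHalfPlane.coe :=
    funext fun z => (PT1_G_coe F z).symm
  rw [h1, h2, PT1_mp.integrable_comp_emb measurableEmbedding_coe, ← PT1_pre, PT1_G_H]
  exact Complex.volume_preserving_equiv_real_prod.integrableOn_comp_preimage
    Complex.measurableEquivRealProd.measurableEmbedding

theorem integral_uhp (F : ℍ → ℂ) :
    ∫ z : ℍ, F z = ∫ p : ℝ × ℝ in Set.univ ×ˢ Set.Ioi (0 : ℝ),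
      ((1 / p.2 ^ 2 : ℝ) : ℂ) * F (zxy p.1 p.2) := by
  have h1 : ∫ z : ℍ, F z = ∫ z, PT1_d z • F z ∂(volume.comap UpperHalfPlane.coe) := by
    rw [volume_def]
    exact integral_withDensity_eq_integral_smul PT1_meas F
  have h2 : ∀ z : ℍ, PT1_d z • F z = PT1_G F (UpperHalfPlane.coe z) :=
    fun z => (PT1_G_coe F z).symm
  rw [h1]
  simp only [h2]
  rw [PT1_mp.integral_comp measurableEmbedding_coe, ← PT1_pre, PT1_G_H]
  exact Complex.volume_preserving_equiv_real_prod.setIntegral_preimage_emb
    Complex.measurableEquivRealProd.measurableEmbedding (PT1_H F) _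

end H94M
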