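import Pool.Agent.Lib.H94M.PT1
import Pool.Agent.Lib.H94M.PC1

set_option autoImplicit false

/-!
# H94M, chunk PT2 (M): integrability of the function which is unfolded

PROOF. `‖f z‖ ≤ C / y^(k/2)` (`CuspFormClass.exists_bound`, `G0 N` is arithmetic, QA0), so
`‖petersson k f (ee (μ ·)) z‖ = ‖f z‖ ‖ee (μ z)‖ y^k ≤ C y^(k/2) exp (-2 π μ y)` (`norm_ee`).
By `integrable_uhp` the function is integrable iff `(x, y) ↦ y^(-2) Fs (x + i y)` is integrable
on `ℝ × (0, ∞)`: it vanishes unless `0 ≤ x < 1` and is bounded by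
`C y^(k/2 - 2) exp (-2 π μ y)`, `k/2 - 2 ≥ -1/2 > -1`
(`integrableOn_rpow_mul_exp_neg_mul_rpow` or `Real.GammaIntegral`-lemmas;
product of the indicator of `[0,1)` and an integrable function of `y`: `Integrable.mul_prod`,
`Measure.prod_restrict`). Measurability: `f` is continuous (`CuspForm` is holomorphic), `ee` is
continuous, `re` is continuous.
-/

namespace H94M

open UpperHalfPlane Real MatrixGroups CongruenceSubgroup MeasureTheory
open scoped ModularForm

/-- The function to be unfolded: the Petersson integrand of `f` and `ee (μ z)` on the strip. -/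
noncomputable def Fs (k μ : ℕ) (f : ℍ → ℂ) (z : ℍ) : ℂ :=
  if 0 ≤ z.re ∧ z.re < 1 then petersson (k : ℤ) f (fun w => ee ((μ : ℂ) * (w : ℂ))) z else 0

theorem PT2_zxy {x y : ℝ} (hy : 0 < y) : (zxy x y).re = x ∧ (zxy x y).im = y := by
  have him : 0 < ((x : ℂ) + (y : ℂ) * Complex.I).im := by simpa using hy
  have h1 : ((zxy x y : ℍ) : ℂ) = (x : ℂ) + (y : ℂ) * Complex.I := by
    unfold zxy
    rw [ofComplex_apply_of_im_pos him]
  constructor
  · rw [← coe_re, h1]
    simp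
  · rw [← coe_im, h1]
    simp

/-- The dominating function. -/
noncomputable def PT2_D (k μ : ℕ) (C : ℝ) (z : ℍ) : ℝ :=
  if 0 ≤ z.re ∧ z.re < 1 then C * (z.im ^ ((k : ℝ) / 2) * Real.exp (-(2 * π * μ) * z.im)) else 0

theorem PT2_D_integrable (k μ : ℕ) (hk : 3 ≤ k) (hμ : 1 ≤ μ) (C : ℝ) :
    Integrable fun z : ℍ => ((PT2_D k μ C z : ℝ) : ℂ) := by
  rw [integrable_uhp]
  have hG : Integrable (Set.indicator (Set.Ico (0 : ℝ) 1) fun _ => (1 : ℂ))
      (volume.restrict Set.univ) := by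
    rw [Measure.restrict_univ, integrable_indicator_iff measurableSet_Ico]
    exact integrableOn_const (by simp) (by simp)
  have hpi : (0 : ℝ) < 2 * π * μ := by
    have : (1 : ℝ) ≤ μ := by exact_mod_cast hμ
    positivity
  have hk' : (3 : ℝ) ≤ k := by exact_mod_cast hk
  have hH0 : IntegrableOn (fun y : ℝ => y ^ ((k : ℝ) / 2 - 2) *
      Real.exp (-(2 * π * μ) * y ^ (1 : ℝ))) (Set.Ioi 0) :=
    integrableOn_rpow_mul_exp_neg_mul_rpow (by linarith) one_pos hpi
  have hH : Integrable (fun y : ℝ => ((C * (y ^ ((k : ℝ) / 2 - 2) *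
      Real.exp (-(2 * π * μ) * y ^ (1 : ℝ))) : ℝ) : ℂ)) (volume.restrict (Set.Ioi 0)) :=
    (hH0.const_mul C).ofReal
  have h1 := hG.mul_prod hH
  rw [Measure.prod_restrict, ← Measure.volume_eq_prod] at h1
  have h2 : IntegrableOn (fun p : ℝ × ℝ => Set.indicator (Set.Ico (0 : ℝ) 1) (fun _ => (1 : ℂ)) p.1 *
      ((C * (p.2 ^ ((k : ℝ) / 2 - 2) * Real.exp (-(2 * π * μ) * p.2 ^ (1 : ℝ))) : ℝ) : ℂ))
      (Set.univ ×ˢ Set.Ioi (0 : ℝ)) := h1
  refine h2.congr_fun ?_ (MeasurableSet.univ.prod measurableSet_Ioi)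
  rintro ⟨x, y⟩ ⟨-, hy⟩
  have hy' : 0 < y := hy
  obtain ⟨hre, him⟩ := PT2_zxy (x := x) hy'
  simp only
  unfold PT2_D
  rw [hre, him]
  by_cases hx : 0 ≤ x ∧ x < 1
  · rw [if_pos hx, Set.indicator_of_mem (Set.mem_Ico.2 hx), one_mul, ← Complex.ofReal_mul]
    congr 1
    have h3 : y ^ ((k : ℝ) / 2 - 2) = y ^ ((k : ℝ) / 2) * (1 / y ^ 2) := by
      rw [Real.rpow_sub hy', Real.rpow_two, div_eq_mul_one_div]
    rw [h3, Real.rpow_one]
    ring
  · rw [if_neg hx, Set.indicator_of_notMem (fun h => hx (Set.mem_Ico.1 h)), zero_mul,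
      Complex.ofReal_zero, mul_zero]

theorem PT2_measurable (N k μ : ℕ) [NeZero N] (f : CuspForm (G0 N) (k : ℤ)) :
    Measurable (Fs k μ f) := by
  classical
  have hset : MeasurableSet {z : ℍ | 0 ≤ z.re ∧ z.re < 1} :=
    (measurableSet_le measurable_const continuous_re.measurable).inter
      (measurableSet_lt continuous_re.measurable measurable_const)
  have hf : Continuous (f : ℍ → ℂ) := (CuspFormClass.holo f).continuous
  have hg : Continuous fun w : ℍ => ee ((μ : ℂ) * (w : ℂ)) := by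
    unfold ee
    have := UpperHalfPlane.continuous_coe
    fun_prop
  exact Measurable.ite hset (petersson_continuous (k : ℤ) hf hg).measurable measurable_const

theorem Fs_integrable (N k μ : ℕ) [NeZero N] (hk : 3 ≤ k) (hμ : 1 ≤ μ)
    (f : CuspForm (G0 N) (k : ℤ)) : Integrable (Fs k μ f) := by
  obtain ⟨C, hC⟩ := CuspFormClass.exists_bound f
  refine (PT2_D_integrable k μ hk hμ C).mono (PT2_measurable N k μ f).aestronglyMeasurable ?_
  refine Filter.Eventually.of_forall fun z => ?_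
  unfold Fs PT2_D
  by_cases hz : 0 ≤ z.re ∧ z.re < 1
  · rw [if_pos hz, if_pos hz]
    have hy := z.im_pos
    have hp : 0 < z.im ^ ((k : ℝ) / 2) := Real.rpow_pos_of_pos hy _
    have h1 := hC z
    rw [Int.cast_natCast] at h1
    have h2 : ‖petersson (k : ℤ) (f : ℍ → ℂ) (fun w => ee ((μ : ℂ) * (w : ℂ))) z‖ =
        ‖f z‖ * Real.exp (-(2 * π * μ) * z.im) * z.im ^ k := by
      unfold petersson
      rw [norm_mul, norm_mul, RCLike.norm_conj, norm_ee, zpow_natCast, norm_pow,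
        Complex.norm_real, Real.norm_of_nonneg hy.le]
      congr 3
      simp
      ring
    rw [h2]
    have h3 : z.im ^ k = z.im ^ ((k : ℝ) / 2) * z.im ^ ((k : ℝ) / 2) := by
      rw [← Real.rpow_add hy, add_halves, Real.rpow_natCast]
    have h4 : C = C / z.im ^ ((k : ℝ) / 2) * z.im ^ ((k : ℝ) / 2) := by
      rw [div_mul_cancel₀ _ hp.ne']
    rw [Complex.norm_real]
    refine le_trans ?_ (le_abs_self _)
    rw [h3]
    calc ‖f z‖ * Real.exp (-(2 * π * μ) * z.im) * (z.im ^ ((k : ℝ) / 2) * z.im ^ ((k : ℝ) / 2))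
        ≤ (C / z.im ^ ((k : ℝ) / 2)) * Real.exp (-(2 * π * μ) * z.im) *
          (z.im ^ ((k : ℝ) / 2) * z.im ^ ((k : ℝ) / 2)) := by
          gcongr
      _ = (C / z.im ^ ((k : ℝ) / 2) * z.im ^ ((k : ℝ) / 2)) *
          (z.im ^ ((k : ℝ) / 2) * Real.exp (-(2 * π * μ) * z.im)) := by ring
      _ = C * (z.im ^ ((k : ℝ) / 2) * Real.exp (-(2 * π * μ) * z.im)) := by rw [← h4]
  · rw [if_neg hz, if_neg hz]
    simp

end H94M
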