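import Pool.Agent.Lib.Maass.FundDom

set_option autoImplicit false

/-!
# H94M, chunk PT5 (M): unfolding over the quotient

PROOF. `SL(2,ℤ) ≃ (SL(2,ℤ) ⧸ Γ₀(N)) × Γ₀(N)`, `g ↦ (q, γ)` with `g⁻¹ = q.out * γ⁻¹`, i.e.
`g = γ * q.out⁻¹` (`q = [g⁻¹]`; Mathlib: `Subgroup.groupEquivQuotientProdSubgroup`). The family
`g ↦ F (g • z)` is summable for almost every `z ∈ 𝒟`: it is `F (γ • (q.out⁻¹ • z))`, for each of the
finitely many `q` summable with sum `2 Φ (q.out⁻¹ • z)` (hypothesis), so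
`HasSum (g ↦ F (g • z)) (2 Σ_q Φ (q.out⁻¹ • z))` (finite quotient: `HasSum.sigma_of_hasSum`,
or `HasSum.prod_fiberwise` conversely by summability `summable_prod_of...`; `hasSum_sum`).
Finite index: `Gamma0 N` has finite index (instance for `NeZero N`). Then
`∫_𝒟 Σ_g F (g z) = Σ_g ∫_𝒟 F (g z) = 2 ∫_ℍ F` by
`hasSum_integral_of_summable_integral_norm` (hypotheses: `F (g • ·)` integrable on `𝒟`:
`measurePreserving_SL_smul`, `MeasurePreserving.integrable_comp`; summability of the norms: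
`summable_integral_norm_fd`) and `hasSum_integral_fd`.
-/

namespace H94M

open UpperHalfPlane MatrixGroups CongruenceSubgroup MeasureTheory ModularGroup
open scoped Modular
open Pool.Agent.Lib.Maass

/-- The integral over `Γ₀(N) \ ℍ` of a `Γ₀(N)`-invariant function. -/
noncomputable def Bq (N : ℕ) (Φ : ℍ → ℂ) : ℂ :=
  ∫ z in (𝒟 : Set ℍ), ∑' q : SL(2, ℤ) ⧸ Gamma0 N, Φ ((Quotient.out q)⁻¹ • z)

/-- The bijection `(q, γ) ↦ γ * q.out⁻¹`. -/
noncomputable def PT5.eqv (N : ℕ) : (SL(2, ℤ) ⧸ Gamma0 N) × Gamma0 N ≃ SL(2, ℤ) where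
  toFun p := (p.2 : SL(2, ℤ)) * (Quotient.out p.1)⁻¹
  invFun g := ((QuotientGroup.mk g⁻¹ : SL(2, ℤ) ⧸ Gamma0 N),
    ⟨g * Quotient.out (QuotientGroup.mk g⁻¹ : SL(2, ℤ) ⧸ Gamma0 N), by
      have h : (QuotientGroup.mk g⁻¹ : SL(2, ℤ) ⧸ Gamma0 N) =
          QuotientGroup.mk (Quotient.out (QuotientGroup.mk g⁻¹ : SL(2, ℤ) ⧸ Gamma0 N)) :=
        (QuotientGroup.out_eq' _).symm
      have h2 := QuotientGroup.eq.mp h
      simpa using h2⟩)
  left_inv p := by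
    obtain ⟨q, γ⟩ := p
    have h1 : (QuotientGroup.mk ((γ : SL(2, ℤ)) * (Quotient.out q)⁻¹)⁻¹ : SL(2, ℤ) ⧸ Gamma0 N) = q := by
      have h2 : (QuotientGroup.mk ((γ : SL(2, ℤ)) * (Quotient.out q)⁻¹)⁻¹ : SL(2, ℤ) ⧸ Gamma0 N)
          = QuotientGroup.mk (Quotient.out q) := by
        rw [QuotientGroup.eq]
        have h3 : (((γ : SL(2, ℤ)) * (Quotient.out q)⁻¹)⁻¹)⁻¹ * Quotient.out q
            = (γ : SL(2, ℤ)) := by group
        rw [h3]
        exact γ.2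
      rw [h2]
      exact QuotientGroup.out_eq' q
    apply Prod.ext
    · exact h1
    · apply Subtype.ext
      simp only
      rw [h1]
      group
  right_inv g := by
    simp only
    group

theorem PT5.hasSum_all (N : ℕ) [NeZero N] (Φ F : ℍ → ℂ)
    (h : ∀ z : ℍ, HasSum (fun γ : Gamma0 N => F ((γ : SL(2, ℤ)) • z)) (2 * Φ z)) (z : ℍ) :
    HasSum (fun g : SL(2, ℤ) => F (g • z))
      (2 * ∑' q : SL(2, ℤ) ⧸ Gamma0 N, Φ ((Quotient.out q)⁻¹ • z)) := by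
  classical
  have : Fintype (SL(2, ℤ) ⧸ Gamma0 N) := Fintype.ofFinite _
  rw [← (PT5.eqv N).hasSum_iff, tsum_fintype, Finset.mul_sum]
  have hq : ∀ q : SL(2, ℤ) ⧸ Gamma0 N,
      HasSum (fun p : (SL(2, ℤ) ⧸ Gamma0 N) × Gamma0 N =>
        if p.1 = q then F (((p.2 : SL(2, ℤ)) * (Quotient.out p.1)⁻¹) • z) else 0)
        (2 * Φ ((Quotient.out q)⁻¹ • z)) := by
    intro q
    have hinj : Function.Injective (fun γ : Gamma0 N => (q, γ)) := fun a b hab => by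
      simpa using hab
    rw [← hinj.hasSum_iff]
    · have h1 := h ((Quotient.out q)⁻¹ • z)
      have h2 : ((fun p : (SL(2, ℤ) ⧸ Gamma0 N) × Gamma0 N =>
          if p.1 = q then F (((p.2 : SL(2, ℤ)) * (Quotient.out p.1)⁻¹) • z) else 0) ∘
          fun γ : Gamma0 N => (q, γ))
          = fun γ : Gamma0 N => F ((γ : SL(2, ℤ)) • (Quotient.out q)⁻¹ • z) := by
        funext γ
        simp [mul_smul]
      rw [h2]
      exact h1
    · intro p hp
      rw [if_neg]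
      intro h1
      apply hp
      exact ⟨p.2, by rw [← h1]⟩
  have hs := hasSum_sum (s := Finset.univ) (fun q _ => hq q)
  have h2 : (fun p : (SL(2, ℤ) ⧸ Gamma0 N) × Gamma0 N =>
      ∑ q : SL(2, ℤ) ⧸ Gamma0 N,
        if p.1 = q then F (((p.2 : SL(2, ℤ)) * (Quotient.out p.1)⁻¹) • z) else 0)
      = ((fun g : SL(2, ℤ) => F (g • z)) ∘ (PT5.eqv N)) := by
    funext p
    rw [Finset.sum_ite_eq]
    simp [PT5.eqv]
  rw [← h2]
  exact hs

theorem Bq_unfold (N : ℕ) [NeZero N] (Φ F : ℍ → ℂ) (hF : Integrable F)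
    (h : ∀ z : ℍ, HasSum (fun γ : Gamma0 N => F ((γ : SL(2, ℤ)) • z)) (2 * Φ z)) :
    Bq N Φ = ∫ z : ℍ, F z := by
  have h1 := hasSum_integral_fd hF
  have h2 := summable_integral_norm_fd hF
  have h3 : ∀ g : SL(2, ℤ), Integrable (fun w : ℍ => F (g • w)) (volume.restrict 𝒟) := by
    intro g
    exact ((measurePreserving_SL_smul g).integrable_comp_of_integrable hF).restrict
  have h4 := hasSum_integral_of_summable_integral_norm h3 h2
  have h5 := h4.unique h1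
  have h6 : ∀ z : ℍ, ∑' g : SL(2, ℤ), F (g • z)
      = 2 * ∑' q : SL(2, ℤ) ⧸ Gamma0 N, Φ ((Quotient.out q)⁻¹ • z) :=
    fun z => (PT5.hasSum_all N Φ F h z).tsum_eq
  simp_rw [h6] at h5
  rw [integral_const_mul] at h5
  unfold Bq
  exact mul_left_cancel₀ two_ne_zero h5

end H94M
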