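import Pool.Agent.Lib.H94M.PF9

set_option autoImplicit false

/-!
CHUNK PZ1 (S/M).  Scaling and linearity of the series `HSe`.
-/

namespace H94M

open Real

/-- The coefficients of `z ↦ HSe c (e z₁) (e z₂)`. -/
def scl (e : ℕ) (c : ℤ → ℤ → ℂ) (n j : ℤ) : ℂ :=
  if (e : ℤ) ∣ n ∧ (e : ℤ) ∣ j then c (n / e) (j / e) else 0

/-- CHUNK PZ1.  Reindexing: `(n, j) ↦ (e n, e j)` is injective, `nu1 (e n) (e j) = e nu1 n j`
(`Function.Injective.tsum_eq`; no summability is needed). -/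
theorem PZ1_scl (e : ℕ) (he : 0 < e) (c : ℤ → ℤ → ℂ) (z₁ z₂ : ℂ) :
    HSe (scl e c) z₁ z₂ = HSe c (e * z₁) (e * z₂) := by
  have he' : (e : ℤ) ≠ 0 := by exact_mod_cast he.ne'
  unfold HSe
  set g : ℤ × ℤ → ℤ × ℤ := fun p => ((e : ℤ) * p.1, (e : ℤ) * p.2) with hg
  have hinj : Function.Injective g := by
    intro p q h
    rw [hg] at h
    simp only [Prod.mk.injEq] at h
    exact Prod.ext (mul_left_cancel₀ he' h.1) (mul_left_cancel₀ he' h.2)
  rw [← hinj.tsum_eq]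
  · refine tsum_congr fun p => ?_
    have h1 : scl e c (g p).1 (g p).2 = c p.1 p.2 := by
      unfold scl
      rw [hg]
      simp only [dvd_mul_right, and_self, if_true]
      rw [Int.mul_ediv_cancel_left _ he', Int.mul_ediv_cancel_left _ he']
    rw [h1]
    congr 2
    have h2 : (nu1 (g p).1 (g p).2 : ℂ) = e * (nu1 p.1 p.2 : ℂ) := by
      rw [hg]
      unfold nu1
      push_cast
      ring
    have h3 : (nu2 (g p).1 (g p).2 : ℂ) = e * (nu2 p.1 p.2 : ℂ) := by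
      rw [hg]
      unfold nu2
      push_cast
      ring
    rw [h2, h3]
    ring
  · intro p hp
    rw [Function.mem_support] at hp
    have h1 : scl e c p.1 p.2 ≠ 0 := left_ne_zero_of_mul hp
    unfold scl at h1
    by_cases h : (e : ℤ) ∣ p.1 ∧ (e : ℤ) ∣ p.2
    · refine ⟨(p.1 / e, p.2 / e), ?_⟩
      rw [hg]
      exact Prod.ext (Int.mul_ediv_cancel' h.1) (Int.mul_ediv_cancel' h.2)
    · rw [if_neg h] at h1
      exact absurd rfl h1

/-- CHUNK PZ1. -/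
theorem PZ1_PG (e : ℕ) (he : 0 < e) {c : ℤ → ℤ → ℂ} (hc : PG c) : PG (scl e c) := by
  have he' : (0 : ℤ) < e := by exact_mod_cast he
  obtain ⟨hc1, C, A, hC⟩ := hc
  constructor
  · intro n j h
    unfold scl at h
    by_cases hd : (e : ℤ) ∣ n ∧ (e : ℤ) ∣ j
    · rw [if_pos hd] at h
      obtain ⟨h1, h2⟩ := hc1 _ _ h
      obtain ⟨n', hn'⟩ := hd.1
      obtain ⟨j', hj'⟩ := hd.2
      subst hn'
      subst hj'
      rw [Int.mul_ediv_cancel_left _ he'.ne'] at h1 h2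
      rw [Int.mul_ediv_cancel_left _ he'.ne'] at h2
      refine ⟨mul_pos he' h1, ?_⟩
      have h3 : qf (e * n') (e * j') = (e : ℤ) ^ 2 * qf n' j' := by
        unfold qf
        ring
      rw [h3]
      positivity
    · rw [if_neg hd] at h
      exact absurd rfl h
  · refine ⟨|C|, A, fun n j => ?_⟩
    unfold scl
    by_cases hd : (e : ℤ) ∣ n ∧ (e : ℤ) ∣ j
    · rw [if_pos hd]
      refine (hC _ _).trans ?_
      have h1 : |((n / (e : ℤ) : ℤ) : ℝ)| ≤ |(n : ℝ)| := by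
        obtain ⟨n', hn'⟩ := hd.1
        subst hn'
        rw [Int.mul_ediv_cancel_left _ he'.ne']
        push_cast
        rw [abs_mul]
        have h2 : (1 : ℝ) ≤ |(e : ℝ)| := by
          rw [Nat.abs_cast]
          exact_mod_cast he
        exact le_mul_of_one_le_left (abs_nonneg _) h2
      calc C * |((n / (e : ℤ) : ℤ) : ℝ)| ^ A ≤ |C| * |((n / (e : ℤ) : ℤ) : ℝ)| ^ A :=
            mul_le_mul_of_nonneg_right (le_abs_self C) (by positivity)
        _ ≤ |C| * |(n : ℝ)| ^ A :=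
            mul_le_mul_of_nonneg_left (pow_le_pow_left₀ (abs_nonneg _) h1 A) (abs_nonneg C)
    · rw [if_neg hd, norm_zero]
      positivity

/-- CHUNK PZ1.  Linearity (`Summable.tsum_finsetSum`, `tsum_mul_left`, `PF9_summable`). -/
theorem PZ1_sum {ι : Type*} (s : Finset ι) (b : ι → ℂ) (c : ι → ℤ → ℤ → ℂ)
    (hc : ∀ i ∈ s, PG (c i)) {z₁ z₂ : ℂ} (h₁ : 0 < z₁.im) (h₂ : 0 < z₂.im) :
    HSe (fun n j => ∑ i ∈ s, b i * c i n j) z₁ z₂ = ∑ i ∈ s, b i * HSe (c i) z₁ z₂ := by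
  unfold HSe
  have h1 : ∀ p : ℤ × ℤ, (∑ i ∈ s, b i * c i p.1 p.2) *
      ee ((nu1 p.1 p.2 : ℂ) * z₁ + (nu2 p.1 p.2 : ℂ) * z₂) =
      ∑ i ∈ s, b i * (c i p.1 p.2 * ee ((nu1 p.1 p.2 : ℂ) * z₁ + (nu2 p.1 p.2 : ℂ) * z₂)) := by
    intro p
    rw [Finset.sum_mul]
    exact Finset.sum_congr rfl fun i _ => by ring
  simp only [h1]
  rw [Summable.tsum_finsetSum]
  · exact Finset.sum_congr rfl fun i _ => tsum_mul_left
  · intro i hi
    exact (PF9_summable (hc i hi) h₁ h₂).mul_left _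

end H94M
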