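import Pool.Agent.Lib.H94M.PZ1

set_option autoImplicit false

/-!
CHUNK PZ2 (M, elementary arithmetic).  The Möbius formula.
-/

namespace H94M

open Real

theorem PZ2_qf (e n j : ℤ) : qf (e * n) (e * j) = e ^ 2 * qf n j := by
  unfold qf
  ring

theorem PZ2_moeb (m : ℕ) : ∑ e ∈ m.divisors, (ArithmeticFunction.moebius e : ℂ) =
    if m = 1 then 1 else 0 := by
  have h1 : ∑ e ∈ m.divisors, ArithmeticFunction.moebius e = if m = 1 then 1 else 0 := by
    have h2 := ArithmeticFunction.coe_mul_zeta_apply (f := ArithmeticFunction.moebius) (x := m)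
    rw [← h2, ArithmeticFunction.moebius_mul_coe_zeta, ArithmeticFunction.one_apply]
  have h3 := congrArg (fun z : ℤ => (z : ℂ)) h1
  push_cast at h3
  rw [h3]

/-- The common term. -/
noncomputable def PZ2_f (k N μ : ℕ) (n j : ℤ) (r : ℕ) : ℂ :=
  (chi r : ℂ) * (r : ℂ) ^ (k - 1) * ac (PS k μ (Row (N / Nat.gcd N r))) (qf n j / (r : ℤ) ^ 2)

theorem PZ2_term (k N μ : ℕ) (hN : 1 ≤ N) (n j : ℤ) (hn : 0 < n) (hq : 0 < qf n j) (e : ℕ)
    (he : e ∈ N.divisors) :
    ((ArithmeticFunction.moebius e : ℂ) * (chi e : ℂ) * (e : ℂ) ^ (k - 1)) *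
        scl e (kc k (N / e) μ) n j =
      ∑ r ∈ (Int.gcd n j).divisors,
        if e ∣ r then (ArithmeticFunction.moebius e : ℂ) * PZ2_f k N μ n j r else 0 := by
  have heN : e ∣ N := Nat.dvd_of_mem_divisors he
  have he0 : 0 < e := Nat.pos_of_mem_divisors he
  have he0' : (e : ℤ) ≠ 0 := by exact_mod_cast he0.ne'
  by_cases hd : (e : ℤ) ∣ n ∧ (e : ℤ) ∣ j
  · obtain ⟨⟨n', rfl⟩, ⟨j', rfl⟩⟩ := hd
    have hn' : 0 < n' := by
      have : (0 : ℤ) < e := by exact_mod_cast he0
      exact (pos_iff_pos_of_mul_pos hn).mp this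
    have hq' : 0 < qf n' j' := by
      rw [PZ2_qf] at hq
      exact (pos_iff_pos_of_mul_pos hq).mp (by positivity)
    have hscl : scl e (kc k (N / e) μ) (e * n') (e * j') = kc k (N / e) μ n' j' := by
      unfold scl
      rw [if_pos ⟨Dvd.intro _ rfl, Dvd.intro _ rfl⟩, Int.mul_ediv_cancel_left _ he0',
        Int.mul_ediv_cancel_left _ he0']
    have hg : Int.gcd ((e : ℤ) * n') (e * j') = e * Int.gcd n' j' := by
      rw [Int.gcd_mul_left, Int.natAbs_natCast]
    have hg0 : Int.gcd n' j' ≠ 0 := by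
      intro h
      have := (Int.gcd_eq_zero_iff.mp h).1
      omega
    rw [hscl, hg]
    unfold kc
    rw [if_pos ⟨hn', hq'⟩, ← Finset.sum_filter, Finset.mul_sum]
    refine Finset.sum_nbij' (fun r => e * r) (fun r => r / e) ?_ ?_ ?_ ?_ ?_
    · intro r hr
      rw [Finset.mem_filter, Nat.mem_divisors]
      exact ⟨⟨Nat.mul_dvd_mul_left e (Nat.dvd_of_mem_divisors hr),
        Nat.mul_ne_zero he0.ne' hg0⟩, Dvd.intro _ rfl⟩
    · intro r hr
      obtain ⟨h1, ⟨r', rfl⟩⟩ := Finset.mem_filter.mp hr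
      rw [Nat.mul_div_cancel_left _ he0, Nat.mem_divisors]
      exact ⟨Nat.dvd_of_mul_dvd_mul_left he0 (Nat.dvd_of_mem_divisors h1), hg0⟩
    · intro r _
      exact Nat.mul_div_cancel_left _ he0
    · intro r hr
      obtain ⟨_, ⟨r', rfl⟩⟩ := Finset.mem_filter.mp hr
      rw [Nat.mul_div_cancel_left _ he0]
    · intro r hr
      have hr0 : 0 < r := Nat.pos_of_mem_divisors hr
      unfold PZ2_f
      have h1 : N / e / Nat.gcd (N / e) r = N / Nat.gcd N (e * r) := by
        obtain ⟨M, rfl⟩ := heN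
        rw [Nat.mul_div_cancel_left _ he0, Nat.gcd_mul_left, Nat.mul_div_mul_left _ _ he0]
      have h2 : qf ((e : ℤ) * n') (e * j') / ((e * r : ℕ) : ℤ) ^ 2 = qf n' j' / (r : ℤ) ^ 2 := by
        rw [PZ2_qf]
        push_cast
        rw [mul_pow, Int.mul_ediv_mul_of_pos _ _ (by positivity)]
      have h3 : (chi ((e * r : ℕ) : ℤ) : ℂ) = (chi e : ℂ) * (chi r : ℂ) := by
        push_cast
        rw [chi_mul]
        push_cast
        rfl
      rw [h1, h2, h3]
      push_cast
      rw [mul_pow]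
      ring
  · have hscl : scl e (kc k (N / e) μ) n j = 0 := by
      unfold scl
      rw [if_neg hd]
    rw [hscl, mul_zero]
    symm
    refine Finset.sum_eq_zero fun r hr => ?_
    rw [if_neg]
    intro her
    apply hd
    have h1 : e ∣ Int.gcd n j := her.trans (Nat.dvd_of_mem_divisors hr)
    have h2 : (e : ℤ) ∣ (Int.gcd n j : ℤ) := by exact_mod_cast h1
    exact ⟨h2.trans (Int.gcd_dvd_left ..), h2.trans (Int.gcd_dvd_right ..)⟩

/-- CHUNK PZ2.  The Möbius combination of the coefficients of the kernels of levels `N / e` is the lift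
of level `N` of the Poincaré series of level `N`.

Proof.  Both sides vanish unless `n > 0`, `qf n j > 0` (for `e ∣ n, j`: `qf n j = e² qf (n/e) (j/e)`).
Let `g = gcd (n, j) > 0`.  The term `e` (`e ∣ N`, `e ∣ g`, otherwise `0`) is
`μ(e) χ(e) e^(k-1) ∑_{r' ∣ g/e} χ(r') r'^(k-1) ac (P (N/e / gcd (N/e, r'))) (qf (n/e) (j/e) / r'²)`;
with `r = e r'` it is `μ(e) ∑_{e ∣ r ∣ g} χ(r) r^(k-1) ac (P (N / gcd (N, r))) (qf n j / r²)`
(`e gcd (N/e, r') = gcd (N, r)`).  Exchange the sums: for `r ∣ g` the sum of `μ(e)` over the common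
divisors `e` of `N` and `r` is `[gcd (N, r) = 1]` (`ArithmeticFunction.sum_moebius_...`,
`ArithmeticFunction.coe_moebius_mul_coe_zeta`), and then `N / gcd (N, r) = N`. -/
theorem PZ2_moebius (k N μ : ℕ) (hN : 1 ≤ N) (hk : 1 ≤ k) (n j : ℤ) :
    ∑ e ∈ N.divisors, ((ArithmeticFunction.moebius e : ℂ) * (chi e : ℂ) * (e : ℂ) ^ (k - 1)) *
        scl e (kc k (N / e) μ) n j =
      lc k N (ac (PS k μ (Row N))) n j := by
  by_cases hpos : 0 < n ∧ 0 < qf n j
  · obtain ⟨hn, hq⟩ := hpos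
    rw [Finset.sum_congr rfl fun e he => PZ2_term k N μ hN n j hn hq e he, Finset.sum_comm]
    unfold lc
    rw [if_pos ⟨hn, hq⟩, Finset.sum_filter]
    refine Finset.sum_congr rfl fun r hr => ?_
    have h1 : ∑ e ∈ N.divisors, (if e ∣ r then
        (ArithmeticFunction.moebius e : ℂ) * PZ2_f k N μ n j r else 0) =
        (∑ e ∈ (Nat.gcd N r).divisors, (ArithmeticFunction.moebius e : ℂ)) *
          PZ2_f k N μ n j r := by
      rw [← Finset.sum_filter, Finset.sum_mul]
      refine Finset.sum_congr ?_ fun _ _ => rfl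
      ext e
      rw [Finset.mem_filter, Nat.mem_divisors, Nat.mem_divisors, Nat.dvd_gcd_iff]
      have hN0 : N ≠ 0 := by omega
      have hg0 : Nat.gcd N r ≠ 0 := fun h => hN0 (Nat.gcd_eq_zero_iff.mp h).1
      constructor
      · rintro ⟨⟨h1, _⟩, h2⟩
        exact ⟨⟨h1, h2⟩, hg0⟩
      · rintro ⟨⟨h1, h2⟩, _⟩
        exact ⟨⟨h1, hN0⟩, h2⟩
    rw [h1, PZ2_moeb]
    by_cases hc : Nat.gcd N r = 1
    · rw [if_pos hc, one_mul, if_pos (Nat.Coprime.symm hc)]
      unfold PZ2_f
      rw [hc, Nat.div_one]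
    · rw [if_neg hc, zero_mul, if_neg fun h => hc (Nat.Coprime.symm h)]
  · have h1 : lc k N (ac (PS k μ (Row N))) n j = 0 := by
      unfold lc
      rw [if_neg hpos]
    rw [h1]
    refine Finset.sum_eq_zero fun e he => ?_
    have he0 : 0 < e := Nat.pos_of_mem_divisors he
    have he0' : (e : ℤ) ≠ 0 := by exact_mod_cast he0.ne'
    have h2 : scl e (kc k (N / e) μ) n j = 0 := by
      unfold scl
      split_ifs with hd
      · obtain ⟨⟨n', rfl⟩, ⟨j', rfl⟩⟩ := hd
        rw [Int.mul_ediv_cancel_left _ he0', Int.mul_ediv_cancel_left _ he0']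
        unfold kc
        rw [if_neg]
        rintro ⟨ha, hb⟩
        apply hpos
        refine ⟨?_, ?_⟩
        · have : (0 : ℤ) < e := by exact_mod_cast he0
          positivity
        · rw [PZ2_qf]
          positivity
      · rfl
    rw [h2, mul_zero]

end H94M
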