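import Pool.Agent.Lib.H94M.P1
import Pool.Agent.Lib.H94M.PB
import Pool.Agent.Lib.H94M.K2

set_option autoImplicit false

/-!
CHUNK PZ3 (S/M).  Scaling and the diagonal action.
-/

namespace H94M

open Real

/-- CHUNK PZ3.  If `G` is modular for `Γ₀(N/e)` then `G (e z₁, e z₂)` is modular for `Γ₀(N)`:
`e (A z + B)/(C z + D) = (A (e z) + e B)/((C/e) (e z) + D)`, and `N/e ∣ C/e`. -/
theorem PZ3_scale (N k e : ℕ) (he : 0 < e) (heN : e ∣ N) {G : ℂ → ℂ → ℂ}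
    (hG : DTrans (N / e) k G) : DTrans N k fun z₁ z₂ => G (e * z₁) (e * z₂) := by
  intro A B C D hdet hC z₁ z₂ h₁ h₂
  have he' : (e : ℤ) ≠ 0 := by exact_mod_cast he.ne'
  have hec : (0 : ℝ) < (e : ℝ) := by exact_mod_cast he
  obtain ⟨N', hN'⟩ := heN
  subst hN'
  rw [Nat.mul_div_cancel_left _ he] at hG
  push_cast at hC
  obtain ⟨C', hC'⟩ := (dvd_mul_right (e : ℤ) (N' : ℤ)).trans hC
  subst hC'
  have hNC : (N' : ℤ) ∣ C' := Int.dvd_of_mul_dvd_mul_left he' hC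
  have h3 := hG A (e * B) C' D (by linear_combination hdet) hNC (e * z₁) (e * z₂)
    (by simpa using mul_pos hec h₁) (by simpa using mul_pos hec h₂)
  have h4 : ∀ z : ℂ, (e : ℂ) * (((A : ℂ) * z + B) / (((e * C' : ℤ) : ℂ) * z + D)) =
      ((A : ℂ) * (e * z) + ((e * B : ℤ) : ℂ)) / ((C' : ℂ) * (e * z) + D) := by
    intro z
    rw [mul_div_assoc']
    push_cast
    congr 1 <;> ring
  simp only [h4]
  rw [h3]
  congr 2
  push_cast
  ring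

/-- CHUNK PZ3. -/
theorem PZ3_sum {ι : Type*} (N k : ℕ) (s : Finset ι) (b : ι → ℂ) (G : ι → ℂ → ℂ → ℂ)
    (hG : ∀ i ∈ s, DTrans N k (G i)) : DTrans N k fun z₁ z₂ => ∑ i ∈ s, b i * G i z₁ z₂ := by
  intro A B C D hdet hC z₁ z₂ h₁ h₂
  simp only
  rw [Finset.mul_sum]
  refine Finset.sum_congr rfl fun i hi => ?_
  rw [hG i hi A B C D hdet hC z₁ z₂ h₁ h₂]
  ring

/-- CHUNK PZ3.  `DTrans` depends only on the values in the upper half plane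
(`Im ((A z + B)/(C z + D)) > 0`; see `K2.mob_im_pos` in `H94M/K2.lean`). -/
theorem PZ3_congr (N k : ℕ) {G G' : ℂ → ℂ → ℂ}
    (h : ∀ z₁ z₂ : ℂ, 0 < z₁.im → 0 < z₂.im → G z₁ z₂ = G' z₁ z₂) (hG : DTrans N k G) :
    DTrans N k G' := by
  intro A B C D hdet hC z₁ z₂ h₁ h₂
  rw [← h z₁ z₂ h₁ h₂, ← h _ _ (mob_im_pos hdet h₁) (mob_im_pos hdet h₂)]
  exact hG A B C D hdet hC z₁ z₂ h₁ h₂

end H94M
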