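import Pool.Agent.Lib.H94M.PZ2
import Pool.Agent.Lib.H94M.PZ3
import Pool.Agent.Lib.H94M.PF10
import Pool.Agent.Lib.H94M.QA0

set_option autoImplicit false

/-!
CHUNK PZ4 (S/M).  The lifts of the Poincaré series and of all cusp forms.
-/

namespace H94M

open Real UpperHalfPlane

/-- CHUNK PZ4.  The constant is not `0`. -/
theorem PZ4_CC (k : ℕ) : CC k ≠ 0 := by
  unfold CC
  have h1 : (-2 * (π : ℂ) * Complex.I) ≠ 0 := by
    have : (π : ℂ) ≠ 0 := by exact_mod_cast Real.pi_ne_zero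
    simp [this]
  have h2 : (((k - 1).factorial : ℕ) : ℂ) ≠ 0 := by exact_mod_cast (Nat.factorial_pos _).ne'
  have h3 : ((√5 : ℝ) : ℂ) ≠ 0 := by
    have : (√5 : ℝ) ≠ 0 := by positivity
    exact_mod_cast this
  have h4 : (5 : ℂ) ^ k ≠ 0 := pow_ne_zero _ (by norm_num)
  exact div_ne_zero (mul_ne_zero (div_ne_zero (pow_ne_zero _ h1) h2) h3) h4

/-- CHUNK PZ4.  The lift of the Poincaré series of level `N`, `5 ∣ N`.  Proof: by `PZ2_moebius`,
`PZ1_sum`, `PZ1_scl` (with `PF10_kc`, `PZ1_PG`) `HSe (lc ...)` is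
`∑_{e ∣ N} μ(e) χ(e) e^(k-1) HSe (kc k (N/e) μ) (e z₁) (e z₂)`; the terms with `5 ∣ e` vanish
(`chi_eq_zero_iff`); for the others `5 ∣ N/e` and by `StPF` the series is
`(2 CC k)⁻¹ Om k (N/e) μ (e z₁) (e z₂)`; `StPK`, `PZ3_scale`, `PZ3_sum`, `PZ3_congr`. -/
theorem PZ4_poincare (hPP : StPP) (hPK : StPK) (hPF : StPF) (N k μ : ℕ) (hN : 1 ≤ N)
    (h5 : 5 ∣ N) (hk : 4 ≤ k) (hke : Even k) (hμ : 1 ≤ μ) :
    DTrans N k (HSe (lc k N (ac (PS k μ (Row N))))) := by
  set b : ℕ → ℂ := fun e => (ArithmeticFunction.moebius e : ℂ) * (chi e : ℂ) * (e : ℂ) ^ (k - 1)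
    with hb
  have hdiv : ∀ e ∈ N.divisors, 0 < e ∧ e ∣ N ∧ 1 ≤ N / e := by
    intro e he
    rw [Nat.mem_divisors] at he
    have h1 : 0 < e := Nat.pos_of_dvd_of_pos he.1 (by omega)
    exact ⟨h1, he.1, Nat.div_pos (Nat.le_of_dvd (by omega) he.1) h1⟩
  have key : ∀ z₁ z₂ : ℂ, 0 < z₁.im → 0 < z₂.im →
      ∑ e ∈ N.divisors.filter (fun e => ¬ 5 ∣ e), b e *
        (fun z₁ z₂ : ℂ => HSe (kc k (N / e) μ) (e * z₁) (e * z₂)) z₁ z₂ =
      HSe (lc k N (ac (PS k μ (Row N)))) z₁ z₂ := by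
    intro z₁ z₂ h₁ h₂
    have e1 : lc k N (ac (PS k μ (Row N))) =
        fun n j => ∑ e ∈ N.divisors, b e * scl e (kc k (N / e) μ) n j := by
      funext n j
      exact (PZ2_moebius k N μ hN (by omega) n j).symm
    rw [e1, PZ1_sum N.divisors b (fun e => scl e (kc k (N / e) μ)) (fun e he =>
      PZ1_PG e (hdiv e he).1 (PF10_kc hPP k (N / e) μ hk (hdiv e he).2.2 hμ)) h₁ h₂]
    rw [Finset.sum_filter]
    refine Finset.sum_congr rfl fun e he => ?_
    rw [PZ1_scl e (hdiv e he).1]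
    by_cases h : 5 ∣ e
    · have h6 : chi (e : ℤ) = 0 := by
        rw [chi_eq_zero_iff]
        exact_mod_cast h
      have h7 : b e = 0 := by
        rw [hb]
        simp only
        rw [h6]
        simp
      rw [if_neg (not_not.mpr h), h7, zero_mul]
    · rw [if_pos h]
  refine PZ3_congr N k key ?_
  refine PZ3_sum N k _ b (fun e => fun z₁ z₂ : ℂ => HSe (kc k (N / e) μ) (e * z₁) (e * z₂)) ?_
  intro e he
  rw [Finset.mem_filter] at he
  obtain ⟨he0, heN, hNe⟩ := hdiv e he.1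
  have h5' : 5 ∣ N / e := by
    have h6 : 5 ∣ e * (N / e) := by
      rw [Nat.mul_div_cancel' heN]
      exact h5
    exact ((Nat.Prime.dvd_mul (by norm_num)).mp h6).resolve_left he.2
  refine PZ3_scale N k e he0 heN ?_
  have hOm := hPK k (N / e) μ hk hNe h5' hμ
  have hexp := hPF k (N / e) μ hk hke hNe h5' hμ
  have hsum := PZ3_sum (N / e) k {()} (fun _ => (2 * CC k)⁻¹) (fun _ => Om k (N / e) μ)
    (fun _ _ => hOm)
  refine PZ3_congr (N / e) k (fun z₁ z₂ h₁ h₂ => ?_) hsum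
  rw [Finset.sum_singleton, hexp z₁ z₂ h₁ h₂, ← mul_assoc, inv_mul_cancel₀, one_mul]
  exact mul_ne_zero two_ne_zero (PZ4_CC k)

/-- linearity of the `q`-expansion -/
theorem PZ4_qexp (N k : ℕ) (s : Finset ℕ) (c : ℕ → ℂ) (F : ℕ → CuspForm (G0 N) (k : ℤ)) :
    qExpansion 1 (fun τ : ℍ => ∑ μ ∈ s, c μ * F μ τ) =
      ∑ μ ∈ s, c μ • qExpansion 1 (F μ : ℍ → ℂ) := by
  classical
  have h : ∀ t : Finset ℕ, ∃ G : CuspForm (G0 N) (k : ℤ),
      ((G : ℍ → ℂ) = fun τ : ℍ => ∑ μ ∈ t, c μ * F μ τ) ∧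
      qExpansion 1 (G : ℍ → ℂ) = ∑ μ ∈ t, c μ • qExpansion 1 (F μ : ℍ → ℂ) := by
    intro t
    induction t using Finset.induction_on with
    | empty =>
      refine ⟨0, ?_, ?_⟩
      · funext τ
        simp
      · rw [Finset.sum_empty, FunLike.coe_zero]
        exact qExpansion_zero 1
    | insert a t ha ih =>
      obtain ⟨G, h1, h2⟩ := ih
      refine ⟨c a • F a + G, ?_, ?_⟩
      · funext τ
        rw [Finset.sum_insert ha, FunLike.coe_add, h1, FunLike.coe_smul]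
        rfl
      · rw [Finset.sum_insert ha, FunLike.coe_add,
          ModularForm.qExpansion_add one_pos (one_mem_strictPeriods N) (c a • F a) G, h2,
          FunLike.coe_smul,
          ModularForm.qExpansion_smul one_pos (one_mem_strictPeriods N) (c a) (F a)]
  obtain ⟨G, h1, h2⟩ := h s
  rw [← h1]
  exact h2

/-- CHUNK PZ4.  Linearity in the form: if `f = ∑ c_μ P_μ` then `ac f n = ∑ c_μ ac P_μ n` (the
`q`-expansion is additive and homogeneous for modular forms: `ModularForm.qExpansion_add`, `_smul`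
with the cusp forms of `StPP`; or uniqueness of the `q`-expansion), so `lc k N (ac f)` is the same
combination; `PZ1_sum` (`PF10_lc`, `PF10_ac`), `PZ3_sum`, `PZ3_congr`. -/
theorem PZ4_all (hPP : StPP) (hPT : StPT) (hPK : StPK) (hPF : StPF) (N k : ℕ) (hN : 1 ≤ N)
    (h5 : 5 ∣ N) (hk : 4 ≤ k) (hke : Even k) (f : CuspForm (G0 N) (k : ℤ)) :
    DTrans N k (HSe (lc k N (ac f))) := by
  obtain ⟨s, c, hs, hf⟩ := hPT N k hN hk hke f
  have hF : ∀ μ : ℕ, ∃ F : CuspForm (G0 N) (k : ℤ), 1 ≤ μ → (F : ℍ → ℂ) = PS k μ (Row N) := by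
    intro μ
    by_cases h : 1 ≤ μ
    · obtain ⟨F, hF⟩ := hPP N k μ hN hk h
      exact ⟨F, fun _ => hF⟩
    · exact ⟨0, fun h' => absurd h' h⟩
  choose F hF using hF
  have hfe : (f : ℍ → ℂ) = fun τ : ℍ => ∑ μ ∈ s, c μ * F μ τ := by
    funext τ
    rw [hf τ]
    refine Finset.sum_congr rfl fun μ hμ => ?_
    rw [hF μ (hs μ hμ)]
  have hac : ∀ n : ℤ, ac f n = ∑ μ ∈ s, c μ * ac (PS k μ (Row N)) n := by
    intro n
    unfold ac
    by_cases hn : 0 < n
    · simp only [if_pos hn]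
      rw [hfe, PZ4_qexp, map_sum]
      refine Finset.sum_congr rfl fun μ hμ => ?_
      rw [PowerSeries.coeff_smul, hF μ (hs μ hμ)]
      rfl
    · simp only [if_neg hn, mul_zero, Finset.sum_const_zero]
  have hlc : lc k N (ac f) = fun n j => ∑ μ ∈ s, c μ * lc k N (ac (PS k μ (Row N))) n j := by
    funext n j
    unfold lc
    by_cases h : 0 < n ∧ 0 < qf n j
    · simp only [if_pos h]
      simp only [hac, Finset.mul_sum]
      rw [Finset.sum_comm]
      refine Finset.sum_congr rfl fun μ _ => Finset.sum_congr rfl fun r _ => by ring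
    · simp only [if_neg h, mul_zero, Finset.sum_const_zero]
  have hPG : ∀ μ ∈ s, PG (lc k N (ac (PS k μ (Row N)))) := by
    intro μ hμ
    refine PF10_lc k N ?_
    rw [← hF μ (hs μ hμ)]
    exact PF10_ac N k hN (F μ)
  refine PZ3_congr N k (fun z₁ z₂ h₁ h₂ => ?_)
    (PZ3_sum N k s c (fun μ => HSe (lc k N (ac (PS k μ (Row N))))) fun μ hμ =>
      PZ4_poincare hPP hPK hPF N k μ hN h5 hk hke (hs μ hμ))
  rw [hlc]
  exact (PZ1_sum s c (fun μ => lc k N (ac (PS k μ (Row N)))) hPG h₁ h₂).symm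

end H94M
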