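import Pool.Agent.Lib.H94M.PF10

set_option autoImplicit false

/-!
CHUNK PZ5 (M).  Comparison with the notation of the other modules: `m = n - 2 j`.
-/

namespace H94M

open Real UpperHalfPlane H53M

/-- CHUNK PZ5.  `NN n m = qf n j`, `uu n m = nu1 n j`, `vv n m = nu2 n j` for `m = n - 2 j`. -/
theorem PZ5_NN (n : ℕ) (j : ℤ) : NN n ((n : ℤ) - 2 * j) = qf n j := by
  unfold NN qf
  have : 5 * (n : ℤ) ^ 2 - ((n : ℤ) - 2 * j) ^ 2 = 4 * ((n : ℤ) ^ 2 + n * j - j ^ 2) := by ring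
  rw [this]
  exact Int.mul_ediv_cancel_left _ (by norm_num)

/-- CHUNK PZ5. -/
theorem PZ5_uu (n : ℕ) (j : ℤ) : uu n ((n : ℤ) - 2 * j) = nu1 n j ∧
    vv n ((n : ℤ) - 2 * j) = nu2 n j := by
  unfold uu vv nu1 nu2
  push_cast
  exact ⟨rfl, rfl⟩

theorem PZ5_cond (n : ℕ) (j : ℤ) : (((n : ℤ) - 2 * j) ^ 2 < 5 * (n : ℤ) ^ 2 ∧
    (2 : ℤ) ∣ (n : ℤ) - ((n : ℤ) - 2 * j)) ↔ (0 < (n : ℤ) ∧ 0 < qf n j) := by
  have h1 : 4 * qf n j = 5 * (n : ℤ) ^ 2 - ((n : ℤ) - 2 * j) ^ 2 := by unfold qf; ring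
  constructor
  · rintro ⟨h2, -⟩
    have h3 : 0 < (n : ℤ) := by
      rcases Nat.eq_zero_or_pos n with h | h
      · subst h
        exfalso
        have : 0 ≤ (((0 : ℕ) : ℤ) - 2 * j) ^ 2 := sq_nonneg _
        have h5 : 5 * ((0 : ℕ) : ℤ) ^ 2 = 0 := by norm_num
        omega
      · exact_mod_cast h
    exact ⟨h3, by linarith⟩
  · rintro ⟨-, h2⟩
    exact ⟨by linarith, ⟨j, by ring⟩⟩

theorem PZ5_pos {x y : ℤ} (hx : 0 < x) (h : 0 < x * y) : 0 < y := by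
  by_contra hy
  have : x * y ≤ 0 := mul_nonpos_of_nonneg_of_nonpos hx.le (not_lt.mp hy)
  omega

theorem PZ5_dvd {n : ℕ} {j : ℤ} {r : ℕ} (hr : 0 < r) :
    ((r ∣ n ∧ (r : ℤ) ∣ (n : ℤ) - 2 * j) ∧
      (2 : ℤ) ∣ ((n / r : ℕ) : ℤ) - ((n : ℤ) - 2 * j) / (r : ℤ)) ↔ (r ∣ n ∧ (r : ℤ) ∣ j) := by
  have hr' : (r : ℤ) ≠ 0 := by exact_mod_cast hr.ne'
  constructor
  · rintro ⟨⟨⟨a, rfl⟩, ⟨b, hb⟩⟩, h2⟩
    rw [hb, Int.mul_ediv_cancel_left _ hr', Nat.mul_div_cancel_left _ hr] at h2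
    obtain ⟨t, ht⟩ := h2
    refine ⟨⟨a, rfl⟩, ⟨t, ?_⟩⟩
    push_cast at hb
    have h3 : 2 * j = (r : ℤ) * ((a : ℤ) - b) := by linarith
    rw [ht] at h3
    linarith
  · rintro ⟨⟨a, rfl⟩, ⟨b, rfl⟩⟩
    have h4 : ((r * a : ℕ) : ℤ) - 2 * ((r : ℤ) * b) = (r : ℤ) * ((a : ℤ) - 2 * b) := by
      push_cast
      ring
    refine ⟨⟨⟨a, rfl⟩, ⟨(a : ℤ) - 2 * b, h4⟩⟩, ?_⟩
    rw [h4, Int.mul_ediv_cancel_left _ hr', Nat.mul_div_cancel_left _ hr]
    exact ⟨b, by ring⟩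

/-- CHUNK PZ5.  The coefficients: `r ∣ n`, `r ∣ n - 2 j` and `2 ∣ n/r - (n - 2 j)/r` iff `r ∣ n`, `r ∣ j`;
`NN (n/r) ((n - 2 j)/r) = qf n j / r² > 0`; `m² < 5 n²` iff `qf n j > 0` (given `n > 0`; for `n = 0` both
sides are `0`). -/
theorem PZ5_coeff (N k : ℕ) (a : ℤ → ℂ) (n : ℕ) (j : ℤ) :
    bc N k (fun i : ℕ => a i) n ((n : ℤ) - 2 * j) = lc k N a n j := by
  unfold bc lc
  by_cases hc : 0 < (n : ℤ) ∧ 0 < qf n j
  · rw [if_pos hc, if_pos ((PZ5_cond n j).mpr hc)]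
    obtain ⟨hn, hq⟩ := hc
    have hn' : n ≠ 0 := by
      intro h
      subst h
      exact absurd hn (by norm_num)
    have hset : (Nat.gcd n ((n : ℤ) - 2 * j).natAbs).divisors.filter
        (fun r => r.Coprime N ∧ (2 : ℤ) ∣ ((n / r : ℕ) : ℤ) - ((n : ℤ) - 2 * j) / (r : ℤ)) =
        (Int.gcd n j).divisors.filter (fun r => Nat.Coprime r N) := by
      ext r
      rw [Finset.mem_filter, Finset.mem_filter, Nat.mem_divisors, Nat.mem_divisors]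
      have hg1 : Nat.gcd n ((n : ℤ) - 2 * j).natAbs ≠ 0 := by
        rw [Ne, Nat.gcd_eq_zero_iff]
        exact fun h => hn' h.1
      have hg2 : Int.gcd n j ≠ 0 := by
        rw [Ne, Int.gcd_eq_zero_iff]
        exact fun h => hn' (by exact_mod_cast h.1)
      have h1 : r ∣ Nat.gcd n ((n : ℤ) - 2 * j).natAbs ↔
          (r ∣ n ∧ (r : ℤ) ∣ (n : ℤ) - 2 * j) := by
        rw [Nat.dvd_gcd_iff, Int.natCast_dvd]
      have h2 : r ∣ Int.gcd n j ↔ (r ∣ n ∧ (r : ℤ) ∣ j) := by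
        rw [Int.gcd, Nat.dvd_gcd_iff, Int.natCast_dvd, Int.natAbs_natCast]
      rcases Nat.eq_zero_or_pos r with hr | hr
      · subst hr
        constructor
        · rintro ⟨⟨h3, -⟩, -⟩
          exact absurd (Nat.eq_zero_of_zero_dvd h3) hg1
        · rintro ⟨⟨h3, -⟩, -⟩
          exact absurd (Nat.eq_zero_of_zero_dvd h3) hg2
      · have h3 := PZ5_dvd (n := n) (j := j) hr
        constructor
        · rintro ⟨⟨h4, -⟩, h5, h6⟩
          exact ⟨⟨h2.mpr (h3.mp ⟨h1.mp h4, h6⟩), hg2⟩, h5⟩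
        · rintro ⟨⟨h4, -⟩, h5⟩
          have h7 := h3.mpr (h2.mp h4)
          exact ⟨⟨h1.mpr h7.1, hg1⟩, h5, h7.2⟩
    rw [hset]
    refine Finset.sum_congr rfl fun r hr => ?_
    rw [Finset.mem_filter, Nat.mem_divisors] at hr
    obtain ⟨⟨hr1, hr2⟩, -⟩ := hr
    have h2 : (r ∣ n ∧ (r : ℤ) ∣ j) := by
      rw [Int.gcd, Nat.dvd_gcd_iff, Int.natAbs_natCast, ← Int.natCast_dvd] at hr1
      exact hr1
    obtain ⟨⟨b, rfl⟩, ⟨t, rfl⟩⟩ := h2
    have hr0 : 0 < r := by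
      rcases Nat.eq_zero_or_pos r with h | h
      · subst h
        exact absurd (by simp) hn'
      · exact h
    have hr' : (r : ℤ) ≠ 0 := by exact_mod_cast hr0.ne'
    have h4 : ((r * b : ℕ) : ℤ) - 2 * ((r : ℤ) * t) = (r : ℤ) * ((b : ℤ) - 2 * t) := by
      push_cast
      ring
    have h5 : qf ((r * b : ℕ) : ℤ) ((r : ℤ) * t) = (r : ℤ) ^ 2 * qf b t := by
      unfold qf
      push_cast
      ring
    have h6 : 0 < qf b t := by
      rw [h5] at hq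
      have h9 : (0 : ℤ) < (r : ℤ) ^ 2 := by positivity
      exact PZ5_pos h9 hq
    rw [h4, Int.mul_ediv_cancel_left _ hr', Nat.mul_div_cancel_left _ hr0, PZ5_NN, h5,
      Int.mul_ediv_cancel_left _ (pow_ne_zero 2 hr')]
    have h7 : ((qf b t).toNat : ℤ) = qf b t := Int.toNat_of_nonneg h6.le
    simp only
    rw [h7]
    have h8 : chi5 (r : ℤ) = chi (r : ℤ) := rfl
    rw [h8]
    push_cast
    ring
  · rw [if_neg hc, if_neg (fun h => hc ((PZ5_cond n j).mp h))]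

/-- CHUNK PZ5.  The series: `bc` vanishes unless `n ≡ m mod 2` and `m² < 5 n²`, so `m ∈ ms n`; absolutely
convergent rearrangement (`PF9_summable`, `PF10_lc`; `Summable.tsum_prod`,
`tsum_eq_sum`), `(n, j) ↦ (n, n - 2 j)`. -/
theorem PZ5_series (N k : ℕ) {a : ℤ → ℂ} (ha : ∃ C : ℝ, ∀ n : ℤ, ‖a n‖ ≤ C * |(n : ℝ)| ^ k)
    {z₁ z₂ : ℂ} (h₁ : 0 < z₁.im) (h₂ : 0 < z₂.im) :
    GS (bc N k (fun i : ℕ => a i)) z₁ z₂ = HSe (lc k N a) z₁ z₂ := by
  have hPG := PF10_lc k N ha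
  have hs := PF9_summable hPG h₁ h₂
  unfold GS HSe
  rw [hs.tsum_prod]
  have hinj : Function.Injective (fun n : ℕ => (n : ℤ)) := fun _ _ h => Nat.cast_injective h
  rw [← hinj.tsum_eq]
  · refine tsum_congr fun n => ?_
    let G : ℤ → ℂ := fun m => bc N k (fun i : ℕ => a i) n m *
      Complex.exp (2 * Real.pi * Complex.I * ((uu n m : ℂ) * z₁ + (vv n m : ℂ) * z₂))
    have hG0 : ∀ m, G m ≠ 0 → m ^ 2 < 5 * (n : ℤ) ^ 2 ∧ (2 : ℤ) ∣ (n : ℤ) - m := by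
      intro m hm
      by_contra hcon
      apply hm
      simp only [G]
      unfold bc
      rw [if_neg hcon, zero_mul]
    have hinj2 : Function.Injective (fun j : ℤ => (n : ℤ) - 2 * j) := by
      intro x y hxy
      simp only at hxy
      omega
    have h3 : (∑' j : ℤ, G ((n : ℤ) - 2 * j)) = ∑' m, G m := by
      refine hinj2.tsum_eq (f := G) ?_
      intro m hm
      obtain ⟨-, ⟨t, ht⟩⟩ := hG0 m hm
      exact ⟨t, by simp only; omega⟩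
    have h4 : (∑' m, G m) = ∑ m ∈ ms n, G m := by
      refine tsum_eq_sum fun m hm => ?_
      by_contra hcon
      obtain ⟨h5, -⟩ := hG0 m hcon
      apply hm
      unfold ms
      rw [Finset.mem_Icc]
      have h6 : m ^ 2 ≤ (3 * (n : ℤ)) ^ 2 := by nlinarith [sq_nonneg (n : ℤ)]
      have h7 := abs_le_of_sq_le_sq' h6 (by positivity)
      exact h7
    change (∑ m ∈ ms n, G m) = _
    rw [← h4, ← h3]
    refine tsum_congr fun j => ?_
    simp only [G]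
    rw [PZ5_coeff, (PZ5_uu n j).1, (PZ5_uu n j).2]
    rfl
  · intro m hm
    rw [Function.mem_support] at hm
    by_contra hcon
    apply hm
    have hneg : m < 0 := by
      by_contra h
      exact hcon ⟨m.toNat, by simp only; omega⟩
    have hz : ∀ j : ℤ, lc k N a m j * ee ((nu1 m j : ℂ) * z₁ + (nu2 m j : ℂ) * z₂) = 0 := by
      intro j
      have : lc k N a m j = 0 := by
        by_contra h
        have := (hPG.1 m j h).1
        omega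
      rw [this, zero_mul]
    simp only [hz, tsum_zero]

end H94M
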