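import Pool.Agent.Lib.H94M.PZ4
import Pool.Agent.Lib.H94M.PZ5
import Pool.Agent.Lib.H94M.PF11
import Pool.Agent.Lib.H94M.PK4
import Pool.Agent.Lib.H94M.B1

set_option autoImplicit false

/-!
# H94M, module P: the final statement
-/

namespace H94M

open Real UpperHalfPlane H53M

/-- The coefficients of `bc` only involve `a i` with `i ≥ 1`. -/
theorem PZ6_bc_congr (N k : ℕ) {a b : ℕ → ℂ} (h : ∀ i, 1 ≤ i → a i = b i) (n : ℕ) (m : ℤ) :
    bc N k a n m = bc N k b n m := by
  rw [bc_eq, bc_eq]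
  split_ifs with h1
  · refine Finset.sum_congr rfl fun r hr => ?_
    have hn : 0 < n := by
      rcases Nat.eq_zero_or_pos n with h0 | h0
      · subst h0
        have h2 := h1.1
        have h3 := sq_nonneg m
        simp only [Nat.cast_zero] at h2
        omega
      · exact h0
    have h2 := NN_pos' h1.1 h1.2
    have h3 := NN_div hn hr
    have h4 : 0 < NN (n / r) (m / (r : ℤ)) := by
      by_contra hc
      push Not at hc
      have h5 : (r : ℤ) ^ 2 * NN (n / r) (m / (r : ℤ)) ≤ 0 :=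
        mul_nonpos_of_nonneg_of_nonpos (by positivity) hc
      omega
    rw [h _ (by omega)]
  · rfl

/-- **Module P.**  The base change to `ℚ(√5)` of a cusp form of weight `k ≥ 4` on `Γ₀(N)`, `5 ∣ N`, is
modular on the diagonal. -/
theorem PZ6_final (hPE : StPE) (hPP : StPP) (hPC : StPC) (hPT : StPT) (N k : ℕ) (hN : 1 ≤ N)
    (h5 : 5 ∣ N) (hk : 4 ≤ k) (hke : Even k) (f : CuspForm (G0 N) (k : ℤ)) :
    DTrans N k (GS (bc N k fun n => PowerSeries.coeff n (qExpansion 1 (f : ℍ → ℂ)))) := by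
  have h := PZ4_all hPP hPT PK4_inv (PF11_expansion hPE hPP hPC) N k hN h5 hk hke f
  refine PZ3_congr N k (fun z₁ z₂ h₁ h₂ => ?_) h
  rw [← PZ5_series N k (PF10_ac N k hN f) h₁ h₂]
  congr 1
  funext n m
  refine PZ6_bc_congr N k (fun i hi => ?_) n m
  unfold ac
  rw [if_pos (by exact_mod_cast hi)]
  simp

end H94M
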