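import Pool.Agent.Lib.H94M.QA0

/-!
# H94M, chunk QA4 (M): Sturm bound in characteristic 0 on `Γ₀(N)`

PROOF. Let `F ≠ 0` be of weight `w` on `G0 N` with `coeff n (qExpansion 1 F) = 0` for `12 n ≤ w mu`.
`P := ModularForm.norm 𝒮ℒ F` (weight `w * mu N`, by definition of `mu`), `P ≠ 0`
(`ModularForm.norm_ne_zero`). `P = F * (product over the other cosets)`: with the coset of `1` split
off (`coe_norm`, `Finset.mul_prod_erase`, `quotientFunc_mk`). Each factor `F|γ` is bounded at
`i∞`, and `F = O(exp(-2π m y))` as `y → ∞` where `m > w mu/12` is the order (from the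
q-expansion: `F(τ) = q^m * (bounded)`: `hasSum_qExpansion`, `|q| ≤ 1/2`; or
`ModularFormClass.exp_decay...`). So `P = O(exp(-2π m y))`; hence the coefficients `n < m` of its
q-expansion vanish (`qExpansion_coeff_eq_intervalIntegral`, or `HasFPowerSeriesAt` + `isBigO`: if
`cuspFunction = O(q^m)` then the coefficients below `m` are zero). Thus
`(w mu).toNat / 12 < order`, `ModularForm.sturm_bound_levelOne` (Mathlib) gives `P = 0`.
-/

namespace H94M

open H53M UpperHalfPlane ModularForm PowerSeries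
open scoped MatrixGroups

theorem QA4_bdd (N : ℕ) [NeZero N] (w : ℕ) (F : ModularForm (G0 N) (w : ℤ))
    (q : 𝒮ℒ ⧸ (G0 N).subgroupOf 𝒮ℒ) : IsBoundedAtImInfty (SlashInvariantForm.quotientFunc F q) := by
  induction q using Quotient.inductionOn with
  | h r =>
    obtain ⟨r, hr⟩ := r
    have hc : IsCusp OnePoint.infty (𝒮ℒ : Subgroup (GL (Fin 2) ℝ)) :=
      Subgroup.isCusp_of_mem_strictPeriods one_pos (by simp)
    have h1 := (ModularForm.translate F r⁻¹).bdd_at_cusps' (c := OnePoint.infty)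
      (by simpa using hc.of_isFiniteRelIndex_conj (𝒢 := G0 N) hr) 1 (by simp)
    rw [SlashAction.slash_one] at h1
    exact h1

theorem QA4_isBigO (N : ℕ) [NeZero N] (w : ℕ) (F : ModularForm (G0 N) (w : ℤ)) (M : ℕ)
    (h : ∀ n : ℕ, n < M → coeff n (qExpansion 1 (F : ℍ → ℂ)) = 0) :
    (F : ℍ → ℂ) =O[atImInfty] fun τ => ‖Function.Periodic.qParam 1 (τ : ℂ)‖ ^ M := by
  have han := ModularFormClass.analyticAt_cuspFunction_zero F one_pos (one_mem_strictPeriods N)
  have hcusp : Fact (IsCusp OnePoint.infty (G0 N)) :=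
    ⟨Subgroup.isCusp_of_mem_strictPeriods one_pos (one_mem_strictPeriods N)⟩
  have h1 := (hasFPowerSeries_cuspFunction F one_pos han
    (c := fun n => coeff n (qExpansion 1 (F : ℍ → ℂ)))
    (fun τ => by
      simpa using ModularForm.hasSum_qExpansion F one_pos (one_mem_strictPeriods N) τ)).hasFPowerSeriesAt
  have h2 := h1.isBigO_sub_partialSum_pow M
  have h3 : ∀ y : ℂ, (qExpansionFormalMultilinearSeries 1 F).partialSum M y = 0 := by
    intro y
    unfold FormalMultilinearSeries.partialSum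
    refine Finset.sum_eq_zero fun k hk => ?_
    rw [FormalMultilinearSeries.apply_eq_pow_smul_coeff, qExpansionFormalMultilinearSeries_coeff,
      h k (Finset.mem_range.1 hk), smul_zero]
  simp only [h3, zero_add, sub_zero] at h2
  have h4 := h2.comp_tendsto (qParam_tendsto_atImInfty (h := 1) one_pos)
  refine (h4.congr' ?_ ?_)
  · filter_upwards with τ
    exact SlashInvariantFormClass.eq_cuspFunction F τ (one_mem_strictPeriods N) one_ne_zero
  · filter_upwards with τ
    rfl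

theorem QA4_coeff (k : ℤ) (P : ModularForm 𝒮ℒ k) (M : ℕ)
    (h : (P : ℍ → ℂ) =O[atImInfty] fun τ => ‖Function.Periodic.qParam 1 (τ : ℂ)‖ ^ M) (n : ℕ)
    (hn : n < M) : coeff n (qExpansion 1 (P : ℍ → ℂ)) = 0 := by
  obtain ⟨C, hC⟩ := h.bound
  rw [Filter.eventually_iff, atImInfty_mem] at hC
  obtain ⟨A, hA⟩ := hC
  have hp : (1 : ℝ) ∈ (𝒮ℒ : Subgroup (GL (Fin 2) ℝ)).strictPeriods := by simp
  have hb : ∀ t : ℝ, 0 < t → A ≤ t → ‖coeff n (qExpansion 1 (P : ℍ → ℂ))‖ ≤
      |C| * Real.exp (-2 * Real.pi * t) := by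
    intro t ht hAt
    rw [ModularFormClass.qExpansion_coeff_eq_intervalIntegral P one_pos hp n ht]
    simp only [Complex.ofReal_one, div_one, one_mul]
    have h1 : ∀ u : ℝ, ‖Function.Periodic.qParam 1 ((u : ℂ) + t * Complex.I)‖ =
        Real.exp (-2 * Real.pi * t) := by
      intro u
      rw [Function.Periodic.norm_qParam]
      simp
    refine (intervalIntegral.norm_integral_le_of_norm_le_const (C := |C| * Real.exp (-2 * Real.pi * t))
      fun u _ => ?_).trans ?_
    · have h2 := hA ⟨(u : ℂ) + t * Complex.I, by simpa using ht⟩ (by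
        show A ≤ ((u : ℂ) + t * Complex.I).im
        simpa using hAt)
      have h3 : ‖P ⟨(u : ℂ) + t * Complex.I, by simpa using ht⟩‖ ≤
          C * (Real.exp (-2 * Real.pi * t)) ^ M := by
        refine h2.trans (le_of_eq ?_)
        show C * ‖‖Function.Periodic.qParam 1 ((u : ℂ) + t * Complex.I)‖ ^ M‖ = _
        rw [h1 u, Real.norm_of_nonneg (by positivity)]
      rw [norm_mul, norm_div, norm_one, norm_pow, h1 u]
      have he : 0 < Real.exp (-2 * Real.pi * t) := Real.exp_pos _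
      have he1 : Real.exp (-2 * Real.pi * t) ≤ 1 := by
        rw [Real.exp_le_one_iff]
        have := Real.pi_pos
        nlinarith [mul_pos this ht]
      have h4 : ‖P ⟨(u : ℂ) + t * Complex.I, by simpa using ht⟩‖ ≤
          |C| * (Real.exp (-2 * Real.pi * t)) ^ (n + 1) := by
        refine h3.trans ?_
        refine mul_le_mul (le_abs_self C) (pow_le_pow_of_le_one he.le he1 hn) (by positivity)
          (abs_nonneg C)
      calc 1 / Real.exp (-2 * Real.pi * t) ^ n * ‖P ⟨(u : ℂ) + t * Complex.I, by simpa using ht⟩‖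
          ≤ 1 / Real.exp (-2 * Real.pi * t) ^ n *
            (|C| * (Real.exp (-2 * Real.pi * t)) ^ (n + 1)) := by
              gcongr
        _ = |C| * Real.exp (-2 * Real.pi * t) := by
              field_simp
              ring
    · simp
  have hlim : Filter.Tendsto (fun t : ℝ => |C| * Real.exp (-2 * Real.pi * t)) Filter.atTop
      (nhds (|C| * 0)) := by
    refine Filter.Tendsto.const_mul _ ?_
    refine Real.tendsto_exp_atBot.comp ?_
    have : (-2 * Real.pi : ℝ) < 0 := by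
      have := Real.pi_pos
      linarith
    exact Filter.tendsto_id.const_mul_atTop_of_neg this
  rw [mul_zero] at hlim
  have h5 : ‖coeff n (qExpansion 1 (P : ℍ → ℂ))‖ ≤ 0 := by
    refine ge_of_tendsto hlim ?_
    filter_upwards [Filter.eventually_gt_atTop 0, Filter.eventually_ge_atTop A] with t h1 h2
    exact hb t h1 h2
  exact norm_le_zero_iff.1 h5

theorem sturm0 (N : ℕ) [NeZero N] (w : ℕ) (F : ModularForm (G0 N) (w : ℤ))
    (h : ∀ n : ℕ, 12 * n ≤ w * mu N → coeff n (qExpansion 1 (F : ℍ → ℂ)) = 0) : F = 0 := by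
  classical
  set M : ℕ := w * mu N / 12 + 1 with hM
  have hF : ∀ n : ℕ, n < M → coeff n (qExpansion 1 (F : ℍ → ℂ)) = 0 := by
    intro n hn
    apply h
    omega
  have h1 := QA4_isBigO N w F M hF
  have hP : (ModularForm.norm 𝒮ℒ F : ℍ → ℂ) =O[atImInfty]
      fun τ => ‖Function.Periodic.qParam 1 (τ : ℂ)‖ ^ M := by
    rw [ModularForm.coe_norm]
    let _ := Fintype.ofFinite (𝒮ℒ ⧸ (G0 N).subgroupOf 𝒮ℒ)
    show (∏ q : 𝒮ℒ ⧸ (G0 N).subgroupOf 𝒮ℒ, SlashInvariantForm.quotientFunc F q) =O[atImInfty] _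
    rw [← Finset.mul_prod_erase Finset.univ (SlashInvariantForm.quotientFunc F)
      (Finset.mem_univ (⟦(1 : 𝒮ℒ)⟧ : 𝒮ℒ ⧸ (G0 N).subgroupOf 𝒮ℒ))]
    have h2 : SlashInvariantForm.quotientFunc F (⟦(1 : 𝒮ℒ)⟧ : 𝒮ℒ ⧸ (G0 N).subgroupOf 𝒮ℒ) =
        (F : ℍ → ℂ) := by
      rw [SlashInvariantForm.quotientFunc_mk]
      simp
    rw [h2]
    have h3 : (∏ q ∈ Finset.univ.erase (⟦(1 : 𝒮ℒ)⟧ : 𝒮ℒ ⧸ (G0 N).subgroupOf 𝒮ℒ),
        SlashInvariantForm.quotientFunc F q) =O[atImInfty] (fun _ => (1 : ℝ)) := by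
      have h4 := Asymptotics.IsBigO.finsetProd (s := Finset.univ.erase
        (⟦(1 : 𝒮ℒ)⟧ : 𝒮ℒ ⧸ (G0 N).subgroupOf 𝒮ℒ)) (l := atImInfty)
        (f := fun q => SlashInvariantForm.quotientFunc F q) (g := fun _ _ => (1 : ℝ))
        (fun q _ => QA4_bdd N w F q)
      refine h4.congr (fun τ => ?_) (fun τ => ?_)
      · rw [Finset.prod_apply]
      · simp
    have h5 := h1.mul h3
    refine h5.congr (fun τ => rfl) (fun τ => ?_)
    rw [mul_one]
  have hzero : ModularForm.norm 𝒮ℒ F = 0 := by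
    apply ModularForm.sturm_bound_levelOne
    have h6 : ((M : ℕ) : ℕ∞) ≤ (qExpansion 1 (ModularForm.norm 𝒮ℒ F : ℍ → ℂ)).order :=
      PowerSeries.nat_le_order _ _ fun n hn => QA4_coeff _ _ M hP n hn
    refine lt_of_lt_of_le ?_ h6
    have h7 : ((w : ℤ) * (Nat.card (𝒮ℒ ⧸ (G0 N).subgroupOf 𝒮ℒ) : ℤ)).toNat = w * mu N := by
      rw [← Nat.cast_mul, Int.toNat_natCast]
      rfl
    rw [h7]
    exact_mod_cast Nat.lt_succ_self _
  rw [ModularForm.norm_eq_zero_iff] at hzero
  exact DFunLike.coe_injective hzero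

end H94M
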