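import Pool.Agent.Lib.H94M.TG

/-!
# H94M: Theorem S with an abstract numeric hypothesis (`thmS_core`)

The proof of `thmS_fam` with the lower bound `Θ(X)` of the sum of `log p` over the good primes
`p ≤ X` and the choice of the parameters `B`, `W` as hypotheses.
-/

namespace H94M

open PowerSeries H53M

theorem thmS_core (w' A : ℕ) (hA : 1 ≤ A) (h : PowerSeries ℚ) (C : ℝ) (κ : ℕ)
    (hC : ∀ n, |((coeff n h : ℚ) : ℝ)| ≤ C * ((n : ℝ) + 1) ^ κ)
    (D : ℕ → ℕ) (hD0 : ∀ n, 0 < D n) (hDd : ∀ n, D n ∣ D (n + 1))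
    (hDh : ∀ n, ∃ z : ℤ, (D n : ℚ) * coeff n h = z)
    (P : ℕ → Prop) [DecidablePred P] (hP : ∀ p, P p → p.Prime ∧ 3 < p)
    (Θ : ℕ → ℝ) (X₀ : ℕ)
    (hX₀ : ∀ X ≥ X₀, Θ X ≤ ∑ p ∈ (Finset.range (X + 1)).filter P, Real.log p)
    (hI : ∀ p, P p → PInt p h) (μ s : ℕ) (hμ : 1 ≤ μ)
    (hr : ∀ p [Fact p.Prime], P p → ∃ M : ℕ → Submodule (ZMod p) (PowerSeries (ZMod p)),
      MFam p μ s M ∧ redQ p h ∈ M (2 * w' + (p - 1) * A))
    (hnum0 : ∀ C4 : ℝ, 0 < C4 → ∃ B W : ℕ, 1 ≤ B ∧ B ≤ W ∧ 2 * (1 + w') * B ≤ W ∧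
      ∀ U : ℕ, (B : ℝ) ^ 2 * W / (8 * A) ≤ (U : ℝ) → U ≤ (B + 1) ^ 2 * (W + 1) →
        2 ≤ U ∧ ∀ N : ℕ, U / 2 ≤ N →
          X₀ ≤ 2 * (N - μ * W - s) / (μ * B) ∧
          2 * Real.log U + 12 * B * Real.log (D N) +
            2 * C4 * W * Real.log (2 + (N : ℝ) / W) <
              Θ (2 * (N - μ * W - s) / (μ * B))) :
    Rel w' h := by
  classical
  by_contra hRel
  obtain ⟨C4, hC4, hFb⟩ := Ft_bound w' A hA h C κ hC
  obtain ⟨B, W, hB, hBW, hW, hnum⟩ := hnum0 C4 hC4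
  have hWpos : (0 : ℝ) < W := by
    have : 0 < W := lt_of_lt_of_le hB hBW
    exact_mod_cast this
  have hmono : ∀ a b : ℕ, a ≤ b → C4 * W * Real.log (2 + (a : ℝ) / W) ≤
      C4 * W * Real.log (2 + (b : ℝ) / W) := by
    intro a b hab
    have hab' : (a : ℝ) ≤ b := by exact_mod_cast hab
    have h1 : (a : ℝ) / W ≤ (b : ℝ) / W := by gcongr
    have h2 : 0 ≤ (a : ℝ) / W := by positivity
    have h3 : Real.log (2 + (a : ℝ) / W) ≤ Real.log (2 + (b : ℝ) / W) :=
      Real.log_le_log (by linarith) (by linarith)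
    exact mul_le_mul_of_nonneg_left h3 (by positivity)
  obtain ⟨hU2, hNall⟩ := hnum _ (card_Idx_ge w' A B W hA hW) (card_Idx_le w' A B W)
  obtain ⟨U, hU⟩ : ∃ U, U = (Idx w' A B W).card := ⟨_, rfl⟩
  rw [← hU] at hU2 hNall
  obtain ⟨T, hT⟩ : ∃ T, T = U / 2 := ⟨_, rfl⟩
  have hE1 : 1 ≤ Real.exp (C4 * W * Real.log (2 + (T : ℝ) / W)) := by
    rw [Real.one_le_exp_iff]
    have h2 : 0 ≤ (T : ℝ) / W := by positivity
    have h3 : 0 ≤ Real.log (2 + (T : ℝ) / W) := Real.log_nonneg (by linarith)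
    positivity
  obtain ⟨x, hx0, hxb, hxT⟩ := siegel w' A B W hA h D hD0 hDd hDh (by rw [← hU]; exact hU2)
    (Real.exp (C4 * W * Real.log (2 + (T : ℝ) / W))) hE1 (by
      intro t ht n hn
      rw [← hU, ← hT] at hn
      exact (hFb B W hB hBW t ht n).trans (Real.exp_le_exp.2 (hmono n T hn)))
  rw [← hU, ← hT] at hxT
  have hxb' : ∀ t, |(x t : ℝ)| ≤ (U : ℝ) * ((D T : ℝ) ^ (6 * B) *
      Real.exp (C4 * W * Real.log (2 + (T : ℝ) / W))) := by
    intro t
    have := hxb t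
    rw [← hU, ← hT] at this
    exact this
  have hΦ0 : Phi w' W (Idx w' A B W) x h ≠ 0 := by
    intro h0
    exact hRel ⟨W, Idx w' A B W, x, fun t ht => ((mem_Idx hA).1 ht).2, hx0, h0⟩
  have hex : ∃ N, coeff N (Phi w' W (Idx w' A B W) x h) ≠ 0 := by
    by_contra hcon
    push Not at hcon
    exact hΦ0 (PowerSeries.ext (fun n => by rw [hcon n, map_zero]))
  obtain ⟨N, hN⟩ : ∃ N, N = Nat.find hex := ⟨_, rfl⟩
  have hNne : coeff N (Phi w' W (Idx w' A B W) x h) ≠ 0 := by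
    rw [hN]
    exact Nat.find_spec hex
  have hNlt : ∀ n, n < N → coeff n (Phi w' W (Idx w' A B W) x h) = 0 := by
    intro n hn
    rw [hN] at hn
    by_contra h1
    exact Nat.find_min hex hn h1
  have hTN : T ≤ N := by
    by_contra hlt
    push Not at hlt
    exact hNne (hxT N hlt)
  obtain ⟨hXX, hfin⟩ := hNall N (by rw [← hT]; exact hTN)
  have hzt : ∀ t ∈ Idx w' A B W, ∃ z : ℤ,
      ((D N : ℚ)) ^ (6 * B) * coeff N (Ft w' W h t) = z :=
    fun t ht => Ft_int w' A B W hA h D hDd hDh t ht N N le_rfl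
  choose! zt hzt' using hzt
  obtain ⟨z, hzdef⟩ : ∃ z : ℤ, z = ∑ t ∈ Idx w' A B W, x t * zt t := ⟨_, rfl⟩
  have hz : ((D N : ℚ)) ^ (6 * B) * coeff N (Phi w' W (Idx w' A B W) x h) = z := by
    rw [coeff_Phi, Finset.mul_sum, hzdef]
    push_cast
    refine Finset.sum_congr rfl fun t ht => ?_
    rw [← hzt' t ht]
    ring
  have hDN : (0 : ℝ) < (D N : ℝ) := by exact_mod_cast hD0 N
  have hDT : (0 : ℝ) < (D T : ℝ) := by exact_mod_cast hD0 T
  have hz0 : z ≠ 0 := by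
    intro h0
    rw [h0] at hz
    have hDN' : (D N : ℚ) ≠ 0 := by exact_mod_cast (hD0 N).ne'
    have := mul_eq_zero.1 (hz.trans (by norm_num))
    rcases this with h1 | h1
    · exact pow_ne_zero _ hDN' h1
    · exact hNne h1
  -- size of z
  have hzb : |(z : ℝ)| ≤ (U : ℝ) * (((U : ℝ) * ((D T : ℝ) ^ (6 * B) *
      Real.exp (C4 * W * Real.log (2 + (T : ℝ) / W)))) * ((D N : ℝ) ^ (6 * B) *
      Real.exp (C4 * W * Real.log (2 + (N : ℝ) / W)))) := by
    have h1 : |(z : ℝ)| ≤ ∑ t ∈ Idx w' A B W, |(x t : ℝ)| * |(zt t : ℝ)| := by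
      rw [hzdef]
      push_cast
      refine (Finset.abs_sum_le_sum_abs _ _).trans (le_of_eq ?_)
      exact Finset.sum_congr rfl fun t _ => abs_mul _ _
    have h2 : ∀ t ∈ Idx w' A B W, |(x t : ℝ)| * |(zt t : ℝ)| ≤
        ((U : ℝ) * ((D T : ℝ) ^ (6 * B) * Real.exp (C4 * W * Real.log (2 + (T : ℝ) / W)))) *
        ((D N : ℝ) ^ (6 * B) * Real.exp (C4 * W * Real.log (2 + (N : ℝ) / W))) := by
      intro t ht
      have h3 : |(zt t : ℝ)| ≤ (D N : ℝ) ^ (6 * B) *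
          Real.exp (C4 * W * Real.log (2 + (N : ℝ) / W)) := by
        have h4 : (zt t : ℝ) = (D N : ℝ) ^ (6 * B) * ((coeff N (Ft w' W h t) : ℚ) : ℝ) := by
          have := hzt' t ht
          have h5 : (((zt t : ℤ) : ℚ) : ℝ) =
              ((((D N : ℚ)) ^ (6 * B) * coeff N (Ft w' W h t) : ℚ) : ℝ) := by rw [this]
          push_cast at h5
          exact h5
        rw [h4, abs_mul, abs_of_nonneg (by positivity : (0 : ℝ) ≤ (D N : ℝ) ^ (6 * B))]
        exact mul_le_mul_of_nonneg_left (hFb B W hB hBW t ht N) (by positivity)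
      exact mul_le_mul (hxb' t) h3 (abs_nonneg _) (by positivity)
    refine h1.trans ((Finset.sum_le_sum h2).trans (le_of_eq ?_))
    rw [Finset.sum_const, nsmul_eq_mul, ← hU]
  have hUpos : (0 : ℝ) < (U : ℝ) := by
    have : 0 < U := by omega
    exact_mod_cast this
  have hlog : Real.log |(z : ℝ)| ≤ 2 * Real.log U + 12 * B * Real.log (D N) +
      2 * C4 * W * Real.log (2 + (N : ℝ) / W) := by
    have hzpos : 0 < |(z : ℝ)| := by
      rw [abs_pos]
      exact_mod_cast hz0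
    have h1 := Real.log_le_log hzpos hzb
    have hDTp : (0 : ℝ) < (D T : ℝ) ^ (6 * B) := by positivity
    have hDNp : (0 : ℝ) < (D N : ℝ) ^ (6 * B) := by positivity
    rw [Real.log_mul hUpos.ne' (by positivity), Real.log_mul (by positivity) (by positivity),
      Real.log_mul hUpos.ne' (by positivity), Real.log_mul hDTp.ne' (Real.exp_pos _).ne',
      Real.log_mul hDNp.ne' (Real.exp_pos _).ne', Real.log_exp, Real.log_exp, Real.log_pow,
      Real.log_pow] at h1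
    have h2 := hmono T N hTN
    have hdvd : ∀ k, D T ∣ D (T + k) := by
      intro k
      induction k with
      | zero => exact dvd_refl _
      | succ k ih => exact ih.trans (hDd (T + k))
    have h3 : D T ≤ D N := by
      have := hdvd (N - T)
      rw [Nat.add_sub_cancel' hTN] at this
      exact Nat.le_of_dvd (hD0 N) this
    have h4 : Real.log (D T) ≤ Real.log (D N) :=
      Real.log_le_log hDT (by exact_mod_cast h3)
    have h5 : (0 : ℝ) ≤ (B : ℝ) := by positivity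
    push_cast at h1
    have h6 : 6 * (B : ℝ) * Real.log (D T) ≤ 6 * (B : ℝ) * Real.log (D N) :=
      mul_le_mul_of_nonneg_left h4 (by positivity)
    nlinarith [h1, h2, h6]
  -- the primes
  have hθ' : ∑ p ∈ (Finset.range (2 * (N - μ * W - s) / (μ * B) + 1)).filter P, Real.log p ≤
      Real.log |(z : ℝ)| := by
    refine theta_le_log P (fun p hp => (hP p hp).1) (2 * (N - μ * W - s) / (μ * B)) z hz0 ?_
    intro p hp hpX
    haveI : Fact p.Prime := ⟨(hP p hp).1⟩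
    have hp3 := (hP p hp).2
    obtain ⟨M, hM, hrM⟩ := hr p hp
    have hμB : 0 < μ * B := Nat.mul_pos hμ hB
    have hpB : p * (μ * B) ≤ 2 * (N - μ * W - s) := (Nat.le_div_iff_mul_le hμB).1 hpX
    have hlt : μ * (W + (p - 1) / 2 * B) + s < N := by
      have h1 : 2 * ((p - 1) / 2) ≤ p - 1 := Nat.mul_div_le _ _
      have h2 : 2 * ((p - 1) / 2) * (μ * B) ≤ (p - 1) * (μ * B) := Nat.mul_le_mul_right _ h1
      have h3 : (p - 1) * (μ * B) < p * (μ * B) := Nat.mul_lt_mul_of_pos_right (by omega) hμB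
      have h4 : 2 * (μ * ((p - 1) / 2 * B)) < 2 * (N - μ * W - s) := by
        calc 2 * (μ * ((p - 1) / 2 * B)) = 2 * ((p - 1) / 2) * (μ * B) := by ring
          _ ≤ (p - 1) * (μ * B) := h2
          _ < p * (μ * B) := h3
          _ ≤ 2 * (N - μ * W - s) := hpB
      rw [Nat.mul_add]
      omega
    refine Phi_dvd_fam p hp3 hM w' A B W hA h (hI p hp) hrM x N hNlt hlt (D N ^ (6 * B)) z ?_
    push_cast
    exact hz
  have hlow := hX₀ _ hXX
  linarith

end H94M
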