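import Pool.Agent.Lib.H94M.TC

/-!
# H94M: the numerics of Theorem S for sparse good primes
-/

namespace H94M

theorem tlog (C : ℝ) (hC : 0 ≤ C) : ∃ t₀ : ℝ, 1 ≤ t₀ ∧ ∀ t : ℝ, t₀ ≤ t →
    C * Real.log (2 + t) ≤ t ^ (1 / 4 : ℝ) := by
  refine ⟨max 1 ((24 * C) ^ (8 : ℝ)), le_max_left _ _, fun t ht => ?_⟩
  have h1 : 1 ≤ t := (le_max_left _ _).trans ht
  have h2 : (24 * C) ^ (8 : ℝ) ≤ t := (le_max_right _ _).trans ht
  have h0 : 0 ≤ t := by linarith
  have h3 : Real.log (2 + t) ≤ (2 + t) ^ (1 / 8 : ℝ) / (1 / 8) :=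
    Real.log_le_rpow_div (by linarith) (by norm_num)
  have h4 : (2 + t) ^ (1 / 8 : ℝ) ≤ 3 * t ^ (1 / 8 : ℝ) := by
    calc (2 + t) ^ (1 / 8 : ℝ) ≤ (3 * t) ^ (1 / 8 : ℝ) :=
          Real.rpow_le_rpow (by linarith) (by linarith) (by norm_num)
      _ = 3 ^ (1 / 8 : ℝ) * t ^ (1 / 8 : ℝ) := Real.mul_rpow (by norm_num) h0
      _ ≤ 3 ^ (1 : ℝ) * t ^ (1 / 8 : ℝ) := by
          refine mul_le_mul_of_nonneg_right ?_ (Real.rpow_nonneg h0 _)
          exact Real.rpow_le_rpow_of_exponent_le (by norm_num) (by norm_num)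
      _ = 3 * t ^ (1 / 8 : ℝ) := by rw [Real.rpow_one]
  have h5 : 24 * C ≤ t ^ (1 / 8 : ℝ) := by
    have h6 : ((24 * C) ^ (8 : ℝ)) ^ (1 / 8 : ℝ) ≤ t ^ (1 / 8 : ℝ) :=
      Real.rpow_le_rpow (Real.rpow_nonneg (by positivity) _) h2 (by norm_num)
    rwa [← Real.rpow_mul (by positivity), show (8 : ℝ) * (1 / 8) = 1 by norm_num,
      Real.rpow_one] at h6
  have h6 : t ^ (1 / 4 : ℝ) = t ^ (1 / 8 : ℝ) * t ^ (1 / 8 : ℝ) := by
    rw [← Real.rpow_add (by linarith)]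
    norm_num
  have h7 : 0 ≤ t ^ (1 / 8 : ℝ) := Real.rpow_nonneg h0 _
  calc C * Real.log (2 + t) ≤ C * (24 * t ^ (1 / 8 : ℝ)) := by
        refine mul_le_mul_of_nonneg_left ?_ hC
        linarith
    _ = (24 * C) * t ^ (1 / 8 : ℝ) := by ring
    _ ≤ t ^ (1 / 8 : ℝ) * t ^ (1 / 8 : ℝ) := mul_le_mul_of_nonneg_right h5 h7
    _ = t ^ (1 / 4 : ℝ) := h6.symm

/-- the exponent -/
noncomputable def etaK (k : ℕ) : ℝ := 1 / (4 * ((k : ℝ) + 1))

theorem etaK_pos (k : ℕ) : 0 < etaK k := by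
  unfold etaK
  positivity

theorem etaK_mul (k : ℕ) : etaK k * ((k : ℝ) + 1) = 1 / 4 := by
  unfold etaK
  have : ((k : ℝ) + 1) ≠ 0 := by positivity
  field_simp

theorem etaK_le (k : ℕ) : etaK k ≤ 1 / 4 := by
  have h1 := etaK_mul k
  have h2 := etaK_pos k
  have h3 : (0 : ℝ) ≤ k := Nat.cast_nonneg k
  nlinarith

theorem keyB (k : ℕ) (B t g μ c : ℝ) (hB : 1 ≤ B) (ht : 1 ≤ t) (hg : 1 ≤ g) (hμ : 1 ≤ μ)
    (hc : 0 < c) (hc1 : c ≤ 1) (hct : c * B ^ 2 ≤ t) :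
    c / μ * (B ^ k * t ^ (1 / 4 : ℝ)) ≤ (t * g * B ^ k / (μ * B)) ^ (1 - etaK k) := by
  have hη := etaK_pos k
  have hη4 := etaK_le k
  have hηk := etaK_mul k
  have hk0 : (0 : ℝ) ≤ k := Nat.cast_nonneg k
  obtain ⟨η, hηdef⟩ : ∃ η, η = etaK k := ⟨_, rfl⟩
  rw [← hηdef] at hη hη4 hηk ⊢
  have hBk : (0 : ℝ) < B ^ k := by positivity
  have hB0 : (0 : ℝ) < B := by linarith
  have ht0 : (0 : ℝ) < t := by linarith
  have hg0 : (0 : ℝ) < g := by linarith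
  have hμ0 : (0 : ℝ) < μ := by linarith
  obtain ⟨Y, hY⟩ : ∃ Y, Y = t * g * B ^ k / (μ * B) := ⟨_, rfl⟩
  have hY0 : 0 < Y := by
    rw [hY]
    positivity
  rw [← hY]
  -- upper bound of Y^η
  have hYle : Y ≤ g * t * B ^ k := by
    rw [hY, div_le_iff₀ (by positivity)]
    have h1 : 1 ≤ μ * B := one_le_mul_of_one_le_of_one_le hμ hB
    calc t * g * B ^ k = g * t * B ^ k * 1 := by ring
      _ ≤ g * t * B ^ k * (μ * B) := mul_le_mul_of_nonneg_left h1 (by positivity)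
  have h1 : Y ^ η ≤ g * (t ^ η * B ^ ((k : ℝ) * η)) := by
    calc Y ^ η ≤ (g * t * B ^ k) ^ η := Real.rpow_le_rpow hY0.le hYle hη.le
      _ = g ^ η * t ^ η * (B ^ k) ^ η := by
          rw [Real.mul_rpow (by positivity) hBk.le, Real.mul_rpow hg0.le ht0.le]
      _ = g ^ η * (t ^ η * B ^ ((k : ℝ) * η)) := by
          rw [mul_assoc, Real.rpow_mul hB0.le, Real.rpow_natCast]
      _ ≤ g * (t ^ η * B ^ ((k : ℝ) * η)) := by
          refine mul_le_mul_of_nonneg_right ?_ (by positivity)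
          calc g ^ η ≤ g ^ (1 : ℝ) := Real.rpow_le_rpow_of_exponent_le hg (by linarith)
            _ = g := Real.rpow_one g
  -- B^(1 + kη)
  have h2 : B ≤ (t / c) ^ (1 / 2 : ℝ) := by
    have h3 : B ^ (2 : ℝ) ≤ t / c := by
      rw [le_div_iff₀ hc, Real.rpow_two]
      linarith
    have h4 : (B ^ (2 : ℝ)) ^ (1 / 2 : ℝ) ≤ (t / c) ^ (1 / 2 : ℝ) :=
      Real.rpow_le_rpow (by positivity) h3 (by norm_num)
    rwa [← Real.rpow_mul hB0.le, show (2 : ℝ) * (1 / 2) = 1 by norm_num, Real.rpow_one] at h4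
  have htc : 1 ≤ t / c := by
    rw [le_div_iff₀ hc]
    linarith
  have h3 : B * B ^ ((k : ℝ) * η) ≤ t ^ ((1 + k * η) / 2) * c⁻¹ := by
    have hex : 0 ≤ 1 + (k : ℝ) * η := by positivity
    calc B * B ^ ((k : ℝ) * η) = B ^ (1 + (k : ℝ) * η) := by
          rw [Real.rpow_add hB0, Real.rpow_one]
      _ ≤ ((t / c) ^ (1 / 2 : ℝ)) ^ (1 + (k : ℝ) * η) := Real.rpow_le_rpow hB0.le h2 hex
      _ = (t / c) ^ ((1 + (k : ℝ) * η) / 2) := by
          rw [← Real.rpow_mul (by positivity)]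
          congr 1
          ring
      _ = t ^ ((1 + (k : ℝ) * η) / 2) * (c⁻¹) ^ ((1 + (k : ℝ) * η) / 2) := by
          rw [div_eq_mul_inv, Real.mul_rpow ht0.le (by positivity)]
      _ ≤ t ^ ((1 + (k : ℝ) * η) / 2) * c⁻¹ := by
          refine mul_le_mul_of_nonneg_left ?_ (by positivity)
          have hci : 1 ≤ c⁻¹ := by
            rw [one_le_inv₀ hc]
            exact hc1
          calc (c⁻¹) ^ ((1 + (k : ℝ) * η) / 2) ≤ (c⁻¹) ^ (1 : ℝ) := by
                refine Real.rpow_le_rpow_of_exponent_le hci ?_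
                nlinarith
            _ = c⁻¹ := Real.rpow_one _
  have h4 : B * Y ^ η ≤ g * c⁻¹ * t ^ (3 / 4 : ℝ) := by
    calc B * Y ^ η ≤ B * (g * (t ^ η * B ^ ((k : ℝ) * η))) := mul_le_mul_of_nonneg_left h1 hB0.le
      _ = g * t ^ η * (B * B ^ ((k : ℝ) * η)) := by ring
      _ ≤ g * t ^ η * (t ^ ((1 + k * η) / 2) * c⁻¹) :=
          mul_le_mul_of_nonneg_left h3 (by positivity)
      _ = g * c⁻¹ * (t ^ η * t ^ ((1 + k * η) / 2)) := by ring
      _ = g * c⁻¹ * t ^ (η + (1 + k * η) / 2) := by rw [← Real.rpow_add ht0]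
      _ ≤ g * c⁻¹ * t ^ (3 / 4 : ℝ) := by
          refine mul_le_mul_of_nonneg_left ?_ (by positivity)
          refine Real.rpow_le_rpow_of_exponent_le ht ?_
          nlinarith
  -- conclusion
  have h5 : Y ^ (1 - η) = Y / Y ^ η := by rw [Real.rpow_sub hY0, Real.rpow_one]
  have hYη : 0 < Y ^ η := Real.rpow_pos_of_pos hY0 _
  rw [h5, le_div_iff₀ hYη]
  have h6 : t = t ^ (1 / 4 : ℝ) * t ^ (3 / 4 : ℝ) := by
    rw [← Real.rpow_add ht0]
    norm_num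
  have h7 : 0 < t ^ (1 / 4 : ℝ) := Real.rpow_pos_of_pos ht0 _
  have h8 : Y * (μ * B) = t * g * B ^ k := by
    rw [hY]
    field_simp
  have h9 : c / μ * (B ^ k * t ^ (1 / 4 : ℝ)) * Y ^ η * (μ * B) ≤ Y * (μ * B) := by
    rw [h8]
    calc c / μ * (B ^ k * t ^ (1 / 4 : ℝ)) * Y ^ η * (μ * B)
        = c * (B ^ k * t ^ (1 / 4 : ℝ)) * (B * Y ^ η) := by
          field_simp
      _ ≤ c * (B ^ k * t ^ (1 / 4 : ℝ)) * (g * c⁻¹ * t ^ (3 / 4 : ℝ)) :=
          mul_le_mul_of_nonneg_left h4 (by positivity)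
      _ = (t ^ (1 / 4 : ℝ) * t ^ (3 / 4 : ℝ)) * g * B ^ k * (c * c⁻¹) := by ring
      _ = t * g * B ^ k := by rw [← h6, mul_inv_cancel₀ hc.ne', mul_one]
  exact le_of_mul_le_mul_right h9 (by positivity)

theorem keyC (k : ℕ) (δ K B N μ : ℝ) (hδ1 : δ ≤ 1) (hk : 4 ≤ k * δ) (hK : 0 ≤ K)
    (hB : 1 ≤ B) (hμ : 1 ≤ μ) (hN : B ^ k ≤ N) (hBK : 48 * K * μ < B) :
    12 * B * (K * (N + 1) ^ (1 - δ)) < (N / (μ * B)) ^ (1 - etaK k) / 2 := by
  have hη := etaK_pos k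
  have hη4 := etaK_le k
  have hηk := etaK_mul k
  have hk0 : (0 : ℝ) ≤ k := Nat.cast_nonneg k
  obtain ⟨η, hηdef⟩ : ∃ η, η = etaK k := ⟨_, rfl⟩
  rw [← hηdef] at hη hη4 hηk ⊢
  have hB0 : (0 : ℝ) < B := by linarith
  have hμ0 : (0 : ℝ) < μ := by linarith
  have hBk1 : (1 : ℝ) ≤ B ^ k := one_le_pow₀ hB
  have hN1 : 1 ≤ N := hBk1.trans hN
  have hN0 : 0 < N := by linarith
  have h1 : (N + 1) ^ (1 - δ) ≤ 2 * N ^ (1 - δ) := by
    calc (N + 1) ^ (1 - δ) ≤ (2 * N) ^ (1 - δ) :=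
          Real.rpow_le_rpow (by linarith) (by linarith) (by linarith)
      _ = 2 ^ (1 - δ) * N ^ (1 - δ) := Real.mul_rpow (by norm_num) hN0.le
      _ ≤ 2 * N ^ (1 - δ) := by
          refine mul_le_mul_of_nonneg_right ?_ (Real.rpow_nonneg hN0.le _)
          have hδ0 : 0 ≤ δ := by
            by_contra hcon
            push Not at hcon
            nlinarith
          calc (2 : ℝ) ^ (1 - δ) ≤ 2 ^ (1 : ℝ) :=
                Real.rpow_le_rpow_of_exponent_le (by norm_num) (by linarith)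
            _ = 2 := Real.rpow_one _
  have hμB : 1 ≤ μ * B := one_le_mul_of_one_le_of_one_le hμ hB
  have h2 : N ^ (1 - η) / (μ * B) ≤ (N / (μ * B)) ^ (1 - η) := by
    rw [Real.div_rpow hN0.le (by positivity)]
    refine div_le_div_of_nonneg_left (Real.rpow_nonneg hN0.le _) (by positivity) ?_
    calc (μ * B) ^ (1 - η) ≤ (μ * B) ^ (1 : ℝ) :=
          Real.rpow_le_rpow_of_exponent_le hμB (by linarith)
      _ = μ * B := Real.rpow_one _
  have hηδ : η ≤ δ := by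
    by_contra hcon
    push Not at hcon
    nlinarith
  have h3 : B ^ (3 : ℕ) ≤ N ^ (δ - η) := by
    calc B ^ (3 : ℕ) = B ^ (3 : ℝ) := by
          rw [← Real.rpow_natCast]
          norm_num
      _ ≤ B ^ ((k : ℝ) * (δ - η)) := by
          refine Real.rpow_le_rpow_of_exponent_le hB ?_
          nlinarith
      _ = (B ^ k) ^ (δ - η) := by rw [Real.rpow_mul hB0.le, Real.rpow_natCast]
      _ ≤ N ^ (δ - η) := Real.rpow_le_rpow (by positivity) hN (by linarith)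
  have h4 : N ^ (1 - η) = N ^ (1 - δ) * N ^ (δ - η) := by
    rw [← Real.rpow_add hN0]
    congr 1
    ring
  have h5 : 0 < N ^ (1 - δ) := Real.rpow_pos_of_pos hN0 _
  have h6 : N ^ (1 - δ) * B ^ 2 / μ ≤ (N / (μ * B)) ^ (1 - η) := by
    refine le_trans ?_ h2
    rw [h4, div_le_div_iff₀ hμ0 (by positivity)]
    calc N ^ (1 - δ) * B ^ 2 * (μ * B) = N ^ (1 - δ) * B ^ 3 * μ := by ring
      _ ≤ N ^ (1 - δ) * N ^ (δ - η) * μ := by
          refine mul_le_mul_of_nonneg_right ?_ hμ0.le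
          exact mul_le_mul_of_nonneg_left h3 h5.le
  have h7 : 12 * B * (K * (N + 1) ^ (1 - δ)) ≤ 24 * B * K * N ^ (1 - δ) := by
    have : 12 * B * (K * (N + 1) ^ (1 - δ)) ≤ 12 * B * (K * (2 * N ^ (1 - δ))) := by
      refine mul_le_mul_of_nonneg_left ?_ (by positivity)
      exact mul_le_mul_of_nonneg_left h1 hK
    linarith
  have h8 : 24 * B * K * N ^ (1 - δ) < N ^ (1 - δ) * B ^ 2 / μ / 2 := by
    rw [lt_div_iff₀ (by norm_num), lt_div_iff₀ hμ0]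
    have h9 : 48 * K * μ * B < B * B := mul_lt_mul_of_pos_right hBK hB0
    nlinarith
  linarith

theorem numeric_sparse (w' A μ s X₀ : ℕ) (hA : 1 ≤ A) (hμ : 1 ≤ μ) (D : ℕ → ℕ)
    (k : ℕ) (δ K : ℝ) (hδ1 : δ ≤ 1) (hk : 4 ≤ k * δ) (hK : 0 ≤ K)
    (hD : ∀ n : ℕ, Real.log (D n) ≤ K * ((n : ℝ) + 1) ^ (1 - δ)) (C4 : ℝ) (hC4 : 0 < C4) :
    ∃ B W : ℕ, 1 ≤ B ∧ B ≤ W ∧ 2 * (1 + w') * B ≤ W ∧
      ∀ U : ℕ, (B : ℝ) ^ 2 * W / (8 * A) ≤ (U : ℝ) → U ≤ (B + 1) ^ 2 * (W + 1) →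
        2 ≤ U ∧ ∀ N : ℕ, U / 2 ≤ N →
          X₀ ≤ 2 * (N - μ * W - s) / (μ * B) ∧
          2 * Real.log U + 12 * B * Real.log (D N) +
            2 * C4 * W * Real.log (2 + (N : ℝ) / W) <
              ((2 * (N - μ * W - s) / (μ * B) : ℕ) : ℝ) ^ (1 - etaK k) := by
  have hA' : (1 : ℝ) ≤ A := by exact_mod_cast hA
  have hμ' : (1 : ℝ) ≤ μ := by exact_mod_cast hμ
  have hA0 : (0 : ℝ) < A := by linarith
  have hμ0 : (0 : ℝ) < μ := by linarith
  have hk1 : 1 ≤ k := by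
    rcases Nat.eq_zero_or_pos k with h | h
    · rw [h] at hk
      norm_num at hk
    · exact h
  obtain ⟨g, hg⟩ : ∃ g, g = 2 * (1 + w') := ⟨_, rfl⟩
  have hg1 : 1 ≤ g := by omega
  have hg1' : (1 : ℝ) ≤ g := by exact_mod_cast hg1
  obtain ⟨c, hc⟩ : ∃ c : ℝ, c = 1 / (32 * A) := ⟨_, rfl⟩
  have hc0 : 0 < c := by
    rw [hc]
    positivity
  have hc1 : c ≤ 1 := by
    rw [hc, div_le_one (by positivity)]
    linarith
  obtain ⟨t₀, ht₀, htl⟩ := tlog (2 * ((24 + 2 * C4) * g) * (μ / c)) (by positivity)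
  obtain ⟨B, hBdef⟩ := exists_nat_ge (max (max (32 * A * (3 * μ + 2 * s) : ℝ) (32 * A * (μ * X₀)))
    (max (32 * A * t₀ : ℝ) (48 * K * μ + 1)))
  have hB1 : 32 * A * (3 * μ + 2 * s : ℝ) ≤ B :=
    le_trans (le_trans (le_max_left _ _) (le_max_left _ _)) hBdef
  have hB2 : 32 * A * (μ * X₀ : ℝ) ≤ B :=
    le_trans (le_trans (le_max_right _ _) (le_max_left _ _)) hBdef
  have hB3 : 32 * A * t₀ ≤ (B : ℝ) :=
    le_trans (le_trans (le_max_left _ _) (le_max_right _ _)) hBdef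
  have hB4 : 48 * K * μ + 1 ≤ (B : ℝ) :=
    le_trans (le_trans (le_max_right _ _) (le_max_right _ _)) hBdef
  have hB' : (1 : ℝ) ≤ B := by
    have : 0 ≤ 48 * K * μ := by positivity
    linarith
  have hB : 1 ≤ B := by exact_mod_cast hB'
  have hB0 : (0 : ℝ) < B := by linarith
  have hcA : c * (32 * A) = 1 := by
    rw [hc]
    field_simp
  have hBB : (B : ℝ) ≤ (B : ℝ) ^ 2 := by nlinarith
  have hcB : ∀ z : ℝ, 32 * A * z ≤ B → z ≤ c * (B : ℝ) ^ 2 := by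
    intro z hz
    calc z = c * (32 * A * z) := by
          rw [← mul_assoc, ← mul_assoc, mul_assoc c, hcA, one_mul]
      _ ≤ c * B := mul_le_mul_of_nonneg_left hz hc0.le
      _ ≤ c * (B : ℝ) ^ 2 := mul_le_mul_of_nonneg_left hBB hc0.le
  have q1 := hcB _ hB1
  have q2 := hcB _ hB2
  have q3 := hcB _ hB3
  obtain ⟨W, hW⟩ : ∃ W, W = g * B ^ k := ⟨_, rfl⟩
  have hBk1 : 1 ≤ B ^ k := Nat.one_le_pow _ _ hB
  have hBBk : B ≤ B ^ k := Nat.le_self_pow (by omega) _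
  have hgBW : g * B ≤ W := by
    rw [hW]
    exact Nat.mul_le_mul_left _ hBBk
  have hBW : B ≤ W := by
    refine le_trans ?_ hgBW
    exact Nat.le_mul_of_pos_left _ hg1
  refine ⟨B, W, hB, hBW, by rw [← hg]; exact hgBW, ?_⟩
  have hBWr : (B : ℝ) ≤ W := by exact_mod_cast hBW
  have hW1 : (1 : ℝ) ≤ W := hB'.trans hBWr
  have hW0 : (0 : ℝ) < W := by linarith
  have hWr : (W : ℝ) = g * (B : ℝ) ^ k := by
    rw [hW]
    push_cast
    ring
  have hBkW : (B : ℝ) ^ k ≤ W := by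
    rw [hWr]
    have : (0 : ℝ) ≤ (B : ℝ) ^ k := by positivity
    nlinarith
  intro U hU1 hU2
  have hU3 : 4 * (c * (B : ℝ) ^ 2 * W) ≤ U := by
    refine le_trans (le_of_eq ?_) hU1
    rw [hc]
    field_simp
    norm_num
  have q4 : 3 ≤ c * (B : ℝ) ^ 2 := by
    have : (0 : ℝ) ≤ 2 * s := by positivity
    linarith
  have q5 : c * (B : ℝ) ^ 2 ≤ c * (B : ℝ) ^ 2 * W := le_mul_of_one_le_right (by positivity) hW1
  have hU4 : 2 ≤ U := by
    have : (2 : ℝ) ≤ U := by linarith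
    exact_mod_cast this
  refine ⟨hU4, fun N hUN => ?_⟩
  -- lower bound for N
  have hN1 : c * (B : ℝ) ^ 2 * W ≤ N := by
    have h1 : U ≤ 2 * N + 1 := by omega
    have h2 : (U : ℝ) ≤ 2 * N + 1 := by exact_mod_cast h1
    linarith
  have hN2 : 2 * (μ : ℝ) * W + 2 * s + μ * B ≤ N := by
    refine le_trans ?_ hN1
    have h1 : (3 * μ + 2 * s : ℝ) * W ≤ c * (B : ℝ) ^ 2 * W :=
      mul_le_mul_of_nonneg_right q1 hW0.le
    have h2 : (μ : ℝ) * B ≤ μ * W := mul_le_mul_of_nonneg_left hBWr hμ0.le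
    have h3 : 2 * (s : ℝ) ≤ 2 * s * W := le_mul_of_one_le_right (by positivity) hW1
    linarith
  obtain ⟨X, hX⟩ : ∃ X, X = 2 * (N - μ * W - s) / (μ * B) := ⟨_, rfl⟩
  rw [← hX]
  have hμB : 0 < μ * B := Nat.mul_pos hμ hB
  have hle : μ * W + s ≤ N := by
    have h3 : (μ : ℝ) * W + s ≤ N := by
      have : (0 : ℝ) ≤ μ * W := by positivity
      have : (0 : ℝ) ≤ μ * B := by positivity
      have : (0 : ℝ) ≤ s := Nat.cast_nonneg s
      linarith
    exact_mod_cast h3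
  have hXlow : (N : ℝ) ≤ X * (μ * B) := by
    have h3 := Nat.div_add_mod (2 * (N - μ * W - s)) (μ * B)
    have h4 := Nat.mod_lt (2 * (N - μ * W - s)) hμB
    have h5 : 2 * (N - μ * W - s) < μ * B * X + μ * B := by
      rw [hX]
      omega
    have h6 : ((2 * (N - μ * W - s) : ℕ) : ℝ) < ((μ * B * X + μ * B : ℕ) : ℝ) := by
      exact_mod_cast h5
    have h7 : N - μ * W - s = N - (μ * W + s) := by omega
    rw [h7] at h6
    push_cast [Nat.cast_sub hle] at h6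
    linarith
  have hYX : (N : ℝ) / (μ * B) ≤ X := by
    rw [div_le_iff₀ (by positivity)]
    exact hXlow
  constructor
  · have h1 : (X₀ : ℝ) ≤ X := by
      refine le_trans ?_ hYX
      rw [le_div_iff₀ (by positivity)]
      calc (X₀ : ℝ) * (μ * B) = μ * X₀ * B := by ring
        _ ≤ c * (B : ℝ) ^ 2 * B := mul_le_mul_of_nonneg_right q2 hB0.le
        _ ≤ c * (B : ℝ) ^ 2 * W := mul_le_mul_of_nonneg_left hBWr (by positivity)
        _ ≤ N := hN1
    exact_mod_cast h1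
  -- the main inequality
  obtain ⟨t, ht⟩ : ∃ t : ℝ, t = N / W := ⟨_, rfl⟩
  have hNt : (N : ℝ) = t * W := by
    rw [ht]
    field_simp
  have hct : c * (B : ℝ) ^ 2 ≤ t := by
    rw [ht, le_div_iff₀ hW0]
    exact hN1
  have ht1 : 1 ≤ t := by linarith
  have hY : (N : ℝ) / (μ * B) = t * g * (B : ℝ) ^ k / (μ * B) := by
    rw [hNt, hWr]
    ring
  have a1 := keyB k B t g μ c hB' ht1 hg1' hμ' hc0 hc1 hct
  rw [← hY] at a1
  have hNB : (B : ℝ) ^ k ≤ N := by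
    refine hBkW.trans (le_trans ?_ hN1)
    have : 1 * (W : ℝ) ≤ c * (B : ℝ) ^ 2 * W := mul_le_mul_of_nonneg_right (by linarith) hW0.le
    linarith
  have a2 := keyC k δ K B N μ hδ1 hk hK hB' hμ' hNB (by linarith)
  have a3 := htl t (q3.trans hct)
  have a4 : 12 * B * Real.log (D N) ≤ 12 * B * (K * ((N : ℝ) + 1) ^ (1 - δ)) :=
    mul_le_mul_of_nonneg_left (hD N) (by positivity)
  -- the term log U
  have hlog : (1 : ℝ) / 2 ≤ Real.log (2 + t) := by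
    have h3 : Real.log 2 ≤ Real.log (2 + t) := Real.log_le_log (by norm_num) (by linarith)
    have h4 := Real.log_two_gt_d9
    linarith
  have a5 : 2 * Real.log U ≤ 24 * W * Real.log (2 + t) := by
    have hU0 : (0 : ℝ) < U := by
      have : 0 < U := by omega
      exact_mod_cast this
    have h1 : (U : ℝ) ≤ 8 * (W : ℝ) ^ 3 := by
      have h2 : (U : ℝ) ≤ ((B : ℝ) + 1) ^ 2 * (W + 1) := by exact_mod_cast hU2
      have h3 : ((B : ℝ) + 1) ≤ 2 * W := by linarith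
      have h4 : ((B : ℝ) + 1) ^ 2 ≤ (2 * W) ^ 2 := pow_le_pow_left₀ (by positivity) h3 2
      have h5 : ((B : ℝ) + 1) ^ 2 * (W + 1) ≤ (2 * W) ^ 2 * (2 * W) :=
        mul_le_mul h4 (by linarith) (by positivity) (by positivity)
      calc (U : ℝ) ≤ _ := h2
        _ ≤ _ := h5
        _ = 8 * (W : ℝ) ^ 3 := by ring
    have h2 : Real.log U ≤ Real.log (8 * (W : ℝ) ^ 3) := Real.log_le_log hU0 h1
    rw [Real.log_mul (by norm_num) (by positivity), Real.log_pow] at h2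
    have h3 : Real.log W ≤ W := by
      have := Real.log_le_sub_one_of_pos hW0
      linarith
    have h4 : Real.log 8 ≤ 3 := by
      have h5 : (8 : ℝ) = 2 ^ (3 : ℕ) := by norm_num
      rw [h5, Real.log_pow]
      have := Real.log_two_lt_d9
      push_cast
      linarith
    push_cast at h2
    have h6 : Real.log U ≤ 6 * W := by linarith
    have h7 : 24 * (W : ℝ) * (1 / 2) ≤ 24 * W * Real.log (2 + t) :=
      mul_le_mul_of_nonneg_left hlog (by positivity)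
    linarith
  -- the logarithmic term
  have a6 : (24 + 2 * C4) * W * Real.log (2 + t) ≤ ((N : ℝ) / (μ * B)) ^ (1 - etaK k) / 2 := by
    have h1 : c / μ * ((B : ℝ) ^ k * (2 * ((24 + 2 * C4) * g) * (μ / c) * Real.log (2 + t))) ≤
        ((N : ℝ) / (μ * B)) ^ (1 - etaK k) := by
      refine le_trans ?_ a1
      refine mul_le_mul_of_nonneg_left ?_ (by positivity)
      exact mul_le_mul_of_nonneg_left a3 (by positivity)
    have h2 : c / μ * ((B : ℝ) ^ k * (2 * ((24 + 2 * C4) * g) * (μ / c) * Real.log (2 + t))) =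
        2 * ((24 + 2 * C4) * W * Real.log (2 + t)) := by
      rw [hWr]
      field_simp
    rw [h2] at h1
    linarith
  have a7 : ((N : ℝ) / (μ * B)) ^ (1 - etaK k) ≤ (X : ℝ) ^ (1 - etaK k) := by
    refine Real.rpow_le_rpow (by positivity) hYX ?_
    have := etaK_le k
    linarith
  rw [← ht]
  have e : (24 + 2 * C4) * W * Real.log (2 + t) =
      24 * W * Real.log (2 + t) + 2 * C4 * W * Real.log (2 + t) := by ring
  rw [e] at a6
  linarith

end H94M
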