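import Pool.Agent.Lib.H53M.X5

/-!
# H94M, module X: the transformation of the partial integral for two families

As in H53M/X3 and X5, but the transformation law connects two families `c₁` and `c₂` with the same
frequencies: `F_{c₂}(-1/z,-1/w) = (zw)^{K+1} F_{c₁}(z,w)`.
-/

namespace H94M

open H53M H53M.X Filter Topology

variable {ι : Type*} {K : ℕ} {c₁ c₂ : ι → ℂ} {u v : ι → ℝ}

theorem XN1_hasDerivAt_B (h₂ : Fam K c₂ u v) (hK : 1 ≤ K)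
    (htr : ∀ z w : ℂ, 0 < z.im → 0 < w.im →
      F c₂ u v 0 (-1 / z) (-1 / w) = (z * w) ^ (K + 1) * F c₁ u v 0 z w)
    {τ w : ℂ} (hτ : 0 < τ.im) (hw : 0 < w.im) :
    HasDerivAt (fun w => F c₂ u v 1 (-1 / τ) (-1 / w))
      (2 * Real.pi * Complex.I * τ ^ (K + 1) * w ^ (K - 1) * F c₁ u v 0 τ w) w := by
  have h1 := hasDerivAt_F h₂ (s := 0) (by omega) (X3_im hτ) (X3_im hw)
  have hw0 := X3_ne hw
  have h2 := HasDerivAt.comp w h1 (X3_hasDerivAt_inv hw0)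
  rw [htr τ w hτ hw] at h2
  refine h2.congr_deriv ?_
  obtain ⟨n, rfl⟩ : ∃ n, K = n + 1 := ⟨K - 1, by omega⟩
  have h3 : w ^ 2 * (w ^ 2)⁻¹ = 1 := mul_inv_cancel₀ (pow_ne_zero 2 hw0)
  have h4 : (τ * w) ^ (n + 1 + 1) = τ ^ (n + 1 + 1) * (w ^ n * w ^ 2) := by
    rw [mul_pow, ← pow_add]
  rw [h4, Nat.add_sub_cancel]
  linear_combination (2 * Real.pi * Complex.I * τ ^ (n + 1 + 1) * w ^ n * F c₁ u v 0 τ w) * h3

theorem XN1_AB_const (h₁ : Fam K c₁ u v) (h₂ : Fam K c₂ u v) (hK : 1 ≤ K)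
    (htr : ∀ z w : ℂ, 0 < z.im → 0 < w.im →
      F c₂ u v 0 (-1 / z) (-1 / w) = (z * w) ^ (K + 1) * F c₁ u v 0 z w)
    {τ : ℂ} (hτ : 0 < τ.im) {w w' : ℂ} (hw : 0 < w.im) (hw' : 0 < w'.im) :
    F c₂ u v 1 (-1 / τ) (-1 / w) - A K c₁ u v τ w =
      F c₂ u v 1 (-1 / τ) (-1 / w') - A K c₁ u v τ w' := by
  have h1 : ∀ z : ℂ, 0 < z.im → HasDerivAt
      (fun z => F c₂ u v 1 (-1 / τ) (-1 / z) - A K c₁ u v τ z) 0 z := by
    intro z hz
    have h2 := (XN1_hasDerivAt_B h₂ hK htr hτ hz).sub (hasDerivAt_A h₁ hK hτ hz)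
    rw [sub_self] at h2
    exact h2
  have hopen : IsOpen {z : ℂ | 0 < z.im} := isOpen_lt continuous_const Complex.continuous_im
  have hconv : Convex ℝ {z : ℂ | 0 < z.im} := convex_halfSpace_im_gt 0
  exact hopen.is_const_of_deriv_eq_zero hconv.isPreconnected
    (f := fun z => F c₂ u v 1 (-1 / τ) (-1 / z) - A K c₁ u v τ z)
    (fun z hz => (h1 z hz).differentiableAt.differentiableWithinAt)
    (fun z hz => (h1 z hz).deriv) hw hw'

theorem transB2 (h₁ : Fam K c₁ u v) (h₂ : Fam K c₂ u v) (hK : 1 ≤ K)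
    (htr : ∀ z w : ℂ, 0 < z.im → 0 < w.im →
      F c₂ u v 0 (-1 / z) (-1 / w) = (z * w) ^ (K + 1) * F c₁ u v 0 z w)
    {τ : ℂ} (hτ : 0 < τ.im) :
    F c₂ u v 1 (-1 / τ) (-1 / τ) = A K c₁ u v τ τ -
      2 * Real.pi * Complex.I * τ ^ (K + 1) * (co K (K - 1) * L c₁ u v K τ) := by
  have h1 := (lim_B h₂ hK (X3_im hτ)).sub (lim_A h₁ hK hτ)
  have h2 : Tendsto (fun _ : ℝ => F c₂ u v 1 (-1 / τ) (-1 / τ) - A K c₁ u v τ τ) (𝓝[>] 0)
      (𝓝 (0 - 2 * Real.pi * Complex.I * τ ^ (K + 1) * (co K (K - 1) * L c₁ u v K τ))) := by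
    refine h1.congr' ?_
    filter_upwards [self_mem_nhdsWithin] with y hy
    have hy' : 0 < (Complex.I * (y : ℂ)).im := by
      rw [Complex.mul_im, Complex.I_re, Complex.I_im, Complex.ofReal_re, Complex.ofReal_im]
      simpa using hy
    exact XN1_AB_const h₁ h₂ hK htr hτ hy' hτ
  have h3 := tendsto_nhds_unique h2 tendsto_const_nhds
  linear_combination -h3

end H94M
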