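import Pool.Agent.Lib.H94M.Defs
import Pool.Agent.Lib.H53M.X10
import Pool.Agent.Lib.H53M.X2
import Pool.Agent.Lib.H53M.X12

/-!
# H94M, module X: `h` on the diagonal (copy of H53M/X12 with `ArrN`), twisted and scaled families
-/

namespace H94M

open H53M H53M.X

theorem cc_norm_mul (c : ℕ → ℤ → ℤ) (e : X.Idx → ℂ) (he : ∀ i, ‖e i‖ = 1) (i : X.Idx) :
    ‖cc c i * e i‖ = ‖cc c i‖ := by
  rw [norm_mul, he, mul_one]

/-- Exchange of the roles of `u` and `v`. -/
theorem fam_symm {k : ℕ} {c : ℕ → ℤ → ℤ} (hf : Fam (k - 1) (cc c) U V)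
    (hsym : ∀ n m, c n (-m) = c n m) : Fam (k - 1) (cc c) V U := by
  have hU : ∀ i : X.Idx, U (i.1, -i.2) = V i := fun i => uu_neg i.1 i.2
  have hV : ∀ i : X.Idx, V (i.1, -i.2) = U i := fun i => vv_neg i.1 i.2
  have hc : ∀ i : X.Idx, cc c (i.1, -i.2) = cc c i := by
    intro i
    unfold cc
    simp only
    rw [hsym]
  constructor
  · intro i hi
    have h1 := hf.pos (i.1, -i.2) (by rw [hc]; exact hi)
    rw [hU, hV] at h1
    exact h1
  · intro y hy
    have hinj : Function.Injective (fun i : X.Idx => ((i.1, -i.2) : X.Idx)) := by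
      rintro ⟨a, b⟩ ⟨a', b'⟩ h
      simp only [Prod.mk.injEq, neg_inj] at h
      exact Prod.ext h.1 h.2
    refine ((hf.sum y hy).comp_injective hinj).congr fun i => ?_
    simp only [Function.comp_apply]
    rw [hU, hV, hc]

/-- Twisting by numbers of absolute value one and scaling the frequencies. -/
theorem fam_twist {ι : Type*} {K : ℕ} {c : ι → ℂ} {u v : ι → ℝ} (hf : Fam K c u v) (e : ι → ℂ)
    (he : ∀ i, ‖e i‖ = 1) (C : ℝ) (hC : 0 < C) :
    Fam K (fun i => c i * e i) (fun i => u i / C) (fun i => v i / C) := by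
  constructor
  · intro i hi
    have h1 := hf.pos i (fun h => hi (by simp [h]))
    exact ⟨div_pos h1.1 hC, div_pos h1.2 hC⟩
  · intro y hy
    refine ((hf.sum (y / C) (div_pos hy hC)).mul_left (C ^ K)).congr fun i => ?_
    rw [norm_mul, he, mul_one, inv_div, div_pow, inv_pow]
    have e1 : 2 * Real.pi * (u i / C) * y = 2 * Real.pi * u i * (y / C) := by ring
    rw [e1]
    ring

theorem XN2_summable {k : ℕ} (hk : 2 ≤ k) {c : ℕ → ℤ → ℤ} (hf : Fam (k - 1) (cc c) U V)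
    (hf' : Fam (k - 1) (cc c) V U) {τ : ℂ} (hτ : 0 < τ.im) : Summable (X12_T c τ) :=
  (summable_F hf (s := 1) (by omega) hτ hτ).add (summable_F hf' (s := 1) (by omega) hτ hτ)

theorem XN2_Cv {k : ℕ} (hk : 2 ≤ k) {c : ℕ → ℤ → ℤ} (hs : Sp c) (hf : Fam (k - 1) (cc c) U V)
    (hf' : Fam (k - 1) (cc c) V U) : Cv (ktoC (hser c)) := by
  intro τ hτ
  have h1 := (XN2_summable hk hf hf' hτ).norm
  refine Summable.of_nonneg_of_le (fun _ => norm_nonneg _) (fun n => ?_) h1.prod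
  rw [X12_coeff hs]
  refine (norm_sum_le _ _).trans ?_
  exact (h1.prod_factor n).sum_le_tsum _ (fun _ _ => norm_nonneg _)

theorem XN2_ev {k : ℕ} (hk : 2 ≤ k) {c : ℕ → ℤ → ℤ} (hs : Sp c) (hf : Fam (k - 1) (cc c) U V)
    (hf' : Fam (k - 1) (cc c) V U) {τ : ℂ} (hτ : 0 < τ.im) :
    ev (ktoC (hser c)) τ = F (cc c) U V 1 τ τ + F (cc c) V U 1 τ τ := by
  have h1 := summable_F hf (s := 1) (by omega) hτ hτ
  have h2 := summable_F hf' (s := 1) (by omega) hτ hτ
  unfold F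
  rw [← h1.tsum_add h2]
  have h3 := sum_idx (XN2_summable hk hf hf' hτ) (X12_zero' hs τ)
  refine Eq.trans ?_ h3.symm
  unfold ev
  exact tsum_congr fun n => X12_coeff hs τ n

end H94M
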