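import Pool.Agent.Lib.H94M.XN2
import Pool.Agent.Lib.H53M.X15

/-!
# H94M, module X: the function `g`, continuous, periodic, not constant (copy of H53M/X14, X15)
-/

namespace H94M

open H53M H53M.X MeasureTheory Filter Topology

/-- `g(s) = Σ c_i [v_i^{-K} e(u_i t) e(ms) + u_i^{-K} e(v_i t) e(-ms)]`. -/
noncomputable def ggN (K : ℕ) (c : X.Idx → ℂ) (u v : X.Idx → ℝ) (t : ℂ) (s : ℝ) : ℂ :=
  ∑' i : X.Idx, (c i * ((v i : ℂ)⁻¹) ^ K * ex ((u i : ℂ) * t) * ex ((i.2 : ℂ) * s) +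
    c i * ((u i : ℂ)⁻¹) ^ K * ex ((v i : ℂ) * t) * ex (-((i.2 : ℂ) * s)))

/-- the terms of `ggN` -/
noncomputable def XN3_t (K : ℕ) (c : X.Idx → ℂ) (u v : X.Idx → ℝ) (t : ℂ) (i : X.Idx) (s : ℝ) :
    ℂ :=
  c i * ((v i : ℂ)⁻¹) ^ K * ex ((u i : ℂ) * t) * ex ((i.2 : ℂ) * s) +
    c i * ((u i : ℂ)⁻¹) ^ K * ex ((v i : ℂ) * t) * ex (-((i.2 : ℂ) * s))

/-- the bound -/
noncomputable def XN3_b (K : ℕ) (c : X.Idx → ℂ) (u v : X.Idx → ℝ) (t : ℂ) (i : X.Idx) : ℝ :=
  ‖c i * ((v i : ℂ)⁻¹) ^ K * ex ((u i : ℂ) * t)‖ +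
    ‖c i * ((u i : ℂ)⁻¹) ^ K * ex ((v i : ℂ) * t)‖

variable {K : ℕ} {c : X.Idx → ℂ} {u v : X.Idx → ℝ} {t : ℂ}

theorem XN3_bound (K : ℕ) (c : X.Idx → ℂ) (u v : X.Idx → ℝ) (t : ℂ) (i : X.Idx) (s : ℝ) :
    ‖XN3_t K c u v t i s‖ ≤ XN3_b K c u v t i := by
  unfold XN3_t XN3_b
  refine (norm_add_le _ _).trans ?_
  rw [norm_mul _ (ex ((i.2 : ℂ) * s)), norm_mul _ (ex (-((i.2 : ℂ) * s))), X14_norm1, X14_norm2,
    mul_one, mul_one]

theorem XN3_tcont (K : ℕ) (c : X.Idx → ℂ) (u v : X.Idx → ℝ) (t : ℂ) (i : X.Idx) :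
    Continuous (XN3_t K c u v t i) := by
  unfold XN3_t
  refine Continuous.add ?_ ?_
  · exact continuous_const.mul (X14_cont (by fun_prop))
  · exact continuous_const.mul (X14_cont (by fun_prop))

theorem XN3_bsum (hf : Fam K c u v) (hf' : Fam K c v u) (ht : 0 < t.im) :
    Summable (XN3_b K c u v t) :=
  ((summable_L hf ht).norm).add ((summable_L hf' ht).norm)

theorem ggN_continuous (hf : Fam K c u v) (hf' : Fam K c v u) (ht : 0 < t.im) :
    Continuous (ggN K c u v t) := by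
  have h : Continuous fun s => ∑' i, XN3_t K c u v t i s :=
    continuous_tsum (fun i => XN3_tcont _ _ _ _ _ i) (XN3_bsum hf hf' ht)
      (fun i s => XN3_bound _ _ _ _ _ i s)
  exact h

theorem ggN_periodic (K : ℕ) (c : X.Idx → ℂ) (u v : X.Idx → ℝ) (t : ℂ) (s : ℝ) :
    ggN K c u v t (s + 1) = ggN K c u v t s := by
  unfold ggN
  refine tsum_congr fun i => ?_
  have h1 : ex ((i.2 : ℂ) * ((s + 1 : ℝ) : ℂ)) = ex ((i.2 : ℂ) * (s : ℂ)) := by
    rw [show (i.2 : ℂ) * ((s + 1 : ℝ) : ℂ) = (i.2 : ℂ) * (s : ℂ) + ((i.2 : ℤ) : ℂ) by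
      push_cast; ring, ex_add, ex_intCast, mul_one]
  have h2 : ex (-((i.2 : ℂ) * ((s + 1 : ℝ) : ℂ))) = ex (-((i.2 : ℂ) * (s : ℂ))) := by
    rw [show -((i.2 : ℂ) * ((s + 1 : ℝ) : ℂ)) = -((i.2 : ℂ) * (s : ℂ)) + ((-i.2 : ℤ) : ℂ) by
      push_cast; ring, ex_add, ex_intCast, mul_one]
  rw [h1, h2]

theorem XN3_intt (K : ℕ) (c : X.Idx → ℂ) (u v : X.Idx → ℝ) (t : ℂ) (i : X.Idx) :
    ∫ s in (0 : ℝ)..1, XN3_t K c u v t i s * ex (-(s : ℂ)) =
      (if i.2 = 1 then c i * ((v i : ℂ)⁻¹) ^ K * ex ((u i : ℂ) * t) else 0) +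
      (if i.2 = -1 then c i * ((u i : ℂ)⁻¹) ^ K * ex ((v i : ℂ) * t) else 0) := by
  have hc1 : Continuous fun s : ℝ => ex ((i.2 : ℂ) * (s : ℂ)) * ex (-(s : ℂ)) :=
    (X14_cont (by fun_prop)).mul (X14_cont (by fun_prop))
  have hc2 : Continuous fun s : ℝ => ex (-((i.2 : ℂ) * (s : ℂ))) * ex (-(s : ℂ)) :=
    (X14_cont (by fun_prop)).mul (X14_cont (by fun_prop))
  have h : ∀ s : ℝ, XN3_t K c u v t i s * ex (-(s : ℂ)) =
      (c i * ((v i : ℂ)⁻¹) ^ K * ex ((u i : ℂ) * t)) *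
        (ex ((i.2 : ℂ) * (s : ℂ)) * ex (-(s : ℂ))) +
      (c i * ((u i : ℂ)⁻¹) ^ K * ex ((v i : ℂ) * t)) *
        (ex (-((i.2 : ℂ) * (s : ℂ))) * ex (-(s : ℂ))) := by
    intro s
    unfold XN3_t
    ring
  simp_rw [h]
  have hi1 : IntervalIntegrable (fun s : ℝ =>
      (c i * ((v i : ℂ)⁻¹) ^ K * ex ((u i : ℂ) * t)) *
        (ex ((i.2 : ℂ) * (s : ℂ)) * ex (-(s : ℂ)))) volume 0 1 :=
    (continuous_const.mul hc1).intervalIntegrable _ _
  have hi2 : IntervalIntegrable (fun s : ℝ =>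
      (c i * ((u i : ℂ)⁻¹) ^ K * ex ((v i : ℂ) * t)) *
        (ex (-((i.2 : ℂ) * (s : ℂ))) * ex (-(s : ℂ)))) volume 0 1 :=
    (continuous_const.mul hc2).intervalIntegrable _ _
  rw [intervalIntegral.integral_add hi1 hi2,
    intervalIntegral.integral_const_mul, intervalIntegral.integral_const_mul, X14_int1, X14_int2]
  congr 1
  · split_ifs <;> simp
  · split_ifs <;> simp

theorem ggN_fourier (hf : Fam K c u v) (hf' : Fam K c v u) (ht : 0 < t.im) :
    ∫ s in (0 : ℝ)..1, ggN K c u v t s * ex (-(s : ℂ)) =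
      ∑' n : ℕ, (c (n, 1) * ((v (n, 1) : ℂ)⁻¹) ^ K * ex ((u (n, 1) : ℂ) * t) +
        c (n, -1) * ((u (n, -1) : ℂ)⁻¹) ^ K * ex ((v (n, -1) : ℂ) * t)) := by
  have hb := XN3_bsum hf hf' ht
  have hL1 := summable_L hf ht
  have hL2 := summable_L hf' ht
  have h1 : HasSum (fun i => ∫ s in (0 : ℝ)..1, XN3_t K c u v t i s * ex (-(s : ℂ)))
      (∫ s in (0 : ℝ)..1, ggN K c u v t s * ex (-(s : ℂ))) := by
    refine intervalIntegral.hasSum_integral_of_dominated_convergence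
      (fun i _ => XN3_b K c u v t i) ?_ ?_ ?_ ?_ ?_
    · intro i
      exact ((XN3_tcont K c u v t i).mul (X14_cont (by fun_prop))).aestronglyMeasurable
    · intro i
      refine Filter.Eventually.of_forall fun s _ => ?_
      rw [norm_mul, X14_norm3, mul_one]
      exact XN3_bound K c u v t i s
    · exact Filter.Eventually.of_forall fun s _ => hb
    · exact intervalIntegrable_const
    · refine Filter.Eventually.of_forall fun s _ => ?_
      have : Summable fun i => XN3_t K c u v t i s :=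
        Summable.of_norm_bounded hb (fun i => XN3_bound K c u v t i s)
      have h2 := this.hasSum.mul_right (ex (-(s : ℂ)))
      exact h2
  rw [← h1.tsum_eq]
  simp_rw [XN3_intt]
  set A : X.Idx → ℂ := fun i => if i.2 = 1 then c i * ((v i : ℂ)⁻¹) ^ K * ex ((u i : ℂ) * t) else 0
    with hA
  set B : X.Idx → ℂ := fun i => if i.2 = -1 then c i * ((u i : ℂ)⁻¹) ^ K * ex ((v i : ℂ) * t) else 0
    with hB
  have hAs : Summable A := by
    refine Summable.of_norm_bounded hL1.norm (fun i => ?_)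
    simp only [hA]
    split_ifs
    · exact le_rfl
    · rw [norm_zero]; exact norm_nonneg _
  have hBs : Summable B := by
    refine Summable.of_norm_bounded hL2.norm (fun i => ?_)
    simp only [hB]
    split_ifs
    · exact le_rfl
    · rw [norm_zero]; exact norm_nonneg _
  have e : ∑' i : X.Idx, (A i + B i) = ∑' i, A i + ∑' i, B i := hAs.tsum_add hBs
  have i1 : Function.Injective (fun n : ℕ => ((n, 1) : X.Idx)) := by
    intro a b h
    simpa using h
  have i2 : Function.Injective (fun n : ℕ => ((n, -1) : X.Idx)) := by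
    intro a b h
    simpa using h
  have eA : ∑' n : ℕ, A (n, 1) = ∑' i, A i := by
    refine i1.tsum_eq ?_
    rintro ⟨n, m⟩ h
    refine ⟨n, ?_⟩
    simp only [hA, Function.mem_support, ne_eq, ite_eq_right_iff, not_forall] at h
    obtain ⟨h, _⟩ := h
    rw [h]
  have eB : ∑' n : ℕ, B (n, -1) = ∑' i, B i := by
    refine i2.tsum_eq ?_
    rintro ⟨n, m⟩ h
    refine ⟨n, ?_⟩
    simp only [hB, Function.mem_support, ne_eq, ite_eq_right_iff, not_forall] at h
    obtain ⟨h, _⟩ := h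
    rw [h]
  have e3 : ∑' n : ℕ, (A (n, 1) + B (n, -1)) = ∑' n : ℕ, A (n, 1) + ∑' n : ℕ, B (n, -1) :=
    (hAs.comp_injective i1).tsum_add (hBs.comp_injective i2)
  rw [e, ← eA, ← eB, ← e3]
  refine tsum_congr fun n => ?_
  simp only [hA, hB, if_true]

/-- A series dominated by its first term. -/
theorem XN3_lim (b : ℕ → ℂ) (hb0 : b 0 = 0)
    (hs : Summable fun n : ℕ => b n * ex ((uu n 1 : ℂ) * Complex.I)) :
    Tendsto (fun y : ℝ => ∑' n : ℕ, b n *
      ex (((uu n 1 - uu 1 1 : ℝ) : ℂ) * (Complex.I * (y : ℂ)))) atTop (𝓝 (b 1)) := by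
  have hsum := hs.norm.mul_right (Real.exp (2 * Real.pi * uu 1 1))
  have e : ∑' n : ℕ, (if n = 1 then b 1 else 0) = b 1 := tsum_ite_eq 1 (fun _ => b 1)
  have key : Tendsto (fun y : ℝ => ∑' n : ℕ, b n *
      ex (((uu n 1 - uu 1 1 : ℝ) : ℂ) * (Complex.I * (y : ℂ)))) atTop
      (𝓝 (∑' n : ℕ, (if n = 1 then b 1 else 0))) := by
    refine tendsto_tsum_of_dominated_convergence hsum ?_ ?_
    · intro n
      by_cases h0 : n = 0
      · subst h0
        rw [hb0]
        simp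
      by_cases h1 : n = 1
      · subst h1
        simp [ex]
      · rw [if_neg h1, tendsto_zero_iff_norm_tendsto_zero]
        have hpos : 0 < 2 * Real.pi * (uu n 1 - uu 1 1) := by
          rw [X15_x]
          have : (2 : ℝ) ≤ n := by
            exact_mod_cast (by omega : 2 ≤ n)
          have hp := Real.pi_pos
          have h3 : (0 : ℝ) < ((n : ℝ) - 1) / 2 := by linarith
          positivity
        have h2 : Tendsto (fun y : ℝ => ‖b n‖ *
            Real.exp (-(2 * Real.pi * (uu n 1 - uu 1 1) * y))) atTop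
            (𝓝 (‖b n‖ * 0)) := by
          refine Tendsto.const_mul _ ?_
          refine Real.tendsto_exp_neg_atTop_nhds_zero.comp ?_
          exact tendsto_id.const_mul_atTop hpos
        rw [mul_zero] at h2
        refine h2.congr fun y => ?_
        rw [norm_mul, X15_norm]
        congr 2
        ring
    · filter_upwards [eventually_ge_atTop (1 : ℝ)] with y hy n
      by_cases h0 : n = 0
      · subst h0
        rw [hb0]
        simp
      · rw [norm_mul, norm_mul, X15_norm]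
        have h3 : ‖ex ((uu n 1 : ℂ) * Complex.I)‖ = Real.exp (-(2 * Real.pi * uu n 1)) := by
          have := X15_norm (uu n 1) 1
          simpa using this
        rw [h3, mul_assoc ‖b n‖, ← Real.exp_add]
        refine mul_le_mul_of_nonneg_left (Real.exp_le_exp.mpr ?_) (norm_nonneg _)
        have h4 : 0 ≤ uu n 1 - uu 1 1 := by
          rw [X15_x]
          have : (1 : ℝ) ≤ n := by
            exact_mod_cast (by omega : 1 ≤ n)
          linarith
        have hp := Real.pi_pos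
        have h5 : 0 ≤ 2 * Real.pi * ((uu n 1 - uu 1 1) * (y - 1)) := by
          have : 0 ≤ y - 1 := by linarith
          positivity
        nlinarith [h5]
  rw [e] at key
  exact key

theorem XN3_ne (b : ℕ → ℂ) (hb0 : b 0 = 0) (hb1 : b 1 ≠ 0)
    (hs : Summable fun n : ℕ => b n * ex ((uu n 1 : ℂ) * Complex.I)) :
    ∀ᶠ y : ℝ in atTop, ∑' n : ℕ, b n * ex ((uu n 1 : ℂ) * (Complex.I * (y : ℂ))) ≠ 0 := by
  have h := (XN3_lim b hb0 hs).eventually_ne hb1
  filter_upwards [h] with y hy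
  have e : ∑' n : ℕ, b n * ex ((uu n 1 : ℂ) * (Complex.I * (y : ℂ))) =
      (∑' n : ℕ, b n * ex (((uu n 1 - uu 1 1 : ℝ) : ℂ) * (Complex.I * (y : ℂ)))) *
        ex ((uu 1 1 : ℂ) * (Complex.I * (y : ℂ))) := by
    rw [← tsum_mul_right]
    refine tsum_congr fun n => ?_
    rw [mul_assoc, ← ex_add]
    congr 2
    push_cast
    ring
  rw [e]
  exact mul_ne_zero hy (ex_ne_zero _)

end H94M
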