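import Pool.Agent.Lib.H94M.XN3
import Pool.Agent.Lib.H94M.XN1
import Pool.Agent.Lib.H53M.X13
import Pool.Agent.Lib.H53M.X16
import Pool.Agent.Lib.H53M.X17
import Pool.Agent.Lib.H53M.KMF

/-!
# H94M, module X: the transformation of `h` and of `E₂, E₄, Δ` under `(1 0; N 1)`
-/

namespace H94M

open H53M H53M.X

theorem XN4_period (f : PowerSeries ℂ) (z : ℂ) (N : ℕ) : ev f (z + (N : ℂ)) = ev f z := by
  induction N with
  | zero => simp
  | succ n ih =>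
    have e : z + ((n + 1 : ℕ) : ℂ) = (z + (n : ℂ)) + 1 := by push_cast; ring
    rw [e, KMF_add_one, ih]

/-- `w = -1/z - N` -/
theorem XN4_im {z : ℂ} (hz : 0 < z.im) (N : ℕ) : 0 < (-1 / z - (N : ℂ)).im := by
  have h := X13_im hz
  rw [Complex.sub_im, Complex.natCast_im, sub_zero]
  exact h

theorem XN4_ne {z : ℂ} (hz : 0 < z.im) (N : ℕ) : (N : ℂ) * z + 1 ≠ 0 := by
  intro h
  have h1 : ((N : ℂ) * z + 1).im = 0 := by rw [h]; simp
  have h2 : ((N : ℂ) * z + 1).im = N * z.im := by simp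
  rw [h2] at h1
  have h3 : (N : ℝ) = 0 := by
    rcases mul_eq_zero.1 h1 with h4 | h4
    · exact h4
    · exact absurd h4 hz.ne'
  have h4 : (N : ℂ) = 0 := by exact_mod_cast h3
  rw [h4] at h
  simp at h

theorem XN4_gam {z : ℂ} (hz : 0 < z.im) (N : ℕ) :
    z / ((N : ℂ) * z + 1) = -1 / (-1 / z - (N : ℂ)) := by
  have hz0 : z ≠ 0 := X3_ne hz
  have h1 := XN4_ne hz N
  have h2 : -1 / z - (N : ℂ) ≠ 0 := X3_ne (XN4_im hz N)
  rw [div_eq_div_iff h1 h2]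
  field_simp
  ring

theorem XN4_w {z : ℂ} (hz : 0 < z.im) (N : ℕ) :
    (-1 / z - (N : ℂ)) * z = -((N : ℂ) * z + 1) := by
  have hz0 : z ≠ 0 := X3_ne hz
  field_simp
  ring

theorem XN4_modular (f : PowerSeries ℂ) (w : ℕ)
    (hf : ∀ z : ℂ, 0 < z.im → ev f (-1 / z) = z ^ (2 * w) * ev f z) {z : ℂ} (hz : 0 < z.im)
    (N : ℕ) : ev f (z / ((N : ℂ) * z + 1)) = ((N : ℂ) * z + 1) ^ (2 * w) * ev f z := by
  have h1 := XN4_im hz N
  have h2 : ev f (-1 / z - (N : ℂ)) = ev f (-1 / z) := by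
    rw [← XN4_period f (-1 / z - (N : ℂ)) N, sub_add_cancel]
  rw [XN4_gam hz, hf _ h1, h2, hf z hz, ← mul_assoc, ← mul_pow, XN4_w hz, pow_mul, pow_mul,
    neg_sq]

theorem e4_gam {z : ℂ} (hz : 0 < z.im) (N : ℕ) :
    ev (ktoC (toQ e4)) (z / ((N : ℂ) * z + 1)) =
      ((N : ℂ) * z + 1) ^ 4 * ev (ktoC (toQ e4)) z :=
  XN4_modular _ 2 (fun z hz => e4_trans hz) hz N

theorem dl_gam {z : ℂ} (hz : 0 < z.im) (N : ℕ) :
    ev (ktoC (toQ dl)) (z / ((N : ℂ) * z + 1)) =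
      ((N : ℂ) * z + 1) ^ 12 * ev (ktoC (toQ dl)) z :=
  XN4_modular _ 6 (fun z hz => dl_trans hz) hz N

theorem e2_gam {z : ℂ} (hz : 0 < z.im) (N : ℕ) :
    ev (ktoC (toQ e2)) (z / ((N : ℂ) * z + 1)) =
      ((N : ℂ) * z + 1) ^ 2 * (ev (ktoC (toQ e2)) z +
        12 / (2 * Real.pi * Complex.I) * N * ((N : ℂ) * z + 1)⁻¹) := by
  have h1 := XN4_im hz N
  have h2 : ev (ktoC (toQ e2)) (-1 / z - (N : ℂ)) = ev (ktoC (toQ e2)) (-1 / z) := by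
    rw [← XN4_period _ (-1 / z - (N : ℂ)) N, sub_add_cancel]
  rw [XN4_gam hz, e2_trans h1, h2, e2_trans hz]
  have hz0 : z ≠ 0 := X3_ne hz
  have h3 := XN4_ne hz N
  have h4 : (-1 / z - (N : ℂ)) ≠ 0 := X3_ne h1
  have h5 := XN4_w hz N
  generalize ev (ktoC (toQ e2)) z = E
  generalize 12 / (2 * (Real.pi : ℂ) * Complex.I) = κ
  have h6 : (-1 / z - (N : ℂ)) = -((N : ℂ) * z + 1) / z := by
    rw [eq_div_iff hz0, h5]
  rw [h6]
  have h7 : -((N : ℂ) * z + 1) ≠ 0 := neg_ne_zero.2 h3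
  field_simp
  ring

/-! ### the two families -/

/-- `c(n,m) e(-n/N)` -/
noncomputable def c1N (N : ℕ) (c : ℕ → ℤ → ℤ) : X.Idx → ℂ :=
  fun i => cc c i * ex (-((i.1 : ℂ) / (N : ℂ)))

/-- `c(n,m) e(n/N)` -/
noncomputable def c2N (N : ℕ) (c : ℕ → ℤ → ℤ) : X.Idx → ℂ :=
  fun i => cc c i * ex ((i.1 : ℂ) / (N : ℂ))

/-- `u/N` -/
noncomputable def uN (N : ℕ) : X.Idx → ℝ := fun i => U i / (N : ℝ)

/-- `v/N` -/
noncomputable def vN (N : ℕ) : X.Idx → ℝ := fun i => V i / (N : ℝ)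

theorem XN4_norm1 (N n : ℕ) : ‖ex (-((n : ℂ) / (N : ℂ)))‖ = 1 := by
  rw [norm_ex]
  have : (-((n : ℂ) / (N : ℂ))).im = 0 := by
    have e : (-((n : ℂ) / (N : ℂ))) = ((-((n : ℝ) / (N : ℝ)) : ℝ) : ℂ) := by push_cast; ring
    rw [e, Complex.ofReal_im]
  rw [this]
  simp

theorem XN4_norm2 (N n : ℕ) : ‖ex ((n : ℂ) / (N : ℂ))‖ = 1 := by
  rw [norm_ex]
  have : ((n : ℂ) / (N : ℂ)).im = 0 := by
    have e : ((n : ℂ) / (N : ℂ)) = (((n : ℝ) / (N : ℝ) : ℝ) : ℂ) := by push_cast; ring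
    rw [e, Complex.ofReal_im]
  rw [this]
  simp

variable {N k : ℕ} {c : ℕ → ℤ → ℤ}

theorem fam1 (hN : 0 < N) (hf : Fam (k - 1) (cc c) U V) :
    Fam (k - 1) (c1N N c) (uN N) (vN N) :=
  fam_twist hf _ (fun i => XN4_norm1 N i.1) (N : ℝ) (by exact_mod_cast hN)

theorem fam2 (hN : 0 < N) (hf : Fam (k - 1) (cc c) U V) :
    Fam (k - 1) (c2N N c) (uN N) (vN N) :=
  fam_twist hf _ (fun i => XN4_norm2 N i.1) (N : ℝ) (by exact_mod_cast hN)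

theorem fam1' (hN : 0 < N) (hf : Fam (k - 1) (cc c) V U) :
    Fam (k - 1) (c1N N c) (vN N) (uN N) :=
  fam_twist hf _ (fun i => XN4_norm1 N i.1) (N : ℝ) (by exact_mod_cast hN)

theorem fam2' (hN : 0 < N) (hf : Fam (k - 1) (cc c) V U) :
    Fam (k - 1) (c2N N c) (vN N) (uN N) :=
  fam_twist hf _ (fun i => XN4_norm2 N i.1) (N : ℝ) (by exact_mod_cast hN)

theorem XN4_uv (hs : Sp c) {i : X.Idx} (h : c i.1 i.2 ≠ 0) :
    ((U i : ℝ) : ℂ) + ((V i : ℝ) : ℂ) = (i.1 : ℂ) := by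
  obtain ⟨-, -, huv, -⟩ := facts hs h
  rw [← Complex.ofReal_add]
  unfold U V
  rw [huv, Complex.ofReal_natCast]

/-- terms of `F c₁` -/
theorem XN4_term1 (hN : 0 < N) (hs : Sp c) (i : X.Idx) (z w : ℂ) :
    c1N N c i * ex (((uN N i : ℝ) : ℂ) * z + ((vN N i : ℝ) : ℂ) * w) =
      cc c i * ex ((U i : ℂ) * ((z - 1) / N) + (V i : ℂ) * ((w - 1) / N)) := by
  by_cases h : c i.1 i.2 = 0
  · simp [c1N, cc, h]
  · have hN' : (N : ℂ) ≠ 0 := by exact_mod_cast hN.ne'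
    unfold c1N uN vN
    rw [mul_assoc, ← ex_add, ← XN4_uv hs h]
    congr 2
    push_cast
    field_simp
    ring

/-- terms of `F c₂` -/
theorem XN4_term2 (hN : 0 < N) (hs : Sp c) (i : X.Idx) (z w : ℂ) :
    c2N N c i * ex (((uN N i : ℝ) : ℂ) * z + ((vN N i : ℝ) : ℂ) * w) =
      cc c i * ex ((U i : ℂ) * ((1 + z) / N) + (V i : ℂ) * ((1 + w) / N)) := by
  by_cases h : c i.1 i.2 = 0
  · simp [c2N, cc, h]
  · have hN' : (N : ℂ) ≠ 0 := by exact_mod_cast hN.ne'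
    unfold c2N uN vN
    rw [mul_assoc, ← ex_add, ← XN4_uv hs h]
    congr 2
    push_cast
    field_simp
    ring

theorem XN4_F1 (hN : 0 < N) (hs : Sp c) (z w : ℂ) :
    F (c1N N c) (uN N) (vN N) 0 z w = F (cc c) U V 0 ((z - 1) / N) ((w - 1) / N) := by
  unfold F
  refine tsum_congr fun i => ?_
  rw [pow_zero, mul_one, pow_zero, mul_one, XN4_term1 hN hs]

theorem XN4_F2 (hN : 0 < N) (hs : Sp c) (z w : ℂ) :
    F (c2N N c) (uN N) (vN N) 0 z w = F (cc c) U V 0 ((1 + z) / N) ((1 + w) / N) := by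
  unfold F
  refine tsum_congr fun i => ?_
  rw [pow_zero, mul_one, pow_zero, mul_one, XN4_term2 hN hs]

theorem XN4_div_im (N : ℕ) (z : ℂ) : (z / (N : ℂ)).im = z.im / N := by
  have e : z / (N : ℂ) = (((N : ℝ)⁻¹ : ℝ) : ℂ) * z := by
    push_cast
    rw [div_eq_inv_mul]
  rw [e, Complex.im_ofReal_mul, div_eq_inv_mul]

theorem XN4_im1 (hN : 0 < N) {z : ℂ} (hz : 0 < z.im) : 0 < ((z - 1) / N).im := by
  rw [XN4_div_im, Complex.sub_im, Complex.one_im, sub_zero]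
  exact div_pos hz (by exact_mod_cast hN)

theorem XN4_im2 (hN : 0 < N) {z : ℂ} (hz : 0 < z.im) : 0 < ((1 + z) / N).im := by
  rw [XN4_div_im, Complex.add_im, Complex.one_im, zero_add]
  exact div_pos hz (by exact_mod_cast hN)

/-- the law between the two families -/
theorem XN4_trans (hN : 0 < N) (hk : 2 ≤ k) (hA : ArrN N k c) {z w : ℂ} (hz : 0 < z.im)
    (hw : 0 < w.im) :
    F (c2N N c) (uN N) (vN N) 0 (-1 / z) (-1 / w) =
      (z * w) ^ (k - 1 + 1) * F (c1N N c) (uN N) (vN N) 0 z w := by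
  have hs : Sp c := hA.supp
  have hf := hA.fam
  have hN' : (N : ℂ) ≠ 0 := by exact_mod_cast hN.ne'
  have hz0 : z ≠ 0 := X3_ne hz
  have hw0 : w ≠ 0 := X3_ne hw
  rw [XN4_F1 hN hs, XN4_F2 hN hs]
  have h1 := hA.trans 1 0 (N : ℤ) 1 (by ring) dvd_rfl ((z - 1) / N) ((w - 1) / N)
    (XN4_im1 hN hz) (XN4_im1 hN hw)
  have e1 : (((N : ℤ) : ℂ) * ((z - 1) / N) + ((1 : ℤ) : ℂ)) = z := by
    push_cast
    field_simp
    ring
  have e2 : (((N : ℤ) : ℂ) * ((w - 1) / N) + ((1 : ℤ) : ℂ)) = w := by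
    push_cast
    field_simp
    ring
  rw [e1, e2] at h1
  have e3 : (((1 : ℤ) : ℂ) * ((z - 1) / N) + ((0 : ℤ) : ℂ)) / z = (1 + -1 / z) / N := by
    push_cast
    field_simp
    ring
  have e4 : (((1 : ℤ) : ℂ) * ((w - 1) / N) + ((0 : ℤ) : ℂ)) / w = (1 + -1 / w) / N := by
    push_cast
    field_simp
    ring
  rw [e3, e4] at h1
  rw [GS_eq_F hs (summable_F hf (s := 0) (Nat.zero_le _) (XN4_im2 hN (X13_im hz))
    (XN4_im2 hN (X13_im hw))), GS_eq_F hs (summable_F hf (s := 0) (Nat.zero_le _)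
    (XN4_im1 hN hz) (XN4_im1 hN hw))] at h1
  rw [h1]
  have : k - 1 + 1 = k := by omega
  rw [this]

theorem XN4_swap1 (z w : ℂ) :
    F (c1N N c) (vN N) (uN N) 0 z w = F (c1N N c) (uN N) (vN N) 0 w z := by
  unfold F
  refine tsum_congr fun i => ?_
  rw [pow_zero, pow_zero, add_comm]

theorem XN4_swap2 (z w : ℂ) :
    F (c2N N c) (vN N) (uN N) 0 z w = F (c2N N c) (uN N) (vN N) 0 w z := by
  unfold F
  refine tsum_congr fun i => ?_
  rw [pow_zero, pow_zero, add_comm]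

/-- `h` at `(1 - 1/t)/N` in terms of `F c₂` -/
theorem XN4_diag (hN : 0 < N) (hs : Sp c) (z : ℂ) :
    F (cc c) U V 1 ((1 + z) / N) ((1 + z) / N) =
      (N : ℂ)⁻¹ * F (c2N N c) (uN N) (vN N) 1 z z := by
  unfold F
  rw [← tsum_mul_left]
  refine tsum_congr fun i => ?_
  have hN' : (N : ℂ) ≠ 0 := by exact_mod_cast hN.ne'
  have h := XN4_term2 hN hs i z z
  have e : ((vN N i : ℝ) : ℂ)⁻¹ = (N : ℂ) * ((V i : ℝ) : ℂ)⁻¹ := by
    unfold vN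
    push_cast
    rw [inv_div]
    ring
  rw [pow_one, pow_one, e]
  linear_combination (-((V i : ℝ) : ℂ)⁻¹) * h + (((V i : ℝ) : ℂ)⁻¹ * c2N N c i *
    ex (((uN N i : ℝ) : ℂ) * z + ((vN N i : ℝ) : ℂ) * z)) *
      (inv_mul_cancel₀ hN' : (N : ℂ)⁻¹ * (N : ℂ) = 1) * (-1 : ℂ)

theorem XN4_diag' (hN : 0 < N) (hs : Sp c) (z : ℂ) :
    F (cc c) V U 1 ((1 + z) / N) ((1 + z) / N) =
      (N : ℂ)⁻¹ * F (c2N N c) (vN N) (uN N) 1 z z := by
  unfold F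
  rw [← tsum_mul_left]
  refine tsum_congr fun i => ?_
  have hN' : (N : ℂ) ≠ 0 := by exact_mod_cast hN.ne'
  have h := XN4_term2 hN hs i z z
  have e : ((uN N i : ℝ) : ℂ)⁻¹ = (N : ℂ) * ((U i : ℝ) : ℂ)⁻¹ := by
    unfold uN
    push_cast
    rw [inv_div]
    ring
  rw [pow_one, pow_one, e, add_comm ((V i : ℂ) * ((1 + z) / N)),
    add_comm (((vN N i : ℝ) : ℂ) * z)]
  linear_combination (-((U i : ℝ) : ℂ)⁻¹) * h + (((U i : ℝ) : ℂ)⁻¹ * c2N N c i *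
    ex (((uN N i : ℝ) : ℂ) * z + ((vN N i : ℝ) : ℂ) * z)) *
      (inv_mul_cancel₀ hN' : (N : ℂ)⁻¹ * (N : ℂ) = 1) * (-1 : ℂ)

/-- `Q_s(t) = F_s + F_s` with the roles of `u` and `v` exchanged. -/
noncomputable def QN (N : ℕ) (c : ℕ → ℤ → ℤ) (s : ℕ) (t : ℂ) : ℂ :=
  F (c1N N c) (uN N) (vN N) s t t + F (c1N N c) (vN N) (uN N) s t t

theorem ev_transN (hN : 0 < N) (hk : 2 ≤ k) (hA : ArrN N k c) {t : ℂ} (ht : 0 < t.im) :
    ev (ktoC (hser c)) ((1 + -1 / t) / N) = (N : ℂ)⁻¹ * (2 * Real.pi * Complex.I *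
      t ^ (k - 1 + 1) * (∑ j ∈ Finset.range (k - 1), co (k - 1) j * t ^ (k - 1 - 1 - j) *
        QN N c (j + 1) t - co (k - 1) (k - 1 - 1) * (L (c1N N c) (uN N) (vN N) (k - 1) t +
          L (c1N N c) (vN N) (uN N) (k - 1) t))) := by
  have hs : Sp c := hA.supp
  have hK : 1 ≤ k - 1 := by omega
  have hf := hA.fam
  have hf' := fam_symm hf hA.symm
  have h1 := transB2 (fam1 hN hf) (fam2 hN hf) hK (fun z w hz hw => XN4_trans hN hk hA hz hw) ht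
  have h2 := transB2 (fam1' hN hf') (fam2' hN hf') hK (fun z w hz hw => by
    rw [XN4_swap1, XN4_swap2, XN4_trans hN hk hA hw hz, mul_comm w z]) ht
  rw [XN2_ev hk hs hf hf' (XN4_im2 hN (X13_im ht)), XN4_diag hN hs, XN4_diag' hN hs, h1, h2]
  unfold A QN
  have h3 : ∑ j ∈ Finset.range (k - 1), co (k - 1) j * t ^ (k - 1 - 1 - j) *
      (F (c1N N c) (uN N) (vN N) (j + 1) t t + F (c1N N c) (vN N) (uN N) (j + 1) t t) =
      ∑ j ∈ Finset.range (k - 1), co (k - 1) j * t ^ (k - 1 - 1 - j) *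
        F (c1N N c) (uN N) (vN N) (j + 1) t t +
      ∑ j ∈ Finset.range (k - 1), co (k - 1) j * t ^ (k - 1 - 1 - j) *
        F (c1N N c) (vN N) (uN N) (j + 1) t t := by
    rw [← Finset.sum_add_distrib]
    exact Finset.sum_congr rfl fun j _ => by ring
  rw [h3]
  ring

end H94M
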