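import Pool.Agent.Lib.H94M.XN4

/-!
# H94M, module X: shifts `t ↦ t + 2NM` and non-constancy of `g`
-/

namespace H94M

open H53M H53M.X Filter Topology

variable {N k : ℕ} {c : ℕ → ℤ → ℤ}

theorem XN5_Nne (hN : 0 < N) : (N : ℂ) ≠ 0 := by exact_mod_cast hN.ne'

theorem XN5_ex (hN : 0 < N) (hs : Sp c) {i : X.Idx} (h : c i.1 i.2 ≠ 0) (t : ℂ) (M : ℕ) :
    ex (((uN N i : ℝ) : ℂ) * (t + 2 * N * (M : ℂ)) + ((vN N i : ℝ) : ℂ) * (t + 2 * N * (M : ℂ))) =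
      ex (((uN N i : ℝ) : ℂ) * t + ((vN N i : ℝ) : ℂ) * t) := by
  have hN' := XN5_Nne hN
  have e2 : ((uN N i : ℝ) : ℂ) * (t + 2 * N * (M : ℂ)) + ((vN N i : ℝ) : ℂ) * (t + 2 * N * (M : ℂ)) =
      (((uN N i : ℝ) : ℂ) * t + ((vN N i : ℝ) : ℂ) * t) + ((2 * i.1 * M : ℕ) : ℂ) := by
    push_cast
    rw [← XN4_uv hs h]
    unfold uN vN
    push_cast
    field_simp
  rw [e2, ex_add, ex_natCast, mul_one]

theorem QN_shift (hN : 0 < N) (hs : Sp c) (s : ℕ) (t : ℂ) (M : ℕ) :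
    QN N c s (t + 2 * N * (M : ℂ)) = QN N c s t := by
  unfold QN F
  congr 1
  · refine tsum_congr fun i => ?_
    by_cases h : c i.1 i.2 = 0
    · simp [c1N, cc, h]
    · congr 1
      exact XN5_ex hN hs h t M
  · refine tsum_congr fun i => ?_
    by_cases h : c i.1 i.2 = 0
    · simp [c1N, cc, h]
    · congr 1
      have := XN5_ex hN hs h t M
      rw [add_comm, this, add_comm]

theorem XN5_u (hN : 0 < N) (i : X.Idx) (t : ℂ) (M : ℕ) :
    ex (((uN N i : ℝ) : ℂ) * (t + 2 * N * (M : ℂ))) =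
      ex (((uN N i : ℝ) : ℂ) * t) * ex ((i.2 : ℂ) * ((((M : ℝ) / Real.sqrt 5 : ℝ)) : ℂ)) := by
  have hN' := XN5_Nne hN
  have e : ((uN N i : ℝ) : ℂ) * (t + 2 * N * (M : ℂ)) =
      ((M * i.1 : ℕ) : ℂ) + (((uN N i : ℝ) : ℂ) * t +
        (i.2 : ℂ) * ((((M : ℝ) / Real.sqrt 5 : ℝ)) : ℂ)) := by
    unfold uN U uu
    push_cast
    field_simp
    ring
  rw [e, ex_add, ex_natCast, one_mul, ex_add]

theorem XN5_v (hN : 0 < N) (i : X.Idx) (t : ℂ) (M : ℕ) :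
    ex (((vN N i : ℝ) : ℂ) * (t + 2 * N * (M : ℂ))) =
      ex (((vN N i : ℝ) : ℂ) * t) * ex (-((i.2 : ℂ) * ((((M : ℝ) / Real.sqrt 5 : ℝ)) : ℂ))) := by
  have hN' := XN5_Nne hN
  have e : ((vN N i : ℝ) : ℂ) * (t + 2 * N * (M : ℂ)) =
      ((M * i.1 : ℕ) : ℂ) + (((vN N i : ℝ) : ℂ) * t +
        -((i.2 : ℂ) * ((((M : ℝ) / Real.sqrt 5 : ℝ)) : ℂ))) := by
    unfold vN V vv
    push_cast
    field_simp
    ring
  rw [e, ex_add, ex_natCast, one_mul, ex_add]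

theorem XN5_im2 {t : ℂ} (ht : 0 < t.im) (M : ℕ) : 0 < (t + 2 * N * (M : ℂ)).im := by
  have e : t + 2 * N * (M : ℂ) = t + ((2 * N * M : ℕ) : ℂ) := by push_cast; ring
  rw [e, Complex.add_im, Complex.natCast_im, add_zero]
  exact ht

theorem LN_shift (hN : 0 < N) (hf : Fam (k - 1) (cc c) U V) (hf' : Fam (k - 1) (cc c) V U)
    {t : ℂ} (ht : 0 < t.im) (M : ℕ) :
    L (c1N N c) (uN N) (vN N) (k - 1) (t + 2 * N * (M : ℂ)) +
      L (c1N N c) (vN N) (uN N) (k - 1) (t + 2 * N * (M : ℂ)) =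
      ggN (k - 1) (c1N N c) (uN N) (vN N) t ((M : ℝ) / Real.sqrt 5) := by
  have h1 := summable_L (fam1 hN hf) (XN5_im2 (N := N) ht M)
  have h2 := summable_L (fam1' hN hf') (XN5_im2 (N := N) ht M)
  unfold L ggN
  rw [← h1.tsum_add h2]
  refine tsum_congr fun i => ?_
  rw [XN5_u hN, XN5_v hN]
  ring

/-- `b_n` -/
noncomputable def XN5_b (N K : ℕ) (c : ℕ → ℤ → ℤ) (n : ℕ) : ℂ :=
  ((c n 1 : ℂ) + (c n (-1) : ℂ)) * (N : ℂ) ^ K * ((vv n 1 : ℂ)⁻¹) ^ K *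
    ex (-((vv n 1 : ℝ) : ℂ) / N)

theorem XN5_b0 (hs : Sp c) (N K : ℕ) : XN5_b N K c 0 = 0 := by
  have h1 : c 0 1 = 0 := by
    by_contra h
    have := (hs 0 1 h).1
    norm_num at this
  have h2 : c 0 (-1) = 0 := by
    by_contra h
    have := (hs 0 (-1) h).1
    norm_num at this
  unfold XN5_b
  rw [h1, h2]
  simp

theorem XN5_b1 (hN : 0 < N) (hA : ArrN N k c) (K : ℕ) : XN5_b N K c 1 ≠ 0 := by
  unfold XN5_b
  refine mul_ne_zero (mul_ne_zero (mul_ne_zero ?_ (pow_ne_zero _ (XN5_Nne hN)))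
    (pow_ne_zero _ (inv_ne_zero ?_))) (ex_ne_zero _)
  · rw [hA.symm 1 1, ← two_mul]
    refine mul_ne_zero two_ne_zero ?_
    exact_mod_cast hA.ne
  · exact_mod_cast X15_v.ne'

/-- one term of the Fourier coefficient of `g` at `t = 1 + N i y` -/
theorem XN5_term (hN : 0 < N) (hs : Sp c) (K n : ℕ) (τ : ℂ) :
    c1N N c (n, 1) * (((vN N (n, 1) : ℝ) : ℂ)⁻¹) ^ K * ex (((uN N (n, 1) : ℝ) : ℂ) * (1 + N * τ)) +
      c1N N c (n, -1) * (((uN N (n, -1) : ℝ) : ℂ)⁻¹) ^ K *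
        ex (((vN N (n, -1) : ℝ) : ℂ) * (1 + N * τ)) =
      XN5_b N K c n * ex ((uu n 1 : ℂ) * τ) := by
  have hN' := XN5_Nne hN
  have e1 : vN N (n, 1) = vv n 1 / N := rfl
  have e2 : uN N (n, 1) = uu n 1 / N := rfl
  have e3 : uN N (n, -1) = vv n 1 / N := by
    have := uu_neg n 1
    unfold uN U
    simp only
    rw [this]
  have e4 : vN N (n, -1) = uu n 1 / N := by
    have := vv_neg n 1
    unfold vN V
    simp only
    rw [this]
  rw [e1, e2, e3, e4]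
  unfold c1N cc XN5_b
  simp only
  have e5 : ((uu n 1 : ℝ) : ℂ) + ((vv n 1 : ℝ) : ℂ) = (n : ℂ) := by
    rw [← Complex.ofReal_add]
    unfold uu vv
    push_cast
    ring
  have e6 : ex (-((n : ℂ) / N)) * ex (((uu n 1 / N : ℝ) : ℂ) * (1 + N * τ)) =
      ex (-((vv n 1 : ℝ) : ℂ) / N) * ex ((uu n 1 : ℂ) * τ) := by
    rw [← ex_add, ← ex_add, ← e5]
    congr 1
    push_cast
    field_simp
    ring
  have e7 : (((vv n 1 / N : ℝ) : ℂ)⁻¹) ^ K = (N : ℂ) ^ K * ((vv n 1 : ℂ)⁻¹) ^ K := by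
    push_cast
    rw [inv_div, div_eq_mul_inv, mul_pow]
  rw [e7]
  linear_combination (((c n 1 : ℂ) + (c n (-1) : ℂ)) * (N : ℂ) ^ K * ((vv n 1 : ℂ)⁻¹) ^ K) * e6

theorem XN5_sum (hN : 0 < N) (hs : Sp c) (hf : Fam (k - 1) (cc c) U V)
    (hf' : Fam (k - 1) (cc c) V U) :
    Summable fun n : ℕ => XN5_b N (k - 1) c n * ex ((uu n 1 : ℂ) * Complex.I) := by
  have i1 : Function.Injective (fun n : ℕ => ((n, 1) : X.Idx)) := by
    intro a b h
    simpa using h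
  have i2 : Function.Injective (fun n : ℕ => ((n, -1) : X.Idx)) := by
    intro a b h
    simpa using h
  have ht : 0 < (1 + (N : ℂ) * Complex.I).im := by
    simp
    exact hN
  have h1 := (summable_L (fam1 hN hf) ht).comp_injective i1
  have h2 := (summable_L (fam1' hN hf') ht).comp_injective i2
  refine (h1.add h2).congr fun n => ?_
  simp only [Function.comp_apply]
  exact XN5_term hN hs (k - 1) n Complex.I

theorem ggN_nonconst (hN : 0 < N) (hA : ArrN N k c) :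
    ∀ᶠ y : ℝ in atTop, ∃ s t : ℝ,
      ggN (k - 1) (c1N N c) (uN N) (vN N) (1 + N * (Complex.I * (y : ℂ))) s ≠
        ggN (k - 1) (c1N N c) (uN N) (vN N) (1 + N * (Complex.I * (y : ℂ))) t := by
  have hs : Sp c := hA.supp
  have hf := hA.fam
  have hf' := fam_symm hf hA.symm
  filter_upwards [XN3_ne _ (XN5_b0 hs N (k - 1)) (XN5_b1 hN hA (k - 1)) (XN5_sum hN hs hf hf'),
    eventually_gt_atTop (0 : ℝ)] with y hy hy0
  by_contra hcon
  push Not at hcon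
  apply hy
  have him : 0 < (1 + (N : ℂ) * (Complex.I * (y : ℂ))).im := by
    have : (1 + (N : ℂ) * (Complex.I * (y : ℂ))).im = N * y := by simp
    rw [this]
    exact mul_pos (by exact_mod_cast hN) hy0
  have h0 := ggN_fourier (fam1 hN hf) (fam1' hN hf') him
  have h1 : ∀ s : ℝ, ggN (k - 1) (c1N N c) (uN N) (vN N) (1 + N * (Complex.I * (y : ℂ))) s *
      ex (-(s : ℂ)) = ggN (k - 1) (c1N N c) (uN N) (vN N) (1 + N * (Complex.I * (y : ℂ))) 0 *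
        ex (((-1 : ℤ) : ℂ) * (s : ℂ)) := by
    intro s
    rw [hcon s 0]
    congr 2
    push_cast
    ring
  simp_rw [h1] at h0
  rw [intervalIntegral.integral_const_mul, X14_int0] at h0
  simp only [XN5_term hN hs] at h0
  rw [← h0]
  simp

end H94M
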